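import Pool.Agent.Lib.MP_b4b3cb_nt.StF

/-! Exponents of primes in ideals, approximation. -/

set_option linter.unusedSectionVars false

namespace Pool.Agent.SC

open NumberField Pool.Agent.Stark
open scoped Classical ComplexConjugate

namespace CnAux

open Pool.Agent.Stark.ComplAux

variable {F : Type} [Field F] [NumberField F]

theorem finm {𝔪 : Ideal (𝓞 F)} (h : 𝔪 ≠ ⊥) (w : Pr F) : FiniteMultiplicity w.asIdeal 𝔪 :=
  FiniteMultiplicity.of_not_isUnit w.prime.not_isUnit h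

theorem le_pow {𝔪 : Ideal (𝓞 F)} (h : 𝔪 ≠ ⊥) (w : Pr F) (n : ℕ) :
    𝔪 ≤ w.asIdeal ^ n ↔ n ≤ cn 𝔪 w := by
  rw [← Ideal.dvd_iff_le, cn, (finm h w).pow_dvd_iff_le_multiplicity]

theorem le_cn {𝔪 : Ideal (𝓞 F)} (h : 𝔪 ≠ ⊥) (w : Pr F) : 𝔪 ≤ w.asIdeal ^ cn 𝔪 w :=
  (le_pow h w _).2 le_rfl

theorem mul {𝔪 𝔫 : Ideal (𝓞 F)} (h : 𝔪 ≠ ⊥) (h' : 𝔫 ≠ ⊥) (w : Pr F) :
    cn (𝔪 * 𝔫) w = cn 𝔪 w + cn 𝔫 w :=
  multiplicity_mul w.prime (finm (mul_ne_zero h h') w)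

theorem span {x : 𝓞 F} (hx : x ≠ 0) (w : Pr F) :
    (cn (Ideal.span {x}) w : ℤ) = og w (x : F) := by
  have h0 : Ideal.span {x} ≠ ⊥ := by simpa using hx
  have h1 : ∀ n : ℕ, n ≤ cn (Ideal.span {x}) w ↔ (n : ℤ) ≤ og w (x : F) := fun n => by
    rw [← le_pow h0, le_og_iff w hx, Ideal.span_singleton_le_iff_mem]
  have h2 := og_nonneg w x
  have h3 := (h1 _).1 le_rfl
  have h4 := (h1 (og w (x : F)).toNat).2 (by omega)
  omega

theorem fin {𝔪 : Ideal (𝓞 F)} (h : 𝔪 ≠ ⊥) : {w : Pr F | 𝔪 ≤ w.asIdeal}.Finite :=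
  (Ideal.finite_factors h).subset fun _ hw => Ideal.dvd_iff_le.2 hw

theorem zero {𝔪 : Ideal (𝓞 F)} (h : 𝔪 ≠ ⊥) (w : Pr F) : cn 𝔪 w = 0 ↔ ¬ 𝔪 ≤ w.asIdeal := by
  have := le_pow h w 1
  rw [pow_one] at this
  rw [this]
  omega

theorem eq_of_le {w w' : Pr F} (h : w.asIdeal ≤ w'.asIdeal) : w' = w :=
  IsDedekindDomain.HeightOneSpectrum.ext (w.isMaximal.eq_of_le w'.isPrime.ne_top h).symm

theorem pow_ne (w : Pr F) (n : ℕ) : w.asIdeal ^ n ≠ ⊥ := pow_ne_zero n w.ne_bot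

theorem pow (w w' : Pr F) (n : ℕ) : cn (w.asIdeal ^ n) w' = if w' = w then n else 0 := by
  split_ifs with h
  · subst h
    exact multiplicity_pow_self_of_prime w'.prime n
  · rw [zero (pow_ne w n)]
    intro h1
    have := w'.isPrime
    exact h (eq_of_le (Ideal.IsPrime.le_of_pow_le h1))

theorem top (w : Pr F) : cn (⊤ : Ideal (𝓞 F)) w = 0 := by
  have := pow w w 0
  simpa using this

theorem prod_ne (S : Finset (Pr F)) (n : Pr F → ℕ) : ∏ w ∈ S, w.asIdeal ^ n w ≠ ⊥ :=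
  Finset.prod_ne_zero_iff.2 fun w _ => pow_ne w _

theorem cn_prod (S : Finset (Pr F)) (n : Pr F → ℕ) (w' : Pr F) :
    cn (∏ w ∈ S, w.asIdeal ^ n w) w' = if w' ∈ S then n w' else 0 := by
  induction S using Finset.induction_on with
  | empty => simpa using top w'
  | insert a S ha ih =>
    rw [Finset.prod_insert ha, mul (pow_ne _ _) (prod_ne _ _), ih, pow]
    by_cases h : w' = a
    · subst h
      simp [ha]
    · simp [h]

theorem cn_count {𝔪 : Ideal (𝓞 F)} (h : 𝔪 ≠ ⊥) (w : Pr F) :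
    w.maxPowDividing 𝔪 = w.asIdeal ^ cn 𝔪 w := by
  rw [IsDedekindDomain.HeightOneSpectrum.maxPowDividing]
  congr 1
  have h1 : ∀ n : ℕ, n ≤ cn 𝔪 w ↔
      n ≤ (Associates.mk w.asIdeal).count (Associates.mk 𝔪).factors := fun n => by
    rw [← le_pow h, ← Ideal.dvd_iff_le, ← Associates.prime_pow_dvd_iff_le (by simpa using h)
      w.associates_irreducible, ← Associates.mk_pow, Associates.mk_le_mk_iff_dvd]
  exact le_antisymm ((h1 _).2 le_rfl) ((h1 _).1 le_rfl)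

theorem prod {𝔪 : Ideal (𝓞 F)} (h : 𝔪 ≠ ⊥) (S : Finset (Pr F))
    (hS : ∀ w ∉ S, ¬ 𝔪 ≤ w.asIdeal) : 𝔪 = ∏ w ∈ S, w.asIdeal ^ cn 𝔪 w := by
  conv_lhs => rw [← Ideal.finprod_heightOneSpectrum_factorization h, finprod_congr (cn_count h)]
  refine finprod_eq_prod_of_mulSupport_subset _ fun q hq => by_contra fun h1 => hq ?_
  simp [(zero h q).2 (hS q h1)]

theorem mk' (n : Pr F → ℕ) (h : {w | n w ≠ 0}.Finite) :
    ∃ 𝔪 : Ideal (𝓞 F), 𝔪 ≠ ⊥ ∧ ∀ w, cn 𝔪 w = n w := by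
  refine ⟨∏ w ∈ h.toFinset, w.asIdeal ^ n w, prod_ne _ _, fun w => ?_⟩
  rw [cn_prod]
  split_ifs with h1
  · rfl
  · simpa using (by simpa using h1 : n w = 0).symm

theorem ext {𝔪 𝔫 : Ideal (𝓞 F)} (h : 𝔪 ≠ ⊥) (h' : 𝔫 ≠ ⊥) (e : ∀ w : Pr F, cn 𝔪 w = cn 𝔫 w) :
    𝔪 = 𝔫 := by
  have h1 : ∀ w ∉ (fin h).toFinset, ¬ 𝔪 ≤ w.asIdeal := fun w hw => by simpa using hw
  have h2 : ∀ w ∉ (fin h).toFinset, ¬ 𝔫 ≤ w.asIdeal := fun w hw => by
    rw [← zero h', ← e, zero h]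
    exact h1 w hw
  rw [prod h _ h1, prod h' _ h2]
  simp only [e]

theorem le_of_cn {𝔪 𝔫 : Ideal (𝓞 F)} (h : 𝔪 ≠ ⊥) (e : ∀ w : Pr F, 𝔫 ≤ w.asIdeal ^ cn 𝔪 w) :
    𝔫 ≤ 𝔪 := by
  have h1 : ∀ w ∉ (fin h).toFinset, ¬ 𝔪 ≤ w.asIdeal := fun w hw => by simpa using hw
  rw [prod h _ h1, ← Ideal.dvd_iff_le]
  refine Finset.prod_dvd_of_coprime (fun a _ b _ hab => ?_) fun w _ => Ideal.dvd_iff_le.2 (e w)
  refine IsCoprime.pow ?_
  rw [Ideal.isCoprime_iff_sup_eq]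
  exact a.isMaximal.coprime_of_ne b.isMaximal fun h2 =>
    hab (IsDedekindDomain.HeightOneSpectrum.ext h2)

theorem mem {𝔪 : Ideal (𝓞 F)} (h : 𝔪 ≠ ⊥) (x : 𝓞 F) :
    x ∈ 𝔪 ↔ ∀ w : Pr F, x ∈ w.asIdeal ^ cn 𝔪 w :=
  ⟨fun hx w => le_cn h w hx, fun hx => (Ideal.span_singleton_le_iff_mem _).1
    (le_of_cn h fun w => (Ideal.span_singleton_le_iff_mem _).2 (hx w))⟩

theorem cop (𝔪 : Ideal (𝓞 F)) {𝔫 : Ideal (𝓞 F)} (h : 𝔫 ≠ ⊥) :
    IsCoprime 𝔪 𝔫 ↔ ∀ w : Pr F, 𝔫 ≤ w.asIdeal → ¬ 𝔪 ≤ w.asIdeal := by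
  rw [Ideal.isCoprime_iff_sup_eq]
  refine ⟨fun e w h1 h2 => w.isPrime.ne_top (top_le_iff.1 (e ▸ sup_le h2 h1)), fun e => ?_⟩
  by_contra h1
  obtain ⟨M, hM, h2⟩ := Ideal.exists_le_maximal _ h1
  have h3 : M ≠ ⊥ := fun h4 => h (le_bot_iff.1 (h4 ▸ le_sup_right.trans h2))
  exact e ⟨M, hM.isPrime, h3⟩ (le_sup_right.trans h2) (le_sup_left.trans h2)

theorem cop_span (x : 𝓞 F) {𝔫 : Ideal (𝓞 F)} (h : 𝔫 ≠ ⊥) :
    IsCoprime (Ideal.span {x}) 𝔫 ↔ ∀ w : Pr F, 𝔫 ≤ w.asIdeal → x ∉ w.asIdeal := by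
  simp only [cop _ h, Ideal.span_singleton_le_iff_mem]

theorem crt' (S : Finset (Pr F)) (x : Pr F → 𝓞 F) (n : Pr F → ℕ) :
    ∃ y : 𝓞 F, y ≠ 0 ∧ ∀ w ∈ S, y - x w ∈ w.asIdeal ^ n w := by
  obtain ⟨b, hb⟩ := IsDedekindDomain.exists_forall_sub_mem_ideal (s := S)
    (fun q : Pr F => q.asIdeal) n (fun q _ => q.prime)
    (fun q _ q' _ hne h => hne (IsDedekindDomain.HeightOneSpectrum.ext h)) fun q => x q.1
  by_cases h0 : b = 0
  · obtain ⟨c, hc, hc0⟩ := Submodule.exists_mem_ne_zero_of_ne_bot (prod_ne S n)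
    refine ⟨c, hc0, fun w hw => ?_⟩
    have h1 : c ∈ w.asIdeal ^ n w :=
      Ideal.dvd_iff_le.1 (Finset.dvd_prod_of_mem (fun w : Pr F => w.asIdeal ^ n w) hw) hc
    have h2 := add_mem h1 (hb w hw)
    rwa [h0, zero_sub, ← sub_eq_add_neg] at h2
  · exact ⟨b, h0, fun w hw => hb w hw⟩

theorem ex (n : Pr F → ℤ) (h : {w | n w ≠ 0}.Finite) (S : Finset (Pr F)) :
    ∃ x : F, x ≠ 0 ∧ (∀ w ∈ S, og w x = n w) ∧ ∀ w, n w ≤ og w x := by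
  have hu : ∀ q : Pr F, ∃ π : F, π ≠ 0 ∧ og q π = n q := fun q => by
    obtain ⟨π, hπ⟩ := q.valuation_surjective F (WithZero.exp (-n q))
    refine ⟨π, fun h0 => ?_, ?_⟩
    · rw [h0, map_zero] at hπ
      exact WithZero.exp_ne_zero hπ.symm
    · rw [og, ord, hπ, WithZero.log_exp, neg_neg]
  choose π hπ0 hπ using hu
  obtain ⟨N, hN⟩ := ((S ∪ h.toFinset).image n).exists_le
  obtain ⟨y, hy, hy'⟩ := approx_strong (S ∪ h.toFinset) (fun q => emb q (π q)) (N + 1)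
  have h1 : ∀ q ∈ S ∪ h.toFinset, y ≠ 0 ∧ og q y = n q := fun q hq => by
    have h2 := hy q hq
    rw [← map_sub, emb_mem_pw, mem_pw_iff] at h2
    have h3 := hN _ (Finset.mem_image_of_mem n hq)
    have h4 := hπ q
    by_cases h5 : y - π q = 0
    · rw [sub_eq_zero.1 h5]
      exact ⟨hπ0 q, h4⟩
    · rw [og] at h4
      have h6 := ord_add_of_lt (w := q.valuation F) (hπ0 q) h5 (by
        have := h2.resolve_left h5
        omega)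
      rw [add_sub_cancel] at h6
      exact ⟨h6.1, h6.2.trans h4⟩
  have h7 : ∀ q ∉ S ∪ h.toFinset, n q = 0 := fun q hq => by
    by_contra h8
    exact hq (Finset.mem_union_right _ (by simpa using h8))
  by_cases h0 : y = 0
  · have h9 : ∀ q, q ∉ S ∪ h.toFinset := fun q hq => (h1 q hq).1 h0
    refine ⟨1, one_ne_zero, fun w hw => absurd (Finset.mem_union_left _ hw) (h9 w), fun w => ?_⟩
    simp [h7 w (h9 w), og]
  · refine ⟨y, h0, fun w hw => (h1 w (Finset.mem_union_left _ hw)).2, fun w => ?_⟩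
    by_cases hw : w ∈ S ∪ h.toFinset
    · exact (h1 w hw).2.ge
    · rw [h7 w hw]
      exact hy' w hw

theorem inv {𝔞 𝔣 : Ideal (𝓞 F)} (ha : 𝔞 ≠ ⊥) (hf : 𝔣 ≠ ⊥) :
    ∃ (𝔟 : Ideal (𝓞 F)) (β : 𝓞 F), β ≠ 0 ∧ IsCoprime 𝔟 𝔣 ∧ 𝔞 * 𝔟 = Ideal.span {β} := by
  obtain ⟨x, hx0, hx1, hx2⟩ := ex (fun w => (cn 𝔞 w : ℤ)) ((fin ha).subset fun w hw => by
    by_contra h1
    exact hw (by simp [(zero ha w).2 h1])) (fin hf).toFinset
  obtain ⟨β, rfl⟩ := exists_int_of_og (x := x) fun q => (Int.natCast_nonneg _).trans (hx2 q)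
  have hβ : β ≠ 0 := by simpa using hx0
  have h1 : β ∈ 𝔞 := (mem ha β).2 fun w => (le_og_iff w hβ _).1 (hx2 w)
  obtain ⟨𝔟, h2⟩ := Ideal.dvd_iff_le.2 ((Ideal.span_singleton_le_iff_mem _).2 h1)
  have hb : 𝔟 ≠ ⊥ := by
    rintro rfl
    exact hβ (by simpa using h2)
  refine ⟨𝔟, β, hβ, (cop _ hf).2 fun w hw => ?_, h2.symm⟩
  have h3 := hx1 w (by simpa using hw)
  rw [← span hβ, h2, mul ha hb] at h3
  rw [← zero hb]
  push_cast at h3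
  omega

theorem cls (𝔞 : Ideal (𝓞 F)) (ha : 𝔞 ≠ ⊥) :
    ∃ (h : ℕ) (β : 𝓞 F), h ≠ 0 ∧ β ≠ 0 ∧ 𝔞 ^ h = Ideal.span {β} := by
  have h0 : 𝔞 ∈ nonZeroDivisors (Ideal (𝓞 F)) := mem_nonZeroDivisors_of_ne_zero ha
  have h1 : ClassGroup.mk0 (⟨𝔞, h0⟩ ^ Fintype.card (ClassGroup (𝓞 F))) = 1 := by
    rw [map_pow, pow_card_eq_one]
  have h2 : (𝔞 ^ Fintype.card (ClassGroup (𝓞 F))).IsPrincipal :=
    (ClassGroup.mk0_eq_one_iff (pow_mem h0 _)).1 h1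
  obtain ⟨β, hβ⟩ := h2
  refine ⟨_, β, Fintype.card_ne_zero, ?_, hβ⟩
  rintro rfl
  exact pow_ne_zero _ ha (by simpa using hβ)

theorem lsq (w : Pr F) (x y : 𝓞 F) (n : ℕ) (hn : 2 * og w (2 : F) < n) (hy : y ∉ w.asIdeal)
    (h : x - y ∈ w.asIdeal ^ n) : LSq w ((x : F) * y) := by
  have hy0 : y ≠ 0 := by
    rintro rfl
    exact hy (zero_mem _)
  have hy1 : (y : F) ≠ 0 := by simpa using hy0
  have h1 : og w (y : F) = 0 :=
    le_antisymm (not_lt.1 fun h2 => hy ((og_pos_iff w hy0).1 h2)) (og_nonneg w y)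
  have h2 : ((x - y : 𝓞 F) : F) / y ∈ pw (w.valuation F) n := pw_div hy1 (by
    rw [og] at h1
    rw [h1, zero_add]
    exact (int_mem_pw w _ n).2 h)
  have h3 : ((x - y : 𝓞 F) : F) / y = x / y - 1 := by
    rw [show ((x - y : 𝓞 F) : F) = x - y from map_sub (algebraMap (𝓞 F) F) _ _]
    field_simp
  have h4 : IsSquare (emb w ((x : F) / y)) := (isLoc_wv w).hens _ (by
    have h5 : emb w ((x : F) / y) - 1 = emb w ((x : F) / y - 1) := by rw [map_sub, map_one]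
    have h6 : (4 : Kc w) = emb w (2 ^ 2) := by
      rw [map_pow, map_ofNat]
      norm_num
    rw [h5, h6, wv_emb, wv_emb, ← h3]
    refine lt_of_le_of_lt (mem_pw.1 h2) ?_
    rw [val_eq_exp (pow_ne_zero 2 two_ne_zero), ord_pow, WithZero.exp_lt_exp]
    rw [og] at hn
    push_cast
    omega)
  have h7 : (x : F) * y = x / y * (y * y) := by field_simp
  rw [LSq, h7, map_mul, map_mul]
  exact h4.mul ⟨_, rfl⟩

theorem idm {𝔣 : Ideal (𝓞 F)} (h : 𝔣 ≠ ⊥) (w : Pr F) : ∃ e, Idm 𝔣 w e := by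
  obtain ⟨e, -, he⟩ := crt' (insert w (fin h).toFinset) (fun w' => if w' = w then 1 else 0)
    (cn 𝔣)
  refine ⟨e, by simpa using he w (Finset.mem_insert_self _ _), fun w' hw' => ?_⟩
  by_cases h1 : 𝔣 ≤ w'.asIdeal
  · simpa [hw'] using he w' (Finset.mem_insert_of_mem (by simpa using h1))
  · simp [(zero h w').2 h1]

theorem key (j : Pr F → ℤ) {𝔪 : Ideal (𝓞 F)} (h : 𝔪 ≠ ⊥) (z : F) :
    (∀ x ∈ 𝔪, ∀ w : Pr F, z * (x : F) ∈ pw (w.valuation F) (j w)) ↔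
      ∀ w : Pr F, z ∈ pw (w.valuation F) (j w - cn 𝔪 w) := by
  by_cases hz : z = 0
  · simp [hz]
  constructor
  · intro H w
    have h1 : ¬ 𝔪 ≤ w.asIdeal ^ (cn 𝔪 w + 1) := by
      rw [le_pow h]
      omega
    obtain ⟨x, hx, hx1⟩ := SetLike.not_le_iff_exists.1 h1
    have hx0 : x ≠ 0 := by
      rintro rfl
      exact hx1 (zero_mem _)
    have hx2 : (x : F) ≠ 0 := by simpa using hx0
    have h2 := (mem_pw_iff.1 (H x hx w)).resolve_left (mul_ne_zero hz hx2)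
    rw [ord_mul hz hx2] at h2
    rw [← le_og_iff w hx0, og] at hx1
    refine mem_pw_iff.2 (Or.inr ?_)
    push_cast at hx1
    omega
  · intro H x hx w
    by_cases hx0 : x = 0
    · simp [hx0]
    have hx2 : (x : F) ≠ 0 := by simpa using hx0
    have h1 := (le_og_iff w hx0 _).2 (le_cn h w hx)
    have h2 := (mem_pw_iff.1 (H w)).resolve_left hz
    refine mem_pw_iff.2 (Or.inr ?_)
    rw [og] at h1
    rw [ord_mul hz hx2]
    omega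

theorem du {j : Pr F → ℤ} (hj : IsJ j) {𝔪 : Ideal (𝓞 F)} (h : 𝔪 ≠ ⊥) (z : F) :
    (∀ x ∈ 𝔪, eTr (z * (x : F)) = 1) ↔
      ∀ w : Pr F, z ∈ pw (w.valuation F) (j w - cn 𝔪 w) := by
  rw [← key j h]
  refine ⟨fun H x hx => (hj.iff _).1 fun y => ?_, fun H x hx => ?_⟩
  · have h1 := H (x * y) (Ideal.mul_mem_right _ _ hx)
    rwa [show ((x * y : 𝓞 F) : F) = x * y from map_mul (algebraMap (𝓞 F) F) _ _, ← mul_assoc] at h1
  · simpa using (hj.iff _).2 (H x hx) 1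

theorem dinv {𝔪 : Ideal (𝓞 F)} (h : 𝔪 ≠ ⊥) (z : F) :
    (∀ c ∈ 𝔪, ∃ u : 𝓞 F, (u : F) = z * (c : F)) ↔
      ∀ w : Pr F, z ∈ pw (w.valuation F) (-cn 𝔪 w) := by
  have h1 := key (fun _ => 0) h z
  simp only [zero_sub] at h1
  rw [← h1]
  refine forall₂_congr fun c _ => ⟨fun ⟨u, hu⟩ w => ?_, fun H => ?_⟩
  · rw [← hu]
    exact mem_pw_zero.2 (og_nonneg w u)
  · exact exists_int_of_og fun q => mem_pw_zero.1 (H q)

end CnAux

theorem st_Cn : CnSt where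
  le_pow := CnAux.le_pow
  mem := CnAux.mem
  mul := CnAux.mul
  span := CnAux.span
  fin := CnAux.fin
  zero := CnAux.zero
  pow := CnAux.pow
  prod := CnAux.prod
  mk' := CnAux.mk'
  ext := CnAux.ext
  cop := CnAux.cop
  cop_span := CnAux.cop_span
  crt := fun S x n => CnAux.crt' S x fun _ => n
  ex := CnAux.ex
  inv := CnAux.inv
  cls := CnAux.cls
  lsq := CnAux.lsq
  idm := CnAux.idm
  du := CnAux.du
  dinv := CnAux.dinv

end Pool.Agent.SC
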