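import Pool.Agent.Lib.MP_b4b3cb_nt.StG

/-! The duality data of a number field. -/

namespace Pool.Agent.SC

open NumberField Pool.Agent.Stark
open scoped Classical Pointwise Topology

variable {K Ω : Type} [Field K] [NumberField K] [Field Ω] [Algebra K Ω] [IsAlgClosed Ω]

theorem st_AD (hB : BrSt K Ω) (hC : CycSt K Ω) (hD : DictSt K Ω) (hCard : CardSt K Ω)
    (hF : FinSt K Ω) (hA : AbhnKSt K Ω) (hR : RecSt K Ω) (hL : LagKSt K Ω) (hP : PrimeSt K Ω) :
    ADSt K Ω := by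
  intro π
  obtain ⟨cχ, e, eadd, ene, eone, ehf, eact⟩ := hC
  have econ : ∀ {s t}, ‖s - t‖ ≤ 1 → e s = e t := fun {s t} h => by
    rw [← add_sub_cancel t s, eadd, eone _ h, mul_one]
  have elc : ∀ {X : Type} [TopologicalSpace X] {D : Set X} {f : X → ℚ_[2]}, ContinuousOn f D →
      LC D fun x => e (f x) := fun {X _ D f} h g hg =>
    ((h g hg).eventually (Metric.closedBall_mem_nhds _ one_pos)).mono fun x hx =>
      econ (by simpa only [dist_eq_norm] using hx)
  have epow : ∀ (n : ℕ) t, e t ^ n = e (n * t) := fun n t => by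
    induction n with
    | zero => simpa using (eone 0 (by simp)).symm
    | succ n ih => rw [pow_succ, ih, ← eadd, Nat.cast_succ, add_mul, one_mul]
  have spl : ∀ (D : Subgroup (Ω ≃ₐ[K] Ω)) (c : (Ω ≃ₐ[K] Ω) → (Ω ≃ₐ[K] Ω) → Ω)
      (f : (Ω ≃ₐ[K] Ω) → ℚ_[2]), ContinuousOn f D →
      (∀ g ∈ D, ∀ h ∈ D, c g h = e (dq (cyc K Ω) f g h)) → Spl D c := fun D c f hf h =>
    ⟨fun g => e (f g), elc hf, fun _ _ => ene _, fun g hg k hk => by
      rw [h g hg k hk, eact, ← eadd, ← eadd, dq, sub_add_cancel]⟩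
  have sy : ∀ v {f g : (Ω ≃ₐ[K] Ω) → ZMod 2} {a b : K}, a ≠ 0 → b ≠ 0 →
      (∀ x ∈ π.D v, f x = kr (rt Ω a) x) → (∀ x ∈ π.D v, g x = kr (rt Ω b) x) →
      symz (π.D v) f g = hp v a b := fun v f g a b ha hb h h' =>
    (hD.congr _ _ _ _ _ h h').trans (hD.sym π v ha hb)
  refine ⟨{
    χ := cyc K Ω
    cχ := cχ
    D := π.D
    I := π.I
    le := fun v => v.rec (fun q => hP.le _) fun _ => bot_le
    sym := fun v => symz (π.D v)
    congr := fun v => hD.congr _
    add := fun v f f' g hf hf' hg => ?_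
    comm := fun v f g hf hg => ?_
    nondeg := fun v f hf h g hg => ?_
    finH := hCard.fin π
    rloc := fun v a b _ _ f hf h => if_pos ((hB.sz (hD.closed π v)).1
      (spl _ _ f hf fun g hg k hk => (ehf _).symm.trans (econ (h g hg k hk))))
    rglob := fun b k hb hk hc y hy a ha h => hR π (fun g h => e (b g h)) k y a
      ⟨fun _ _ _ _ => ene _, elc hb.continuousOn, fun g _ h _ l _ => ?_⟩ (fun g h => ?_) hy ha
      fun v => ?_
    abhn := fun ε hε h => (hB.sz isClosed_univ).1 (hA π ⊤ (sgc ε) 1 isOpen_univ inferInstance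
      (hB.coc_sg hε) (fun g h => (pow_two _).trans (sg_mul_self _))
      fun v => hB.mono ((hB.sz (hD.closed π v)).2 (h v)) inf_le_left)
    finI := fun N hN => ((hF N hN).image Sum.inl).subset ?_
    finS := hL.finS π
    lag := hL.lag π }, rfl, rfl, rfl, rfl⟩
  · obtain ⟨a, ha, h1⟩ := hD.kum π v f hf
    obtain ⟨a', ha', h2⟩ := hD.kum π v f' hf'
    obtain ⟨b, hb, h3⟩ := hD.kum π v g hg
    rw [sy v ha hb h1 h3, sy v ha' hb h2 h3, ← hD.hp_mul v ha ha' hb]
    exact sy v (mul_ne_zero ha ha') hb (fun x hx => by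
      rw [hD.mul ha ha', Pi.add_apply, Pi.add_apply, h1 x hx, h2 x hx]) h3
  · obtain ⟨a, ha, h1⟩ := hD.kum π v f hf
    obtain ⟨b, hb, h3⟩ := hD.kum π v g hg
    rw [sy v ha hb h1 h3, sy v hb ha h3 h1, hD.hp_comm v ha hb]
  · obtain ⟨a, ha, h1⟩ := hD.kum π v f hf
    rw [h1 g hg]
    refine (hD.zero π v ha).2 (by_contra fun hn => ?_) g hg
    obtain ⟨b, hb, h2⟩ := hD.hp_nd v ha hn
    have := h _ ⟨(hD.hom hb).1.mono (Set.subset_univ _), fun x _ y _ =>
      (hD.hom hb).2 x trivial y trivial⟩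
    rw [sy v ha hb h1 fun _ _ => rfl, h2] at this
    exact one_ne_zero this
  · rw [eact, ← eadd, ← eadd]
    exact econ (by convert hc g h l using 2; ring)
  · rw [epow]
    exact eone _ (by exact_mod_cast hk g h)
  · obtain ⟨f, hf, h⟩ := h v
    refine spl _ _ f hf fun g hg k hk => ?_
    have := h g hg k hk
    rw [sub_sub] at this
    change e (b g k) * sg Ω (y g * a v k) = _
    rw [econ this, eadd, ehf, mul_assoc, sg_mul_self, mul_one]
  · rintro (q | φ) hv
    · exact ⟨q, ⟨_, π.hov q, hv⟩, rfl⟩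
    · exact (hv fun g hg => by rw [Subgroup.mem_bot.1 hg]; exact mem_of_mem_nhds hN).elim

end Pool.Agent.SC
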