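import Pool.Agent.Lib.MP_b4b3cb_nt.StG

/-! The local-global principle for classes of 2-power order. -/

namespace Pool.Agent.SC

open NumberField Pool.Agent.Stark
open scoped Classical Pointwise Topology

variable {K Ω : Type} [Field K] [NumberField K] [Field Ω] [Algebra K Ω]

namespace AbhnAux

/-- A symbol over an open subgroup which is locally trivial is trivial. -/
theorem symb (hT : TopSt K Ω) (hN : NormSt K Ω) (hSy : SymSt K Ω) (hC : CjSt K Ω)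
    (hP : PrimeSt K Ω) {H : Subgroup (Ω ≃ₐ[K] Ω)} (hH : IsOpen (H : Set (Ω ≃ₐ[K] Ω))) {r s : Ω}
    (hr : r ≠ 0) (hs0 : s ≠ 0) (hr2 : Fix H (r ^ 2)) (hs2 : Fix H (s ^ 2))
    (h1 : ∀ 𝔓 : Ideal (𝓞 Ω), 𝔓.IsMaximal → Sz (Dec K 𝔓 ⊓ H) (cup (kr r) (kr s)))
    (h2 : ∀ (j : Ω →+* ℂ), ∀ g ∈ H, Cj j g → Sz (Subgroup.zpowers g) (cup (kr r) (kr s))) :
    Sz H (cup (kr r) (kr s)) := by
  obtain ⟨F, hF, rfl⟩ := hT.field H hH
  have : NumberField F := NumberField.of_module_finite K F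
  obtain ⟨a, ha⟩ := hT.gs_fix F _ hr2
  obtain ⟨b, hb⟩ := hT.gs_fix F _ hs2
  have ha0 : a ≠ 0 := by
    rintro rfl
    exact pow_ne_zero 2 hr (by rw [← ha, map_zero])
  have hb0 : b ≠ 0 := by
    rintro rfl
    exact pow_ne_zero 2 hs0 (by rw [← hb, map_zero])
  have h3 : hs a b = 0 := by
    refine hasse_norm ha0 hb0 (fun φ => ?_) fun q => ?_
    · obtain ⟨j, g, e, hg, hj⟩ := hC.ex F φ
      exact (hC.norm hj e ha0 hb0 ha.symm hb.symm).1 (h2 j g hg hj)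
    · obtain ⟨𝔓, h𝔓⟩ := hP.ex F q
      rw [← (hSy h𝔓).1 ha0 hb0 ha.symm hb.symm]
      exact if_pos (h1 𝔓 h𝔓.1)
  obtain ⟨x, z, e⟩ : ∃ x z : F, b = x ^ 2 - a * z ^ 2 := by
    by_contra h
    rw [hs, if_neg h] at h3
    exact one_ne_zero h3
  refine (hN _ r s (Subgroup.isClosed_of_isOpen _ hH) hr hs0 hr2 hs2).2
    ⟨algebraMap F Ω x, algebraMap F Ω z, fun g hg => hg x, fun g hg => hg z, ?_⟩
  rw [← ha, ← hb, e, map_sub, map_mul, map_pow, map_pow]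

end AbhnAux

theorem st_Abhn (hY : SylSt) (hT : TopSt K Ω) (hK : KumSt K Ω) (hB : BrSt K Ω) (hTr : TrSt K Ω)
    (hN : NormSt K Ω) (hQ : QuadSt K Ω) (hSy : SymSt K Ω) (hC : CjSt K Ω) (hP : PrimeSt K Ω) :
    AbhnSt K Ω := by
  intro H c k hH hc hk h1 h2
  obtain ⟨U, hU, hUn, h0⟩ := hB.small (H.isClosed_of_isOpen hH) hc
  obtain ⟨P, a1, a2, a3, a4⟩ := hY _ H U hUn (hT.fi U hU) (fun N => Spl N c) h0
    fun N N' b1 b2 b3 b4 b5 => by
      have o : IsOpen (N' : Set (Ω ≃ₐ[K] Ω)) :=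
        Subgroup.isOpen_mono (b1.trans b2) (hH.inter hU)
      have cl := N'.isClosed_of_isOpen o
      obtain ⟨d, hd, hNd, -⟩ := hT.two H U N N' hU b1 b2 b3 b4
      obtain ⟨r, hr, hr2, hdr⟩ := hK.kum N' d cl hd
      obtain ⟨s, hs0, hs2, hsp⟩ := hQ N' N r c cl hr hr2 (fun g => by
        rw [hNd g]
        refine and_congr_right fun hg => ?_
        rw [hdr g hg, kr]
        simp) (hB.coc_mono hc b3) b5
      refine hB.cancel ((hB.sz cl).2 (AbhnAux.symb hT hN hSy hC hP o hr hs0 hr2 hs2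
        (fun 𝔓 h𝔓 => ?_) fun j g hg hj => ?_)) (mul_comm c _ ▸ hsp)
      · exact (hB.sz ((hP.closed 𝔓).inter cl)).1 (hB.cancel
          (hB.mono (h1 𝔓 h𝔓) (inf_le_inf_left _ b3)) (hB.mono hsp inf_le_right))
      · exact (hB.sz (hC.sq hj).2.2).1 (hB.cancel (h2 j g (b3 hg) hj)
          (hB.mono hsp ((Subgroup.zpowers_le).2 hg)))
  exact hB.odd a3 hk (hTr H U P c hU hUn a1 a2 hc a4)

end Pool.Agent.SC
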