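import Pool.Agent.Lib.MP_b4b3cb_nt.StA

/-! Facts on the action of a monomial representation. -/

namespace Pool.Agent.SC

open scoped Classical
open Module

namespace AcAux

variable {G : Type} [Group G] [TopologicalSpace G] {χ : G →* ℤ_[2]ˣ} (R : Rp χ)

lemma inj {a b : ℤ_[2]ˣ} (h : ((a : ℤ_[2]) : ℚ_[2]) = ((b : ℤ_[2]) : ℚ_[2])) : a = b :=
  Units.ext (Subtype.ext h)

lemma eta_mul (g h : G) : R.η (g * h) = R.η g + R.η h := R.hη.2 g trivial h trivial

lemma eta_one : R.η 1 = 0 := by simpa using eta_mul R 1 1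

lemma rs_mul (g h : G) :
    (R.η g = 0 → R.r (g * h) = R.r g * R.r h ∧ R.s (g * h) = R.s g * R.s h) ∧
    (R.η g = 1 → R.r (g * h) = R.r g * R.s h ∧ R.s (g * h) = R.s g * R.r h) := by
  have e := R.mul g h (1, 1)
  simp only [mon, mul_one, ite_self] at e
  refine ⟨fun a => ?_, fun a => ?_⟩
  · rw [if_pos a, Prod.mk.injEq] at e
    exact ⟨inj e.1, inj e.2⟩
  · rw [if_neg (by rw [a]; decide), Prod.mk.injEq] at e
    exact ⟨inj e.1, inj e.2⟩

lemma rs_one : R.r 1 = 1 ∧ R.s 1 = 1 := by simpa using (rs_mul R 1 1).1 (eta_one R)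

lemma one (u : V) : R.ac 1 u = u := by
  simp [Rp.ac, mon, eta_one, (rs_one R).1, (rs_one R).2]

lemma mul (g h : G) (u : V) : R.ac (g * h) u = R.ac g (R.ac h u) := R.mul g h u

lemma lin (g : G) : IsLinearMap ℚ_[2] (R.ac g) := by
  refine ⟨fun u v => ?_, fun c u => ?_⟩ <;> unfold Rp.ac mon <;> split_ifs <;> ext <;> simp <;>
    ring

lemma cont : Continuous fun p : G × V => R.ac p.1 p.2 := by
  have h0 : Continuous R.η := continuousOn_univ.1 R.hη.1
  have k : ∀ {f : G → ℤ_[2]ˣ}, Continuous f → Continuous fun g => ((f g : ℤ_[2]) : ℚ_[2]) :=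
    fun h => continuous_subtype_val.comp ((Units.continuous_val (M := ℤ_[2])).comp h)
  have h1 := (k R.cr).comp (continuous_fst (Y := V))
  have h2 := (k R.cs).comp (continuous_fst (Y := V))
  have h3 : Continuous fun p : G × V => p.2.1 := continuous_snd.fst
  have h4 : Continuous fun p : G × V => p.2.2 := continuous_snd.snd
  have c : IsClopen {p : G × V | R.η p.1 = 0} :=
    (isClopen_discrete {0}).preimage (h0.comp continuous_fst)
  exact continuous_if (fun a ha => by simp [c.frontier_eq] at ha)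
    ((h1.mul h3).prodMk (h2.mul h4)).continuousOn ((h1.mul h4).prodMk (h2.mul h3)).continuousOn

end AcAux

open AcAux in
theorem st_Ac (_ : LatSt) (hO : OmSt) : AcSt where
  one R := one R
  mul R := mul R
  lin R := lin R
  mem R g i u := hO.mon_mem i _ _ _ u
  lam_ac R g i u := by
    unfold lam Rp.ac
    simp only [hO.mon_mem]
  om_ac {G} _ _ {χ} R g u v := by
    have e := congrArg (fun x : ℤ_[2]ˣ => ((x : ℤ_[2]) : ℚ_[2])) (R.det g)
    unfold Rp.ac mon om
    split_ifs at e ⊢ <;> push_cast at e ⊢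
    · linear_combination (u.1 * v.2 - u.2 * v.1) * e
    · linear_combination (u.2 * v.1 - u.1 * v.2) * e
  cont R := cont R
  d2_d1 R u g h := by
    simp only [Rp.d2, Rp.d1, (lin R g).map_sub, mul]
    abel
  dd R x g h k := by
    simp only [Rp.d2, (lin R g).map_sub, (lin R g).map_add, mul, mul_assoc]
    abel
  d2_add R x y g h := by
    simp only [Rp.d2, Pi.add_apply, (lin R g).map_add]
    abel
  d2_smul R c x g h := by
    simp only [Rp.d2, Pi.smul_apply, (lin R g).map_smul, smul_add, smul_sub]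
  d2_sub R x y g h := by
    simp only [Rp.d2, Pi.sub_apply, (lin R g).map_sub]
    abel
  d2_one R x := by simp [Rp.d2, one]
  d2_cont R D x hx := ((hx.comp continuousOn_fst fun _ h => h.1).add ((cont R).comp_continuousOn
    (continuousOn_fst.prodMk (hx.comp continuousOn_snd fun _ h => h.2)))).sub
      (hx.comp continuous_mul.continuousOn fun _ h => D.mul_mem h.1 h.2)
  rs_mul R := rs_mul R
  rs_conj R σ h a b := by
    have i := eta_mul R σ σ⁻¹
    have j := (rs_mul R σ σ⁻¹).2 a
    rw [mul_inv_cancel, (rs_one R).1, (rs_one R).2] at j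
    rw [mul_inv_cancel, eta_one] at i
    have c : R.η (σ * h) = 1 := by rw [eta_mul, a, b, add_zero]
    have k := (rs_mul R σ h).2 a
    have l := (rs_mul R (σ * h) σ⁻¹).2 c
    refine ⟨by rw [eta_mul, c, ← a, ← i], ?_, ?_⟩
    · rw [l.1, k.1, mul_right_comm, ← j.1, one_mul]
    · rw [l.2, k.2, mul_right_comm, ← j.2, one_mul]

end Pool.Agent.SC
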