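import Pool.Agent.Lib.MP_b4b3cb_nt.StB

/-! The pairing is alternating. -/

namespace Pool.Agent.SC

open scoped Classical
open Module

namespace AltAux

theorem om_cont : Continuous fun p : V × V => om p.1 p.2 := by
  unfold om
  fun_prop

theorem heis_cont (hO : OmSt) (hA : AcSt) {G : Type} [Group G] [TopologicalSpace G]
    [IsTopologicalGroup G] {χ : G →* ℤ_[2]ˣ} (R : Rp χ) (i m : ℤ) (x : G → V)
    (hx : Continuous x) : Continuous fun p : G × G => heis R i m x p.1 p.2 := by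
  have h2 : Continuous fun p : G × G => R.d2 x p.1 p.2 := by
    have := hA.d2_cont R ⊤ x hx.continuousOn
    rw [Subgroup.coe_top, Set.univ_prod_univ, continuousOn_univ] at this
    exact this
  have h1 : Continuous fun p : G × G => R.ac p.1 (x p.2) :=
    (hA.cont R).comp (continuous_fst.prodMk (hx.comp continuous_snd))
  have h3 : Continuous fun p : G × G => om (x p.1) (R.ac p.1 (x p.2)) :=
    om_cont.comp ((hx.comp continuous_fst).prodMk h1)
  have h4 : Continuous fun p : G × G => om (R.d2 x p.1 p.2) (x (p.1 * p.2)) :=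
    om_cont.comp (h2.prodMk (hx.comp (continuous_fst.mul continuous_snd)))
  have h5 : Continuous fun p : G × G => qq (i + 2 * m - 1) (R.d2 x p.1 p.2) :=
    (hO.qq_cont _).comp h2
  exact ((h3.sub h4).div_const _).sub (continuous_const.mul h5)

theorem sub_le {a b : ℚ_[2]} (ha : ‖a‖ ≤ 1) (hb : ‖b‖ ≤ 1) : ‖a - b‖ ≤ 1 := by
  rw [sub_eq_add_neg]
  exact (IsUltrametricDist.norm_add_le_max _ _).trans (max_le ha (by rwa [norm_neg]))

theorem heis_bdd (hL : LatSt) (hO : OmSt) (hA : AcSt) {G : Type} [Group G] [TopologicalSpace G]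
    {χ : G →* ℤ_[2]ˣ} (R : Rp χ) (i : ℤ) (k : ℕ) (x : G → V)
    (hx : R.Lev ⊤ i (i + 2 * ((k : ℤ) + 1)) x) (g h : G) :
    ‖2 ^ (k + 2) * heis R i ((k : ℤ) + 1) x g h‖ ≤ 1 := by
  have hd : R.d2 x g h ∈ T (i + 2 * ((k : ℤ) + 1)) := hx.2.2 g trivial h trivial
  have h1 : ‖om (x g) (R.ac g (x h)) / 2 ^ i‖ ≤ 1 :=
    hO.om_div (hx.2.1 g trivial) ((hA.mem R g i _).2 (hx.2.1 h trivial)) (by omega)
  have h2 : ‖om (R.d2 x g h) (x (g * h)) / 2 ^ i‖ ≤ 1 :=
    hO.om_div hd (hx.2.1 (g * h) trivial) (by omega)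
  have h3 : ‖qq (i + 2 * ((k : ℤ) + 1) - 1) (R.d2 x g h)‖ ≤ 1 :=
    hO.qq_le (hL.anti (by omega) hd)
  have h4 : ‖(2 : ℚ_[2]) ^ (2 * k + 1)‖ ≤ 1 := by
    rw [norm_pow]
    refine pow_le_one₀ (norm_nonneg _) ?_
    exact_mod_cast IsUltrametricDist.norm_natCast_le_one ℚ_[2] 2
  have e1 : (2 : ℚ_[2]) ^ (i + ((k : ℤ) + 1) + 1) = 2 ^ i * 2 ^ (k + 2) := by
    rw [← zpow_natCast, ← zpow_add₀ two_ne_zero]
    congr 1
    push_cast
    ring
  have e2 : (2 : ℚ_[2]) ^ (k + 2) * 2 ^ ((k : ℤ) + 1 - 2) = 2 ^ (2 * k + 1) := by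
    rw [← zpow_natCast, ← zpow_natCast, ← zpow_add₀ two_ne_zero]
    congr 1
    push_cast
    ring
  have e : 2 ^ (k + 2) * heis R i ((k : ℤ) + 1) x g h =
      om (x g) (R.ac g (x h)) / 2 ^ i - om (R.d2 x g h) (x (g * h)) / 2 ^ i -
        2 ^ (2 * k + 1) * qq (i + 2 * ((k : ℤ) + 1) - 1) (R.d2 x g h) := by
    unfold heis
    rw [e1, ← e2]
    have : (2 : ℚ_[2]) ^ i ≠ 0 := zpow_ne_zero _ two_ne_zero
    field_simp
  rw [e]
  refine sub_le (sub_le h1 h2) ?_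
  rw [norm_mul]
  exact mul_le_one₀ h4 (norm_nonneg _) h3

end AltAux

open AltAux

theorem st_Alt (hL : LatSt) (hO : OmSt) (hA : AcSt) (hZ : ZSt) (hH : HeisSt) : AltSt := by
  intro G P _ _ _ A R dy hdy i n hn x e hPV
  obtain ⟨k, rfl⟩ := hn
  obtain ⟨x', t, S, hlev, hxx, ht, hS, rfl⟩ := hPV
  have ej : i + ((2 * k + 1 : ℕ) : ℤ) = i + 2 * ((k : ℤ) + 1) - 1 := by push_cast; ring
  rw [ej] at hlev hxx ht hS ⊢
  have ej' : i + 2 * ((k : ℤ) + 1) - 1 + 1 = i + 2 * ((k : ℤ) + 1) := by ring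
  rw [ej'] at hlev
  have hy : (fun g => lam i (x g)) = fun g => lam i (x' g) :=
    funext fun g => (hL.lam_congr (hL.anti (by omega) (hxx g))).symm
  rw [hy] at hS ⊢
  have hc : Continuous x' := by
    have := hlev.1
    rwa [Subgroup.coe_top, continuousOn_univ] at this
  refine A.rglob (heis R i ((k : ℤ) + 1) x') (k + 2) (heis_cont hO hA R i _ x' hc)
    (heis_bdd hL hO hA R i k x' hlev) (hH.coc R i _ x' (by omega) hlev) _
    (hZ.hom_lam R ⊤ hlev (by omega))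
    (fun v g => lam (i + 2 * ((k : ℤ) + 1) - 1) (x' g - t v g)) (fun v => ?_) (fun v => ?_) S hS
  · have hl : R.Lev (A.D v) (i + 2 * ((k : ℤ) + 1) - 1) (i + 2 * ((k : ℤ) + 1)) (x' - t v) := by
      refine ⟨hc.continuousOn.sub (ht v).1.1.1, (ht v).2, fun g hg h hh => ?_⟩
      rw [hA.d2_sub, (ht v).1.1.2.2 g hg h hh, sub_zero]
      exact hlev.2.2 g trivial h trivial
    exact hZ.hom_lam R (A.D v) hl (by omega)
  · exact hH.loc R i _ x' (t v) (A.D v) (dy v) (by omega) (hdy v) hlev (ht v).1 (ht v).2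

end Pool.Agent.SC
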