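import Pool.Agent.Lib.MP_b4b3cb_nt.StF

/-! Ideals of a CM field as lattices, and their dual lattices. -/

namespace Pool.Agent.SC

open NumberField Pool.Agent.Stark Module
open scoped Classical ComplexConjugate

namespace BasAux

variable {L : Type} [Field L] [NumberField L] {ι : Type} [Fintype ι]

/-- The matrix whose columns are the images of the members of a family. -/
def mat (J : L →+ ι → ℝ) (c : ι → L) : Matrix ι ι ℝ := Matrix.of fun i j => J (c j) i

omit [NumberField L] in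
theorem lpt_mat (J : L →+ ι → ℝ) (c : ι → L) (n : ι → ℤ) :
    lpt (mat J c) n = J (∑ j, n j • c j) := by
  funext i
  simp only [lpt, mat, Matrix.mulVec, dotProduct, Matrix.of_apply, map_sum, map_zsmul,
    Finset.sum_apply, Pi.smul_apply]
  exact Finset.sum_congr rfl fun j _ => by rw [zsmul_eq_mul, mul_comm]

theorem mat_dual [DecidableEq ι] (J : L →+ ι → ℝ) (τ : L → L) (hτ : ∀ x, τ (τ x) = x)
    (hJ : ∀ x y, ((Algebra.trace ℚ L (x * τ y) : ℚ) : ℝ) = ∑ i, J x i * J y i)
    (c : Basis ι ℚ L) : (mat J c).transpose * mat J (fun j => τ (c.traceDual j)) = 1 := by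
  ext i j
  simp only [Matrix.mul_apply, mat, Matrix.transpose_apply, Matrix.of_apply]
  rw [← hJ, hτ, Basis.trace_mul_traceDual, Matrix.one_apply]
  split_ifs <;> simp

theorem exists_basis [Nonempty ι] (hc : Fintype.card ι = finrank ℚ L) {c : ι → L}
    (h : LinearIndependent ℤ c) : ∃ c' : Basis ι ℚ L, ⇑c' = c :=
  ⟨basisOfLinearIndependentOfCardEqFinrank ((LinearIndependent.iff_fractionRing ℤ ℚ).1 h) hc,
    coe_basisOfLinearIndependentOfCardEqFinrank _ _⟩

omit [Fintype ι] [NumberField L] in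
theorem li_coe {c : ι → 𝓞 L} (h : LinearIndependent ℤ c) :
    LinearIndependent ℤ fun j => (c j : L) :=
  h.map' (algebraMap (𝓞 L) L).toAddMonoidHom.toIntLinearMap
    (LinearMap.ker_eq_bot.2 RingOfIntegers.coe_injective)

end BasAux

open BasAux

variable {K L : Type} [Field K] [NumberField K] [Field L] [NumberField L] [Algebra K L]

theorem st_Bas (hC : CmSt K L) : BasSt K L := by
  intro d E a h
  have := hC.ne h
  let J : L →+ (Ty a ⊕ Ty a → ℝ) := AddMonoidHom.mk' (fun x => co (ez a x)) (by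
    intro x y
    funext i
    rcases i with k | k <;> simp [co, ez, mul_add])
  have hJ : ∀ x, J x = co (ez a x) := fun _ => rfl
  have htr : ∀ x y, ((Algebra.trace ℚ L (x * E.tau y) : ℚ) : ℝ) = ∑ i, J x i * J y i :=
    hC.trace h
  have hcard := hC.card h
  obtain ⟨e⟩ : Nonempty (Free.ChooseBasisIndex ℤ (𝓞 L) ≃ Ty a ⊕ Ty a) := by
    rw [← Fintype.card_eq, hcard, ← finrank_eq_card_chooseBasisIndex, RingOfIntegers.rank]
  let b₀ : Basis (Ty a ⊕ Ty a) ℤ (𝓞 L) := (RingOfIntegers.basis L).reindex e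
  obtain ⟨c₀, hc₀⟩ := exists_basis hcard (li_coe b₀.linearIndependent)
  have hdet : ∀ c : Basis (Ty a ⊕ Ty a) ℚ L, (mat J c).det ≠ 0 := fun c h0 => by
    have := congrArg Matrix.det (mat_dual J E.tau E.tau_tau htr c)
    rw [Matrix.det_mul, Matrix.det_transpose, h0, zero_mul, Matrix.det_one] at this
    exact zero_ne_one this
  refine ⟨|(mat J c₀).det|, abs_pos.2 (hdet c₀), fun 𝔪 h𝔪 => ?_⟩
  let b : Basis (Ty a ⊕ Ty a) ℤ 𝔪 := Ideal.selfBasis b₀ 𝔪 h𝔪
  have hli : LinearIndependent ℤ fun j => ((b j : 𝔪) : 𝓞 L) :=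
    b.linearIndependent.map' 𝔪.subtype.toAddMonoidHom.toIntLinearMap
      (LinearMap.ker_eq_bot.2 Subtype.val_injective)
  obtain ⟨c, hc⟩ := exists_basis hcard (li_coe hli)
  have hcj : ∀ j, c j = (((b j : 𝔪) : 𝓞 L) : L) := fun j => congrFun hc j
  have hsum : ∀ x : 𝔪, ((x : 𝓞 L) : L) = ∑ j, b.repr x j • c j := fun x => by
    conv_lhs => rw [← b.sum_repr x]
    simp only [hcj, AddSubmonoidClass.coe_finsetSum, SetLike.val_smul_of_tower, map_sum,
      map_zsmul]
  have hpair : ∀ (n : Ty a ⊕ Ty a → ℤ) (i : Ty a ⊕ Ty a),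
      Algebra.trace ℚ L (c i * E.tau (∑ j, n j • E.tau (c.traceDual j))) = n i := fun n i => by
    simp only [map_sum, map_zsmul, E.tau_tau, Finset.mul_sum, mul_smul_comm,
      Basis.trace_mul_traceDual]
    simp
  let g : (Ty a ⊕ Ty a → ℤ) → Du E 𝔪 := fun n => ⟨∑ j, n j • E.tau (c.traceDual j), by
    intro x hx
    rw [eTr_eq_one, hsum ⟨x, hx⟩, Finset.sum_mul, map_sum]
    refine ⟨∑ i, b.repr ⟨x, hx⟩ i * n i, ?_⟩
    simp only [smul_mul_assoc, map_zsmul, hpair]
    simp⟩
  have hg : Function.Bijective g := by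
    refine ⟨fun n n' hn => funext fun i => ?_, fun ξ => ?_⟩
    · have h1 := hpair n i
      rw [show ∑ j, n j • E.tau (c.traceDual j) = ∑ j, n' j • E.tau (c.traceDual j) from
        congrArg Subtype.val hn, hpair] at h1
      exact_mod_cast h1.symm
    · choose n hn using fun j => eTr_eq_one.1 (ξ.2 (b j) (b j).2)
      refine ⟨n, Subtype.ext ?_⟩
      change ∑ j, n j • E.tau (c.traceDual j) = ξ.1
      conv_rhs => rw [← E.tau_tau ξ.1, ← c.traceDual.sum_repr (E.tau ξ.1), map_sum]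
      refine Finset.sum_congr rfl fun j _ => ?_
      rw [Basis.traceDual_repr_apply, Algebra.traceForm_apply, mul_comm, hcj, hn j,
        Int.cast_smul_eq_zsmul, map_zsmul]
  refine ⟨mat J c, b.equivFun.toEquiv, (Equiv.ofBijective g hg).symm, ?_, fun x => ?_,
    fun ξ => ?_⟩
  · have hM : mat J c = mat J c₀ *
        (Int.castRingHom ℝ).mapMatrix (b₀.toMatrix (Subtype.val ∘ b)) := by
      ext i j
      have h1 : c j = ∑ k, b₀.repr (b j : 𝔪) k • c₀ k := by
        rw [hcj]
        conv_lhs => rw [← b₀.sum_repr (b j : 𝔪)]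
        simp [hc₀]
      have h2 := congrFun (lpt_mat J c₀ fun k => b₀.repr (b j : 𝔪) k) i
      rw [← h1] at h2
      rw [show mat J c i j = J (c j) i from rfl, ← h2]
      rfl
    rw [hM, Matrix.det_mul, ← RingHom.map_det, abs_mul, mul_comm, ← Basis.det_apply,
      ← Ideal.natAbs_det_basis_change b₀ 𝔪 b]
    simp
  · rw [lpt_mat, ← hJ, hsum x]
    rfl
  · obtain ⟨n, rfl⟩ := hg.2 ξ
    rw [Equiv.ofBijective_symm_apply_apply, Matrix.transpose_nonsing_inv,
      Matrix.inv_eq_right_inv (mat_dual J E.tau E.tau_tau htr c), lpt_mat, ← hJ]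

end Pool.Agent.SC
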