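import Pool.Agent.Lib.MP_b4b3cb_nt.StG

/-! The group of coboundaries. -/

namespace Pool.Agent.SC

open NumberField Pool.Agent.Stark
open scoped Classical Pointwise Topology

variable {K Ω : Type} [Field K] [Field Ω] [Algebra K Ω]

namespace BrAux

theorem lc_const {X Y : Type} [TopologicalSpace X] (D : Set X) (y : Y) : LC D fun _ => y :=
  fun _ _ => Filter.Eventually.of_forall fun _ => rfl

theorem mul (hS : SzSt) {H : Subgroup (Ω ≃ₐ[K] Ω)} {c c' : (Ω ≃ₐ[K] Ω) → (Ω ≃ₐ[K] Ω) → Ω}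
    (h : Spl H c) (h' : Spl H c') : Spl H (c * c') := by
  obtain ⟨β, l, n, e⟩ := h
  obtain ⟨β', l', n', e'⟩ := h'
  refine ⟨fun g => β g * β' g, hS.lc_two (· * ·) l l', fun g hg => mul_ne_zero (n g hg) (n' g hg),
    fun g hg h hh => ?_⟩
  simp only [Pi.mul_apply, map_mul]
  linear_combination (c' g h * β' (g * h)) * e g hg h hh + (β g * g (β h)) * e' g hg h hh

theorem cancel (hS : SzSt) {H : Subgroup (Ω ≃ₐ[K] Ω)} {c c' : (Ω ≃ₐ[K] Ω) → (Ω ≃ₐ[K] Ω) → Ω}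
    (h : Spl H c) (h' : Spl H (c * c')) : Spl H c' := by
  obtain ⟨β, l, n, e⟩ := h
  obtain ⟨β', l', n', e'⟩ := h'
  refine ⟨fun g => β' g / β g, hS.lc_two (· / ·) l' l, fun g hg => div_ne_zero (n' g hg) (n g hg),
    fun g hg h hh => ?_⟩
  have h1 := n g hg
  have h2 := n _ (H.mul_mem hg hh)
  have h3 : g (β h) ≠ 0 := (map_ne_zero g).2 (n h hh)
  have h4 := e g hg h hh
  have h5 := e' g hg h hh
  simp only [Pi.mul_apply, map_div₀] at h5 ⊢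
  field_simp
  linear_combination β (g * h) * h5 - c' g h * β' (g * h) * h4

theorem congr {H : Subgroup (Ω ≃ₐ[K] Ω)} {c c' : (Ω ≃ₐ[K] Ω) → (Ω ≃ₐ[K] Ω) → Ω}
    (h : Spl H c) (h' : ∀ g ∈ H, ∀ h ∈ H, c g h = c' g h) : Spl H c' := by
  obtain ⟨β, l, n, e⟩ := h
  exact ⟨β, l, n, fun g hg h hh => h' g hg h hh ▸ e g hg h hh⟩

theorem pow (hS : SzSt) {H : Subgroup (Ω ≃ₐ[K] Ω)} {c : (Ω ≃ₐ[K] Ω) → (Ω ≃ₐ[K] Ω) → Ω}
    (h : Spl H c) (n : ℕ) : Spl H (c ^ n) := by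
  induction n with
  | zero => exact ⟨fun _ => 1, lc_const _ _, fun _ _ => one_ne_zero, fun g _ h _ => by simp⟩
  | succ n ih => exact pow_succ c n ▸ mul hS ih h

theorem odd (hS : SzSt) {H : Subgroup (Ω ≃ₐ[K] Ω)} {c : (Ω ≃ₐ[K] Ω) → (Ω ≃ₐ[K] Ω) → Ω}
    {m k : ℕ} (hm : Odd m) (hc : ∀ g ∈ H, ∀ h ∈ H, c g h ^ 2 ^ k = 1) (h : Spl H (c ^ m)) :
    Spl H c := by
  have h1 := Nat.ModEq.pow_totient ((Nat.coprime_two_right.2 hm).pow_right k)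
  obtain ⟨t, ht⟩ := Nat.exists_eq_succ_of_ne_zero (Nat.totient_pos.2 (Nat.two_pow_pos k)).ne'
  refine congr (pow hS h (m ^ t)) fun g hg h hh => ?_
  rw [ht, pow_succ'] at h1
  simp only [Pi.pow_apply]
  rw [← pow_mul, pow_eq_pow_mod _ (hc g hg h hh), h1, ← pow_eq_pow_mod _ (hc g hg h hh), pow_one]

theorem small (hT : TopSt K Ω) {H : Subgroup (Ω ≃ₐ[K] Ω)} {c : (Ω ≃ₐ[K] Ω) → (Ω ≃ₐ[K] Ω) → Ω}
    (hH : IsClosed (H : Set (Ω ≃ₐ[K] Ω))) (hc : Coc2 H c) : ∃ U : Subgroup (Ω ≃ₐ[K] Ω),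
      IsOpen (U : Set (Ω ≃ₐ[K] Ω)) ∧ U.Normal ∧ Spl (H ⊓ U) c := by
  obtain ⟨U, hU, hN, h⟩ := hT.unif2 H c hH hc.2.1
  have h1 := H.one_mem
  have h2 : ∀ g ∈ H ⊓ U, ∀ k ∈ H ⊓ U, c g k = c 1 1 := fun g hg k hk =>
    (h 1 h1 g hg.1 1 h1 k hk.1 (by simpa using hg.2) (by simpa using hk.2)).symm
  refine ⟨U, hU, hN, fun _ => c 1 1, lc_const _ _, fun _ _ => hc.1 1 h1 1 h1, fun g hg k hk => ?_⟩
  have h3 := hc.2.2 g hg.1 1 h1 1 h1
  rw [mul_one, mul_one, h2 g hg 1 (Subgroup.one_mem _)] at h3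
  rw [h2 g hg k hk, ← h3, mul_comm]

theorem conj (hS : SzSt) {H D D' : Subgroup (Ω ≃ₐ[K] Ω)}
    {c : (Ω ≃ₐ[K] Ω) → (Ω ≃ₐ[K] Ω) → Ω} {σ : Ω ≃ₐ[K] Ω} (hc : Coc2 H c) (hD : D ≤ H) (hσ : σ ∈ H)
    (hD' : ∀ g ∈ D', σ⁻¹ * g * σ ∈ D) (h : Spl D c) : Spl D' c := by
  obtain ⟨β, l, n, e⟩ := h
  have m : ∀ g ∈ D', g ∈ H := fun g hg => by
    have := H.mul_mem (H.mul_mem hσ (hD (hD' g hg))) (H.inv_mem hσ)
    simpa [mul_assoc] using this
  have ct : Continuous fun g : Ω ≃ₐ[K] Ω => σ⁻¹ * g * σ := by fun_prop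
  have l1 : LC (D' : Set (Ω ≃ₐ[K] Ω)) fun g => σ (β (σ⁻¹ * g * σ)) :=
    hS.lc_comp σ (hS.lc_pull l ct.continuousOn fun g hg => hD' g hg)
  have l2 : LC (D' : Set (Ω ≃ₐ[K] Ω)) fun g => c g σ :=
    hS.lc_pull (φ := fun g => (g, σ)) hc.2.1 (by fun_prop) fun g hg => ⟨m g hg, hσ⟩
  have l3 : LC (D' : Set (Ω ≃ₐ[K] Ω)) fun g => c σ (σ⁻¹ * g * σ) :=
    hS.lc_pull (φ := fun g => (σ, σ⁻¹ * g * σ)) hc.2.1 (by fun_prop)
      fun g hg => ⟨hσ, hD (hD' g hg)⟩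
  refine ⟨fun g => σ (β (σ⁻¹ * g * σ)) * c g σ / c σ (σ⁻¹ * g * σ),
    hS.lc_two (· / ·) (hS.lc_two (· * ·) l1 l2) l3, fun g hg => div_ne_zero (mul_ne_zero
      ((map_ne_zero σ).2 (n _ (hD' g hg))) (hc.1 g (m g hg) σ hσ)) (hc.1 σ hσ _ (hD (hD' g hg))),
    fun g hg h hh => ?_⟩
  have ha := hD' g hg
  have hb := hD' h hh
  have e0 : σ⁻¹ * (g * h) * σ = σ⁻¹ * g * σ * (σ⁻¹ * h * σ) := by group
  have e1 : g * σ = σ * (σ⁻¹ * g * σ) := by group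
  have e2 : h * σ = σ * (σ⁻¹ * h * σ) := by group
  simp only [e0]
  generalize σ⁻¹ * g * σ = a at *
  generalize σ⁻¹ * h * σ = b at *
  have c0 := congrArg σ (e a ha b hb)
  have c1 := hc.2.2 g (m g hg) h (m h hh) σ hσ
  have c2 := hc.2.2 g (m g hg) σ hσ b (hD hb)
  have c3 := hc.2.2 σ hσ a (hD ha) b (hD hb)
  have c4 : g (σ (β b)) = σ (a (β b)) := by rw [← AlgEquiv.mul_apply, e1, AlgEquiv.mul_apply]
  have n1 := hc.1 σ hσ _ (hD (D.mul_mem ha hb))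
  have n2 := hc.1 σ hσ _ (hD ha)
  have n3 : g (c σ b) ≠ 0 := (map_ne_zero g).2 (hc.1 σ hσ _ (hD hb))
  rw [e2] at c1
  rw [e1] at c2
  simp only [map_mul, map_div₀, c4] at c0 ⊢
  field_simp
  linear_combination (-(σ (β (a * b)) * c σ a * g (c σ b))) * c1
    + (σ (β (a * b)) * c σ a * g (c h σ)) * c2 - (σ (β (a * b)) * c g σ * g (c h σ)) * c3
    + (c g σ * g (c h σ) * c σ (a * b)) * c0

theorem sz [IsAlgClosed Ω] [CharZero Ω] (hS : SzSt) (hT : TopSt K Ω) (hK : KumSt K Ω)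
    {H : Subgroup (Ω ≃ₐ[K] Ω)} {ε : (Ω ≃ₐ[K] Ω) → (Ω ≃ₐ[K] Ω) → ZMod 2}
    (hH : IsClosed (H : Set (Ω ≃ₐ[K] Ω))) : Spl H (sgc ε) ↔ Sz H ε := by
  have z : ∀ a b c d : ZMod 2, a + b = c + d ↔ a = c + d + b := by decide
  refine ⟨fun ⟨β, l, n, e⟩ => ?_, fun ⟨f, l, e⟩ => ⟨fun g => sg Ω (f g),
    hS.lc_comp _ ((hS.lc _ f).2 l), fun g _ => sg_ne_zero _, fun g hg h hh => ?_⟩⟩
  · obtain ⟨b, hb, hβ⟩ := hK.h90 H (fun g => β g ^ 2) hH (hS.lc_comp (· ^ 2) l)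
      (fun g hg => pow_ne_zero _ (n g hg)) fun g hg h hh => by
        have h1 := e g hg h hh
        have h2 : sgc ε g h * sgc ε g h = (1 : Ω) := sg_mul_self _
        simp only [map_pow]
        linear_combination (sgc ε g h * β (g * h) + β g * g (β h)) * h1 - β (g * h) ^ 2 * h2
    obtain ⟨γ, rfl⟩ := IsAlgClosed.exists_pow_nat_eq b two_pos
    have n0 : γ ≠ 0 := fun h => hb (by simp [h])
    have n1 : ∀ g : Ω ≃ₐ[K] Ω, g γ ≠ 0 := fun g => (map_ne_zero g).2 n0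
    have l1 : LC (H : Set (Ω ≃ₐ[K] Ω)) fun g => g γ :=
      hT.lc_app (φ := fun g => g) continuousOn_id (lc_const _ γ)
    have k : ∀ g ∈ H, β g * γ = sg Ω (if β g * γ = g γ then 0 else 1) * g γ := fun g hg => by
      have h1 := hβ g hg
      rw [map_pow, ← mul_pow, sq_eq_sq_iff_eq_or_eq_neg] at h1
      split_ifs with h
      · simp [h]
      · rw [h1.resolve_left (Ne.symm h)]
        simp
    refine ⟨fun g => if β g * γ = g γ then 0 else 1,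
      (hS.lc _ _).1 (hS.lc_two (fun x y => if x * γ = y then (0 : ZMod 2) else 1) l l1),
      fun g hg h hh => (z _ _ _ _).1 (sg_inj (R := Ω) ?_)⟩
    have k1 := k g hg
    have k2 := congrArg g (k h hh)
    have k3 := k _ (H.mul_mem hg hh)
    have h1 := e g hg h hh
    rw [map_mul, map_mul, map_sg] at k2
    rw [sg_add, sg_add]
    simp only [sgc] at h1
    generalize sg Ω (if β (g * h) * γ = (g * h) γ then 0 else 1) = s3 at *
    generalize sg Ω (if β g * γ = g γ then 0 else 1) = s1 at *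
    generalize sg Ω (if β h * γ = h γ then 0 else 1) = s2 at *
    rw [AlgEquiv.mul_apply] at k3
    refine mul_right_cancel₀ ((map_ne_zero g).2 (n1 h)) ?_
    linear_combination γ * h1 - sg Ω (ε g h) * k3 + g (β h) * k1 + s1 * k2
  · rw [sgc, map_sg, ← sg_add, ← sg_add, (z _ _ _ _).2 (e g hg h hh)]

end BrAux

theorem st_Br [IsAlgClosed Ω] [CharZero Ω] (hS : SzSt) (hT : TopSt K Ω) (hK : KumSt K Ω) :
    BrSt K Ω where
  mul := BrAux.mul hS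
  cancel := BrAux.cancel hS
  congr := BrAux.congr
  mono := fun ⟨β, l, n, e⟩ h =>
    ⟨β, hS.lc_mono l h, fun g hg => n g (h hg), fun g hg k hk => e g (h hg) k (h hk)⟩
  coc_mono := fun ⟨n, l, e⟩ h => ⟨fun g hg k hk => n g (h hg) k (h hk),
    hS.lc_mono l (Set.prod_mono h h), fun a ha b hb c hc => e a (h ha) b (h hb) c (h hc)⟩
  coc_mul := fun {_ c c'} ⟨n, l, e⟩ ⟨n', l', e'⟩ =>
    ⟨fun g hg k hk => mul_ne_zero (n g hg k hk) (n' g hg k hk), hS.lc_two (· * ·) l l',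
      fun g hg h hh k hk => by
        simp only [Pi.mul_apply, map_mul]
        linear_combination (g (c' h k) * c' g (h * k)) * e g hg h hh k hk
          + (c (g * h) k * c g h) * e' g hg h hh k hk⟩
  coc_sg := fun ⟨l, e⟩ => ⟨fun _ _ _ _ => sg_ne_zero _, hS.lc_comp (sg Ω) ((hS.lc _ _).2 l),
    fun g hg h hh k hk => by
      simp only [sgc]
      rw [map_sg, ← sg_add, ← sg_add, e g hg h hh k hk]⟩
  sgc_add := fun _ _ => funext fun _ => funext fun _ => sg_add _ _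
  sz := BrAux.sz hS hT hK
  conj := BrAux.conj hS
  small := BrAux.small hT
  odd := BrAux.odd hS

end Pool.Agent.SC
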