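import Pool.Agent.Lib.MP_b4b3cb_nt.StG

/-! The local character groups. -/

namespace Pool.Agent.SC

open NumberField Pool.Agent.Stark
open scoped Classical Pointwise Topology

namespace CardAux

/-- Two quotients with the same fibres have the same number of elements. -/
theorem card_eq {X A B : Type} {f : X → A} {g : X → B} (hf : Function.Surjective f)
    (hg : Function.Surjective g) (h : ∀ x y, f x = f y ↔ g x = g y) : Nat.card A = Nat.card B := by
  refine Nat.card_eq_of_bijective (g ∘ Function.surjInv hf) ⟨fun a a' e => ?_, fun b => ?_⟩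
  · rw [← Function.surjInv_eq hf a, ← Function.surjInv_eq hf a']
    exact (h _ _).2 e
  · obtain ⟨x, rfl⟩ := hg b
    exact ⟨f x, (h _ _).1 (Function.surjInv_eq hf _)⟩

/-- Every local square class contains a global element. -/
theorem exists_cl {K : Type} [Field K] [NumberField K] (q : Pr K) (c : SqCl (Kc q)) :
    ∃ a : K, a ≠ 0 ∧ cl (emb q a) = c := by
  obtain ⟨x, hx, rfl⟩ := cl_surj c
  obtain ⟨y, hy⟩ := exists_approx q x (ord (wv q) x + (2 * ord (wv q) (2 : Kc q) + 1))
  have h1 := ComplAux.pw_div hx hy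
  rw [sub_div, div_self hx] at h1
  have h0 : emb q y ≠ 0 := fun e => by
    rw [e, zero_div, zero_sub, mem_pw_iff, ord_neg, ord_one] at h1
    have := ord_two_nonneg (w := wv q)
    rcases h1 with h1 | h1
    · simp at h1
    · omega
  refine ⟨y, (map_ne_zero _).1 h0, (cl_eq_cl h0 hx).2 ?_⟩
  rw [show emb q y * x = emb q y / x * (x * x) by field_simp]
  exact (LocAux.hens (isLoc_wv q) h1).mul ⟨x, rfl⟩

variable {K Ω : Type} [Field K] [NumberField K] [Field Ω] [Algebra K Ω] [IsAlgClosed Ω]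

theorem same (hD : DictSt K Ω) (π : Plc K Ω) (q : Pr K) {a b : K} (ha : a ≠ 0) (hb : b ≠ 0) :
    (∀ g ∈ π.D (Sum.inl q), kr (rt Ω a) g = kr (rt Ω b) g) ↔ IsSquare (emb q a * emb q b) := by
  have h := hD.zero π (Sum.inl q) (mul_ne_zero ha hb)
  rw [hD.mul ha hb] at h
  rw [← map_mul]
  refine Iff.trans (forall₂_congr fun g _ => ?_) h
  rw [Pi.add_apply]
  generalize kr (rt Ω a) g = x, kr (rt Ω b) g = y
  revert x y
  decide

theorem card (hD : DictSt K Ω) (π : Plc K Ω) (q : Pr K) :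
    Nat.card (Hm (π.D (Sum.inl q))) = Nat.card (SqCl (Kc q)) := by
  refine card_eq (X := {a : K // a ≠ 0})
    (f := fun a => ⟨res (π.D (Sum.inl q)) (kr (rt Ω a.1)), ⟨((hD.hom a.2).1.mono
      (Set.subset_univ _)).congr fun g hg => if_pos hg, fun g hg h hh => by
        simp only [res, if_pos hg, if_pos hh, if_pos (mul_mem hg hh)]
        exact (hD.hom a.2).2 g trivial h trivial⟩, fun g hg => if_neg hg⟩)
    (g := fun a => cl (emb q a.1)) (fun f => ?_) (fun c => ?_) fun a b => ?_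
  · obtain ⟨a, ha, e⟩ := hD.kum π _ f.1 f.2.1
    refine ⟨⟨a, ha⟩, Subtype.ext (funext fun g => ?_)⟩
    by_cases hg : g ∈ π.D (Sum.inl q)
    · exact (if_pos hg).trans (e g hg).symm
    · exact (if_neg hg).trans (f.2.2 g hg).symm
  · obtain ⟨a, ha, e⟩ := exists_cl q c
    exact ⟨⟨a, ha⟩, e⟩
  · rw [cl_eq_cl ((map_ne_zero _).2 a.2) ((map_ne_zero _).2 b.2), ← same hD π q a.2 b.2,
      Subtype.ext_iff, funext_iff]
    refine forall_congr' fun g => ?_
    by_cases hg : g ∈ π.D (Sum.inl q) <;> simp [res, hg]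

end CardAux

variable {K Ω : Type} [Field K] [NumberField K] [Field Ω] [Algebra K Ω] [IsAlgClosed Ω]

theorem st_Card (hD : DictSt K Ω) (hC : CjSt K Ω) : CardSt K Ω := by
  refine ⟨fun π v => ?_, fun π q => ?_, fun π q h2 f f' hf hf' hi hi' => ?_⟩
  · rcases v with q | φ
    · refine Nat.finite_of_card_ne_zero ?_
      rw [CardAux.card hD, (isLoc_wv q).card_sqCl]
      exact mul_ne_zero (by norm_num) (pow_ne_zero _ (isLoc_wv q).fin)
    · refine Finite.of_injective (fun f : Hm (π.D (Sum.inr φ)) => (f.1 1, f.1 (π.c φ)))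
        fun f f' e => Subtype.ext (funext fun g => ?_)
      by_cases hg : g ∈ π.D (Sum.inr φ)
      · rcases ((hC.sq (π.hc φ)).2.1 g).1 hg with rfl | rfl
        exacts [congrArg Prod.fst e, congrArg Prod.snd e]
      · rw [f.2.2 g hg, f'.2.2 g hg]
  · rw [CardAux.card hD, (isLoc_wv q).card_sqCl, rc_wv, ← ord_emb, map_ofNat]
  · obtain ⟨a, ha, e⟩ := hD.kum π _ f hf
    obtain ⟨b, hb, e'⟩ := hD.kum π _ f' hf'
    have le : ∀ g ∈ π.I (Sum.inl q), g ∈ π.D (Sum.inl q) := fun g hg =>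
      Ideal.inertia_le_stabilizer _ hg
    have h2' : ord (wv q) (2 : Kc q) = 0 := by rw [← h2, ← ord_emb, map_ofNat]
    have key : ∀ {a : K} {f : (Ω ≃ₐ[K] Ω) → ZMod 2}, a ≠ 0 →
        (∀ g ∈ π.D (Sum.inl q), f g = kr (rt Ω a) g) → (∀ g ∈ π.I (Sum.inl q), f g = 0) →
        Unr (wv q) (emb q a) := fun ha e hi =>
      (isLoc_wv q).unr_of_odd h2' ((map_ne_zero _).2 ha) (by
        rw [ord_emb]
        exact (hD.unr π q ha h2).1 fun g hg => (e g (le g hg)).symm.trans (hi g hg))
    by_cases s : LSq q a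
    · exact .inl fun g hg => (e g hg).trans ((hD.zero π (Sum.inl q) ha).2 s g hg)
    by_cases s' : LSq q b
    · exact .inr (.inl fun g hg => (e' g hg).trans ((hD.zero π (Sum.inl q) hb).2 s' g hg))
    refine .inr (.inr fun g hg => ?_)
    rw [e g hg, e' g hg]
    exact (CardAux.same hD π q ha hb).2 ((isLoc_wv q).isSquare_mul_of_unr ((map_ne_zero _).2 ha)
      ((map_ne_zero _).2 hb) (key ha e hi) (key hb e' hi') s s') g hg

end Pool.Agent.SC
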