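import Pool.Agent.Lib.MP_b4b3cb_nt.StG

/-! Complex conjugations in the Galois group. -/

namespace Pool.Agent.SC

open NumberField Pool.Agent.Stark
open scoped Classical Pointwise Topology

namespace CjAux

variable {K Ω : Type} [Field K] [Field Ω] [Algebra K Ω]

/-- Two embeddings that agree on `K` differ by an automorphism. -/
theorem two_emb [Normal K Ω] (j j' : Ω →+* ℂ)
    (h : ∀ a : K, j (algebraMap K Ω a) = j' (algebraMap K Ω a)) :
    ∃ σ : Ω ≃ₐ[K] Ω, ∀ x, j' (σ x) = j x := by
  let _ : Algebra K ℂ := (j.comp (algebraMap K Ω)).toAlgebra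
  let _ : Algebra Ω ℂ := j'.toAlgebra
  have : IsScalarTower K Ω ℂ := IsScalarTower.of_algebraMap_eq h
  let ψ : Ω →ₐ[K] ℂ := { j with commutes' := fun _ => rfl }
  exact ⟨ψ.restrictNormal' Ω, fun x => ψ.restrictNormal_commutes Ω x⟩

theorem mul_self {j : Ω →+* ℂ} {g : Ω ≃ₐ[K] Ω} (h : Cj j g) : g * g = 1 := by
  ext x
  apply j.injective
  rw [AlgEquiv.mul_apply, h, h, Complex.conj_conj, AlgEquiv.one_apply]

theorem mem_zp {G : Type} [Group G] {g : G} (hg : g * g = 1) (h : G) :
    h ∈ Subgroup.zpowers g ↔ h = 1 ∨ h = g := by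
  constructor
  · rintro ⟨k, rfl⟩
    have e : g ^ (2 : ℤ) = 1 := by rw [zpow_two, hg]
    obtain ⟨m, rfl | rfl⟩ := Int.even_or_odd' k
    · exact Or.inl (by simp only [zpow_mul, e, one_zpow])
    · exact Or.inr (by simp only [zpow_add, zpow_mul, e, one_zpow, one_mul, zpow_one])
  · rintro (rfl | rfl)
    · exact Subgroup.one_mem _
    · exact Subgroup.mem_zpowers _

theorem fix_iff {F : Type} [Field F] [Algebra F Ω] {j : Ω →+* ℂ} {g : Ω ≃ₐ[K] Ω} {φ : F →+* ℝ}
    (hc : Cj j g) (hj : ∀ a, j (algebraMap F Ω a) = φ a) {a : F} {r : Ω} (ha : a ≠ 0)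
    (hr : r ^ 2 = algebraMap F Ω a) : g r = r ↔ 0 < φ a := by
  have e : j r ^ 2 = φ a := by rw [← map_pow, hr, hj]
  have e1 := congrArg Complex.re e
  have e2 := congrArg Complex.im e
  simp only [pow_two, Complex.mul_re, Complex.mul_im, Complex.ofReal_re, Complex.ofReal_im] at e1 e2
  have h0 : φ a ≠ 0 := (map_ne_zero φ).2 ha
  rw [← j.injective.eq_iff, hc, Complex.conj_eq_iff_im]
  constructor
  · intro h
    rw [h] at e1
    refine lt_of_le_of_ne ?_ h0.symm
    nlinarith [mul_self_nonneg (j r).re]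
  · intro h
    by_contra h1
    have h2 : (j r).re = 0 := by
      have : (j r).re * (j r).im = 0 := by linarith
      exact (mul_eq_zero.1 this).resolve_right h1
    rw [h2] at e1
    nlinarith [mul_self_nonneg (j r).im]

theorem kr_one (r : Ω) : kr r (1 : Ω ≃ₐ[K] Ω) = 0 := if_pos rfl

end CjAux

open CjAux

variable {K Ω : Type} [Field K] [NumberField K] [Field Ω] [Algebra K Ω] [IsAlgClosed Ω]
  [IsGalois K Ω] [CharZero Ω]

omit [NumberField K] [IsAlgClosed Ω] [CharZero Ω] in
theorem st_Cj : CjSt K Ω where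
  ex := by
    intro F _ _ _ _ _ φ
    have : Algebra.IsAlgebraic F Ω := Algebra.IsAlgebraic.tower_top (K := K) F
    let _ : Algebra F ℂ := (Complex.ofRealHom.comp φ).toAlgebra
    let ψ : Ω →ₐ[F] ℂ := IsAlgClosed.lift
    have hj : ∀ a, (ψ : Ω →+* ℂ) (algebraMap F Ω a) = φ a := fun a => ψ.commutes a
    obtain ⟨g, hg⟩ := two_emb (K := K) ((starRingEnd ℂ).comp (ψ : Ω →+* ℂ)) (ψ : Ω →+* ℂ)
      fun a => by
        rw [IsScalarTower.algebraMap_apply K F Ω, RingHom.comp_apply, hj, Complex.conj_ofReal]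
    refine ⟨ψ, g, hj, fun x => (ψ : Ω →+* ℂ).injective ?_, hg⟩
    rw [hg, RingHom.comp_apply, hj, Complex.conj_ofReal]
  sq := by
    intro j g h
    refine ⟨mul_self h, mem_zp (mul_self h), ?_⟩
    have : (Subgroup.zpowers g : Set (Ω ≃ₐ[K] Ω)) = {1, g} := Set.ext (mem_zp (mul_self h))
    rw [this]
    exact (Set.toFinite _).isClosed
  conj := by
    intro j j' g g' h h' e
    obtain ⟨σ, hσ⟩ := two_emb j j' e
    refine ⟨σ, ?_⟩
    rw [mul_assoc, inv_mul_eq_iff_eq_mul]
    ext x
    apply j'.injective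
    rw [AlgEquiv.mul_apply, AlgEquiv.mul_apply, h', hσ, hσ, h]
  real := by
    intro j g h
    have : ComplexEmbedding.IsReal (j.comp (algebraMap K Ω)) := by
      rw [ComplexEmbedding.isReal_iff]
      ext a
      rw [ComplexEmbedding.conjugate_coe_eq, RingHom.comp_apply, ← h, AlgEquiv.commutes]
    exact ⟨this.embedding, fun a => (this.coe_embedding_apply a).symm⟩
  lsq := fun hc hj _ _ ha hr => fix_iff hc hj ha hr
  norm := by
    intro F _ _ j g φ hc hj a b r s ha hb hr hs'
    have l1 := fix_iff hc hj ha hr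
    have l2 := fix_iff hc hj hb hs'
    have a0 : φ a ≠ 0 := (map_ne_zero φ).2 ha
    have b0 : φ b ≠ 0 := (map_ne_zero φ).2 hb
    have e : hs (φ a) (φ b) = 0 ↔ g r = r ∨ g s = s := by
      rw [hs_real a0 b0, l1, l2]
      split_ifs with h
      · exact ⟨fun h' => absurd h' one_ne_zero, fun h' => by
          rcases h' with h' | h' <;> linarith [h.1, h.2]⟩
      · refine ⟨fun _ => ?_, fun _ => rfl⟩
        by_contra h1
        rw [not_or, not_lt, not_lt] at h1
        exact h ⟨lt_of_le_of_ne h1.1 a0, lt_of_le_of_ne h1.2 b0⟩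
    rw [e]
    constructor
    · rintro ⟨f, -, hf⟩
      have h1 := hf 1 (Subgroup.one_mem _) 1 (Subgroup.one_mem _)
      have h2 := hf g (Subgroup.mem_zpowers g) g (Subgroup.mem_zpowers g)
      rw [cup, kr_one, zero_mul, mul_one, CharTwo.add_self_eq_zero, zero_add] at h1
      rw [cup, mul_self hc, CharTwo.add_self_eq_zero, zero_add, ← h1] at h2
      by_contra h3
      rw [not_or] at h3
      rw [kr, kr, if_neg h3.1, if_neg h3.2, mul_one] at h2
      exact one_ne_zero h2
    · intro h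
      refine ⟨fun _ => 0, continuousOn_const, fun x hx y hy => ?_⟩
      rw [mem_zp (mul_self hc)] at hx hy
      simp only [cup, add_zero]
      rcases h with h | h
      · rcases hx with rfl | rfl
        · rw [kr_one, zero_mul]
        · rw [kr, if_pos h, zero_mul]
      · rcases hy with rfl | rfl
        · rw [kr_one, mul_zero]
        · rw [kr.eq_1 s, if_pos h, mul_zero]

end Pool.Agent.SC
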