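import Pool.Agent.Lib.MP_b4b3cb_nt.StF

/-! The functional equation for the series of the ideal classes. -/

namespace Pool.Agent.SC

open NumberField Pool.Agent.Stark
open scoped Classical ComplexConjugate

namespace ClFEAux

/-- Entire functions which agree on a half plane are equal. -/
theorem ent_eq {f g : ℂ → ℂ} (hf : Differentiable ℂ f) (hg : Differentiable ℂ g)
    (h : ∀ s : ℂ, 1 < s.re → f s = g s) : f = g := by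
  have hf' : AnalyticOnNhd ℂ f Set.univ := hf.differentiableOn.analyticOnNhd isOpen_univ
  have hg' : AnalyticOnNhd ℂ g Set.univ := hg.differentiableOn.analyticOnNhd isOpen_univ
  refine hf'.eq_of_eventuallyEq hg' (z₀ := 2) ?_
  have ho : IsOpen {s : ℂ | 1 < s.re} := isOpen_lt continuous_const Complex.continuous_re
  filter_upwards [ho.mem_nhds (show (2 : ℂ) ∈ {s : ℂ | 1 < s.re} by simp)] with s hs using h s hs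

theorem nat_cpow {n : ℕ} (hn : n ≠ 0) (s : ℂ) :
    (n : ℂ) ^ s = Complex.exp (s * (Real.log n : ℝ)) := by
  rw [Complex.cpow_def_of_ne_zero (by exact_mod_cast hn), Complex.natCast_log, mul_comm]

theorem exp_cpow (x : ℝ) (s : ℂ) : ((Real.exp x : ℝ) : ℂ) ^ s = Complex.exp (s * x) := by
  rw [Complex.cpow_def_of_ne_zero (by exact_mod_cast (Real.exp_pos x).ne'),
    ← Complex.ofReal_log (Real.exp_pos x).le, Real.log_exp, mul_comm]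

theorem alg1 {c q G Z e₁ e₂ e₃ : ℂ} (hc : c ≠ 0) (hq : q ≠ 0) (e : e₁ * e₂ * e₃ = 1) :
    c * e₁ * G * (q * e₂) * Z * (e₃ / (c * q)) = G * Z := by
  field_simp
  linear_combination G * Z * e

theorem alg2 {J τ x P P' q p p' N Nf V c m e₁ e₂ : ℂ} (hp : p ≠ 0) (hp' : p' ≠ 0) (hN : N ≠ 0)
    (hf : Nf ≠ 0) (hV : V ≠ 0) (hc : c ≠ 0) (h : x * P * p' = P' * q * (p * N)) :
    J * τ * x * P / (Nf * N * V) * m * (e₁ * e₂ / (c * p)) =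
      1 / (Nf * V) * (J * τ * P' * q) * e₁ * (m * (e₂ / (c * p'))) := by
  field_simp
  linear_combination J * τ * m * e₁ * e₂ * h

theorem alg3 {x P Q p q p' pb N : ℂ} (hq : q ≠ 0) (h1 : pb * q * p' = x * Q)
    (h2 : p * pb * N = 1) (h5 : x * x = 1) : x * P * p' = P * Q * q⁻¹ * (p * N) := by
  have h7 : Q = x * (pb * q * p') := by rw [h1, ← mul_assoc, h5, one_mul]
  rw [h7]
  field_simp
  linear_combination (-x * P * p') * h2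

variable {K L : Type} [Field K] [NumberField K] [Field L] [NumberField L] [Algebra K L]

theorem norm_ne {𝔟 : Ideal (𝓞 L)} (h : 𝔟 ≠ ⊥) : Ideal.absNorm 𝔟 ≠ 0 :=
  fun e => h (Ideal.absNorm_eq_zero_iff.mp e)

theorem cls_mul (I J : Ideal (𝓞 L)) (hI : I ≠ ⊥) (hJ : J ≠ ⊥) (h : I * J ≠ ⊥) :
    ZetaZeroAux.cls ⟨I * J, h⟩ = ZetaZeroAux.cls ⟨I, hI⟩ * ZetaZeroAux.cls ⟨J, hJ⟩ := by
  unfold ZetaZeroAux.cls
  rw [← map_mul]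
  rfl

theorem cls_inv {I J : Ideal (𝓞 L)} (hI : I ≠ ⊥) (hJ : J ≠ ⊥) {β : 𝓞 L} (hβ : β ≠ 0)
    (h : I * J = Ideal.span {β}) : (ZetaZeroAux.cls ⟨J, hJ⟩)⁻¹ = ZetaZeroAux.cls ⟨I, hI⟩ := by
  unfold ZetaZeroAux.cls
  symm
  rw [ClassGroup.mk0_eq_mk0_inv_iff]
  exact ⟨β, hβ, h⟩

omit [NumberField L] in
theorem right_ne {I J : Ideal (𝓞 L)} {β : 𝓞 L} (hβ : β ≠ 0) (h : I * J = Ideal.span {β}) :
    J ≠ ⊥ := by
  rintro rfl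
  rw [Ideal.mul_bot] at h
  exact hβ (Ideal.span_singleton_eq_bot.mp h.symm)

theorem cls_map (hQ : QdSt K L) {d : K} (E : Quad K L d) {I J : Ideal (𝓞 L)} (hI : I ≠ ⊥)
    (hJ : J ≠ ⊥) (h : ZetaZeroAux.cls ⟨I.map E.sg, hQ.map_ne E hI⟩ =
      ZetaZeroAux.cls ⟨J.map E.sg, hQ.map_ne E hJ⟩) :
    ZetaZeroAux.cls ⟨I, hI⟩ = ZetaZeroAux.cls ⟨J, hJ⟩ := by
  obtain ⟨x, y, hx, hy, e⟩ := ClassGroup.mk0_eq_mk0_iff.mp h
  refine ClassGroup.mk0_eq_mk0_iff.mpr ⟨E.sg x, E.sg y, by simpa using hx, by simpa using hy, ?_⟩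
  have := congrArg (Ideal.map E.sg) e
  simpa only [Ideal.map_mul, Ideal.map_span, Set.image_singleton, hQ.map_map] using this

theorem exists_rep (hC : CnSt) {𝔣 : Ideal (𝓞 L)} (hf : 𝔣 ≠ ⊥) (c : ClassGroup (𝓞 L)) :
    ∃ (𝔟 : Ideal (𝓞 L)) (h : 𝔟 ≠ ⊥), IsCoprime 𝔟 𝔣 ∧ (ZetaZeroAux.cls ⟨𝔟, h⟩)⁻¹ = c := by
  obtain ⟨⟨I, hI⟩, rfl⟩ := ClassGroup.mk0_surjective c
  have hI' : I ≠ ⊥ := nonZeroDivisors.ne_zero hI
  obtain ⟨𝔟, β, hβ, hc, e⟩ := hC.inv hI' hf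
  exact ⟨𝔟, right_ne hβ e, hc, cls_inv hI' _ hβ e⟩

omit [NumberField K] in
theorem psi_ne {d : K} {E : Quad K L d} {𝔣 a ψ χ} (H : HD E 𝔣 a ψ χ) {𝔟 : Ideal (𝓞 L)}
    (h : 𝔟 ≠ ⊥) (hc : IsCoprime 𝔟 𝔣) : ψ 𝔟 ≠ 0 := by
  intro e
  have := H.dual 𝔟 h hc
  rw [e] at this
  simp at this

omit [NumberField K] in
theorem cop_map (hH : HDSt K L) {d : K} {E : Quad K L d} {𝔣 a ψ χ} (H : HD E 𝔣 a ψ χ)
    {𝔟 : Ideal (𝓞 L)} (hc : IsCoprime 𝔟 𝔣) : IsCoprime (𝔟.map E.sg) 𝔣 := by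
  rw [Ideal.isCoprime_iff_sup_eq] at hc ⊢
  have := congrArg (Ideal.map E.sg) hc
  rwa [Ideal.map_sup, (hH.sym H).1, Ideal.map_top] at this

/-- The normalised Mellin transform. -/
noncomputable def Phi (a : (L →+* ℂ) → ℤ) (ψ : Ideal (𝓞 L) →* ℂ) (χ : 𝓞 L → ℤ) {r : ℕ} (c₀ : ℝ)
    (𝔟 : Ideal (𝓞 L)) (l : Fin r → Ty a → ℝ) (y₀ : Ty a → ℝ) (s : ℂ) : ℂ :=
  mel (th a χ 𝔟) l y₀ s *
    (Complex.exp (s * ((2 * ∑ k, y₀ k + Real.log (Ideal.absNorm 𝔟) : ℝ) : ℂ)) / (c₀ * ψ 𝔟))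

theorem Phi_diff (hM : MelSt) {a : (L →+* ℂ) → ℤ} (ψ : Ideal (𝓞 L) →* ℂ) {χ : 𝓞 L → ℤ} {r : ℕ}
    (c₀ : ℝ) {𝔟 : Ideal (𝓞 L)} (l : Fin r → Ty a → ℝ) (y₀ : Ty a → ℝ) (h : Adm (th a χ 𝔟)) :
    Differentiable ℂ (Phi a ψ χ c₀ 𝔟 l y₀) := by
  unfold Phi
  refine (hM.diff _ l y₀ h).mul (Differentiable.div_const ?_ _)
  exact (differentiable_id.mul_const _).cexp

theorem Phi_eq {a : (L →+* ℂ) → ℤ} {ψ : Ideal (𝓞 L) →* ℂ} {χ : 𝓞 L → ℤ} {r : ℕ}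
    {c₀ : ℝ} (hc₀ : 0 < c₀) {𝔟 : Ideal (𝓞 L)} (hb : 𝔟 ≠ ⊥) (hψ : ψ 𝔟 ≠ 0)
    {l : Fin r → Ty a → ℝ} {y₀ : Ty a → ℝ} {s G Z : ℂ}
    (h : mel (th a χ 𝔟) l y₀ s = c₀ * Complex.exp (-2 * s * ((∑ k, y₀ k : ℝ) : ℂ)) * G *
      (ψ 𝔟 * (Ideal.absNorm 𝔟 : ℂ) ^ (-s)) * Z) : Phi a ψ χ c₀ 𝔟 l y₀ s = G * Z := by
  unfold Phi
  rw [h, nat_cpow (norm_ne hb)]
  have hc : (c₀ : ℂ) ≠ 0 := by exact_mod_cast hc₀.ne'
  generalize (∑ k, y₀ k) = S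
  generalize Real.log (Ideal.absNorm 𝔟) = N
  have e : Complex.exp (-2 * s * S) * Complex.exp (-s * N) *
      Complex.exp (s * ((2 * S + N : ℝ) : ℂ)) = 1 := by
    rw [← Complex.exp_add, ← Complex.exp_add, ← Complex.exp_zero]
    congr 1
    push_cast
    ring
  exact alg1 hc hψ e

theorem sum_log (hQ : QdSt K L) (hCm : CmSt K L) {d : K} {E : Quad K L d} {a : (L →+* ℂ) → ℤ}
    (H : CM E a) {𝔟 𝔠 𝔟' : Ideal (𝓞 L)} {β : 𝓞 L} (hβ : β ≠ 0) (hb : 𝔟 ≠ ⊥) (hc : 𝔠 ≠ ⊥)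
    (hb' : 𝔟' ≠ ⊥) (e : 𝔟.map E.sg * 𝔠 * 𝔟' = Ideal.span {β}) {γ : L} (hγ : γ ≠ 0) :
    2 * ∑ k : Ty a, Real.log ‖k.1 (γ / β)‖ = 2 * ∑ k : Ty a, Real.log ‖k.1 γ‖ -
      (Real.log (Ideal.absNorm 𝔟) + Real.log (Ideal.absNorm 𝔠) + Real.log (Ideal.absNorm 𝔟')) := by
  have hβ' : (β : L) ≠ 0 := by exact_mod_cast hβ
  have n1 : ∀ k : Ty a, ‖k.1 (β : L)‖ ≠ 0 := fun k => by simpa using hβ'
  have n2 : ∀ k : Ty a, ‖k.1 γ‖ ≠ 0 := fun k => by simpa using hγ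
  have h1 := hCm.norm H β
  rw [← e, map_mul, map_mul, hQ.norm_map] at h1
  have h2 := congrArg Real.log h1
  have r1 : (Ideal.absNorm 𝔟 : ℝ) ≠ 0 := by exact_mod_cast norm_ne hb
  have r2 : (Ideal.absNorm 𝔠 : ℝ) ≠ 0 := by exact_mod_cast norm_ne hc
  have r3 : (Ideal.absNorm 𝔟' : ℝ) ≠ 0 := by exact_mod_cast norm_ne hb'
  rw [Real.log_prod (fun k _ => pow_ne_zero 2 (n1 k)), Nat.cast_mul, Nat.cast_mul,
    Real.log_mul (mul_ne_zero r1 r2) r3, Real.log_mul r1 r2] at h2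
  rw [← h2, Finset.mul_sum, Finset.mul_sum, ← Finset.sum_sub_distrib]
  refine Finset.sum_congr rfl fun k _ => ?_
  rw [map_div₀, norm_div, Real.log_div (n2 k) (n1 k), Real.log_pow]
  push_cast
  ring

theorem const_eq (hCm : CmSt K L) (hH : HDSt K L) {d : K} {E : Quad K L d} {𝔣 a ψ χ}
    (H : HD E 𝔣 a ψ χ) {𝔟 𝔠 𝔟' : Ideal (𝓞 L)} {β : 𝓞 L} (hβ : β ≠ 0) (hb : 𝔟 ≠ ⊥)
    (hc : 𝔠 ≠ ⊥) (c1 : IsCoprime 𝔟 𝔣) (c2 : IsCoprime 𝔠 𝔣) (c3 : IsCoprime 𝔟' 𝔣)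
    (e : 𝔟.map E.sg * 𝔠 * 𝔟' = Ideal.span {β}) (γ : L) :
    (χ β : ℂ) * pinf a (γ / β) * ψ 𝔟' =
      pinf a γ * (ψ 𝔠)⁻¹ * (ψ 𝔟 * Ideal.absNorm 𝔟) := by
  have hβ' : (β : L) ≠ 0 := by exact_mod_cast hβ
  have h1 := H.prin β hβ
  rw [← e, map_mul, map_mul] at h1
  have h2 := H.dual 𝔟 hb c1
  have h3 : pinf a γ = pinf a (γ / β) * pinf a (β : L) := by
    rw [← hCm.pinf_mul, div_mul_cancel₀ _ hβ']
  have h4 : χ β ≠ 0 := by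
    rw [H.zero, ← e]
    exact ((cop_map hH H c1).mul_left c2).mul_left c3
  have h5 : (χ β : ℂ) * χ β = 1 := by
    rcases H.val β with h | h | h
    · exact absurd h h4
    · simp [h]
    · simp [h]
  rw [h3]
  exact alg3 (psi_ne H hc c2) h1 h2 h5

end ClFEAux

variable {K L : Type} [Field K] [NumberField K] [Field L] [NumberField L] [Algebra K L]

open ClFEAux in
theorem st_ClFE (hT : ThFESt K L) (hCl : ClsSt K L) (hM : MelSt) (hC : CnSt) (hCm : CmSt K L)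
    (hH : HDSt K L) (hQ : QdSt K L) : ClFESt K L := by
  intro d E 𝔣 𝔠 a ψ χ γ₀ H Gγ
  obtain ⟨Vol, hVol, hfe⟩ := hT H Gγ
  obtain ⟨r, l, c₀, hc₀, hcl⟩ := hCl H
  have hγ : algebraMap K L γ₀ ≠ 0 := (map_ne_zero _).mpr Gγ.ne
  have hpart : ∀ 𝔟 : Ideal (𝓞 L), 𝔟 ≠ ⊥ → ∃ (𝔟' : Ideal (𝓞 L)) (β : 𝓞 L), β ≠ 0 ∧
      IsCoprime 𝔟' 𝔣 ∧ 𝔟.map E.sg * 𝔠 * 𝔟' = Ideal.span {β} := fun 𝔟 hb =>
    hC.inv (mul_ne_zero (hQ.map_ne E hb) Gγ.ne') H.ne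
  have hadm : ∀ 𝔟 : Ideal (𝓞 L), 𝔟 ≠ ⊥ → IsCoprime 𝔟 𝔣 → Adm (th a χ 𝔟) := fun 𝔟 hb hc => by
    obtain ⟨𝔟', β, hβ, hc', e⟩ := hpart 𝔟 hb
    exact hM.adm _ _ _ _ (hcl 𝔟 hb).1 (hcl 𝔟' (right_ne hβ e)).1 (hfe 𝔟 𝔟' β hc hc' hβ e)
  choose b hb hbc hbe using exists_rep hC (L := L) H.ne
  have hne : ∀ c, (b c).map E.sg * 𝔠 ≠ ⊥ := fun c => mul_ne_zero (hQ.map_ne E (hb c)) Gγ.ne'
  have hΛ : ∀ c (s : ℂ), 1 < s.re → Phi a ψ χ c₀ (b c) l 0 s = Gam a s * zc ψ c s :=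
    fun c s hs => by
      have := (hcl (b c) (hb c)).2 l 0 s (Or.inl rfl) hs
      rw [hbe c] at this
      exact Phi_eq hc₀ (hb c) (psi_ne H (hb c) (hbc c)) this
  have hf0 : (0 : ℝ) < Ideal.absNorm 𝔣 := by exact_mod_cast Nat.pos_of_ne_zero (norm_ne H.ne)
  refine ⟨1 / (Ideal.absNorm 𝔣 * Vol),
    Real.exp (Real.log (Ideal.absNorm 𝔠) - 2 * ∑ k : Ty a, Real.log ‖k.1 (algebraMap K L γ₀)‖),
    fun c => Phi a ψ χ c₀ (b c) l 0, fun c => ZetaZeroAux.cls ⟨_, hne c⟩, by positivity,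
    Real.exp_pos _, fun c c' h => ?_, fun c => ⟨Phi_diff hM ψ c₀ l 0 (hadm _ (hb c) (hbc c)),
      hΛ c, fun s => ?_⟩⟩
  · dsimp only at h
    rw [cls_mul _ _ (hQ.map_ne E (hb c)) Gγ.ne', cls_mul _ _ (hQ.map_ne E (hb c')) Gγ.ne'] at h
    rw [← hbe c, ← hbe c', cls_map hQ E (hb c) (hb c') (mul_right_cancel h)]
  · obtain ⟨𝔟', β, hβ, hc', e⟩ := hpart (b c) (hb c)
    have hb' := right_ne hβ e
    have hψ' := psi_ne H hb' hc'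
    have hψ := psi_ne H (hb c) (hbc c)
    have hid : Phi a ψ χ c₀ (b (ZetaZeroAux.cls ⟨_, hne c⟩)) l 0 = Phi a ψ χ c₀ 𝔟' (-l)
        fun k : Ty a => Real.log ‖k.1 (algebraMap K L γ₀ / β)‖ := by
      refine ent_eq (Phi_diff hM ψ c₀ l 0 (hadm _ (hb _) (hbc _)))
        (Phi_diff hM ψ c₀ _ _ (hadm _ hb' hc')) fun s hs => ?_
      have := (hcl 𝔟' hb').2 (-l) (fun k : Ty a => Real.log ‖k.1 (algebraMap K L γ₀ / β)‖) s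
        (Or.inr rfl) hs
      rw [cls_inv (hne c) hb' hβ e] at this
      rw [hΛ _ s hs, Phi_eq hc₀ hb' hψ' this]
    have hrefl := hM.refl _ _ _ _ l 0 s (hfe (b c) 𝔟' β (hbc c) hc' hβ e)
    have hlog := sum_log hQ hCm H.cm hβ (hb c) Gγ.ne' hb' e hγ
    have hconst := const_eq hCm hH H hβ (hb c) Gγ.ne' (hbc c) Gγ.cop hc' e (algebraMap K L γ₀)
    dsimp only
    rw [hid, exp_cpow]
    unfold Phi Wt
    rw [hrefl, sub_zero, hlog, map_mul]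
    simp only [Pi.zero_apply, Finset.sum_const_zero, mul_zero, zero_add]
    generalize mel (th a χ 𝔟') (-l) _ (-s) = m
    generalize (∑ k : Ty a, Real.log ‖k.1 (algebraMap K L γ₀)‖) = S
    have hN : (Ideal.absNorm (b c) : ℂ) ≠ 0 := by exact_mod_cast norm_ne (hb c)
    generalize Real.log (Ideal.absNorm (b c)) = n₁
    generalize Real.log (Ideal.absNorm 𝔠) = n₂
    generalize Real.log (Ideal.absNorm 𝔟') = n₃
    have ee : Complex.exp (-s * ((n₂ - 2 * S : ℝ) : ℂ)) *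
        Complex.exp (-s * ((2 * S - (n₁ + n₂ + n₃) + n₃ : ℝ) : ℂ)) = Complex.exp (s * n₁) := by
      rw [← Complex.exp_add]
      congr 1
      push_cast
      ring
    rw [← ee]
    have hc : (c₀ : ℂ) ≠ 0 := by exact_mod_cast hc₀.ne'
    have hV : (Vol : ℂ) ≠ 0 := by exact_mod_cast hVol.ne'
    have hf : (Ideal.absNorm 𝔣 : ℂ) ≠ 0 := by exact_mod_cast norm_ne H.ne
    rw [Complex.ofReal_div, Complex.ofReal_mul, Complex.ofReal_mul, Complex.ofReal_one,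
      Complex.ofReal_natCast, Complex.ofReal_natCast, Nat.cast_mul]
    exact alg2 hψ hψ' hN hf hV hc hconst

end Pool.Agent.SC
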