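import Pool.Agent.Lib.MP_b4b3cb_nt.StF

/-! The Mellin transform of a theta series is the series of an ideal class. -/

namespace Pool.Agent.SC

open NumberField Pool.Agent.Stark
open scoped Classical ComplexConjugate

variable {K L : Type} [Field K] [NumberField K] [Field L] [NumberField L] [Algebra K L]

open ZetaZeroAux NumberField.Units NumberField.InfinitePlace Complex in
theorem st_Cls (hU : UnfSt) (hDec : DecSt) (hB : BasSt K L) (hF : FzSt) (hC : CmSt K L)
    (hH : HDSt K L) : ClsSt K L := by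
  intro d E 𝔣 a ψ χ hd
  obtain ⟨ep, hep⟩ := hC.place hd.cm
  obtain ⟨e, he⟩ := exists_J L
  let l : Fin (rank L) → Ty a → ℝ := fun j k => Real.log (ep k (fundSystem L j))
  have hl0 : ∀ j, ∑ k, l j k = 0 := fun j => by
    have := sum_mult_mul_log (fundSystem L j)
    rw [← ep.sum_comp, Finset.sum_congr rfl fun k _ => by rw [(hep k 0).2], ← Finset.mul_sum] at this
    simpa using this
  obtain ⟨c₀, c0, hU⟩ := hU l (e.trans ep.symm) hl0 fun h => by
    simp only [l, Equiv.trans_apply, Equiv.apply_symm_apply] at h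
    rw [h, abs_zero, zero_mul] at he
    exact mul_ne_zero (Nat.cast_ne_zero.2 Module.finrank_pos.ne') (regulator_ne_zero L) he.symm
  have hm : ∃ k, mm a k ≠ 0 := (hC.ne hd.cm).elim fun k => ⟨k, fun h => by
    have := hC.mm_eq (K := K) k
    omega⟩
  refine ⟨rank L, l, c₀ * torsionOrder L, mul_pos c0 (Nat.cast_pos.2 (torsionOrder_pos L)),
    fun 𝔟 h => ⟨?_, fun l' y₀ s hl hs => ?_⟩⟩
  · obtain ⟨Vol, hV, hB⟩ := hB hd.cm
    obtain ⟨B, v, -, h1, h2, -⟩ := hB 𝔟 h
    refine hDec (mm a) B 𝔟 (fun x => ez a (x.1 : L)) v (fun x => χ x.1) (fun h0 => ?_) hm h2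
      fun x => by rcases hd.val x.1 with h | h | h <;> simp [h]
    rw [show B.det = 0 from (congrArg (fun J => @Matrix.det _ J _ _ _ B)
      (Subsingleton.elim _ _)).trans h0, abs_zero] at h1
    exact mul_ne_zero (Nat.cast_ne_zero.2 (Ideal.absNorm_eq_zero_iff.not.2 h)) hV.ne' h1.symm
  obtain ⟨b, rfl, hb⟩ : ∃ b : nonZeroDivisors (Ideal (𝓞 L)), b.1 = 𝔟 ∧
    cls ⟨𝔟, h⟩ = ClassGroup.mk0 b := ⟨⟨𝔟, mem_nonZeroDivisors_of_ne_zero h⟩, rfl, rfl⟩
  obtain ⟨g, f, hg, hf⟩ := exists_orbits b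
  have g0 : ∀ I, (g I : L) ≠ 0 := fun I => RingOfIntegers.coe_ne_zero_iff.2 (hg I).1
  have hx : ∀ I k, ez a (g I : L) k ≠ 0 := fun I k => (map_ne_zero k.1).2 (g0 I)
  have : Countable (𝓞 L) := Finsupp.Countable.of_moduleFinite (R := ℤ)
  have := (f.injective.comp (Prod.mk_left_injective 0)).countable
  have e1 : ∀ I, (χ (g I) : ℂ) * pz (mm a) (ez a (g I : L)) *
      ((∏ k, ‖ez a (g I : L) k‖ ^ 2 : ℝ) : ℂ) ^ (-s) =
      ψ I.1.1 * (Ideal.absNorm I.1.1 : ℂ) ^ (-s) * (ψ b.1 * (Ideal.absNorm b.1 : ℂ) ^ (-s)) :=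
    fun I => by
      rw [← hC.pinf_eq hd.cm _ (g0 I), ← hd.prin _ (hg I).1, mul_mul_mul_comm, ← map_mul,
        ← natCast_mul_natCast_cpow, ← Nat.cast_mul, ← map_mul, (hg I).2]
      exact congrArg (fun t : ℝ => _ * (t : ℂ) ^ (-s)) (hC.norm hd.cm _)
  have s1 : Summable fun I : {I // cls I = (ClassGroup.mk0 b)⁻¹} =>
      ‖ψ I.1.1 * (Ideal.absNorm I.1.1 : ℂ) ^ (-s)‖ :=
    ((summable_zI hs).subtype _).of_nonneg_of_le (fun _ => norm_nonneg _) fun I => by
      rw [norm_mul]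
      exact mul_le_of_le_one_left (norm_nonneg _) (hH.le hd _ I.1.2)
  have s2 : Summable fun _ : torsion L => ‖ψ b.1 * (Ideal.absNorm b.1 : ℂ) ^ (-s)‖ := .of_finite
  rw [hb, hU ({I // cls I = (ClassGroup.mk0 b)⁻¹} × torsion L) (mm a) (fun α => ez a (g α.1 : L))
    (fun α => χ (g α.1)) _ l' y₀ s hl (fun α => hx α.1) (fun y => ?_) (by linarith)
    ((s1.mul_norm s2).congr fun α => ?_)]
  · have e2 : ∏ k, Gammaℂ (s + ((mm a k : ℂ) + 1) / 2) = Gam a s :=
      Finset.prod_congr rfl fun k _ => by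
        have : (mm a k : ℂ) = 2 * a k.1 - 1 := by exact_mod_cast hC.mm_eq (K := K) k
        rw [this, sub_add_cancel, mul_div_cancel_left₀ _ two_ne_zero]
    simp only [e1]
    rw [← tsum_mul_tsum_of_summable_norm s1 s2, tsum_const, nsmul_eq_mul, e2, torsionOrder, zc]
    push_cast
    ring
  · refine ((Function.Injective.tsum_eq (g := fun q => (⟨(f q).1, (f q).2.1⟩ : b.1))
      (fun q q' h => f.injective (Subtype.ext (Subtype.mk.inj h))) fun x hx => ?_).symm.trans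
      (tsum_congr fun ⟨α, n⟩ => ?_))
    · obtain ⟨q, hq⟩ := f.surjective ⟨x.1, x.2, fun h0 => hx (by
        have : ez a (x.1 : L) = 0 := funext fun k => by simp [ez, h0]
        simp only [this, hF.zero _ _ hm, mul_zero])⟩
      exact ⟨q, Subtype.ext (by simp only [hq])⟩
    · have e3 := fun w => place_unit w α.2 n 1
      simp only [hf]
      generalize (α.2 * ∏ j, fundSystem L j ^ n j : (𝓞 L)ˣ) = u at e3 ⊢
      have u0 : ((u : 𝓞 L) : L) ≠ 0 := RingOfIntegers.coe_ne_zero_iff.2 u.ne_zero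
      have e4 : ez a ((u * g α.1 : 𝓞 L) : L) =
          fun k => ez a ((u : 𝓞 L) : L) k * ez a (g α.1 : L) k := funext fun k => by simp [ez]
      have e5 : ∀ k, Real.log ‖ez a ((u : 𝓞 L) : L) k‖ = ∑ j, (n j : ℝ) * l j k := fun k => by
        have := e3 (ep k)
        rw [mul_one, (hep k _).1] at this
        rw [ez, this]
        simp [l]
      rw [e4, hF.scale _ _ (ez a _) _ fun k => (map_ne_zero k.1).2 u0, ← hC.pinf_eq hd.cm _ u0,
        hd.mul]
      simp only [e5]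
      push_cast
      rw [mul_mul_mul_comm, hH.unit hd u, one_mul]
  · rw [← e1, norm_mul, norm_cpow_eq_rpow_re_of_pos
      (Finset.prod_pos fun k _ => pow_pos (norm_pos_iff.2 (hx _ k)) _), neg_re]

end Pool.Agent.SC
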