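import Pool.Agent.Lib.MP_b4b3cb_nt.StF
import Pool.Agent.Lib.MP_ca56d1_nt.Hecke

/-! Embeddings of a CM field. -/

namespace Pool.Agent.SC

open NumberField Pool.Agent.Stark
open scoped Classical ComplexConjugate

namespace CmAux

open ComplexEmbedding

variable {K L : Type} [Field K] [Field L] [Algebra K L] {d : K} {E : Quad K L d}
  {a : (L →+* ℂ) → ℤ}

theorem cj_cj (σ : L →+* ℂ) : conjugate (conjugate σ) = σ := involutive_conjugate L σ

theorem pos_cj (h : CM E a) {σ : L →+* ℂ} (hσ : ¬ 0 < a σ) : 0 < a (conjugate σ) := by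
  have := h.wt σ
  omega

theorem ne_cj (h : CM E a) (k k' : Ty a) : conjugate k.1 ≠ k'.1 := by
  intro e
  have h1 := h.wt k.1
  have h2 := k.2
  have h3 := k'.2
  rw [e] at h1
  omega

theorem not_real (h : CM E a) (σ : L →+* ℂ) : conjugate σ ≠ σ := by
  intro e
  have h1 := h.wt σ
  rw [e] at h1
  omega

/-- All embeddings. -/
noncomputable def eqv (h : CM E a) : Ty a ⊕ Ty a ≃ (L →+* ℂ) :=
  Equiv.ofBijective (Sum.elim (fun k => k.1) fun k => conjugate k.1) (by
    constructor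
    · rintro (k | k) (k' | k') e
      · exact congrArg _ (Subtype.ext e)
      · exact absurd e.symm (ne_cj h k' k)
      · exact absurd e (ne_cj h k k')
      · exact congrArg _ (Subtype.ext ((involutive_conjugate L).injective e))
    · intro σ
      by_cases hσ : 0 < a σ
      · exact ⟨Sum.inl ⟨σ, hσ⟩, rfl⟩
      · exact ⟨Sum.inr ⟨_, pos_cj h hσ⟩, cj_cj σ⟩)

theorem real_alg (h : CM E a) (σ : L →+* ℂ) : IsReal (σ.comp (algebraMap K L)) := by
  rw [isReal_iff]
  ext x
  rw [conjugate_coe_eq, RingHom.comp_apply, ← h.cm, AlgEquiv.commutes]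

theorem cj_alg (h : CM E a) (σ : L →+* ℂ) (x : K) :
    conj (σ (algebraMap K L x)) = σ (algebraMap K L x) := by
  rw [← h.cm, AlgEquiv.commutes]

theorem ext_two (h : CM E a) {σ σ' : L →+* ℂ}
    (e : ∀ x, σ (algebraMap K L x) = σ' (algebraMap K L x)) : σ = σ' ∨ conjugate σ = σ' := by
  have h1 : σ E.rt ^ 2 = σ' E.rt ^ 2 := by rw [← map_pow, ← map_pow, E.sq, e]
  rcases sq_eq_sq_iff_eq_or_eq_neg.1 h1 with h2 | h2
  · refine Or.inl (RingHom.ext fun z => ?_)
    obtain ⟨g, u, rfl⟩ := E.span z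
    simp only [map_add, map_mul, e, h2]
  · refine Or.inr (RingHom.ext fun z => ?_)
    obtain ⟨g, u, rfl⟩ := E.span z
    rw [conjugate_coe_eq, ← h.cm, E.tau_mk]
    simp only [map_add, map_sub, map_mul, e, h2]
    ring

theorem pw_eq {z : ℂ} (hz : z ≠ 0) {n : ℤ} (hn : 0 < n) :
    z ^ (-n) * conj z ^ (-(1 - n)) =
      conj z ^ (2 * n - 1).toNat / (‖z‖ : ℂ) ^ ((2 * n - 1).toNat + 1) := by
  obtain ⟨m, rfl⟩ : ∃ m : ℕ, n = m + 1 := ⟨(n - 1).toNat, by omega⟩
  have e1 : (2 * ((m : ℤ) + 1) - 1).toNat = 2 * m + 1 := by omega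
  have e2 : -(1 - ((m : ℤ) + 1)) = m := by ring
  have e3 : ((m : ℤ) + 1) = ((m + 1 : ℕ) : ℤ) := by push_cast; rfl
  have hc : conj z ≠ 0 := (map_ne_zero _).2 hz
  rw [e1, e2, e3, zpow_neg, zpow_natCast, zpow_natCast, show 2 * m + 1 + 1 = 2 * (m + 1) by ring,
    pow_mul, ← Complex.mul_conj']
  field_simp
  ring

variable [NumberField L]

theorem prod (h : CM E a) {M : Type} [CommMonoid M] (f : (L →+* ℂ) → M) :
    ∏ σ, f σ = ∏ k : Ty a, f k.1 * f (conjugate k.1) := by
  rw [← (eqv h).prod_comp, Fintype.prod_sum_type, Finset.prod_mul_distrib]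
  rfl

theorem sum (h : CM E a) {M : Type} [AddCommMonoid M] (f : (L →+* ℂ) → M) :
    ∑ σ, f σ = ∑ k : Ty a, (f k.1 + f (conjugate k.1)) := by
  rw [← (eqv h).sum_comp, Fintype.sum_sum_type, Finset.sum_add_distrib]
  rfl

omit [NumberField L] in
theorem place (h : CM E a) :
    ∃ e : Ty a ≃ InfinitePlace L, ∀ k x, e k x = ‖k.1 x‖ ∧ (e k).mult = 2 := by
  refine ⟨Equiv.ofBijective (fun k => InfinitePlace.mk k.1) ⟨fun k k' e => ?_, fun w => ?_⟩,
    fun k x => ⟨InfinitePlace.apply _ _, ?_⟩⟩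
  · rcases InfinitePlace.mk_eq_iff.1 e with e | e
    · exact Subtype.ext e
    · exact absurd e (ne_cj h k k')
  · by_cases hσ : 0 < a w.embedding
    · exact ⟨⟨_, hσ⟩, w.mk_embedding⟩
    · exact ⟨⟨_, pos_cj h hσ⟩, (InfinitePlace.mk_conjugate_eq _).trans w.mk_embedding⟩
  · refine if_neg fun hr => ?_
    exact not_real h k.1 (isReal_iff.1 (InfinitePlace.isReal_mk_iff.1 hr))

theorem pinf_eq (h : CM E a) {x : L} (hx : x ≠ 0) : pinf a x = pz (mm a) (ez a x) := by
  rw [pinf, prod h, pz]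
  refine Finset.prod_congr rfl fun k _ => ?_
  rw [show a (conjugate k.1) = 1 - a k.1 by have := h.wt k.1; omega, conjugate_coe_eq]
  exact pw_eq ((map_ne_zero _).2 hx) k.2

theorem norm (h : CM E a) (x : 𝓞 L) :
    ∏ k : Ty a, ‖k.1 (x : L)‖ ^ 2 = Ideal.absNorm (Ideal.span {x}) := by
  obtain ⟨e, he⟩ := place h
  have h1 := InfinitePlace.prod_eq_abs_norm (x : L)
  rw [← e.prod_comp, ← Algebra.coe_norm_int] at h1
  rw [Ideal.absNorm_span_singleton, Nat.cast_natAbs]
  refine (Finset.prod_congr rfl fun k _ => ?_).trans (h1.trans (by simp))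
  rw [(he k x).1, (he k x).2]

variable [NumberField K]

theorem real (h : CM E a) :
    ∃ e : Ty a ≃ (K →+* ℝ), ∀ k x, k.1 (algebraMap K L x) = e k x := by
  have c : ∀ (σ : L →+* ℂ) x, ((real_alg h σ).embedding x : ℂ) = σ (algebraMap K L x) :=
    fun σ x => (real_alg h σ).coe_embedding_apply x
  refine ⟨Equiv.ofBijective (fun k => (real_alg h k.1).embedding)
    ⟨fun k k' e => ?_, fun φ => ?_⟩, fun k x => (c k.1 x).symm⟩
  · rcases ext_two h (σ := k.1) (σ' := k'.1) (fun x => by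
      rw [← c, ← c]
      exact congrArg _ (DFunLike.congr_fun e x)) with e | e
    · exact Subtype.ext e
    · exact absurd e (ne_cj h k k')
  · have l : ∀ x, lift L (Complex.ofRealHom.comp φ) (algebraMap K L x) = φ x := fun x =>
      lift_algebraMap_apply L _ x
    by_cases hσ : 0 < a (lift L (Complex.ofRealHom.comp φ))
    · refine ⟨⟨_, hσ⟩, RingHom.ext fun x => Complex.ofReal_injective ?_⟩
      rw [c, l]
    · refine ⟨⟨_, pos_cj h hσ⟩, RingHom.ext fun x => Complex.ofReal_injective ?_⟩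
      rw [c, conjugate_coe_eq, l, Complex.conj_ofReal]

end CmAux

open CmAux ComplexEmbedding

variable {K L : Type} [Field K] [NumberField K] [Field L] [NumberField L] [Algebra K L]

theorem st_Cm (hF : FzSt) : CmSt K L where
  ne := fun h => by
    obtain ⟨σ⟩ : Nonempty (L →+* ℂ) := inferInstance
    exact ⟨((eqv h).symm σ).elim id id⟩
  mm_eq := fun k => by
    have := k.2
    unfold mm
    omega
  prod := fun h _ _ f => prod h f
  real := real
  place := place
  noreal := fun h => ⟨fun φ => not_real h (Complex.ofRealHom.comp φ) (RingHom.ext fun x => by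
    rw [conjugate_coe_eq]
    exact Complex.conj_ofReal _)⟩
  neg := by
    intro d E a h φ
    obtain ⟨e, he⟩ := real h
    obtain ⟨k, rfl⟩ := e.surjective φ
    have h1 : k.1 E.rt ^ 2 = e k d := by rw [← map_pow, E.sq, he]
    have h2 := congrArg Complex.re (h.cm k.1 E.rt)
    rw [E.tau_rt, map_neg, Complex.neg_re, Complex.conj_re] at h2
    have h3 := congrArg Complex.re h1
    have h4 : (k.1 E.rt).re = 0 := by linarith
    simp only [pow_two, Complex.mul_re, Complex.ofReal_re, h4] at h3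
    refine lt_of_le_of_ne ?_ ((map_ne_zero (e k)).2 E.a_ne)
    nlinarith [mul_self_nonneg (k.1 E.rt).im]
  card := fun h => (Fintype.card_congr (eqv h)).trans (Embeddings.card L ℂ)
  pinf_eq := fun h _ hx => pinf_eq h hx
  pinf_mul := fun a x y => by
    simp only [pinf, map_mul, mul_zpow, Finset.prod_mul_distrib]
  pinf_ne := fun a x hx =>
    Finset.prod_ne_zero_iff.2 fun σ _ => zpow_ne_zero _ ((map_ne_zero σ).2 hx)
  pinf_alg := by
    intro d E a h γ hγ
    obtain ⟨e, he⟩ := real h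
    rw [pinf, prod h, ← e.prod_comp]
    refine Finset.prod_congr rfl fun k _ => ?_
    have h0 : k.1 (algebraMap K L γ) ≠ 0 := (map_ne_zero _).2 ((map_ne_zero _).2 hγ)
    rw [conjugate_coe_eq, cj_alg h, ← zpow_add₀ h0, ← neg_add, h.wt, he, zpow_neg_one]
  norm := norm
  pinf_tau := by
    intro d E a h x hx
    have hx' : (x : L) ≠ 0 := RingOfIntegers.coe_ne_zero_iff.2 hx
    have h2 : ‖pinf a (x : L)‖ ^ 2 * Ideal.absNorm (Ideal.span {x}) = 1 := by
      rw [pinf_eq h hx', ← norm h x]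
      exact hF.norm_pz _ _ fun k => (map_ne_zero k.1).2 hx'
    refine ⟨?_, h2⟩
    have h1 : pinf a (E.tau x) = conj (pinf a (x : L)) := by
      simp only [pinf, map_prod, map_zpow₀, h.cm]
    rw [h1, Complex.mul_conj']
    exact_mod_cast h2
  trace := by
    intro d E a h x y
    rw [HeckeAux.trace_eq, hF.co_dot, sum h]
    refine Finset.sum_congr rfl fun k _ => ?_
    rw [conjugate_coe_eq, Complex.conj_re, map_mul, h.cm, two_mul]
    rfl

end Pool.Agent.SC
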