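import Pool.Agent.Lib.MP_b4b3cb_nt.StB

/-! The abstract parity theorem from the tower, the limit, the torsion classes and the formula of
Greenberg and Wiles. -/

namespace Pool.Agent.SC

open scoped Classical
open Module

namespace CoreAux

theorem res_top {G : Type} [Group G] [TopologicalSpace G] (f : G → ZMod 2) :
    res (⊤ : Subgroup G) f = f := by
  funext g
  simp [res]

theorem ss_eq (hL : LatSt) (hZ : ZSt) (hS : SelSt) (hLim : LimSt)
    {G P : Type} [Group G] [TopologicalSpace G] (A : AD G P) (R : Rp A.χ) (dy : P → Prop)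
    (hC : ∀ v, R.Cls (A.D v) (dy v))
    (hH : ∀ x, R.Coc ⊤ 0 x → (∀ v, R.Z (A.D v) (dy v) 0 x) → ∃ u, ∀ g, x g = R.d1 u g)
    (N : ℕ) (hN : ∀ i j : ℤ, i + N ≤ j → ∀ x, Sel A R dy i j x →
      ∃ x', Sel A R dy i (j + 1) x' ∧ ∀ g, x' g - x g ∈ T (j - N))
    (i : ℤ) (hi : 0 ≤ i) : SS A R dy i (N + 1) = R.W ⊤ False i := by
  ext f
  rw [hS.mem_SS, hZ.mem_W]
  constructor
  · rintro ⟨x, hx, rfl⟩
    have hx' : Sel A R dy i (i + N + 1) x := by
      have e : i + ((N + 1 : ℕ) : ℤ) = i + N + 1 := by push_cast; ring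
      rwa [e] at hx
    obtain ⟨y, hy, hloc, hlam⟩ := hLim A R dy N hN i x hx'
    have hy0 : ∀ g, y g ∈ T 0 := fun g => hL.anti hi (hy.2.1 g trivial)
    have hc0 : R.Coc ⊤ 0 y := ⟨hy.1, fun g _ => hy0 g, hy.2.2⟩
    have hz : ∀ v, R.Z (A.D v) (dy v) 0 y := fun v => by
      have hcv : R.Coc (A.D v) i y :=
        ⟨hy.1.mono (fun g _ => trivial), fun g _ => hy.2.1 g trivial,
          fun g _ h _ => hy.2.2 g trivial h trivial⟩
      exact hZ.z_mem R _ _ (hC v i y hcv (hloc v)) fun g _ => hy0 g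
    obtain ⟨u, hu⟩ := hH y hc0 hz
    refine ⟨R.d1 u, hZ.z_d1 R ⊤ False i u fun g _ => hu g ▸ hy.2.1 g trivial, ?_⟩
    rw [res_top]
    funext g
    rw [← hu g, hlam g]
  · rintro ⟨t, ht, rfl⟩
    obtain ⟨u, hu⟩ := ht.2
    have htu : ∀ g, t g = R.d1 u g := fun g =>
      Prod.ext (hu g trivial).1 ((hu g trivial).2 not_false)
    refine ⟨t, ⟨hZ.lev_coc R ht.1 _, fun v => ⟨R.d1 u, hZ.z_d1 R _ _ i u fun g _ => ?_,
      fun g _ => ?_⟩⟩, res_top _⟩
    · rw [← htu g]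
      exact ht.1.2.1 g trivial
    · rw [htu g, sub_self]
      exact zero_mem _

end CoreAux

/-- The abstract parity theorem. -/
theorem st_Core (hL : LatSt) (hZ : ZSt) (hS : SelSt) (hTS : TowSelSt) (hLim : LimSt)
    (hTor : TorSt) (hGW : GWSt) : CoreSt := by
  intro G P _ _ _ A R dy S₀ hStd hC hB hH
  obtain ⟨hpar, N, hN⟩ := hTS A R dy S₀ hStd
  have h0 := CoreAux.ss_eq hL hZ hS hLim A R dy hC hH N hN 0 le_rfl
  have h1 := CoreAux.ss_eq hL hZ hS hLim A R dy hC hH N hN 1 zero_le_one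
  have hp := hpar (N + 1) (Nat.le_add_left 1 N)
  rw [h0, h1, (hTor R ⊤ hB).2.2.2] at hp
  have hg := (hGW A R dy S₀ hStd).2
  rw [← hg]
  obtain ⟨k, hk⟩ := hp
  omega

end Pool.Agent.SC
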