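import Pool.Agent.Lib.MP_b4b3cb_nt.StG

/-! The roots of unity of 2-power order. -/

namespace Pool.Agent.SC

open NumberField Pool.Agent.Stark
open scoped Classical Pointwise Topology

namespace CycAux

/-- `m / 2 ^ n` represents `t` modulo the integers. -/
def Rpz (t : ℚ_[2]) (n m : ℕ) : Prop := ‖t - (m : ℚ_[2]) / 2 ^ n‖ ≤ 1

theorem norm_pow (n : ℕ) : ‖(2 : ℚ_[2]) ^ n‖ = (2 : ℝ) ^ (-n : ℤ) := by
  have := Padic.norm_p_pow (p := 2) n
  simpa using this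

theorem div_le {x : ℚ_[2]} {n : ℕ} : ‖x / 2 ^ n‖ ≤ 1 ↔ ‖x‖ ≤ (2 : ℝ) ^ (-n : ℤ) := by
  rw [norm_div, norm_pow, div_le_one (by positivity)]

theorem span_le {x : ℤ_[2]} {n : ℕ} (h : x ∈ Ideal.span {((2 : ℕ) : ℤ_[2]) ^ n}) :
    ‖(x : ℚ_[2]) / 2 ^ n‖ ≤ 1 := by
  rw [div_le]
  have := (PadicInt.norm_le_pow_iff_mem_span_pow x n).2 h
  simpa using this

theorem add_le {x y : ℚ_[2]} (hx : ‖x‖ ≤ 1) (hy : ‖y‖ ≤ 1) : ‖x + y‖ ≤ 1 :=
  (Padic.nonarchimedean x y).trans (max_le hx hy)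

theorem ex (t : ℚ_[2]) : ∃ p : ℕ × ℕ, Rpz t p.1 p.2 := by
  obtain ⟨n, hn⟩ : ∃ n : ℕ, ‖2 ^ n * t‖ ≤ 1 := by
    obtain ⟨n, hn⟩ := pow_unbounded_of_one_lt ‖t‖ (one_lt_two (α := ℝ))
    refine ⟨n, ?_⟩
    rw [norm_mul, norm_pow, zpow_neg, zpow_natCast, inv_mul_le_iff₀ (by positivity), mul_one]
    exact hn.le
  let x : ℤ_[2] := ⟨2 ^ n * t, hn⟩
  refine ⟨(n, x.appr n), ?_⟩
  have := span_le (PadicInt.appr_spec n x)
  unfold Rpz
  convert this using 2
  push_cast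
  simp only [x]
  field_simp

theorem Rpz.up {t : ℚ_[2]} {n m : ℕ} (h : Rpz t n m) (k : ℕ) : Rpz t (n + k) (2 ^ k * m) := by
  unfold Rpz at *
  convert h using 3
  push_cast
  rw [pow_add]
  field_simp

theorem Rpz.modEq {t : ℚ_[2]} {n m m' : ℕ} (h : Rpz t n m) (h' : Rpz t n m') :
    m ≡ m' [MOD 2 ^ n] := by
  have h1 : ‖(((m' : ℤ) - m : ℤ) : ℚ_[2]) / 2 ^ n‖ ≤ 1 := by
    have := add_le h ((norm_neg _).trans_le h')
    convert this using 2
    push_cast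
    ring
  rw [div_le] at h1
  have := (Padic.norm_int_le_pow_iff_dvd (p := 2) ((m' : ℤ) - m) n).1 (by simpa using h1)
  rw [Nat.modEq_iff_dvd]
  simpa using this

theorem Rpz.add {s t : ℚ_[2]} {n m m' : ℕ} (h : Rpz s n m) (h' : Rpz t n m') :
    Rpz (s + t) n (m + m') := by
  have := add_le h h'
  unfold Rpz
  convert this using 2
  push_cast
  ring

theorem Rpz.mul {t : ℚ_[2]} {n m : ℕ} (h : Rpz t n m) (c : ℤ_[2]) :
    Rpz ((c : ℚ_[2]) * t) n ((c.toZModPow n).val * m) := by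
  have h1 : c - ((c.toZModPow n).val : ℕ) ∈ Ideal.span {((2 : ℕ) : ℤ_[2]) ^ n} := by
    rw [← PadicInt.ker_toZModPow, RingHom.mem_ker, map_sub, map_natCast, ZMod.natCast_zmod_val,
      sub_self]
  have h2 := span_le h1
  have h3 : ‖(c : ℚ_[2]) * (t - (m : ℚ_[2]) / 2 ^ n)‖ ≤ 1 := by
    rw [norm_mul]
    exact mul_le_one₀ c.2 (norm_nonneg _) h
  have h4 : ‖(m : ℚ_[2])‖ ≤ 1 := by
    have := Padic.norm_int_le_one (p := 2) (m : ℤ)
    simpa using this
  have h5 := mul_le_one₀ h2 (norm_nonneg _) h4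
  rw [← norm_mul] at h5
  have := add_le h3 h5
  unfold Rpz
  convert this using 2
  push_cast
  ring

variable {Ω : Type} [Field Ω] [IsAlgClosed Ω]

theorem ex_zeta : ∃ ζ : ℕ → Ω, ζ 0 = 1 ∧ ζ 1 = -1 ∧ ∀ n, ζ (n + 1) ^ 2 = ζ n := by
  choose r hr using fun x : Ω => IsAlgClosed.exists_pow_nat_eq x (n := 2) two_pos
  refine ⟨fun n => Nat.rec 1 (fun k _ => r^[k] (-1)) n, rfl, rfl, fun n => ?_⟩
  cases n with
  | zero => simp
  | succ k =>
    change r^[k + 1] (-1) ^ 2 = r^[k] (-1)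
    rw [Function.iterate_succ_apply', hr]

end CycAux

open CycAux

variable {K Ω : Type} [Field K] [Field Ω] [Algebra K Ω] [IsAlgClosed Ω] [CharZero Ω]

theorem st_Cyc : CycSt K Ω := by
  refine ⟨cyclotomicCharacter.continuous 2 K Ω, ?_⟩
  obtain ⟨ζ, h0, h1, hs⟩ := ex_zeta (Ω := Ω)
  have hup : ∀ n k, ζ (n + k) ^ 2 ^ k = ζ n := fun n k => by
    induction k with
    | zero => simp
    | succ k ih => rw [pow_succ', pow_mul, ← add_assoc, hs, ih]
  have hone : ∀ n, ζ n ^ 2 ^ n = 1 := fun n => by simpa [h0] using hup 0 n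
  choose p hp using ex
  have key : ∀ {t n m}, Rpz t n m → ζ (p t).1 ^ (p t).2 = ζ n ^ m := fun {t n m} h => by
    have e := ((hp t).up n).modEq (by rw [add_comm]; exact h.up (p t).1)
    rw [← hup (p t).1 n, ← hup n (p t).1, ← pow_mul, ← pow_mul, add_comm n]
    exact pow_eq_pow_of_modEq e (hone _)
  refine ⟨fun t => ζ (p t).1 ^ (p t).2, fun s t => ?_, fun t => ?_, fun t ht => ?_, fun c => ?_,
    fun g t => ?_⟩ <;> beta_reduce
  · have a := (hp s).up (p t).1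
    have b := (hp t).up (p s).1
    rw [add_comm] at b
    rw [key (a.add b), key a, key b, pow_add]
  · refine pow_ne_zero _ fun h => ?_
    have := hone (p t).1
    rw [h, zero_pow (by positivity)] at this
    exact zero_ne_one this
  · have : Rpz t 0 0 := by simpa [Rpz] using ht
    rw [key this, pow_zero]
  · have : Rpz (hf c) 1 c.val := by simp [Rpz, hf]
    rw [key this, h1]
    rcases zmod2_cases c with rfl | rfl
    · simp
    · rw [sg_one]
      exact pow_one _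
  · have e : g (ζ (p t).1) = ζ (p t).1 ^ ((cyc K Ω g : ℤ_[2]).toZModPow (p t).1).val :=
      cyclotomicCharacter.spec 2 (MulSemiringAction.toRingAut (Ω ≃ₐ[K] Ω) Ω g) _ (hone _)
    rw [key ((hp t).mul _), map_pow, e, pow_mul]

end Pool.Agent.SC
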