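import Pool.Agent.Lib.MP_b4b3cb_nt.StF

/-! Continuity and decay of theta series. -/

namespace Pool.Agent.SC

open NumberField Pool.Agent.Stark
open scoped Classical ComplexConjugate

namespace DecAux

theorem one (m : ℕ) {t : ℝ} (ht : 0 ≤ t) : t ^ m * Real.exp (-(2 * Real.pi * t ^ 2)) ≤
    m.factorial * Real.exp 1 * Real.exp (-(2 * Real.pi * (Real.exp (-2) * t ^ 2))) := by
  have h1 : t ^ m ≤ m.factorial * Real.exp t := by
    have := Real.pow_div_factorial_le_exp t ht m
    rwa [div_le_iff₀ (by positivity), mul_comm] at this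
  have h2 : Real.exp (-2) ≤ 1 / 3 := by
    rw [Real.exp_neg, one_div]
    exact inv_anti₀ (by norm_num) (by linarith [Real.add_one_le_exp (2 : ℝ)])
  refine (mul_le_mul_of_nonneg_right h1 (Real.exp_pos _).le).trans ?_
  rw [mul_assoc, mul_assoc _ (Real.exp 1), ← Real.exp_add, ← Real.exp_add]
  refine mul_le_mul_of_nonneg_left (Real.exp_le_exp.2 ?_) (by positivity)
  have h3 := Real.pi_gt_three
  have h4 : 0 ≤ (Real.pi - 3) * ((1 - Real.exp (-2)) * t ^ 2) :=
    mul_nonneg (by linarith) (mul_nonneg (by linarith) (sq_nonneg t))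
  have h5 : 0 ≤ (1 / 3 - Real.exp (-2)) * t ^ 2 := mul_nonneg (by linarith) (sq_nonneg t)
  nlinarith [sq_nonneg (t - 1), sq_nonneg t]

variable {κ : Type} [Fintype κ]

theorem bound (m : κ → ℕ) (y : κ → ℝ) (z : κ → ℂ) : ‖fz m y z‖ ≤
    (∏ k, ((m k).factorial * Real.exp 1 : ℝ)) * Real.exp (∑ k, y k) *
      Real.exp (-Real.pi * ∑ i : κ ⊕ κ, Real.exp (2 * (y (i.elim id id) - 1)) * co z i ^ 2) := by
  have e : -Real.pi * ∑ i : κ ⊕ κ, Real.exp (2 * (y (i.elim id id) - 1)) * co z i ^ 2 =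
      ∑ k, -(2 * Real.pi * (Real.exp (-2) * (‖z k‖ * Real.exp (y k)) ^ 2)) := by
    rw [Fintype.sum_sum_type, ← Finset.sum_add_distrib, Finset.mul_sum]
    refine Finset.sum_congr rfl fun k _ => ?_
    have h1 : Real.exp (2 * (y k - 1)) = Real.exp (-2) * Real.exp (y k) ^ 2 := by
      rw [sq, ← Real.exp_add, ← Real.exp_add]
      congr 1
      ring
    simp only [co, Sum.elim_inl, Sum.elim_inr, id, mul_pow, h1, Complex.sq_norm,
      Complex.normSq_apply, Real.sq_sqrt (zero_le_two : (0 : ℝ) ≤ 2)]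
    ring
  rw [e, Real.exp_sum, Real.exp_sum, ← Finset.prod_mul_distrib, ← Finset.prod_mul_distrib, fz,
    norm_prod]
  refine Finset.prod_le_prod (fun k _ => norm_nonneg _) fun k _ => ?_
  have h := one (m k) (mul_nonneg (norm_nonneg (z k)) (Real.exp_pos (y k)).le)
  have h1 : Real.exp ((m k + 1) * y k - 2 * Real.pi * ‖z k‖ ^ 2 * Real.exp (2 * y k)) =
      Real.exp (y k) ^ m k * Real.exp (y k) *
        Real.exp (-(2 * Real.pi * (‖z k‖ * Real.exp (y k)) ^ 2)) := by
    rw [← Real.exp_nat_mul, ← Real.exp_add, ← Real.exp_add, mul_pow, ← Real.exp_nat_mul]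
    congr 1
    push_cast
    ring
  rw [norm_mul, norm_pow, RCLike.norm_conj, Complex.norm_real, Real.norm_of_nonneg
    (Real.exp_pos _).le, h1]
  have h2 := mul_le_mul_of_nonneg_right h (Real.exp_pos (y k)).le
  rw [mul_pow] at h2
  linarith

theorem zero (m : κ → ℕ) (hm : ∃ k, m k ≠ 0) (y : κ → ℝ) {z : κ → ℂ} (hz : co z = 0) :
    fz m y z = 0 := by
  obtain ⟨k, hk⟩ := hm
  have h0 : (√2 : ℝ) ≠ 0 := by positivity
  have h1 : (z k).re = 0 := (mul_eq_zero.1 (congrFun hz (Sum.inl k))).resolve_left h0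
  have h2 : (z k).im = 0 := (mul_eq_zero.1 (congrFun hz (Sum.inr k))).resolve_left h0
  refine Finset.prod_eq_zero (Finset.mem_univ k) ?_
  rw [Complex.ext (w := 0) h1 h2, map_zero, zero_pow hk, zero_mul]

theorem lpt_zero {ι : Type} [Fintype ι] (B : Matrix ι ι ℝ) : lpt B 0 = 0 := by
  have : (fun j : ι => (((0 : ι → ℤ) j : ℤ) : ℝ)) = 0 := funext fun j => by simp
  rw [lpt, this, Matrix.mulVec_zero]

theorem absorb {n δ τ : ℝ} (hn : 0 ≤ n) (hδ : 0 < δ) :
    n * τ + -δ * Real.exp τ ^ 2 ≤ (n + δ) ^ 2 / (4 * δ) + -δ * Real.exp τ := by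
  have h1 : n * τ ≤ n * Real.exp τ :=
    mul_le_mul_of_nonneg_left (by linarith [Real.add_one_le_exp τ]) hn
  have h2 : (n + δ) * Real.exp τ - δ * Real.exp τ ^ 2 ≤ (n + δ) ^ 2 / (4 * δ) := by
    rw [le_div_iff₀ (by positivity)]
    nlinarith [sq_nonneg (n + δ - 2 * δ * Real.exp τ)]
  linarith

end DecAux

open ThetaAux in
theorem st_Dec : DecSt := by
  intro κ _ m B X z v w hB hm hz hw
  set K : ℝ := ∏ k, ((m k).factorial * Real.exp 1 : ℝ) with hK
  have hK0 : 0 ≤ K := Finset.prod_nonneg fun k _ => by positivity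
  have h1 : ∀ (y : κ → ℝ) (x : X), ‖w x * fz m y (z x)‖ ≤
      K * Real.exp (∑ k, y k) * tm B (fun i => y (i.elim id id) - 1) (v x) := fun y x => by
    rw [norm_mul]
    refine (mul_le_of_le_one_left (norm_nonneg _) (hw x)).trans ?_
    rw [tm, hz x]
    exact DecAux.bound m y (z x)
  refine ⟨continuous_iff_continuousAt.2 fun y₀ => ?_, fun R => ?_⟩
  · refine ContinuousOn.continuousAt ?_ (Metric.ball_mem_nhds y₀ one_pos)
    refine continuousOn_tsum (u := fun x => K * Real.exp (∑ k, (y₀ k + 1)) *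
      tm B (fun i => y₀ (i.elim id id) - 2) (v x)) (fun x => Continuous.continuousOn ?_)
      ((v.summable_iff.2 (summable_tm hB _)).mul_left _) fun x y hy => (h1 y x).trans ?_
    · unfold fz
      fun_prop
    · have h2 : ∀ k, |y k - y₀ k| < 1 := (dist_pi_lt_iff one_pos).1 (Metric.mem_ball.1 hy)
      refine mul_le_mul (mul_le_mul_of_nonneg_left (Real.exp_le_exp.2
        (Finset.sum_le_sum fun k _ => ?_)) hK0) (tm_mono B (fun i => ?_) _) (tm_pos _ _ _).le
        (by positivity)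
      · linarith [(abs_lt.1 (h2 k)).2]
      · linarith [(abs_lt.1 (h2 (i.elim id id))).1]
  · obtain ⟨C, δ, hδ, h⟩ := th_decay hB (R + 1)
    refine ⟨K * |C| * Real.exp (Fintype.card κ * R + (Fintype.card κ + δ) ^ 2 / (4 * δ)), δ, hδ,
      fun τ y hτ hy => ?_⟩
    set a : κ ⊕ κ → ℝ := fun i => y (i.elim id id) - 1 with ha
    have h2 : HasSum (fun x => K * Real.exp (∑ k, y k) *
        {k : κ ⊕ κ → ℤ | k ≠ 0}.indicator (tm B a) (v x))
        (K * Real.exp (∑ k, y k) * ThetaAux.th B a) :=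
      (v.hasSum_iff.2 (hasSum_subtype_iff_indicator.1
        ((summable_tm hB a).subtype _).hasSum)).mul_left _
    have h3 := tsum_of_norm_bounded (f := fun x => w x * fz m y (z x)) h2 fun x => by
      by_cases hx : v x = 0
      · rw [DecAux.zero m hm y (by rw [← hz x, hx, DecAux.lpt_zero]), mul_zero, norm_zero]
        exact mul_nonneg (by positivity)
          (Set.indicator_nonneg (fun k _ => (tm_pos _ _ _).le) _)
      · rw [Set.indicator_of_mem (by exact hx)]
        exact h1 y x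
    have h4 := (h τ hτ a fun i => by
      have := (abs_le.1 (hy (i.elim id id))).1
      simp only [ha]
      linarith).trans (mul_le_mul_of_nonneg_right (le_abs_self C) (Real.exp_pos _).le)
    have h5 : ∑ k, y k ≤ Fintype.card κ * R + Fintype.card κ * τ := by
      have := Finset.sum_le_card_nsmul Finset.univ y (R + τ) fun k _ => by
        linarith [(abs_le.1 (hy k)).2]
      rwa [Finset.card_univ, nsmul_eq_mul, mul_add] at this
    refine h3.trans ((mul_le_mul_of_nonneg_left h4 (by positivity)).trans ?_)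
    rw [mul_mul_mul_comm, mul_assoc (K * |C|), ← Real.exp_add, ← Real.exp_add]
    refine mul_le_mul_of_nonneg_left (Real.exp_le_exp.2 ?_) (by positivity)
    linarith [DecAux.absorb (τ := τ) (Nat.cast_nonneg (Fintype.card κ)) hδ]

end Pool.Agent.SC
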