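import Pool.Agent.Lib.MP_b4b3cb_nt.StB

/-! The local conditions at a dyadic place. -/

namespace Pool.Agent.SC

open scoped Classical
open Module

namespace DyAux

theorem z2 (c : ZMod 2) : c = 0 ∨ c = 1 := by
  revert c; decide

theorem n2 : ‖(2 : ℚ_[2])‖ = 1 / 2 := by
  have := @Padic.norm_p 2 _
  simpa using this

theorem eq_one {x : ℚ_[2]} (h : ‖x‖ ≤ 1) (h' : ¬ ‖x‖ ≤ 1 / 2) : ‖x‖ = 1 := by
  refine le_antisymm h (not_lt.mp fun hlt => h' ?_)
  have := (Padic.norm_le_pow_iff_norm_lt_pow_add_one x (-1)).mpr (by simpa using hlt)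
  simpa using this

theorem sub_one (hO : OmSt) {x : ℚ_[2]} (h : ‖x‖ = 1) : ‖x - 1‖ ≤ 1 / 2 := by
  have := hO.unit_half (PadicInt.mkUnits h) 1
  simpa [PadicInt.mkUnits_eq] using this

theorem nu (r : ℤ_[2]ˣ) : ‖((r : ℤ_[2]) : ℚ_[2])‖ = 1 := by
  rw [PadicInt.padic_norm_e_of_padicInt]
  exact PadicInt.norm_units r

theorem nadd {x y : ℚ_[2]} {c : ℝ} (hx : ‖x‖ ≤ c) (hy : ‖y‖ ≤ c) : ‖x + y‖ ≤ c :=
  (IsUltrametricDist.norm_add_le_max _ _).trans (max_le hx hy)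

theorem nsub {x y : ℚ_[2]} {c : ℝ} (hx : ‖x‖ ≤ c) (hy : ‖y‖ ≤ c) : ‖x - y‖ ≤ c := by
  rw [sub_eq_add_neg]
  exact nadd hx (by rwa [norm_neg])

theorem nmul {x y : ℚ_[2]} (hx : ‖x‖ ≤ 1) (hy : ‖y‖ ≤ 1) : ‖x * y‖ ≤ 1 := by
  rw [norm_mul]
  exact mul_le_one₀ hx (norm_nonneg _) hy

/-- The product of two reductions. -/
theorem hf_mul (hO : OmSt) {x y s : ℚ_[2]} {c d : ZMod 2} (hx : ‖x‖ ≤ 1) (hy : ‖y‖ ≤ 1)
    (hs : ‖s‖ = 1) (hc : c = 0 ↔ ‖x‖ ≤ 1 / 2) (hd : d = 0 ↔ ‖y‖ ≤ 1 / 2) :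
    ‖hf (c * d) - x * s * y / 2‖ ≤ 1 := by
  have h0 := norm_nonneg x
  have h1 := norm_nonneg y
  by_cases hc0 : c = 0
  · have := hc.mp hc0
    rw [hc0, zero_mul, hO.hf_zero, zero_sub, norm_neg, norm_div, norm_mul, norm_mul, hs, n2]
    nlinarith
  by_cases hd0 : d = 0
  · have := hd.mp hd0
    rw [hd0, mul_zero, hO.hf_zero, zero_sub, norm_neg, norm_div, norm_mul, norm_mul, hs, n2]
    nlinarith
  have hc1 : c = 1 := (z2 c).resolve_left hc0
  have hd1 : d = 1 := (z2 d).resolve_left hd0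
  have hx1 := eq_one hx fun h => hc0 (hc.mpr h)
  have hy1 := eq_one hy fun h => hd0 (hd.mpr h)
  have h2 : ‖x * s * y - 1‖ ≤ 1 / 2 := sub_one hO (by rw [norm_mul, norm_mul, hx1, hy1, hs]; norm_num)
  have h3 : hf (c * d) - x * s * y / 2 = -(x * s * y - 1) / 2 := by
    rw [hc1, hd1, mul_one, hO.hf_one]; ring
  rw [h3, norm_div, norm_neg, n2]
  linarith

theorem binom (hO : OmSt) {a : ℚ_[2]} (ha : ‖a‖ ≤ 1) : ‖a * (a - 1) / 4‖ ≤ 2 := by
  have h4 : ‖(4 : ℚ_[2])‖ = 1 / 4 := by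
    rw [show (4 : ℚ_[2]) = 2 * 2 by norm_num, norm_mul, n2]; norm_num
  have h1 : ‖a - 1‖ ≤ 1 := nsub ha (by simp)
  have h0 := norm_nonneg a
  have h2 := norm_nonneg (a - 1)
  rw [norm_div, norm_mul, h4]
  by_cases h : ‖a‖ ≤ 1 / 2
  · nlinarith
  · have := sub_one hO (eq_one ha h)
    nlinarith

theorem norm_div_pow (x : ℚ_[2]) (k : ℕ) : ‖x / 2 ^ k‖ = ‖x‖ * 2 ^ k := by
  rw [norm_div, norm_pow, n2]
  simp

theorem sym_zero {G P : Type} [Group G] [TopologicalSpace G] (A : AD G P) (v : P)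
    (a b : G → ZMod 2) (ha : ∀ g ∈ A.D v, a g = 0) (hb : ∀ g ∈ A.D v, b g = 0) :
    A.sym v a b = 0 := by
  have h0 : Hom (A.D v) (0 : G → ZMod 2) := (Hm (A.D v)).zero_mem.1
  rw [A.congr v a 0 b 0 ha hb]
  have := A.add v 0 0 0 h0 h0 h0
  rw [add_zero] at this
  exact left_eq_add.mp this

/-- Reductions of integral cocycles are orthogonal to `α`. -/
theorem orth (hO : OmSt) {G P : Type} [Group G] [TopologicalSpace G] (A : AD G P) (R : Rp A.χ)
    (v : P) (hη : ∀ g ∈ A.D v, R.η g = 0) {k : ℕ} {α : G → ZMod 2} (hα : Hom (A.D v) α)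
    (hk : ∀ g ∈ A.D v, ‖((R.r g : ℤ_[2]) : ℚ_[2]) - 1‖ ≤ 1 / 2 ^ k)
    (hα' : ∀ g ∈ A.D v, (α g = 0 ↔ ‖((R.r g : ℤ_[2]) : ℚ_[2]) - 1‖ ≤ 1 / 2 ^ (k + 1)))
    {f : G → ZMod 2} (hf' : Hom (A.D v) f) (hr : Red (A.D v) R.s f) : A.sym v α f = 0 := by
  obtain ⟨σ, hσc, hσ1, hσ, hσf⟩ := hr
  refine A.rloc v α f hα hf' (fun g => σ g / 2 ^ k / 2) ((hσc.div_const _).div_const _)
    fun g hg h hh => ?_
  have hχ : ((A.χ g : ℤ_[2]) : ℚ_[2]) = ((R.r g : ℤ_[2]) : ℚ_[2]) * ((R.s g : ℤ_[2]) : ℚ_[2]) := by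
    have := R.det g
    rw [if_pos (hη g hg), one_mul] at this
    rw [← this]
    simp
  have h1 : dq A.χ (fun g => σ g / 2 ^ k / 2) g h =
      (((R.r g : ℤ_[2]) : ℚ_[2]) - 1) / 2 ^ k * ((R.s g : ℤ_[2]) : ℚ_[2]) * σ h / 2 := by
    simp only [dq]
    rw [hσ g hg h hh, hχ]
    ring
  have hp : (0 : ℝ) < 2 ^ k := by positivity
  rw [h1]
  refine hf_mul hO ?_ (hσ1 h hh) (nu _) ?_ (hσf h hh)
  · rw [norm_div_pow]
    exact (le_div_iff₀ hp).mp (hk g hg)
  · rw [hα' g hg, norm_div_pow, ← le_div_iff₀ hp, pow_succ]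
    rw [show (1 : ℝ) / (2 ^ k * 2) = 1 / 2 / 2 ^ k by field_simp]

/-- For `k ≥ 2` the class `α` is orthogonal to itself. -/
theorem self (hO : OmSt) (hA : AcSt) {G P : Type} [Group G] [TopologicalSpace G] (A : AD G P)
    (R : Rp A.χ) (v : P) (hη : ∀ g ∈ A.D v, R.η g = 0) {k : ℕ} {α : G → ZMod 2}
    (hα : Hom (A.D v) α)
    (hk : ∀ g ∈ A.D v, ‖((R.r g : ℤ_[2]) : ℚ_[2]) - 1‖ ≤ 1 / 2 ^ (k + 2))
    (hα' : ∀ g ∈ A.D v, (α g = 0 ↔ ‖((R.r g : ℤ_[2]) : ℚ_[2]) - 1‖ ≤ 1 / 2 ^ (k + 2 + 1))) :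
    A.sym v α α = 0 := by
  set a : G → ℚ_[2] := fun g => (((R.r g : ℤ_[2]) : ℚ_[2]) - 1) / 2 ^ (k + 2) with ha
  have hp : (0 : ℝ) < 2 ^ (k + 2) := by positivity
  have hc0 : Continuous fun g => (R.r g : ℤ_[2]) := Units.continuous_val.comp R.cr
  have hc : Continuous a :=
    ((continuous_subtype_val.comp hc0).sub continuous_const).div_const _
  have ha1 : ∀ g ∈ A.D v, ‖a g‖ ≤ 1 := fun g hg => by
    simp only [ha]
    rw [norm_div_pow]
    exact (le_div_iff₀ hp).mp (hk g hg)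
  have ha2 : ∀ g ∈ A.D v, (α g = 0 ↔ ‖a g‖ ≤ 1 / 2) := fun g hg => by
    simp only [ha]
    rw [hα' g hg, norm_div_pow, ← le_div_iff₀ hp, pow_succ _ (k + 2)]
    rw [show (1 : ℝ) / (2 ^ (k + 2) * 2) = 1 / 2 / 2 ^ (k + 2) by field_simp]
  refine A.rloc v α α hα hα (fun g => a g * (a g - 1) / 4)
    ((hc.mul (hc.sub continuous_const)).div_const _).continuousOn fun g hg h hh => ?_
  have hm : a (g * h) = a g + a h + 4 * (2 ^ k * (a g * a h)) := by
    simp only [ha]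
    rw [((hA.rs_mul R g h).1 (hη g hg)).1]
    push_cast
    field_simp
    ring
  set c : ℚ_[2] := 2 ^ k * (a g * a h) with hcd
  have h2 : ‖(2 : ℚ_[2])‖ ≤ 1 := by rw [n2]; norm_num
  have hc1 : ‖c‖ ≤ 1 := nmul (by rw [norm_pow]; exact pow_le_one₀ (norm_nonneg _) h2)
    (nmul (ha1 g hg) (ha1 h hh))
  have h1 : hf (α g * α h) - dq A.χ (fun g => a g * (a g - 1) / 4) g h =
      (hf (α g * α h) - a g * (-1) * a h / 2) -
      (((A.χ g : ℤ_[2]) : ℚ_[2]) * (a h * (a h - 1) / 4) - a h * (a h - 1) / 4) +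
      c * (2 * (a g + a h) - 1 + 2 * (2 * c)) := by
    simp only [dq]
    rw [hm]
    ring
  rw [h1]
  refine nadd (nsub (hf_mul hO (ha1 g hg) (ha1 h hh) (by simp) (ha2 g hg) (ha2 h hh)) ?_)
    (nmul hc1 (nadd (nsub (nmul h2 (nadd (ha1 g hg) (ha1 h hh))) (by simp))
      (nmul h2 (nmul h2 hc1))))
  refine (hO.unit_half _ _).trans ?_
  have := binom hO (ha1 h hh)
  linarith

end DyAux

open DyAux

theorem st_Dy (hO : OmSt) (hA : AcSt) (hD : DyASt) (hR : RedSt) : DySt := by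
  intro G P _ _ _ A R v hη hr hT h3
  obtain ⟨hC, k, α, hk1, hα, hα0, hk, hα', hW0, hW1⟩ := hD R (A.D v) hη hr
  refine ⟨hC, ?_⟩
  have hadd : ∀ b ∈ Hm (A.D v), ∀ b' ∈ Hm (A.D v),
      A.sym v α (b + b') = A.sym v α b + A.sym v α b' := fun b hb b' hb' => by
    rw [A.comm v α _ hα.1 ((Hm (A.D v)).add_mem hb hb').1, A.add v b b' α hb.1 hb'.1 hα.1,
      A.comm v b α hb.1 hα.1, A.comm v b' α hb'.1 hα.1]
  obtain ⟨b, hb, hb1⟩ : ∃ b ∈ Hm (A.D v), A.sym v α b = 1 := by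
    by_contra hne
    apply hα0
    have := A.nondeg v α hα.1 fun b hb => by
      have hrb : res (A.D v) b ∈ Hm (A.D v) := by
        refine ⟨⟨hb.1.congr fun g hg => if_pos hg, fun g hg h hh => ?_⟩, fun g hg => if_neg hg⟩
        simp only [res, if_pos hg, if_pos hh, if_pos ((A.D v).mul_mem hg hh)]
        exact hb.2 g hg h hh
      rw [A.congr v α α b (res (A.D v) b) (fun _ _ => rfl) fun g hg => (if_pos hg).symm]
      exact (z2 _).resolve_right fun h => hne ⟨_, hrb, h⟩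
    funext g
    by_cases hg : g ∈ A.D v
    · exact this g hg
    · exact hα.2 g hg
  have hJ : ∀ f ∈ Hm (A.D v), Red (A.D v) R.s f ↔ A.sym v α f = 0 := fun f hf' => by
    refine ⟨orth hO A R v hη hα.1 hk hα' hf'.1, fun h0 => ?_⟩
    rcases hR (A.D v) R.s R.cs.continuousOn
      (fun g hg h _ => ((hA.rs_mul R g h).1 (hη g hg)).2) hT f b hf'.1 hb.1 with h | h | h
    · exact h
    · have := orth hO A R v hη hα.1 hk hα' hb.1 h
      rw [hb1] at this
      exact absurd this (by decide)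
    · have := orth hO A R v hη hα.1 hk hα' ((Hm (A.D v)).add_mem hf' hb).1 h
      rw [hadd f hf' b hb, h0, hb1] at this
      exact absurd this (by decide)
  have h00 : A.sym v α 0 = 0 := by
    have := hadd 0 (zero_mem _) 0 (zero_mem _)
    rw [add_zero] at this
    exact left_eq_add.mp this
  have hs : A.sym v (fun g => sg4 (R.r g)) (fun g => sg4 (R.r g)) = A.sym v α α := by
    rcases Nat.lt_or_ge k 2 with h | h
    · have hk' : k = 1 := by omega
      subst hk'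
      have he : ∀ g ∈ A.D v, sg4 (R.r g) = α g := fun g hg => by
        have h1 := hα' g hg
        rw [show (1 : ℝ) / 2 ^ (1 + 1) = 1 / 4 by norm_num] at h1
        unfold sg4
        split_ifs with h2
        · exact (h1.mpr h2).symm
        · exact ((z2 _).resolve_left fun h3 => h2 (h1.mp h3)).symm
      exact A.congr v _ _ _ _ he he
    · obtain ⟨k, rfl⟩ := Nat.exists_eq_add_of_le' h
      have he : ∀ g ∈ A.D v, sg4 (R.r g) = 0 := fun g hg => by
        refine if_pos ((hk g hg).trans ?_)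
        rw [pow_add]
        refine one_div_le_one_div_of_le (by norm_num) ?_
        have : (1 : ℝ) ≤ 2 ^ k := one_le_pow₀ (by norm_num)
        nlinarith
      rw [sym_zero A v _ _ he he, self hO hA A R v hη hα.1 hk hα']
  rw [hs]
  unfold Rp.Big Rp.df
  rcases z2 (A.sym v α α) with h0 | h1
  · have := A.finH v
    let φ : Hm (A.D v) →ₗ[ZMod 2] ZMod 2 :=
      (AddMonoidHom.mk' (fun b : Hm (A.D v) => A.sym v α b)
        fun b b' => hadd b b.2 b' b'.2).toZModLinearMap 2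
    have hφ : ∀ b : Hm (A.D v), φ b = A.sym v α b := fun _ => rfl
    have hrange : LinearMap.range φ = ⊤ := by
      rw [eq_top_iff]
      intro c _
      rcases z2 c with rfl | rfl
      · exact zero_mem _
      · exact ⟨⟨b, hb⟩, hb1⟩
    have hker : finrank (ZMod 2) (LinearMap.ker φ) = 2 := by
      have := LinearMap.finrank_range_add_finrank_ker φ
      rw [hrange, finrank_top, h3, Module.finrank_self] at this
      omega
    have e0 : R.W (A.D v) True 0 = (LinearMap.ker φ).map (Hm (A.D v)).subtype := by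
      ext f
      rw [hW0 f, Submodule.mem_map]
      constructor
      · rintro ⟨hf', h⟩
        refine ⟨⟨f, hf'⟩, ?_, rfl⟩
        rw [LinearMap.mem_ker, hφ]
        rcases h with h | h
        · exact (hJ f hf').mp h
        · have := (hJ _ ((Hm (A.D v)).add_mem hf' hα)).mp h
          rwa [hadd f hf' α hα, h0, add_zero] at this
      · rintro ⟨f, hf', rfl⟩
        exact ⟨f.2, Or.inl ((hJ _ f.2).mpr hf')⟩
    have e1 : R.W (A.D v) True 1 = Submodule.span (ZMod 2) {α} := by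
      ext f
      rw [hW1 f, Submodule.mem_span_singleton]
      constructor
      · rintro ⟨rfl | rfl, -⟩
        · exact ⟨0, zero_smul _ _⟩
        · exact ⟨1, one_smul _ _⟩
      · rintro ⟨c, rfl⟩
        rcases z2 c with rfl | rfl
        · rw [zero_smul]
          exact ⟨Or.inl rfl, (hJ 0 (zero_mem _)).mpr h00⟩
        · rw [one_smul]
          exact ⟨Or.inr rfl, (hJ α hα).mpr h0⟩
    rw [e0, e1, Submodule.finrank_map_subtype_eq, hker, finrank_span_singleton hα0, h3, h0]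
    exact ⟨le_rfl, by norm_num⟩
  · have e0 : R.W (A.D v) True 0 = Hm (A.D v) := by
      ext f
      rw [hW0 f]
      refine ⟨fun h => h.1, fun hf' => ⟨hf', ?_⟩⟩
      rcases z2 (A.sym v α f) with h | h
      · exact Or.inl ((hJ f hf').mpr h)
      · refine Or.inr ((hJ _ ((Hm (A.D v)).add_mem hf' hα)).mpr ?_)
        rw [hadd f hf' α hα, h, h1]
        decide
    have e1 : R.W (A.D v) True 1 = ⊥ := by
      rw [eq_bot_iff]
      intro f hf'
      rw [hW1 f] at hf'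
      rcases hf' with ⟨rfl | rfl, h⟩
      · exact zero_mem _
      · have := (hJ f hα).mp h
        rw [h1] at this
        exact absurd this (by decide)
    rw [e0, e1, finrank_bot, h3, h1]
    exact ⟨le_rfl, by decide⟩

end Pool.Agent.SC
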