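import Pool.Agent.Lib.MP_b4b3cb_nt.StC

/-! The dyadic primes of a field in which `2` splits totally. -/

namespace Pool.Agent.SC

open NumberField Pool.Agent.Stark
open scoped Classical Pointwise

namespace DyPrAux

theorem norm_two : ‖(2 : ℚ_[2])‖ = 1 / 2 := by
  have := Padic.norm_p (p := 2)
  simpa using this

theorem le_half {z : ℚ_[2]} (h : ‖z‖ < 1) : ‖z‖ ≤ 1 / 2 := by
  have := (Padic.norm_le_pow_iff_norm_lt_pow_add_one z (-1)).2 (by simpa using h)
  simpa using this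

theorem res_cases {z : ℚ_[2]} (h : ‖z‖ ≤ 1) : ‖z‖ < 1 ∨ ‖z - 1‖ < 1 := by
  obtain ⟨x, rfl⟩ : ∃ x : ℤ_[2], (x : ℚ_[2]) = z := ⟨⟨z, h⟩, rfl⟩
  obtain ⟨n, hn, hz⟩ := PadicInt.exists_mem_range x
  rw [IsLocalRing.mem_maximalIdeal, PadicInt.mem_nonunits, PadicInt.norm_def, PadicInt.coe_sub,
    PadicInt.coe_natCast] at hz
  interval_cases n
  · left; simpa using hz
  · right; simpa using hz

theorem exists_nat_approx {z : ℚ_[2]} (h : ‖z‖ ≤ 1) (k : ℕ) :
    ∃ c : ℕ, ‖z - c‖ ≤ 1 / 2 ^ k := by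
  obtain ⟨x, rfl⟩ : ∃ x : ℤ_[2], (x : ℚ_[2]) = z := ⟨⟨z, h⟩, rfl⟩
  refine ⟨PadicInt.appr x k, ?_⟩
  have := (PadicInt.norm_le_pow_iff_mem_span_pow _ k).2 (PadicInt.appr_spec k x)
  rw [PadicInt.norm_def, PadicInt.coe_sub, PadicInt.coe_natCast] at this
  simpa using this

variable {L : Type} [Field L] [NumberField L]

omit [NumberField L] in
theorem int_le (s : L →+* ℚ_[2]) (y : 𝓞 L) : ‖s y‖ ≤ 1 := by
  have h1 : IsIntegral ℤ (s y) := (RingOfIntegers.isIntegral_coe y).map s.toIntAlgHom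
  have h2 : IsIntegral ℤ_[2] (s y) := h1.tower_top
  obtain ⟨z, hz⟩ := IsIntegrallyClosed.isIntegral_iff.1 h2
  rw [← hz]
  exact z.2

omit [NumberField L] in
theorem coe_two : ((2 : 𝓞 L) : L) = 2 := map_ofNat (algebraMap (𝓞 L) L) 2

/-- The prime attached to a 2-adic embedding. -/
noncomputable def prOf (s : L →+* ℚ_[2]) : Pr L where
  asIdeal :=
    { carrier := {y | ‖s y‖ < 1}
      add_mem' := fun {a b} ha hb => by
        simp only [Set.mem_ofPred_eq, map_add] at ha hb ⊢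
        exact (Padic.nonarchimedean _ _).trans_lt (max_lt ha hb)
      zero_mem' := by simp
      smul_mem' := fun c {x} hx => by
        simp only [Set.mem_ofPred_eq, smul_eq_mul, map_mul, norm_mul] at hx ⊢
        exact (mul_le_of_le_one_left (norm_nonneg _) (int_le s c)).trans_lt hx }
  isPrime := by
    refine ⟨fun h => ?_, fun {x y} h => ?_⟩
    · have : (1 : 𝓞 L) ∈ (⊤ : Ideal (𝓞 L)) := trivial
      rw [← h] at this
      have h1 : ‖s ((1 : 𝓞 L) : L)‖ < 1 := this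
      simp at h1
    · have h1 : ‖s ((x * y : 𝓞 L) : L)‖ < 1 := h
      by_contra hh
      push Not at hh
      have a1 : 1 ≤ ‖s x‖ := not_lt.1 hh.1
      have a2 : 1 ≤ ‖s y‖ := not_lt.1 hh.2
      simp only [map_mul, norm_mul] at h1
      nlinarith
  ne_bot := by
    intro h
    have h1 : ‖s ((2 : 𝓞 L) : L)‖ < 1 := by
      rw [coe_two, map_ofNat, norm_two]; norm_num
    have h2 : (2 : 𝓞 L) ∈ (⊥ : Ideal (𝓞 L)) := by rw [← h]; exact h1
    simp at h2

variable {s : L →+* ℚ_[2]} {w : Pr L}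

omit [NumberField L] in
theorem pow_le (h : ∀ y : 𝓞 L, y ∈ w.asIdeal ↔ ‖s y‖ < 1) (n : ℕ) (y : 𝓞 L)
    (hy : y ∈ w.asIdeal ^ n) : ‖s y‖ ≤ 1 / 2 ^ n := by
  induction n generalizing y with
  | zero => simpa using int_le s y
  | succ n ih =>
    rw [pow_succ] at hy
    refine Submodule.mul_induction_on hy (fun a ha b hb => ?_) fun a b ha hb => ?_
    · have h1 := ih a ha
      have h2 := le_half ((h b).1 hb)
      simp only [map_mul, norm_mul]
      refine (mul_le_mul h1 h2 (norm_nonneg _) (by positivity)).trans (le_of_eq ?_)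
      rw [pow_succ]; field_simp
    · simp only [map_add]
      exact (Padic.nonarchimedean _ _).trans (max_le ha hb)

theorem og_two (h : ∀ y : 𝓞 L, y ∈ w.asIdeal ↔ ‖s y‖ < 1) : og w (2 : L) = 1 := by
  have h1 : 0 < og w ((2 : 𝓞 L) : L) := by
    rw [og_pos_iff w two_ne_zero, h, coe_two, map_ofNat, norm_two]; norm_num
  have h2 : ¬ ((2 : ℕ) : ℤ) ≤ og w ((2 : 𝓞 L) : L) := by
    rw [le_og_iff w two_ne_zero]
    intro h3
    have := pow_le h 2 _ h3
    rw [coe_two, map_ofNat, norm_two] at this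
    norm_num at this
  rw [coe_two] at h1 h2
  omega

theorem norm_eq (h : ∀ y : 𝓞 L, y ∈ w.asIdeal ↔ ‖s y‖ < 1) : Ideal.absNorm w.asIdeal = 2 := by
  rw [Ideal.absNorm_apply, Submodule.cardQuot_apply, Nat.card_eq_two_iff]
  have := w.isPrime
  refine ⟨0, 1, zero_ne_one, Set.eq_univ_of_forall fun c => ?_⟩
  obtain ⟨y, rfl⟩ := Ideal.Quotient.mk_surjective c
  rcases res_cases (int_le s y) with h1 | h1
  · left
    exact Ideal.Quotient.eq_zero_iff_mem.2 ((h y).2 h1)
  · right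
    rw [Set.mem_singleton_iff, ← map_one (Ideal.Quotient.mk w.asIdeal), Ideal.Quotient.eq]
    exact (h _).2 (by simpa using h1)

theorem norm_unit (h : ∀ y : 𝓞 L, y ∈ w.asIdeal ↔ ‖s y‖ < 1) {u : 𝓞 L} (hu : u ≠ 0)
    (h0 : og w (u : L) = 0) : ‖s u‖ = 1 := by
  refine le_antisymm (int_le s u) (not_lt.1 fun h1 => ?_)
  have := (og_pos_iff w hu).2 ((h u).2 h1)
  omega

theorem norm_of_og (hC : CnSt) (h : ∀ y : 𝓞 L, y ∈ w.asIdeal ↔ ‖s y‖ < 1) {z : L} (hz : z ≠ 0)
    (h0 : og w z = 0) : ‖s z‖ = 1 := by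
  obtain ⟨x, hx, h1, h2⟩ := hC.ex (fun q : Pr L => max 0 (-og q z))
    ((og_finite z).subset fun q hq h3 => hq (by simp [h3])) {w}
  have h3 : og w x = 0 := by simpa [h0] using h1 w (Finset.mem_singleton_self w)
  obtain ⟨u, hu⟩ := exists_int_of_og (x := x) fun q => (le_max_left _ _).trans (h2 q)
  have hm : ∀ q : Pr L, og q (x * z) = og q x + og q z := fun q => ord_mul hx hz
  obtain ⟨u', hu'⟩ := exists_int_of_og (x := x * z) fun q => by
    have := (le_max_right _ _).trans (h2 q)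
    rw [hm]; omega
  have a1 : ‖s u‖ = 1 := norm_unit h (by rintro rfl; exact hx (by simpa using hu.symm))
    (by rw [hu, h3])
  have a2 : ‖s u'‖ = 1 := norm_unit h
    (by rintro rfl; exact mul_ne_zero hx hz (by simpa using hu'.symm)) (by rw [hu', hm, h3, h0]; rfl)
  rwa [hu', map_mul, norm_mul, ← hu, a1, one_mul] at a2

theorem le_pow (hC : CnSt) (h : ∀ y : 𝓞 L, y ∈ w.asIdeal ↔ ‖s y‖ < 1) (n : ℕ) (y : 𝓞 L)
    (hy : ‖s y‖ ≤ 1 / 2 ^ n) : y ∈ w.asIdeal ^ n := by
  by_cases h0 : y = 0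
  · simp [h0]
  have hy0 : (y : L) ≠ 0 := by simpa using h0
  obtain ⟨m, hm⟩ := Int.eq_ofNat_of_zero_le (og_nonneg w y)
  have h2 : (2 : L) ^ m ≠ 0 := pow_ne_zero _ two_ne_zero
  have h1 : og w ((y : L) / 2 ^ m) = 0 := by
    have a1 : og w ((y : L) / 2 ^ m) = og w (y : L) - og w ((2 : L) ^ m) := ord_div hy0 h2
    have a2 : og w ((2 : L) ^ m) = m * og w (2 : L) := ord_pow _ _
    rw [a1, a2, og_two h, hm]; simp
  have h3 := norm_of_og hC h (div_ne_zero hy0 h2) h1
  rw [map_div₀, norm_div, map_pow, map_ofNat, norm_pow, norm_two,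
    div_eq_one_iff_eq (by positivity)] at h3
  rw [h3, ← one_div_pow] at hy
  have h4 : n ≤ m := by
    by_contra h5
    have := pow_lt_pow_right_of_lt_one₀ (a := (1 / 2 : ℝ)) (by norm_num) (by norm_num)
      (not_le.1 h5)
    linarith
  rw [← le_og_iff w h0, hm]
  exact_mod_cast h4

theorem emb_eq (hC : CnSt) {s' : L →+* ℚ_[2]} (h : ∀ y : 𝓞 L, y ∈ w.asIdeal ↔ ‖s y‖ < 1)
    (h' : ∀ y : 𝓞 L, y ∈ w.asIdeal ↔ ‖s' y‖ < 1) : s = s' := by
  have key : ∀ y : 𝓞 L, s y = s' y := by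
    intro y
    have hk : ∀ k : ℕ, ‖s y - s' y‖ ≤ (1 / 2) ^ k := by
      intro k
      obtain ⟨c, hc⟩ := exists_nat_approx (int_le s y) k
      have a1 : y - c ∈ w.asIdeal ^ k := le_pow hC h k _ (by simpa using hc)
      have a2 : ‖s' y - c‖ ≤ 1 / 2 ^ k := by simpa using pow_le h' k _ a1
      have e : s y - s' y = (s y - c) + -(s' y - c) := by ring
      rw [e, one_div_pow]
      exact (Padic.nonarchimedean _ _).trans (max_le hc (by rwa [norm_neg]))
    have h0 : ‖s y - s' y‖ ≤ 0 :=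
      ge_of_tendsto' (tendsto_pow_atTop_nhds_zero_of_lt_one (by norm_num) (by norm_num)) hk
    exact sub_eq_zero.1 (norm_le_zero_iff.1 h0)
  ext x
  obtain ⟨a, b, -, rfl⟩ := IsFractionRing.div_surjective (A := 𝓞 L) x
  rw [map_div₀, map_div₀]
  exact congrArg₂ (· / ·) (key a) (key b)

theorem inj (hC : CnSt) {ι t} {dw : (L →+* ℂ) → Pr L} (h : DY ι t dw) : Function.Injective dw := by
  intro σ σ' e
  have h1 : t σ = t σ' := emb_eq hC (h.mem σ) (e ▸ h.mem σ')
  ext x
  apply ι.injective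
  rw [← h.emb, ← h.emb, h1]

theorem surj (hC : CnSt) {ι t} {dw : (L →+* ℂ) → Pr L} (h : DY ι t dw) (w : Pr L)
    (hw : og w (2 : L) ≠ 0) : ∃ σ, dw σ = w := by
  by_contra hne
  push Not at hne
  set P := (og_finite (2 : L)).toFinset with hP
  have hPm : ∀ q, q ∈ P ↔ og q (2 : L) ≠ 0 := fun q => by simp [hP]
  have h1 := prod_absNorm_two P fun q hq => by simpa [hPm] using hq
  have hsub : Finset.univ.image dw ⊆ P := by
    intro q hq
    obtain ⟨σ, -, rfl⟩ := Finset.mem_image.1 hq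
    rw [hPm, og_two (h.mem σ)]; norm_num
  have h2 : ∏ q ∈ Finset.univ.image dw, Ideal.absNorm q.asIdeal ^ (og q (2 : L)).toNat =
      2 ^ Module.finrank ℚ L := by
    rw [Finset.prod_image fun a _ b _ e => inj hC h e, ← Embeddings.card L ℂ, ← Finset.card_univ,
      ← Finset.prod_const]
    refine Finset.prod_congr rfl fun σ _ => ?_
    rw [norm_eq (h.mem σ), og_two (h.mem σ)]; rfl
  rw [← Finset.prod_sdiff hsub, h2] at h1
  have h3 : ∏ q ∈ P \ Finset.univ.image dw, Ideal.absNorm q.asIdeal ^ (og q (2 : L)).toNat = 1 :=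
    mul_right_cancel₀ (by positivity) (h1.trans (one_mul _).symm)
  have h4 : w ∈ P \ Finset.univ.image dw := by
    rw [Finset.mem_sdiff, hPm]
    exact ⟨hw, by simpa using hne⟩
  have h5 := Nat.dvd_one.1 (h3 ▸ Finset.dvd_prod_of_mem
    (fun q : Pr L => Ideal.absNorm q.asIdeal ^ (og q (2 : L)).toNat) h4)
  rcases Nat.pow_eq_one.1 h5 with h6 | h6
  · exact w.isPrime.ne_top (Ideal.absNorm_eq_one_iff.1 h6)
  · have := og_nonneg w 2
    rw [coe_two] at this
    omega

theorem ex (ι : ℂ ≃+* PadicAlgCl 2)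
    (h : ∀ (σ : L →+* ℂ) (x : L), ι (σ x) ∈ (algebraMap ℚ_[2] (PadicAlgCl 2)).range) :
    ∃ (t : (L →+* ℂ) → (L →+* ℚ_[2])) (dw : (L →+* ℂ) → Pr L), DY ι t dw := by
  choose f hf using h
  have hi := (algebraMap ℚ_[2] (PadicAlgCl 2)).injective
  let t : (L →+* ℂ) → (L →+* ℚ_[2]) := fun σ =>
    { toFun := f σ
      map_one' := hi (by simp [hf])
      map_mul' := fun x y => hi (by simp [hf])
      map_zero' := hi (by simp [hf])
      map_add' := fun x y => hi (by simp [hf]) }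
  exact ⟨t, fun σ => prOf (t σ), fun σ x => hf σ x, fun σ y => Iff.rfl⟩

end DyPrAux

open DyPrAux in
theorem st_DyPr (hC : CnSt) : DyPrSt where
  ex := fun ι h => DyPrAux.ex ι h
  int := fun _ _ y => int_le _ y
  pow := fun h σ y n => ⟨pow_le (h.mem σ) n y, le_pow hC (h.mem σ) n y⟩
  norm := fun h σ => ⟨norm_eq (h.mem σ), og_two (h.mem σ)⟩
  inj := fun h => DyPrAux.inj hC h
  surj := fun h w hw => DyPrAux.surj hC h w hw

variable {K L : Type} [Field K] [NumberField K] [Field L] [NumberField L] [Algebra K L]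

theorem st_DyK (hD : DyPrSt) (hQ : QdSt K L) (hM : CmSt K L) : DyKSt K L := by
  intro d E a ι t dw hc h
  have hconj : ∀ σ, dw (ComplexEmbedding.conjugate σ) = E.act (dw σ) := by
    intro σ
    have h1 : ∀ x, t (ComplexEmbedding.conjugate σ) x = t σ (E.tau x) := fun x => by
      apply (algebraMap ℚ_[2] (PadicAlgCl 2)).injective
      rw [h.emb, h.emb, hc.cm, ComplexEmbedding.conjugate_coe_eq]
    ext y
    rw [h.mem, E.mem_act, h.mem, h1, E.coe_sg]
  have hne : ∀ σ, E.act (dw σ) ≠ dw σ := by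
    intro σ e
    have h1 := hc.wt σ
    rw [hD.inj h ((hconj σ).trans e)] at h1
    omega
  have hbel : ∀ σ σ', below K (dw σ') = below K (dw σ) →
      σ' = σ ∨ σ' = ComplexEmbedding.conjugate σ := by
    intro σ σ' e
    rcases (E.below_eq_iff _ _).1 e with e | e
    · exact Or.inl (hD.inj h e)
    · exact Or.inr (hD.inj h (e.trans (hconj σ).symm))
  have hdy : ∀ σ, og (below K (dw σ)) (2 : K) ≠ 0 := by
    intro σ e
    have := (hQ.two _).2 e
    rw [(hD.norm h σ).2] at this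
    exact one_ne_zero this
  have hsur : ∀ v : Pr K, og v (2 : K) ≠ 0 → ∃ σ, below K (dw σ) = v := by
    intro v hv
    obtain ⟨w, rfl⟩ := below_surj (K := L) v
    obtain ⟨σ, rfl⟩ := hD.surj h w fun e => hv ((hQ.two w).1 e)
    exact ⟨σ, rfl⟩
  have hbc : ∀ σ, below K (dw (ComplexEmbedding.conjugate σ)) = below K (dw σ) := fun σ => by
    rw [hconj, hQ.below_act]
  refine ⟨fun v hv => ?_, ?_⟩
  · obtain ⟨σ, rfl⟩ := hsur v hv
    refine ⟨(E.split_iff _).1 (hne σ), ?_⟩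
    rcases E.efg (dw σ) with ⟨-, h1, h2⟩ | ⟨h1, -⟩ | ⟨h1, -⟩
    · have h3 := og_algebraMap (F := K) (dw σ) 2
      rw [map_ofNat, (hD.norm h σ).2, h1] at h3
      exact ⟨by simpa using h3.symm, h2 ▸ (hD.norm h σ).1⟩
    · exact absurd h1 (hne σ)
    · exact absurd h1 (hne σ)
  let sec : Pr K → Pr L := fun v =>
    if hv : ∃ σ, a σ ≤ 0 ∧ below K (dw σ) = v then dw hv.choose
    else (below_surj (K := L) v).choose
  have hs1 : ∀ v, below K (sec v) = v := by
    intro v
    by_cases hv : ∃ σ, a σ ≤ 0 ∧ below K (dw σ) = v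
    · simp only [sec, dif_pos hv]; exact hv.choose_spec.2
    · simp only [sec, dif_neg hv]; exact (below_surj (K := L) v).choose_spec
  have hs2 : ∀ σ, a σ ≤ 0 → sec (below K (dw σ)) = dw σ := by
    intro σ hσ
    have hv : ∃ σ', a σ' ≤ 0 ∧ below K (dw σ') = below K (dw σ) := ⟨σ, hσ, rfl⟩
    simp only [sec, dif_pos hv]
    obtain ⟨h1, h2⟩ := hv.choose_spec
    rcases hbel _ _ h2 with e | e
    · rw [e]
    · have := hc.wt σ
      rw [← e] at this
      omega
  refine ⟨sec, hs1, hs2, fun S hS => ?_⟩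
  let g : Ty a → Pr K := fun k => below K (dw k.1)
  have hg : Function.Injective g := by
    intro k k' e
    rcases hbel _ _ e with e | e
    · exact Subtype.ext e
    · have h1 := hc.wt k'.1
      have h2 := k.2
      have h3 := k'.2
      rw [← e] at h1
      omega
  have him : (S.filter fun v => og v (2 : K) ≠ 0) = Finset.univ.image g := by
    ext v
    simp only [Finset.mem_filter, Finset.mem_image, Finset.mem_univ, true_and]
    constructor
    · rintro ⟨-, hv⟩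
      obtain ⟨σ, rfl⟩ := hsur v hv
      by_cases h1 : 0 < a σ
      · exact ⟨⟨σ, h1⟩, rfl⟩
      · exact ⟨⟨ComplexEmbedding.conjugate σ, by have := hc.wt σ; omega⟩, hbc σ⟩
    · rintro ⟨k, rfl⟩
      exact ⟨by_contra fun e => hdy k.1 (hS _ e), hdy k.1⟩
  obtain ⟨e, -⟩ := hM.real hc
  have hcard : Fintype.card (Ty a) = Fintype.card (K →+* ℝ) := Fintype.card_congr e
  refine ⟨by rw [him, Finset.card_image_of_injective _ hg, Finset.card_univ, hcard], ?_⟩
  rw [← Finset.sum_filter_of_ne (p := fun v => og v (2 : K) ≠ 0), him,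
    Finset.sum_image fun k _ k' _ e => hg e, ← hcard]
  · have h1 : ∀ k : Ty a, ∑ σ with dw σ = sec (g k), a σ = 1 - a k.1 := by
      intro k
      have h2 := hc.wt k.1
      have h3 := k.2
      have h4 : sec (g k) = dw (ComplexEmbedding.conjugate k.1) := by
        rw [← hs2 _ (by omega), hbc]
      have h5 : (Finset.univ.filter fun σ => dw σ = sec (g k)) =
          {ComplexEmbedding.conjugate k.1} := by
        ext σ
        simp [h4, (hD.inj h).eq_iff]
      rw [h5, Finset.sum_singleton]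
      omega
    rw [Finset.sum_congr rfl fun k _ => h1 k, Finset.sum_sub_distrib]
    simp
  · intro v _ hv
    obtain ⟨σ, hσ, -⟩ := Finset.exists_ne_zero_of_sum_ne_zero hv
    rw [← hs1 v, ← (Finset.mem_filter.1 hσ).2]
    exact hdy σ

end Pool.Agent.SC
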