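import Pool.Agent.Lib.MP_b4b3cb_nt.StC

/-! The finite part of the Hecke character in terms of Hilbert symbols. -/

namespace Pool.Agent.SC

open NumberField Pool.Agent.Stark
open scoped Classical Pointwise

variable {K L Ω : Type} [Field K] [NumberField K] [Field L] [NumberField L] [Algebra K L]
  [Field Ω] [Algebra K Ω] [Algebra L Ω] [IsScalarTower K L Ω] [IsAlgClosed Ω] [IsGalois K Ω]
  [CharZero Ω]

namespace F1Aux

/-- The sign character as a homomorphism. -/
noncomputable def sgH (hO : OmSt) : ℤ_[2]ˣ →* Multiplicative (ZMod 2) :=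
  MonoidHom.mk' (fun r => Multiplicative.ofAdd (sg4 r)) fun r s => by
    rw [hO.sg4_mul, ofAdd_add]

theorem sg4_prod (hO : OmSt) {ι : Type} (s : Finset ι) (f : ι → ℤ_[2]ˣ) (n : ι → ℤ) :
    sg4 (∏ i ∈ s, f i ^ n i) = ∑ i ∈ s, (n i : ZMod 2) * sg4 (f i) := by
  have h : Multiplicative.toAdd (sgH hO (∏ i ∈ s, f i ^ n i)) =
      ∑ i ∈ s, (n i : ZMod 2) * sg4 (f i) := by
    rw [map_prod, toAdd_prod]
    refine Finset.sum_congr rfl fun i _ => ?_
    rw [map_zpow, toAdd_zpow, zsmul_eq_mul]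
    rfl
  exact h

theorem hq_unr {F : Type} [Field F] [NumberField F] (w : Pr F) (h2 : og w (2 : F) = 0) {δ x : F}
    (hδ : δ ≠ 0) (hx : x ≠ 0) (he : Even (og w δ)) :
    hq w δ x = (og w x : ZMod 2) * if LSq w δ then 0 else 1 := by
  have L := isLoc_wv w
  have h0 : emb w δ ≠ 0 := (map_ne_zero _).2 hδ
  have hu : Unr (wv w) (emb w δ) :=
    L.unr_of_odd (by rw [← h2, ← ord_emb, map_ofNat]) h0 (by rwa [ord_emb])
  rw [hq, L.hs_of_unr h0 hu ((map_ne_zero _).2 hx), ord_emb]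
  by_cases h : LSq w δ
  · rw [if_pos h, mul_zero]
    exact if_pos h
  · rw [if_neg h, mul_one]
    exact if_neg h

theorem sq4_congr {u v : ℚ_[2]} (h : ‖u - v‖ ≤ 1 / 4) : sq4 u = sq4 v := by
  have key : ∀ a b : ℚ_[2], ‖a - b‖ ≤ 1 / 4 → ‖b - 1‖ ≤ 1 / 4 → ‖a - 1‖ ≤ 1 / 4 := fun a b h1 h2 => by
    rw [show a - 1 = (a - b) + (b - 1) by ring]
    exact (IsUltrametricDist.norm_add_le_max _ _).trans (max_le h1 h2)
  unfold sq4
  exact if_congr ⟨key v u (by rwa [norm_sub_rev]), key u v h⟩ rfl rfl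

theorem sq4_one : sq4 1 = 0 := by simp [sq4]

theorem sq4_neg : sq4 (-1) = 1 := by
  have h : ‖(2 : ℚ_[2])‖ = (2 : ℝ)⁻¹ := by simpa using Padic.norm_p (p := 2)
  rw [sq4, if_neg]
  rw [show (-1 - 1 : ℚ_[2]) = -2 by norm_num, norm_neg, h]
  norm_num

theorem og_zero {F : Type} [Field F] [NumberField F] {w : Pr F} {x : 𝓞 F} (h : x ∉ w.asIdeal) :
    og w (x : F) = 0 := by
  have h0 : x ≠ 0 := by rintro rfl; exact h (zero_mem _)
  have h1 := og_nonneg w x
  have h2 := (og_pos_iff w h0).not.2 h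
  omega

end F1Aux

open F1Aux

theorem st_F1a (hO : OmSt) (hK : KumSt K Ω) (hT : TopSt K Ω) (hI : IneSt K Ω) (hF : FrobSt K Ω)
    (hP : PrimeSt K Ω) (hA : AvSt K L Ω) (hD : DyPrSt) (hC : CmSt K L) : F1aSt K L Ω := by
  intro d E 𝔣 a ψ χ ι t dw ρ fr H Y A
  have : FiniteDimensional K L := Module.Finite.of_restrictScalars_finite ℚ K L
  have hc : IsClosed (Gs K Ω L : Set (Ω ≃ₐ[K] Ω)) :=
    Subgroup.isClosed_of_isOpen _ (hT.gs_open L this)
  obtain ⟨r, r0, r1, r2⟩ := hK.kum (Gs K Ω L) (fun g => sg4 (ρ g)) hc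
    ⟨hO.sg4_cont.comp_continuousOn A.cont, fun g hg h hh => by
      simp only [A.mul g hg h hh, hO.sg4_mul]⟩
  obtain ⟨δ, hδ⟩ := hT.gs_fix L _ r1
  have δ0 : δ ≠ 0 := by
    rintro rfl
    exact r0 (by simpa using hδ.symm)
  have hz : ∀ g : Ω ≃ₐ[K] Ω, kr r g = 0 ↔ g r = r := fun g => by
    unfold kr
    split_ifs with h <;> simp [h]
  have hrt : ∀ g : Ω ≃ₐ[K] Ω, kr r g = kr (rt Ω δ) g := fun g => by
    have e : r ^ 2 = rt Ω δ ^ 2 := by rw [rt_sq, hδ]
    exact hK.sq (H := ⊤) (t := 1) r0 (by intro h; rw [h] at e; exact r0 (by simpa using e))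
      (fun g _ => map_one g) (by simpa using e) g trivial
  have hev : ∀ w, Gd 𝔣 w → Even (og w δ) := fun w hw => by
    obtain ⟨𝔓, h𝔓⟩ := hP.ex L w
    refine (hI.ine h𝔓 hw.1 δ0 hδ.symm).2 fun g hg => (hz g).1 ?_
    rw [← r2 g hg.2]
    show sg4 (ρ g) = 0
    rw [A.unr 𝔓 w h𝔓 hw g hg, hO.sg4_one]
  have hfr : ∀ w, Gd 𝔣 w → sg4 (fr w) = if LSq w δ then 0 else 1 := fun w hw => by
    obtain ⟨𝔓, h𝔓⟩ := hP.ex L w
    obtain ⟨g, hg, hg'⟩ := hF.ex h𝔓
    rw [← A.frob 𝔓 w h𝔓 hw g hg hg']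
    refine (r2 g hg).trans ?_
    unfold kr
    exact if_congr (hI.leg h𝔓 hw.1 δ0 hδ.symm (hev w hw) g hg hg') rfl rfl
  refine ⟨δ, δ0, fun g hg => (r2 g hg).trans (hrt g), hev, fun S hS x x0 hx => ?_⟩
  have x0' : (x : L) ≠ 0 := by simpa using x0
  have hpr := hA.prin H Y A x x0 fun w hw => hx w ((hS w).2 hw)
  have hu : ∀ σ, ∃ u : ℤ_[2]ˣ, ((u : ℤ_[2]) : ℚ_[2]) = t σ x := fun σ => by
    have h1 : ¬ ‖t σ x‖ < 1 := fun h => hx (dw σ)
      ((hS _).2 fun hg => by have := (hD.norm Y σ).2; rw [hg.1] at this; exact zero_ne_one this)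
      ((Y.mem σ x).2 h)
    have h2 : ‖t σ x‖ = 1 := le_antisymm (hD.int Y σ x) (not_lt.1 h1)
    exact ⟨PadicInt.mkUnits h2, rfl⟩
  choose u hu using hu
  have hp2 : p2 t a (x : L) = (((∏ σ, u σ ^ a σ : ℤ_[2]ˣ) : ℤ_[2]) : ℚ_[2]) := by
    let φ : ℤ_[2]ˣ →* ℚ_[2]ˣ := Units.map (PadicInt.Coe.ringHom (p := 2)).toMonoidHom
    have e : ∀ v : ℤ_[2]ˣ, ((v : ℤ_[2]) : ℚ_[2]) = (φ v : ℚ_[2]) := fun v => rfl
    rw [e, map_prod, Units.coe_prod, p2]
    refine Finset.prod_congr rfl fun σ _ => ?_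
    rw [map_zpow, Units.val_zpow_eq_zpow_val, ← e, hu]
  have hs2 : sg4 (∏ σ, u σ ^ a σ) = ∑ σ, (a σ : ZMod 2) * sq4 (t σ x) := by
    rw [sg4_prod hO]
    refine Finset.sum_congr rfl fun σ _ => ?_
    rw [← hu]
    rfl
  -- the value of the sign character on the product of the Frobenius values
  let P : Finset (Pr L) := S ∪ (og_finite (x : L)).toFinset
  have hP0 : ∀ w ∉ P, Gd 𝔣 w ∧ og w (x : L) = 0 := fun w hw => by
    simp only [P, Finset.mem_union, Set.Finite.mem_toFinset, Set.mem_ofPred_eq, not_or,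
      not_not, hS] at hw
    exact hw
  have hav : sg4 (av fr (x : L)) = ∑ w ∈ S, hq w δ (x : L) := by
    rw [av, finprod_eq_prod_of_mulSupport_subset (s := P) _ (fun w hw => by
      by_contra h
      exact hw (by simp only [(hP0 w h).2, zpow_zero])), sg4_prod hO]
    have := hC.noreal H.cm
    have hrec := reciprocity δ0 x0' P fun w hw =>
      hq_eq_zero w (hP0 w hw).1.1 δ0 x0' (hev w (hP0 w hw).1) (by simp [(hP0 w hw).2])
    rw [Fintype.sum_empty, zero_add, ← Finset.sum_sdiff (Finset.subset_union_left : S ⊆ P)] at hrec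
    rw [← Finset.sum_sdiff (Finset.subset_union_left : S ⊆ P)]
    have e1 : ∑ w ∈ S, (og w (x : L) : ZMod 2) * sg4 (fr w) = 0 :=
      Finset.sum_eq_zero fun w hw => by rw [A.bad w ((hS w).1 hw), hO.sg4_one, mul_zero]
    have e2 : ∑ w ∈ P \ S, (og w (x : L) : ZMod 2) * sg4 (fr w) = ∑ w ∈ P \ S, hq w δ (x : L) :=
      Finset.sum_congr rfl fun w hw => by
        have hg : Gd 𝔣 w := by_contra fun h => (Finset.mem_sdiff.1 hw).2 ((hS w).2 h)
        rw [hfr w hg, hq_unr w hg.1 δ0 x0' (hev w hg)]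
    rw [e1, e2, add_zero]
    revert hrec
    generalize ∑ w ∈ P \ S, hq w δ (x : L) = p
    generalize ∑ w ∈ S, hq w δ (x : L) = q
    revert p q
    decide
  rw [← hav, ← hs2]
  rw [hp2] at hpr
  generalize (∏ σ, u σ ^ a σ : ℤ_[2]ˣ) = v at hpr
  generalize av fr (x : L) = b at hpr
  rcases H.val x with h | h | h
  · rw [h] at hpr
    simp at hpr
  · have e : b = v := Units.ext (Subtype.ext (by simpa [h] using hpr))
    rw [h, e, sg_add, sg_mul_self]
  · have e : b = -1 * v := Units.ext (Subtype.ext (by simpa [h] using hpr))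
    rw [h, e, hO.sg4_mul, hO.sg4_neg, add_assoc, sg_add, sg_add, sg_mul_self, sg_one, mul_one]

omit [IsGalois K Ω] [CharZero Ω] [IsScalarTower K L Ω] in
theorem st_F1 (hF : F1aSt K L Ω) (hC : CnSt) (hD : DyPrSt) (hH : HDSt K L) (hA : AvSt K L Ω) :
    F1St K L Ω := by
  intro d E 𝔣 a ψ χ ι t dw ρ fr H Y A
  obtain ⟨δ, δ0, hk, hev, hform⟩ := hF H Y A
  obtain ⟨S, hS⟩ := hA.fin H.ne
  have h2 : ∀ w : Pr L, 2 * og w (2 : L) < 3 := fun w => by
    by_cases h : og w (2 : L) = 0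
    · omega
    · obtain ⟨σ, rfl⟩ := hD.surj Y w h
      have := (hD.norm Y σ).2
      omega
  have hdw : ∀ σ, dw σ ∈ S := fun σ => (hS _).2 fun hg => by
    have := (hD.norm Y σ).2
    rw [hg.1] at this
    exact zero_ne_one this
  have key : ∀ (w : Pr L) (x z : 𝓞 L), z ∉ w.asIdeal → x - z ∈ w.asIdeal ^ cn 𝔣 w →
      (∀ w' : Pr L, w' ≠ w → x - 1 ∈ w'.asIdeal ^ cn 𝔣 w') →
      χ x = sg ℤ (hq w δ (z : L) + ∑ σ with dw σ = w, (a σ : ZMod 2) * sq4 (t σ z)) := by
    intro w x z hz h1 h1'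
    let c : Pr L → 𝓞 L := fun w' => if w' = w then z else 1
    have hc : ∀ w', c w' ∉ w'.asIdeal := fun w' => by
      by_cases h : w' = w
      · subst h
        simpa [c] using hz
      · simpa [c, h] using (Ideal.ne_top_iff_one _).1 w'.isPrime.ne_top
    have hc0 : ∀ w', (c w' : L) ≠ 0 := fun w' h => hc w' (by
      rw [show c w' = 0 by simpa using h]; exact zero_mem _)
    obtain ⟨y, y0, hy⟩ := hC.crt (insert w S) c (3 + ∑ w' ∈ S, cn 𝔣 w')
    have hy3 : ∀ w' ∈ insert w S, ∀ n ≤ 3, y - c w' ∈ w'.asIdeal ^ n := fun w' hw n hn =>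
      Ideal.pow_le_pow_right (by omega) (hy w' hw)
    have y0' : (y : L) ≠ 0 := by simpa using y0
    have hxy : χ x = χ y := H.per _ _ ((hC.mem H.ne _).2 fun w' => by
      by_cases h : w' ∈ S
      · have e : x - y = (x - c w') - (y - c w') := by ring
        rw [e]
        refine sub_mem ?_ (Ideal.pow_le_pow_right ?_ (hy w' (Finset.mem_insert_of_mem h)))
        · by_cases h' : w' = w
          · subst h'
            simpa [c] using h1
          · simpa [c, h'] using h1' w' h'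
        · have := Finset.single_le_sum (f := fun w' => cn 𝔣 w') (fun _ _ => Nat.zero_le _) h
          omega
      · have hg : Gd 𝔣 w' := by_contra fun h' => h ((hS w').2 h')
        rw [(hC.zero H.ne w').2 hg.2, pow_zero, Ideal.one_eq_top]
        trivial)
    have hyn : ∀ w' ∈ S, y ∉ w'.asIdeal := fun w' hw h => hc w' (by
      have := hy3 w' (Finset.mem_insert_of_mem hw) 1 (by norm_num)
      rw [pow_one] at this
      simpa using sub_mem h this)
    have hq1 : ∀ w' ∈ S, hq w' δ (y : L) = if w' = w then hq w δ (z : L) else 0 := fun w' hw => by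
      have h := hC.lsq w' y (c w') 3 (h2 w') (hc w') (hy3 w' (Finset.mem_insert_of_mem hw) 3 le_rfl)
      have e : hq w' δ (y : L) = hq w' δ (c w' : L) :=
        hs_congr_right _ ((map_ne_zero _).2 y0') ((map_ne_zero _).2 (hc0 w'))
          (by rw [← map_mul]; exact h)
      rw [e]
      by_cases h' : w' = w
      · subst h'
        simp [c]
      · rw [if_neg h']
        exact hs_of_isSquare_right _ ⟨1, by simp [c, h']⟩
    have e1 : ∑ w' ∈ S, hq w' δ (y : L) = hq w δ (z : L) := by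
      rw [Finset.sum_congr rfl hq1, Finset.sum_ite_eq']
      split_ifs with h
      · rfl
      · have hg : Gd 𝔣 w := by_contra fun h' => h ((hS w).2 h')
        refine (hq_eq_zero w hg.1 δ0 ?_ (hev w hg) (by simp [og_zero hz])).symm
        simpa [c] using hc0 w
    have e2 : ∑ σ, (a σ : ZMod 2) * sq4 (t σ y) =
        ∑ σ with dw σ = w, (a σ : ZMod 2) * sq4 (t σ z) := by
      rw [Finset.sum_filter]
      refine Finset.sum_congr rfl fun σ _ => ?_
      have h := (hD.pow Y σ _ 2).1 (hy3 _ (Finset.mem_insert_of_mem (hdw σ)) 2 (by norm_num))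
      have e : sq4 (t σ y) = sq4 (t σ (c (dw σ))) := sq4_congr (by
        rw [← map_sub]
        refine le_trans (le_of_eq ?_) (h.trans (by norm_num))
        simp)
      rw [e]
      by_cases h' : dw σ = w
      · simp [c, h']
      · simp [c, h', sq4_one]
    rw [hxy, hform S hS y y0 hyn, e1, e2]
  refine ⟨δ, δ0, hk, fun w hw hw' => ?_, fun w x hx => ?_⟩
  · obtain ⟨x, hx, hx'⟩ := hH.loc H w hw'
    have hxw : x ∉ w.asIdeal :=
      (hC.cop_span x H.ne).1 ((H.zero x).1 (by rw [hx]; norm_num)) w hw'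
    have x0 : (x : L) ≠ 0 := fun h => hxw (by rw [show x = 0 by simpa using h]; exact zero_mem _)
    have h := key w x x hxw (by simp) hx'
    by_contra ho
    rw [hq_eq_zero w hw δ0 x0 (Int.not_odd_iff_even.1 ho) (by simp [og_zero hxw]), hx,
      Finset.sum_eq_zero fun σ hσ => by
        have := (hD.norm Y σ).2
        rw [(Finset.mem_filter.1 hσ).2, hw] at this
        exact absurd this zero_ne_one] at h
    simp at h
  · have h := key w x (-1) (by
      simpa using (Ideal.ne_top_iff_one _).1 w.isPrime.ne_top) (by simpa using hx.1) hx.2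
    rw [h]
    simp [sq4_neg]

end Pool.Agent.SC
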