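import Pool.Agent.Lib.MP_b4b3cb_nt.StC

/-! The character is nontrivial on the dyadic decomposition groups. -/

namespace Pool.Agent.SC

open NumberField Pool.Agent.Stark Filter
open scoped Classical Pointwise Topology

namespace F2Aux

/-- The principal units of a given level. -/
def U (k : ℕ) : Subgroup ℤ_[2]ˣ where
  carrier := {u | ‖((u : ℤ_[2]) : ℚ_[2]) - 1‖ < 1 / 2 ^ k}
  one_mem' := by simp
  mul_mem' := fun {u v} hu hv => by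
    have h1 : (((u * v : ℤ_[2]ˣ) : ℤ_[2]) : ℚ_[2]) - 1 =
        ((u : ℤ_[2]) : ℚ_[2]) * (((v : ℤ_[2]) : ℚ_[2]) - 1) + (((u : ℤ_[2]) : ℚ_[2]) - 1) := by
      push_cast
      ring
    have h2 : ‖((u : ℤ_[2]) : ℚ_[2])‖ = 1 := PadicInt.norm_units u
    rw [Set.mem_ofPred_eq, h1]
    refine (IsUltrametricDist.norm_add_le_max _ _).trans_lt (max_lt ?_ hu)
    rw [norm_mul, h2, one_mul]
    exact hv
  inv_mem' := fun {u} hu => by
    have h2 : ‖(((u⁻¹ : ℤ_[2]ˣ) : ℤ_[2]) : ℚ_[2])‖ = 1 := PadicInt.norm_units _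
    have h3 : (((u⁻¹ : ℤ_[2]ˣ) : ℤ_[2]) : ℚ_[2]) * ((u : ℤ_[2]) : ℚ_[2]) = 1 := by
      rw [← PadicInt.coe_mul, Units.inv_mul, PadicInt.coe_one]
    have h1 : (((u⁻¹ : ℤ_[2]ˣ) : ℤ_[2]) : ℚ_[2]) - 1 =
        -((((u⁻¹ : ℤ_[2]ˣ) : ℤ_[2]) : ℚ_[2]) * (((u : ℤ_[2]) : ℚ_[2]) - 1)) := by
      linear_combination h3
    rw [Set.mem_ofPred_eq, h1, norm_neg, norm_mul, h2, one_mul]
    exact hu

theorem U_open (k : ℕ) : IsOpen (U k : Set ℤ_[2]ˣ) := by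
  have h : Continuous fun u : ℤ_[2]ˣ => ((u : ℤ_[2]) : ℚ_[2]) :=
    (continuous_subtype_val (p := fun x : ℚ_[2] => ‖x‖ ≤ 1)).comp
      (Units.continuous_val (M := ℤ_[2]))
  exact isOpen_lt (h.sub continuous_const).norm continuous_const

theorem tend {f : ℕ → ℚ_[2]} {c : ℚ_[2]} (h : ∀ k, ‖f k - c‖ ≤ 1 / 2 ^ k) :
    Tendsto f atTop (𝓝 c) := by
  rw [tendsto_iff_norm_sub_tendsto_zero]
  refine squeeze_zero (fun _ => norm_nonneg _) h ?_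
  simpa using tendsto_pow_atTop_nhds_zero_of_lt_one (r := (1 / 2 : ℝ)) (by norm_num) (by norm_num)

theorem lim {κ : Type} [Fintype κ] (a : κ → ℤ) (c : κ → ℚ_[2]) (hc : ∀ i, c i ≠ 0)
    (y : ℕ → κ → ℚ_[2]) (u : ℕ → ℚ_[2]) (hy : ∀ i, Tendsto (fun k => y k i) atTop (𝓝 (c i)))
    (hu : Tendsto u atTop (𝓝 1)) (h : ∀ k, (∏ i, y k i ^ a i) ^ 2 = u k ^ 2) :
    (∏ i, c i ^ a i) ^ 2 = 1 := by
  have h1 : Tendsto (fun k => (∏ i, y k i ^ a i) ^ 2) atTop (𝓝 ((∏ i, c i ^ a i) ^ 2)) :=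
    (tendsto_finsetProd _ fun i _ => (hy i).zpow₀ _ (Or.inl (hc i))).pow 2
  have h2 : Tendsto (fun k => (∏ i, y k i ^ a i) ^ 2) atTop (𝓝 1) := by
    simpa [h] using hu.pow 2
  exact tendsto_nhds_unique h1 h2

variable {K L Ω : Type} [Field K] [NumberField K] [Field L] [NumberField L] [Algebra K L]
  [Field Ω] [Algebra K Ω] [Algebra L Ω] [IsScalarTower K L Ω]

omit [NumberField K] [Algebra K L] [IsScalarTower K L Ω] in
theorem rho_one {ι 𝔣 ψ} {ρ : (Ω ≃ₐ[K] Ω) → ℤ_[2]ˣ} {fr : Pr L → ℤ_[2]ˣ}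
    (hA : AT K ι 𝔣 ψ ρ fr) : ρ 1 = 1 := by
  have h := hA.mul 1 (one_mem _) 1 (one_mem _)
  rw [mul_one] at h
  exact (mul_eq_left.1 h.symm)

omit [NumberField K] [Algebra K L] [IsScalarTower K L Ω] in
theorem rho_inv {ι 𝔣 ψ} {ρ : (Ω ≃ₐ[K] Ω) → ℤ_[2]ˣ} {fr : Pr L → ℤ_[2]ˣ}
    (hA : AT K ι 𝔣 ψ ρ fr) {g} (hg : g ∈ Gs K Ω L) : ρ g⁻¹ = (ρ g)⁻¹ := by
  have h := hA.mul g hg g⁻¹ (inv_mem hg)
  rw [mul_inv_cancel, rho_one hA] at h
  exact (eq_inv_of_mul_eq_one_right h.symm)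

/-- The kernel of the character modulo `2 ^ k`. -/
def H {ι 𝔣 ψ} {ρ : (Ω ≃ₐ[K] Ω) → ℤ_[2]ˣ} {fr : Pr L → ℤ_[2]ˣ} (hA : AT K ι 𝔣 ψ ρ fr) (k : ℕ) :
    Subgroup (Ω ≃ₐ[K] Ω) where
  carrier := {g | g ∈ Gs K Ω L ∧ ρ g ∈ U k}
  one_mem' := ⟨one_mem _, by rw [rho_one hA]; exact one_mem _⟩
  mul_mem' := fun {g h} hg hh =>
    ⟨mul_mem hg.1 hh.1, by rw [hA.mul g hg.1 h hh.1]; exact mul_mem hg.2 hh.2⟩
  inv_mem' := fun {g} hg => ⟨inv_mem hg.1, by rw [rho_inv hA hg.1]; exact inv_mem hg.2⟩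

theorem key (hNrm : NrmSt K L Ω) (hNap : NapSt K L Ω) (hTrf : TrfSt K L Ω) (hAv : AvSt K L Ω)
    (hDy : DyPrSt) (hCn : CnSt) (hTop : TopSt K Ω)
    {d : K} {E : Quad K L d} {𝔣 a ψ χ ι t} {dw : (L →+* ℂ) → Pr L}
    {ρ : (Ω ≃ₐ[K] Ω) → ℤ_[2]ˣ} {fr} (hH : HD E 𝔣 a ψ χ) (hD : DY ι t dw) (hA : AT K ι 𝔣 ψ ρ fr)
    {𝔓 : Ideal (𝓞 Ω)} {σ₀ : L →+* ℂ} (hO : Over 𝔓 (dw σ₀))
    (h1 : ∀ g ∈ Dec K 𝔓 ⊓ Gs K Ω L, ρ g = 1) {h : ℕ} {π : 𝓞 L} (hπ : π ≠ 0)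
    (hh : (dw σ₀).asIdeal ^ h = Ideal.span {π}) (b : ℤ) (hb : ¬ (2 : ℤ) ∣ b) (k : ℕ) :
    ∃ (y : 𝓞 L) (u : ℚ_[2]), ‖u - 1‖ ≤ 1 / 2 ^ k ∧ p2 t a (y : L) ^ 2 = u ^ 2 ∧
      ‖t σ₀ y - b‖ ≤ 1 / 2 ^ k ∧ ∀ σ, σ ≠ σ₀ → ‖t σ π * t σ y - 1‖ ≤ 1 / 2 ^ k := by
  have hfd : FiniteDimensional K L := inferInstance
  have hop : IsOpen (H hA k : Set (Ω ≃ₐ[K] Ω)) :=
    hA.cont.isOpen_inter_preimage (hTop.gs_open L hfd) (U_open k)
  obtain ⟨M, hM, hG, hMH⟩ := hTrf.fld (H hA k) hop (fun g hg => hg.1) fun g hg x hx =>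
    ⟨mul_mem (mul_mem hg hx.1) (inv_mem hg), by
      rw [hA.mul _ (mul_mem hg hx.1) _ (inv_mem hg), hA.mul _ hg _ hx.1, rho_inv hA hg,
        mul_inv_cancel_comm]
      exact hx.2⟩
  have : NumberField M := NumberField.of_module_finite L M
  have : IsScalarTower K M Ω := IsScalarTower.of_algebraMap_eq fun x => by
    rw [IsScalarTower.algebraMap_apply K L Ω, IsScalarTower.algebraMap_apply K L M,
      ← IsScalarTower.algebraMap_apply L M Ω]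
  obtain ⟨S, hS⟩ := hAv.fin hH.ne
  obtain ⟨z, x, hz, hx, hxw, hxS⟩ := hNap M 𝔓 (dw σ₀) hO
    (fun g hg => by
      rw [hMH]
      exact ⟨hg.2, by rw [h1 g hg]; exact one_mem _⟩) (π * b) S (h + (k + 1))
  have hN := hNrm hA M k (fun g hg => by
    rw [hMH] at hg
    exact le_of_lt hg.2) z hz
  rw [pow_add, hh, Ideal.mem_span_singleton_mul] at hxw
  obtain ⟨c, hc, hcx⟩ := hxw
  have hxy : x = π * (b + c) := by linear_combination -hcx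
  have hle : ∀ m : ℕ, (1 : ℝ) / 2 ^ (m + (k + 1)) ≤ 1 / 2 ^ k := fun m =>
    one_div_le_one_div_of_le (by positivity) (pow_le_pow_right₀ (by norm_num) (by omega))
  have hng : ∀ σ, ¬ Gd 𝔣 (dw σ) := fun σ hg => by
    have := (hDy.norm hD σ).2
    rw [hg.1] at this
    exact zero_ne_one this
  have hyw : ∀ w, ¬ Gd 𝔣 w → (b + c : 𝓞 L) ∉ w.asIdeal := fun w hw hy => by
    by_cases e : w = dw σ₀
    · subst e
      have hc' : c ∈ (dw σ₀).asIdeal := Ideal.pow_le_self (by omega) hc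
      have hb' : ((b : ℤ) : 𝓞 L) ∈ (dw σ₀).asIdeal := by
        simpa using sub_mem hy hc'
      have := (hD.mem σ₀ _).1 hb'
      have e2 : t σ₀ (((b : ℤ) : 𝓞 L) : L) = (b : ℚ_[2]) := by simp
      rw [e2, Padic.norm_intCast_lt_one_iff] at this
      exact hb (by exact_mod_cast this)
    · have h2 : x - 1 ∈ w.asIdeal := Ideal.pow_le_self (by omega) (hxS w ((hS w).2 hw) e)
      have h3 : x ∈ w.asIdeal := by
        rw [hxy]
        exact Ideal.mul_mem_left _ _ hy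
      exact w.isPrime.ne_top ((Ideal.eq_top_iff_one _).2 (by simpa using sub_mem h3 h2))
  have hy0 : (b + c : 𝓞 L) ≠ 0 := fun e => hyw _ (hng σ₀) (e ▸ zero_mem _)
  have hπ1 : av fr (π : L) = 1 := hAv.bad hA _ fun w hw => by
    rw [← hCn.span hπ, ← hh, hCn.pow, if_neg]
    · rfl
    · rintro rfl
      exact hng σ₀ hw
  have hav : av fr (Algebra.norm L (z : M)) = av fr ((b + c : 𝓞 L) : L) := by
    rw [← hx, hxy, show ((π * (b + c) : 𝓞 L) : L) = (π : L) * ((b + c : 𝓞 L) : L) from rfl,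
      hAv.mul fr (RingOfIntegers.coe_ne_zero_iff.2 hπ) (RingOfIntegers.coe_ne_zero_iff.2 hy0),
      hπ1, one_mul]
  have hpr := hAv.prin hH hD hA (b + c) hy0 hyw
  rw [hav] at hN
  refine ⟨b + c, _, hN, ?_, ?_, fun σ hσ => ?_⟩
  · have hne : ((av fr ((b + c : 𝓞 L) : L) : ℤ_[2]) : ℚ_[2]) ≠ 0 := by
      rw [← norm_ne_zero_iff, show ‖((av fr ((b + c : 𝓞 L) : L) : ℤ_[2]) : ℚ_[2])‖ = 1 from
        PadicInt.norm_units _]
      exact one_ne_zero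
    rw [hpr] at hne ⊢
    rcases hH.val (b + c) with e | e | e
    · simp [e] at hne
    · simp [e]
    · simp [e]
  · have h2 := (hDy.pow hD σ₀ c (k + 1)).1 hc
    have e2 : t σ₀ ((b + c : 𝓞 L) : L) - b = t σ₀ (c : L) := by simp
    rw [e2]
    simpa using h2.trans (by simpa using hle 0)
  · have h2 := (hDy.pow hD σ (x - 1) _).1
      (hxS (dw σ) ((hS _).2 (hng σ)) fun e => hσ (hDy.inj hD e))
    have e2 : t σ π * t σ ((b + c : 𝓞 L) : L) - 1 = t σ ((x - 1 : 𝓞 L) : L) := by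
      rw [hxy]
      simp
    rw [e2]
    exact h2.trans (hle h)

end F2Aux

variable {K L Ω : Type} [Field K] [NumberField K] [Field L] [NumberField L] [Algebra K L]
  [Field Ω] [Algebra K Ω] [Algebra L Ω] [IsScalarTower K L Ω]

theorem st_F2 (hNrm : NrmSt K L Ω) (hNap : NapSt K L Ω) (hTrf : TrfSt K L Ω) (hAv : AvSt K L Ω)
    (hDy : DyPrSt) (hCn : CnSt) (hTop : TopSt K Ω) : F2St K L Ω := by
  intro d E 𝔣 a ψ χ ι t dw ρ fr hH hD hA 𝔓 w hO hw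
  by_contra hc
  have h1 : ∀ g ∈ Dec K 𝔓 ⊓ Gs K Ω L, ρ g = 1 := fun g hg => by
    by_contra e
    exact hc ⟨g, hg, e⟩
  obtain ⟨σ₀, rfl⟩ := hDy.surj hD w hw
  obtain ⟨h, π, hh0, hπ, hh⟩ := hCn.cls (dw σ₀).asIdeal (dw σ₀).ne_bot
  have hπ' : ∀ σ, t σ (π : L) ≠ 0 := fun σ =>
    (map_ne_zero _).2 (RingOfIntegers.coe_ne_zero_iff.2 hπ)
  have main : ∀ b : ℤ, ¬ (2 : ℤ) ∣ b →
      ((b : ℚ_[2]) ^ a σ₀ * ∏ σ ∈ Finset.univ.erase σ₀, (t σ (π : L))⁻¹ ^ a σ) ^ 2 = 1 := by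
    intro b hb
    choose y u hu hp hy0 hy using F2Aux.key hNrm hNap hTrf hAv hDy hCn hTop hH hD hA hO h1 hπ hh b hb
    have hb0 : (b : ℚ_[2]) ≠ 0 := by
      rintro e
      have : b = 0 := by exact_mod_cast e
      exact hb (this ▸ dvd_zero _)
    have := F2Aux.lim a (fun σ => if σ = σ₀ then (b : ℚ_[2]) else (t σ (π : L))⁻¹)
      (fun σ => by
        split_ifs
        · exact hb0
        · exact inv_ne_zero (hπ' σ))
      (fun k σ => t σ (y k : L)) u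
      (fun σ => by
        split_ifs with e
        · subst e
          exact F2Aux.tend hy0
        · have h2 := (F2Aux.tend fun k => hy k σ e).const_mul (t σ (π : L))⁻¹
          simpa [← mul_assoc, inv_mul_cancel₀ (hπ' σ)] using h2)
      (F2Aux.tend hu) hp
    rw [← Finset.mul_prod_erase _ _ (Finset.mem_univ σ₀), if_pos rfl] at this
    rw [← this]
    congr 2
    exact Finset.prod_congr rfl fun σ hσ => by rw [if_neg (Finset.ne_of_mem_erase hσ)]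
  have m1 := main 1 (by norm_num)
  have m5 := main 5 (by norm_num)
  rw [Int.cast_one, one_zpow, one_mul] at m1
  rw [mul_pow, m1, mul_one] at m5
  have ha : a σ₀ = 0 := by
    have h2 : (((5 : ℚ) ^ a σ₀) ^ 2 : ℚ) = 1 := by
      apply Rat.cast_injective (α := ℚ_[2])
      simpa using m5
    rw [← zpow_natCast, ← zpow_mul, zpow_eq_one_iff_right₀ (by norm_num) (by norm_num)] at h2
    omega
  have hp : p2 t a (π : L) ^ 2 = 1 := by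
    rw [p2, ← Finset.mul_prod_erase _ _ (Finset.mem_univ σ₀), ha, zpow_zero, one_mul]
    simp only [inv_zpow, Finset.prod_inv_distrib, inv_pow, inv_eq_one] at m1
    exact m1
  have h2 := hAv.wt hH.cm hD π hπ hp
  rw [← hh, map_pow, (hDy.norm hD σ₀).1] at h2
  exact hh0 ((Nat.pow_eq_one.1 h2).resolve_left (by norm_num))

end Pool.Agent.SC
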