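import Pool.Agent.Lib.MP_b4b3cb_nt.StR

/-! Factorisation of the root number into local factors; the factor at a split prime. -/

namespace Pool.Agent.SC

open NumberField Pool.Agent.Stark
open scoped Classical ComplexConjugate

namespace FacAux

variable {F : Type} [Field F] [NumberField F]

theorem eTr_sum {ι : Type} (P : Finset ι) (y : ι → F) :
    eTr (∑ q ∈ P, y q) = ∏ q ∈ P, eTr (y q) := by
  simp only [eTr, map_sum, Rat.cast_sum, Finset.mul_sum, Complex.exp_sum]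

theorem conj_eTr (x : F) : conj (eTr x) = eTr (-x) := by
  rw [eTr, eTr, ← Complex.exp_conj]
  congr 1
  simp only [map_mul, map_neg, Complex.conj_I, Complex.conj_ofReal, map_ratCast, map_ofNat,
    Rat.cast_neg]
  ring

omit [NumberField F] in
theorem chi_prod {χ : 𝓞 F → ℤ} (h1 : χ 1 = 1) (hm : ∀ x y, χ (x * y) = χ x * χ y) {ι : Type}
    (P : Finset ι) (y : ι → 𝓞 F) : χ (∏ q ∈ P, y q) = ∏ q ∈ P, χ (y q) := by
  induction P using Finset.induction_on with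
  | empty => simpa using h1
  | insert a s ha ih => rw [Finset.prod_insert ha, Finset.prod_insert ha, hm, ih]

theorem both (hC : CnSt) {𝔣 : Ideal (𝓞 F)} (h : 𝔣 ≠ ⊥) (e : Pr F → 𝓞 F) (S : Finset (Pr F))
    (he : ∀ w, Idm 𝔣 w (e w)) (hS : ∀ w ∉ S, ¬ 𝔣 ≤ w.asIdeal) (x : 𝓞 F) :
    x - ∏ w ∈ S, (1 + e w * (x - 1)) ∈ 𝔣 ∧ 1 - ∑ w ∈ S, e w ∈ 𝔣 := by
  rw [hC.mem h, hC.mem h, ← forall_and]
  intro v
  by_cases hv : v ∈ S
  · have h1 : Ideal.Quotient.mk (v.asIdeal ^ cn 𝔣 v) (e v) = 1 := by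
      rw [← map_one (Ideal.Quotient.mk (v.asIdeal ^ cn 𝔣 v)), Ideal.Quotient.eq]
      exact (he v).1
    have h0 : ∀ w, w ≠ v → Ideal.Quotient.mk (v.asIdeal ^ cn 𝔣 v) (e w) = 0 := fun w hw =>
      Ideal.Quotient.eq_zero_iff_mem.2 ((he w).2 v hw.symm)
    rw [← Ideal.Quotient.eq, ← Ideal.Quotient.eq, map_prod, map_sum,
      Finset.prod_eq_single_of_mem v hv fun w _ hw => by simp [h0 w hw],
      Finset.sum_eq_single_of_mem v hv fun w _ hw => h0 w hw]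
    simp [h1]
  · rw [(hC.zero h v).2 (hS v hv)]
    simp

end FacAux

variable {K L : Type} [Field K] [NumberField K] [Field L] [NumberField L] [Algebra K L]

theorem st_Fac (hC : CnSt) (hG : GsSt) (hT : TlSt K L) (_hH : HDSt K L) : FacSt K L := by
  intro d E 𝔣 𝔠 a ψ χ γ₀ hD hm e S he hS
  have h1 : tau0 𝔣 χ (algebraMap K L γ₀) = ∏ w ∈ S, tl 𝔣 χ (algebraMap K L γ₀) w (e w) := by
    refine Eq.trans ?_ (hG.crt S (cn 𝔣) (fun w x => (χ (1 + e w * (x - 1)) : ℂ) *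
      eTr (algebraMap K L γ₀ * (e w : L) * (x : L))) fun w _ => hT.per' hD hm (he w))
    rw [← hC.prod hD.ne S fun w hw => (hS w hw).1, tau0]
    congr 1
    funext x
    obtain ⟨h2, h3⟩ := FacAux.both hC hD.ne e S he (fun w hw => (hS w hw).1) x
    have h4 := hT.triv hm _ (𝔣.mul_mem_right x h3)
    rw [Finset.prod_mul_distrib, ← FacAux.eTr_sum, ← Int.cast_prod,
      ← FacAux.chi_prod hD.one hD.mul, ← hD.per _ _ h2, ← mul_one (eTr (∑ _w ∈ S, _)), ← h4,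
      ← eTr_add]
    congr 2
    simp only [map_mul, map_sub, map_one, map_sum, ← Finset.sum_mul, ← Finset.mul_sum]
    ring
  have h2 : ψ 𝔠 = ∏ w ∈ S, ψ w.asIdeal ^ cn 𝔠 w := by
    simp only [← map_pow, ← map_prod]
    exact congrArg ψ (hC.prod hm.ne' S fun w hw => (hS w hw).2)
  simp only [lw, Finset.prod_mul_distrib, inv_pow, Finset.prod_inv_distrib]
  rw [h1, h2]

theorem st_LocS (hC : CnSt) (hG : GsSt) (hQ : QdSt K L) (hH : HDSt K L) (hT : TlSt K L) :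
    LocSSt K L := by
  intro d E 𝔣 𝔠 a ψ χ γ₀ hD hm w e e' ε he he' hε
  have hne : w.asIdeal ^ cn 𝔣 w ≠ ⊥ := pow_ne_zero _ w.ne_bot
  have hI : Idm 𝔣 (E.act w) (E.sg e) := by
    refine ⟨?_, fun w' hw' => ?_⟩
    · rw [E.mem_act_pow, map_sub, map_one, hQ.sg_sg, (hH.act hD w).1]
      exact he.1
    · have := he.2 (E.act w') fun h => hw' (by rw [← h, hQ.act_act])
      rwa [E.mem_act_pow, (hH.act hD w').1] at this
  have h1 : tl 𝔣 χ (algebraMap K L γ₀) (E.act w) e' = tl 𝔣 χ (algebraMap K L γ₀) w e := by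
    rw [hT.congr hD hm he' hI, tl, tl, (hH.act hD w).1,
      ← hG.equiv E.sg hne (hT.per' hD hm he) fun x => E.mem_act_pow _]
    congr 1
    funext x
    rw [← (hH.sym hD).2 (1 + E.sg e * (x - 1)), ← hQ.tr_tau E]
    simp only [map_mul, map_add, map_sub, map_one, hQ.sg_sg, AlgEquiv.commutes]
    rw [← E.coe_sg, ← E.coe_sg, hQ.sg_sg]
  have h2 : tl 𝔣 χ (algebraMap K L γ₀) w e =
      sg ℂ ε * conj (tl 𝔣 χ (algebraMap K L γ₀) w e) := by
    have hu : IsCoprime (Ideal.span {(-1 : 𝓞 L)}) (w.asIdeal ^ cn 𝔣 w) := by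
      rw [Ideal.span_singleton_neg, Ideal.span_singleton_one, ← Ideal.one_eq_top]
      exact isCoprime_one_left
    rw [tl, ← hG.cj, ← hG.smul, ← hG.unit hne (hT.per' hD hm he) hu]
    congr 1
    funext x
    rw [hT.mul hD he, hε _ (hT.ng he), map_mul, FacAux.conj_eTr, map_intCast, Int.cast_mul,
      show ((sg ℤ ε : ℤ) : ℂ) = sg ℂ ε from map_sg (Int.castRingHom ℂ) ε, mul_assoc]
    congr 3
    simp
  have h3 : cn 𝔠 (E.act w) = cn 𝔠 w := by
    have := hQ.cn_act E hm.ne' w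
    rwa [hm.sym] at this
  have h4 : (ψ w.asIdeal)⁻¹ ^ cn 𝔠 w * (ψ (E.act w).asIdeal)⁻¹ ^ cn 𝔠 w =
      (Ideal.absNorm w.asIdeal : ℂ) ^ cn 𝔠 w := by
    by_cases h0 : cn 𝔠 w = 0
    · simp [h0]
    have hc : 𝔠 ≤ w.asIdeal := by
      by_contra h
      exact h0 ((hC.zero hm.ne' w).2 h)
    have hw : IsCoprime w.asIdeal 𝔣 := (hC.cop _ hD.ne).2 fun w' h5 h6 =>
      (hC.cop _ hD.ne).1 hm.cop w' h5 (hc.trans h6)
    rw [← mul_pow, ← mul_inv, hQ.act_ideal, (eq_inv_of_mul_eq_one_right (hD.dual _ w.ne_bot hw))]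
  refine ⟨‖tl 𝔣 χ (algebraMap K L γ₀) w e‖ ^ 2 * (Ideal.absNorm w.asIdeal : ℝ) ^ cn 𝔠 w,
    by positivity, ?_⟩
  rw [lw, lw, h1, h3, mul_mul_mul_comm, h4]
  nth_rw 2 [h2]
  push_cast
  rw [← Complex.mul_conj']
  ring

end Pool.Agent.SC
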