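import Pool.Agent.Lib.MP_b4b3cb_nt.StG
import Pool.Agent.Lib.MP_ca56d1_nt.EulerQuad

/-! Almost all inertia groups are small; characters are determined by Frobenius elements. -/

namespace Pool.Agent.SC

open NumberField Pool.Agent.Stark
open scoped Classical Pointwise Topology

variable {K Ω : Type} [Field K] [NumberField K] [Field Ω] [Algebra K Ω]

namespace FinAux

theorem fin_mem (x : 𝓞 Ω) (hx : x ≠ 0) :
    {q : Pr K | ∃ 𝔓 : Ideal (𝓞 Ω), Over 𝔓 q ∧ x ∈ 𝔓}.Finite := by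
  obtain ⟨n, hn, hn0⟩ := Submodule.exists_mem_ne_zero_of_ne_bot
    (Ideal.comap_ne_bot_of_integral_mem (R := ℤ) (I := Ideal.span {x}) hx
      (Ideal.mem_span_singleton_self x) (RingOfIntegers.isIntegral x))
  have h0 : (n : 𝓞 K) ≠ 0 := Int.cast_ne_zero.2 hn0
  refine (og_finite ((n : 𝓞 K) : K)).subset ?_
  rintro q ⟨𝔓, h𝔓, hx𝔓⟩
  refine ((og_pos_iff q h0).2 ((h𝔓.2 _).2 ?_)).ne'
  rw [map_intCast]
  exact (Ideal.span_singleton_le_iff_mem 𝔓).2 hx𝔓 (by simpa using Ideal.mem_comap.1 hn)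

omit [NumberField K] in
theorem fin_orbit [IsGalois K Ω] (hP : PrimeSt K Ω) (x : 𝓞 Ω) :
    {y : 𝓞 Ω | ∃ g : Ω ≃ₐ[K] Ω, g • x = y}.Finite := by
  refine Set.Finite.of_finite_image (f := fun y : 𝓞 Ω => (y : Ω))
    (((minpoly K (x : Ω)).rootSet_finite Ω).subset ?_) RingOfIntegers.coe_injective.injOn
  rintro _ ⟨_, ⟨g, rfl⟩, rfl⟩
  have hi : IsIntegral K (x : Ω) := Algebra.IsIntegral.isIntegral _
  rw [Polynomial.mem_rootSet]
  refine ⟨minpoly.ne_zero hi, ?_⟩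
  change Polynomial.aeval ((g • x : 𝓞 Ω) : Ω) _ = 0
  rw [hP.coe_smul, Polynomial.aeval_algHom_apply, minpoly.aeval, map_zero]

theorem fin_move [IsGalois K Ω] (hP : PrimeSt K Ω) (x : 𝓞 Ω) :
    {q : Pr K | ∃ 𝔓 : Ideal (𝓞 Ω), Over 𝔓 q ∧ ∃ g ∈ Ine K 𝔓, g • x ≠ x}.Finite := by
  refine (((fin_orbit hP x).subset (t := {y | (∃ g : Ω ≃ₐ[K] Ω, g • x = y) ∧ y ≠ x})
    fun y hy => hy.1).biUnion fun y hy => fin_mem (K := K) (y - x) (sub_ne_zero.2 hy.2)).subset ?_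
  rintro q ⟨𝔓, h𝔓, g, hg, hne⟩
  exact Set.mem_biUnion (x := g • x) ⟨⟨g, rfl⟩, hne⟩ ⟨𝔓, h𝔓, (hP.mem_ine 𝔓 g).1 hg x⟩

theorem dvd_iff (k : ℕ) (a : ℤ_[2]) :
    (2 : ℤ_[2]) ^ (k + 1) ∣ 2 ^ k * a ↔ PadicInt.toZMod a = 0 := by
  rw [pow_succ, mul_dvd_mul_iff_left (pow_ne_zero k two_ne_zero), ← RingHom.mem_ker,
    PadicInt.ker_toZMod, PadicInt.maximalIdeal_eq_span_p, Ideal.mem_span_singleton]
  rfl

/-- The next binary digit of a unit. -/
noncomputable def dig (k : ℕ) (u : ℤ_[2]ˣ) : ZMod 2 :=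
  if (2 : ℤ_[2]) ^ (k + 1) ∣ (u : ℤ_[2]) - 1 then 0 else 1

theorem dig_eq {k : ℕ} {u : ℤ_[2]ˣ} {a : ℤ_[2]} (h : (u : ℤ_[2]) - 1 = 2 ^ k * a) :
    dig k u = PadicInt.toZMod a := by
  rw [dig, h, dvd_iff]
  rcases zmod2_cases (PadicInt.toZMod a) with h | h <;> simp [h]

theorem dig_mul {k : ℕ} {u v : ℤ_[2]ˣ} (hu : (2 : ℤ_[2]) ^ (k + 1) ∣ (u : ℤ_[2]) - 1)
    (hv : (2 : ℤ_[2]) ^ (k + 1) ∣ (v : ℤ_[2]) - 1) :
    dig (k + 1) (u * v) = dig (k + 1) u + dig (k + 1) v := by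
  obtain ⟨a, ha⟩ := hu
  obtain ⟨b, hb⟩ := hv
  rw [dig_eq ha, dig_eq hb, dig_eq (a := a + b + 2 * (2 ^ k * a * b)) (by
    rw [Units.val_mul, eq_add_of_sub_eq ha, eq_add_of_sub_eq hb]; ring)]
  have h2 : PadicInt.toZMod (2 : ℤ_[2]) = 0 := by
    rw [map_ofNat]; rfl
  rw [map_add, map_add, map_mul, h2, zero_mul, add_zero]

theorem dig_cont (k : ℕ) : Continuous (dig k) := by
  have h1 : IsClopen {u : ℤ_[2]ˣ | (2 : ℤ_[2]) ^ (k + 1) ∣ (u : ℤ_[2]) - 1} := by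
    have h2 := (IsUltrametricDist.isClopen_closedBall (1 : ℤ_[2])
      (r := ((2 : ℕ) : ℝ) ^ (-((k + 1 : ℕ) : ℤ))) (by positivity)).preimage Units.continuous_val
    convert h2 using 1
    ext u
    rw [Set.mem_preimage, mem_closedBall_iff_norm, PadicInt.norm_le_pow_iff_mem_span_pow,
      Ideal.mem_span_singleton]
    rfl
  refine Continuous.if ?_ continuous_const continuous_const
  rw [h1.frontier_eq]
  exact fun _ h => h.elim

theorem two_dvd (u : ℤ_[2]ˣ) : (2 : ℤ_[2]) ^ (0 + 1) ∣ (u : ℤ_[2]) - 1 := by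
  have h := dvd_iff 0 ((u : ℤ_[2]) - 1)
  rw [pow_zero, one_mul] at h
  rw [h, map_sub, map_one]
  rcases zmod2_cases (PadicInt.toZMod (u : ℤ_[2])) with h | h
  · exact absurd h (u.isUnit.map _).ne_zero
  · rw [h, sub_self]

theorem eq_one {u : ℤ_[2]ˣ} (h : ∀ k, (2 : ℤ_[2]) ^ (k + 1) ∣ (u : ℤ_[2]) - 1) : u = 1 := by
  refine Units.ext (PadicInt.ext_of_toZModPow.1 fun n => ?_)
  rw [← sub_eq_zero, ← map_sub, ← RingHom.mem_ker, PadicInt.ker_toZModPow,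
    Ideal.mem_span_singleton]
  exact (pow_dvd_pow _ n.le_succ).trans (h n)

end FinAux

open FinAux

variable [IsAlgClosed Ω] [IsGalois K Ω] [CharZero Ω]

omit [IsAlgClosed Ω] in
theorem st_Fin (hT : TopSt K Ω) (hP : PrimeSt K Ω) : FinSt K Ω := by
  intro N hN
  obtain ⟨U, hU, -, hUN⟩ := hT.nhds N hN
  obtain ⟨F, hF, rfl⟩ := hT.field U hU
  let b := Module.finBasis K F
  have h1 : ∀ i, ∃ y ≠ (0 : ℤ), IsIntegral ℤ (y • (b i : Ω)) := fun i => by
    have h2 : IsAlgebraic ℚ (b i : Ω) :=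
      (Algebra.IsAlgebraic.isAlgebraic (R := K) (b i : Ω)).restrictScalars ℚ
    exact ((IsFractionRing.isAlgebraic_iff ℤ ℚ Ω).2 h2).exists_integral_multiple
  choose y hy0 hy using h1
  refine (Set.finite_iUnion fun i => fin_move hP (⟨_, hy i⟩ : 𝓞 Ω)).subset ?_
  rintro q ⟨𝔓, h𝔓, hq⟩
  by_contra hcon
  simp only [Set.mem_iUnion, Set.mem_ofPred_eq, not_exists, not_and, not_not] at hcon
  refine hq fun g hg => hUN fun x => ?_
  have h2 : ∀ i, g (b i : Ω) = b i := fun i => by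
    have h3 := congrArg (fun z : 𝓞 Ω => (z : Ω)) (hcon i 𝔓 h𝔓 g hg)
    simp only [hP.coe_smul] at h3
    have h4 : g (y i • (b i : Ω)) = y i • (b i : Ω) := h3
    rw [map_zsmul, zsmul_eq_mul, zsmul_eq_mul] at h4
    exact mul_left_cancel₀ (Int.cast_ne_zero.2 (hy0 i)) h4
  rw [← b.sum_repr x, map_sum, map_sum]
  refine Finset.sum_congr rfl fun i _ => ?_
  have e : algebraMap F Ω (b.repr x i • b i) = algebraMap K Ω (b.repr x i) * (b i : Ω) := by
    rw [Algebra.smul_def, map_mul, ← IsScalarTower.algebraMap_apply]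
    rfl
  rw [e, map_mul, g.commutes, h2]

omit [IsAlgClosed Ω] [IsGalois K Ω] [CharZero Ω] in
theorem st_Cheb (hT : TopSt K Ω) (hK : KumSt K Ω) (hFr : FrobSt K Ω) (hI : IneSt K Ω)
    (hP : PrimeSt K Ω) : ChebSt K Ω := by
  intro F _ _ _ _ _ θ S hc hm hθ
  have hfin : FiniteDimensional K F := Module.Finite.of_restrictScalars_finite ℚ K F
  have hcl := (Gs K Ω F).isClosed_of_isOpen (hT.gs_open F hfin)
  have key : ∀ k : ℕ, ∀ g ∈ Gs K Ω F, (2 : ℤ_[2]) ^ (k + 1) ∣ (θ g : ℤ_[2]) - 1 := by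
    intro k
    induction k with
    | zero => exact fun g _ => two_dvd _
    | succ k ih =>
      obtain ⟨r, hr0, hr, hf⟩ := hK.kum (Gs K Ω F) (fun g => dig (k + 1) (θ g)) hcl
        ⟨(dig_cont _).comp_continuousOn hc, fun g hg h hh => by
          simp only [hm g hg h hh]
          exact dig_mul (ih g hg) (ih h hh)⟩
      obtain ⟨b, hb⟩ := hT.gs_fix F _ hr
      have hb0 : b ≠ 0 := by
        rintro rfl
        exact pow_ne_zero 2 hr0 (hb.symm.trans (map_zero _))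
      have hsq : IsSquare b := by
        refine (density one_ne_zero hb0 (S ∪ (og_finite (2 : F)).toFinset ∪
          (og_finite b).toFinset) fun q hq _ => ?_).elim id (by rw [one_mul]; exact id)
        simp only [Finset.mem_union, Set.Finite.mem_toFinset, Set.mem_ofPred_eq, not_or,
          not_not] at hq
        obtain ⟨𝔓, h𝔓⟩ := hP.ex F q
        obtain ⟨g, hg, hfr⟩ := hFr.ex h𝔓
        refine (hI.leg h𝔓 hq.1.2 hb0 hb.symm (by rw [hq.2]; exact Even.zero) g hg hfr).1 ?_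
        have h1 := hf g hg
        simp only [hθ 𝔓 q hq.1.1 h𝔓 g hg hfr, dig, kr, Units.val_one, sub_self, dvd_zero,
          if_true] at h1
        by_contra h2
        rw [if_neg h2] at h1
        exact zero_ne_one h1
      obtain ⟨c, rfl⟩ := hsq
      intro g hg
      have h1 : g r = r := by
        rw [map_mul, ← sq] at hb
        rcases sq_eq_sq_iff_eq_or_eq_neg.1 hb.symm with h | h
        · rw [h]; exact hg c
        · rw [h, map_neg, hg c]
      have h2 := hf g hg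
      simp only [dig, kr, if_pos h1] at h2
      by_contra h3
      rw [if_neg h3] at h2
      exact one_ne_zero h2
  exact fun g hg => eq_one fun k => key k g hg

end Pool.Agent.SC
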