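import Pool.Agent.Lib.MP_b4b3cb_nt.StC

/-! From the big Galois group to the absolute Galois group of the CM field. -/

namespace Pool.Agent.SC

open NumberField Pool.Agent.Stark
open scoped Classical Pointwise

theorem exists_quad_cm (L : Type) [Field L] [NumberField L] [IsCMField L] :
    ∃ (d : maximalRealSubfield L) (E : Quad (maximalRealSubfield L) L d),
      E.tau = IsCMField.complexConj L := by
  obtain ⟨x, hx⟩ : ∃ x : L, IsCMField.complexConj L x ≠ x := by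
    by_contra h
    exact IsCMField.complexConj_ne_one L (AlgEquiv.ext fun x => not_not.1 fun h' => h ⟨x, h'⟩)
  have hr : IsCMField.complexConj L (x - IsCMField.complexConj L x) =
      -(x - IsCMField.complexConj L x) := by
    rw [map_sub, IsCMField.complexConj_apply_apply, neg_sub]
  have h0 : x - IsCMField.complexConj L x ≠ 0 := sub_ne_zero.2 hx.symm
  generalize x - IsCMField.complexConj L x = r at hr h0
  have hm : ∀ z : L, IsCMField.complexConj L z = z → z ∈ maximalRealSubfield L := fun z hz =>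
    (IsCMField.complexConj_eq_self_iff L z).1 hz
  refine ⟨⟨r ^ 2, hm _ (by rw [map_pow, hr, neg_sq])⟩, ⟨r, IsCMField.complexConj L, rfl, hr, ?_,
    fun z => ⟨⟨(z + IsCMField.complexConj L z) / 2, hm _ ?_⟩,
      ⟨(z - IsCMField.complexConj L z) / (2 * r), hm _ ?_⟩, ?_⟩⟩, rfl⟩
  · rintro ⟨s, hs⟩
    have h1 : r ^ 2 = (s : L) ^ 2 := by rw [sq (s : L)]; exact congrArg Subtype.val hs
    have h2 := IsCMField.complexConj_apply_eq_self L s
    have h3 : IsCMField.complexConj L r = r := by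
      rcases sq_eq_sq_iff_eq_or_eq_neg.1 h1 with h | h
      · rw [h]; exact h2
      · rw [h, map_neg]; exact congrArg Neg.neg h2
    rw [hr] at h3
    exact h0 (by linear_combination (-1 / 2 : L) * h3)
  · rw [map_div₀, map_add, IsCMField.complexConj_apply_apply, map_ofNat, add_comm]
  · rw [map_div₀, map_sub, IsCMField.complexConj_apply_apply, map_mul, map_ofNat, hr]
    field_simp
    ring
  · change z = (z + IsCMField.complexConj L z) / 2 + (z - IsCMField.complexConj L z) / (2 * r) * r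
    field_simp
    ring

variable {K L : Type} [Field K] [NumberField K] [Field L] [NumberField L] [Algebra K L]

theorem transfer (hP : PrimeSt K (AlgebraicClosure L)) (hF : FrobSt K (AlgebraicClosure L))
    (hCn : CnSt) (hDP : DyPrSt) (hQ : QChiSt K L) (hT : TrfSt K L (AlgebraicClosure L))
    (hM : MainGSt K L (AlgebraicClosure L)) {d : K} (E : Quad K L d) (ι : ℂ ≃+* PadicAlgCl 2)
    (hι : ∀ (σ : L →+* ℂ) (x : L), ι (σ x) ∈ (algebraMap ℚ_[2] (PadicAlgCl 2)).range)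
    {𝔣 : Ideal (𝓞 L)} {a : (L →+* ℂ) → ℤ} {ψ : Ideal (𝓞 L) →* ℂ} (hH : SignConj.IsHecke 𝔣 a ψ)
    (hC : CM E a) (hd : ∀ I : Ideal (𝓞 L), I ≠ ⊥ → IsCoprime I 𝔣 →
      ψ I * ψ (I.map E.sg) * Ideal.absNorm I = 1) (hS : SignConj.SignNeg a ψ)
    (ρ : SignConj.Gal L →* ℤ_[2]ˣ) (hρ : Continuous ρ) (hA : SignConj.Attached ι 𝔣 ψ ρ) :
    ∃ x : SignConj.Gal L → ℚ_[2], SignConj.IsSelmer ι a ρ x ∧ ¬ SignConj.CobOn ρ x ⊤ := by
  obtain ⟨t, dw, hY⟩ := hDP.ex ι hι
  obtain ⟨u, hu, hu'⟩ := hT.lift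
  have inj : Function.Injective fun g : SignConj.Gal L => g.restrictScalars K :=
    AlgEquiv.restrictScalars_injective K
  have hmem : ∀ g : SignConj.Gal L, g.restrictScalars K ∈ Gs K (AlgebraicClosure L) L :=
    fun g x => g.commutes x
  have hur : ∀ g : SignConj.Gal L, u (g.restrictScalars K) = g := fun g => inj (hu' _ (hmem g))
  have hsm : ∀ (g : SignConj.Gal L) (y : 𝓞 (AlgebraicClosure L)),
      g.restrictScalars K • y = g • y := fun _ _ => rfl
  have hus : ∀ g ∈ Gs K (AlgebraicClosure L) L, ∀ y : 𝓞 (AlgebraicClosure L), u g • y = g • y :=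
    fun g hg y => by rw [← hsm, hu' g hg]
  have hun : ∀ {𝔓 : Ideal (𝓞 (AlgebraicClosure L))} {w : Pr L}, Over 𝔓 w →
      𝔓.under (𝓞 L) = w.asIdeal := fun h => Ideal.ext fun x => (h.2 x).symm
  have hA' : ∀ {𝔓 : Ideal (𝓞 (AlgebraicClosure L))} {w : Pr L}, Over 𝔓 w → Gd 𝔣 w →
      (∀ g ∈ Ine K 𝔓 ⊓ Gs K (AlgebraicClosure L) L, ρ (u g) = 1) ∧
      ∀ g ∈ Gs K (AlgebraicClosure L) L, IsFr 𝔓 (Ideal.absNorm w.asIdeal) g →
        ι (ψ w.asIdeal) * algebraMap ℚ_[2] (PadicAlgCl 2) ((ρ (u g) : ℤ_[2]) : ℚ_[2]) = 1 := by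
    intro 𝔓 w h hw
    have h1 := hA 𝔓 h.1 ((hP.two h).2 hw.1) (by
      rw [hun h]
      refine (hCn.cop _ hH.1).2 fun w' h1 h2 => hw.2 ?_
      rwa [w.isMaximal.eq_of_le w'.isPrime.ne_top h2])
    rw [hun h] at h1
    refine ⟨fun g hg => h1.1 _ fun y => ?_, fun g hg hf => h1.2 _ fun y => ?_⟩
    · rw [hus g hg.2]
      exact (hP.mem_ine 𝔓 g).1 hg.1 y
    · rw [hus g hg]
      exact hf y
  choose 𝔔 h𝔔 using fun w : Pr L => hP.ex L w
  choose φ hφ hφ' using fun w : Pr L => hF.ex (h𝔔 w)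
  have hAT : AT K ι 𝔣 ψ (fun g => ρ (u g)) fun w => if Gd 𝔣 w then ρ (u (φ w)) else 1 := by
    refine ⟨hρ.comp_continuousOn hu, fun g hg h hh => ?_, fun 𝔓 w h hw => (hA' h hw).1,
      fun 𝔓 w h hw g hg hf => ?_, fun w hw => if_neg hw, fun w hw => ?_⟩
    · rw [← map_mul]
      refine congrArg ρ (inj ?_)
      change _ = (u g).restrictScalars K * (u h).restrictScalars K
      rw [hu' g hg, hu' h hh]
      exact hu' _ (mul_mem hg hh)
    · rw [if_pos hw]
      have h1 := (hA' h hw).2 g hg hf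
      have h2 := (hA' (h𝔔 w) hw).2 _ (hφ w) (hφ' w)
      have h3 := mul_left_cancel₀ (left_ne_zero_of_mul_eq_one h1) (h1.trans h2.symm)
      exact Units.ext (Subtype.ext ((algebraMap ℚ_[2] (PadicAlgCl 2)).injective h3))
    · rw [if_pos hw]
      exact (hA' (h𝔔 w) hw).2 _ (hφ w) (hφ' w)
  obtain ⟨χ, hD⟩ := hQ hH hC hd hY fun w hw => by
    rw [eq_inv_of_mul_eq_one_left (hAT.link w hw), ← map_inv₀]
    exact ⟨_, rfl⟩
  obtain ⟨ξ, h1, h2, h3, h4, h5⟩ := hM hD hY hAT hS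
  have hcob : ∀ {𝔓 : Ideal (𝓞 (AlgebraicClosure L))} {H : Subgroup (SignConj.Gal L)},
      (∀ g ∈ H, g.restrictScalars K ∈ Dec K 𝔓) →
      Cob (fun g => ρ (u g)) ξ (Dec K 𝔓 ⊓ Gs K (AlgebraicClosure L) L) →
      SignConj.CobOn ρ (fun g => ξ (g.restrictScalars K)) H := by
    rintro 𝔓 H hH' ⟨c, hc⟩
    refine ⟨c, fun g hg => ?_⟩
    have := hc _ ⟨hH' g hg, hmem g⟩
    simp only [hur] at this
    exact this
  refine ⟨fun g => ξ (g.restrictScalars K), ⟨h1.comp hT.cont, fun g h => ?_, fun 𝔓 h𝔓 =>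
    ⟨fun h => hcob (fun g hg => hP.le 𝔓 ((hP.mem_ine 𝔓 _).2 hg)) (h3 𝔓 h𝔓 h),
      fun σ hσ h => hcob (fun g hg => (hP.mem_dec 𝔓 _).2 fun y => ?_)
        (h4 𝔓 σ hσ ⟨h𝔓, fun y => ?_⟩)⟩⟩, ?_⟩
  · have := h2 _ (hmem g) _ (hmem h)
    simp only [hur] at this
    exact this
  · rw [hsm]
    conv_lhs => rw [← MulAction.mem_stabilizer_iff.1 hg]
    exact Ideal.smul_mem_pointwise_smul_iff
  · rw [hY.mem, ← PadicAlgCl.norm_extends, hY.emb]
    exact (h y).symm
  · rintro ⟨c, hc⟩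
    refine h5 ⟨c, fun g hg => ?_⟩
    have := hc (u g) trivial
    simp only [hu' g hg] at this
    exact this

end Pool.Agent.SC
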