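import Pool.Agent.Lib.MP_b4b3cb_nt.StF

/-! The Fourier transform of the harmonic Gaussian, and elementary facts. -/

namespace Pool.Agent.SC

open MeasureTheory MvPolynomial Complex
open scoped Classical ComplexConjugate Real

namespace FourAux

lemma int_one (n : ℕ) (c : ℂ) :
    Integrable fun x : ℝ => (x : ℂ) ^ n * cexp (-(π : ℂ) * (x : ℂ) ^ 2 + c * x) := by
  have h : ∀ d : ℂ, Integrable fun x : ℝ => ‖cexp (-(π : ℂ) * (x : ℂ) ^ 2 + d * x)‖ := fun d => by
    simpa using (integrable_cexp_quadratic (b := π) (by simpa using Real.pi_pos) d 0).norm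
  refine (((h (c + 1)).add (h (c - 1))).const_mul n.factorial).mono' (by fun_prop)
    (Filter.Eventually.of_forall fun x => ?_)
  have a : |x| ^ n ≤ n.factorial * (Real.exp x + Real.exp (-x)) := by
    have := Real.pow_div_factorial_le_exp |x| (abs_nonneg x) n
    rw [div_le_iff₀' (by positivity)] at this
    refine this.trans (mul_le_mul_of_nonneg_left ?_ (by positivity))
    have := Real.exp_pos x
    have := Real.exp_pos (-x)
    rcases abs_choice x with e | e <;> rw [e] <;> linarith
  have e1 : -(π : ℂ) * (x : ℂ) ^ 2 + (c + 1) * x = -(π : ℂ) * (x : ℂ) ^ 2 + c * x + x := by ring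
  have e2 : -(π : ℂ) * (x : ℂ) ^ 2 + (c - 1) * x =
      -(π : ℂ) * (x : ℂ) ^ 2 + c * x + ((-x : ℝ) : ℂ) := by push_cast; ring
  simp only [Pi.add_apply]
  rw [e1, e2, exp_add _ (x : ℂ), exp_add _ ((-x : ℝ) : ℂ), norm_mul, norm_mul, norm_mul,
    norm_exp_ofReal, norm_exp_ofReal, norm_pow, norm_real, Real.norm_eq_abs, ← mul_add,
    mul_left_comm, mul_comm]
  exact mul_le_mul_of_nonneg_left a (norm_nonneg _)

variable {ι : Type} [Fintype ι]

/-- The Gaussian with a linear term. -/
noncomputable def ga (c : ι → ℂ) (p : ι → ℝ) : ℂ :=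
  cexp (-(π : ℂ) * ∑ i, (p i : ℂ) ^ 2 + ∑ i, c i * p i)

lemma int_poly (c : ι → ℂ) (Q : MvPolynomial ι ℂ) :
    Integrable fun p : ι → ℝ => eval (fun i => (p i : ℂ)) Q * ga c p := by
  induction Q using MvPolynomial.induction_on' with
  | monomial α a =>
    refine ((Integrable.fintype_prod fun i => int_one (α i) (c i)).const_mul a).congr
      (Filter.Eventually.of_forall fun p => ?_)
    simp only [ga, eval_monomial, Finsupp.prod_fintype _ _ fun _ => pow_zero _, Finset.mul_sum,
      ← Finset.sum_add_distrib, exp_sum, Finset.prod_mul_distrib, mul_assoc]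
  | add P Q a b =>
    simp only [map_add, add_mul]
    exact a.add b

/-- The integral against the Gaussian. -/
noncomputable def L (c : ι → ℂ) : MvPolynomial ι ℂ →ₗ[ℂ] ℂ where
  toFun Q := ∫ p : ι → ℝ, eval (fun i => (p i : ℂ)) Q * ga c p
  map_add' P Q := by
    simp only [map_add, add_mul]
    exact integral_add (int_poly c P) (int_poly c Q)
  map_smul' a Q := by
    simp only [smul_eval, mul_assoc, RingHom.id_apply, smul_eq_mul]
    exact integral_const_mul _ _

omit [Fintype ι] in
lemma der_coord (p : ι → ℝ) (i j : ι) : HasDerivAt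
    (fun t : ℝ => (((p + t • (Pi.single i 1 : ι → ℝ)) j : ℝ) : ℂ)) ((Pi.single j 1 : ι → ℂ) i) 0 := by
  refine (((hasDerivAt_id (0 : ℝ)).mul_const ((Pi.single i 1 : ι → ℝ) j)).const_add
    (p j)).ofReal_comp.congr_deriv ?_
  by_cases h : i = j
  · simp [h]
  · simp [h, Ne.symm h]

omit [Fintype ι] in
lemma der_eval (Q : MvPolynomial ι ℂ) (p : ι → ℝ) (i : ι) :
    HasLineDerivAt ℝ (fun p : ι → ℝ => eval (fun i => (p i : ℂ)) Q)
      (eval (fun i => (p i : ℂ)) (pderiv i Q)) p (Pi.single i 1) := by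
  unfold HasLineDerivAt
  induction Q using MvPolynomial.induction_on with
  | C a => simpa using hasDerivAt_const (0 : ℝ) a
  | add P Q a b => simpa only [map_add] using a.fun_add b
  | mul_X Q j a =>
    simp only [map_mul, eval_X]
    refine (a.fun_mul (der_coord p i j)).congr_deriv ?_
    simp [pderiv_X, Pi.single_apply, mul_comm, add_comm, eq_comm, apply_ite (eval _)]

lemma der_ga (c : ι → ℂ) (p : ι → ℝ) (i : ι) :
    HasLineDerivAt ℝ (ga c) ((c i - 2 * π * p i) * ga c p) p (Pi.single i 1) := by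
  have e : ga c = fun p => cexp (eval (fun i => (p i : ℂ))
      (C (-(π : ℂ)) * ∑ j, X j ^ 2 + ∑ j, C (c j) * X j)) := by
    funext p
    simp [ga]
  rw [e]
  refine (HasDerivAt.cexp (der_eval _ p i)).congr_deriv ?_
  simp [pderiv_X, Pi.single_apply, apply_ite]
  ring

lemma parts (c : ι → ℂ) (Q : MvPolynomial ι ℂ) (i : ι) :
    2 * π * L c (X i * Q) = c i * L c Q + L c (pderiv i Q) := by
  have e : ∀ p : ι → ℝ, eval (fun i => (p i : ℂ)) Q * ((c i - 2 * π * p i) * ga c p) =
      eval (fun i => (p i : ℂ)) (c i • Q - (2 * π : ℂ) • (X i * Q)) * ga c p := fun p => by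
    simp only [map_sub, smul_eval, map_mul, eval_X]
    ring
  have := integral_bilinear_hasLineDerivAt_right_eq_neg_left_of_integrable (μ := volume)
    (B := ContinuousLinearMap.mul ℝ ℂ) (int_poly c (pderiv i Q))
    (by simpa only [ContinuousLinearMap.mul_apply', e] using int_poly c _) (int_poly c Q)
    (fun p _ => der_eval Q p i) fun p _ => der_ga c p i
  simp only [ContinuousLinearMap.mul_apply', e] at this
  change L c _ = -L c _ at this
  rw [map_sub, map_smul, map_smul, smul_eq_mul, smul_eq_mul] at this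
  linear_combination -this

variable {κ : Type} [Fintype κ]

/-- The antiholomorphic coordinates. -/
noncomputable def Z (k : κ) : MvPolynomial (κ ⊕ κ) ℂ := X (.inl k) - C I * X (.inr k)

/-- Antiholomorphic polynomials. -/
def Har (Q : MvPolynomial (κ ⊕ κ) ℂ) : Prop :=
  ∀ k, pderiv (.inl k) Q = C I * pderiv (.inr k) Q

omit [Fintype κ] in
lemma Har.mul {P Q : MvPolynomial (κ ⊕ κ) ℂ} (h : Har P) (h' : Har Q) : Har (P * Q) := fun k => by
  simp only [Derivation.leibniz, smul_eq_mul, h k, h' k]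
  ring

omit [Fintype κ] in
lemma har_Z (j : κ) : Har (Z j) := fun k => by
  by_cases h : j = k
  · simp [Z, pderiv_X, h, ← C_mul]
  · simp [Z, pderiv_X, h]

lemma step (c : κ ⊕ κ → ℂ) {Q : MvPolynomial (κ ⊕ κ) ℂ} (h : Har Q) (k : κ) :
    L c (Z k * Q) = (c (.inl k) - I * c (.inr k)) / (2 * π) * L c Q := by
  have a := parts c Q (.inl k)
  have b := parts c Q (.inr k)
  have : (π : ℂ) ≠ 0 := by simp
  rw [h k, C_mul', map_smul, smul_eq_mul] at a
  rw [Z, sub_mul, mul_assoc, C_mul', map_sub, map_smul, smul_eq_mul]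
  field_simp
  linear_combination a - I * b

lemma step_pow (c : κ ⊕ κ → ℂ) {Q : MvPolynomial (κ ⊕ κ) ℂ} (h : Har Q) (k : κ) (n : ℕ) :
    Har (Z k ^ n * Q) ∧
      L c (Z k ^ n * Q) = ((c (.inl k) - I * c (.inr k)) / (2 * π)) ^ n * L c Q := by
  induction n with
  | zero => simpa using h
  | succ n ih =>
    rw [pow_succ', mul_assoc, step c ih.1, ih.2, pow_succ', mul_assoc]
    exact ⟨(har_Z k).mul ih.1, rfl⟩

lemma step_prod (c : κ ⊕ κ → ℂ) (m : κ → ℕ) (s : Finset κ) : Har (∏ k ∈ s, Z k ^ m k) ∧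
    L c (∏ k ∈ s, Z k ^ m k) =
      (∏ k ∈ s, ((c (.inl k) - I * c (.inr k)) / (2 * π)) ^ m k) * L c 1 := by
  induction s using Finset.induction_on with
  | empty => simp [Har]
  | insert a s h ih =>
    rw [Finset.prod_insert h, Finset.prod_insert h, (step_pow c ih.1 a _).2, ih.2, mul_assoc]
    exact ⟨(step_pow c ih.1 a _).1, rfl⟩

end FourAux

open FourAux

theorem st_Four : FourSt := by
  intro κ _ m w
  have hπ : (π : ℂ) ≠ 0 := by simp
  have a := (step_prod (fun i => -(2 * π * I) * w i) m Finset.univ).2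
  have b : L (fun i => -(2 * π * I) * w i) (1 : MvPolynomial (κ ⊕ κ) ℂ) =
      cexp (-(π : ℂ) * ∑ i, (w i : ℂ) ^ 2) := by
    have := GaussianFourier.integral_cexp_neg_mul_sum_add (b := π) (by simpa using Real.pi_pos)
      fun i => -(2 * π * I) * w i
    rw [div_self hπ, one_cpow, one_mul] at this
    simp only [L, LinearMap.coe_mk, AddHom.coe_mk, map_one, one_mul, ga, this, mul_pow,
      ← Finset.mul_sum, neg_sq, I_sq]
    congr 1
    field_simp
    ring
  rw [b] at a
  convert a using 1
  · refine integral_congr_ae (Filter.Eventually.of_forall fun p => ?_)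
    simp only [fm, ga, Z, map_prod, map_pow, map_sub, map_mul, eval_X, eval_C, exp_add,
      ofReal_sum, ofReal_mul, Finset.mul_sum, mul_assoc, mul_comm I]
    ring
  · rw [fm, ← mul_assoc, ← Finset.prod_pow_eq_pow_sum, ← Finset.prod_mul_distrib]
    congr 1
    refine Finset.prod_congr rfl fun k _ => ?_
    rw [← mul_pow]
    congr 1
    field_simp
    ring

theorem st_Fz : FzSt where
  fm_co m y z := by
    have h2 : ((√2 : ℝ) : ℂ) ≠ 0 := by simp
    have h3 : ((√2 : ℝ) : ℂ) ^ 2 = 2 := by rw [← ofReal_pow, Real.sq_sqrt zero_le_two]; rfl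
    simp only [fz, fm, co, Fintype.sum_sum_type, Sum.elim_inl, Sum.elim_inr, id,
      ← Finset.sum_add_distrib, Finset.mul_sum, exp_sum, Real.exp_sum, ← Finset.prod_pow_eq_pow_sum,
      ← Finset.prod_div_distrib, ofReal_prod, ← Finset.prod_mul_distrib]
    refine Finset.prod_congr rfl fun k _ => ?_
    have e : ((Real.exp (y k) * (√2 * (z k).re) : ℝ) : ℂ) -
        ((Real.exp (y k) * (√2 * (z k).im) : ℝ) : ℂ) * I =
          cexp (y k) * (√2 : ℝ) * conj (z k) := by
      conv_rhs => rw [← re_add_im (z k)]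
      simp only [map_add, map_mul, conj_ofReal, conj_I]
      push_cast
      ring
    have e2 : ((‖z k‖ : ℝ) : ℂ) ^ 2 = ((z k).re : ℂ) ^ 2 + ((z k).im : ℂ) ^ 2 := by
      rw [← ofReal_pow, Complex.sq_norm, normSq_apply]
      push_cast
      ring
    rw [e]
    push_cast
    rw [sub_eq_add_neg, exp_add, add_mul, one_mul, exp_add, exp_nat_mul, two_mul (y k : ℂ),
      exp_add, e2]
    simp only [mul_pow, h3]
    field_simp
  scale m y α z h := by
    simp only [fz, pz, ← Finset.prod_mul_distrib]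
    refine Finset.prod_congr rfl fun k _ => ?_
    have a : 0 < ‖α k‖ := norm_pos_iff.2 (h k)
    have b : ((‖α k‖ : ℝ) : ℂ) ≠ 0 := ofReal_ne_zero.2 a.ne'
    have e : Real.exp ((m k + 1) * (y k + Real.log ‖α k‖) -
        2 * π * ‖z k‖ ^ 2 * Real.exp (2 * (y k + Real.log ‖α k‖))) = ‖α k‖ ^ (m k + 1) *
        Real.exp ((m k + 1) * y k - 2 * π * ‖α k * z k‖ ^ 2 * Real.exp (2 * y k)) := by
      have e1 : ∀ n : ℕ, ‖α k‖ ^ n = Real.exp (n * Real.log ‖α k‖) := fun n => by
        rw [Real.exp_nat_mul, Real.exp_log a]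
      rw [e1, ← Real.exp_add, norm_mul, mul_pow, e1 2, mul_add 2, Real.exp_add]
      congr 1
      push_cast
      ring
    rw [e, map_mul, mul_pow, ofReal_mul, ofReal_pow]
    field_simp
  zero := fun m y ⟨k, h⟩ => Finset.prod_eq_zero (Finset.mem_univ k) (by simp [h])
  co_add z z' := by
    funext i
    rcases i with k | k <;> simp [co, mul_add]
  co_dot z z' := by
    simp only [co, Fintype.sum_sum_type, Sum.elim_inl, Sum.elim_inr, ← Finset.sum_add_distrib]
    refine Finset.sum_congr rfl fun k _ => ?_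
    have := Real.mul_self_sqrt zero_le_two
    simp only [mul_re, conj_re, conj_im]
    linear_combination ((z k).re * (z' k).re + (z k).im * (z' k).im) * this
  pz_mul m α z := by
    simp only [pz, ← Finset.prod_mul_distrib, map_mul, norm_mul, ofReal_mul, mul_pow,
      div_mul_div_comm]
  norm_pz m z h := by
    simp only [pz, norm_prod, ← Finset.prod_pow, ← Finset.prod_mul_distrib]
    refine Finset.prod_eq_one fun k _ => ?_
    have a : ‖z k‖ ≠ 0 := norm_ne_zero_iff.2 (h k)
    simp only [norm_div, norm_pow, RCLike.norm_conj, norm_real, norm_norm]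
    field_simp
    ring

end Pool.Agent.SC
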