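import Pool.Agent.Lib.MP_b4b3cb_nt.StG

/-! Frobenius elements and the cyclotomic character. -/

namespace Pool.Agent.SC

open NumberField Pool.Agent.Stark
open scoped Classical Pointwise Topology

variable {K Ω : Type} [Field K] [Field Ω] [Algebra K Ω]

namespace FrobAux

/-- Automorphisms of the residue field lift. -/
theorem lift [IsGalois K Ω] {F : Type} [Field F] [Algebra K F] [Algebra F Ω] [IsScalarTower K F Ω]
    (P : Ideal (𝓞 F)) (𝔓 : Ideal (𝓞 Ω)) [𝔓.IsPrime] [𝔓.LiesOver P]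
    (σ : (𝓞 Ω ⧸ 𝔓) ≃ₐ[𝓞 F ⧸ P] 𝓞 Ω ⧸ 𝔓) : ∃ h ∈ Dec K 𝔓 ⊓ Gs K Ω F, ∀ x : 𝓞 Ω,
      Ideal.Quotient.mk 𝔓 (h • x) = σ (Ideal.Quotient.mk 𝔓 x) := by
  have : IsGalois F Ω := IsGalois.tower_top_of_isGalois K F Ω
  let _ : TopologicalSpace (𝓞 Ω) := ⊥
  have : DiscreteTopology (𝓞 Ω) := ⟨rfl⟩
  have : ContinuousSMul (Ω ≃ₐ[F] Ω) (𝓞 Ω) := continuousSMul_iff_stabilizer_isOpen.2 fun x => by
    convert stabilizer_isOpen_of_isIntegral (K := F) (x : Ω) using 2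
    ext g
    exact RingOfIntegers.ext_iff
  have : SMulCommClass (Ω ≃ₐ[F] Ω) (𝓞 F) (𝓞 Ω) := ⟨fun g a x => by
    have e : g • algebraMap (𝓞 F) (𝓞 Ω) a = algebraMap (𝓞 F) (𝓞 Ω) a :=
      RingOfIntegers.ext (g.commutes a)
    rw [Algebra.smul_def, Algebra.smul_def, smul_mul', e]⟩
  have : Algebra.IsInvariant (𝓞 F) (𝓞 Ω) (Ω ≃ₐ[F] Ω) := ⟨fun x hx => by
    obtain ⟨a, ha⟩ := (InfiniteGalois.mem_range_algebraMap_iff_fixed (k := F) (x : Ω)).2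
      fun g => congrArg RingOfIntegers.val (hx g)
    exact ⟨⟨a, (isIntegral_algebraMap_iff (algebraMap F Ω).injective).1
      (ha ▸ RingOfIntegers.isIntegral_coe x)⟩, RingOfIntegers.ext ha⟩⟩
  obtain ⟨h, hh⟩ := Ideal.Quotient.stabilizerHom_surjective_of_profinite (G := Ω ≃ₐ[F] Ω) P 𝔓 σ
  refine ⟨h.1.restrictScalars K, ⟨h.2, h.1.commutes⟩, fun x => ?_⟩
  rw [← hh]
  rfl

variable [IsAlgClosed Ω] [CharZero Ω]

theorem spec (g : Ω ≃ₐ[K] Ω) {k : ℕ} {t : Ω} (ht : t ^ 2 ^ k = 1) :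
    g t = t ^ ((cyc K Ω g : ℤ_[2]).toZModPow k).val :=
  cyclotomicCharacter.spec 2 (MulSemiringAction.toRingAut (Ω ≃ₐ[K] Ω) Ω g) t ht

theorem modEq {R : Type} [CommRing R] (h2 : (2 : R) ≠ 0) {x : R} {k a b : ℕ}
    (hx : x ^ 2 ^ k = -1) (h : x ^ a = x ^ b) : a ≡ b [MOD 2 ^ (k + 1)] := by
  have h1 : x ^ 2 ^ (k + 1) = 1 := by rw [pow_succ, pow_mul, hx]; simp
  have h0 : ¬ x ^ 2 ^ k = 1 := fun e => h2 (by rw [hx] at e; linear_combination -e)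
  rw [← orderOf_eq_prime_pow h0 h1]
  exact (isOfFinOrder_iff_pow_eq_one.2 ⟨_, by positivity, h1⟩).pow_eq_pow_iff_modEq.1 h

theorem key {R : Type} [CommRing R] (h2 : (2 : R) ≠ 0) (ψ : 𝓞 Ω →+* R) (g : Ω ≃ₐ[K] Ω)
    (c : ℤ_[2]) (h : ∀ k, ∃ m : ℕ, c.toZModPow k = m ∧
      ∀ x : 𝓞 Ω, x ^ 2 ^ k = 1 → ψ (g • x) = ψ x ^ m) : (cyc K Ω g : ℤ_[2]) = c := by
  refine PadicInt.ext_of_toZModPow.1 fun k => ?_
  rcases k with _ | k
  · exact Subsingleton.elim (α := ZMod 1) _ _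
  obtain ⟨m, hm, h⟩ := h (k + 1)
  obtain ⟨t, ht⟩ := IsAlgClosed.exists_pow_nat_eq (-1 : Ω) (n := 2 ^ k) (by positivity)
  have h1 : t ^ 2 ^ (k + 1) = 1 := by rw [pow_succ, pow_mul, ht]; simp
  let x : 𝓞 Ω := ⟨t, IsIntegral.of_pow (n := 2 ^ (k + 1)) (by positivity) (h1 ▸ isIntegral_one)⟩
  have e : g • x = x ^ ((cyc K Ω g : ℤ_[2]).toZModPow (k + 1)).val :=
    RingOfIntegers.ext (spec g h1)
  have := h x (RingOfIntegers.ext h1)
  rw [e, map_pow] at this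
  rw [hm, ← (ZMod.natCast_eq_natCast_iff _ _ _).2 (modEq h2 (k := k) ?_ this), ZMod.natCast_zmod_val]
  rw [← map_pow, show x ^ 2 ^ k = -1 from RingOfIntegers.ext ht, map_neg, map_one]

theorem cyc_fr {𝔓 : Ideal (𝓞 Ω)} {n : ℕ} {g : Ω ≃ₐ[K] Ω} (h2 : (2 : 𝓞 Ω) ∉ 𝔓)
    (h : IsFr 𝔓 n g) : (cyc K Ω g : ℤ_[2]) = n :=
  key (R := 𝓞 Ω ⧸ 𝔓) (fun e => h2 (Ideal.Quotient.eq_zero_iff_mem.1 e)) (Ideal.Quotient.mk 𝔓) g n
    fun _ => ⟨n, map_natCast _ _, fun x _ => Ideal.Quotient.eq.2 (h x)⟩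

end FrobAux

open FrobAux in
theorem st_Frob [IsAlgClosed Ω] [IsGalois K Ω] [CharZero Ω] (hP : PrimeSt K Ω) : FrobSt K Ω := by
  have dec : ∀ {𝔓 : Ideal (𝓞 Ω)} {n : ℕ} {g : Ω ≃ₐ[K] Ω}, 𝔓.IsMaximal → n ≠ 0 → IsFr 𝔓 n g →
      g ∈ Dec K 𝔓 := fun {𝔓 n g} hm hn h => (hP.mem_dec _ _).2 fun x => by
    rw [← hm.isPrime.pow_mem_iff_mem (r := x) n (Nat.pos_of_ne_zero hn)]
    exact ⟨fun e => by simpa using 𝔓.sub_mem e (h x), fun e => by simpa using 𝔓.add_mem (h x) e⟩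
  have ine : ∀ {𝔓 : Ideal (𝓞 Ω)} {g g' : Ω ≃ₐ[K] Ω},
      (∀ x, Ideal.Quotient.mk 𝔓 (g • x) = Ideal.Quotient.mk 𝔓 (g' • x)) → g * g'⁻¹ ∈ Ine K 𝔓 :=
    fun {𝔓 g g'} h => (hP.mem_ine _ _).2 fun x => by
      have := Ideal.Quotient.eq.1 (h (g'⁻¹ • x))
      rwa [smul_inv_smul, ← mul_smul] at this
  refine ⟨fun {F _ _ _ _ _ 𝔓 q} h => ?_, fun {F _ _ _ _ _ 𝔓} hm g hg h => ?_, dec,
    fun h h' => ine fun x => (Ideal.Quotient.eq.2 (h x)).trans (Ideal.Quotient.eq.2 (h' x)).symm,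
    fun {𝔓 n g} _ _ h k => ?_, fun _ h2 h => cyc_fr h2 h, fun {𝔓 g} _ h2 h => ?_,
    fun {j g} h => ?_, fun {r} hr g => ?_⟩
  · have := h.1
    have : 𝔓.LiesOver q.asIdeal := ⟨Ideal.ext h.2⟩
    have := q.isMaximal
    let _ := Ideal.Quotient.field 𝔓
    let _ := Ideal.Quotient.field q.asIdeal
    have : Finite (𝓞 F ⧸ q.asIdeal) := Ideal.finiteQuotientOfFreeOfNeBot _ q.ne_bot
    let _ := Fintype.ofFinite (𝓞 F ⧸ q.asIdeal)
    obtain ⟨g, hg, e⟩ := lift (K := K) q.asIdeal 𝔓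
      (FiniteField.frobeniusAlgEquivOfAlgebraic (𝓞 F ⧸ q.asIdeal) (𝓞 Ω ⧸ 𝔓))
    refine ⟨g, hg.2, fun x => Ideal.Quotient.eq.1 ?_⟩
    rw [e, FiniteField.coe_frobeniusAlgEquivOfAlgebraic, map_pow, Ideal.absNorm_apply,
      Submodule.cardQuot_apply, Nat.card_eq_fintype_card]
  · have := hm
    obtain ⟨g', hg', e⟩ := lift (K := K) (𝔓.under (𝓞 F)) 𝔓 (AlgEquiv.ofRingEquiv
      (f := Ideal.quotientEquiv 𝔓 𝔓 (MulSemiringAction.toRingEquiv _ (𝓞 Ω) g) (Eq.symm hg))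
      fun y => by
        obtain ⟨y, rfl⟩ := Ideal.Quotient.mk_surjective y
        exact Ideal.Quotient.eq.2 (h y))
    exact ⟨g', hg', ine fun x => (e x).symm⟩
  · induction k with
    | zero => exact fun x => by simp
    | succ k ih =>
      refine fun x => Ideal.Quotient.eq.1 ?_
      rw [pow_succ, mul_smul, Ideal.Quotient.eq.2 (ih _), map_pow, Ideal.Quotient.eq.2 (h x),
        ← map_pow, ← pow_mul, pow_succ']
  · exact Units.ext ((cyc_fr (n := 1) h2 fun x => by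
      rw [pow_one]; exact (hP.mem_ine _ _).1 h x).trans Nat.cast_one)
  · refine Units.ext (key two_ne_zero (j.comp (algebraMap (𝓞 Ω) Ω)) g (-1) fun k =>
      ⟨2 ^ k - 1, ?_, fun x hx => ?_⟩)
    · rw [Nat.cast_pred (by positivity), map_neg, map_one, ZMod.natCast_self, zero_sub]
    · have h1 : j x ^ 2 ^ k = 1 := by
        rw [← map_pow, RingOfIntegers.val, ← map_pow, hx, map_one, map_one]
      refine (h x).trans ?_
      rw [← Complex.inv_eq_conj (Complex.norm_eq_one_of_pow_eq_one h1 (by positivity))]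
      refine inv_eq_of_mul_eq_one_left ?_
      exact (pow_sub_one_mul (by positivity) _).trans h1
  · have h1 : r ^ 2 ^ 2 = 1 := by rw [show 2 ^ 2 = 2 * 2 from rfl, pow_mul, hr]; simp
    have : ‖((cyc K Ω g : ℤ_[2]) : ℚ_[2]) - 1‖ ≤ 1 / 4 ↔ g r = r := by
      have e := PadicInt.norm_le_pow_iff_mem_span_pow ((cyc K Ω g : ℤ_[2]) - 1) 2
      rw [← PadicInt.ker_toZModPow, RingHom.mem_ker, map_sub, map_one, sub_eq_zero] at e
      rw [spec g h1]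
      refine Iff.trans ?_ (e.trans ⟨fun a => ?_, fun a => ?_⟩)
      · rw [PadicInt.norm_def]
        norm_num
      · rw [a]
        exact pow_one r
      · have := modEq two_ne_zero (k := 1) (b := 1) hr (a.trans (pow_one r).symm)
        rw [← ZMod.natCast_zmod_val (PadicInt.toZModPow 2 _),
          (ZMod.natCast_eq_natCast_iff _ _ _).2 this, Nat.cast_one]
    simp only [sg4, kr, this]

end Pool.Agent.SC
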