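import Pool.Agent.Lib.MP_b4b3cb_nt.StB

/-! The formula of Greenberg and Wiles. -/

namespace Pool.Agent.SC

open scoped Classical
open Module

namespace GWAux

variable {G P : Type} [Group G] [TopologicalSpace G]

lemma res_of {D : Subgroup G} {f : G → ZMod 2} (h : f ∈ Hm D) : res D f = f :=
  funext fun g => by
    unfold res
    split_ifs with a
    exacts [rfl, (h.2 g a).symm]

omit [TopologicalSpace G] in
lemma res_eq {D : Subgroup G} (f : G → ZMod 2) : ∀ g ∈ D, res D f g = f g :=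
  fun _ hg => if_pos hg

lemma good (hZ : ZSt) {χ : G →* ℤ_[2]ˣ} {R : Rp χ} {D I : Subgroup G} {dy : Prop} (le : I ≤ D)
    (h : R.Good D I dy) (i : ℤ) {f : G → ZMod 2} (hf : Hom D f) :
    res D f ∈ R.W D dy i ↔ ∀ g ∈ I, f g = 0 := by
  refine ⟨fun a g hg => ?_, (h i).2 f hf⟩
  obtain ⟨t, t1, t2⟩ := (hZ.mem_W R D dy i _).1 a
  have := congrFun t2 g
  rw [res_eq _ g (le hg), res_eq _ g (le hg), (h i).1 t t1 g hg] at this
  exact this.trans (if_pos (zero_mem _))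

/-- Global homomorphisms that are unramified outside `S`. -/
def Un (A : AD G P) (S : Finset P) : Submodule (ZMod 2) (G → ZMod 2) where
  carrier := {y | Hom ⊤ y ∧ ∀ v ∉ S, ∀ g ∈ A.I v, y g = 0}
  add_mem' := fun {a b} ha hb => ⟨((Hm ⊤).add_mem ⟨ha.1, by simp⟩ ⟨hb.1, by simp⟩).1,
    fun v hv g hg => by simp [ha.2 v hv g hg, hb.2 v hv g hg]⟩
  zero_mem' := ⟨(Hm ⊤).zero_mem.1, fun _ _ _ _ => rfl⟩
  smul_mem' := fun c a ha => ⟨((Hm ⊤).smul_mem c ⟨ha.1, by simp⟩).1,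
    fun v hv g hg => by simp [ha.2 v hv g hg]⟩

end GWAux

open GWAux in
theorem st_GW (hZ : ZSt) (hS : SelSt) (hL : LagSt) : GWSt := by
  intro G P _ _ _ A R dy S₀ st
  have hom : ∀ {y : G → ZMod 2}, Hom ⊤ y → ∀ v, Hom (A.D v) y := fun h v => hZ.hom_mono h le_top
  have gd : ∀ v ∉ S₀, ∀ i, ∀ {f}, Hom (A.D v) f →
      (res (A.D v) f ∈ R.W (A.D v) (dy v) i ↔ ∀ g ∈ A.I v, f g = 0) :=
    fun v hv i _ => good hZ (A.le v) (st.good v hv) i
  refine ⟨fun i => ((A.finS S₀).subset fun y hy => ?_).to_subtype, ?_⟩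
  · have := (hS.one A R dy i y).1 hy
    exact ⟨this.1, fun v hv => (gd v hv i (hom this.1 v)).1 (this.2 v)⟩
  obtain ⟨S, s1, s2⟩ := A.lag S₀
  have e : ∀ i, SS A R dy i 1 = Un A S ⊓ ⨅ v : S, (R.W (A.D v) (dy v) i).comap (resL (A.D v)) :=
    fun i => by
    ext y
    rw [hS.one, Submodule.mem_inf, Submodule.mem_iInf]
    refine ⟨fun h => ⟨⟨h.1, fun v hv => (gd v (fun c => hv (s1 c)) i (hom h.1 v)).1 (h.2 v)⟩,
      fun v => h.2 v⟩, fun h => ⟨h.1.1, fun v => ?_⟩⟩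
    by_cases hv : v ∈ S
    · exact h.2 ⟨v, hv⟩
    · exact (gd v (fun c => hv (s1 c)) i (hom h.1.1 v)).2 (h.1.2 v hv)
  have k := (hL S (G → ZMod 2) (fun v => Hm (A.D v)) (fun v => R.W (A.D v) (dy v) 0)
    (fun v => R.W (A.D v) (dy v) 1) (fun v => A.sym v) (Un A S) (fun v => resL (A.D v))
    (fun v => A.finH v) (A.finS S).to_subtype (fun v a ha b hb c hc => A.add v a b c ha.1 hb.1 hc.1)
    (fun v a ha b hb => A.comm v a b ha.1 hb.1)
    (fun v a ha h => funext fun g => by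
      by_cases hg : g ∈ A.D v
      · exact A.nondeg v a ha.1 (fun b hb => (A.congr v _ _ _ _ (fun _ _ => rfl) (res_eq b)).symm.trans
          (h _ (hZ.res_mem _ b hb))) g hg
      · exact ha.2 g hg)
    (fun v => hZ.W_le R _ _ _) (fun v => hZ.W_le R _ _ _)
    (fun v a ha b hb => hS.iso A R v (dy v) (st.dyk v) 0 a b
      (by rwa [res_of (hZ.W_le R _ _ _ ha)]) (by rwa [res_of (hZ.W_le R _ _ _ hb)]))
    (fun v => st.big v) (fun v y hy => hZ.res_mem _ y (hom hy.1 v))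
    (fun y hy z hz => by
      rw [← hS.recip A y z hy.1 hz.1 S fun v hv => hS.iso A R v (dy v) (st.dyk v) 0 y z
        ((gd v (fun c => hv (s1 c)) _ (hom hy.1 v)).2 (hy.2 v hv))
        ((gd v (fun c => hv (s1 c)) _ (hom hz.1 v)).2 (hz.2 v hv)), ← Finset.sum_coe_sort S]
      exact Finset.sum_congr rfl fun v _ => A.congr v _ _ _ _ (res_eq y) (res_eq z))
    (fun b hb h => by
      obtain ⟨z, z1, z2, z3⟩ := s2 (fun v => if a : v ∈ S then b ⟨v, a⟩ else 0)
        (fun v hv => by rw [dif_pos hv]; exact (hb ⟨v, hv⟩).1) fun y y1 y2 => by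
          rw [← h y ⟨y1, y2⟩, ← Finset.sum_coe_sort S]
          refine Finset.sum_congr rfl fun v _ => ?_
          rw [dif_pos v.2]
          exact (A.congr v _ _ _ _ (res_eq y) fun _ _ => rfl).symm
      refine ⟨z, ⟨z1, z2⟩, fun v => funext fun g => ?_⟩
      by_cases hg : g ∈ A.D v
      · exact (res_eq z g hg).trans ((z3 v v.2 g hg).trans (by rw [dif_pos v.2]))
      · exact (if_neg hg).trans ((hb v).2 g hg).symm)).2
  rw [e 0, e 1, k]
  refine (Finset.sum_coe_sort S fun v => R.df (A.D v) (dy v)).trans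
    (Finset.sum_subset s1 fun v _ hv => ?_).symm
  have w : ∀ i j, R.W (A.D v) (dy v) i ≤ R.W (A.D v) (dy v) j := fun i j f hf => by
    have a := hZ.W_le R _ _ _ hf
    rw [← res_of a] at hf ⊢
    exact (gd v hv j a.1).2 ((gd v hv i a.1).1 hf)
  rw [Rp.df, le_antisymm (w 0 1) (w 1 0), sub_self]

end Pool.Agent.SC
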