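import Pool.Agent.Lib.MP_b4b3cb_nt.StF

/-! The Gamma integral of the harmonic Gaussian. -/

namespace Pool.Agent.SC

open NumberField Pool.Agent.Stark
open scoped Classical ComplexConjugate

namespace GamIAux

open Complex MeasureTheory PhiAux

theorem one_var {a : ℝ} (ha : 0 < a) (m : ℕ) {s : ℂ} (hs : 0 < s.re) (y₀ : ℝ) :
    ∫ y, f1 (√2 * a) ((m : ℂ) + 1 + 2 * s) (y₀ + y) =
      Gammaℂ (s + ((m : ℂ) + 1) / 2) / 4 *
        (((a : ℂ) ^ (m + 1))⁻¹ * ((a ^ 2 : ℝ) : ℂ) ^ (-s)) := by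
  have h2 : (0 : ℝ) < √2 := by positivity
  have hz : 0 < ((m : ℂ) + 1 + 2 * s).re := by
    have : ((m : ℂ) + 1 + 2 * s).re = m + 1 + 2 * s.re := by simp
    rw [this]
    positivity
  rw [integral_add_left_eq_self (f1 (√2 * a) ((m : ℂ) + 1 + 2 * s)) y₀,
    integral_f1 (mul_pos h2 ha) hz, Gammaℝ_def, Gammaℂ_def]
  have e0 : ((m : ℂ) + 1 + 2 * s) / 2 = s + ((m : ℂ) + 1) / 2 := by ring
  have e1 : (2 * (Real.pi : ℂ)) = ((2 * Real.pi : ℝ) : ℂ) := by push_cast; ring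
  have e2 : ((a : ℂ) ^ (m + 1))⁻¹ = cexp (-(((m : ℂ) + 1) * (Real.log a : ℂ))) := by
    rw [Complex.exp_neg]
    congr 1
    have : (a : ℂ) = cexp (Real.log a : ℂ) := by
      rw [← ofReal_exp, Real.exp_log ha]
    conv_lhs => rw [this, ← Complex.exp_nat_mul]
    push_cast
    rfl
  have e3 : Real.log √2 = Real.log 2 / 2 := Real.log_sqrt (by norm_num)
  rw [e0, e1, e2, ofReal_cpow_eq Real.pi_pos, ofReal_cpow_eq (mul_pos h2 ha),
    ofReal_cpow_eq (by positivity : 0 < 2 * Real.pi), ofReal_cpow_eq (by positivity : 0 < a ^ 2),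
    Real.log_mul h2.ne' ha.ne', Real.log_mul two_ne_zero Real.pi_pos.ne', Real.log_pow, e3]
  have e4 : cexp ((Real.log Real.pi : ℂ) * (-((m : ℂ) + 1 + 2 * s) / 2)) *
      cexp (((Real.log 2 / 2 + Real.log a : ℝ) : ℂ) * -((m : ℂ) + 1 + 2 * s)) =
      cexp (((Real.log 2 + Real.log Real.pi : ℝ) : ℂ) * -(s + ((m : ℂ) + 1) / 2)) *
      (cexp (-(((m : ℂ) + 1) * (Real.log a : ℂ))) *
        cexp ((((2 : ℕ) * Real.log a : ℝ) : ℂ) * -s)) := by
    rw [← Complex.exp_add, ← Complex.exp_add, ← Complex.exp_add]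
    congr 1
    rw [ofReal_add, ofReal_add, ofReal_div, ofReal_mul]
    push_cast
    ring
  linear_combination (Gamma (s + ((m : ℂ) + 1) / 2) / 2) * e4

theorem integrand {κ : Type} [Fintype κ] (m : κ → ℕ) (x : κ → ℂ) (Y y₀ : κ → ℝ) (τ : ℝ) (s : ℂ)
    (hY : ∑ k, Y k = ∑ k, y₀ k + Fintype.card κ * τ) :
    fz m Y x * cexp (2 * (Fintype.card κ : ℂ) * s * τ) =
      cexp (-2 * s * ((∑ k, y₀ k : ℝ) : ℂ)) * (∏ k, conj (x k) ^ m k) *
        ∏ k, f1 (√2 * ‖x k‖) ((m k : ℂ) + 1 + 2 * s) (Y k) := by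
  have h1 : cexp (2 * (Fintype.card κ : ℂ) * s * τ) =
      cexp (-2 * s * ((∑ k, y₀ k : ℝ) : ℂ)) * ∏ k, cexp (2 * s * (Y k : ℂ)) := by
    rw [← Complex.exp_sum, ← Complex.exp_add, ← Finset.mul_sum, ← ofReal_sum, hY]
    congr 1
    push_cast
    ring
  have h2 : ∀ k, f1 (√2 * ‖x k‖) ((m k : ℂ) + 1 + 2 * s) (Y k) =
      (Real.exp ((m k + 1) * Y k - 2 * Real.pi * ‖x k‖ ^ 2 * Real.exp (2 * Y k)) : ℂ) *
        cexp (2 * s * (Y k : ℂ)) := by
    intro k
    have e1 : -Real.pi * (Real.exp (2 * Y k) * (√2 * ‖x k‖) ^ 2) =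
        -(2 * Real.pi * ‖x k‖ ^ 2 * Real.exp (2 * Y k)) := by
      rw [mul_pow, Real.sq_sqrt (by norm_num)]
      ring
    unfold f1
    rw [e1]
    generalize 2 * Real.pi * ‖x k‖ ^ 2 * Real.exp (2 * Y k) = u
    rw [ofReal_exp, ofReal_exp, ← Complex.exp_add, ← Complex.exp_add]
    congr 1
    push_cast
    ring
  simp only [h2]
  rw [h1, fz, Finset.prod_mul_distrib, Finset.prod_mul_distrib]
  ring

theorem value {κ : Type} [Fintype κ] {r : ℕ} (l : Fin r → κ → ℝ) (e : Option (Fin r) ≃ κ)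
    (hl : ∀ j, ∑ k, l j k = 0) (J : ℝ)
    (hJ : |(Matrix.of fun i j : Option (Fin r) => i.elim 1 fun i' => l i' (e j)).det| = J)
    (hJ0 : J ≠ 0) (m : κ → ℕ) (x : κ → ℂ) (y₀ : κ → ℝ) (s : ℂ) (hx : ∀ k, x k ≠ 0)
    (hs : 0 < s.re) :
    ∫ p : (Fin r → ℝ) × ℝ, fz m (fun k => y₀ k + ∑ j, p.1 j * l j k + p.2) x *
        cexp (2 * (Fintype.card κ : ℂ) * s * p.2) =
      ((J⁻¹ / 4 ^ Fintype.card κ : ℝ) : ℂ) * cexp (-2 * s * ((∑ k, y₀ k : ℝ) : ℂ)) *
        (∏ k, Gammaℂ (s + ((m k : ℂ) + 1) / 2)) *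
        (pz m x * ((∏ k, ‖x k‖ ^ 2 : ℝ) : ℂ) ^ (-s)) := by
  set M : Matrix (Option (Fin r)) (Option (Fin r)) ℝ :=
    Matrix.of fun i j : Option (Fin r) => i.elim 1 fun i' => l i' (e j) with hMdef
  have hdet : M.transpose.det ≠ 0 := by
    rw [Matrix.det_transpose]
    intro h
    apply hJ0
    rw [← hJ, h, abs_zero]
  have hx' : ∀ k, 0 < ‖x k‖ := fun k => norm_pos_iff.2 (hx k)
  let F : (Option (Fin r) → ℝ) → ℂ := fun y =>
    ∏ j, f1 (√2 * ‖x (e j)‖) ((m (e j) : ℂ) + 1 + 2 * s) (y₀ (e j) + y j)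
  have hF : Continuous F := by
    refine continuous_finsetProd _ fun j _ => ?_
    exact (continuous_f1 _ _).comp (continuous_const.add (continuous_apply j))
  have hmv : ∀ (p : (Fin r → ℝ) × ℝ) (j : Option (Fin r)),
      M.transpose.mulVec (fun i => i.elim p.2 p.1) j = ∑ i, p.1 i * l i (e j) + p.2 := by
    intro p j
    simp only [Matrix.mulVec, dotProduct, Matrix.transpose_apply, hMdef, Matrix.of_apply,
      Fintype.sum_option, Option.elim]
    rw [one_mul, add_comm]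
    congr 1
    exact Finset.sum_congr rfl fun i _ => mul_comm _ _
  have key : ∀ p : (Fin r → ℝ) × ℝ,
      fz m (fun k => y₀ k + ∑ j, p.1 j * l j k + p.2) x *
        cexp (2 * (Fintype.card κ : ℂ) * s * p.2) =
      cexp (-2 * s * ((∑ k, y₀ k : ℝ) : ℂ)) * (∏ k, conj (x k) ^ m k) *
        F (M.transpose.mulVec (fun i => i.elim p.2 p.1)) := by
    intro p
    have a1 : F (M.transpose.mulVec (fun i => i.elim p.2 p.1)) =
        ∏ k, f1 (√2 * ‖x k‖) ((m k : ℂ) + 1 + 2 * s) (y₀ k + ∑ j, p.1 j * l j k + p.2) := by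
      rw [← e.prod_comp]
      exact Finset.prod_congr rfl fun j _ => by rw [hmv, add_assoc (y₀ (e j))]
    rw [a1]
    refine integrand m x _ y₀ p.2 s ?_
    rw [Finset.sum_add_distrib, Finset.sum_add_distrib, Finset.sum_comm]
    simp only [← Finset.mul_sum, hl, mul_zero, Finset.sum_const_zero, add_zero, Finset.sum_const,
      Finset.card_univ, nsmul_eq_mul]
  simp only [key]
  rw [integral_const_mul, integral_option (fun v => F (M.transpose.mulVec v)),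
    integral_comp_matrix _ hdet F hF, Matrix.det_transpose, hJ]
  have hI : ∫ y, F y = ∏ k, (Gammaℂ (s + ((m k : ℂ) + 1) / 2) / 4 *
      (((‖x k‖ : ℂ) ^ (m k + 1))⁻¹ * ((‖x k‖ ^ 2 : ℝ) : ℂ) ^ (-s))) := by
    rw [← e.prod_comp]
    simp only [F]
    rw [integral_fintype_prod_volume_eq_prod
      (fun j y => f1 (√2 * ‖x (e j)‖) ((m (e j) : ℂ) + 1 + 2 * s) (y₀ (e j) + y))]
    exact Finset.prod_congr rfl fun j _ => one_var (hx' _) _ hs _
  have hP : ((∏ k, ‖x k‖ ^ 2 : ℝ) : ℂ) ^ (-s) = ∏ k, ((‖x k‖ ^ 2 : ℝ) : ℂ) ^ (-s) := by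
    rw [ofReal_cpow_eq (Finset.prod_pos fun w _ => pow_pos (hx' w) _),
      Real.log_prod (fun w _ => (pow_pos (hx' w) _).ne'), ofReal_sum, Finset.sum_mul,
      Complex.exp_sum]
    exact Finset.prod_congr rfl fun w _ => (ofReal_cpow_eq (pow_pos (hx' w) _) _).symm
  have hZ : pz m x = (∏ k, conj (x k) ^ m k) * ∏ k, ((‖x k‖ : ℂ) ^ (m k + 1))⁻¹ := by
    rw [pz, ← Finset.prod_mul_distrib]
    exact Finset.prod_congr rfl fun k _ => div_eq_mul_inv _ _
  rw [hI, hP, hZ, Finset.prod_mul_distrib, Finset.prod_mul_distrib, Finset.prod_div_distrib,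
    Finset.prod_const, Finset.card_univ]
  push_cast
  ring

theorem det_neg {κ : Type} {r : ℕ} (l : Fin r → κ → ℝ) (e : Option (Fin r) ≃ κ) :
    |(Matrix.of fun i j : Option (Fin r) => i.elim 1 fun i' => (-l) i' (e j)).det| =
      |(Matrix.of fun i j : Option (Fin r) => i.elim 1 fun i' => l i' (e j)).det| := by
  have h : (Matrix.of fun i j : Option (Fin r) => i.elim (1 : ℝ) fun i' => (-l) i' (e j)) =
      Matrix.of fun i j : Option (Fin r) => (i.elim (1 : ℝ) fun _ => -1) *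
        (Matrix.of fun i j : Option (Fin r) => i.elim (1 : ℝ) fun i' => l i' (e j)) i j := by
    ext i j
    cases i <;> simp
  rw [h, Matrix.det_mul_column, abs_mul, Finset.abs_prod]
  have h1 : ∏ i : Option (Fin r), |(i.elim (1 : ℝ) fun _ => -1)| = 1 :=
    Finset.prod_eq_one fun i _ => by cases i <;> simp
  rw [h1, one_mul]

theorem gam_ne {w : ℂ} (hw : 0 < w.re) : Gammaℂ w ≠ 0 := by
  rw [Gammaℂ_def]
  refine mul_ne_zero (mul_ne_zero two_ne_zero ?_) (Gamma_ne_zero_of_re_pos hw)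
  have e1 : (2 * (Real.pi : ℂ)) = ((2 * Real.pi : ℝ) : ℂ) := by push_cast; ring
  rw [e1, ofReal_cpow_eq (by positivity : 0 < 2 * Real.pi)]
  exact Complex.exp_ne_zero _

end GamIAux

open GamIAux in
theorem st_GamI : GamISt := by
  intro κ _ r l e hl hdet
  have hJ : 0 < |(Matrix.of fun i j : Option (Fin r) => i.elim 1 fun i' => l i' (e j)).det| :=
    abs_pos.2 hdet
  have hc : 0 < |(Matrix.of fun i j : Option (Fin r) => i.elim 1 fun i' => l i' (e j)).det|⁻¹ /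
      4 ^ Fintype.card κ := by positivity
  refine ⟨_, hc, fun m x l' y₀ s hl' hx hs => ?_⟩
  have hv := value l' e (by
      rcases hl' with rfl | rfl
      · exact hl
      · intro j
        simp [hl j]) _ (by
      rcases hl' with rfl | rfl
      · rfl
      · exact det_neg l e) hJ.ne' m x y₀ s hx hs
  refine ⟨MeasureTheory.Integrable.of_integral_ne_zero ?_, hv⟩
  rw [hv]
  have hx' : ∀ k, 0 < ‖x k‖ := fun k => norm_pos_iff.2 (hx k)
  refine mul_ne_zero (mul_ne_zero (mul_ne_zero (Complex.ofReal_ne_zero.2 hc.ne')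
    (Complex.exp_ne_zero _)) (Finset.prod_ne_zero_iff.2 fun k _ => gam_ne ?_))
    (mul_ne_zero (Finset.prod_ne_zero_iff.2 fun k _ => div_ne_zero (pow_ne_zero _ ?_)
      (pow_ne_zero _ (Complex.ofReal_ne_zero.2 (hx' k).ne'))) ?_)
  · have : (s + ((m k : ℂ) + 1) / 2).re = s.re + (m k + 1) / 2 := by simp
    rw [this]
    positivity
  · exact (map_ne_zero _).2 (hx k)
  · rw [PhiAux.ofReal_cpow_eq (Finset.prod_pos fun w _ => pow_pos (hx' w) _)]
    exact Complex.exp_ne_zero _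

end Pool.Agent.SC
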