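import Pool.Agent.Lib.MP_b4b3cb_nt.StF

/-! The dual lattice of an ideal and the twisted Gauss sums. -/

namespace Pool.Agent.SC

open NumberField Pool.Agent.Stark
open scoped Classical ComplexConjugate

namespace GaussAux

theorem rep_map {G G' : Type} [AddCommGroup G] [AddCommGroup G'] {A B : AddSubgroup G}
    {A' B' : AddSubgroup G'} {R : Finset G} (h : IsRep A B R) (y : G → G')
    (mem : ∀ c ∈ B, y c ∈ B') (inj : ∀ c ∈ B, ∀ c' ∈ B, y c - y c' ∈ A' ↔ c - c' ∈ A)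
    (sur : ∀ t ∈ B', ∃ c ∈ B, t - y c ∈ A') :
    IsRep A' B' (R.image y) ∧ Set.InjOn y R := by
  refine ⟨⟨fun x hx => ?_, fun t ht => ?_⟩, fun r hr r' hr' e => ?_⟩
  · obtain ⟨r, hr, rfl⟩ := Finset.mem_image.1 hx
    exact mem r (h.1 r hr)
  · obtain ⟨c, hc, htc⟩ := sur t ht
    obtain ⟨r, ⟨hr, hcr⟩, -⟩ := h.2 c hc
    have h1 : t - y r ∈ A' := by
      simpa using A'.add_mem htc ((inj c hc r (h.1 r hr)).2 hcr)
    refine ⟨y r, ⟨Finset.mem_image_of_mem _ hr, h1⟩, ?_⟩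
    rintro z ⟨hz, hz'⟩
    obtain ⟨r', hr', rfl⟩ := Finset.mem_image.1 hz
    rw [h.eq_of_sub hr' hr ((inj r' (h.1 r' hr') r (h.1 r hr)).1
      (by simpa using A'.sub_mem h1 hz'))]
  · exact h.eq_of_sub hr hr' ((inj r (h.1 r hr) r' (h.1 r' hr')).1 (by simp [e]))

section Ring

variable {O : Type} [CommRing O] {𝔣 𝔟 : Ideal O}

theorem one_mod (h : IsCoprime 𝔟 𝔣) : ∃ b ∈ 𝔟, 1 - b ∈ 𝔣 := by
  obtain ⟨b, hb, f, hf, e⟩ := Ideal.isCoprime_iff_exists.1 h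
  exact ⟨b, hb, by rwa [← e, add_sub_cancel_left]⟩

theorem inv_mod {u : O} (h : IsCoprime (Ideal.span {u}) 𝔣) : ∃ m, 1 - m * u ∈ 𝔣 := by
  obtain ⟨b, hb, e⟩ := one_mod h
  obtain ⟨m, rfl⟩ := Ideal.mem_span_singleton'.1 hb
  exact ⟨m, e⟩

theorem cancel {u v : O} (h : IsCoprime (Ideal.span {u}) 𝔣) (hv : u * v ∈ 𝔣) : v ∈ 𝔣 := by
  obtain ⟨m, hm⟩ := inv_mod h
  have := 𝔣.add_mem (𝔣.mul_mem_right v hm) (𝔣.mul_mem_left m hv)
  rwa [show (1 - m * u) * v + m * (u * v) = v by ring] at this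

theorem mem_mul (h : IsCoprime 𝔟 𝔣) {v : O} (h1 : v ∈ 𝔣) (h2 : v ∈ 𝔟) : v ∈ 𝔣 * 𝔟 := by
  rw [Ideal.mul_eq_inf_of_isCoprime h.symm]
  exact ⟨h1, h2⟩

theorem cop_of [Finite (O ⧸ 𝔣)] {x : O} (h : ∀ u, u * x ∈ 𝔣 → u ∈ 𝔣) :
    IsCoprime (Ideal.span {x}) 𝔣 := by
  have inj : Function.Injective fun c : O ⧸ 𝔣 => c * Ideal.Quotient.mk 𝔣 x := by
    intro c c' e
    obtain ⟨a, rfl⟩ := Ideal.Quotient.mk_surjective c
    obtain ⟨a', rfl⟩ := Ideal.Quotient.mk_surjective c'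
    refine Ideal.Quotient.eq.2 (h _ ?_)
    rw [sub_mul]
    exact Ideal.Quotient.eq.1 (by simpa using e)
  obtain ⟨c, hc⟩ := Finite.surjective_of_injective inj 1
  obtain ⟨m, rfl⟩ := Ideal.Quotient.mk_surjective c
  have h1 : 1 - m * x ∈ 𝔣 := Ideal.Quotient.eq.1 (by simpa using hc.symm)
  exact Ideal.isCoprime_iff_exists.2 ⟨m * x, Ideal.mem_span_singleton'.2 ⟨m, rfl⟩, _, h1, by ring⟩

end Ring

section Coe

variable {F : Type} [Field F]

theorem c_mul (x y : 𝓞 F) : ((x * y : 𝓞 F) : F) = (x : F) * (y : F) := rfl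

theorem c_add (x y : 𝓞 F) : ((x + y : 𝓞 F) : F) = (x : F) + (y : F) := rfl

theorem c_sub (x y : 𝓞 F) : ((x - y : 𝓞 F) : F) = (x : F) - (y : F) := rfl

theorem c_one : ((1 : 𝓞 F) : F) = 1 := rfl

end Coe

variable {F : Type} [Field F] [NumberField F]

omit [NumberField F] in
theorem inv_iff {𝔞 𝔟 : Ideal (𝓞 F)} {β : 𝓞 F} (hβ : β ≠ 0) (h : 𝔞 * 𝔟 = Ideal.span {β}) (z : F) :
    (∀ y ∈ 𝔞, ∃ u : 𝓞 F, (u : F) = z * (y : F)) ↔ ∃ x ∈ 𝔟, z = (x : F) / β := by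
  have hβ' : (β : F) ≠ 0 := RingOfIntegers.coe_ne_zero_iff.2 hβ
  constructor
  · intro hz
    have key : ∀ y ∈ 𝔞 * 𝔟, ∃ x ∈ 𝔟, (x : F) = z * (y : F) := by
      intro y hy
      refine Submodule.mul_induction_on hy (fun a ha b hb => ?_) ?_
      · obtain ⟨u, hu⟩ := hz a ha
        exact ⟨u * b, 𝔟.mul_mem_left u hb, by rw [c_mul, c_mul, hu, mul_assoc]⟩
      · rintro y y' ⟨x, hx, e⟩ ⟨x', hx', e'⟩
        exact ⟨x + x', 𝔟.add_mem hx hx', by rw [c_add, c_add, e, e', mul_add]⟩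
    obtain ⟨x, hx, e⟩ := key β (h.ge (Ideal.mem_span_singleton_self β))
    exact ⟨x, hx, by rw [e, mul_div_cancel_right₀ _ hβ']⟩
  · rintro ⟨x, hx, rfl⟩ y hy
    obtain ⟨u, hu⟩ := Ideal.mem_span_singleton'.1 (h.le (Ideal.mul_mem_mul hy hx))
    refine ⟨u, ?_⟩
    have := congrArg (fun t : 𝓞 F => (t : F)) hu
    simp only [c_mul] at this
    field_simp
    rw [this, mul_comm]

theorem core (hG : GsSt) {𝔣 𝔠 𝔟 𝔡 : Ideal (𝓞 F)} {χ : 𝓞 F → ℤ} {g : F} {δ : 𝓞 F}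
    (hne : 𝔣 ≠ ⊥) (mul : ∀ x y, χ (x * y) = χ x * χ y) (one : χ 1 = 1) (per : Per 𝔣 χ)
    (val : ∀ x, χ x = 0 ∨ χ x = 1 ∨ χ x = -1)
    (zero : ∀ x, χ x ≠ 0 ↔ IsCoprime (Ideal.span {x}) 𝔣)
    (prim : ∀ 𝔤 : Ideal (𝓞 F), 𝔣 < 𝔤 → ∃ x, x - 1 ∈ 𝔤 ∧ χ x = -1)
    (hg : ∀ z : F, (∀ c ∈ 𝔠, ∃ u : 𝓞 F, (u : F) = z * (c : F)) →
      ∀ x ∈ 𝔣, eTr (g * z * (x : F)) = 1)
    (h𝔠 : IsCoprime 𝔠 𝔣) (h𝔟 : IsCoprime 𝔟 𝔣) (h𝔡 : IsCoprime 𝔡 𝔣) (hδ : δ ≠ 0)
    (h : 𝔟 * 𝔠 * 𝔡 = Ideal.span {δ}) {R : Finset (𝓞 F)}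
    (hR : IsRep (𝔣 * 𝔟).toAddSubgroup 𝔟.toAddSubgroup R) {x : 𝓞 F} (hx : x ∈ 𝔡) :
    ∑ c ∈ R, (χ c : ℂ) * eTr ((c : F) * (g / δ * (x : F))) = χ δ * χ x * tau0 𝔣 χ g := by
  have hδ' : (δ : F) ≠ 0 := RingOfIntegers.coe_ne_zero_iff.2 hδ
  have dv : ∀ c ∈ 𝔟, ∀ k ∈ 𝔠, ∀ v ∈ 𝔡, ∃ y : 𝓞 F, y * δ = c * k * v := fun c hc k hk v hv =>
    Ideal.mem_span_singleton'.1 (h.le (Ideal.mul_mem_mul (Ideal.mul_mem_mul hc hk) hv))
  have triv : ∀ c ∈ 𝔟, ∀ v ∈ 𝔡, ∀ f ∈ 𝔣, eTr (g * ((c : F) * v / δ) * (f : F)) = 1 := by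
    intro c hc v hv
    refine hg _ fun k hk => ?_
    obtain ⟨y, hy⟩ := dv c hc k hk v hv
    have := congrArg (fun t : 𝓞 F => (t : F)) hy
    simp only [c_mul] at this
    refine ⟨y, ?_⟩
    field_simp
    rw [this]
    ring
  have hδc : IsCoprime (Ideal.span {δ}) 𝔣 := by
    rw [← h]
    exact (h𝔟.mul_left h𝔠).mul_left h𝔡
  by_cases hxc : IsCoprime (Ideal.span {x}) 𝔣
  · obtain ⟨k, hk, hk1⟩ := one_mod h𝔠
    choose! y hy using fun c hc => dv c hc k hk x hx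
    have hk' : χ k = 1 := (per 1 k hk1).symm.trans one
    have hkc : IsCoprime (Ideal.span {k}) 𝔣 := (zero k).1 (by rw [hk']; exact one_ne_zero)
    have hx2 : χ x * χ x = 1 := by
      rcases val x with e | e | e
      · exact absurd e ((zero x).2 hxc)
      · rw [e, mul_one]
      · rw [e]; norm_num
    obtain ⟨i1, i2⟩ := rep_map (A' := 𝔣.toAddSubgroup) (B' := ⊤) hR y (fun _ _ => trivial)
      (fun c hc c' hc' => by
        have e : δ * (y c - y c') = k * (x * (c - c')) := by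
          linear_combination hy c hc - hy c' hc'
        refine ⟨fun h1 => mem_mul h𝔟 (cancel hxc (cancel hkc ?_)) (𝔟.sub_mem hc hc'),
          fun h1 => cancel hδc ?_⟩
        · rw [← e]
          exact 𝔣.mul_mem_left δ h1
        · rw [e]
          exact 𝔣.mul_mem_left k (𝔣.mul_mem_left x (Ideal.mul_le_left h1)))
      (fun t _ => by
        obtain ⟨m, hm⟩ := inv_mod hxc
        obtain ⟨b, hb, hb1⟩ := one_mod h𝔟
        have hc : m * δ * t * b ∈ 𝔟 := 𝔟.mul_mem_left _ hb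
        refine ⟨_, hc, cancel hδc ?_⟩
        have e : δ * (t - y (m * δ * t * b)) =
            δ * t * ((1 - b) + b * (1 - k) + b * k * (1 - m * x)) := by
          linear_combination -hy _ hc
        rw [e]
        exact 𝔣.mul_mem_left _ (𝔣.add_mem (𝔣.add_mem hb1 (𝔣.mul_mem_left _ hk1))
          (𝔣.mul_mem_left _ hm)))
    have hp : Per 𝔣 fun t => (χ t : ℂ) * eTr (g * (t : F)) := fun t t' ht => by
      have h1 := hg 1 (fun c _ => ⟨c, (one_mul _).symm⟩) _ ht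
      have h2 : g * (t : F) = g * (t' : F) + g * 1 * ((t - t' : 𝓞 F) : F) := by
        rw [c_sub]
        ring
      simp only
      rw [per t t' ht, h2, eTr_add, h1, mul_one]
    rw [tau0, hG.rep hp i1, Finset.sum_image i2, Finset.mul_sum]
    refine Finset.sum_congr rfl fun c hc => ?_
    have hc' : c ∈ 𝔟 := hR.1 c hc
    have e1 : χ c = χ δ * χ x * χ (y c) := by
      have := congrArg χ (hy c hc')
      rw [mul, mul, mul, hk'] at this
      linear_combination -χ x * this - χ c * hx2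
    have e2 : (c : F) * (g / δ * (x : F)) =
        g * (y c : F) + g * ((c : F) * x / δ) * ((1 - k : 𝓞 F) : F) := by
      have := congrArg (fun t : 𝓞 F => (t : F)) (hy c hc')
      simp only [c_mul, c_sub, c_one] at this ⊢
      field_simp
      linear_combination -g * this
    rw [e2, eTr_add, triv c hc' x hx _ hk1, e1]
    push_cast
    ring
  · have hx0 : χ x = 0 := by
      by_contra h0
      exact hxc ((zero x).1 h0)
    have : Finite (𝓞 F ⧸ 𝔣) := 𝔣.finiteQuotientOfFreeOfNeBot hne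
    obtain ⟨u, hu, hu1⟩ := prim (𝔣.colon {x}) (lt_of_le_of_ne
      (fun f hf => Submodule.mem_colon_singleton.2 (𝔣.mul_mem_right x hf)) fun e =>
        hxc (cop_of fun u hu => e.ge (Submodule.mem_colon_singleton.2 hu)))
    have hu' : (u - 1) * x ∈ 𝔣 := Submodule.mem_colon_singleton.1 hu
    have huc : IsCoprime (Ideal.span {u}) 𝔣 := (zero u).1 (by rw [hu1]; norm_num)
    obtain ⟨i1, i2⟩ := rep_map (A' := (𝔣 * 𝔟).toAddSubgroup) (B' := 𝔟.toAddSubgroup) hR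
      (fun c => u * c) (fun c hc => 𝔟.mul_mem_left u hc)
      (fun c hc c' hc' => by
        rw [← mul_sub]
        exact ⟨fun h1 => mem_mul h𝔟 (cancel huc (Ideal.mul_le_left h1)) (𝔟.sub_mem hc hc'),
          fun h1 => (𝔣 * 𝔟).mul_mem_left u h1⟩)
      (fun t ht => by
        obtain ⟨m, hm⟩ := inv_mod huc
        refine ⟨m * t, 𝔟.mul_mem_left m ht, ?_⟩
        rw [show t - u * (m * t) = (1 - m * u) * t by ring]
        exact Ideal.mul_mem_mul hm ht)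
    obtain ⟨b, hb, hb1⟩ := one_mod h𝔟
    obtain ⟨v, hv, hv1⟩ := one_mod h𝔡
    have s := hR.sum_eq i1 (fun c => (χ c : ℂ) * eTr ((c : F) * (g / δ * (x : F))))
      fun c _ a ha => by
        have ha1 : a ∈ 𝔣 := Ideal.mul_le_left ha
        have e : ((c + a : 𝓞 F) : F) * (g / δ * (x : F)) = (c : F) * (g / δ * (x : F)) +
            (g * ((b : F) * x / δ) * (a : F) + g * ((a : F) * x / δ) * ((1 - b : 𝓞 F) : F)) := by
          simp only [c_add, c_sub, c_one]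
          ring
        rw [per (c + a) c (by simpa using ha1), e, eTr_add, eTr_add, triv b hb x hx a ha1,
          triv a (Ideal.mul_le_right ha) x hx _ hb1, mul_one, mul_one]
    rw [Finset.sum_image i2] at s
    have s' : ∑ c ∈ R, (χ (u * c) : ℂ) * eTr (((u * c : 𝓞 F) : F) * (g / δ * (x : F))) =
        -∑ c ∈ R, (χ c : ℂ) * eTr ((c : F) * (g / δ * (x : F))) := by
      rw [← Finset.sum_neg_distrib]
      refine Finset.sum_congr rfl fun c hc => ?_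
      have hc' : c ∈ 𝔟 := hR.1 c hc
      have e : ((u * c : 𝓞 F) : F) * (g / δ * (x : F)) = (c : F) * (g / δ * (x : F)) +
          (g * ((c : F) * v / δ) * (((u - 1) * x : 𝓞 F) : F) +
            g * ((c : F) * (((u - 1) * x : 𝓞 F) : F) / δ) * ((1 - v : 𝓞 F) : F)) := by
        simp only [c_mul, c_sub, c_one]
        ring
      rw [e, eTr_add, eTr_add, triv c hc' v hv _ hu',
        triv c hc' _ (𝔡.mul_mem_left _ hx) _ hv1, mul, hu1]
      push_cast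
      ring
    rw [hx0]
    push_cast
    linear_combination (s.trans s') / 2

end GaussAux

variable {K L : Type} [Field K] [NumberField K] [Field L] [NumberField L] [Algebra K L]

open GaussAux in
theorem st_Gauss (_hC : CnSt) (hG : GsSt) (hQ : QdSt K L) (hH : HDSt K L) : GaussSt K L := by
  intro d E 𝔣 𝔠 a ψ χ γ₀ H G 𝔟 𝔟' β hb hb' hβ h
  obtain ⟨s1, s2⟩ := hH.sym H
  have hg : algebraMap K L γ₀ ≠ 0 := by simpa using G.ne
  have hβ' : (β : L) ≠ 0 := RingOfIntegers.coe_ne_zero_iff.2 hβ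
  have hf : ∀ f ∈ 𝔣, E.sg f ∈ 𝔣 := fun f hf => (hQ.mem_map E 𝔣 f).1 (s1.ge hf)
  refine ⟨fun ξ => ?_, fun R hR x hx => ?_⟩
  · have e : ∀ f b : 𝓞 L, eTr (((f * b : 𝓞 L) : L) * E.tau ξ) =
        eTr (algebraMap K L γ₀ * (ξ / algebraMap K L γ₀ * (E.sg b : L)) * (E.sg f : L)) := by
      intro f b
      rw [← hQ.tr_tau E, E.coe_sg, E.coe_sg, c_mul, map_mul, map_mul, E.tau_tau]
      congr 1
      field_simp
    have k1 : ξ ∈ Du E (𝔣 * 𝔟) ↔
        ∀ y ∈ 𝔟.map E.sg * 𝔠, ∃ u : 𝓞 L, (u : L) = ξ / algebraMap K L γ₀ * (y : L) := by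
      constructor
      · intro hξ y hy
        refine Submodule.mul_induction_on hy (fun b hb c hc => ?_) ?_
        · obtain ⟨u, hu⟩ := (G.iff (ξ / algebraMap K L γ₀ * (b : L))).1 (fun f hf' => by
            have := hξ _ (Ideal.mul_mem_mul (hf f hf') ((hQ.mem_map E 𝔟 b).1 hb))
            rwa [e, hQ.sg_sg, hQ.sg_sg] at this) c hc
          exact ⟨u, by rw [c_mul, hu, mul_assoc]⟩
        · rintro y y' ⟨u, hu⟩ ⟨u', hu'⟩
          exact ⟨u + u', by rw [c_add, c_add, hu, hu', mul_add]⟩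
      · intro hξ y hy
        refine Submodule.mul_induction_on hy (fun f hf' b hb => ?_) fun y y' h1 h2 => ?_
        · rw [e]
          refine (G.iff _).2 (fun c hc => ?_) _ (hf f hf')
          obtain ⟨u, hu⟩ := hξ _ (Ideal.mul_mem_mul (Ideal.mem_map_of_mem E.sg hb) hc)
          exact ⟨u, by rw [hu, c_mul, mul_assoc]⟩
        · rw [c_add, add_mul, eTr_add, h1, h2, mul_one]
    rw [k1, inv_iff hβ h]
    refine exists_congr fun x => and_congr_right fun _ => ?_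
    constructor
    · intro h1
      rw [div_eq_iff hg] at h1
      rw [h1]
      ring
    · intro h1
      rw [h1]
      field_simp
  · have h' : 𝔟 * 𝔠 * 𝔟'.map E.sg = Ideal.span {E.sg β} := by
      have := congrArg (Ideal.map E.sg) h
      rwa [Ideal.map_mul, Ideal.map_mul, hQ.map_map, G.sym, Ideal.map_span,
        Set.image_singleton] at this
    have hb2 : IsCoprime (𝔟'.map E.sg) 𝔣 := by
      obtain ⟨v, hv, hv1⟩ := one_mod hb'
      exact Ideal.isCoprime_iff_exists.2 ⟨_, Ideal.mem_map_of_mem E.sg hv, _, hf _ hv1, by simp⟩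
    have := core hG H.ne H.mul H.one H.per H.val H.zero H.prim (fun z => (G.iff z).2) G.cop hb hb2
      (by simpa using hβ) h' hR (Ideal.mem_map_of_mem E.sg hx)
    rw [s2, s2, E.coe_sg, E.coe_sg] at this
    rw [← this, map_mul, map_div₀, AlgEquiv.commutes]

end Pool.Agent.SC
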