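import Pool.Agent.Lib.MP_b4b3cb_nt.StC

/-! The subgroup of index two, and comparison of the Galois groups over `K` and `L`. -/

set_option linter.unusedSectionVars false

namespace Pool.Agent.SC

open NumberField Pool.Agent.Stark
open scoped Classical Pointwise Topology

namespace GlAux

theorem cont_of {G K Ω : Type} [Group G] [TopologicalSpace G] [IsTopologicalGroup G] [Field K]
    [Field Ω] [Algebra K Ω] (φ : G →* (Ω ≃ₐ[K] Ω)) (h : ∀ x, ∀ᶠ g in 𝓝 (1 : G), φ g x = x) :
    Continuous φ := by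
  refine continuous_of_continuousAt_one φ fun N hN => ?_
  rw [map_one] at hN
  obtain ⟨E, hE, hN⟩ := (krullTopology_mem_nhds_one_iff K Ω N).1 hN
  let b := Module.finBasis K E
  have h1 : ∀ᶠ g in 𝓝 (1 : G), ∀ i, φ g (b i : Ω) = b i := Filter.eventually_all.2 fun i => h _
  refine Filter.mem_map.2 (Filter.mem_of_superset h1 fun g hg => hN ?_)
  refine (IntermediateField.mem_fixingSubgroup_iff _ _).2 fun x hx => ?_
  have h2 : ((φ g).toLinearMap.comp E.val.toLinearMap) = E.val.toLinearMap :=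
    b.ext fun i => hg i
  exact LinearMap.congr_fun h2 ⟨x, hx⟩

variable {K L Ω : Type} [Field K] [NumberField K] [Field L] [NumberField L] [Algebra K L]
  [Field Ω] [Algebra K Ω] [Algebra L Ω] [IsScalarTower K L Ω]

/-- An automorphism fixing `L` as an automorphism over `L`. -/
def up : Gs K Ω L →* (Ω ≃ₐ[L] Ω) where
  toFun g := AlgEquiv.ofRingEquiv (f := g.1.toRingEquiv) g.2
  map_one' := AlgEquiv.ext fun _ => rfl
  map_mul' _ _ := AlgEquiv.ext fun _ => rfl

theorem up_apply (g : Gs K Ω L) (x : Ω) : up g x = g.1 x := rfl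

theorem alg (a : K) : algebraMap L Ω (algebraMap K L a) = algebraMap K Ω a :=
  (IsScalarTower.algebraMap_apply K L Ω a).symm

variable {d : K} (E : Quad K L d)

theorem sq : algebraMap L Ω E.rt ^ 2 = algebraMap K Ω d := by rw [← map_pow, E.sq, alg]

theorem ne : algebraMap L Ω E.rt ≠ 0 := fun h => by
  have h1 : algebraMap K Ω d = 0 := by rw [← sq E, h, zero_pow two_ne_zero]
  exact E.ns ⟨0, by simpa using h1⟩

theorem iff (g : Ω ≃ₐ[K] Ω) : g ∈ Gs K Ω L ↔ g (algebraMap L Ω E.rt) = algebraMap L Ω E.rt := by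
  refine ⟨fun h => h _, fun h x => ?_⟩
  obtain ⟨a, b, rfl⟩ := E.span x
  simp only [map_add, map_mul, alg, AlgEquiv.commutes, h]

theorem pm (g : Ω ≃ₐ[K] Ω) : g (algebraMap L Ω E.rt) = algebraMap L Ω E.rt ∨
    g (algebraMap L Ω E.rt) = -algebraMap L Ω E.rt := by
  refine sq_eq_sq_iff_eq_or_eq_neg.1 ?_
  rw [← map_pow, sq E, AlgEquiv.commutes]

theorem tau (g : Ω ≃ₐ[K] Ω) (hg : g ∉ Gs K Ω L) (x : L) :
    g (algebraMap L Ω x) = algebraMap L Ω (E.tau x) := by
  have h := (pm E g).resolve_left fun h => hg ((iff E g).2 h)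
  obtain ⟨a, b, rfl⟩ := E.span x
  simp only [map_add, map_mul, alg, AlgEquiv.commutes, h, E.tau_rt, map_neg]

include E in
theorem normal : (Gs K Ω L).Normal := ⟨fun h hh g => by
  rw [iff E] at hh ⊢
  rw [AlgEquiv.mul_apply, AlgEquiv.mul_apply]
  rcases pm E g⁻¹ with h1 | h1
  · rw [h1, hh]
    conv_lhs => rw [← h1]
    exact g.apply_symm_apply _
  · rw [h1, map_neg, hh, ← h1]
    exact g.apply_symm_apply _⟩

end GlAux

variable {K L Ω : Type} [Field K] [NumberField K] [Field L] [NumberField L] [Algebra K L]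
  [Field Ω] [Algebra K Ω] [Algebra L Ω] [IsScalarTower K L Ω] [IsAlgClosed Ω] [IsGalois K Ω]
  [CharZero Ω]

theorem st_Gl (hK : KumSt K Ω) (hP : PrimeSt K Ω) (hC : CjSt K Ω) : GlSt K L Ω where
  iff E g := by
    rw [GlAux.iff E, kr]
    split_ifs with h
    · simp [h]
    · simp [h]
  sq E := ⟨GlAux.ne E, GlAux.sq E⟩
  hom E := hK.hom (GlAux.ne E) fun g _ => by rw [GlAux.sq E, AlgEquiv.commutes]
  tau E := GlAux.tau E
  normal E := GlAux.normal E
  act E g hg 𝔓 w h := by
    refine ⟨hP.smul_max g h.1, fun x => ?_⟩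
    have h1 : g • algebraMap (𝓞 L) (𝓞 Ω) (E.sg x) = algebraMap (𝓞 L) (𝓞 Ω) x := by
      refine RingOfIntegers.ext ?_
      rw [hP.coe_smul]
      change g (algebraMap L Ω (E.tau (x : L))) = algebraMap L Ω (x : L)
      rw [GlAux.tau E g hg, E.tau_tau]
    rw [E.mem_act, h.2, ← hP.mem_smul g, h1]
  cj := fun {d E a} h {j g} hj hg => by
    have h1 := h.cm (j.comp (algebraMap L Ω)) E.rt
    have h2 := hj (algebraMap L Ω E.rt)
    rw [hg E.rt] at h2
    rw [E.tau_rt, map_neg, RingHom.comp_apply, ← h2] at h1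
    have h3 : j (algebraMap L Ω E.rt) = 0 := by linear_combination (-1 / 2 : ℂ) * h1
    exact GlAux.ne E ((map_eq_zero j).1 h3)
  plc sec hs := by
    choose P hPo using fun v : Pr K => hP.ex L (sec v)
    choose j c hj _ hc using hC.ex K
    have h1 : ∀ q, Over (P q) q := fun q => by
      have h2 := hP.below (F := K) (hPo q)
      rwa [hs q] at h2
    exact ⟨⟨P, h1, j, hj, c, hc⟩, hPo⟩

theorem st_Trf : TrfSt K L Ω := by
  have hG : IsGalois L Ω := IsGalois.tower_top_of_isGalois K L Ω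
  have h1 : Continuous (AlgEquiv.restrictScalarsHom K : (Ω ≃ₐ[L] Ω) →* (Ω ≃ₐ[K] Ω)) :=
    GlAux.cont_of _ fun x =>
      (stabilizer_isOpen_of_isIntegral (K := L) x).mem_nhds (Subgroup.one_mem _)
  have h2 : Continuous (GlAux.up : Gs K Ω L →* (Ω ≃ₐ[L] Ω)) :=
    GlAux.cont_of _ fun x => ((stabilizer_isOpen_of_isIntegral (K := K) x).preimage
      continuous_subtype_val).mem_nhds (Subgroup.one_mem _)
  refine ⟨h1, ⟨fun g => if h : g ∈ Gs K Ω L then GlAux.up ⟨g, h⟩ else 1, ?_, fun g hg => ?_⟩,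
    fun H hH hle hn => ?_⟩
  · rw [continuousOn_iff_continuous_domRestrict]
    exact h2.congr fun g => (dif_pos g.2).symm
  · beta_reduce
    rw [dif_pos hg]
    rfl
  · let H' : Subgroup (Ω ≃ₐ[L] Ω) := H.comap (AlgEquiv.restrictScalarsHom K)
    have ho : IsOpen (H' : Set (Ω ≃ₐ[L] Ω)) := hH.preimage h1
    have hN : H'.Normal := ⟨fun h hh g => by
      rw [Subgroup.mem_comap, map_mul, map_mul, map_inv]
      exact hn _ (fun x => g.commutes x) _ hh⟩
    have he : (IntermediateField.fixedField H').fixingSubgroup = H' :=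
      InfiniteGalois.fixingSubgroup_fixedField ⟨H', H'.isClosed_of_isOpen ho⟩
    refine ⟨IntermediateField.fixedField H', (InfiniteGalois.isOpen_iff_finite _).1 ?_,
      (InfiniteGalois.normal_iff_isGalois _).1 ?_, ?_⟩
    · rw [he]
      exact ho
    · rw [he]
      exact hN
    · ext g
      constructor
      · intro hg
        have h3 : g ∈ Gs K Ω L := fun x => hg (algebraMap L _ x)
        have h4 : GlAux.up ⟨g, h3⟩ ∈ H' := by
          rw [← he]
          exact (IntermediateField.mem_fixingSubgroup_iff _ _).2 fun x hx => hg ⟨x, hx⟩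
        exact h4
      · intro hg x
        exact x.2 ⟨GlAux.up ⟨g, hle hg⟩, hg⟩

end Pool.Agent.SC
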