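import Pool.Agent.Lib.MP_b4b3cb_nt.StF

/-! Sums over residue classes. -/

namespace Pool.Agent.SC

open NumberField Pool.Agent.Stark
open scoped Classical ComplexConjugate

namespace GsAux

/-- A quadratic Gauss sum over a finite field of odd characteristic. -/
theorem field_quad {k : Type} [Field k] [Fintype k] (h2 : (2 : k) ≠ 0) (f : k → ℤ) (e : k → ℂ)
    (hm : ∀ x y, f (x * y) = f x * f y) (h0 : f 0 = 0) (h1 : ∀ x, x ≠ 0 → f x = 1 ∨ f x = -1)
    (hn : ∃ x, f x = -1) (he : ∀ x y, e (x + y) = e x * e y) (hne : ∃ x, e x ≠ 1) :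
    ∑ x, (f x : ℂ) * e x = ∑ x, e (x ^ 2) := by
  have hc : ringChar k ≠ 2 := fun h => h2 (by
    have := ringChar.Nat.cast_ringChar (R := k)
    rw [h] at this
    exact_mod_cast this)
  have hsq : ∀ x, x ≠ 0 → IsSquare x → f x = 1 := by
    rintro x hx ⟨y, rfl⟩
    rw [hm]
    rcases h1 y (left_ne_zero_of_mul hx) with h | h <;> rw [h] <;> rfl
  have hq : ∀ x, f x = quadraticChar k x := by
    intro x
    by_cases hx : x = 0
    · rw [hx, h0, MulChar.map_zero]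
    by_cases hs : IsSquare x
    · rw [hsq x hx hs, (quadraticChar_one_iff_isSquare hx).2 hs]
    obtain ⟨a, ha⟩ := hn
    have ha0 : a ≠ 0 := fun h => by
      rw [h, h0] at ha
      exact absurd ha (by decide)
    have has : ¬ IsSquare a := fun h => by
      rw [hsq a ha0 h] at ha
      exact absurd ha (by decide)
    have e1 := quadraticChar_neg_one_iff_not_isSquare.2 hs
    have e2 := quadraticChar_neg_one_iff_not_isSquare.2 has
    have e3 := hsq _ (mul_ne_zero ha0 hx) ((quadraticChar_one_iff_isSquare (mul_ne_zero ha0 hx)).1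
      (by rw [map_mul, e1, e2]; rfl))
    rw [hm, ha] at e3
    rw [e1]
    linarith
  have hz : ∑ x, e x = 0 := by
    obtain ⟨b, hb⟩ := hne
    have e2 : ∑ x, e (x + b) = ∑ x, e x := Equiv.sum_comp (Equiv.addRight b) e
    simp only [he, ← Finset.sum_mul] at e2
    by_contra hne
    exact hb (mul_left_cancel₀ hne (e2.trans (mul_one _).symm))
  rw [← Finset.sum_fiberwise (s := Finset.univ) (g := fun x : k => x ^ 2) (f := fun x => e (x ^ 2))]
  have : ∀ t : k, ∑ x ∈ Finset.univ.filter (fun x : k => x ^ 2 = t), e (x ^ 2) =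
      (f t : ℂ) * e t + e t := by
    intro t
    rw [Finset.sum_congr rfl fun x hx => by rw [(Finset.mem_filter.1 hx).2], Finset.sum_const,
      nsmul_eq_mul, hq]
    have h := quadraticChar_card_sqrts hc t
    rw [Set.toFinset_ofPred] at h
    have h' := congrArg (fun z : ℤ => (z : ℂ)) h
    simp only [Int.cast_natCast, Int.cast_add, Int.cast_one] at h'
    rw [h']
    ring
  rw [Finset.sum_congr rfl fun t _ => this t, Finset.sum_add_distrib, hz, add_zero]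

variable {F : Type} [Field F] [NumberField F] {𝔪 : Ideal (𝓞 F)}

omit [NumberField F] in
theorem out_mk {Y : Type} {f : 𝓞 F → Y} (hf : Per 𝔪 f) (x : 𝓞 F) :
    f (Quotient.out (Ideal.Quotient.mk 𝔪 x)) = f x :=
  hf _ _ (Ideal.Quotient.eq.1 (Ideal.Quotient.mk_out _))

omit [NumberField F] in
theorem gs_bij {α : Type} {f : 𝓞 F → ℂ} (hf : Per 𝔪 f) (r : α → 𝓞 F)
    (hr : Function.Bijective fun a => Ideal.Quotient.mk 𝔪 (r a)) :
    gs 𝔪 f = ∑ᶠ a, f (r a) := by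
  rw [gs, ← finsum_comp _ hr]
  exact finsum_congr fun a => out_mk hf _

omit [NumberField F] in
theorem rep {f : 𝓞 F → ℂ} {R : Finset (𝓞 F)} (hf : Per 𝔪 f)
    (hR : IsRep 𝔪.toAddSubgroup ⊤ R) : gs 𝔪 f = ∑ x ∈ R, f x := by
  rw [gs_bij hf (fun x : R => x.1), finsum_eq_sum_of_fintype, Finset.sum_coe_sort R f]
  constructor
  · intro x y hxy
    exact Subtype.ext (hR.eq_of_sub x.2 y.2 (Ideal.Quotient.eq.1 hxy))
  · intro c
    obtain ⟨y, rfl⟩ := Ideal.Quotient.mk_surjective c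
    obtain ⟨x, ⟨hx, hyx⟩, -⟩ := hR.2 y trivial
    exact ⟨⟨x, hx⟩, (Ideal.Quotient.eq.2 hyx).symm⟩

omit [NumberField F] in
theorem top {f : 𝓞 F → ℂ} (hf : Per ⊤ f) : gs ⊤ f = f 0 := by
  rw [rep (R := {0}) hf ⟨fun _ _ => trivial, fun y _ =>
    ⟨0, ⟨Finset.mem_singleton_self 0, trivial⟩, fun z hz => Finset.mem_singleton.1 hz.1⟩⟩,
    Finset.sum_singleton]

theorem two {𝔞 𝔟 : Ideal (𝓞 F)} (ha : 𝔞 ≠ ⊥) (hb : 𝔟 ≠ ⊥) (hc : IsCoprime 𝔞 𝔟)
    {f g : 𝓞 F → ℂ} (hf : Per 𝔞 f) (hg : Per 𝔟 g) :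
    gs (𝔞 * 𝔟) (fun x => f x * g x) = gs 𝔞 f * gs 𝔟 g := by
  have := 𝔞.finiteQuotientOfFreeOfNeBot ha
  have := 𝔟.finiteQuotientOfFreeOfNeBot hb
  have := Fintype.ofFinite (𝓞 F ⧸ 𝔞)
  have := Fintype.ofFinite (𝓞 F ⧸ 𝔟)
  rw [gs, gs, gs, finsum_eq_sum_of_fintype (α := 𝓞 F ⧸ 𝔞), finsum_eq_sum_of_fintype (α := 𝓞 F ⧸ 𝔟),
    Finset.sum_mul_sum, ← Fintype.sum_prod_type', ← finsum_eq_sum_of_fintype,
    ← finsum_comp _ (Ideal.quotientMulEquivQuotientProd 𝔞 𝔟 hc).bijective]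
  refine finsum_congr fun c => ?_
  conv_rhs => rw [← Ideal.Quotient.mk_out c]
  rw [Ideal.quotientMulEquivQuotientProd_fst, Ideal.quotientMulEquivQuotientProd_snd,
    Ideal.Quotient.factor_mk, Ideal.Quotient.factor_mk, out_mk hf, out_mk hg]

theorem crt (S : Finset (Pr F)) (n : Pr F → ℕ) (f : Pr F → 𝓞 F → ℂ)
    (hf : ∀ w ∈ S, Per (w.asIdeal ^ n w) (f w)) :
    gs (∏ w ∈ S, w.asIdeal ^ n w) (fun x => ∏ w ∈ S, f w x) =
      ∏ w ∈ S, gs (w.asIdeal ^ n w) (f w) := by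
  induction S using Finset.induction_on with
  | empty =>
    simp only [Finset.prod_empty, Ideal.one_eq_top]
    exact top fun _ _ _ => rfl
  | insert v S hv ih =>
    have hS : ∀ w ∈ S, Per (w.asIdeal ^ n w) (f w) := fun w hw =>
      hf w (Finset.mem_insert_of_mem hw)
    simp only [Finset.prod_insert hv]
    rw [two (pow_ne_zero _ v.ne_bot)
      (Finset.prod_ne_zero_iff.2 fun w _ => pow_ne_zero _ w.ne_bot)
      (IsCoprime.prod_right fun w hw => ?_) (hf v (Finset.mem_insert_self v S)) ?_, ih hS]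
    · intro x y hxy
      exact Finset.prod_congr rfl fun w hw => hS w hw x y
        (Ideal.le_of_dvd (Finset.dvd_prod_of_mem _ hw) hxy)
    · refine IsCoprime.pow ?_
      exact Ideal.isCoprime_iff_sup_eq.2 (v.isMaximal.coprime_of_ne w.isMaximal fun h =>
        hv (IsDedekindDomain.HeightOneSpectrum.ext h ▸ hw))

theorem quad (w : Pr F) (f : 𝓞 F → ℤ) (e : 𝓞 F → ℂ) (h2 : og w (2 : F) = 0)
    (hf : Per w.asIdeal f) (hm : ∀ x y, f (x * y) = f x * f y) (h0 : ∀ x ∈ w.asIdeal, f x = 0)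
    (h1 : ∀ x ∉ w.asIdeal, f x = 1 ∨ f x = -1) (hn : ∃ x, f x = -1)
    (he : ∀ x y, e (x + y) = e x * e y) (he1 : ∀ x ∈ w.asIdeal, e x = 1) (hne : ∃ x, e x ≠ 1) :
    gs w.asIdeal (fun x => f x * e x) = gs w.asIdeal fun x => e (x ^ 2) := by
  have := w.asIdeal.finiteQuotientOfFreeOfNeBot w.ne_bot
  have := Fintype.ofFinite (𝓞 F ⧸ w.asIdeal)
  have := w.isMaximal
  let _ := Ideal.Quotient.field w.asIdeal
  have pe : Per w.asIdeal e := fun x y hxy => by
    rw [show x = y + (x - y) by ring, he, he1 _ hxy, mul_one]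
  have lift : ∀ {Y : Type} {g : 𝓞 F → Y}, Per w.asIdeal g → ∀ (c : 𝓞 F ⧸ w.asIdeal) (x : 𝓞 F),
      Ideal.Quotient.mk w.asIdeal x = c → g (Quotient.out c) = g x := by
    rintro Y g hg c x rfl
    exact out_mk hg x
  have key := field_quad (k := 𝓞 F ⧸ w.asIdeal) ?_ (fun c => f (Quotient.out c))
    (fun c => e (Quotient.out c)) (fun x y => ?_) ?_ (fun x hx => ?_) ?_ (fun x y => ?_) ?_
  · rw [gs, gs, finsum_eq_sum_of_fintype, finsum_eq_sum_of_fintype, key]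
    refine Finset.sum_congr rfl fun c _ => lift pe _ _ ?_
    rw [map_pow, Ideal.Quotient.mk_out]
  · intro h
    have h' : (2 : 𝓞 F) ∈ w.asIdeal := Ideal.Quotient.eq_zero_iff_mem.1 h
    have := (og_pos_iff w two_ne_zero).2 h'
    rw [show ((2 : 𝓞 F) : F) = 2 from rfl, h2] at this
    exact lt_irrefl _ this
  · rw [← hm]
    refine lift hf _ _ ?_
    rw [map_mul, Ideal.Quotient.mk_out, Ideal.Quotient.mk_out]
  · exact h0 _ (Ideal.Quotient.eq_zero_iff_mem.1 (Ideal.Quotient.mk_out _))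
  · refine h1 _ fun h => hx ?_
    rw [← Ideal.Quotient.mk_out x]
    exact Ideal.Quotient.eq_zero_iff_mem.2 h
  · obtain ⟨x, hx⟩ := hn
    exact ⟨Ideal.Quotient.mk _ x, (out_mk hf x).trans hx⟩
  · rw [← he]
    refine lift pe _ _ ?_
    rw [map_add, Ideal.Quotient.mk_out, Ideal.Quotient.mk_out]
  · obtain ⟨x, hx⟩ := hne
    exact ⟨Ideal.Quotient.mk _ x, fun h => hx ((out_mk pe x).symm.trans h)⟩

end GsAux

theorem st_Gs : GsSt where
  ex := fun {F _ _ 𝔪} 𝔟 h => exists_isRep fun h0 => by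
    have := 𝔪.finiteQuotientOfFreeOfNeBot h
    have h1 := AddSubgroup.relIndex_eq_zero_of_le_right (le_top (a := 𝔟.toAddSubgroup)) h0
    rw [AddSubgroup.relIndex_top_right] at h1
    exact (Nat.card_pos (α := 𝓞 F ⧸ 𝔪)).ne' h1
  rep := GsAux.rep
  top := GsAux.top
  unit := fun {F _ _ 𝔪 f u} _ hf hu => by
    obtain ⟨a, ha, b, hb, hab⟩ := Ideal.isCoprime_iff_exists.1 hu
    obtain ⟨v, rfl⟩ := Ideal.mem_span_singleton'.1 ha
    have h1 : IsUnit (Ideal.Quotient.mk 𝔪 u) := IsUnit.of_mul_eq_one (Ideal.Quotient.mk 𝔪 v) (by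
      rw [← map_mul, mul_comm, ← map_one (Ideal.Quotient.mk 𝔪), ← hab, map_add,
        Ideal.Quotient.eq_zero_iff_mem.2 hb, add_zero])
    refine (GsAux.gs_bij hf (fun c : 𝓞 F ⧸ 𝔪 => u * Quotient.out c) ?_).symm
    simp only [map_mul, Ideal.Quotient.mk_out]
    exact h1.unit.mulLeft_bijective
  equiv := fun {F _ _ 𝔪 𝔪' f} φ _ hf h => by
    refine (GsAux.gs_bij hf (fun c : 𝓞 F ⧸ 𝔪' => φ (Quotient.out c)) ⟨fun x y hxy => ?_,
      fun c => ?_⟩).symm
    · rw [← Ideal.Quotient.mk_out x, ← Ideal.Quotient.mk_out y]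
      refine Ideal.Quotient.eq.2 ((h _).2 ?_)
      rw [map_sub]
      exact Ideal.Quotient.eq.1 hxy
    · obtain ⟨y, rfl⟩ := Ideal.Quotient.mk_surjective c
      obtain ⟨x, rfl⟩ := φ.surjective y
      refine ⟨Ideal.Quotient.mk _ x, Ideal.Quotient.eq.2 ?_⟩
      rw [← map_sub]
      exact (h _).1 (Ideal.Quotient.eq.1 (Ideal.Quotient.mk_out _))
  smul := fun _ c _ => (mul_finsum _ c).symm
  cj := fun _ _ => ((starRingEnd ℂ).toAddMonoidHom.map_finsum_of_injective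
    (starRingEnd ℂ).injective _).symm
  crt := GsAux.crt
  quad := GsAux.quad

end Pool.Agent.SC
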