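import Pool.Agent.Lib.MP_b4b3cb_nt.StR

/-! Consequences of conjugate duality, and elementary facts on local Gauss sums. -/

namespace Pool.Agent.SC

open NumberField Pool.Agent.Stark
open scoped Classical ComplexConjugate

variable {K L : Type} [Field K] [NumberField K] [Field L] [NumberField L] [Algebra K L]

namespace HDAux

variable {d : K} {E : Quad K L d} {𝔣 𝔠 : Ideal (𝓞 L)} {a : (L →+* ℂ) → ℤ}
  {ψ : Ideal (𝓞 L) →* ℂ} {χ : 𝓞 L → ℤ} {γ₀ : K} {w : Pr L} {e e' : 𝓞 L}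

omit [NumberField K] in
theorem le_of_per (H : HD E 𝔣 a ψ χ) {𝔤 : Ideal (𝓞 L)} (h : Per 𝔤 χ) : 𝔤 ≤ 𝔣 := by
  by_contra hn
  obtain ⟨x, x1, x2⟩ := H.prim (𝔣 ⊔ 𝔤) (left_lt_sup.2 hn)
  obtain ⟨f, hf, g, hg, e⟩ := Submodule.mem_sup.1 x1
  have h1 : χ x = χ (1 + g) := H.per _ _ (by
    rwa [show x - (1 + g) = f by linear_combination -e])
  have h2 : χ (1 + g) = χ 1 := h _ _ (by rwa [add_sub_cancel_left])
  rw [h1, h2, H.one] at x2
  exact absurd x2 (by decide)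

theorem chi_sg (hM : CmSt K L) (H : HD E 𝔣 a ψ χ) {x : 𝓞 L} (hx : χ x ≠ 0) :
    χ (E.sg x) = χ x := by
  by_cases h0 : x = 0
  · rw [h0, map_zero]
  have h1 := H.dual _ (by simpa using h0) ((H.zero x).1 hx)
  rw [Ideal.map_span, Set.image_singleton, H.prin x h0, H.prin _ (by simpa using h0),
    Quad.coe_sg] at h1
  have h2 := (hM.pinf_tau H.cm x h0).1
  have h3 : ((χ (E.sg x) * χ x : ℤ) : ℂ) = 1 := by
    push_cast
    linear_combination h1 - (χ (E.sg x) * χ x : ℂ) * h2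
  exact Int.eq_of_mul_eq_one (by exact_mod_cast h3)

theorem sym (hQ : QdSt K L) (hM : CmSt K L) (H : HD E 𝔣 a ψ χ) :
    𝔣.map E.sg = 𝔣 ∧ ∀ x, χ (E.sg x) = χ x := by
  have h1 : ∀ x, χ (E.sg x) = χ x := fun x => by
    by_cases hx : χ x = 0
    · by_contra h
      have := chi_sg hM H (x := E.sg x) (hx ▸ h)
      rw [hQ.sg_sg] at this
      exact h this.symm
    · exact chi_sg hM H hx
  have h2 : 𝔣.map E.sg ≤ 𝔣 := le_of_per H fun x y h => by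
    rw [← h1 x, ← h1 y]
    exact H.per _ _ (by rw [← map_sub]; exact (hQ.mem_map E 𝔣 _).1 h)
  refine ⟨le_antisymm h2 ?_, h1⟩
  have := Ideal.map_mono (f := E.sg) h2
  rwa [hQ.map_map] at this

omit [NumberField K] in
theorem off (hC : CnSt) (H : HD E 𝔣 a ψ χ) (I : Ideal (𝓞 L)) (h0 : I ≠ ⊥)
    (h : ¬ IsCoprime I 𝔣) : ψ I = 0 := by
  obtain ⟨n, β, n0, b0, e⟩ := hC.cls I h0
  have h1 : χ β = 0 := by
    by_contra h1
    have := (H.zero β).1 h1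
    rw [← e] at this
    exact h ((IsCoprime.pow_left_iff (Nat.pos_of_ne_zero n0)).1 this)
  have h2 := H.prin β b0
  rw [← e, map_pow, h1, Int.cast_zero, zero_mul] at h2
  exact pow_eq_zero_iff n0 |>.1 h2

theorem norm (hC : CnSt) (hM : CmSt K L) (H : HD E 𝔣 a ψ χ) (I : Ideal (𝓞 L)) (h0 : I ≠ ⊥)
    (h : IsCoprime I 𝔣) : ‖ψ I‖ ^ 2 * Ideal.absNorm I = 1 := by
  obtain ⟨n, β, n0, b0, e⟩ := hC.cls I h0
  have h1 : ‖(χ β : ℂ)‖ = 1 := by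
    rcases H.val β with h1 | h1 | h1
    · exact absurd h1 ((H.zero β).2 (e ▸ h.pow_left))
    · simp [h1]
    · simp [h1]
  have h2 := congrArg (‖·‖) (H.prin β b0)
  have h3 := (hM.pinf_tau H.cm β b0).2
  simp only [norm_mul, h1, one_mul] at h2
  rw [← h2, ← e, map_pow, map_pow, norm_pow, ← pow_mul, mul_comm n, pow_mul, Nat.cast_pow,
    ← mul_pow] at h3
  exact (pow_eq_one_iff_of_nonneg (by positivity) n0).1 h3

omit [NumberField K] in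
theorem odd (hC : CnSt) (H : HD E 𝔣 a ψ χ) (w : Pr L) (h2 : og w (2 : L) = 0) : cn 𝔣 w ≤ 1 := by
  by_contra hn
  have h1 : w.asIdeal ^ 2 ∣ 𝔣 := Ideal.dvd_iff_le.2 ((hC.le_pow H.ne w 2).2 (by omega))
  obtain ⟨𝔤, hg⟩ := h1
  have h3 : (2 : 𝓞 L) ∉ w.asIdeal := fun h =>
    ((og_pos_iff w (x := 2) two_ne_zero).2 h).ne' h2
  obtain ⟨y, c, hc, e⟩ := w.isMaximal.exists_inv h3
  have h4 : 𝔣 = w.asIdeal * (w.asIdeal * 𝔤) := by rw [hg]; ring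
  obtain ⟨x, x1, x2⟩ := H.prim (w.asIdeal * 𝔤) (by
    refine lt_of_le_of_ne (h4.trans_le Ideal.mul_le_right) fun h => w.isPrime.ne_top ?_
    rw [← Ideal.one_eq_top]
    refine mul_right_cancel₀ (b := 𝔣) H.ne ?_
    rw [one_mul]
    conv_lhs => rw [h]
    exact h4.symm)
  have h5 : χ ((1 + y * (x - 1)) * (1 + y * (x - 1))) = χ x := H.per _ _ (by
    rw [h4, show (1 + y * (x - 1)) * (1 + y * (x - 1)) - x =
      (y * y * (x - 1) - c) * (x - 1) by linear_combination (x - 1) * e]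
    exact Ideal.mul_mem_mul (sub_mem (Ideal.mul_mem_left _ _ (Ideal.mul_le_left x1)) hc) x1)
  rw [H.mul, x2] at h5
  linarith [mul_self_nonneg (χ (1 + y * (x - 1)))]

omit [NumberField K] in
theorem loc (hC : CnSt) (H : HD E 𝔣 a ψ χ) (w : Pr L) (h : 𝔣 ≤ w.asIdeal) :
    ∃ x, χ x = -1 ∧ ∀ w' : Pr L, w' ≠ w → x - 1 ∈ w'.asIdeal ^ cn 𝔣 w' := by
  obtain ⟨𝔤, g0, hg⟩ := hC.mk' (fun w' => if w' = w then 0 else cn 𝔣 w')
    ((hC.fin H.ne).subset fun w' hw => by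
      by_contra hn
      exact hw (by simp [(hC.zero H.ne w').2 hn]))
  obtain ⟨x, x1, x2⟩ := H.prim 𝔤 (lt_of_le_of_ne (fun x hx => (hC.mem g0 x).2 fun w' => by
    rw [hg]
    split_ifs
    · simp
    · exact (hC.mem H.ne x).1 hx w') fun e => (hC.zero H.ne w).1 (by simpa [e] using hg w) h)
  exact ⟨x, x2, fun w' hw => by simpa [hg, hw] using (hC.mem g0 _).1 x1 w'⟩

theorem mem' (hC : CnSt) (h0 : 𝔣 ≠ ⊥) {x : 𝓞 L} (h1 : x ∈ w.asIdeal ^ cn 𝔣 w)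
    (h2 : ∀ w' : Pr L, w' ≠ w → x ∈ w'.asIdeal ^ cn 𝔣 w') : x ∈ 𝔣 :=
  (hC.mem h0 x).2 fun w' => if h : w' = w then h ▸ h1 else h2 w' h

theorem mem (hC : CnSt) (h0 : 𝔣 ≠ ⊥) (h : Idm 𝔣 w e) (u : 𝓞 L) (hu : u ∈ w.asIdeal ^ cn 𝔣 w) :
    e * u ∈ 𝔣 :=
  mem' hC h0 (Ideal.mul_mem_left _ _ hu) fun w' hw => Ideal.mul_mem_right _ _ (h.2 w' hw)

theorem sub (hC : CnSt) (h0 : 𝔣 ≠ ⊥) (h : Idm 𝔣 w e) (h' : Idm 𝔣 w e') : e - e' ∈ 𝔣 :=
  mem' hC h0 (by simpa using sub_mem h.1 h'.1) fun w' hw => sub_mem (h.2 w' hw) (h'.2 w' hw)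

omit [NumberField K] in
theorem triv (G : Gm E 𝔣 𝔠 γ₀) (x : 𝓞 L) (hx : x ∈ 𝔣) :
    eTr (algebraMap K L γ₀ * (x : L)) = 1 := by
  simpa using (G.iff 1).2 (fun c _ => ⟨c, (one_mul _).symm⟩) x hx

omit [NumberField K] in
theorem tr_congr (G : Gm E 𝔣 𝔠 γ₀) {x y e e' : 𝓞 L} (h : e * x - e' * y ∈ 𝔣) :
    eTr (algebraMap K L γ₀ * (e : L) * (x : L)) = eTr (algebraMap K L γ₀ * (e' : L) * (y : L)) := by
  rw [← mul_one (eTr (_ * (y : L))), ← triv G _ h, ← eTr_add]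
  congr 1
  push_cast
  ring

omit [NumberField K] in
theorem per (hC : CnSt) (H : HD E 𝔣 a ψ χ) (h : Idm 𝔣 w e) :
    Per (w.asIdeal ^ cn 𝔣 w) fun x => χ (1 + e * (x - 1)) := fun x y hxy =>
  H.per _ _ (by
    rw [show 1 + e * (x - 1) - (1 + e * (y - 1)) = e * (x - y) by ring]
    exact mem hC H.ne h _ hxy)

theorem pow_le (hC : CnSt) (h0 : 𝔣 ≠ ⊥) (h : 𝔣 ≤ w.asIdeal) : w.asIdeal ^ cn 𝔣 w ≤ w.asIdeal :=
  Ideal.pow_le_self fun e => (hC.zero h0 w).1 e h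

omit [NumberField K] in
theorem mul (hC : CnSt) (H : HD E 𝔣 a ψ χ) (h : Idm 𝔣 w e) (x y : 𝓞 L) :
    χ (1 + e * (x * y - 1)) = χ (1 + e * (x - 1)) * χ (1 + e * (y - 1)) := by
  rw [← H.mul]
  refine (H.per _ _ ?_).symm
  rw [show (1 + e * (x - 1)) * (1 + e * (y - 1)) - (1 + e * (x * y - 1)) =
    e * ((e - 1) * ((x - 1) * (y - 1))) by ring]
  exact mem hC H.ne h _ (Ideal.mul_mem_right _ _ h.1)

omit [NumberField K] in
theorem zero (hC : CnSt) (H : HD E 𝔣 a ψ χ) (h : Idm 𝔣 w e) (hw : 𝔣 ≤ w.asIdeal) (x : 𝓞 L) :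
    χ (1 + e * (x - 1)) = 0 ↔ x ∈ w.asIdeal := by
  have h1 : 1 + e * (x - 1) ∈ w.asIdeal ↔ x ∈ w.asIdeal := by
    rw [show 1 + e * (x - 1) = (e - 1) * (x - 1) + x by ring]
    exact Ideal.add_mem_iff_right _ (Ideal.mul_mem_right _ _ (pow_le hC H.ne hw h.1))
  rw [← not_iff_not, ← ne_eq, H.zero, hC.cop_span _ H.ne]
  refine ⟨fun g => mt h1.2 (g w hw), fun g w' hw' g' => ?_⟩
  by_cases e' : w' = w
  · exact g (h1.1 (e' ▸ g'))
  · exact w'.isPrime.ne_top ((Ideal.eq_top_iff_one _).2 ((Ideal.add_mem_iff_left _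
      (Ideal.mul_mem_right _ _ (pow_le hC H.ne hw' (h.2 w' e')))).1 g'))

omit [NumberField K] in
theorem nontriv (hC : CnSt) (H : HD E 𝔣 a ψ χ) (h : Idm 𝔣 w e) (hw : 𝔣 ≤ w.asIdeal) :
    ∃ x, χ (1 + e * (x - 1)) = -1 := by
  obtain ⟨x, x1, x2⟩ := loc hC H w hw
  refine ⟨x, (H.per _ _ ?_).trans x1⟩
  rw [show 1 + e * (x - 1) - x = (e - 1) * (x - 1) by ring]
  exact mem' hC H.ne (Ideal.mul_mem_right _ _ h.1) fun w' g => Ideal.mul_mem_left _ _ (x2 w' g)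

omit [NumberField K] in
theorem per' (hC : CnSt) (H : HD E 𝔣 a ψ χ) (G : Gm E 𝔣 𝔠 γ₀) (h : Idm 𝔣 w e) :
    Per (w.asIdeal ^ cn 𝔣 w) fun x =>
      (χ (1 + e * (x - 1)) : ℂ) * eTr (algebraMap K L γ₀ * (e : L) * (x : L)) := fun x y hxy => by
  have h1 := per hC H h x y hxy
  beta_reduce at h1 ⊢
  rw [h1, tr_congr G (x := x) (y := y) (e' := e) (by rw [← mul_sub]; exact mem hC H.ne h _ hxy)]

omit [NumberField K] in
theorem tl_congr (hC : CnSt) (H : HD E 𝔣 a ψ χ) (G : Gm E 𝔣 𝔠 γ₀) (h : Idm 𝔣 w e)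
    (h' : Idm 𝔣 w e') : tl 𝔣 χ (algebraMap K L γ₀) w e = tl 𝔣 χ (algebraMap K L γ₀) w e' := by
  have h1 := sub hC H.ne h h'
  refine congrArg (gs _) (funext fun x => ?_)
  rw [H.per (1 + e * (x - 1)) (1 + e' * (x - 1)) (by
    rw [add_sub_add_left_eq_sub, ← sub_mul]; exact Ideal.mul_mem_right _ _ h1),
    tr_congr G (x := x) (y := x) (e' := e') (by
      rw [← sub_mul]; exact Ideal.mul_mem_right _ _ h1)]

omit [NumberField K] in
theorem tl_one (hC : CnSt) (H : HD E 𝔣 a ψ χ) (G : Gm E 𝔣 𝔠 γ₀) (h : Idm 𝔣 w e)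
    (hw : ¬ 𝔣 ≤ w.asIdeal) : tl 𝔣 χ (algebraMap K L γ₀) w e = 1 := by
  have h0 : w.asIdeal ^ cn 𝔣 w = ⊤ := by rw [(hC.zero H.ne w).2 hw, pow_zero, Ideal.one_eq_top]
  have h1 : ∀ u, e * u ∈ 𝔣 := fun u => mem hC H.ne h u (by rw [h0]; exact Submodule.mem_top)
  have := Ideal.Quotient.subsingleton_iff.2 h0
  have h2 : ∀ x : 𝓞 L,
      (χ (1 + e * (x - 1)) : ℂ) * eTr (algebraMap K L γ₀ * (e : L) * (x : L)) = 1 := fun x => by
    rw [H.per _ 1 (by rw [add_sub_cancel_left]; exact h1 _), H.one, Int.cast_one, one_mul,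
      ← triv G _ (h1 x)]
    congr 1
    push_cast
    ring
  exact (finsum_eq_single _ 0 fun x hx => absurd (Subsingleton.elim x 0) hx).trans (h2 _)

omit [NumberField L] in
theorem ng (h : Idm 𝔣 w e) : Ng 𝔣 w (1 + e * (-1 - 1)) := by
  refine ⟨?_, fun w' hw => ?_⟩
  · rw [show 1 + e * (-1 - 1) + 1 = -2 * (e - 1) by ring]
    exact Ideal.mul_mem_left _ _ h.1
  · rw [add_sub_cancel_left]
    exact Ideal.mul_mem_right _ _ (h.2 w' hw)

end HDAux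

open HDAux

theorem st_HD (hC : CnSt) (hQ : QdSt K L) (hM : CmSt K L) : HDSt K L where
  sym H := sym hQ hM H
  off H := off hC H
  norm H := norm hC hM H
  le := fun {_ _ 𝔣 _ ψ _} H I h0 => by
    by_cases h : IsCoprime I 𝔣
    · have h1 := norm hC hM H I h0 h
      have h2 : (1 : ℝ) ≤ Ideal.absNorm I :=
        Nat.one_le_cast.2 (Nat.pos_of_ne_zero (mt Ideal.absNorm_eq_zero_iff.1 h0))
      by_contra h3
      nlinarith [not_le.1 h3]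
    · simp [off hC H I h0 h]
  unit H u := by
    rw [← H.prin u u.ne_zero, Ideal.span_singleton_eq_top.2 u.isUnit, ← Ideal.one_eq_top, map_one]
  odd H := odd hC H
  act := fun {_ E 𝔣 _ _ _} H w => by
    have h1 : cn 𝔣 (E.act w) = cn 𝔣 w := by
      have := hQ.cn_act E H.ne w
      rwa [(sym hQ hM H).1] at this
    have h2 : 𝔣 ≤ (E.act w).asIdeal ↔ 𝔣 ≤ w.asIdeal := by
      rw [← not_iff_not, ← hC.zero H.ne, ← hC.zero H.ne, h1]
    exact ⟨h1, h2, by rw [Gd, Gd, h2, hQ.two, hQ.two, hQ.below_act]⟩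
  loc H := loc hC H

theorem st_Tl (hC : CnSt) (_hQ : QdSt K L) (_hH : HDSt K L) : TlSt K L where
  mem h0 h := mem hC h0 h
  sub h0 h h' := sub hC h0 h h'
  ng h := ng h
  triv G := triv G
  mul H _ _ h := mul hC H h
  per H _ _ h := per hC H h
  zero H _ _ h := zero hC H h
  nontriv H _ _ h := nontriv hC H h
  per' H G _ _ h := per' hC H G h
  congr H G _ _ _ h h' := tl_congr hC H G h h'
  one H G _ _ h := tl_one hC H G h

end Pool.Agent.SC
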