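import Pool.Agent.Lib.MP_b4b3cb_nt.StG

/-! Inertia and Frobenius elements acting on square roots. -/

namespace Pool.Agent.SC

open NumberField Pool.Agent.Stark
open scoped Classical Pointwise Topology IntermediateField

namespace IneAux

section Base

variable {F : Type} [Field F] [NumberField F]

theorem og_eq_zero (q : Pr F) {x : 𝓞 F} (hx : x ∉ q.asIdeal) : x ≠ 0 ∧ og q (x : F) = 0 := by
  have h0 : x ≠ 0 := fun e => hx (e ▸ q.asIdeal.zero_mem)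
  have h1 := og_nonneg q x
  have h2 := mt (og_pos_iff q h0).1 hx
  exact ⟨h0, by omega⟩

theorem coe_ne {x : 𝓞 F} (hx : x ≠ 0) : (x : F) ≠ 0 := fun e => hx (RingOfIntegers.ext e)

/-- An element of even order is an integral unit at `q` up to a square. -/
theorem unit_rep (q : Pr F) {a : F} (ha : a ≠ 0) (he : Even (og q a)) :
    ∃ (t : F) (b : 𝓞 F), t ≠ 0 ∧ b ∉ q.asIdeal ∧ (b : F) = a * t ^ 2 := by
  obtain ⟨k, hk⟩ := he
  obtain ⟨p, hp⟩ := q.valuation_exists_uniformizer F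
  have hp0 : p ≠ 0 := by
    rintro rfl
    rw [map_zero] at hp
    exact WithZero.exp_ne_zero hp.symm
  have hp1 : ord (q.valuation F) p = 1 := by
    rw [ord, hp, WithZero.log_exp]
    rfl
  have hs0 : p ^ (-k) ≠ 0 := zpow_ne_zero _ hp0
  have hx0 : a * (p ^ (-k)) ^ 2 ≠ 0 := mul_ne_zero ha (pow_ne_zero _ hs0)
  have hx : ord (q.valuation F) (a * (p ^ (-k)) ^ 2) = 0 := by
    rw [ord_mul ha (pow_ne_zero _ hs0), ord_pow, ord_zpow, hp1]
    rw [og] at hk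
    rw [hk]
    push_cast
    ring
  obtain ⟨n, d, hnd⟩ := q.exists_primeCompl_mul_eq_of_integer (a * (p ^ (-k)) ^ 2) (by
    rw [val_eq_exp hx0, hx]
    simp)
  have hd : (d : 𝓞 F) ∉ q.asIdeal := d.2
  obtain ⟨hd0, hd1⟩ := og_eq_zero q hd
  have hnd' : a * (p ^ (-k)) ^ 2 * ((d : 𝓞 F) : F) = (n : F) := hnd
  have hn0 : (n : F) ≠ 0 := hnd' ▸ mul_ne_zero hx0 (coe_ne hd0)
  have hn : n ∉ q.asIdeal := fun h => by
    have h1 := (og_pos_iff q (x := n) fun e => hn0 (by rw [e]; rfl)).2 h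
    rw [← hnd', og, ord_mul hx0 (coe_ne hd0), hx] at h1
    rw [og] at hd1
    omega
  refine ⟨p ^ (-k) * ((d : 𝓞 F) : F), n * d, mul_ne_zero hs0 (coe_ne hd0),
    fun h => (q.isPrime.mem_or_mem h).elim hn hd, ?_⟩
  change (n : F) * ((d : 𝓞 F) : F) = _
  rw [← hnd']
  ring

/-- A unit which is a square modulo an odd prime is a local square. -/
theorem lsq_of_mod (q : Pr F) (h2 : og q (2 : F) = 0) {b c : 𝓞 F} (hc : c ∉ q.asIdeal)
    (h : b - c ^ 2 ∈ q.asIdeal) : LSq q (b : F) := by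
  obtain ⟨hc0, hc1⟩ := og_eq_zero q hc
  have hc2 : (c : F) ^ 2 ≠ 0 := pow_ne_zero _ (coe_ne hc0)
  have h1 : ((b - c ^ 2 : 𝓞 F) : F) ∈ pw (q.valuation F) (1 : ℕ) :=
    (ComplAux.int_mem_pw q _ 1).2 (by rwa [pow_one])
  have h3 : ((b - c ^ 2 : 𝓞 F) : F) / (c : F) ^ 2 ∈ pw (q.valuation F) (1 : ℕ) :=
    (LocAux.pw_div_iff hc2 (by rw [ord_pow]; rw [og] at hc1; rw [hc1, mul_zero])).2 h1
  have h4 : IsSquare (emb q ((b : F) / (c : F) ^ 2)) := by
    refine LocAux.hens (isLoc_wv q) ?_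
    have e2 : ord (wv q) (2 : Kc q) = 0 := by
      rw [← h2, ← ord_emb, map_ofNat]
    have e : emb q ((b : F) / (c : F) ^ 2) - 1 =
        emb q (((b - c ^ 2 : 𝓞 F) : F) / (c : F) ^ 2) := by
      rw [← map_one (emb q), ← map_sub]
      congr 1
      change _ = ((b : F) - (c : F) ^ 2) / (c : F) ^ 2
      rw [sub_div, div_self hc2]
    rw [e, e2, ComplAux.emb_mem_pw]
    simpa using h3
  have e : (b : F) = (b : F) / (c : F) ^ 2 * (c : F) ^ 2 := (div_mul_cancel₀ _ hc2).symm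
  rw [LSq, e, map_mul, map_pow]
  exact h4.mul ⟨_, sq _⟩

/-- The criterion of Euler. -/
theorem euler (q : Pr F) (h2 : og q (2 : F) = 0) :
    Ideal.absNorm q.asIdeal % 2 = 1 ∧ ∀ b : 𝓞 F, b ∉ q.asIdeal →
      b ^ (Ideal.absNorm q.asIdeal / 2) - 1 ∈ q.asIdeal → LSq q (b : F) := by
  have := q.isMaximal
  let _ := Ideal.Quotient.field q.asIdeal
  have : Finite (𝓞 F ⧸ q.asIdeal) := Ideal.finiteQuotientOfFreeOfNeBot _ q.ne_bot
  let _ := Fintype.ofFinite (𝓞 F ⧸ q.asIdeal)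
  have hN : Ideal.absNorm q.asIdeal = Fintype.card (𝓞 F ⧸ q.asIdeal) := by
    rw [Ideal.absNorm_apply, Submodule.cardQuot_apply, Nat.card_eq_fintype_card]
  have h2' : (2 : 𝓞 F) ∉ q.asIdeal := fun h => by
    have h1 := (og_pos_iff q (x := 2) two_ne_zero).2 h
    have e : ((2 : 𝓞 F) : F) = 2 := rfl
    rw [e, h2] at h1
    exact lt_irrefl _ h1
  have hch : ringChar (𝓞 F ⧸ q.asIdeal) ≠ 2 := fun h => h2' (by
    have h1 := ringChar.Nat.cast_ringChar (R := 𝓞 F ⧸ q.asIdeal)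
    rw [h] at h1
    exact Ideal.Quotient.eq_zero_iff_mem.1 (by rw [map_ofNat]; exact_mod_cast h1))
  rw [hN]
  refine ⟨FiniteField.odd_card_of_char_ne_two hch, fun b hb h => ?_⟩
  have hb0 : Ideal.Quotient.mk q.asIdeal b ≠ 0 := fun e => hb (Ideal.Quotient.eq_zero_iff_mem.1 e)
  obtain ⟨c, hc⟩ := (FiniteField.isSquare_iff hch hb0).2 (by
    rw [← map_pow, ← map_one (Ideal.Quotient.mk q.asIdeal)]
    exact Ideal.Quotient.eq.2 h)
  obtain ⟨c, rfl⟩ := Ideal.Quotient.mk_surjective c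
  refine lsq_of_mod q h2 (c := c) (fun h0 => hb0 ?_) (Ideal.Quotient.eq.1 ?_)
  · rw [hc, Ideal.Quotient.eq_zero_iff_mem.2 h0, mul_zero]
  · rw [hc, map_pow, sq]

theorem even_of_lsq (q : Pr F) {a : F} (ha : a ≠ 0) (h : LSq q a) : Even (og q a) := by
  obtain ⟨s, hs⟩ := h
  have hs0 : s ≠ 0 := by
    rintro rfl
    exact ha ((map_eq_zero (emb q)).1 (by simpa using hs))
  rw [← ord_emb, hs, ord_mul hs0 hs0]
  exact ⟨_, rfl⟩

end Base

variable {K Ω : Type} [Field K] [Field Ω] [Algebra K Ω]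
variable {F : Type} [Field F] [NumberField F] [Algebra F Ω]

omit [NumberField F] in
theorem pm {a : F} {r : Ω} (hr : r ^ 2 = algebraMap F Ω a) {g : Ω ≃ₐ[K] Ω} (hg : g ∈ Gs K Ω F) :
    g r = r ∨ g r = -r :=
  sq_eq_sq_iff_eq_or_eq_neg.1 (by rw [← map_pow, hr, hg a])

omit [NumberField F] in
theorem coe_map (b : 𝓞 F) : ((algebraMap (𝓞 F) (𝓞 Ω) b : 𝓞 Ω) : Ω) = algebraMap F Ω b := rfl

/-- An integral multiple of the square root which is prime to `𝔓`. -/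
theorem root {𝔓 : Ideal (𝓞 Ω)} {q : Pr F} (h : Over 𝔓 q) {a : F} {r : Ω} (ha : a ≠ 0)
    (hr : r ^ 2 = algebraMap F Ω a) (he : Even (og q a)) :
    ∃ (t : F) (b : 𝓞 F) (s : 𝓞 Ω), t ≠ 0 ∧ b ∉ q.asIdeal ∧ (b : F) = a * t ^ 2 ∧ s ∉ 𝔓 ∧
      (s : Ω) = r * algebraMap F Ω t ∧ s ^ 2 = algebraMap (𝓞 F) (𝓞 Ω) b := by
  obtain ⟨t, b, ht, hb, e⟩ := unit_rep q ha he
  have e1 : (r * algebraMap F Ω t) ^ 2 = ((algebraMap (𝓞 F) (𝓞 Ω) b : 𝓞 Ω) : Ω) := by
    rw [coe_map, e, map_mul, map_pow, mul_pow, hr]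
  let s : 𝓞 Ω := ⟨r * algebraMap F Ω t,
    IsIntegral.of_pow (n := 2) two_pos (e1 ▸ RingOfIntegers.isIntegral_coe _)⟩
  have e2 : s ^ 2 = algebraMap (𝓞 F) (𝓞 Ω) b := RingOfIntegers.ext e1
  refine ⟨t, b, s, ht, hb, e, fun hs => hb ((h.2 b).2 ?_), rfl, e2⟩
  rw [← e2]
  exact 𝔓.pow_mem_of_mem hs 2 two_pos

omit [NumberField F] in
theorem coord {a : F} {r : Ω} (hr : r ^ 2 = algebraMap F Ω a) {y : Ω} (hy : y ∈ F⟮r⟯) :
    ∃ x z : F, y = algebraMap F Ω x + algebraMap F Ω z * r := by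
  have hi : IsIntegral F r := IsIntegral.of_pow two_pos (hr ▸ isIntegral_algebraMap)
  have hy' : y ∈ Algebra.adjoin F {r} := by
    rw [← IntermediateField.adjoin_simple_toSubalgebra_of_isAlgebraic hi.isAlgebraic]
    exact hy
  clear hy
  induction hy' using Algebra.adjoin_induction with
  | mem x hx => exact ⟨0, 1, by simpa using hx⟩
  | algebraMap c => exact ⟨c, 0, by simp⟩
  | add x y _ _ hx hy =>
    obtain ⟨x₁, z₁, rfl⟩ := hx
    obtain ⟨x₂, z₂, rfl⟩ := hy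
    exact ⟨x₁ + x₂, z₁ + z₂, by simp only [map_add]; ring⟩
  | mul x y _ _ hx hy =>
    obtain ⟨x₁, z₁, rfl⟩ := hx
    obtain ⟨x₂, z₂, rfl⟩ := hy
    exact ⟨x₁ * x₂ + z₁ * z₂ * a, x₁ * z₂ + z₁ * x₂, by
      simp only [map_add, map_mul, ← hr]; ring⟩

/-- An integer whose square lies in `F` and has odd order lies in `𝔓`. -/
theorem mem_of_odd {𝔓 : Ideal (𝓞 Ω)} {q : Pr F} (h : Over 𝔓 q) {a z : F} (ha : a ≠ 0)
    (ho : ¬ Even (og q a)) {w : 𝓞 Ω} (hw : (w : Ω) ^ 2 = algebraMap F Ω (z ^ 2 * a)) : w ∈ 𝔓 := by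
  let b : 𝓞 F := ⟨z ^ 2 * a, (isIntegral_algebraMap_iff (algebraMap F Ω).injective).1
    (hw ▸ (RingOfIntegers.isIntegral_coe w).pow 2)⟩
  have e : w ^ 2 = algebraMap (𝓞 F) (𝓞 Ω) b := RingOfIntegers.ext hw
  refine h.1.isPrime.mem_of_pow_mem 2 ?_
  rw [e, ← h.2]
  by_cases hz : z = 0
  · have : b = 0 := RingOfIntegers.ext (by
      change z ^ 2 * a = 0
      simp [hz])
    rw [this]
    exact q.asIdeal.zero_mem
  have hb : (b : F) = z ^ 2 * a := rfl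
  have hb0 : b ≠ 0 := fun e0 => mul_ne_zero (pow_ne_zero 2 hz) ha (by rw [← hb, e0]; rfl)
  rw [← og_pos_iff q hb0]
  have h1 := og_nonneg q b
  have h2 : og q (b : F) = 2 * og q z + og q a := by
    rw [hb, og, ord_mul (pow_ne_zero 2 hz) ha, ord_pow]
    rfl
  rw [Int.even_iff] at ho
  omega

end IneAux

variable {K Ω : Type} [Field K] [Field Ω] [Algebra K Ω]

open IneAux in
theorem st_Ine (hP : PrimeSt K Ω) (hF : FrobSt K Ω) (hL : LocSt K Ω) : IneSt K Ω := by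
  refine ⟨fun {F _ _ _ _ _ 𝔓 q} h h2 {a r} ha hr => ⟨fun he g hg => ?_, fun hfix => ?_⟩,
    fun {F _ _ _ _ _ 𝔓 q} h h2 {a r} ha hr he g hg hfr => ⟨fun hgr => ?_, fun hs => ?_⟩⟩
  · obtain ⟨t, b, s, -, -, -, hs, e, -⟩ := root h ha hr he
    refine (pm hr hg.2).resolve_right fun hn => ?_
    have h1 := (hP.mem_ine 𝔓 g).1 hg.1 s
    have h3 : g • s - s = -(2 * s) := RingOfIntegers.ext (by
      have e2 : ((2 : 𝓞 Ω) : Ω) = 2 := rfl
      simp only [map_sub, map_neg, map_mul, hP.coe_smul, e, e2, hn, hg.2 t]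
      ring)
    rw [h3, neg_mem_iff] at h1
    exact (h.1.isPrime.mem_or_mem h1).elim ((hP.two h).2 h2) hs
  · by_contra ho
    have hn : ¬ Fix (Dec K 𝔓 ⊓ Gs K Ω F) r := fun e =>
      ho (even_of_lsq q ha ((hL.sq h ha hr).2 e))
    simp only [Fix, not_forall] at hn
    obtain ⟨σ, hσ, hσr⟩ := hn
    have hσn : σ r = -r := (pm hr hσ.2).resolve_left hσr
    have hi : IsIntegral F r := IsIntegral.of_pow two_pos (hr ▸ isIntegral_algebraMap)
    have : FiniteDimensional F F⟮r⟯ := IntermediateField.adjoin.finiteDimensional hi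
    have : NumberField F⟮r⟯ := NumberField.of_module_finite F _
    have : IsScalarTower K F⟮r⟯ Ω := IsScalarTower.of_algebraMap_eq fun _ => rfl
    obtain ⟨g, hg, hI⟩ := hF.res (F := F⟮r⟯) h.1 σ hσ.1 fun y => by
      obtain ⟨x, z, e⟩ := coord hr (y : F⟮r⟯).2
      refine mem_of_odd h (z := 2 * z) ha ho ?_
      have e1 : ((algebraMap (𝓞 F⟮r⟯) (𝓞 Ω) y : 𝓞 Ω) : Ω) =
        algebraMap F Ω x + algebraMap F Ω z * r := e
      simp only [map_sub, hP.coe_smul, e1, map_add, map_mul, map_pow, hσ.2 x, hσ.2 z, hσn,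
        map_ofNat, ← hr]
      ring
    have hg' : g⁻¹ ∈ Gs K Ω F⟮r⟯ := Subgroup.inv_mem _ hg.2
    have hgF : g⁻¹ ∈ Gs K Ω F := fun x => hg' (algebraMap F F⟮r⟯ x)
    have hgr : g⁻¹ r = r := hg' (IntermediateField.AdjoinSimple.gen F r)
    have h1 := hfix _ ⟨hI, Subgroup.mul_mem _ hσ.2 hgF⟩
    rw [AlgEquiv.mul_apply, hgr] at h1
    exact hσr h1
  · obtain ⟨t, b, s, ht, hb, e0, hs, e, e2⟩ := root h ha hr he
    obtain ⟨hodd, heu⟩ := euler q h2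
    have h1 := hfr s
    have h3 : g • s = s := RingOfIntegers.ext (by
      simp only [hP.coe_smul, e, map_mul, hgr, hg t])
    have h4 : s - s ^ Ideal.absNorm q.asIdeal =
        -(s * algebraMap (𝓞 F) (𝓞 Ω) (b ^ (Ideal.absNorm q.asIdeal / 2) - 1)) := by
      rw [map_sub, map_pow, map_one, ← e2, ← pow_mul]
      conv_lhs => rw [← Nat.div_add_mod (Ideal.absNorm q.asIdeal) 2, hodd]
      ring
    rw [h3, h4, neg_mem_iff] at h1
    have h5 := heu b hb ((h.2 _).2 ((h.1.isPrime.mem_or_mem h1).resolve_left hs))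
    have e3 : a = (b : F) * t⁻¹ ^ 2 := by
      rw [e0]
      field_simp
    rw [LSq, e3, map_mul, map_pow]
    exact IsSquare.mul h5 ⟨_, sq _⟩
  · refine (hL.sq h ha hr).1 hs g ⟨hF.dec h.1 ?_ hfr, hg⟩
    have := (euler q h2).1
    omega

end Pool.Agent.SC
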