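import Pool.Agent.Lib.MP_b4b3cb_nt.StR

/-! The different of a quadratic extension and the choice of `γ₀`. -/

namespace Pool.Agent.SC

open NumberField Pool.Agent.Stark
open scoped Classical ComplexConjugate

namespace JAux

section One

variable {F : Type} [Field F] [NumberField F]

theorem og_mul (q : Pr F) {x y : F} (hx : x ≠ 0) (hy : y ≠ 0) :
    og q (x * y) = og q x + og q y := ord_mul hx hy

theorem mem_iff (q : Pr F) {z : F} (hz : z ≠ 0) (n : ℤ) :
    z ∈ pw (q.valuation F) n ↔ n ≤ og q z := by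
  rw [mem_pw_iff, og]
  simp [hz]

theorem cod {j : Pr F → ℤ} (hj : IsJ j) {z : F} (hz : z ≠ 0) :
    (∀ y : 𝓞 F, eTr (z * y) = 1) ↔ ∀ q, j q ≤ og q z := by
  rw [hj.iff]
  exact forall_congr' fun q => mem_iff q hz _

theorem nonpos {j : Pr F → ℤ} (hj : IsJ j) (q : Pr F) : j q ≤ 0 := by
  have h := (cod hj one_ne_zero).1 (fun y => by rw [one_mul]; exact eTr_int y) q
  simpa [og] using h

omit [NumberField F] in
theorem fin_ite (v : Pr F) (N : ℤ) {n : Pr F → ℤ} (hn : {w | n w ≠ 0}.Finite) :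
    {w | (if w = v then N else n w) ≠ 0}.Finite := by
  refine (hn.insert v).subset fun w hw => ?_
  by_cases h : w = v
  · exact Or.inl h
  · exact Or.inr (by simpa [h] using hw)

end One

variable {K L : Type} [Field K] [NumberField K] [Field L] [NumberField L] [Algebra K L]

theorem e_cases {d : K} (E : Quad K L d) (w : Pr L) : eI K w = 1 ∨ eI K w = 2 := by
  rcases E.efg w with h | h | h
  exacts [Or.inl h.2.1, Or.inl h.2.1, Or.inr h.2.1]

theorem odd_of_ram {d : K} (E : Quad K L d) (hd : ∀ v : Pr K, og v (2 : K) ≠ 0 → LSq v d)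
    {w : Pr L} (he : eI K w = 2) : og (below K w) (2 : K) = 0 := by
  by_contra h
  have h1 := (E.split_iff w).2 (hd _ h)
  rcases E.efg w with h2 | h2 | h2
  · omega
  · exact h1 h2.1
  · exact h1 h2.1

theorem tr_surj (hC : CnSt) (hQ : QdSt K L) {d : K} (E : Quad K L d)
    (hd : ∀ v : Pr K, og v (2 : K) ≠ 0 → LSq v d) (s : 𝓞 K) :
    ∃ y : 𝓞 L, algebraMap (𝓞 K) (𝓞 L) s = y + E.sg y := by
  have hs : ∀ x : 𝓞 K, E.sg (algebraMap (𝓞 K) (𝓞 L) x) = algebraMap (𝓞 K) (𝓞 L) x := fun x =>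
    RingOfIntegers.ext (E.tau.commutes (x : K))
  let T : Ideal (𝓞 K) :=
    { carrier := {t | ∃ y : 𝓞 L, algebraMap (𝓞 K) (𝓞 L) t = y + E.sg y}
      add_mem' := by
        rintro a b ⟨y, hy⟩ ⟨y', hy'⟩
        exact ⟨y + y', by rw [map_add, map_add, hy, hy']; ring⟩
      zero_mem' := ⟨0, by simp⟩
      smul_mem' := by
        rintro c a ⟨y, hy⟩
        exact ⟨algebraMap (𝓞 K) (𝓞 L) c * y, by
          rw [smul_eq_mul, map_mul, map_mul, hs, hy]; ring⟩ }
  have h2 : (2 : 𝓞 K) ∈ T := ⟨1, by rw [map_ofNat, map_one]; norm_num⟩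
  have hT : T = ⊤ := by
    by_contra hT
    obtain ⟨M, hM, hTM⟩ := Ideal.exists_le_maximal T hT
    have hM0 : M ≠ ⊥ := fun h => by
      have := hTM h2
      rw [h, Ideal.mem_bot] at this
      exact two_ne_zero this
    let v : Pr K := ⟨M, hM.isPrime, hM0⟩
    obtain ⟨w, hw⟩ := below_surj (K := L) v
    have h3 : 0 < og v ((2 : 𝓞 K) : K) := (og_pos_iff v two_ne_zero).2 (hTM h2)
    have h4 : LSq (below K w) d := by
      rw [hw]
      exact hd v (by
        have : ((2 : 𝓞 K) : K) = 2 := rfl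
        rw [this] at h3
        omega)
    have h5 := (E.split_iff w).2 h4
    obtain ⟨y, -, hy⟩ := hC.crt {w, E.act w} (fun w' => if w' = w then 1 else 0) 1
    have h6 := hy w (by simp)
    have h7 := hy (E.act w) (by simp)
    simp only [if_true, pow_one] at h6
    simp only [if_neg h5, pow_one, sub_zero] at h7
    rw [E.mem_act] at h7
    obtain ⟨t, ht, -⟩ := hQ.tr_int E y
    have h8 : t ∈ (below K w).asIdeal := by
      rw [hw]
      exact hTM ⟨y, ht⟩
    rw [hQ.mem_below, ht] at h8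
    have h9 : (1 : 𝓞 L) ∈ w.asIdeal := by
      have := w.asIdeal.sub_mem (w.asIdeal.sub_mem h8 h7) h6
      simpa using this
    exact w.isPrime.ne_top ((Ideal.eq_top_iff_one _).2 h9)
  have : s ∈ T := hT ▸ Submodule.mem_top
  exact this

theorem cod_up (hQ : QdSt K L) {d : K} (E : Quad K L d) {γ : K}
    (h : ∀ y : 𝓞 K, eTr (γ * y) = 1) (y : 𝓞 L) : eTr (algebraMap K L γ * y) = 1 := by
  obtain ⟨t, -, ht⟩ := hQ.tr_int E y
  rw [ht, h]

theorem cod_down (hC : CnSt) (hQ : QdSt K L) {d : K} (E : Quad K L d)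
    (hd : ∀ v : Pr K, og v (2 : K) ≠ 0 → LSq v d) {γ : K}
    (h : ∀ y : 𝓞 L, eTr (algebraMap K L γ * y) = 1) (s : 𝓞 K) : eTr (γ * s) = 1 := by
  obtain ⟨y, hy⟩ := tr_surj hC hQ E hd s
  obtain ⟨t, ht, ht'⟩ := hQ.tr_int E y
  have : t = s := FaithfulSMul.algebraMap_injective (𝓞 K) (𝓞 L) (ht.trans hy.symm)
  rw [← this, ← ht', h]

theorem j_act_le (hC : CnSt) (hQ : QdSt K L) {d : K} (E : Quad K L d) {jL : Pr L → ℤ}
    (hL : IsJ jL) (w : Pr L) : jL (E.act w) ≤ jL w := by
  obtain ⟨z, hz, h1, h2⟩ := hC.ex jL hL.fin {w}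
  have h3 := (cod hL hz).2 h2
  have hz' : E.tau z ≠ 0 := by simpa using hz
  have h4 : ∀ y : 𝓞 L, eTr (E.tau z * y) = 1 := fun y => by
    rw [← hQ.tr_tau E, map_mul, E.tau_tau, ← E.coe_sg, h3]
  have h5 := (cod hL hz').1 h4 (E.act w)
  rwa [E.og_act, E.tau_tau, h1 w (by simp)] at h5

theorem j_act (hC : CnSt) (hQ : QdSt K L) {d : K} (E : Quad K L d) {jL : Pr L → ℤ}
    (hL : IsJ jL) (w : Pr L) : jL (E.act w) = jL w := by
  have h1 := j_act_le hC hQ E hL w
  have h2 := j_act_le hC hQ E hL (E.act w)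
  rw [E.act_act] at h2
  omega

theorem j_le (hC : CnSt) (hQ : QdSt K L) {d : K} (E : Quad K L d) {jK : Pr K → ℤ}
    {jL : Pr L → ℤ} (hK : IsJ jK) (hL : IsJ jL) (w : Pr L) :
    jL w ≤ eI K w * jK (below K w) := by
  obtain ⟨γ, hγ, h1, h2⟩ := hC.ex jK hK.fin {below K w}
  have h3 := (cod hL ((map_ne_zero (algebraMap K L)).2 hγ)).1
    (cod_up hQ E ((cod hK hγ).2 h2)) w
  rwa [og_algebraMap, h1 _ (by simp)] at h3

theorem j_ge (hC : CnSt) (hQ : QdSt K L) {d : K} (E : Quad K L d)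
    (hd : ∀ v : Pr K, og v (2 : K) ≠ 0 → LSq v d) {jK : Pr K → ℤ}
    {jL : Pr L → ℤ} (hK : IsJ jK) (hL : IsJ jL) (w : Pr L) (N : ℤ) (h : jL w ≤ eI K w * N) :
    jK (below K w) ≤ N := by
  obtain ⟨γ, hγ, h1, h2⟩ := hC.ex (fun v => if v = below K w then N else 0)
    (fin_ite _ N (n := fun _ => 0) (by simp)) {below K w}
  have h3 : og (below K w) γ = N := by simpa using h1 (below K w) (by simp)
  have h4 : ∀ w' : Pr L, jL w' ≤ og w' (algebraMap K L γ) := fun w' => by
    rw [og_algebraMap]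
    by_cases hw : below K w' = below K w
    · rw [hw, h3]
      rcases (E.below_eq_iff w w').1 hw with rfl | rfl
      · exact h
      · rw [j_act hC hQ E hL, hQ.eI_act]
        exact h
    · have h5 := h2 (below K w')
      simp only [if_neg hw] at h5
      exact (nonpos hL w').trans (mul_nonneg (Nat.cast_nonneg _) h5)
  have h5 := (cod hK hγ).1
    (cod_down hC hQ E hd ((cod hL ((map_ne_zero (algebraMap K L)).2 hγ)).2 h4)) (below K w)
  rwa [h3] at h5

theorem og_rt {d : K} (E : Quad K L d) (w : Pr L) :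
    2 * og w E.rt = eI K w * og (below K w) d := by
  rw [← og_algebraMap, ← E.sq, sq, og_mul w E.rt_ne E.rt_ne]
  ring

theorem og_coef {d : K} (E : Quad K L d) {g h : K} (y : 𝓞 L)
    (hy : (y : L) = algebraMap K L g + algebraMap K L h * E.rt) (hh : h ≠ 0) (v : Pr K) :
    0 ≤ 2 * og v (2 * h) + og v d := by
  obtain ⟨w, rfl⟩ := below_surj (K := L) v
  have h2 : (2 * h : K) ≠ 0 := mul_ne_zero two_ne_zero hh
  have h1 : ((y - E.sg y : 𝓞 L) : L) = algebraMap K L (2 * h) * E.rt := by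
    have : ((y - E.sg y : 𝓞 L) : L) = (y : L) - E.tau y := rfl
    rw [this, hy, E.tau_mk, map_mul, map_ofNat]
    ring
  have h3 := og_nonneg w (y - E.sg y)
  rw [h1, og_mul w ((map_ne_zero _).2 h2) E.rt_ne, og_algebraMap] at h3
  have h4 := og_rt E w
  rcases e_cases E w with he | he <;> rw [he] at h3 h4 <;> push_cast at h3 h4 <;> omega

theorem j_ram (hC : CnSt) (hQ : QdSt K L) {d : K} (E : Quad K L d)
    (hd : ∀ v : Pr K, og v (2 : K) ≠ 0 → LSq v d) {jK : Pr K → ℤ}
    {jL : Pr L → ℤ} (hK : IsJ jK) (hL : IsJ jL) (w : Pr L) (he : eI K w = 2) :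
    jL w ≤ 2 * jK (below K w) - 1 := by
  obtain ⟨m, hm⟩ := (hQ.ram E w (odd_of_ram E hd he)).1 he
  obtain ⟨γ, hγ, h1, h2⟩ := hC.ex
    (fun v => if v = below K w then jK (below K w) - (m + 1) else |og v d|)
    (fin_ite _ _ (n := fun v => |og v d|) (by simpa using og_finite d)) {below K w}
  have h3 : og (below K w) γ = jK (below K w) - (m + 1) := by
    simpa using h1 (below K w) (by simp)
  have hγ' : algebraMap K L γ ≠ 0 := (map_ne_zero _).2 hγ
  have h4 : ∀ y : 𝓞 L, eTr (algebraMap K L γ * E.rt * y) = 1 := fun y => by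
    obtain ⟨g, h, hy⟩ := E.span (y : L)
    have h5 : algebraMap K L γ * E.rt * y =
        algebraMap K L (γ * h * d) + algebraMap K L (γ * g) * E.rt := by
      rw [hy, map_mul, map_mul, map_mul, ← E.sq]
      ring
    rw [h5, hQ.tr E]
    by_cases hh : h = 0
    · have := eTr_int (0 : 𝓞 K)
      simpa [hh] using this
    have h2h : (2 * h : K) ≠ 0 := mul_ne_zero two_ne_zero hh
    have h6 : 2 * (γ * h * d) = γ * (2 * h * d) := by ring
    have hx : γ * (2 * h * d) ≠ 0 := mul_ne_zero hγ (mul_ne_zero h2h E.a_ne)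
    have h7 := (cod hK hx).2 (fun v => by
      rw [og_mul v hγ (mul_ne_zero h2h E.a_ne), og_mul v h2h E.a_ne]
      have h8 := og_coef E y hy hh v
      by_cases hv : v = below K w
      · subst hv
        omega
      · have h9 := h2 v
        simp only [if_neg hv] at h9
        have h10 := nonpos hK v
        have h11 := neg_abs_le (og v d)
        have h12 := abs_nonneg (og v d)
        omega) 1
    rw [h6]
    simpa using h7
  have h5 := (cod hL (mul_ne_zero hγ' E.rt_ne)).1 h4 w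
  have h6 := og_rt E w
  rw [og_mul w hγ' E.rt_ne, og_algebraMap, h3, he] at h5
  rw [he] at h6
  push_cast at h5 h6
  omega

end JAux

open JAux

variable {K L : Type} [Field K] [NumberField K] [Field L] [NumberField L] [Algebra K L]

theorem st_J (hC : CnSt) (hQ : QdSt K L) : JSt K L := by
  intro d E jK jL hK hL hd w
  have h1 := j_le hC hQ E hK hL w
  rcases e_cases E w with he | he
  · have h2 := j_ge hC hQ E hd hK hL w (jL w) (by rw [he]; simp)
    rw [he] at h1
    rw [if_neg (by omega)]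
    push_cast at h1
    omega
  · have h2 := j_ram hC hQ E hd hK hL w he
    have h3 := j_ge hC hQ E hd hK hL w (jK (below K w) - 1)
    rw [he] at h3
    rw [if_pos he]
    push_cast at h3
    omega

theorem st_Gam (hJ : JSt K L) (hW : WeilSt) (hC : CnSt) (hQ : QdSt K L) (hH : HDSt K L) :
    GamSt K L := by
  intro d E 𝔣 a ψ χ hD hR jK hK
  obtain ⟨jL, gam, hWD⟩ := hW L
  have hL := hWD.isJ
  have hj := hJ E hK hL hR.dy
  choose sec hsec using below_surj (F := K) (K := L)
  have hc : ∀ w : Pr L, cn 𝔣 (sec (below K w)) = cn 𝔣 w := fun w => by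
    rcases (E.below_eq_iff w (sec (below K w))).1 (hsec _) with h | h
    · rw [h]
    · rw [h, (hH.act hD w).1]
  have hf := hC.fin hD.ne
  have hn : {v : Pr K | jK v - (cn 𝔣 (sec v) : ℤ) ≠ 0}.Finite := by
    refine (hK.fin.union (hf.image (below K))).subset fun v hv => ?_
    by_contra h
    simp only [Set.mem_union, Set.mem_ofPred_eq, not_or, not_not] at h
    have h1 : cn 𝔣 (sec v) = 0 := (hC.zero hD.ne _).2 fun h2 => h.2 ⟨sec v, h2, hsec v⟩
    exact hv (by rw [h.1, h1]; simp)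
  obtain ⟨γ, hγ, h1, h2⟩ := hC.ex _ hn (hf.toFinset.image (below K))
  obtain ⟨SL, hSL⟩ := exists_above (K := L) (hn.union (og_finite γ)).toFinset
  obtain ⟨𝔠, hc0, hcn⟩ := hC.mk'
    (fun w : Pr L => (og (below K w) γ - (jK (below K w) - cn 𝔣 (sec (below K w)))).toNat)
    (SL.finite_toSet.subset fun w hw => by
      rw [Finset.mem_coe, hSL, Set.Finite.mem_toFinset]
      by_contra h
      simp only [Set.mem_union, Set.mem_ofPred_eq, not_or, not_not] at h
      exact hw (by simp only [h.1, h.2]; rfl))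
  have hG : Gv K L jK 𝔣 𝔠 γ := fun w => by
    have h3 := h2 (below K w)
    rw [hcn w, ← hc w]
    omega
  have h0 : ∀ w : Pr L, 𝔣 ≤ w.asIdeal → cn 𝔠 w = 0 := fun w hw => by
    have h3 := h1 (below K w) (Finset.mem_image_of_mem _ (hf.mem_toFinset.2 hw))
    rw [hcn w, h3]
    simp
  have hkey : ∀ w : Pr L, og w (algebraMap K L γ) = jL w - cn 𝔣 w + cn 𝔠 w := fun w => by
    rw [og_algebraMap, hj w, hG w]
    rcases e_cases E w with he | he
    · rw [if_neg (by omega), he]
      simp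
    · have h3 := hR.ram w he
      have h4 := h0 w h3
      have h5 := hH.odd hD w ((hQ.two w).2 (odd_of_ram E hR.dy he))
      have h6 : cn 𝔣 w ≠ 0 := fun h => (hC.zero hD.ne w).1 h h3
      rw [if_pos he, he, h4, show cn 𝔣 w = 1 by omega]
      push_cast
      ring
  refine ⟨𝔠, γ, ⟨hγ, hc0, ?_, ?_, fun z => ?_⟩, hG⟩
  · exact (hC.cop 𝔠 hD.ne).2 fun w hw => (hC.zero hc0 w).1 (h0 w hw)
  · refine hC.ext (hQ.map_ne E hc0) hc0 fun w => ?_
    have h3 := hQ.cn_act E hc0 (E.act w)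
    rw [E.act_act] at h3
    rw [h3, hcn, hcn, E.below_act]
  · rw [hC.du hL hD.ne, hC.dinv hc0]
    refine forall_congr' fun w => ?_
    by_cases hz : z = 0
    · simp [hz]
    have hγ' : algebraMap K L γ ≠ 0 := (map_ne_zero _).2 hγ
    rw [mem_iff w (mul_ne_zero hγ' hz), mem_iff w hz, og_mul w hγ' hz, hkey w]
    omega

end Pool.Agent.SC
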