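import Pool.Agent.Lib.MP_b4b3cb_nt.StB

/-! The left kernel of the pairing. -/

namespace Pool.Agent.SC

open scoped Classical
open Module

theorem st_Ker (hL : LatSt) (hZ : ZSt) (hS : SelSt) (hE : PVexSt) (hP : PVSt) (hLag : LagSt)
    (hG : GoodSt) : KerSt := by
  intro G P _ _ _ A R dy S₀ hs i j x hij hx hy
  obtain ⟨x', t, S₁, h01, hx', hxx, ht, ha, hI, h0⟩ := hE A R dy S₀ hs hij hx
  obtain ⟨S, h1S, hlag⟩ := A.lag S₁
  let Λ : Submodule (ZMod 2) (G → ZMod 2) :=
    { carrier := {y | Hom ⊤ y ∧ ∀ v ∉ S, ∀ g ∈ A.I v, y g = 0}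
      add_mem' := fun ha hb => ⟨hZ.hom_add ha.1 hb.1, fun v hv g hg => by
        simp [ha.2 v hv g hg, hb.2 v hv g hg]⟩
      zero_mem' := ⟨(Hm ⊤).zero_mem.1, fun _ _ _ _ => rfl⟩
      smul_mem' := fun c a ha => ⟨((Hm ⊤).smul_mem c ⟨ha.1, by simp⟩).1, fun v hv g hg => by
        simp [ha.2 v hv g hg]⟩ }
  have good : ∀ v ∉ S, R.Good (A.D v) (A.I v) (dy v) :=
    fun v hv => hs.good v fun h => hv (h1S (h01 h))
  have gW : ∀ y ∈ Λ, ∀ v ∉ S, ∀ k, res (A.D v) y ∈ R.W (A.D v) (dy v) k :=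
    fun y hy v hv k => (good v hv k).2 y (hZ.hom_mono hy.1 le_top) (hy.2 v hv)
  have rs : ∀ v a b, A.sym v (res (A.D v) a) b = A.sym v a b :=
    fun v a b => A.congr _ _ _ _ _ (fun g hg => if_pos hg) fun _ _ => rfl
  have rs' : ∀ v a b, A.sym v a (res (A.D v) b) = A.sym v a b :=
    fun v a b => A.congr _ _ _ _ _ (fun _ _ => rfl) fun g hg => if_pos hg
  have rh : ∀ v, ∀ a ∈ Hm (A.D v), res (A.D v) a = a := fun v a ha => funext fun g => by
    by_cases hg : g ∈ A.D v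
    · exact if_pos hg
    · exact (if_neg hg).trans (ha.2 g hg).symm
  obtain ⟨z, hz, hzW⟩ := (hLag S (G → ZMod 2) (fun v => Hm (A.D v))
    (fun v => R.W (A.D v) (dy v) j) (fun v => R.W (A.D v) (dy v) (j + 1)) (fun v => A.sym v) Λ
    (fun v => resL (A.D v)) (fun v => A.finH v) (A.finS S)
    (fun v a ha a' ha' b hb => A.add v a a' b ha.1 ha'.1 hb.1)
    (fun v a ha b hb => A.comm v a b ha.1 hb.1)
    (fun v a ha h => funext fun g => by
      by_cases hg : g ∈ A.D v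
      · exact A.nondeg v a ha.1 (fun b hb => (rs' v a b).symm.trans (h _ (hZ.res_mem _ b hb))) g hg
      · exact ha.2 g hg)
    (fun v => hZ.W_le R _ _ _) (fun v => hZ.W_le R _ _ _)
    (fun v a ha b hb => hS.iso A R v (dy v) (hs.dyk v) j a b
      (by rwa [rh v a (hZ.W_le R _ _ _ ha)]) (by rwa [rh v b (hZ.W_le R _ _ _ hb)]))
    (fun v => by
      have := hs.big v
      obtain ⟨k, rfl | rfl⟩ := Int.even_or_odd' j
      · rwa [add_comm (2 * k), hZ.W_per, ← zero_add (2 * k), hZ.W_per]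
      · rwa [show 2 * k + 1 + 1 = 0 + 2 * (k + 1) by ring, add_comm (2 * k), hZ.W_per, hZ.W_per,
          add_comm])
    (fun v y hy => hZ.res_mem _ y (hZ.hom_mono hy.1 le_top))
    (fun y hy z hz => by
      rw [← hS.recip A y z hy.1 hz.1 S fun v hv =>
        hS.iso A R v (dy v) (hs.dyk v) 0 y z (gW y hy v hv _) (gW z hz v hv _),
        ← Finset.sum_coe_sort S]
      exact Finset.sum_congr rfl fun v _ => (rs _ _ _).trans (rs' _ _ _))
    (fun b hb h => by
      obtain ⟨z, h1, h2, h3⟩ := hlag (fun v => if hv : v ∈ S then b ⟨v, hv⟩ else 0)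
        (fun v hv => by rw [dif_pos hv]; exact (hb ⟨v, hv⟩).1) fun y h1 h2 => by
          rw [← h y ⟨h1, h2⟩, ← Finset.sum_coe_sort S]
          exact Finset.sum_congr rfl fun v _ => by rw [dif_pos v.2]; exact (rs _ _ _).symm
      refine ⟨z, ⟨h1, h2⟩, fun v => funext fun g => ?_⟩
      by_cases hg : g ∈ A.D v
      · exact (if_pos hg).trans ((h3 v v.2 g hg).trans (by rw [dif_pos v.2]))
      · exact (if_neg hg).trans ((hb v).2 g hg).symm)).1
    (fun v => res (A.D v) fun g => lam j (x' g - t v g)) (fun v => hZ.res_mem _ _ (ha v))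
    fun y hy' h => by
      have m : y ∈ SS A R dy (j + 1) 1 := (hS.one A R dy _ y).2 ⟨hy'.1, fun v => by
        by_cases hv : v ∈ S
        exacts [h ⟨v, hv⟩, gW y hy' v hv _]⟩
      rw [← hP.uniq A R dy S₀ hs hij m
        ⟨x', t, S, hx', hxx, ht, fun v hv => h0 y m v fun h => hv (h1S h), rfl⟩ (hy y m),
        ← Finset.sum_coe_sort S]
      exact Finset.sum_congr rfl fun v _ => (rs _ _ _).trans (rs' _ _ _)
  obtain ⟨w, hw, hw'⟩ := hZ.lev_hom R ⊤ j z hz.1
  have lv := (hZ.lev_add R ⊤ hx' (hZ.lev_mono R hw le_rfl hij le_rfl)).2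
  refine ⟨x' - w, ⟨lv, fun v => ?_⟩, fun g => ?_⟩
  · by_cases hv : v ∈ S
    · obtain ⟨t', h1, h2⟩ := (hZ.mem_W R _ _ _ _).1 (hzW ⟨v, hv⟩)
      refine ⟨t v + t', (hZ.z_add R _ _ (ht v).1
        (hZ.z_mem R _ _ h1 fun g hg => hL.anti hij (h1.1.2.1 g hg))).1, fun g hg => ?_⟩
      have e : lam j (x' g - t v g) - z g = lam j (t' g) := by
        simpa [resL, res, hg] using congrFun h2 g
      rw [← hL.lam_zero, show (x' - w) g - (t v + t') g = x' g - t v g - w g - t' g by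
        simp only [Pi.sub_apply, Pi.add_apply]; abel,
        hL.lam_sub ((T j).sub_mem ((ht v).2 g hg) (hw' g).1) (h1.1.2.1 g hg),
        hL.lam_sub ((ht v).2 g hg) (hw' g).1, (hw' g).2, ← e]
      generalize lam j (x' g - t v g) = a
      generalize z g = b
      revert a b
      decide
    · exact hG R _ _ _ (A.le v) (good v hv) (by omega) (hZ.lev_mono R lv le_top le_rfl le_rfl)
        fun g hg => (T _).sub_mem (hI v (fun h => hv (h1S h)) g hg)
          ((hL.lam_zero _ _).1 ((hw' g).2.trans (hz.2 v hv g hg)))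
  · rw [Pi.sub_apply, sub_right_comm]
    exact (T j).sub_mem (hxx g) (hw' g).1

end Pool.Agent.SC
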