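import Pool.Agent.Lib.MP_b4b3cb_nt.StG

/-! Hilbert 90 and Kummer theory for closed subgroups. -/

namespace Pool.Agent.SC

open NumberField Pool.Agent.Stark
open scoped Classical Pointwise Topology

variable {K Ω : Type} [Field K] [Field Ω] [Algebra K Ω]

namespace KumAux

theorem h90 [IsGalois K Ω] (hT : TopSt K Ω) (H : Subgroup (Ω ≃ₐ[K] Ω)) (a : (Ω ≃ₐ[K] Ω) → Ω)
    (hH : IsClosed (H : Set (Ω ≃ₐ[K] Ω))) (hl : LC (H : Set (Ω ≃ₐ[K] Ω)) a)
    (h0 : ∀ g ∈ H, a g ≠ 0) (hm : ∀ g ∈ H, ∀ h ∈ H, a (g * h) = a g * g (a h)) :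
    ∃ b : Ω, b ≠ 0 ∧ ∀ g ∈ H, g b = a g * b := by
  obtain ⟨U, hU, -, hu⟩ := hT.unif H a hH hl
  have := hT.fi U hU
  have := Fintype.ofFinite (H ⧸ U.subgroupOf H)
  have hN : IsClosed ((H ⊓ U : Subgroup (Ω ≃ₐ[K] Ω)) : Set (Ω ≃ₐ[K] Ω)) :=
    hH.inter (U.isClosed_of_isOpen hU)
  have hF : (IntermediateField.fixedField (H ⊓ U)).fixingSubgroup = H ⊓ U :=
    InfiniteGalois.fixingSubgroup_fixedField ⟨H ⊓ U, hN⟩
  set F := IntermediateField.fixedField (H ⊓ U) with hFd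
  let ψ : H ⧸ U.subgroupOf H → (F →* Ω) := fun q =>
    { toFun := fun y => (q.out : Ω ≃ₐ[K] Ω) y
      map_one' := by simp
      map_mul' := fun x y => by simp }
  have hψ : Function.Injective ψ := fun q q' h => by
    rw [← q.out_eq', ← q'.out_eq', QuotientGroup.eq, Subgroup.mem_subgroupOf]
    have : (((q.out)⁻¹ * q'.out : H) : Ω ≃ₐ[K] Ω) ∈ F.fixingSubgroup := by
      rw [IntermediateField.mem_fixingSubgroup_iff]
      intro y hy
      have e : (q.out : Ω ≃ₐ[K] Ω) y = (q'.out : Ω ≃ₐ[K] Ω) y := DFunLike.congr_fun h ⟨y, hy⟩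
      rw [Subgroup.coe_mul, Subgroup.coe_inv, AlgEquiv.mul_apply, ← e]
      exact (q.out : Ω ≃ₐ[K] Ω).symm_apply_apply y
    rw [hF] at this
    exact this.2
  have hli := (linearIndependent_monoidHom F Ω).comp ψ hψ
  obtain ⟨y, hy⟩ : ∃ y : F, ∑ q : H ⧸ U.subgroupOf H,
      (a (q.out : H))⁻¹ * (q.out : Ω ≃ₐ[K] Ω) y ≠ 0 := by
    by_contra hne
    have := Fintype.linearIndependent_iff.1 hli (fun q => (a (q.out : H))⁻¹) (funext fun y => by
      rw [Finset.sum_apply]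
      exact not_not.1 fun h => hne ⟨y, h⟩) ((1 : H) : H ⧸ U.subgroupOf H)
    exact h0 _ (Subtype.property _) (inv_eq_zero.1 this)
  have hΦ : ∀ h h' : H, (h : H ⧸ U.subgroupOf H) = h' →
      (a h)⁻¹ * (h : Ω ≃ₐ[K] Ω) y = (a h')⁻¹ * (h' : Ω ≃ₐ[K] Ω) y := fun h h' e => by
    rw [QuotientGroup.eq, Subgroup.mem_subgroupOf] at e
    rw [hu h h.2 h' h'.2 e]
    have e1 : ((h⁻¹ * h' : H) : Ω ≃ₐ[K] Ω) y = y := y.2 ⟨_, (h⁻¹ * h').2, e⟩
    have e2 : (h' : Ω ≃ₐ[K] Ω) = h * ((h⁻¹ * h' : H) : Ω ≃ₐ[K] Ω) := by simp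
    conv_rhs => rw [e2, AlgEquiv.mul_apply, e1]
    rw [← e2]
  refine ⟨_, hy, fun g hg => ?_⟩
  rw [map_sum, Finset.mul_sum, ← Equiv.sum_comp (MulAction.toPerm (⟨g, hg⟩ : H))
    fun q : H ⧸ U.subgroupOf H => a g * ((a (q.out : H))⁻¹ * (q.out : Ω ≃ₐ[K] Ω) y)]
  refine Finset.sum_congr rfl fun q _ => ?_
  rw [MulAction.toPerm_apply, hΦ ((⟨g, hg⟩ : H) • q).out ((⟨g, hg⟩ : H) * q.out) (by
    rw [QuotientGroup.out_eq', ← smul_eq_mul, MulAction.Quotient.mk_smul_out])]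
  have h1 := h0 g hg
  rw [Subgroup.coe_mul, hm g hg _ (Subtype.property _), AlgEquiv.mul_apply, map_mul, map_inv₀]
  field_simp

theorem app {H : Subgroup (Ω ≃ₐ[K] Ω)} {r : Ω} (h : Fix H (r ^ 2)) (g : Ω ≃ₐ[K] Ω) (hg : g ∈ H) :
    g r = sg Ω (kr r g) * r := by
  have e := h g hg
  rw [map_pow] at e
  unfold kr
  split_ifs with h1
  · rw [h1, sg_zero, one_mul]
  · rw [sg_one, neg_one_mul]
    exact (sq_eq_sq_iff_eq_or_eq_neg.1 e).resolve_left h1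

theorem of_app [CharZero Ω] {r : Ω} {g : Ω ≃ₐ[K] Ω} {c : ZMod 2} (hr : r ≠ 0)
    (h : g r = sg Ω c * r) : kr r g = c := by
  rcases zmod2_cases c with rfl | rfl
  · exact if_pos (by rw [h, sg_zero, one_mul])
  · refine if_neg fun e => hr ?_
    rw [e, sg_one] at h
    linear_combination h / 2

theorem hom [CharZero Ω] (hS : SzSt) (hT : TopSt K Ω) {H : Subgroup (Ω ≃ₐ[K] Ω)} {r : Ω}
    (hr : r ≠ 0) (h : Fix H (r ^ 2)) : Hom H (kr r) := by
  refine ⟨(hS.lc _ _).1 (hS.lc_comp (fun x : Ω => if x = r then (0 : ZMod 2) else 1)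
    (hT.lc_app (φ := fun g => g) (f := fun _ => r) continuousOn_id
      fun _ _ => Filter.Eventually.of_forall fun _ => rfl)), fun g hg k hk => of_app hr ?_⟩
  rw [AlgEquiv.mul_apply, app h k hk, map_mul, map_sg, app h g hg, sg_add]
  ring

theorem mul [CharZero Ω] {H : Subgroup (Ω ≃ₐ[K] Ω)} {r s : Ω} (hr : r ≠ 0) (hs : s ≠ 0)
    (h : Fix H (r ^ 2)) (h' : Fix H (s ^ 2)) (g : Ω ≃ₐ[K] Ω) (hg : g ∈ H) :
    kr (r * s) g = kr r g + kr s g := by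
  refine of_app (mul_ne_zero hr hs) ?_
  rw [map_mul, app h g hg, app h' g hg, sg_add]
  ring

theorem sq {H : Subgroup (Ω ≃ₐ[K] Ω)} {r s t : Ω} (hr : r ≠ 0) (ht : Fix H t)
    (e : r ^ 2 = s ^ 2 * t ^ 2) (g : Ω ≃ₐ[K] Ω) (hg : g ∈ H) : kr r g = kr s g := by
  have h0 : t ≠ 0 := by
    rintro rfl
    exact hr (by simpa using e)
  rw [← mul_pow] at e
  have : g r = r ↔ g s = s := by
    rcases sq_eq_sq_iff_eq_or_eq_neg.1 e with rfl | rfl
    · rw [map_mul, ht g hg, mul_left_inj' h0]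
    · rw [map_neg, map_mul, ht g hg, neg_inj, mul_left_inj' h0]
  simp only [kr, this]

theorem coord [CharZero Ω] {H : Subgroup (Ω ≃ₐ[K] Ω)} {r y : Ω} (hr : r ≠ 0) (h : Fix H (r ^ 2))
    (hσ : ∃ σ ∈ H, σ r ≠ r) (hy : ∀ g ∈ H, g r = r → g y = y) :
    ∃ x z : Ω, Fix H x ∧ Fix H z ∧ y = x + z * r := by
  obtain ⟨σ, hσ, h1⟩ := hσ
  have hc : ∀ g ∈ H, g r = r ∨ g r = -r := fun g hg =>
    sq_eq_sq_iff_eq_or_eq_neg.1 (by rw [← map_pow]; exact h g hg)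
  have h2 : σ r = -r := (hc σ hσ).resolve_left h1
  have h3 : σ⁻¹ (-r) = r := by rw [← h2]; exact σ.symm_apply_apply r
  have h4 : ∀ w : Ω, σ (σ⁻¹ w) = w := fun w => σ.apply_symm_apply w
  have hA : ∀ g ∈ H, g r = r → g (σ y) = σ y := fun g hg e => by
    have := hy (σ⁻¹ * g * σ) (H.mul_mem (H.mul_mem (H.inv_mem hσ) hg) hσ) (by
      rw [AlgEquiv.mul_apply, AlgEquiv.mul_apply, h2, map_neg g, e, h3])
    rw [AlgEquiv.mul_apply, AlgEquiv.mul_apply] at this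
    rw [← h4 (g (σ y)), this]
  have hB : ∀ g ∈ H, g r = -r → g y = σ y ∧ g (σ y) = y := fun g hg e => by
    constructor
    · have := hy (σ⁻¹ * g) (H.mul_mem (H.inv_mem hσ) hg) (by rw [AlgEquiv.mul_apply, e, h3])
      rw [AlgEquiv.mul_apply] at this
      rw [← h4 (g y), this]
    · exact hy (g * σ) (H.mul_mem hg hσ) (by rw [AlgEquiv.mul_apply, h2, map_neg, e, neg_neg])
  refine ⟨(y + σ y) / 2, (y - σ y) / (2 * r), fun g hg => ?_, fun g hg => ?_, by field_simp; ring⟩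
  · rw [map_div₀, map_add, map_ofNat]
    rcases hc g hg with e | e
    · rw [hy g hg e, hA g hg e]
    · rw [(hB g hg e).1, (hB g hg e).2, add_comm]
  · rw [map_div₀, map_sub, map_mul, map_ofNat]
    rcases hc g hg with e | e
    · rw [hy g hg e, hA g hg e, e]
    · rw [(hB g hg e).1, (hB g hg e).2, e]
      field_simp
      ring

end KumAux

theorem st_Kum [IsGalois K Ω] [CharZero Ω] (hS : SzSt) (hT : TopSt K Ω) : KumSt K Ω where
  h90 := KumAux.h90 hT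
  app := KumAux.app
  hom := KumAux.hom hS hT
  of_app := KumAux.of_app
  mul := KumAux.mul
  sq := fun hr _ ht e => KumAux.sq hr ht e
  kum := fun H f hH hf => by
    obtain ⟨b, hb, e⟩ := KumAux.h90 hT H (fun g => sg Ω (f g)) hH
      (hS.lc_comp (sg Ω) ((hS.lc _ _).2 hf.1)) (fun g _ => sg_ne_zero _) fun g hg h hh => by
        rw [hf.2 g hg h hh, sg_add, map_sg]
    refine ⟨b, hb, fun g hg => ?_, fun g hg => (KumAux.of_app hb (e g hg)).symm⟩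
    rw [map_pow, e g hg, mul_pow, pow_two (sg Ω (f g)), sg_mul_self, one_mul]
  coord := KumAux.coord

end Pool.Agent.SC
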