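import Pool.Agent.Lib.MP_b4b3cb_nt.StC

/-! Dyadic and real places; ramified and inert primes. -/

namespace Pool.Agent.SC

open NumberField Pool.Agent.Stark
open scoped Classical Pointwise

variable {K L Ω : Type} [Field K] [NumberField K] [Field L] [NumberField L] [Algebra K L] [Field Ω]
  [Algebra K Ω] [Algebra L Ω] [IsScalarTower K L Ω] [IsAlgClosed Ω] [IsGalois K Ω] [CharZero Ω]

theorem st_LDy (hDy : DySt) (hRe : RealSt) (hTw : TwoSt K Ω) (hCa : CardSt K Ω) (hSy : SymSt K Ω)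
    (hLo : LocSt K Ω) (hG : GlSt K L Ω) (hCj : CjSt K Ω) (hDi : DictSt K Ω) : LDySt K L Ω := by
  constructor
  · intro d E 𝔣 ρ δ sec π A R X v hs h2 hN ⟨g0, hg0, hρ⟩
    have hD : A.D (Sum.inl v) = Dec K (π.pr v) := by rw [X.hD]; rfl
    have hle : Dec K (π.pr v) ≤ Gs K Ω L := fun g hg => (hG.iff E g).2 (if_pos
      ((hLo.sq (π.hov v) E.a_ne (hG.sq E).2).1 hs g ⟨hg, by rw [Gs_self]; trivial⟩))
    have hη : ∀ g ∈ A.D (Sum.inl v), R.η g = 0 := fun g hg => by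
      rw [X.hη]
      exact (hG.iff E g).1 (hle (hD ▸ hg))
    have hf : Module.finrank (ZMod 2) (Hm (A.D (Sum.inl v))) = 3 := by
      have h1 := hCa.card π v
      have := hCa.fin π (Sum.inl v)
      have : Module.Finite (ZMod 2) (Hm (π.D (Sum.inl v))) := Module.Finite.of_finite
      rw [Module.natCard_eq_pow_finrank (K := ZMod 2), Nat.card_zmod, h2, hN] at h1
      rw [X.hD]
      exact Nat.pow_right_injective le_rfl h1
    obtain ⟨c1, c2, c3⟩ := hDy A R (Sum.inl v) hη ⟨g0, hD ▸ hg0.1, by rwa [X.hr g0 hg0.2]⟩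
      (hD ▸ hTw _ (π.hov v).1) hf
    refine ⟨hη, c1, c2, c3.trans ?_⟩
    have e1 : ∀ g ∈ Dec K (π.pr v) ⊓ Gs K Ω L, sg4 (R.r g) = kr (rt Ω δ) g := fun g hg => by
      rw [X.hr g hg.2, X.kum g hg.2]
    have e2 : hq (sec v) δ δ = hq (sec v) δ (-1) := by
      have := hs_mul_norm (emb (sec v) δ) (-1) (x := 0) (z := 1) (by simpa using X.ne)
      simpa [hq] using this
    rw [X.hsym, ← e2, ← (hSy (X.hov v)).1 X.ne X.ne (rt_sq δ) (rt_sq δ),
      ← hDi.congr _ _ _ _ _ e1 e1, inf_eq_left.2 hle]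
    rfl
  · intro d E 𝔣 a ρ δ sec π A R X hC φ
    have hD : A.D (Sum.inr φ) = Subgroup.zpowers (π.c φ) := by rw [X.hD]; rfl
    rw [hD]
    refine hRe R _ (hCj.sq (π.hc φ)).1 ((zmod2_cases _).resolve_left fun h => ?_)
    rw [X.hη] at h
    exact hG.cj hC (π.hc φ) ((hG.iff E _).2 h)

theorem st_RH (hA : AcSt) (hI : IneSt K Ω) (hF : FrobSt K Ω) (hP : PrimeSt K Ω) (hG : GlSt K L Ω)
    (hAv : AvSt K L Ω) (hQ : QdSt K L) : RHSt K L Ω := by
  intro d E 𝔣 ψ ι ρ fr δ sec π A R X hT hdy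
  have key : ∀ σ : Ω ≃ₐ[K] Ω, σ (algebraMap L Ω E.rt) ≠ algebraMap L Ω E.rt →
      σ * σ ∈ Gs K Ω L ∧ ρ (σ * σ) = -cyc K Ω σ := fun σ h => by
    have h1 : kr (algebraMap L Ω E.rt) σ = 1 := if_neg h
    have h2 : σ * σ ∈ Gs K Ω L := (hG.iff E _).2 (by
      rw [(hG.hom E).2 σ trivial σ trivial, h1]; rfl)
    have h3 : R.η σ = 1 := by rw [X.hη, h1]
    refine ⟨h2, ?_⟩
    rw [← X.hr _ h2, ((hA.rs_mul R σ σ).2 h3).1, R.det, h3, if_neg one_ne_zero, X.hχ, neg_one_mul]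
  have aux : ∀ w : Pr L, E.act w = w → ¬ LSq (below K w) d ∧ og (below K w) (2 : K) = 0 ∧
      og w (2 : L) = 0 ∧ Over (π.pr (below K w)) w ∧ (2 : 𝓞 Ω) ∉ π.pr (below K w) := fun w h => by
    have h1 : ¬ LSq (below K w) d := fun c => E.ne_of_lsq c h
    have h2 : og (below K w) (2 : K) = 0 := by_contra fun c => h1 (hdy _ c)
    have h3 : sec (below K w) = w :=
      ((E.below_eq_iff w _).1 (X.hsec _)).elim id fun c => c.trans h
    have h4 := X.hov (below K w)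
    rw [h3] at h4
    exact ⟨h1, h2, (hQ.two w).2 h2, h4, (hP.two (π.hov _)).2 h2⟩
  have ram : ∀ w : Pr L, eI K w = 2 → 𝔣 ≤ w.asIdeal := fun w he => by
    by_contra c
    have h : E.act w = w := by
      rcases E.efg w with h | h | h
      · omega
      · exact h.1
      · exact h.1
    obtain ⟨-, h2, h3, h4, h5⟩ := aux w h
    have h6 := (hI.ine (π.hov _) h2 E.a_ne (hG.sq E).2).not.1
      (Int.not_even_iff_odd.2 ((hQ.ram E w h2).1 he))
    simp only [Fix, not_forall] at h6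
    obtain ⟨σ, hσ, h7⟩ := h6
    obtain ⟨k1, k2⟩ := key σ h7
    rw [hT.unr _ w h4 ⟨h3, c⟩ _ ⟨mul_mem hσ.1 hσ.1, k1⟩, hF.cyc_ine h4.1 h5 hσ.1] at k2
    have k3 := congrArg (fun u : ℤ_[2]ˣ => (u : ℤ_[2])) k2
    simp only [Units.val_one, Units.val_neg] at k3
    exact two_ne_zero (α := ℤ_[2]) (by linear_combination k3)
  refine ⟨hdy, ram, fun w h c => ?_⟩
  obtain ⟨h1, h2, h3, h4, h5⟩ := aux w h
  have he : eI K w ≠ 2 := fun e => c (ram w e)
  have hN : Ideal.absNorm w.asIdeal = Ideal.absNorm (below K w).asIdeal ^ 2 := by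
    rcases E.efg w with h' | h' | h'
    · exact absurd h h'.1
    · exact h'.2.2
    · exact absurd h'.2.1 he
  obtain ⟨σ, hσ, hfr⟩ := hF.ex (π.hov (below K w))
  obtain ⟨k1, k2⟩ := key σ fun e => h1 ((hI.leg (π.hov _) h2 E.a_ne (hG.sq E).2
    (Int.not_odd_iff_even.1 fun o => he ((hQ.ram E w h2).2 o)) σ hσ hfr).1 e)
  have h6 := hF.pow h4.1 (Ideal.absNorm_eq_zero_iff.not.2 (below K w).ne_bot) hfr 2
  rw [← hN, sq] at h6
  refine hAv.neg hT w ⟨h3, c⟩ (Ideal.absNorm (below K w).asIdeal) ?_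
  rw [← hT.frob _ w h4 ⟨h3, c⟩ _ k1 h6, k2, Units.val_neg, hF.cyc_fr h4.1 h5 hfr]

end Pool.Agent.SC
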