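import Pool.Agent.Lib.MP_b4b3cb_nt.StC

/-! The local conditions at the odd places. -/

namespace Pool.Agent.SC

open NumberField Pool.Agent.Stark
open scoped Classical Pointwise

namespace LGoodAux

theorem big {G : Type} [Group G] [TopologicalSpace G] {χ : G →* ℤ_[2]ˣ} (hT : TorSt) (R : Rp χ)
    (D : Subgroup G) (hB : R.Bdd D) (h4 : Nat.card (Hm D) = 4) : R.Big D False := by
  have : Finite (Hm D) := Nat.finite_of_card_ne_zero (by rw [h4]; norm_num)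
  have : Module.Finite (ZMod 2) (Hm D) := Module.Finite.of_finite
  have h1 := Module.natCard_eq_pow_finrank (K := ZMod 2) (V := Hm D)
  rw [h4, Nat.card_zmod] at h1
  have h2 : Module.finrank (ZMod 2) (Hm D) = 2 :=
    (Nat.pow_right_injective le_rfl (h1.symm.trans (by norm_num : 4 = 2 ^ 2)))
  rw [Rp.Big, (hT R D hB).2.2.2, h2]

theorem kr_zero {K Ω : Type} [Field K] [Field Ω] [Algebra K Ω] (r : Ω) (g : Ω ≃ₐ[K] Ω) :
    kr r g = 0 ↔ g r = r := by
  unfold kr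
  split_ifs with h <;> simp [h]

theorem hq_neg {F : Type} [Field F] [NumberField F] (w : Pr F) (h2 : og w (2 : F) = 0) {δ : F}
    (h0 : δ ≠ 0) (ho : Odd (og w δ)) : hq w δ (-1) = if LSq w (-1) then 0 else 1 := by
  have L := isLoc_wv w
  have a0 : emb w (-1 : F) ≠ 0 := (map_ne_zero _).2 (by norm_num)
  have d0 : emb w δ ≠ 0 := (map_ne_zero _).2 h0
  have hu : Unr (wv w) (emb w (-1 : F)) :=
    L.unr_of_odd (by rw [← map_ofNat (emb w) 2, ord_emb, h2]) a0 (by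
      rw [ord_emb, og, ord_neg, ord_one]
      exact Even.zero)
  rw [hq, hs_comm L.two d0 a0, L.hs_of_unr a0 hu d0, ord_emb]
  by_cases h : LSq w (-1)
  · rw [if_pos h, if_pos (show IsSquare _ from h)]
  · rw [if_neg h, if_neg (show ¬ IsSquare _ from h)]
    exact (ZMod.intCast_eq_one_iff_odd).2 ho

end LGoodAux

open LGoodAux

variable {K L Ω : Type} [Field K] [NumberField K] [Field L] [NumberField L] [Algebra K L]
  [Field Ω] [Algebra K Ω] [Algebra L Ω] [IsScalarTower K L Ω] [IsAlgClosed Ω]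

theorem st_LGood (hO : OddSt) (hT : TorSt) (hC : CardSt K Ω) (hI : IneSt K Ω) (hF : FrobSt K Ω)
    (hP : PrimeSt K Ω) (hG : GlSt K L Ω) (hA : AvSt K L Ω) (hQ : QdSt K L) (hH : HDSt K L) :
    LGoodSt K L Ω := by
  intro d E 𝔣 a ψ χ ι ρ fr δ sec π A R X H T hR v h2 hf
  have hD : A.D (Sum.inl v) = Dec K (π.pr v) := by rw [X.hD]; rfl
  have hJ : A.I (Sum.inl v) = Ine K (π.pr v) := by rw [X.hI]; rfl
  have ov := X.hov v
  have w2 : og (sec v) (2 : L) = 0 := (hQ.two _).2 (by rwa [X.hsec])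
  have p2 : (2 : 𝓞 Ω) ∉ π.pr v := (hP.two ov).2 w2
  have gd : Gd 𝔣 (sec v) := ⟨w2, hf⟩
  have hB : R.Bdd (A.D (Sum.inl v)) := by
    obtain ⟨φ, h1, h3⟩ := hF.ex ov
    have h4 : φ ∈ A.D (Sum.inl v) :=
      hD ▸ hF.dec ov.1 (Ideal.absNorm_eq_zero_iff.not.2 (sec v).ne_bot) h3
    have h5 : R.η φ = 0 := by rw [X.hη]; exact (hG.iff E φ).1 h1
    have h6 : R.r φ = fr (sec v) := (X.hr φ h1).trans (T.frob _ _ ov gd φ h1 h3)
    have h7 := R.det φ
    rw [if_pos h5, one_mul, h6] at h7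
    have h8 : ((A.χ φ : ℤ_[2]ˣ) : ℤ_[2]) = Ideal.absNorm (sec v).asIdeal := by
      rw [X.hχ]; exact hF.cyc_fr ov.1 p2 h3
    have h9 : fr (sec v) * R.s φ = fr (sec v) * fr (E.act (sec v)) :=
      Units.ext (by rw [h7, h8, Units.val_mul, hA.dual H T _ gd])
    refine ⟨⟨φ, h4, h5, h6 ▸ hA.ne H T _ gd⟩, φ, h4, h5, ?_⟩
    rw [mul_left_cancel h9]
    exact hA.ne H T _ ((hH.act H _).2.2.2 gd)
  have h4 : Nat.card (Hm (A.D (Sum.inl v))) = 4 := by
    rw [X.hD, hC.card π v, h2]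
    simp
  refine ⟨hB, (hT R _ hB).1, big hT R _ hB h4, hO.good R _ _ hB (A.le _) (fun g hg => ?_) ?_⟩
  · rw [hJ] at hg
    have he : Even (og v d) := by
      rw [← Int.not_odd_iff_even]
      intro ho
      exact hf (hR.ram _ ((hQ.ram E _ (by rwa [X.hsec])).2 (by rwa [X.hsec])))
    have h5 : kr (algebraMap L Ω E.rt) g = 0 := (kr_zero _ _).2
      ((hI.ine (π.hov v) h2 E.a_ne (hG.sq E).2).1 he g ⟨hg, by rw [Gs_self]; trivial⟩)
    have h6 := (hG.iff E g).2 h5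
    have h7 : R.η g = 0 := by rw [X.hη]; exact h5
    have h8 : R.r g = 1 := (X.hr g h6).trans (T.unr _ _ ov gd g ⟨hg, h6⟩)
    have h9 := R.det g
    have h10 : A.χ g = 1 := by rw [X.hχ]; exact hF.cyc_ine ov.1 p2 hg
    rw [if_pos h7, h8, h10, one_mul, one_mul] at h9
    exact ⟨h7, h8, h9⟩
  · rw [X.hD, X.hI]
    exact hC.unr π v h2

theorem st_LBad (hM : OmSt) (hO : OddSt) (hT : TorSt) (hC : CardSt K Ω) (hI : IneSt K Ω)
    (hL : LocSt K Ω) (hF : FrobSt K Ω) (hP : PrimeSt K Ω) (hG : GlSt K L Ω) (hK : KumSt K Ω)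
    (hQ : QdSt K L) : LBadSt K L Ω := by
  intro d E 𝔣 ρ δ sec π A R X v h2 hf
  have hD : A.D (Sum.inl v) = Dec K (π.pr v) := by rw [X.hD]; rfl
  have ov := X.hov v
  have w2 : og (sec v) (2 : L) = 0 := (hQ.two _).2 (by rwa [X.hsec])
  have p2 : (2 : 𝓞 Ω) ∉ π.pr v := (hP.two ov).2 w2
  have ho := X.odd _ w2 hf
  obtain ⟨g, hg, h5, h6, h7⟩ : ∃ g ∈ A.D (Sum.inl v), R.η g = 0 ∧ sg4 (R.r g) = 1 ∧
      sg4 (R.s g) = 1 := by
    have h1 := (hI.ine ov w2 X.ne (rt_sq δ)).not.1 (Int.not_even_iff_odd.2 ho)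
    rw [Fix] at h1
    push Not at h1
    obtain ⟨g, hg, h3⟩ := h1
    have h5 : R.η g = 0 := by rw [X.hη]; exact (hG.iff E g).1 hg.2
    have h6 : sg4 (R.r g) = 1 := by
      rw [X.hr g hg.2, X.kum g hg.2, kr, if_neg h3]
    have h8 := R.det g
    have h10 : A.χ g = 1 := by rw [X.hχ]; exact hF.cyc_ine ov.1 p2 hg.1
    rw [if_pos h5, h10, one_mul] at h8
    have h9 := hM.sg4_mul (R.r g) (R.s g)
    rw [h8, hM.sg4_one, h6] at h9
    refine ⟨g, hD ▸ hP.le _ hg.1, h5, h6, ?_⟩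
    rcases zmod2_cases (sg4 (R.s g)) with h | h
    · rw [h] at h9
      exact absurd h9 (by decide)
    · exact h
  have n1 : ∀ u : ℤ_[2]ˣ, sg4 u = 1 → u ≠ 1 := fun u hu h => by
    rw [h, hM.sg4_one] at hu
    exact absurd hu (by decide)
  have hB : R.Bdd (A.D (Sum.inl v)) := ⟨⟨g, hg, h5, n1 _ h6⟩, g, hg, h5, n1 _ h7⟩
  have h4 : Nat.card (Hm (A.D (Sum.inl v))) = 4 := by
    rw [X.hD, hC.card π v, h2]
    simp
  refine ⟨(hT R _ hB).1, big hT R _ hB h4, ?_⟩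
  obtain ⟨i, hi⟩ := IsAlgClosed.exists_pow_nat_eq (-1 : Ω) two_pos
  have i0 : i ≠ 0 := by
    rintro rfl
    simp at hi
  have hc : ∀ g, sg4 (A.χ g) = kr i g := fun g => by rw [X.hχ]; exact hF.cyc_four hi g
  have hd := hL.sq (π.hov v) E.a_ne (hG.sq E).2
  rw [Gs_self, inf_top_eq, ← hD] at hd
  have he : ∀ g, R.η g = 0 ↔ g (algebraMap L Ω E.rt) = algebraMap L Ω E.rt := fun g => by
    rw [X.hη, kr_zero]
  by_cases hs : LSq v d
  · have h8 : ∀ g ∈ A.D (Sum.inl v), R.η g = 0 := fun g hg => (he g).2 (hd.1 hs g hg)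
    have h9 := hL.sq ov (a := -1) (r := i) (by norm_num) (by rw [hi, map_neg, map_one])
    have h10 : Dec K (π.pr v) ⊓ Gs K Ω L = A.D (Sum.inl v) := by
      rw [← hD]
      refine inf_eq_left.2 fun g hg => (hG.iff E g).2 ?_
      rw [← X.hη]
      exact h8 g hg
    rw [h10] at h9
    rw [if_pos hs, hO.split R _ h8 ⟨g, hg, h6⟩ ⟨g, hg, h7⟩, hq_neg _ w2 X.ne ho]
    have h11 : (∀ g ∈ A.D (Sum.inl v), sg4 (A.χ g) = 0) ↔ LSq (sec v) (-1) := by
      rw [h9]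
      exact forall₂_congr fun g _ => by rw [hc, kr_zero]
    by_cases h : LSq (sec v) (-1)
    · rw [if_pos h, if_pos (h11.2 h)]
      rfl
    · rw [if_neg h, if_neg (h11.not.2 h)]
      rfl
  · have h8 : ∃ g ∈ A.D (Sum.inl v), R.η g = 1 := by
      by_contra! h
      exact hs (hd.2 fun g hg => (he g).1 ((zmod2_cases _).resolve_right (h g hg)))
    have h9 := hL.sq (π.hov v) (a := -d) (r := i * algebraMap L Ω E.rt) (neg_ne_zero.2 E.a_ne)
      (by rw [mul_pow, hi, (hG.sq E).2, map_neg, neg_one_mul])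
    rw [Gs_self, inf_top_eq, ← hD] at h9
    have h10 : ∀ g : Ω ≃ₐ[K] Ω, kr (i * algebraMap L Ω E.rt) g = sg4 (A.χ g) + R.η g := fun g => by
      rw [hc, X.hη]
      refine hK.mul (H := ⊤) i0 (hG.sq E).1 (fun g _ => ?_) (fun g _ => ?_) g trivial
      · rw [hi, map_neg, map_one]
      · rw [(hG.sq E).2, AlgEquiv.commutes]
    have h11 : (∀ g ∈ A.D (Sum.inl v), sg4 (A.χ g) = R.η g) ↔ LSq v (-d) := by
      rw [h9]
      refine forall₂_congr fun g _ => ?_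
      rw [← kr_zero, h10]
      generalize sg4 (A.χ g) = x
      generalize R.η g = y
      revert x y
      decide
    rw [if_neg hs, hO.nonsplit R _ h8 ⟨g, hg, h5, h6⟩]
    by_cases h : LSq v (-d)
    · rw [if_pos h, if_pos (h11.2 h)]
    · rw [if_neg h, if_neg (h11.not.2 h)]

end Pool.Agent.SC
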