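import Pool.Agent.Lib.MP_b4b3cb_nt.StB

/-! Linear algebra of a Lagrangian subspace and a pair of dual local conditions. -/

namespace Pool.Agent.SC

open scoped Classical
open Module

namespace LagAux

section Abs

variable {K E : Type} [Field K] [AddCommGroup E] [Module K E]

theorem orth_sup (B : LinearMap.BilinForm K E) (L U : Submodule K E) :
    B.orthogonal (L ⊔ U) = B.orthogonal L ⊓ B.orthogonal U := by
  apply le_antisymm
  · exact le_inf (LinearMap.BilinForm.orthogonal_le le_sup_left)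
      (LinearMap.BilinForm.orthogonal_le le_sup_right)
  · intro x hx
    rw [LinearMap.BilinForm.mem_orthogonal_iff]
    intro n hn
    obtain ⟨a, ha, b, hb, rfl⟩ := Submodule.mem_sup.1 hn
    have h1 : B a x = 0 := (LinearMap.BilinForm.mem_orthogonal_iff.1 hx.1) a ha
    have h2 : B b x = 0 := (LinearMap.BilinForm.mem_orthogonal_iff.1 hx.2) b hb
    show B (a + b) x = 0
    rw [map_add, LinearMap.add_apply, h1, h2, add_zero]

theorem abs_main [FiniteDimensional K E] (B : LinearMap.BilinForm K E) (hB : B.Nondegenerate)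
    (hr : B.IsRefl) (L U₀ U₁ : Submodule K E) (hL : B.orthogonal L = L)
    (h01 : U₁ ≤ B.orthogonal U₀) (hd : finrank K E ≤ finrank K U₀ + finrank K U₁) :
    B.orthogonal (L ⊓ U₁) = L ⊔ U₀ ∧
      2 * ((finrank K (L ⊓ U₀ : Submodule K E) : ℤ) - finrank K (L ⊓ U₁ : Submodule K E)) =
        (finrank K U₀ : ℤ) - finrank K U₁ := by
  have e0 := LinearMap.BilinForm.finrank_orthogonal hB U₀
  have l0 : finrank K U₀ ≤ finrank K E := Submodule.finrank_le U₀
  have hU : U₁ = B.orthogonal U₀ := by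
    apply Submodule.eq_of_le_of_finrank_le h01
    omega
  have hs : B.orthogonal (L ⊔ U₀) = L ⊓ U₁ := by rw [orth_sup, hL, ← hU]
  refine ⟨?_, ?_⟩
  · rw [← hs, LinearMap.BilinForm.orthogonal_orthogonal hB hr]
  · have e1 := LinearMap.BilinForm.finrank_orthogonal hB (L ⊔ U₀)
    rw [hs] at e1
    have e2 := LinearMap.BilinForm.finrank_orthogonal hB L
    rw [hL] at e2
    have l1 : finrank K (L ⊔ U₀ : Submodule K E) ≤ finrank K E := Submodule.finrank_le _
    have l2 : finrank K L ≤ finrank K E := Submodule.finrank_le _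
    have e3 := Submodule.finrank_sup_add_finrank_inf_eq L U₀
    rw [← hU] at e0
    omega

theorem finrank_comap {M : Type} [AddCommGroup M] [Module K M] [FiniteDimensional K M]
    (φ : M →ₗ[K] E) (U : Submodule K E) :
    finrank K (U.comap φ) =
      finrank K (LinearMap.range φ ⊓ U : Submodule K E) + finrank K (LinearMap.ker φ) := by
  have h := LinearMap.finrank_range_add_finrank_ker (φ.domRestrict (U.comap φ))
  have h1 : LinearMap.range (φ.domRestrict (U.comap φ)) = LinearMap.range φ ⊓ U := by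
    rw [LinearMap.range_domRestrict, Submodule.map_comap_eq]
  have h2 : (LinearMap.ker (φ.domRestrict (U.comap φ))).map (U.comap φ).subtype =
      LinearMap.ker φ := by
    ext x
    constructor
    · rintro ⟨y, hy, rfl⟩
      exact hy
    · intro hx
      have hx' : φ x = 0 := hx
      refine ⟨⟨x, ?_⟩, hx', rfl⟩
      show φ x ∈ U
      rw [hx']
      exact U.zero_mem
  rw [h1, ← Submodule.finrank_map_subtype_eq, h2] at h
  exact h.symm

theorem finrank_pi_sub {ι : Type} [Fintype ι] {M : ι → Type} [∀ v, AddCommGroup (M v)]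
    [∀ v, Module K (M v)] [∀ v, FiniteDimensional K (M v)] (U : ∀ v, Submodule K (M v)) :
    finrank K (Submodule.pi Set.univ U) = ∑ v, finrank K (U v) := by
  have e : (Submodule.pi Set.univ U) ≃ₗ[K] (∀ v, U v) :=
    { toFun := fun x v => ⟨x.1 v, x.2 v (Set.mem_univ v)⟩
      invFun := fun y => ⟨fun v => y v, fun v _ => (y v).2⟩
      map_add' := fun _ _ => rfl
      map_smul' := fun _ _ => rfl
      left_inv := fun _ => rfl
      right_inv := fun _ => rfl }
  rw [e.finrank_eq, Module.finrank_pi_fintype]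

end Abs

theorem z2 (c : ZMod 2) : c = 0 ∨ c = 1 := by
  revert c
  decide

section Form

variable {ι Y : Type} [Fintype ι] [AddCommGroup Y] [Module (ZMod 2) Y]
  (H : ι → Submodule (ZMod 2) Y) (sy : ι → Y → Y → ZMod 2)

theorem sy_zero {v : ι}
    (hadd : ∀ a ∈ H v, ∀ a' ∈ H v, ∀ b ∈ H v, sy v (a + a') b = sy v a b + sy v a' b)
    {b : Y} (hb : b ∈ H v) : sy v 0 b = 0 := by
  have h := hadd 0 (H v).zero_mem 0 (H v).zero_mem b hb
  rw [add_zero] at h
  exact left_eq_add.1 h

/-- The sum of the local pairings as a bilinear form. -/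
noncomputable def form
    (hadd : ∀ v, ∀ a ∈ H v, ∀ a' ∈ H v, ∀ b ∈ H v, sy v (a + a') b = sy v a b + sy v a' b)
    (hsym : ∀ v, ∀ a ∈ H v, ∀ b ∈ H v, sy v a b = sy v b a) :
    LinearMap.BilinForm (ZMod 2) (∀ v, H v) :=
  LinearMap.mk₂ (ZMod 2) (fun x y => ∑ v, sy v (x v) (y v))
    (fun x x' y => by
      rw [← Finset.sum_add_distrib]
      exact Finset.sum_congr rfl fun v _ => hadd v _ (x v).2 _ (x' v).2 _ (y v).2)
    (fun c x y => by
      rcases z2 c with rfl | rfl
      · simp only [zero_smul]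
        exact Finset.sum_eq_zero fun v _ => sy_zero H sy (hadd v) (y v).2
      · simp only [one_smul])
    (fun x y y' => by
      rw [← Finset.sum_add_distrib]
      refine Finset.sum_congr rfl fun v _ => ?_
      rw [hsym v _ (x v).2 _ ((y + y') v).2, hsym v _ (x v).2 _ (y v).2,
        hsym v _ (x v).2 _ (y' v).2]
      exact hadd v _ (y v).2 _ (y' v).2 _ (x v).2)
    (fun c x y => by
      rcases z2 c with rfl | rfl
      · simp only [zero_smul]
        refine Finset.sum_eq_zero fun v _ => ?_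
        rw [hsym v _ (x v).2 _ ((0 : ∀ v, H v) v).2]
        exact sy_zero H sy (hadd v) (x v).2
      · simp only [one_smul])

theorem form_apply
    (hadd : ∀ v, ∀ a ∈ H v, ∀ a' ∈ H v, ∀ b ∈ H v, sy v (a + a') b = sy v a b + sy v a' b)
    (hsym : ∀ v, ∀ a ∈ H v, ∀ b ∈ H v, sy v a b = sy v b a) (x y : ∀ v, H v) :
    form H sy hadd hsym x y = ∑ v, sy v (x v) (y v) := rfl

theorem form_symm
    (hadd : ∀ v, ∀ a ∈ H v, ∀ a' ∈ H v, ∀ b ∈ H v, sy v (a + a') b = sy v a b + sy v a' b)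
    (hsym : ∀ v, ∀ a ∈ H v, ∀ b ∈ H v, sy v a b = sy v b a) (x y : ∀ v, H v) :
    form H sy hadd hsym x y = form H sy hadd hsym y x := by
  rw [form_apply, form_apply]
  exact Finset.sum_congr rfl fun v _ => hsym v _ (x v).2 _ (y v).2

theorem form_sepl
    (hadd : ∀ v, ∀ a ∈ H v, ∀ a' ∈ H v, ∀ b ∈ H v, sy v (a + a') b = sy v a b + sy v a' b)
    (hsym : ∀ v, ∀ a ∈ H v, ∀ b ∈ H v, sy v a b = sy v b a)
    (hnd : ∀ v, ∀ a ∈ H v, (∀ b ∈ H v, sy v a b = 0) → a = 0) (x : ∀ v, H v)
    (hx : ∀ y, form H sy hadd hsym x y = 0) : x = 0 := by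
  funext v
  apply Subtype.ext
  refine hnd v _ (x v).2 fun b hb => ?_
  have h := hx (Pi.single v ⟨b, hb⟩)
  rw [form_apply, Finset.sum_eq_single v] at h
  · simpa using h
  · intro w _ hw
    rw [Pi.single_eq_of_ne hw, hsym w _ (x w).2 _ (0 : H w).2]
    exact sy_zero H sy (hadd w) (x w).2
  · intro h'
    exact absurd (Finset.mem_univ v) h'

end Form

end LagAux

open LagAux in
theorem st_Lag : LagSt := by
  intro ι Y _ _ _ H W₀ W₁ sy Λ loc hH hΛ hadd hsym hnd h0 h1 hiso hdim hloc hisoΛ hmax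
  haveI : ∀ v, FiniteDimensional (ZMod 2) (H v) := fun v => Module.Finite.of_finite
  haveI : FiniteDimensional (ZMod 2) Λ := Module.Finite.of_finite
  set B := form H sy hadd hsym with hBdef
  have hBa : ∀ x y, B x y = ∑ v, sy v (x v) (y v) := fun x y => rfl
  have hBs : ∀ x y, B x y = B y x := form_symm H sy hadd hsym
  have hnd' : B.Nondegenerate :=
    ⟨form_sepl H sy hadd hsym hnd,
      fun y hy => form_sepl H sy hadd hsym hnd y fun x => (hBs y x).trans (hy x)⟩
  have hr : B.IsRefl := fun x y h => (hBs y x).trans h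
  let φ : Λ →ₗ[ZMod 2] (∀ v, H v) :=
    LinearMap.pi fun v => ((loc v).domRestrict Λ).codRestrict (H v) fun y => hloc v y y.2
  have hφ : ∀ (y : Λ) v, ((φ y v : H v) : Y) = loc v y := fun y v => rfl
  let U : (ι → Submodule (ZMod 2) Y) → Submodule (ZMod 2) (∀ v, H v) := fun W =>
    Submodule.pi Set.univ fun v => (W v).comap (H v).subtype
  have hU : ∀ W (x : ∀ v, H v), x ∈ U W ↔ ∀ v, (x v : Y) ∈ W v := fun W x =>
    ⟨fun h v => h v (Set.mem_univ v), fun h v _ => h v⟩
  have hUd : ∀ W : ι → Submodule (ZMod 2) Y, (∀ v, W v ≤ H v) →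
      finrank (ZMod 2) (U W) = ∑ v, finrank (ZMod 2) (W v) := by
    intro W hW
    rw [finrank_pi_sub]
    exact Finset.sum_congr rfl fun v _ => (Submodule.comapSubtypeEquivOfLe (hW v)).finrank_eq
  have hL : B.orthogonal (LinearMap.range φ) = LinearMap.range φ := by
    apply le_antisymm
    · intro x hx
      rw [LinearMap.BilinForm.mem_orthogonal_iff] at hx
      obtain ⟨z, hz, hz'⟩ := hmax (fun v => x v) (fun v => (x v).2) fun y hy =>
        hx (φ ⟨y, hy⟩) ⟨_, rfl⟩
      exact ⟨⟨z, hz⟩, funext fun v => Subtype.ext (hz' v)⟩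
    · rintro x ⟨z, rfl⟩
      rw [LinearMap.BilinForm.mem_orthogonal_iff]
      rintro n ⟨y, rfl⟩
      exact hisoΛ y y.2 z z.2
  have h01 : U W₁ ≤ B.orthogonal (U W₀) := by
    intro x hx
    rw [LinearMap.BilinForm.mem_orthogonal_iff]
    intro n hn
    show B n x = 0
    rw [hBs, hBa]
    exact Finset.sum_eq_zero fun v _ => hiso v _ ((hU _ _).1 hx v) _ ((hU _ _).1 hn v)
  have hd : finrank (ZMod 2) (∀ v, H v) ≤ finrank (ZMod 2) (U W₀) + finrank (ZMod 2) (U W₁) := by
    rw [hUd W₀ h0, hUd W₁ h1, Module.finrank_pi_fintype, ← Finset.sum_add_distrib]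
    exact Finset.sum_le_sum fun v _ => hdim v
  obtain ⟨m1, m2⟩ := abs_main B hnd' hr (LinearMap.range φ) (U W₀) (U W₁) hL h01 hd
  have hS : ∀ W : ι → Submodule (ZMod 2) Y,
      finrank (ZMod 2) (Λ ⊓ ⨅ v, (W v).comap (loc v) : Submodule (ZMod 2) Y) =
        finrank (ZMod 2) (LinearMap.range φ ⊓ U W : Submodule (ZMod 2) (∀ v, H v)) +
          finrank (ZMod 2) (LinearMap.ker φ) := by
    intro W
    rw [← finrank_comap, ← Submodule.finrank_map_subtype_eq]
    have : ((U W).comap φ).map Λ.subtype = Λ ⊓ ⨅ v, (W v).comap (loc v) := by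
      ext y
      constructor
      · rintro ⟨z, hz, rfl⟩
        refine ⟨z.2, ?_⟩
        have hz' : φ z ∈ U W := hz
        exact (Submodule.mem_iInf _).2 fun v => (hU _ _).1 hz' v
      · rintro ⟨hy, hy'⟩
        refine ⟨⟨y, hy⟩, ?_, rfl⟩
        show φ ⟨y, hy⟩ ∈ U W
        exact (hU _ _).2 fun v => (Submodule.mem_iInf _).1 hy' v
    rw [this]
  refine ⟨?_, ?_⟩
  · intro a ha h
    have hx : (fun v => (⟨a v, ha v⟩ : H v)) ∈ B.orthogonal (LinearMap.range φ ⊓ U W₁) := by
      rw [LinearMap.BilinForm.mem_orthogonal_iff]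
      rintro n ⟨⟨y, rfl⟩, hy⟩
      exact h y y.2 fun v => (hU _ _).1 hy v
    rw [m1] at hx
    obtain ⟨p, ⟨z, rfl⟩, q, hq, hpq⟩ := Submodule.mem_sup.1 hx
    refine ⟨z, z.2, fun v => ?_⟩
    have e : loc v z + (q v : Y) = a v := congrArg Subtype.val (congrFun hpq v)
    rw [← e, add_sub_cancel_left]
    exact (hU _ _).1 hq v
  · rw [hS W₀, hS W₁, Finset.sum_sub_distrib, ← Nat.cast_sum, ← Nat.cast_sum, ← hUd W₀ h0,
      ← hUd W₁ h1, ← m2]
    push_cast
    ring

end Pool.Agent.SC
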