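import Pool.Agent.Lib.MP_b4b3cb_nt.StG

/-! Characters with restricted ramification. -/

namespace Pool.Agent.SC

open NumberField Pool.Agent.Stark
open scoped Classical

variable {K Ω : Type} [Field K] [NumberField K] [Field Ω] [Algebra K Ω] [IsAlgClosed Ω]

theorem LagKAux.eq_of (hD : DictSt K Ω) (π : Plc K Ω) (v : Pl K) {a b : K} (ha : a ≠ 0)
    (hb : b ≠ 0) (h : lsq v (a * b)) : ∀ g ∈ π.D v, kr (K := K) (rt Ω a) g = kr (rt Ω b) g := by
  intro g hg
  have h1 := (hD.zero π v (mul_ne_zero ha hb)).2 h g hg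
  rw [hD.mul ha hb, Pi.add_apply] at h1
  revert h1
  generalize kr (K := K) (rt Ω a) g = x
  generalize kr (K := K) (rt Ω b) g = y
  revert x y
  decide

theorem LagKAux.sq (hD : DictSt K Ω) {a b : K} (ha : a ≠ 0) (hb : b ≠ 0) (h : IsSquare (a * b)) :
    kr (K := K) (rt Ω a) = kr (rt Ω b) := by
  obtain ⟨s, hs⟩ := h
  have hs0 : s ≠ 0 := fun h0 => mul_ne_zero ha hb (by rw [hs, h0, mul_zero])
  have h1 := hD.mul ha hb
  rw [hs, hD.mul hs0 hs0] at h1
  funext g
  have h2 := congrFun h1 g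
  simp only [Pi.add_apply] at h2
  revert h2
  generalize kr (K := K) (rt Ω a) g = x
  generalize kr (K := K) (rt Ω b) g = y
  generalize kr (K := K) (rt Ω s) g = z
  revert x y z
  decide

theorem st_LagK (hD : DictSt K Ω) : LagKSt K Ω where
  finS π S := by
    let S' : Finset (Pr K) := S.toLeft ∪ (og_finite (2 : K)).toFinset
    have : Finite (Stark.Sel S') := by
      have := finite_Sel S'
      exact Module.finite_of_finite (ZMod 2)
    have key : ∀ y : {y : (Ω ≃ₐ[K] Ω) → ZMod 2 | Hom ⊤ y ∧ ∀ v ∉ S, ∀ g ∈ π.I v, y g = 0},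
        ∃ a : K, IsSel S' a ∧ y.1 = kr (rt Ω a) := by
      rintro ⟨y, hy, hy'⟩
      obtain ⟨a, ha, rfl⟩ := hD.glob y hy
      refine ⟨a, ⟨ha, fun q hq => ?_⟩, rfl⟩
      simp only [S', Finset.mem_union, Finset.mem_toLeft, Set.Finite.mem_toFinset, not_or,
        Set.mem_setOf_eq, not_not] at hq
      exact (hD.unr π q ha hq.2).1 (hy' _ hq.1)
    choose a ha ha' using key
    refine Finite.of_injective (fun y => (⟨cl (a y), a y, ha y, rfl⟩ : Stark.Sel S')) fun y y' h => ?_
    refine Subtype.ext ?_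
    rw [ha' y, ha' y']
    exact LagKAux.sq hD (ha y).1 (ha y').1
      ((cl_eq_cl (ha y).1 (ha y').1).1 (congrArg Subtype.val h))
  lag π S₀ := by
    obtain ⟨S', hS, hcl⟩ := exists_clTriv (S₀.toLeft ∪ (og_finite (2 : K)).toFinset)
    have h2 : ∀ q ∉ S', og q (2 : K) = 0 := fun q hq => by_contra fun h =>
      hq (hS (Finset.mem_union_right _ ((Set.Finite.mem_toFinset _).2 h)))
    refine ⟨S'.disjSum Finset.univ, ?_, fun b hb h => ?_⟩
    · rintro (q | φ) hv
      · exact Finset.inl_mem_disjSum.2 (hS (Finset.mem_union_left _ (Finset.mem_toLeft.2 hv)))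
      · exact Finset.inr_mem_disjSum.2 (Finset.mem_univ _)
    have key : ∀ v : Pl K, ∃ a : K, a ≠ 0 ∧ (v ∈ S'.disjSum Finset.univ →
        ∀ g ∈ π.D v, b v g = kr (rt Ω a) g) := fun v => by
      by_cases hv : v ∈ S'.disjSum Finset.univ
      · obtain ⟨a, ha, ha'⟩ := hD.kum π v _ (hb v hv)
        exact ⟨a, ha, fun _ => ha'⟩
      · exact ⟨1, one_ne_zero, fun h => (hv h).elim⟩
    choose x hx hx' using key
    have hun : ∀ u ∈ SU S', ∀ v ∉ S'.disjSum Finset.univ, ∀ g ∈ π.I v,
        kr (K := K) (rt Ω (u : K)) g = 0 := by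
      rintro u hu (q | φ) hv
      · have hq : q ∉ S' := fun h => hv (Finset.inl_mem_disjSum.2 h)
        refine (hD.unr π q u.ne_zero (h2 q hq)).2 ?_
        rw [hu q hq]
        exact Even.zero
      · exact (hv (Finset.inr_mem_disjSum.2 (Finset.mem_univ _))).elim
    obtain ⟨s, hs, hr, hq⟩ := lagrangian S' h2 hcl (fun φ => φ (x (Sum.inr φ)))
      (fun φ => (map_ne_zero φ).2 (hx _)) (fun q => emb q (x (Sum.inl q)))
      (fun q _ => (map_ne_zero _).2 (hx _)) fun u hu => by
        have h1 := h _ (hD.hom u.ne_zero) (hun u hu)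
        rw [Finset.sum_congr rfl fun v hv => (hD.congr _ _ _ _ _ (fun _ _ => rfl) (hx' v hv)).trans
          ((hD.sym π v u.ne_zero (hx v)).trans (hD.hp_comm v u.ne_zero (hx v))),
          Finset.sum_disjSum, add_comm] at h1
        exact h1
    refine ⟨_, hD.hom s.ne_zero, hun s hs, fun v hv g hg => ?_⟩
    rw [hx' v hv g hg]
    refine LagKAux.eq_of hD π v s.ne_zero (hx v) ?_ g hg
    rcases v with q | φ
    · change IsSquare (emb q _)
      rw [map_mul]
      exact hq q (Finset.inl_mem_disjSum.1 hv)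
    · change 0 < φ _
      rw [map_mul]
      exact hr φ

end Pool.Agent.SC
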