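import Pool.Agent.Lib.MP_b4b3cb_nt.StB

/-! Global lifting of Selmer cochains and the local condition at good places. -/

namespace Pool.Agent.SC

open scoped Classical
open Module

namespace LiftAux

lemma lam_d2 (hL : LatSt) (hA : AcSt) {G : Type} [Group G] [TopologicalSpace G] {χ : G →* ℤ_[2]ˣ}
    (R : Rp χ) {j : ℤ} {a : G → V} {g h : G} (h1 : a g ∈ T j) (h2 : a h ∈ T j)
    (h3 : a (g * h) ∈ T j) : R.d2 a g h ∈ T j ∧
      lam j (R.d2 a g h) = lam j (a g) + lam j (a h) + lam j (a (g * h)) := by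
  have h4 := (hA.mem R g j _).2 h2
  exact ⟨sub_mem (add_mem h1 h4) h3, by
    rw [Rp.d2, hL.lam_sub (add_mem h1 h4) h3, hL.lam_add h1 h4, hA.lam_ac]⟩

end LiftAux

open LiftAux

theorem st_Lift (hL : LatSt) (hA : AcSt) : LiftSt := by
  intro G P _ _ _ A R dy i j x hij ⟨hx, hl⟩
  have t0 : ∀ g h, R.d2 x g h ∈ T j := fun g h => hx.2.2 g trivial h trivial
  obtain ⟨f, f1, f2⟩ := A.abhn (fun g h => lam j (R.d2 x g h))
    ⟨(hL.lam_cont j).comp_continuousOn (hA.d2_cont R ⊤ x hx.1), fun g _ h _ k _ => by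
      beta_reduce
      rw [← hA.lam_ac R g j (R.d2 x h k), ← hL.lam_add ((hA.mem R g j _).2 (t0 h k)) (t0 _ _),
        hA.dd, hL.lam_add (t0 _ _) (t0 _ _)]⟩ fun v => by
    obtain ⟨t, t1, t2⟩ := hl v
    refine ⟨fun g => lam j (x g - t g), (hL.lam_cont j).comp_continuousOn
      ((hx.1.mono fun _ _ => trivial).sub t1.1.1), fun g hg h hh => ?_⟩
    have := (lam_d2 hL hA R (a := x - t) (t2 g hg) (t2 h hh) (t2 _ (mul_mem hg hh))).2
    rwa [hA.d2_sub, t1.1.2.2 g hg h hh, sub_zero] at this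
  obtain ⟨e, -, he⟩ := hL.ex j
  let y : G → V := fun g => ((f g).val : ℚ_[2]) • e
  refine ⟨x + y, ⟨hx.1.add ((continuous_of_discreteTopology
    (f := fun c : ZMod 2 => (c.val : ℚ_[2]) • e)).comp_continuousOn f1),
    fun g hg => add_mem (hx.2.1 g hg) (hL.anti hij (he _).1), fun g hg h hh => ?_⟩,
    fun g => by rw [Pi.add_apply, add_sub_cancel_left]; exact (he _).1⟩
  obtain ⟨a, b⟩ := lam_d2 hL hA R (a := y) (g := g) (h := h) (he _).1 (he _).1 (he _).1
  rw [hA.d2_add, ← hL.lam_zero, hL.lam_add (t0 g h) a, b, show lam j _ = _ from f2 g hg h hh]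
  simp only [y, (he _).2]
  exact CharTwo.add_self_eq_zero _

theorem st_Good (hL : LatSt) (hA : AcSt) (hZ : ZSt) : GoodSt := by
  intro G _ _ χ R D I dy hI hg i j x hij
  induction j, hij using Int.leInduction with
  | base => exact fun hx _ => ⟨0, hZ.z_zero R D dy i, fun g h => by simpa using hx.2.1 g h⟩
  | succ j hij ih =>
    intro hx h0
    obtain ⟨t, t1, t2⟩ := ih (hZ.lev_mono R hx le_rfl le_rfl (by omega))
      fun g h => hL.anti (by omega) (h0 g h)
    have a : R.Lev D j (j + 1) (x - t) := ⟨hx.1.sub t1.1.1, t2, fun g hg h hh => by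
      rw [hA.d2_sub, t1.1.2.2 g hg h hh, sub_zero]; exact hx.2.2 g hg h hh⟩
    obtain ⟨s, s1, s2⟩ := (hZ.mem_W R D dy j _).1 ((hg j).2 _ (hZ.hom_lam R D a (by omega))
      fun g h => by rw [hL.lam_zero, Pi.sub_apply, (hg i).1 t t1 g h, sub_zero]; exact h0 g h)
    refine ⟨t + s, (hZ.z_add R D dy t1 (hZ.z_mem R D dy s1 fun g h =>
      hL.anti hij (s1.1.2.1 g h))).1, fun g h => ?_⟩
    have e := congrFun s2 g
    simp only [res, if_pos h, Pi.sub_apply] at e
    rw [Pi.add_apply, ← sub_sub, ← hL.lam_zero, hL.lam_sub (t2 g h) (s1.1.2.1 g h), e]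
    exact CharTwo.add_self_eq_zero _

end Pool.Agent.SC
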