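import Pool.Agent.Lib.MP_b4b3cb_nt.StB

/-! Passage to the limit in a tower of Selmer cochains. -/

namespace Pool.Agent.SC

open scoped Classical
open Module Filter Topology

namespace LimAux

theorem small (hL : LatSt) {ε : ℝ} (hε : 0 < ε) (a : ℤ) :
    ∃ n : ℕ, ∀ k ≥ n, ∀ u ∈ T (a + (k : ℕ)), ‖u‖ < ε := by
  obtain ⟨m, hm⟩ := exists_pow_lt_of_lt_one hε (by norm_num : (1 / 2 : ℝ) < 1)
  refine ⟨(2 * m - a).toNat, fun k hk u hu => ?_⟩
  have h1 : u ∈ T (2 * (m : ℤ)) := hL.anti (by omega) hu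
  refine ((hL.norm_iff m u).1 h1).trans_lt ?_
  rwa [zpow_neg, zpow_natCast, ← inv_pow, ← one_div]

theorem lim (hL : LatSt) {G : Type} [TopologicalSpace G] (a : ℤ) (x : ℕ → G → V)
    (hc : ∀ k, Continuous (x k)) (hs : ∀ (k : ℕ) g, x (k + 1) g - x k g ∈ T (a + k)) :
    ∃ y : G → V, Continuous y ∧ ∀ (k : ℕ) g, y g - x k g ∈ T (a + k) := by
  have h1 : ∀ (k : ℕ) g, ∀ m ≥ k, x m g - x k g ∈ T (a + k) := by
    intro k g m hm
    induction m, hm using Nat.le_induction with
    | base =>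
      rw [sub_self]
      exact zero_mem _
    | succ m hm ih =>
      have := add_mem (hL.anti (by omega : a + (k : ℤ) ≤ a + m) (hs m g)) ih
      rwa [sub_add_sub_cancel] at this
  have h2 : ∀ g, ∃ l, Tendsto (fun k => x k g) atTop (𝓝 l) := by
    intro g
    refine cauchySeq_tendsto_of_complete (Metric.cauchySeq_iff'.2 fun ε hε => ?_)
    obtain ⟨n, hn⟩ := small hL hε a
    exact ⟨n, fun m hm => by
      rw [dist_eq_norm]
      exact hn n le_rfl _ (h1 n g m hm)⟩
  choose y hy using h2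
  have h3 : ∀ (k : ℕ) g, y g - x k g ∈ T (a + k) := fun k g =>
    (hL.isClosed _).mem_of_tendsto ((hy g).sub_const (x k g))
      (eventually_atTop.2 ⟨k, fun m hm => h1 k g m hm⟩)
  refine ⟨y, ?_, h3⟩
  have h4 : TendstoUniformly x y atTop := by
    refine Metric.tendstoUniformly_iff.2 fun ε hε => ?_
    obtain ⟨n, hn⟩ := small hL hε a
    exact eventually_atTop.2 ⟨n, fun m hm g => by
      rw [dist_eq_norm]
      exact hn m hm _ (h3 m g)⟩
  exact h4.continuous (Eventually.of_forall hc).frequently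

end LimAux

theorem st_Lim (hL : LatSt) (hA : AcSt) : LimSt := by
  intro G P _ _ A R dy N h i x hx
  choose! F hF using h
  let xs : ℕ → G → V := fun k => Nat.rec x (fun k y => F i (i + N + 1 + k) y) k
  have h1 : ∀ k : ℕ, Sel A R dy i (i + N + 1 + k) (xs k) := by
    intro k
    induction k with
    | zero =>
      rw [Nat.cast_zero, add_zero]
      exact hx
    | succ k ih =>
      have := (hF i (i + N + 1 + k) (by omega) _ ih).1
      rwa [show i + N + 1 + k + 1 = i + N + 1 + ((k + 1 : ℕ) : ℤ) by push_cast; ring] at this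
  have h2 : ∀ (k : ℕ) g, xs (k + 1) g - xs k g ∈ T (i + 1 + k) := by
    intro k g
    have := (hF i (i + N + 1 + k) (by omega) _ (h1 k)).2 g
    rwa [show i + N + 1 + k - N = i + 1 + k by ring] at this
  obtain ⟨y, hy, h3⟩ := LimAux.lim hL (i + 1) xs
    (fun k => continuousOn_univ.1 (by simpa using (h1 k).1.1)) h2
  have h0 : ∀ g, y g - x g ∈ T (i + 1) := fun g => by
    have := h3 0 g
    rw [Nat.cast_zero, add_zero] at this
    exact this
  refine ⟨y, ⟨hy.continuousOn, fun g hg => ?_, fun g hg g' hg' => hL.sep _ fun j => ?_⟩,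
    fun v j => ?_, fun g => hL.lam_congr (h0 g)⟩
  · have := add_mem (hL.anti (by omega : i ≤ i + 1) (h0 g)) (hx.1.2.1 g hg)
    rwa [sub_add_cancel] at this
  · obtain ⟨k, hk⟩ : ∃ k : ℕ, j ≤ i + 1 + k := ⟨(j - (i + 1)).toNat, by omega⟩
    have e : R.d2 y g g' = R.d2 (y - xs k) g g' + R.d2 (xs k) g g' := by
      rw [hA.d2_sub, sub_add_cancel]
    rw [e]
    refine add_mem (hL.anti hk ?_) (hL.anti (by omega) ((h1 k).1.2.2 g hg g' hg'))
    exact sub_mem (add_mem (h3 k g) ((hA.mem R g _ _).2 (h3 k g'))) (h3 k (g * g'))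
  · obtain ⟨k, hk⟩ : ∃ k : ℕ, j ≤ i + 1 + k := ⟨(j - (i + 1)).toNat, by omega⟩
    obtain ⟨t, ht, ht'⟩ := (h1 k).2 v
    refine ⟨t, ht, fun g hg => ?_⟩
    have := add_mem (hL.anti hk (h3 k g))
      (hL.anti (by omega : j ≤ i + N + 1 + k) (ht' g hg))
    rwa [sub_add_sub_cancel] at this

end Pool.Agent.SC
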