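import Pool.Agent.Lib.MP_b4b3cb_nt.StG

/-! The dictionary between decomposition groups and completions. -/

namespace Pool.Agent.SC

open NumberField Pool.Agent.Stark
open scoped Classical Pointwise Topology

variable {K Ω : Type} [Field K] [NumberField K] [Field Ω] [Algebra K Ω] [IsAlgClosed Ω]
  [IsGalois K Ω] [CharZero Ω]

namespace LocAux

open IntermediateField (fixedField mem_fixedField_iff)

variable {F : Type} [Field F] [NumberField F] {q : Pr F} {𝔓 : Ideal (𝓞 Ω)}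

lemma dens (f : Kc q × Kc q → Kc q) (hf : Continuous f) (p : Kc q × Kc q) {c : Kc q} (hc : c ≠ 0) :
    ∃ x z : F, wv q (f (emb q x, emb q z) - f p) < wv q c := by
  obtain ⟨⟨x, z⟩, h⟩ := ((q.denseRange_algebraMap F).prodMap
    (q.denseRange_algebraMap F)).exists_mem_open (s := {y | ‖f y - f p‖ < ‖c‖})
    (isOpen_lt (by fun_prop) continuous_const) ⟨p, show ‖f p - f p‖ < ‖c‖ by
      rw [sub_self, norm_zero]; exact norm_pos_iff.2 hc⟩
  exact ⟨x, z, Valued.toNormedField.norm_lt_iff.1 h⟩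

omit [NumberField K] [IsAlgClosed Ω] [IsGalois K Ω] in
/-- The lemma of Hensel in the decomposition field. -/
lemma hens (hP : PrimeSt K Ω) (hm : 𝔓.IsMaximal) {D : Subgroup (Ω ≃ₐ[K] Ω)} (hD : D ≤ Dec K 𝔓)
    (ψ : fixedField D →+* Kc q) (hψ : ∀ (y : 𝓞 Ω) (x : fixedField D), (x : Ω) = y →
      wv q (ψ x) ≤ 1 ∧ (y ∈ 𝔓 ↔ wv q (ψ x) < 1)) {A B : fixedField D} (hB : B ≠ 0)
    (h : wv q (ψ A - ψ B) < wv q (ψ B * 4)) {s : Ω} (hs : s ^ 2 * B = A) :
    s ≠ 0 ∧ Fix D s := by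
  have B0 : (B : Ω) ≠ 0 := fun e => hB (Subtype.ext e)
  have h4 : wv q 4 ≤ 1 := ((wv q).mem_integer_iff _).1 (ofNat_mem (wv q).integer 4)
  have b0 : ψ B * 4 ≠ 0 := fun e => by simp [e] at h
  refine ⟨fun e => ?_, fun g hg => ?_⟩
  · obtain rfl : A = 0 := Subtype.ext (by simpa [e] using hs.symm)
    rw [map_zero, zero_sub, Valuation.map_neg, map_mul] at h
    exact h.not_ge (mul_le_of_le_one_right' h4)
  have fix : ∀ x : fixedField D, ∀ g ∈ D, g (x : Ω) = x := fun x => (mem_fixedField_iff _ _).1 x.2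
  set t : fixedField D := (A - B) / (B * 4) with ht
  have t1 : wv q (ψ t) < 1 := by
    rw [ht, map_div₀, map_div₀, map_sub, map_mul, map_ofNat]
    exact (div_lt_one₀ (zero_lt_iff.2 ((Valuation.ne_zero_iff _).2 b0))).2 h
  have t2 : s ^ 2 = 1 + 4 * (t : Ω) := by
    have : (t : Ω) = (A - B) / (B * 4) := by rw [ht]; push_cast; rfl
    rw [this, ← hs]
    field_simp
    ring
  obtain ⟨α, β, e1, β0, e2, e3⟩ := hP.frac hm t
  have hβ : ∀ g ∈ D, g (β : Ω) = β := fun g hg => by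
    rw [← hP.coe_smul, (e3 g (fix t g hg)).2]
  let β' : fixedField D := ⟨β, (mem_fixedField_iff _ _).2 hβ⟩
  have hα : α ∈ 𝔓 := by
    refine (hψ α (t * β') e1).2.2 ?_
    rw [map_mul, map_mul]
    exact mul_lt_one_of_lt_of_le t1 (hψ β β' rfl).1
  have hb : β ∉ 𝔓 := e2.resolve_left (not_not.2 hα)
  by_contra ne
  have e4 : g s = -s := by
    refine (sq_eq_sq_iff_eq_or_eq_neg.1 ?_).resolve_left ne
    rw [← map_pow, t2, map_add, map_one, map_mul, map_ofNat, fix t g hg]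
  have hi : IsIntegral ℤ ((β : Ω) * (1 - s) / 2) := by
    refine isIntegral_trans (A := 𝓞 Ω) _ ⟨Polynomial.X ^ 2 - Polynomial.C β * Polynomial.X -
      Polynomial.C (α * β), by monicity!, ?_⟩
    simp only [Polynomial.eval₂_sub, Polynomial.eval₂_mul, Polynomial.eval₂_X_pow,
      Polynomial.eval₂_C, Polynomial.eval₂_X, map_mul]
    change _ - (β : Ω) * _ - (α : Ω) * (β : Ω) = 0
    rw [← e1]
    linear_combination (β : Ω) ^ 2 / 4 * t2
  let Y : 𝓞 Ω := ⟨_, hi⟩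
  have hY : (Y : Ω) = (β : Ω) * (1 - s) / 2 := rfl
  have e5 : g • Y = β - Y := RingOfIntegers.ext (by
    rw [hP.coe_smul, hY, map_div₀, map_mul, map_sub, map_one, map_ofNat, e4, hβ g hg]
    change _ = (β : Ω) - (β : Ω) * (1 - s) / 2
    ring)
  have e6 : Y * (β - Y) = -(α * β) := RingOfIntegers.ext (by
    change (β : Ω) * (1 - s) / 2 * ((β : Ω) - (β : Ω) * (1 - s) / 2) = -((α : Ω) * (β : Ω))
    rw [← e1]
    linear_combination -(β : Ω) ^ 2 / 4 * t2)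
  have e7 := (hP.mem_dec 𝔓 g).1 (hD hg) Y
  rw [e5] at e7
  have e8 : Y ∈ 𝔓 := (hm.isPrime.mem_or_mem (e6 ▸ neg_mem (𝔓.mul_mem_right β hα))).elim id e7.1
  exact hb (by simpa using add_mem (e7.2 e8) e8)

variable [Algebra K F] [Algebra F Ω] [IsScalarTower K F Ω]

omit [NumberField K] [IsAlgClosed Ω] [IsGalois K Ω] [CharZero Ω] in
lemma setup (hE : EmbSt K Ω) (h : Over 𝔓 q) :
    ∃ (ψ : fixedField (Dec K 𝔓 ⊓ Gs K Ω F) →+* Kc q) (ι : F →+* fixedField (Dec K 𝔓 ⊓ Gs K Ω F)),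
      (∀ a, (ι a : Ω) = algebraMap F Ω a) ∧ (∀ a, ψ (ι a) = emb q a) ∧
      ∀ (y : 𝓞 Ω) (x : fixedField (Dec K 𝔓 ⊓ Gs K Ω F)), (x : Ω) = y →
        wv q (ψ x) ≤ 1 ∧ (y ∈ 𝔓 ↔ wv q (ψ x) < 1) := by
  obtain ⟨φ, h1, h2, h3⟩ := hE F 𝔓 q h
  have fix : ∀ x : fixedField (Dec K 𝔓 ⊓ Gs K Ω F), Fix (Dec K 𝔓 ⊓ Gs K Ω F) (x : Ω) :=
    fun x => (mem_fixedField_iff _ _).1 x.2
  refine ⟨{ toFun := fun x => φ x
            map_one' := by simpa using h2 1
            map_mul' := fun x y => (h1 _ _ (fix x) (fix y)).2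
            map_zero' := by simpa using h2 0
            map_add' := fun x y => (h1 _ _ (fix x) (fix y)).1 },
    (algebraMap F Ω).codRestrict _ fun a => (mem_fixedField_iff _ _).2 fun g hg => hg.2 a,
    fun _ => rfl, h2, fun y x e => ?_⟩
  have := h3 y (e ▸ fix x)
  rwa [← e] at this

end LocAux

open LocAux IntermediateField in
theorem st_Loc (hE : EmbSt K Ω) (hP : PrimeSt K Ω) : LocSt K Ω where
  sq := fun {F _ _ _ _ _ 𝔓 q} h a r ha hr => by
    obtain ⟨ψ, ι, h1, h2, h3⟩ := setup hE h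
    have a0 : emb q a * 4 ≠ 0 := by
      rw [← map_ofNat (emb q) 4, ← map_mul, map_ne_zero]
      exact mul_ne_zero ha (by norm_num : (4 : F) ≠ 0)
    refine ⟨fun ⟨ρ, e⟩ => ?_, fun e => ⟨ψ ⟨r, (mem_fixedField_iff _ _).2 e⟩, ?_⟩⟩
    · obtain ⟨b, _, hb⟩ := dens (fun p => p.1 * p.1) (by fun_prop) (ρ, 0) a0
      have r0 : r ≠ 0 := fun e => (map_ne_zero (algebraMap F Ω)).2 ha (by simpa [e] using hr.symm)
      obtain ⟨s0, hs⟩ := hens hP h.1 inf_le_left ψ h3 (A := ι (b * b)) (B := ι a)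
        ((map_ne_zero ι).2 ha) (by rw [h2, h2, map_mul (emb q)]; dsimp only at hb; rwa [← e] at hb)
        (s := algebraMap F Ω b / r) (by rw [h1, h1, ← hr, map_mul]; field_simp)
      intro g hg
      have := hs g hg
      rw [map_div₀, hg.2 b, div_eq_mul_inv, div_eq_mul_inv] at this
      exact inv_injective (mul_left_cancel₀ (div_ne_zero_iff.1 s0).1 this)
    · rw [← map_mul, ← h2]
      exact congrArg ψ (Subtype.ext (by rw [h1, ← hr, sq]; rfl))
  dense := fun {F _ _ _ _ _ 𝔓 q} h c c0 hc => by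
    obtain ⟨ψ, ι, h1, h2, h3⟩ := setup hE h
    let c' : fixedField (Dec K 𝔓 ⊓ Gs K Ω F) := ⟨c, (mem_fixedField_iff _ _).2 hc⟩
    have c1 : c' ≠ 0 := fun e => c0 (congrArg Subtype.val e)
    have a0 : ψ c' * 4 ≠ 0 := by
      rw [← map_ofNat (emb q) 4]
      exact mul_ne_zero ((map_ne_zero ψ).2 c1) ((map_ne_zero _).2 (by norm_num : (4 : F) ≠ 0))
    obtain ⟨a, _, ha⟩ := dens Prod.fst continuous_fst (ψ c', 0) a0
    obtain ⟨s, hs⟩ := IsAlgClosed.exists_pow_nat_eq (algebraMap F Ω a / c) two_pos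
    have e : s ^ 2 * c = algebraMap F Ω a := by rw [hs, div_mul_cancel₀ _ c0]
    obtain ⟨s0, hf⟩ := hens hP h.1 inf_le_left ψ h3 (A := ι a) c1 (by rw [h2]; exact ha) (s := s)
      (e.trans (h1 a).symm)
    refine ⟨a, s⁻¹, fun z => mul_ne_zero (pow_ne_zero 2 s0) c0 (by rw [e, z, map_zero]),
      fun g hg => by rw [map_inv₀, hf g hg], ?_⟩
    rw [← e]
    field_simp
  norm := fun {F _ _ _ _ _ 𝔓 q} h a b _ hb => by
    obtain ⟨ψ, ι, h1, h2, h3⟩ := setup hE h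
    rw [hq, hs_eq_zero]
    refine ⟨fun ⟨x, z, e⟩ => ?_, fun ⟨x, z, hx, hz, e⟩ =>
      ⟨ψ ⟨x, (mem_fixedField_iff _ _).2 hx⟩, ψ ⟨z, (mem_fixedField_iff _ _).2 hz⟩, ?_⟩⟩
    · have a0 : emb q b * 4 ≠ 0 := by
        rw [← map_ofNat (emb q) 4, ← map_mul, map_ne_zero]
        exact mul_ne_zero hb (by norm_num : (4 : F) ≠ 0)
      obtain ⟨x0, z0, hx⟩ := dens (fun p => p.1 ^ 2 - emb q a * p.2 ^ 2) (by fun_prop) (x, z) a0
      have b0 := (map_ne_zero (algebraMap F Ω)).2 hb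
      obtain ⟨s, hs⟩ := IsAlgClosed.exists_pow_nat_eq
        (algebraMap F Ω (x0 ^ 2 - a * z0 ^ 2) / algebraMap F Ω b) two_pos
      have e' : s ^ 2 * algebraMap F Ω b = algebraMap F Ω (x0 ^ 2 - a * z0 ^ 2) := by
        rw [hs, div_mul_cancel₀ _ b0]
      obtain ⟨s0, hf⟩ := hens hP h.1 inf_le_left ψ h3 (A := ι (x0 ^ 2 - a * z0 ^ 2)) (B := ι b)
        ((map_ne_zero ι).2 hb) (by
          rw [h2, h2, map_sub (emb q), map_mul (emb q), map_pow (emb q), map_pow (emb q)]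
          dsimp only at hx
          rwa [← e] at hx) (s := s) (by rwa [h1, h1])
      refine ⟨algebraMap F Ω x0 / s, algebraMap F Ω z0 / s,
        fun g hg => by rw [map_div₀, hf g hg, hg.2 x0],
        fun g hg => by rw [map_div₀, hf g hg, hg.2 z0], ?_⟩
      rw [map_sub, map_mul, map_pow, map_pow] at e'
      field_simp
      linear_combination e'
    · rw [← h2, ← h2, ← map_pow, ← map_pow, ← map_mul, ← map_sub]
      exact congrArg ψ (Subtype.ext (by rw [h1, e, ← h1]; rfl))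

end Pool.Agent.SC
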