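import Pool.Agent.Lib.MP_b4b3cb_nt.StR

/-! The local factor of the root number at a nonsplit prime. -/

namespace Pool.Agent.SC

open NumberField Pool.Agent.Stark
open scoped Classical ComplexConjugate

variable {K L : Type} [Field K] [NumberField K] [Field L] [NumberField L] [Algebra K L]

namespace LocNAux

theorem even_of_lsq {v : Pr K} {x : K} (h : LSq v x) : Even (og v x) := by
  obtain ⟨r, hr⟩ := h
  rw [← ord_emb, hr]
  by_cases h0 : r = 0
  · simp [h0]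
  · exact ⟨_, ord_mul h0 h0⟩

theorem og_mul (v : Pr K) {x y : K} (hx : x ≠ 0) (hy : y ≠ 0) :
    og v (x * y) = og v x + og v y := ord_mul hx hy

variable {d : K} {E : Quad K L d} {𝔣 𝔠 : Ideal (𝓞 L)} {γ₀ : K} {j : Pr K → ℤ} {w : Pr L}

/-- An idempotent that comes from the base field. -/
theorem exists_idm (hC : CnSt) (hQ : QdSt K L) (h0 : 𝔣 ≠ ⊥) (hw : E.act w = w)
    (hf : 𝔣 ≤ w.asIdeal) (V : Gv K L j 𝔣 𝔠 γ₀) (h2 : og (below K w) (2 : K) = 0) :
    ∃ t : 𝓞 K, t ≠ 0 ∧ Idm 𝔣 w (algebraMap (𝓞 K) (𝓞 L) t) ∧ og (below K w) (t : K) = 0 ∧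
      LSq (below K w) (t : K) ∧ ∀ v ≠ below K w, j v ≤ og v γ₀ + og v (t : K) := by
  obtain ⟨S, hS⟩ : ∃ S : Finset (Pr L), ∀ w', w' ∈ S ↔ 𝔣 ≤ w'.asIdeal :=
    ⟨(hC.fin h0).toFinset, fun _ => Set.Finite.mem_toFinset _⟩
  have hN : ∀ w', 𝔣 ≤ w'.asIdeal → cn 𝔣 w' ≤ S.sup (cn 𝔣) + 1 := fun w' h =>
    (Finset.le_sup ((hS w').2 h)).trans (Nat.le_succ _)
  obtain ⟨t, t0, ht⟩ := hC.crt (S.image (below K)) (fun v => if v = below K w then 1 else 0)
    (S.sup (cn 𝔣) + 1)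
  have t1 : t - 1 ∈ (below K w).asIdeal ^ (S.sup (cn 𝔣) + 1) := by
    simpa using ht _ (Finset.mem_image_of_mem _ ((hS w).2 hf))
  have t2 : ∀ w' : Pr L, 𝔣 ≤ w'.asIdeal → below K w' ≠ below K w →
      t ∈ (below K w').asIdeal ^ (S.sup (cn 𝔣) + 1) := fun w' h h' => by
    simpa [h'] using ht _ (Finset.mem_image_of_mem _ ((hS w').2 h))
  have o1 : (1 : 𝓞 K) ∉ (below K w).asIdeal := fun h =>
    (below K w).isPrime.ne_top ((Ideal.eq_top_iff_one _).2 h)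
  refine ⟨t, t0, ⟨?_, fun w' hw' => ?_⟩, ?_, ?_, fun v hv => ?_⟩
  · have := hQ.pow_below w _ _ t1
    rw [map_sub, map_one] at this
    exact Ideal.pow_le_pow_right (hN w hf) this
  · by_cases h : 𝔣 ≤ w'.asIdeal
    · refine Ideal.pow_le_pow_right (hN w' h) (hQ.pow_below w' _ _ (t2 w' h fun g => hw' ?_))
      exact ((E.below_eq_iff w w').1 g).elim id fun g' => g'.trans hw
    · simp [(hC.zero h0 w').2 h]
  · refine le_antisymm (not_lt.1 fun h => o1 ?_) (og_nonneg _ _)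
    simpa using sub_mem ((og_pos_iff _ t0).1 h) (Ideal.pow_le_self (Nat.succ_ne_zero _) t1)
  · simpa using hC.lsq (below K w) t 1 _ (by rw [h2]; positivity) o1 t1
  · obtain ⟨w', rfl⟩ := below_surj (K := L) v
    rw [V w']
    by_cases h : 𝔣 ≤ w'.asIdeal
    · have h3 := (le_og_iff _ t0 _).2 (t2 w' h hv)
      have h4 := hN w' h
      omega
    · have h3 := og_nonneg (below K w') t
      have h4 := (hC.zero h0 w').2 h
      omega

end LocNAux

open LocNAux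

theorem st_LocN (h4 : Tau4St K L) (hT : TSt) (hC : CnSt) (hG : GsSt) (hQ : QdSt K L)
    (hH : HDSt K L) (hL : TlSt K L) : LocNSt K L := by
  intro d E 𝔣 𝔠 a ψ χ γ₀ H R G j gam W V w e hw he
  have ns : ¬ LSq (below K w) d := fun h => E.ne_of_lsq h hw
  have h2 : og (below K w) (2 : K) = 0 := by_contra fun h => ns (R.dy _ h)
  have h2' : og w (2 : L) = 0 := (hQ.two w).2 h2
  have d0 : d ≠ 0 := E.a_ne
  have c0 : 2 * γ₀ ≠ 0 := mul_ne_zero two_ne_zero G.ne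
  have oc : og (below K w) (2 * γ₀) - j (below K w) = cn 𝔠 w - cn 𝔣 w := by
    rw [og_mul _ two_ne_zero G.ne, h2, V w]; ring
  by_cases hf : 𝔣 ≤ w.asIdeal
  swap
  · obtain ⟨r, r0, hr⟩ := R.inert w hw hf
    have ev : Even (og (below K w) d) :=
      Int.not_odd_iff_even.1 fun h => hf (R.ram w ((hQ.ram E w h2).2 h))
    refine ⟨r⁻¹ ^ cn 𝔠 w, by positivity, ?_⟩
    rw [lw, hL.one H G he hf, hr, hT.inert W _ c0 d0 h2 ev ns, oc, (hC.zero H.ne w).2 hf,
      if_neg fun h => hf h.1, inv_neg, neg_pow, neg_one_pow_eq_sg]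
    simp [mul_comm]
  have f1 : cn 𝔣 w = 1 := le_antisymm (hH.odd H w h2')
    (Nat.pos_of_ne_zero fun h => (hC.zero H.ne w).1 h hf)
  have c1 : cn 𝔠 w = 0 := (hC.zero G.ne' w).2 ((hC.cop 𝔠 H.ne).1 G.cop w hf)
  obtain ⟨t, t0, t1, t2, t3, t4⟩ := exists_idm hC hQ H.ne hw hf V h2
  have t0' : (t : K) ≠ 0 := by simpa using t0
  obtain ⟨u1, u2, r, r0, u3⟩ := h4 E W w (γ₀ * t) hw h2 (mul_ne_zero G.ne t0')
    (by rw [og_mul _ G.ne t0', t2, V w, f1, c1]; simp) fun v hv => by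
      rw [og_mul _ G.ne t0']; exact t4 v hv
  have p := hL.per H t1
  rw [f1, pow_one] at p
  have q := hG.quad w _ (fun x => eTr (algebraMap K L (γ₀ * t) * (x : L))) h2' p (hL.mul H t1)
    (fun x => (hL.zero H t1 hf x).2)
    (fun x hx => (H.val _).resolve_left fun h => hx ((hL.zero H t1 hf x).1 h))
    (hL.nontriv H t1 hf) (fun x y => by rw [← eTr_add, ← mul_add]; rfl) u1 u2
  have e1 : lw 𝔣 𝔠 ψ χ (algebraMap K L γ₀) w e = r * if eI K w = 2 then gam (below K w) (2 * γ₀)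
      else gam (below K w) (2 * γ₀) * gam (below K w) (2 * γ₀ * d) := by
    rw [lw, c1, pow_zero, mul_one, hL.congr H G he t1, tl, f1, pow_one, ← W.sq _ _ _ c0 t0' t3,
      ← W.sq _ _ _ (mul_ne_zero c0 d0) t0' t3, mul_right_comm _ d, mul_assoc 2 γ₀, ← u3, ← q]
    simp only [map_mul]
    rfl
  rw [f1, c1] at oc
  refine ⟨r, r0.le, ?_⟩
  rw [e1, mul_assoc (r : ℂ)]
  congr 1
  have on : og (below K w) (-d) = og (below K w) d := ord_neg _
  split_ifs with g g' g'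
  · exact absurd (on ▸ even_of_lsq g'.2) (Int.not_even_iff_odd.2 ((hQ.ram E w h2).1 g))
  · rw [hT.ram W _ c0 d0 h2 ((hQ.ram E w h2).1 g) (by rw [oc]; decide), sg_zero, mul_one]
  · have ev := Int.not_odd_iff_even.1 (mt (hQ.ram E w h2).2 g)
    have := hT.split W _ c0 (neg_ne_zero.2 d0) g'.2
    rw [mul_neg, neg_neg] at this
    rw [this, hT.inert W _ c0 d0 h2 ev ns, oc, ← sg_add]
    exact sg_zero.symm
  · have ev := Int.not_odd_iff_even.1 (mt (hQ.ram E w h2).2 g)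
    have := hT.inert W _ c0 (neg_ne_zero.2 d0) h2 (on ▸ ev) fun h => g' ⟨hf, h⟩
    rw [mul_neg, neg_neg] at this
    rw [this, hT.inert W _ c0 d0 h2 ev ns, sg_zero, mul_one]

end Pool.Agent.SC
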