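import Pool.Agent.Lib.MP_b4b3cb_nt.StC

/-! The main theorem inside the big Galois group. -/

namespace Pool.Agent.SC

open NumberField Pool.Agent.Stark
open scoped Classical Pointwise

variable {K L Ω : Type} [Field K] [NumberField K] [Field L] [NumberField L] [Algebra K L]
  [Field Ω] [Algebra K Ω] [Algebra L Ω] [IsScalarTower K L Ω] [IsAlgClosed Ω]

theorem st_MainG (hAc : AcSt) (hCore : CoreSt) (hAD : ADSt K Ω) (hP : PrimeSt K Ω)
    (hCj : CjSt K Ω) (hCn : CnSt) (hQd : QdSt K L) (hCm : CmSt K L) (hDP : DyPrSt)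
    (hDyK : DyKSt K L) (hGl : GlSt K L Ω) (hRp : RpSt K L Ω) (hF1 : F1St K L Ω)
    (hF2 : F2St K L Ω) (hLD : LDySt K L Ω) (hRH : RHSt K L Ω) (hLG : LGoodSt K L Ω)
    (hLB : LBadSt K L Ω) (hSh : ShapSt K L Ω) (hRoot : RootSt K L) (hSign : SignSt K L) :
    MainGSt K L Ω := by
  intro d E 𝔣 a ψ χ ι t dw ρ fr hD hY hT hS
  obtain ⟨hdy, sec, hsec, hneg, hcount⟩ := hDyK hD.cm hY
  obtain ⟨π, hπ⟩ := hGl.plc sec hsec
  obtain ⟨A, hχ, hDD, hI, hsym⟩ := hAD π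
  obtain ⟨R, hη, hr⟩ := hRp hD hT A.χ hχ
  obtain ⟨δ, hδ, hkr, hodd, hng⟩ := hF1 hD hY hT
  have X : LX E 𝔣 ρ δ sec π A R := ⟨hχ, hDD, hI, hsym, hsec, hπ, hη, hr, hδ, hkr, hodd⟩
  have hR : RH E 𝔣 ψ := hRH X hT fun v h => (hdy v h).1
  obtain ⟨S, hSm⟩ : ∃ S : Finset (Pr K), ∀ v, v ∈ S ↔ og v (2 : K) ≠ 0 ∨ 𝔣 ≤ (sec v).asIdeal := by
    have h1 : {v : Pr K | og v (2 : K) ≠ 0 ∨ 𝔣 ≤ (sec v).asIdeal}.Finite :=
      ((og_finite (2 : K)).union ((hCn.fin hD.ne).image (below K))).subset fun v hv =>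
        hv.imp id fun h => ⟨sec v, h, hsec v⟩
    exact ⟨h1.toFinset, fun v => h1.mem_toFinset⟩
  obtain ⟨k₀⟩ := hCm.ne hD.cm
  obtain ⟨eR, -⟩ := hCm.real hD.cm
  have hc2 : π.c (eR k₀) * π.c (eR k₀) = 1 := (hCj.sq (π.hc _)).1
  have hcL : π.c (eR k₀) ∉ Gs K Ω L := hGl.cj hD.cm (π.hc _)
  have hDy : ∀ v : Pr K, og v (2 : K) ≠ 0 → (∀ g ∈ A.D (Sum.inl v), R.η g = 0) ∧
      R.Cls (A.D (Sum.inl v)) True ∧ R.Big (A.D (Sum.inl v)) True ∧
      R.df (A.D (Sum.inl v)) True = 1 + 2 * ((hq (sec v) δ (-1)).val : ℤ) := fun v hv =>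
    hLD.dy X v (hdy v hv).1 (hdy v hv).2.1 (hdy v hv).2.2
      (hF2 hD hY hT _ _ (hπ v) fun h => hv (by rw [← hsec v]; exact (hQd.two _).1 h))
  have e1 : ∀ v : Pr K, og v (2 : K) ≠ 0 → dyP K (Sum.inl v) = True := fun v hv => eq_true hv
  have e0 : ∀ v : Pr K, og v (2 : K) = 0 → dyP K (Sum.inl v) = False := fun v hv =>
    eq_false fun h => h hv
  have er : ∀ φ : K →+* ℝ, dyP K (Sum.inr φ) = False := fun _ => rfl
  have hloc : ∀ v, R.Cls (A.D v) (dyP K v) ∧ R.Big (A.D v) (dyP K v) := by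
    rintro (v | φ)
    · by_cases hv : og v (2 : K) = 0
      · rw [e0 v hv]
        by_cases hf : 𝔣 ≤ (sec v).asIdeal
        · exact ⟨(hLB X v hv hf).1, (hLB X v hv hf).2.1⟩
        · exact ⟨(hLG X hD hT hR v hv hf).2.1, (hLG X hD hT hR v hv hf).2.2.1⟩
      · rw [e1 v hv]
        exact ⟨(hDy v hv).2.1, (hDy v hv).2.2.1⟩
    · rw [er]
      exact ⟨(hLD.real X hD.cm φ).1, (hLD.real X hD.cm φ).2.1⟩
  have hstd : Std A R (dyP K) (S.disjSum Finset.univ) := by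
    refine ⟨?_, ?_, fun v => (hloc v).2⟩
    · rintro (v | φ) hv
      · exact (hDy v hv).1
      · exact hv.elim
    · rintro (v | φ) hv
      · rw [Finset.inl_mem_disjSum, hSm, not_or, not_not] at hv
        rw [e0 v hv.1]
        exact (hLG X hD hT hR v hv.1 hv.2).2.2.2
      · exact absurd (Finset.inr_mem_disjSum.2 (Finset.mem_univ φ)) hv
  have hbdd : R.Bdd ⊤ := by
    obtain ⟨𝔓, h𝔓⟩ := hP.ex L (dw k₀.1)
    obtain ⟨g, hg, hg1⟩ := hF2 hD hY hT 𝔓 _ h𝔓 (by rw [(hDP.norm hY _).2]; exact one_ne_zero)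
    have hg0 : R.η g = 0 := by rw [hη]; exact (hGl.iff E g).1 hg.2
    have hc1 : R.η (π.c (eR k₀)) = 1 := by
      rw [hη]
      exact (zmod2_cases _).resolve_left fun h => hcL ((hGl.iff E _).2 h)
    have h3 := hAc.rs_conj R _ g hc1 hg0
    have h4 : R.r g ≠ 1 := by rwa [hr g hg.2]
    exact ⟨⟨g, trivial, hg0, h4⟩, ⟨_, trivial, h3.1, by rwa [h3.2.2]⟩⟩
  by_contra hcon
  have h4 := hCore A R (dyP K) _ hstd (fun v => (hloc v).1) hbdd fun x hx hz => by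
    by_contra hu
    obtain ⟨ξ, h1, h2, h3, h4, h5⟩ := hSh X _ hc2 hcL x hx hz hu
    exact hcon ⟨ξ, h1, h2, h3, fun 𝔓 σ hσ h => h4 𝔓 (below K (dw σ)) (by rwa [hneg σ hσ]), h5⟩
  obtain ⟨𝔠, γ₀, hG, r, hr0, hW⟩ := hRoot hD hR sec
    (fun v => hq (sec v) δ (-1) + ((∑ σ with dw σ = sec v, a σ : ℤ) : ZMod 2)) S hsec
    (fun v x hx => hng _ x hx) fun v hv h => hv ((hSm v).2 (Or.inr h))
  obtain ⟨C, hC, hCW⟩ := hSign hD hG hS
  obtain ⟨hc1, hc2'⟩ := hcount S fun v hv => by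
    by_contra h
    exact hv ((hSm v).2 (Or.inl h))
  obtain ⟨b, hb⟩ : ∃ b : Pr K → ℤ, ∀ v, b v = if LSq v d then ((hq (sec v) δ (-1)).val : ℤ)
      else if LSq v (-d) then -1 else 0 := ⟨_, fun _ => rfl⟩
  have hdf : ∀ v ∈ S, R.df (A.D (Sum.inl v)) (dyP K (Sum.inl v)) =
      (if og v (2 : K) ≠ 0 then 1 else 0) + 2 * b v := fun v hv => by
    by_cases h2 : og v (2 : K) = 0
    · have hf := ((hSm v).1 hv).resolve_left (not_not.2 h2)
      rw [e0 v h2, (hLB X v h2 hf).2.2, hb, if_neg (not_not.2 h2)]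
      split_ifs <;> ring
    · rw [e1 v h2, (hDy v h2).2.2.2, hb, if_pos h2, if_pos (hdy v h2).1]
  have hbv : ∀ v ∈ S, bv d 𝔣 sec (fun v => hq (sec v) δ (-1) +
      ((∑ σ with dw σ = sec v, a σ : ℤ) : ZMod 2)) v =
      ((b v + ∑ σ with dw σ = sec v, a σ : ℤ) : ZMod 2) := fun v hv => by
    rw [bv, hb]
    by_cases hl : LSq v d
    · rw [if_pos hl, if_pos hl, Int.cast_add, Int.cast_natCast, ZMod.natCast_zmod_val]
    · have h2 : og v (2 : K) = 0 := by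
        by_contra h
        exact hl (hdy v h).1
      have hf := ((hSm v).1 hv).resolve_left (not_not.2 h2)
      have h0 : ∑ σ with dw σ = sec v, a σ = 0 := by
        refine Finset.sum_eq_zero fun σ hσ => ?_
        have h5 := (hDP.norm hY σ).2
        rw [(Finset.mem_filter.1 hσ).2, (hQd.two _).2 (by rwa [hsec])] at h5
        exact absurd h5 zero_ne_one
      rw [if_neg hl, if_neg hl, h0, add_zero]
      by_cases hm : LSq v (-d)
      · rw [if_pos ⟨hf, hm⟩, if_pos hm]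
        decide
      · rw [if_neg fun h => hm h.2, if_neg hm, Int.cast_zero]
  have hre : ∀ φ ∈ (Finset.univ : Finset (K →+* ℝ)),
      R.df (A.D (Sum.inr φ)) (dyP K (Sum.inr φ)) = -1 := fun φ _ => (hLD.real X hD.cm φ).2.2
  rw [Finset.sum_disjSum, Finset.sum_congr rfl hdf, Finset.sum_congr rfl hre,
    Finset.sum_add_distrib, Finset.sum_boole, hc1, ← Finset.mul_sum,
    Finset.sum_const, Finset.card_univ] at h4
  obtain ⟨m, hm⟩ := h4
  have hm' : ∑ v ∈ S, b v = 2 * m := by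
    simp only [smul_neg, nsmul_eq_mul, mul_one] at hm
    linarith
  rw [Finset.sum_congr rfl hbv, ← Int.cast_sum, Finset.sum_add_distrib, hm', hc2'] at hW
  have h0 : ((Fintype.card (K →+* ℝ) : ZMod 2) + ((∑ k : Ty a, a k.1 : ℤ) : ZMod 2) +
      ((2 * m + (Fintype.card (K →+* ℝ) - ∑ k : Ty a, a k.1) : ℤ) : ZMod 2)) = 0 := by
    have h2 : (2 : ZMod 2) = 0 := rfl
    push_cast
    linear_combination ((m : ZMod 2) + Fintype.card (K →+* ℝ)) * h2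
  rw [h0] at hW
  rw [hW, sg, if_pos rfl, mul_one] at hCW
  have h5 : C * r = -1 := by exact_mod_cast hCW
  nlinarith [mul_nonneg hC.le hr0]

end Pool.Agent.SC
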