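import Pool.Agent.Lib.MP_b4b3cb_nt.StF

/-! The Mellin transform of the average over a box. -/

namespace Pool.Agent.SC

open NumberField Pool.Agent.Stark MeasureTheory
open scoped Classical ComplexConjugate

namespace MelAux

theorem mono {C C' δ δ' u : ℝ} (hC : C ≤ C') (hC' : 0 ≤ C') (hδ : δ' ≤ δ) (hu : 0 ≤ u) :
    C * Real.exp (-δ * u) ≤ C' * Real.exp (-δ' * u) :=
  (mul_le_mul_of_nonneg_right hC (Real.exp_pos _).le).trans
    (mul_le_mul_of_nonneg_left (Real.exp_le_exp.2 (by nlinarith)) hC')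

theorem box_lt (r : ℕ) : volume (box r) < ⊤ := by
  rw [box, volume_pi_pi]
  simp

theorem dom {δ : ℝ} (hδ : 0 < δ) (M : ℝ) :
    Integrable fun τ : ℝ => Real.exp (-δ * Real.exp |τ|) * Real.exp (M * |τ|) := by
  refine ((integrable_exp_neg_mul_sq (b := δ / 4) (by positivity)).const_mul
    (Real.exp (M ^ 2 / δ))).mono' (Continuous.aestronglyMeasurable (by fun_prop))
    (ae_of_all _ fun τ => ?_)
  rw [Real.norm_of_nonneg (by positivity), ← Real.exp_add, ← Real.exp_add, Real.exp_le_exp,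
    ← sq_abs τ]
  have h0 := abs_nonneg τ
  have h1 := mul_le_mul_of_nonneg_left (Real.quadratic_le_exp_of_nonneg h0) hδ.le
  have h2 : M * |τ| ≤ M ^ 2 / δ + δ / 4 * |τ| ^ 2 := by
    have h3 : M ^ 2 / δ + δ / 4 * |τ| ^ 2 - M * |τ| = (M - δ / 2 * |τ|) ^ 2 / δ := by
      field_simp
      ring
    have h4 : 0 ≤ (M - δ / 2 * |τ|) ^ 2 / δ := by positivity
    linarith
  nlinarith [mul_nonneg hδ.le h0]

theorem diff_aux {F : ℝ → ℂ} (hF : AEStronglyMeasurable F volume) {C δ : ℝ} (hδ : 0 < δ)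
    (hb : ∀ τ, ‖F τ‖ ≤ C * Real.exp (-δ * Real.exp |τ|)) (c : ℂ) :
    Differentiable ℂ fun s : ℂ => ∫ τ : ℝ, F τ * Complex.exp (c * s * τ) := by
  intro s₀
  have hC : 0 ≤ C := nonneg_of_mul_nonneg_left ((norm_nonneg _).trans (hb 0)) (Real.exp_pos _)
  have he : ∀ s ∈ Metric.ball s₀ 1, ∀ τ : ℝ,
      ‖Complex.exp (c * s * τ)‖ ≤ Real.exp (‖c‖ * (‖s₀‖ + 1) * |τ|) := by
    intro s hs τ
    refine (Complex.norm_exp_le_exp_norm _).trans (Real.exp_le_exp.2 ?_)
    rw [norm_mul, norm_mul, Complex.norm_real, Real.norm_eq_abs]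
    have h1 : ‖s‖ ≤ ‖s₀‖ + 1 := by
      have h2 := norm_sub_norm_le s s₀
      rw [mem_ball_iff_norm] at hs
      linarith
    gcongr
  have hm : ∀ s : ℂ, AEStronglyMeasurable (fun τ : ℝ => F τ * Complex.exp (c * s * τ)) volume :=
    fun s => hF.mul (Continuous.aestronglyMeasurable (by fun_prop))
  refine (hasDerivAt_integral_of_dominated_loc_of_deriv_le (μ := volume)
    (F := fun (s : ℂ) (τ : ℝ) => F τ * Complex.exp (c * s * τ))
    (F' := fun (s : ℂ) (τ : ℝ) => F τ * (Complex.exp (c * s * τ) * (c * τ)))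
    (bound := fun τ => C * ‖c‖ *
      (Real.exp (-δ * Real.exp |τ|) * Real.exp ((‖c‖ * (‖s₀‖ + 1) + 1) * |τ|)))
    (Metric.ball_mem_nhds s₀ one_pos) (Filter.Eventually.of_forall hm) ?_
    (hF.mul (Continuous.aestronglyMeasurable (by fun_prop))) (ae_of_all _ fun τ s hs => ?_)
    ((dom hδ _).const_mul _) (ae_of_all _ fun τ s _ => ?_)).2.differentiableAt
  · refine ((dom hδ (‖c‖ * (‖s₀‖ + 1))).const_mul C).mono' (hm s₀) (ae_of_all _ fun τ => ?_)
    rw [norm_mul, ← mul_assoc]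
    exact mul_le_mul (hb τ) (he s₀ (Metric.mem_ball_self one_pos) τ) (norm_nonneg _)
      (by positivity)
  · rw [norm_mul, norm_mul, norm_mul, Complex.norm_real, Real.norm_eq_abs, add_mul _ 1, one_mul,
      Real.exp_add]
    have h1 : |τ| ≤ Real.exp |τ| := by linarith [Real.add_one_le_exp |τ|]
    calc ‖F τ‖ * (‖Complex.exp (c * s * τ)‖ * (‖c‖ * |τ|))
        ≤ C * Real.exp (-δ * Real.exp |τ|) *
          (Real.exp (‖c‖ * (‖s₀‖ + 1) * |τ|) * (‖c‖ * Real.exp |τ|)) := by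
          gcongr
          · exact hb τ
          · exact he s hs τ
      _ = _ := by ring
  · have h1 : HasDerivAt (fun s : ℂ => c * s * τ) (c * τ) s := by
      simpa using ((hasDerivAt_id s).const_mul c).mul_const (τ : ℂ)
    exact h1.cexp.const_mul _

end MelAux

theorem st_Mel : MelSt where
  adm := by
    intro κ _ θ θ' C ℓ h h' e
    refine ⟨h.1, fun R => ?_⟩
    obtain ⟨C₁, δ₁, hδ₁, h₁⟩ := h.2 R
    obtain ⟨C₂, δ₂, hδ₂, h₂⟩ := h'.2 (R + ‖ℓ‖)
    refine ⟨|C₁| + ‖C‖ * |C₂|, min δ₁ δ₂, lt_min hδ₁ hδ₂, fun τ y hy => ?_⟩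
    have p1 := abs_nonneg C₁
    have p2 : 0 ≤ ‖C‖ * |C₂| := by positivity
    rcases le_or_gt 0 τ with hτ | hτ
    · rw [abs_of_nonneg hτ]
      exact (h₁ τ y hτ hy).trans (MelAux.mono (by linarith [le_abs_self C₁]) (by linarith)
        (min_le_left _ _) (Real.exp_pos _).le)
    · rw [abs_of_neg hτ, e, norm_mul]
      have h3 := h₂ (-τ) (ℓ - y) (by linarith) fun k => by
        have h4 : (ℓ - y) k - -τ = ℓ k - (y k - τ) := by
          rw [Pi.sub_apply]
          ring
        have h5 : |ℓ k| ≤ ‖ℓ‖ := norm_le_pi_norm ℓ k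
        rw [h4]
        linarith [abs_sub (ℓ k) (y k - τ), hy k]
      refine (mul_le_mul_of_nonneg_left h3 (norm_nonneg C)).trans ?_
      rw [← mul_assoc]
      exact MelAux.mono
        (by linarith [mul_le_mul_of_nonneg_left (le_abs_self C₂) (norm_nonneg C)]) (by linarith)
        (min_le_right _ _) (Real.exp_pos _).le
  diff := by
    intro κ _ r θ l y₀ h
    obtain ⟨C, δ, hδ, hb⟩ := h.2 (‖y₀‖ + ∑ j, ‖l j‖)
    have hc : Continuous fun p : ℝ × (Fin r → ℝ) =>
        θ fun k => y₀ k + ∑ j, p.2 j * l j k + p.1 := h.1.comp (by fun_prop)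
    refine MelAux.diff_aux (C := C * volume.real (box r))
      (hc.stronglyMeasurable.integral_prod_right' (ν := volume.restrict (box r))).aestronglyMeasurable
      hδ (fun τ => ?_) _
    rw [mul_right_comm]
    refine norm_setIntegral_le_of_norm_le_const (MelAux.box_lt r) fun t ht => hb τ _ fun k => ?_
    rw [add_sub_cancel_right]
    refine (abs_add_le _ _).trans (add_le_add (norm_le_pi_norm y₀ k)
      ((Finset.abs_sum_le_sum_abs _ _).trans (Finset.sum_le_sum fun j _ => ?_)))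
    have h1 := ht j (Set.mem_univ j)
    have h2 : |l j k| ≤ ‖l j‖ := norm_le_pi_norm (l j) k
    rw [abs_mul, abs_of_nonneg h1.1]
    nlinarith [h1.1, h1.2, abs_nonneg (l j k)]
  refl := by
    intro κ _ r θ θ' C ℓ l y₀ s e
    unfold mel
    rw [← integral_neg_eq_self, ← integral_const_mul]
    refine integral_congr_ae (ae_of_all _ fun τ => ?_)
    simp only [e, integral_const_mul, mul_assoc C]
    congr 2
    · refine integral_congr_ae (ae_of_all _ fun t => congrArg θ' (funext fun k => ?_))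
      simp only [Pi.sub_apply, Pi.neg_apply, mul_neg, Finset.sum_neg_distrib]
      ring
    · push_cast
      ring

end Pool.Agent.SC
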