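import Pool.Agent.Lib.MP_b4b3cb_nt.StC
import Pool.Agent.Lib.MP_ca56d1_nt.Split

/-! Approximation by norms at a totally split prime. -/

namespace Pool.Agent.SC

open NumberField Pool.Agent.Stark IsDedekindDomain
open scoped Classical Pointwise

namespace NapAux

section

variable {L M : Type} [Field L] [Field M] [Algebra L M]

/-- The action of an automorphism on integers. -/
noncomputable abbrev sI (σ : M ≃ₐ[L] M) : 𝓞 M ≃+* 𝓞 M := RingOfIntegers.mapRingEquiv σ.toRingEquiv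

theorem coe_sI (σ : M ≃ₐ[L] M) (x : 𝓞 M) : (sI σ x : M) = σ x := rfl

theorem sI_algebraMap (σ : M ≃ₐ[L] M) (x : 𝓞 L) :
    sI σ (algebraMap (𝓞 L) (𝓞 M) x) = algebraMap (𝓞 L) (𝓞 M) x :=
  RingOfIntegers.ext (σ.commutes (x : L))

/-- The preimage of a prime under an automorphism. -/
noncomputable def pb (σ : M ≃ₐ[L] M) (Q : Pr M) : Pr M :=
  HeightOneSpectrum.comap (sI σ).toRingHom (sI σ).surjective Q

theorem mem_pb (σ : M ≃ₐ[L] M) (Q : Pr M) (x : 𝓞 M) :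
    x ∈ (pb σ Q).asIdeal ↔ sI σ x ∈ Q.asIdeal := Iff.rfl

theorem mem_pb_pow (σ : M ≃ₐ[L] M) (Q : Pr M) (x : 𝓞 M) (n : ℕ) :
    x ∈ (pb σ Q).asIdeal ^ n ↔ sI σ x ∈ Q.asIdeal ^ n := by
  have h : (pb σ Q).asIdeal = Q.asIdeal.map (sI σ).symm := (Ideal.map_symm (sI σ)).symm
  rw [h, ← Ideal.map_pow, Ideal.map_symm]
  rfl

theorem pb_one (Q : Pr M) : pb (1 : M ≃ₐ[L] M) Q = Q :=
  HeightOneSpectrum.ext (Ideal.ext fun _ => Iff.rfl)

variable [NumberField L] [NumberField M]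

omit [NumberField L] [NumberField M] in
theorem below_pb (σ : M ≃ₐ[L] M) (Q : Pr M) : below L (pb σ Q) = below L Q := by
  refine HeightOneSpectrum.ext (Ideal.ext fun x => ?_)
  change sI σ (algebraMap (𝓞 L) (𝓞 M) x) ∈ Q.asIdeal ↔ algebraMap (𝓞 L) (𝓞 M) x ∈ Q.asIdeal
  rw [sI_algebraMap]

theorem descend (Q : Pr M) (x : 𝓞 L) (n E : ℕ) (hE : eI L Q ≤ E)
    (h : algebraMap (𝓞 L) (𝓞 M) x ∈ Q.asIdeal ^ (n * E)) : x ∈ (below L Q).asIdeal ^ n := by
  by_cases hx : x = 0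
  · rw [hx]
    exact zero_mem _
  have hx' : algebraMap (𝓞 L) (𝓞 M) x ≠ 0 := fun h0 =>
    hx (FaithfulSMul.algebraMap_injective (𝓞 L) (𝓞 M) (by rw [h0, map_zero]))
  have h1 := (le_og_iff Q hx' _).2 h
  have h2 : og Q ((algebraMap (𝓞 L) (𝓞 M) x : 𝓞 M) : M) = eI L Q * og (below L Q) (x : L) :=
    og_algebraMap Q (x : L)
  rw [← le_og_iff _ hx]
  have h3 : (0 : ℤ) < eI L Q := by exact_mod_cast SplitAux.eI_pos (F := L) Q
  have h4 : (eI L Q : ℤ) ≤ E := by exact_mod_cast hE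
  rw [h2] at h1
  push_cast at h1
  have h5 : (eI L Q : ℤ) * n ≤ eI L Q * og (below L Q) (x : L) := by
    nlinarith [mul_le_mul_of_nonneg_left h4 (Int.natCast_nonneg n)]
  exact le_of_mul_le_mul_left h5 h3

theorem norm_eq [IsGalois L M] (z : 𝓞 M) :
    algebraMap (𝓞 L) (𝓞 M) (RingOfIntegers.norm L z) = ∏ σ : M ≃ₐ[L] M, sI σ z := by
  refine RingOfIntegers.ext ?_
  rw [RingOfIntegers.coe_algebraMap_norm, Algebra.norm_eq_prod_automorphisms]
  exact (map_prod (algebraMap (𝓞 M) M) (fun σ : M ≃ₐ[L] M => sI σ z) _).symm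

theorem prod_sub {ι R : Type} [CommRing R] (I : Ideal R) (s : Finset ι) (f g : ι → R)
    (h : ∀ i ∈ s, f i - g i ∈ I) : ∏ i ∈ s, f i - ∏ i ∈ s, g i ∈ I := by
  rw [← Ideal.Quotient.eq, map_prod, map_prod]
  exact Finset.prod_congr rfl fun i hi => Ideal.Quotient.eq.2 (h i hi)

end

variable {K L Ω : Type} [Field K] [NumberField K] [Field L] [NumberField L] [Algebra K L] [Field Ω]
  [Algebra K Ω] [Algebra L Ω] [IsScalarTower K L Ω] [IsGalois K Ω]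

omit [NumberField K] [NumberField L] in
theorem stab (hP : PrimeSt K Ω) {M : Type} [Field M] [NumberField M] [Algebra K M] [Algebra L M]
    [Algebra M Ω] [IsScalarTower K M Ω] [IsScalarTower L M Ω] {𝔓 : Ideal (𝓞 Ω)} {Q : Pr M}
    (hQ : Over 𝔓 Q) (hD : Dec K 𝔓 ⊓ Gs K Ω L ≤ Gs K Ω M) (σ : M ≃ₐ[L] M) (h : pb σ Q = Q) :
    σ = 1 := by
  have : IsGalois L Ω := IsGalois.tower_top_of_isGalois K L Ω
  let g : Ω ≃ₐ[K] Ω := (σ.liftNormal Ω).restrictScalars K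
  have hg : ∀ m : M, g (algebraMap M Ω m) = algebraMap M Ω (σ m) := fun m =>
    σ.liftNormal_commutes Ω m
  have hgL : g ∈ Gs K Ω L := fun x => (σ.liftNormal Ω).commutes x
  have hO : Over (g⁻¹ • 𝔓) Q := by
    refine ⟨hP.smul_max _ hQ.1, fun x => ?_⟩
    rw [← hP.mem_smul g, smul_inv_smul]
    have h1 : g • algebraMap (𝓞 M) (𝓞 Ω) x = algebraMap (𝓞 M) (𝓞 Ω) (sI σ x) :=
      RingOfIntegers.ext ((hP.coe_smul g _).trans (hg (x : M)))
    rw [h1, ← hQ.2, ← mem_pb, h]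
  obtain ⟨u, hu, hu'⟩ := hP.trans hQ hO
  have huL : u ∈ Gs K Ω L := fun x => by
    rw [IsScalarTower.algebraMap_apply L M Ω]
    exact hu _
  have h2 : g * u ∈ Gs K Ω M := hD ⟨by
    change (g * u) • 𝔓 = 𝔓
    rw [mul_smul, hu', smul_inv_smul], mul_mem hgL huL⟩
  have h3 : g ∈ Gs K Ω M := by simpa using mul_mem h2 (inv_mem hu)
  ext m
  exact (algebraMap M Ω).injective ((hg m).symm.trans (h3 m))

end NapAux

open NapAux

variable {K L Ω : Type} [Field K] [NumberField K] [Field L] [NumberField L] [Algebra K L] [Field Ω]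
  [Algebra K Ω] [Algebra L Ω] [IsScalarTower K L Ω] [IsAlgClosed Ω] [IsGalois K Ω] [CharZero Ω]

omit [NumberField K] [IsAlgClosed Ω] [CharZero Ω] in
theorem st_Nap (hCn : CnSt) (hP : PrimeSt K Ω) : NapSt K L Ω := by
  intro M _ _ _ _ _ _ _ _ 𝔓 w hw hD β S n
  obtain ⟨𝔔, h𝔔⟩ := hP.under M 𝔓 hw.1
  have hb : below L 𝔔 = w := hP.uniq (hP.below h𝔔) hw
  obtain ⟨T, hT⟩ := exists_above (K := M) (insert w S)
  obtain ⟨z, hz, hzT⟩ := hCn.crt T
    (fun Q => if Q = 𝔔 then algebraMap (𝓞 L) (𝓞 M) β else 1) (n * T.sup (eI L))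
  have key : ∀ Q ∈ T, algebraMap (𝓞 L) (𝓞 M) (RingOfIntegers.norm L z) -
      ∏ σ : M ≃ₐ[L] M, (if pb σ Q = 𝔔 then algebraMap (𝓞 L) (𝓞 M) β else 1) ∈
        Q.asIdeal ^ (n * T.sup (eI L)) := by
    intro Q hQ
    rw [norm_eq]
    refine prod_sub _ _ _ _ fun σ _ => ?_
    have h1 := (mem_pb_pow σ Q _ _).1 (hzT (pb σ Q) ((hT _).2 (by rw [below_pb]; exact (hT _).1 hQ)))
    rw [map_sub] at h1
    split_ifs at h1 ⊢ with h
    · rwa [sI_algebraMap] at h1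
    · rwa [map_one] at h1
  refine ⟨z, RingOfIntegers.norm L z, hz, rfl, ?_, fun w' hw' hne => ?_⟩
  · have hm : 𝔔 ∈ T := (hT _).2 (by rw [hb]; exact Finset.mem_insert_self _ _)
    have h1 := key 𝔔 hm
    rw [Finset.prod_eq_single 1 (fun σ _ hσ => if_neg fun h => hσ (stab hP h𝔔 hD σ h))
      (fun h => absurd (Finset.mem_univ _) h), if_pos (pb_one _), ← map_sub] at h1
    rw [← hb]
    exact descend 𝔔 _ n _ (Finset.le_sup hm) h1
  · obtain ⟨Q, rfl⟩ := below_surj (K := M) w'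
    have hm : Q ∈ T := (hT _).2 (Finset.mem_insert_of_mem hw')
    have h1 := key Q hm
    rw [Finset.prod_eq_one (fun σ _ => if_neg fun h => hne (by rw [← below_pb σ, h, hb])),
      ← map_one (algebraMap (𝓞 L) (𝓞 M)), ← map_sub] at h1
    exact descend Q _ n _ (Finset.le_sup hm) h1

end Pool.Agent.SC
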