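import Pool.Agent.Lib.MP_b4b3cb_nt.StG

/-! The symbol of two Kummer characters vanishes exactly for norms. -/

namespace Pool.Agent.SC

open NumberField Pool.Agent.Stark
open scoped Classical Pointwise Topology

variable {K Ω : Type} [Field K] [Field Ω] [Algebra K Ω] [CharZero Ω]

theorem st_Norm (hS : SzSt) (hT : TopSt K Ω) (hK : KumSt K Ω) (hB : BrSt K Ω) : NormSt K Ω := by
  intro H r s hH r0 s0 hr hs
  have ha := hK.hom r0 hr
  have hb := hK.hom s0 hs
  have ar := hK.app hr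
  have as := hK.app hs
  have a0 : ∀ g : Ω ≃ₐ[K] Ω, kr r g = 0 ↔ g r = r := fun g => by simp [kr]
  refine (Iff.intro (hS.swap ha hb) (hS.swap hb ha)).trans ((hB.sz hH).symm.trans ⟨?_, ?_⟩)
  · rintro ⟨β, b1, b2, b3⟩
    by_cases ex : ∃ σ ∈ H, σ r ≠ r
    swap
    · push Not at ex
      refine ⟨(s ^ 2 + 1) / 2, (s ^ 2 - 1) / (2 * r), fun g hg => ?_, fun g hg => ?_, ?_⟩
      · rw [map_div₀, map_add, hs g hg, map_one, map_ofNat]
      · rw [map_div₀, map_sub, hs g hg, map_one, map_mul, map_ofNat, ex g hg]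
      · field_simp
        ring
    obtain ⟨σ, σ1, σ2⟩ := ex
    have σ3 : kr r σ = 1 := if_neg σ2
    let N : Subgroup (Ω ≃ₐ[K] Ω) := H ⊓ MulAction.stabilizer _ r
    have hN : ∀ g, g ∈ N ↔ g ∈ H ∧ kr r g = 0 := fun g => and_congr_right fun _ => (a0 g).symm
    obtain ⟨t, t0, t1⟩ := hK.h90 N β (hT.ker_closed H N _ hH ha hN) (hS.lc_mono b1 fun _ h => h.1)
      (fun g hg => b2 g hg.1) fun g hg h hh => by
        rw [← b3 g hg.1 h hh.1, sgc, cup, ((hN h).1 hh).2, mul_zero, sg_zero, one_mul]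
    have g0 : ∀ g : Ω ≃ₐ[K] Ω, g t ≠ 0 := fun g => (map_ne_zero g).2 t0
    let γ : (Ω ≃ₐ[K] Ω) → Ω := fun g => β g * t / g t
    have c1 : ∀ g ∈ H, kr r g = 0 → γ g = 1 := fun g hg e =>
      (div_eq_one_iff_eq (g0 g)).2 (t1 g ((hN g).2 ⟨hg, e⟩)).symm
    have c2 : ∀ g ∈ H, ∀ h ∈ H, sg Ω (kr s g * kr r h) * γ (g * h) = γ g * g (γ h) :=
      fun g hg h hh => by
        have := b3 g hg h hh
        have := g0 g
        simp only [γ, map_div₀, map_mul, AlgEquiv.mul_apply, ← mul_div_assoc, ← mul_assoc]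
        rw [show sg Ω (kr s g * kr r h) * β (g * h) = _ from b3 g hg h hh]
        field_simp
    obtain ⟨x, z, x1, z1, e⟩ := hK.coord (y := s * γ σ) r0 hr ⟨σ, σ1, σ2⟩ fun n hn nr => by
      have m : σ⁻¹ * n * σ ∈ H := H.mul_mem (H.mul_mem (H.inv_mem σ1) hn) σ1
      have k : kr r (σ⁻¹ * n * σ) = 0 := (a0 _).2 (by
        rw [AlgEquiv.mul_apply, AlgEquiv.mul_apply, ar σ σ1, map_mul, map_sg, nr, ← ar σ σ1]
        exact σ.symm_apply_apply r)
      have e1 := c2 σ σ1 _ m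
      have e2 := c2 n hn σ σ1
      rw [k, mul_zero, sg_zero, one_mul, c1 _ m k, map_one, mul_one, ← mul_assoc, ← mul_assoc,
        mul_inv_cancel, one_mul] at e1
      rw [c1 n hn ((a0 n).2 nr), one_mul, σ3, mul_one, e1] at e2
      rw [map_mul, ← e2, as n hn]
      linear_combination s * γ σ * sg_mul_self (R := Ω) (kr s n)
    refine ⟨x, z, x1, z1, ?_⟩
    have e1 := c2 σ σ1 σ σ1
    rw [c1 _ (H.mul_mem σ1 σ1) (by rw [ha.2 σ σ1 σ σ1, σ3]; rfl), σ3, mul_one, mul_one] at e1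
    have e2 := congrArg σ e
    rw [map_mul, map_add, map_mul, x1 σ σ1, z1 σ σ1, ar σ σ1, σ3, sg_one, as σ σ1] at e2
    linear_combination (x - z * r) * e + s * γ σ * e2 + s ^ 2 * sg Ω (kr s σ) * e1 -
      s ^ 2 * sg_mul_self (R := Ω) (kr s σ)
  · rintro ⟨x, z, x1, z1, e⟩
    have y0 : x + z * r ≠ 0 := fun h => pow_ne_zero 2 s0 (by linear_combination e + (x - z * r) * h)
    refine ⟨fun g => if kr r g = 0 then 1 else (x + z * r) / s,
      hS.lc_comp (fun c : ZMod 2 => if c = 0 then 1 else (x + z * r) / s) ((hS.lc _ _).2 ha.1),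
      fun g _ => ?_, fun g hg h hh => ?_⟩
    · dsimp only
      split_ifs
      exacts [one_ne_zero, div_ne_zero y0 s0]
    · have k : g ((x + z * r) / s) = (x + z * (sg Ω (kr r g) * r)) / (sg Ω (kr s g) * s) := by
        rw [map_div₀, map_add, map_mul, x1 g hg, z1 g hg, ← ar g hg, ← as g hg]
      have u : (1 : ZMod 2) + 1 = 0 := rfl
      simp only [sgc, cup, ha.2 g hg h hh]
      rcases zmod2_cases (kr r g) with c | c <;> rcases zmod2_cases (kr r h) with d | d <;>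
        rcases zmod2_cases (kr s g) with f | f <;> simp [c, d, f, k, u] <;> field_simp <;>
        first | linear_combination e | linear_combination -e

end Pool.Agent.SC
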