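import Pool.Agent.Lib.MP_b4b3cb_nt.StC

/-! The values of the avatar on norms. -/

namespace Pool.Agent.SC

open NumberField Pool.Agent.Stark
open scoped Classical Pointwise

namespace NrmAux

/-- The units congruent to one. -/
def Un (k : ℕ) (u : ℤ_[2]ˣ) : Prop := ‖((u : ℤ_[2]) : ℚ_[2]) - 1‖ ≤ 1 / 2 ^ k

theorem un_one (k : ℕ) : Un k 1 := by
  simp [Un]

theorem un_mul {k : ℕ} {u v : ℤ_[2]ˣ} (hu : Un k u) (hv : Un k v) : Un k (u * v) := by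
  unfold Un at *
  have e : (((u * v : ℤ_[2]ˣ) : ℤ_[2]) : ℚ_[2]) - 1 =
      ((u : ℤ_[2]) : ℚ_[2]) * (((v : ℤ_[2]) : ℚ_[2]) - 1) + (((u : ℤ_[2]) : ℚ_[2]) - 1) := by
    push_cast
    ring
  rw [e]
  refine (Padic.nonarchimedean _ _).trans (max_le ?_ hu)
  rw [norm_mul]
  exact (mul_le_of_le_one_left (norm_nonneg _) (u : ℤ_[2]).2).trans hv

variable {L : Type} [Field L] [NumberField L]

/-- The product of the Frobenius values over the factorisation of an ideal. -/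
noncomputable def aI (fr : Pr L → ℤ_[2]ˣ) (𝔞 : Ideal (𝓞 L)) : ℤ_[2]ˣ := ∏ᶠ w, fr w ^ cn 𝔞 w

theorem fin_supp (hC : CnSt) (fr : Pr L → ℤ_[2]ˣ) {𝔞 : Ideal (𝓞 L)} (h : 𝔞 ≠ ⊥) :
    Function.HasFiniteMulSupport fun w => fr w ^ cn 𝔞 w := by
  refine (hC.fin h).subset fun w hw => ?_
  by_contra hn
  exact hw (by simp only [(hC.zero h w).2 hn, pow_zero])

theorem aI_mul (hC : CnSt) (fr : Pr L → ℤ_[2]ˣ) {𝔞 𝔟 : Ideal (𝓞 L)} (ha : 𝔞 ≠ ⊥) (hb : 𝔟 ≠ ⊥) :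
    aI fr (𝔞 * 𝔟) = aI fr 𝔞 * aI fr 𝔟 := by
  unfold aI
  rw [← finprod_mul_distrib (fin_supp hC fr ha) (fin_supp hC fr hb)]
  exact finprod_congr fun w => by rw [hC.mul ha hb, pow_add]

theorem aI_pow (hC : CnSt) (fr : Pr L → ℤ_[2]ˣ) (w : Pr L) (n : ℕ) :
    aI fr (w.asIdeal ^ n) = fr w ^ n := by
  unfold aI
  rw [finprod_eq_single _ w fun w' hw => by rw [hC.pow, if_neg hw, pow_zero], hC.pow, if_pos rfl]

theorem aI_top (hC : CnSt) (fr : Pr L → ℤ_[2]ˣ) : aI fr ⊤ = 1 := by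
  unfold aI
  refine finprod_eq_one_of_forall_eq_one fun w => ?_
  rw [(hC.zero top_ne_bot w).2 fun h => w.isPrime.ne_top (top_le_iff.1 h), pow_zero]

theorem aI_span (hC : CnSt) (fr : Pr L → ℤ_[2]ˣ) {x : 𝓞 L} (hx : x ≠ 0) :
    aI fr (Ideal.span {x}) = av fr (x : L) := by
  unfold aI av
  exact finprod_congr fun w => by rw [← hC.span hx, zpow_natCast]

variable {K Ω : Type} [Field K] [Field Ω] [Algebra K Ω] [Algebra L Ω]

theorem rho_pow {ι 𝔣 ψ} {ρ : (Ω ≃ₐ[K] Ω) → ℤ_[2]ˣ} {fr : Pr L → ℤ_[2]ˣ} (h : AT K ι 𝔣 ψ ρ fr)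
    {g : Ω ≃ₐ[K] Ω} (hg : g ∈ Gs K Ω L) (n : ℕ) : ρ (g ^ n) = ρ g ^ n := by
  induction n with
  | zero =>
    have := h.mul 1 (one_mem _) 1 (one_mem _)
    rw [mul_one] at this
    rw [pow_zero, pow_zero]
    exact (mul_eq_left.1 this.symm)
  | succ n ih => rw [pow_succ, h.mul _ (pow_mem hg n) _ hg, ih, pow_succ]

omit [NumberField L] in
theorem gs_le (M : Type) [Field M] [Algebra L M] [Algebra M Ω] [IsScalarTower L M Ω] :
    Gs K Ω M ≤ Gs K Ω L := fun g hg x => by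
  rw [IsScalarTower.algebraMap_apply L M Ω x]
  exact hg _

end NrmAux

open NrmAux

variable {K L Ω : Type} [Field K] [Field L] [NumberField L] [Algebra K L]
  [Field Ω] [Algebra K Ω] [Algebra L Ω] [IsScalarTower K L Ω]

theorem st_Nrm (hC : CnSt) (hP : PrimeSt K Ω) (hF : FrobSt K Ω) : NrmSt K L Ω := by
  intro ι 𝔣 ψ ρ fr hT M _ _ _ _ _ _ _ k hρ z hz
  have hpr : ∀ Q : Pr M, Un k (aI fr (Ideal.relNorm (𝓞 L) Q.asIdeal)) := by
    intro Q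
    have hlo : Q.asIdeal.LiesOver (below L Q).asIdeal := ⟨rfl⟩
    have := (below L Q).isPrime
    obtain ⟨s, hs⟩ := Ideal.exists_relNorm_eq_pow_of_isPrime Q.asIdeal (below L Q).asIdeal
    have hn : Ideal.absNorm Q.asIdeal = Ideal.absNorm (below L Q).asIdeal ^ s := by
      rw [← map_pow, ← hs, Ideal.absNorm_relNorm]
    rw [hs, aI_pow hC]
    by_cases hg : Gd 𝔣 (below L Q)
    · obtain ⟨𝔓, h𝔓⟩ := hP.ex M Q
      have h𝔭 : Over 𝔓 (below L Q) := hP.below h𝔓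
      obtain ⟨g, hgL, hg1⟩ := hF.ex h𝔭
      obtain ⟨g', hgM, hg2⟩ := hF.ex h𝔓
      have hne : Ideal.absNorm (below L Q).asIdeal ≠ 0 :=
        Ideal.absNorm_eq_zero_iff.not.2 (below L Q).ne_bot
      have h3 := hF.pow h𝔓.1 hne hg1 s
      rw [← hn] at h3
      have hgL' := gs_le (L := L) M hgM
      have h4 : g ^ s * g'⁻¹ ∈ Gs K Ω L := mul_mem (pow_mem hgL s) (inv_mem hgL')
      have h5 := hT.unr 𝔓 _ h𝔭 hg _ ⟨hF.ine h3 hg2, h4⟩
      have h6 := hT.mul _ h4 _ hgL'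
      rw [inv_mul_cancel_right, h5, one_mul, rho_pow hT hgL, hT.frob 𝔓 _ h𝔭 hg g hgL hg1] at h6
      rw [h6]
      exact hρ g' hgM
    · rw [hT.bad _ hg, one_pow]
      exact un_one k
  have hall : ∀ 𝔞 : Ideal (𝓞 M), 𝔞 ≠ ⊥ → Un k (aI fr (Ideal.relNorm (𝓞 L) 𝔞)) := by
    intro 𝔞
    refine UniqueFactorizationMonoid.induction_on_prime 𝔞 (fun h => absurd rfl h) ?_ ?_
    · intro 𝔟 hb _
      rw [Ideal.isUnit_iff.1 hb, Ideal.relNorm_top, aI_top hC]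
      exact un_one k
    · intro 𝔟 P hb hp ih _
      rw [map_mul, aI_mul hC fr (Ideal.relNorm_eq_bot_iff.not.2 hp.ne_zero)
        (Ideal.relNorm_eq_bot_iff.not.2 hb)]
      exact un_mul (hpr ⟨P, Ideal.isPrime_of_prime hp, hp.ne_zero⟩) (ih hb)
  have hz' : Ideal.span {z} ≠ ⊥ := Ideal.span_singleton_eq_bot.not.2 hz
  have h := hall _ hz'
  have h0 : Algebra.intNorm (𝓞 L) (𝓞 M) z ≠ 0 := by
    have := (Ideal.relNorm_eq_bot_iff (R := 𝓞 L)).not.2 hz'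
    rwa [Ideal.relNorm_singleton, Ideal.span_singleton_eq_bot] at this
  rw [Ideal.relNorm_singleton, aI_span hC fr h0] at h
  have e : ((Algebra.intNorm (𝓞 L) (𝓞 M) z : 𝓞 L) : L) = Algebra.norm L (z : M) :=
    Algebra.algebraMap_intNorm (A := 𝓞 L) (K := L) (L := M) (B := 𝓞 M) z
  rw [e] at h
  exact h

end Pool.Agent.SC
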