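import Pool.Agent.Lib.MP_b4b3cb_nt.StB

/-! The local conditions at odd places. -/

namespace Pool.Agent.SC

open scoped Classical
open Module

namespace OddAux

theorem z2 : ∀ c : ZMod 2, c = 0 ∨ c = 1 := by decide

section Lin

variable {X : Type} [AddCommGroup X] [Module (ZMod 2) X]

theorem fr_span (W : Submodule (ZMod 2) X) {a : X} (ha : a ∈ W) (h : ∀ w ∈ W, w = 0 ∨ w = a) :
    finrank (ZMod 2) W = if a = 0 then 0 else 1 := by
  have e : W = Submodule.span (ZMod 2) {a} := by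
    refine le_antisymm (fun w hw => ?_) ((Submodule.span_singleton_le_iff_mem _ _).2 ha)
    rcases h w hw with rfl | rfl
    · exact zero_mem _
    · exact Submodule.mem_span_singleton_self _
  rw [e]
  split_ifs with h0
  · rw [h0, Submodule.span_zero_singleton, finrank_bot]
  · exact finrank_span_singleton h0

theorem fr_two (W : Submodule (ZMod 2) X) [Finite W] {a b : X} (ha : a ∈ W) (hb : b ∈ W)
    (a0 : a ≠ 0) (b0 : b ≠ 0) (hab : a ≠ b) : 2 ≤ finrank (ZMod 2) W := by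
  have h : Submodule.span (ZMod 2) {a} < W := by
    refine lt_of_le_of_ne ((Submodule.span_singleton_le_iff_mem _ _).2 ha) fun e => ?_
    obtain ⟨c, hc⟩ := Submodule.mem_span_singleton.1 (e ▸ hb)
    rcases z2 c with rfl | rfl
    · exact b0 (by rw [← hc, zero_smul])
    · exact hab (by rw [← hc, one_smul])
  have := Submodule.finrank_lt_finrank_of_lt h
  rw [finrank_span_singleton a0] at this
  exact this

theorem fr_le (W : Submodule (ZMod 2) X) (h : ∀ a ∈ W, ∀ b ∈ W, a = 0 ∨ b = 0 ∨ a = b) :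
    finrank (ZMod 2) W ≤ 1 ∧ (finrank (ZMod 2) W ≠ 0 → ∃ a ∈ W, a ≠ 0) := by
  by_cases h0 : ∃ a ∈ W, a ≠ 0
  · refine ⟨?_, fun _ => h0⟩
    obtain ⟨a, ha, a0⟩ := h0
    rw [fr_span W ha fun w hw => (h w hw a ha).imp_right fun e => e.resolve_left a0, if_neg a0]
  · push Not at h0
    rw [fr_span W (zero_mem _) fun w hw => Or.inl (h0 w hw), if_pos rfl]
    exact ⟨zero_le_one, fun e => absurd rfl e⟩

end Lin

theorem gap0 {x : ℚ_[2]} (h : ¬ ‖x‖ ≤ 1) : 2 ≤ ‖x‖ := by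
  have := Padic.norm_le_pow_iff_norm_lt_pow_add_one x 0
  norm_num at this
  exact not_lt.1 (mt this.2 h)

theorem gap2 {x : ℚ_[2]} (h : ¬ ‖x‖ ≤ 1 / 4) : 1 / 2 ≤ ‖x‖ := by
  have := Padic.norm_le_pow_iff_norm_lt_pow_add_one x (-2)
  norm_num at this
  exact not_lt.1 (mt this.2 h)

theorem norm_half : ‖(1 / 2 : ℚ_[2])‖ = 2 := by
  have := Padic.norm_p (p := 2)
  rw [Nat.cast_ofNat, Nat.cast_ofNat] at this
  rw [norm_div, norm_one, this]
  norm_num

/-- Whether a number is not integral. -/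
noncomputable def big (a : ℚ_[2]) : ZMod 2 := if ‖a‖ ≤ 1 then 0 else 1

theorem big_zero : big 0 = 0 := if_pos (by simp)

theorem big_half : big (1 / 2) = 1 := if_neg (by rw [norm_half]; norm_num)

theorem sub_one_le (hO : OmSt) (r : ℤ_[2]ˣ) : ‖((r : ℤ_[2]) : ℚ_[2]) - 1‖ ≤ 1 / 2 := by
  simpa using hO.unit_half r 1

theorem le_two {r : ℤ_[2]ˣ} (hr : sg4 r = 1) {a : ℚ_[2]}
    (h : ‖((r : ℤ_[2]) : ℚ_[2]) * a - a‖ ≤ 1) : ‖a‖ ≤ 2 := by
  have h1 : 1 / 2 ≤ ‖((r : ℤ_[2]) : ℚ_[2]) - 1‖ := gap2 fun e => by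
    rw [sg4, if_pos e] at hr
    exact zero_ne_one hr
  rw [← sub_one_mul, norm_mul] at h
  nlinarith [norm_nonneg a]

theorem par (hO : OmSt) (r : ℤ_[2]ˣ) {a : ℚ_[2]} (ha : ‖a‖ ≤ 2) :
    (if ‖((r : ℤ_[2]) : ℚ_[2]) * a - a‖ ≤ 1 / 2 then 0 else 1 : ZMod 2) = big a * sg4 r := by
  have h1 := hO.unit_half r a
  unfold big
  by_cases h : ‖a‖ ≤ 1
  · rw [if_pos h, zero_mul, if_pos (by linarith)]
  · rw [if_neg h, one_mul, sg4, ← sub_one_mul, norm_mul, le_antisymm ha (gap0 h)]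
    exact if_congr ⟨fun e => by linarith, fun e => by linarith⟩ rfl rfl

theorem mem0 (hL : LatSt) (u : V) : u ∈ T 0 ↔ ‖u.1‖ ≤ 1 ∧ ‖u.2‖ ≤ 1 := by
  have := hL.norm_iff 0 u
  rwa [mul_zero, neg_zero, zpow_zero, norm_prod_le_iff] at this

theorem lam0 (hL : LatSt) {u : V} (hu : u ∈ T 0) :
    lam 0 u = if ‖u.1 - u.2‖ ≤ 1 / 2 then 0 else 1 := by
  have h1 := hL.norm_iff 0 u
  have h2 := hL.odd_iff 0 u
  rw [mul_zero] at h1 h2
  rw [lam]
  refine if_congr (h2.trans ((and_iff_right (h1.1 hu)).trans ?_)) rfl rfl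
  norm_num

theorem diag (hL : LatSt) (hO : OmSt) (r s : ℤ_[2]ˣ) {a b : ℚ_[2]} (ha : ‖a‖ ≤ 2) (hb : ‖b‖ ≤ 2) :
    (((r : ℤ_[2]) : ℚ_[2]) * a - a, ((s : ℤ_[2]) : ℚ_[2]) * b - b) ∈ T 0 ∧
    lam 0 (((r : ℤ_[2]) : ℚ_[2]) * a - a, ((s : ℤ_[2]) : ℚ_[2]) * b - b) =
      big a * sg4 r + big b * sg4 s := by
  have h1 := hO.unit_half r a
  have h2 := hO.unit_half s b
  have m1 : (((r : ℤ_[2]) : ℚ_[2]) * a - a, (0 : ℚ_[2])) ∈ T 0 :=
    (mem0 hL _).2 ⟨by linarith, by simp⟩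
  have m2 : ((0 : ℚ_[2]), ((s : ℤ_[2]) : ℚ_[2]) * b - b) ∈ T 0 :=
    (mem0 hL _).2 ⟨by simp, by linarith⟩
  refine ⟨(mem0 hL _).2 ⟨by linarith, by linarith⟩, ?_⟩
  have := hL.lam_add m1 m2
  rw [Prod.mk_add_mk, add_zero, zero_add] at this
  rw [this, lam0 hL m1, lam0 hL m2, sub_zero, zero_sub, norm_neg, par hO r ha, par hO s hb]

variable {G : Type} [Group G] [TopologicalSpace G] {χ : G →* ℤ_[2]ˣ} (R : Rp χ) (D : Subgroup G)

theorem d1_zero {g : G} (h : R.η g = 0) (u : V) : R.d1 u g =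
    (((R.r g : ℤ_[2]) : ℚ_[2]) * u.1 - u.1, ((R.s g : ℤ_[2]) : ℚ_[2]) * u.2 - u.2) := by
  rw [Rp.d1, Rp.ac, mon, if_pos h]
  rfl

theorem d1_one {g : G} (h : R.η g = 1) (u : V) : R.d1 u g =
    (((R.r g : ℤ_[2]) : ℚ_[2]) * u.2 - u.1, ((R.s g : ℤ_[2]) : ℚ_[2]) * u.1 - u.2) := by
  rw [Rp.d1, Rp.ac, mon, if_neg (h ▸ one_ne_zero)]
  rfl

theorem sg4_det (hO : OmSt) (g : G) : sg4 (R.r g) + sg4 (R.s g) = sg4 (χ g) + R.η g := by
  rw [← hO.sg4_mul, R.det, hO.sg4_mul, add_comm]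
  rcases z2 (R.η g) with h | h <;> rw [h]
  · rw [if_pos rfl, hO.sg4_one]
  · rw [if_neg one_ne_zero, hO.sg4_neg]

omit [TopologicalSpace G] in
theorem res_ext {f f' : G → ZMod 2} : res D f = res D f' ↔ ∀ g ∈ D, f g = f' g := by
  refine ⟨fun h g hg => ?_, fun h => funext fun g => ?_⟩
  · simpa [res, hg] using congrFun h g
  · unfold res
    split_ifs with hg
    · exact h g hg
    · rfl

omit [TopologicalSpace G] in
theorem res_zero {f : G → ZMod 2} : res D f = 0 ↔ ∀ g ∈ D, f g = 0 := by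
  have : (0 : G → ZMod 2) = res D fun _ => 0 := funext fun g => by simp [res]
  rw [this, res_ext]

theorem z_false {i : ℤ} {t : G → V} (h : R.Z D False i t) : ∃ u, ∀ g ∈ D, t g = R.d1 u g :=
  let ⟨u, hu⟩ := h.2
  ⟨u, fun g hg => Prod.ext (hu g hg).1 ((hu g hg).2 not_false)⟩

theorem memW (hZ : ZSt) (i : ℤ) (f : G → ZMod 2) : f ∈ R.W D False i ↔
    ∃ u, (∀ g ∈ D, R.d1 u g ∈ T i) ∧ f = res D fun g => lam i (R.d1 u g) := by
  rw [hZ.mem_W]
  constructor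
  · rintro ⟨t, ht, rfl⟩
    obtain ⟨u, hu⟩ := z_false R D ht
    exact ⟨u, fun g hg => hu g hg ▸ ht.1.2.1 g hg, (res_ext D).2 fun g hg => by rw [hu g hg]⟩
  · rintro ⟨u, hu, rfl⟩
    exact ⟨_, hZ.z_d1 R D False i u hu, rfl⟩

theorem ne_one (hO : OmSt) {r : ℤ_[2]ˣ} (h : sg4 r = 1) : r ≠ 1 := fun e => by
  rw [e, hO.sg4_one] at h
  exact zero_ne_one h

theorem good (hZ : ZSt) (hT : TorSt) (I : Subgroup G) (hB : R.Bdd D) (hI : I ≤ D)
    (h1 : ∀ g ∈ I, R.η g = 0 ∧ R.r g = 1 ∧ R.s g = 1)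
    (h2 : ∀ f f', Hom D f → Hom D f' → (∀ g ∈ I, f g = 0) → (∀ g ∈ I, f' g = 0) →
      (∀ g ∈ D, f g = 0) ∨ (∀ g ∈ D, f' g = 0) ∨ ∀ g ∈ D, f g = f' g) : R.Good D I False := by
  have d0 : ∀ u, ∀ g ∈ I, R.d1 u g = 0 := fun u g hg => by
    rw [d1_zero R (h1 g hg).1, (h1 g hg).2.1, (h1 g hg).2.2]
    simp
  have tri : ∀ a ∈ Hm D, ∀ b ∈ Hm D, (∀ g ∈ I, a g = 0) → (∀ g ∈ I, b g = 0) →
      a = 0 ∨ b = 0 ∨ a = b := fun a ha b hb a0 b0 => by
    refine (h2 a b ha.1 hb.1 a0 b0).imp (fun h => funext fun g => ?_)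
      (Or.imp (fun h => funext fun g => ?_) fun h => funext fun g => ?_)
    · exact (em (g ∈ D)).elim (h g) (ha.2 g)
    · exact (em (g ∈ D)).elim (h g) (hb.2 g)
    · exact (em (g ∈ D)).elim (h g) fun hg => (ha.2 g hg).trans (hb.2 g hg).symm
  have van : ∀ i, ∀ a ∈ R.W D False i, ∀ g ∈ I, a g = 0 := fun i a ha g hg => by
    obtain ⟨u, -, rfl⟩ := (memW R D hZ i a).1 ha
    rw [res, if_pos (hI hg), d0 u g hg]
    exact if_pos (zero_mem _)
  have fr := fun i => fr_le (R.W D False i) fun a ha b hb =>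
    tri a (hZ.W_le R D False i ha) b (hZ.W_le R D False i hb) (van i a ha) (van i b hb)
  have hs := (hT R D hB).2.2.2
  have ex : ∀ i, ∃ a ∈ R.W D False i, a ≠ 0 := fun i => by
    have f0 := (fr 0).1
    have f1 := (fr 1).1
    rcases Int.emod_two_eq_zero_or_one i with h | h
    · rw [show i = 0 + 2 * (i / 2) by omega, hZ.W_per]
      exact (fr 0).2 (by omega)
    · rw [show i = 1 + 2 * (i / 2) by omega, hZ.W_per]
      exact (fr 1).2 (by omega)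
  refine fun i => ⟨fun t ht g hg => ?_, fun f hf f0 => ?_⟩
  · obtain ⟨u, hu⟩ := z_false R D ht
    rw [hu g (hI hg), d0 u g hg]
  · obtain ⟨a, ha, a0⟩ := ex i
    rcases tri _ (hZ.res_mem D f hf) a (hZ.W_le R D False i ha)
      (fun g hg => by rw [res, if_pos (hI hg), f0 g hg]) (van i a ha) with h | h | h
    · rw [h]
      exact zero_mem _
    · exact absurd h a0
    · rwa [h]

theorem split (hL : LatSt) (hO : OmSt) (hZ : ZSt) (hT : TorSt) (hη : ∀ g ∈ D, R.η g = 0)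
    (hr : ∃ g ∈ D, sg4 (R.r g) = 1) (hs : ∃ g ∈ D, sg4 (R.s g) = 1) :
    R.df D False = if ∀ g ∈ D, sg4 (χ g) = 0 then 0 else 2 := by
  obtain ⟨g1, m1, e1⟩ := hr
  obtain ⟨g2, m2, e2⟩ := hs
  obtain ⟨-, fin, -, hd⟩ := hT R D ⟨⟨g1, m1, hη g1 m1, ne_one hO e1⟩, g2, m2, hη g2 m2, ne_one hO e2⟩
  have mem : ∀ a b : ℚ_[2], ‖a‖ ≤ 2 → ‖b‖ ≤ 2 →
      (res D fun g => big a * sg4 (R.r g) + big b * sg4 (R.s g)) ∈ R.W D False 0 :=
    fun a b ha hb => (memW R D hZ 0 _).2 ⟨(a, b), fun g hg => by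
      rw [d1_zero R (hη g hg)]
      exact (diag hL hO _ _ ha hb).1, (res_ext D).2 fun g hg => by
      rw [d1_zero R (hη g hg)]
      exact (diag hL hO _ _ ha hb).2.symm⟩
  have ρ := mem (1 / 2) 0 norm_half.le (by simp)
  have σ := mem 0 (1 / 2) (by simp) norm_half.le
  simp only [big_zero, big_half, zero_mul, one_mul, add_zero, zero_add] at ρ σ
  have ρ0 : (res D fun g => sg4 (R.r g)) ≠ 0 := fun e =>
    zero_ne_one (((res_zero D).1 e g1 m1).symm.trans e1)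
  have σ0 : (res D fun g => sg4 (R.s g)) ≠ 0 := fun e =>
    zero_ne_one (((res_zero D).1 e g2 m2).symm.trans e2)
  have det : ∀ g ∈ D, (sg4 (χ g) = 0 ↔ sg4 (R.r g) = sg4 (R.s g)) := fun g hg => by
    have := sg4_det R hO g
    rw [hη g hg, add_zero] at this
    rw [← this]
    generalize sg4 (R.r g) = x
    generalize sg4 (R.s g) = y
    revert x y
    decide
  unfold Rp.df
  split_ifs with h
  · have := fr_span _ ρ fun w hw => by
      obtain ⟨u, hu, rfl⟩ := (memW R D hZ 0 w).1 hw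
      have a1 := hu g1 m1
      have a2 := hu g2 m2
      rw [d1_zero R (hη g1 m1), mem0 hL] at a1
      rw [d1_zero R (hη g2 m2), mem0 hL] at a2
      have k : ∀ g ∈ D, lam 0 (R.d1 u g) = (big u.1 + big u.2) * sg4 (R.r g) := fun g hg => by
        rw [d1_zero R (hη g hg), (diag hL hO _ _ (le_two e1 a1.1) (le_two e2 a2.2)).2,
          ← (det g hg).1 (h g hg), add_mul]
      refine (z2 (big u.1 + big u.2)).imp (fun e => (res_zero D).2 fun g hg => ?_)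
        fun e => (res_ext D).2 fun g hg => ?_
      · rw [k g hg, e, zero_mul]
      · rw [k g hg, e, one_mul]
    rw [if_neg ρ0] at this
    omega
  · have := fr_two _ ρ σ ρ0 σ0 fun e => h fun g hg => (det g hg).2 ((res_ext D).1 e g hg)
    omega

theorem nonsplit (hL : LatSt) (hO : OmSt) (hA : AcSt) (hZ : ZSt) (hT : TorSt)
    (hη : ∃ g ∈ D, R.η g = 1) (hr : ∃ g ∈ D, R.η g = 0 ∧ sg4 (R.r g) = 1) :
    R.df D False = if ∀ g ∈ D, sg4 (χ g) = R.η g then -2 else 0 := by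
  obtain ⟨c, mc, ec⟩ := hη
  obtain ⟨g1, m1, n1, e1⟩ := hr
  obtain ⟨n2, -, e2⟩ := hA.rs_conj R c g1 ec n1
  have m2 : c * g1 * c⁻¹ ∈ D := mul_mem (mul_mem mc m1) (inv_mem mc)
  rw [← e2] at e1
  have e1' := e2 ▸ e1
  obtain ⟨-, -, -, hd⟩ := hT R D ⟨⟨g1, m1, n1, ne_one hO e1'⟩, _, m2, n2, ne_one hO e1⟩
  have he : ∀ g, R.d1 (1 / 2, 1 / 2) g ∈ T 0 ∧
      lam 0 (R.d1 (1 / 2, 1 / 2) g) = sg4 (χ g) + R.η g := fun g => by
    have := diag hL hO (R.r g) (R.s g) norm_half.le norm_half.le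
    rw [big_half, one_mul, one_mul, sg4_det R hO] at this
    rcases z2 (R.η g) with h | h
    · rwa [d1_zero R h]
    · rwa [d1_one R h]
  have mT : ∀ u : V, u ∈ T (-1) ↔ (‖u.1‖ ≤ 2 ∧ ‖u.2‖ ≤ 2) ∧ ‖u.1 - u.2‖ ≤ 1 := fun u => by
    have := hL.odd_iff (-1) u
    rw [norm_prod_le_iff] at this
    norm_num at this
    exact this
  have eT : ((1 / 2, 1 / 2) : V) ∈ T (-1) := (mT _).2 ⟨⟨norm_half.le, norm_half.le⟩, by simp⟩
  have eN : ((1 / 2, 1 / 2) : V) ∉ T 0 := fun h => by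
    have := ((mem0 hL _).1 h).1
    rw [norm_half] at this
    norm_num at this
  have small : ∀ u ∈ T 0, ∀ g, R.d1 u g ∈ T (0 + 1) := fun u hu g => hO.mon_sub _ _ _ hu
  have ρ : (res D fun g => sg4 (χ g) + R.η g) ∈ R.W D False 0 :=
    (memW R D hZ 0 _).2 ⟨_, fun g _ => (he g).1, (res_ext D).2 fun g _ => (he g).2.symm⟩
  have := fr_span _ ρ fun w hw => by
    obtain ⟨u, hu, rfl⟩ := (memW R D hZ 0 w).1 hw
    have a1 := hu g1 m1
    have a2 := hu _ m2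
    have a3 := hu c mc
    rw [d1_zero R n1, mem0 hL] at a1
    rw [d1_zero R n2, mem0 hL] at a2
    rw [d1_one R ec, mem0 hL] at a3
    have b2 := le_two e1 a2.2
    have uT : u ∈ T (-1) := by
      refine (mT u).2 ⟨⟨le_two e1' a1.1, b2⟩, ?_⟩
      have b3 := hO.unit_half (R.r c) u.2
      have : u.1 - u.2 = (((R.r c : ℤ_[2]) : ℚ_[2]) * u.2 - u.2) +
          -(((R.r c : ℤ_[2]) : ℚ_[2]) * u.2 - u.1) := by ring
      rw [this]
      exact (IsUltrametricDist.norm_add_le_max _ _).trans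
        (max_le (by linarith) (by rw [norm_neg]; exact a3.1))
    by_cases h : u ∈ T 0
    · exact Or.inl ((res_zero D).2 fun g _ => (hL.lam_zero _ _).2 (small u h g))
    · have s0 : u - (1 / 2, 1 / 2) ∈ T 0 := by
        refine (hL.lam_zero (-1) _).1 ?_
        rw [hL.lam_sub uT eT, lam, lam, neg_add_cancel, if_neg h, if_neg eN]
        rfl
      refine Or.inr ((res_ext D).2 fun g _ => (hL.lam_congr ?_).trans (he g).2)
      have : R.d1 u g - R.d1 (1 / 2, 1 / 2) g = R.d1 (u - (1 / 2, 1 / 2)) g := by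
        rw [Rp.d1, Rp.d1, Rp.d1, (hA.lin R g).map_sub]
        abel
      rw [this]
      exact small _ s0 g
  have k : (res D fun g => sg4 (χ g) + R.η g) = 0 ↔ ∀ g ∈ D, sg4 (χ g) = R.η g := by
    rw [res_zero]
    refine forall₂_congr fun g _ => ?_
    generalize sg4 (χ g) = x
    generalize R.η g = y
    revert x y
    decide
  unfold Rp.df
  split_ifs with h
  · rw [if_pos (k.2 h)] at this
    omega
  · rw [if_neg (mt k.1 h)] at this
    omega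

end OddAux

theorem st_Odd (hL : LatSt) (hO : OmSt) (hA : AcSt) (hZ : ZSt) (hT : TorSt) : OddSt where
  good R D I := OddAux.good R D hZ hT I
  split R D := OddAux.split R D hL hO hZ hT
  nonsplit R D := OddAux.nonsplit R D hL hO hA hZ hT

end Pool.Agent.SC
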