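import Pool.Agent.Lib.MP_b4b3cb_nt.StA

/-! The symplectic form, its quadratic refinement, monomial matrices and the sign character. -/

namespace Pool.Agent.SC

open scoped Classical
open Module

namespace OmAux

lemma c2 : ((2 : ℤ_[2]) : ℚ_[2]) = 2 := rfl

lemma c3 : ((3 : ℤ_[2]) : ℚ_[2]) = 3 := rfl

lemma c4 : ((4 : ℤ_[2]) : ℚ_[2]) = 4 := rfl

lemma norm_two_zpow (k : ℤ) : ‖(2 : ℚ_[2]) ^ k‖ = (2 : ℝ) ^ (-k) := by
  simpa using Padic.norm_p_zpow (p := 2) k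

lemma tz (k : ℤ) : (2 : ℚ_[2]) ^ k ≠ 0 := zpow_ne_zero _ two_ne_zero

lemma pw {k : ℤ} {x : ℚ_[2]} : ‖x‖ ≤ (2 : ℝ) ^ (-k) ↔ ∃ z : ℤ_[2], x = 2 ^ k * z := by
  have p : (0 : ℝ) < 2 ^ (-k) := by positivity
  refine ⟨fun h => ⟨⟨x / 2 ^ k, ?_⟩, (mul_div_cancel₀ _ (tz k)).symm⟩, ?_⟩
  · rwa [norm_div, norm_two_zpow, div_le_one p]
  · rintro ⟨z, rfl⟩
    rw [norm_mul, norm_two_zpow]
    exact mul_le_of_le_one_right p.le z.2

lemma int1 {x : ℚ_[2]} (z : ℤ_[2]) (h : x = z) : ‖x‖ ≤ 1 := h ▸ z.2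

lemma half {x : ℚ_[2]} : ‖x‖ ≤ 1 / 2 ↔ ∃ z : ℤ_[2], x = 2 * z := by
  simpa using pw (k := 1) (x := x)

lemma int2 {x : ℚ_[2]} (z : ℤ_[2]) (h : x = 2 * z) : ‖x‖ ≤ 1 / 2 := half.2 ⟨z, h⟩

lemma quarter {x : ℚ_[2]} : ‖x‖ ≤ 1 / 4 ↔ ∃ z : ℤ_[2], x = 4 * z := by
  have := pw (k := 2) (x := x)
  norm_num at this ⊢
  exact this

lemma dich (z : ℤ_[2]) : ∃ w : ℤ_[2], z = 2 * w ∨ z = 1 + 2 * w := by
  have h := PadicInt.sub_zmodRepr_mem z
  rw [PadicInt.maximalIdeal_eq_span_p, Ideal.mem_span_singleton] at h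
  obtain ⟨w, h⟩ := h
  have := PadicInt.zmodRepr_lt_p z
  refine ⟨w, ?_⟩
  generalize z.zmodRepr = n at *
  interval_cases n
  · exact .inl (by simpa using h)
  · exact .inr (by simpa [sub_eq_iff_eq_add'] using h)

lemma not_even (w w' : ℤ_[2]) : (1 : ℚ_[2]) + 2 * w ≠ 2 * w' := fun h => by
  have := int2 (x := 1) (w' - w) (by push_cast [c2, c3, c4]; linear_combination h)
  norm_num at this

lemma unit_odd (r : ℤ_[2]ˣ) : ∃ w : ℤ_[2], ((r : ℤ_[2]) : ℚ_[2]) = 1 + 2 * w := by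
  obtain ⟨w, h | h⟩ := dich r
  · have := congrArg ((↑) : ℤ_[2] → ℚ_[2]) r.mul_inv
    rw [h] at this
    refine absurd ?_ (not_even 0 (w * (r⁻¹ : ℤ_[2]ˣ)))
    push_cast [c2, c3, c4] at this ⊢
    linear_combination -this
  · exact ⟨w, by rw [h]; push_cast [c2, c3, c4]; rfl⟩

lemma unit_sq (r : ℤ_[2]ˣ) : ∃ w : ℤ_[2], ((r : ℤ_[2]) : ℚ_[2]) ^ 2 = 1 + 8 * w := by
  obtain ⟨x, h⟩ := unit_odd r
  obtain ⟨y, rfl | rfl⟩ := dich x
  · exact ⟨y * (2 * y + 1), by rw [h]; push_cast [c2, c3, c4]; ring⟩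
  · exact ⟨(1 + 2 * y) * (1 + y), by rw [h]; push_cast [c2, c3, c4]; ring⟩

lemma mem_even {k : ℤ} {u : V} :
    u ∈ T (2 * k) ↔ ∃ a c : ℤ_[2], u.1 = 2 ^ k * a ∧ u.1 - u.2 = 2 ^ k * c := by
  change _ ∧ _ ↔ _
  rw [show 2 * k / 2 = k by omega, show (2 * k + 1) / 2 = k by omega, pw, pw]
  simp only [exists_and_left, exists_and_right]

lemma mem_odd {k : ℤ} {u : V} :
    u ∈ T (2 * k + 1) ↔ ∃ a c : ℤ_[2], u.1 = 2 ^ k * a ∧ u.1 - u.2 = 2 ^ k * (2 * c) := by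
  change _ ∧ _ ↔ _
  rw [show (2 * k + 1) / 2 = k by omega, show (2 * k + 1 + 1) / 2 = k + 1 by omega, pw, pw,
    zpow_add_one₀ two_ne_zero]
  simp only [exists_and_left, exists_and_right, mul_assoc]

lemma mem_succ {k : ℤ} {u : V} : u ∈ T (2 * k + 1 + 1) ↔
    ∃ a c : ℤ_[2], u.1 = 2 ^ k * (2 * a) ∧ u.1 - u.2 = 2 ^ k * (2 * c) := by
  rw [show 2 * k + 1 + 1 = 2 * (k + 1) by ring, mem_even, zpow_add_one₀ two_ne_zero]
  simp only [mul_assoc]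

lemma of_even {k : ℤ} {u : V} (h : u ∈ T (2 * k)) :
    ∃ a c : ℤ_[2], u = ((2 : ℚ_[2]) ^ k * a, (2 : ℚ_[2]) ^ k * (a - c)) :=
  let ⟨a, c, h1, h2⟩ := mem_even.1 h
  ⟨a, c, Prod.ext h1 (by linear_combination h1 - h2)⟩

lemma of_odd {k : ℤ} {u : V} (h : u ∈ T (2 * k + 1)) :
    ∃ a c : ℤ_[2], u = ((2 : ℚ_[2]) ^ k * a, (2 : ℚ_[2]) ^ k * (a - 2 * c)) :=
  let ⟨a, c, h1, h2⟩ := mem_odd.1 h
  ⟨a, c, Prod.ext h1 (by linear_combination h1 - h2)⟩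

lemma lam_even (k : ℤ) (a c : ℤ_[2]) : ∃ w : ℤ_[2],
    (c : ℚ_[2]) = ((lam (2 * k) (2 ^ k * a, 2 ^ k * (a - c))).val : ℕ) + 2 * w := by
  obtain ⟨w, rfl | rfl⟩ := dich c
  · refine ⟨w, ?_⟩
    rw [lam, if_pos (mem_odd.2 ⟨a, w, rfl, by push_cast [c2, c3, c4]; ring⟩)]
    simp [c2]
  · refine ⟨w, ?_⟩
    rw [lam, if_neg fun h => ?_]
    · simp [ZMod.val_one, c2]
    · obtain ⟨_, c, -, h⟩ := mem_odd.1 h
      refine not_even w c (mul_left_cancel₀ (tz k) ?_)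
      push_cast [c2, c3, c4] at h
      linear_combination h

lemma lam_odd (k : ℤ) (a c : ℤ_[2]) : ∃ w : ℤ_[2],
    (a : ℚ_[2]) = ((lam (2 * k + 1) (2 ^ k * a, 2 ^ k * (a - 2 * c))).val : ℕ) + 2 * w := by
  obtain ⟨w, rfl | rfl⟩ := dich a
  · refine ⟨w, ?_⟩
    rw [lam, if_pos (mem_succ.2 ⟨w, c, by push_cast [c2, c3, c4]; ring, by push_cast [c2, c3, c4]; ring⟩)]
    simp [c2]
  · refine ⟨w, ?_⟩
    rw [lam, if_neg fun h => ?_]
    · simp [ZMod.val_one, c2]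
    · obtain ⟨b, _, h, -⟩ := mem_succ.1 h
      refine not_even w b (mul_left_cancel₀ (tz k) ?_)
      push_cast [c2, c3, c4] at h
      linear_combination h

lemma om_le {i j : ℤ} {u v : V} (hu : u ∈ T i) (hv : v ∈ T j) :
    ‖om u v‖ ≤ (2 : ℝ) ^ (-((i + j) / 2)) := by
  have key : ∀ (x y : ℚ_[2]) (a b : ℤ), ‖x‖ ≤ (2 : ℝ) ^ (-a) → ‖y‖ ≤ (2 : ℝ) ^ (-b) →
      (i + j) / 2 ≤ a + b → ‖x * y‖ ≤ (2 : ℝ) ^ (-((i + j) / 2)) := fun x y a b h1 h2 h => by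
    rw [norm_mul]
    refine (mul_le_mul h1 h2 (norm_nonneg _) (by positivity)).trans ?_
    rw [← zpow_add₀ two_ne_zero]
    exact zpow_le_zpow_right₀ one_le_two (by omega)
  rw [show om u v = (u.1 - u.2) * v.1 + -u.1 * (v.1 - v.2) by unfold om; ring]
  exact (IsUltrametricDist.norm_add_le_max _ _).trans (max_le (key _ _ _ _ hu.2 hv.1 (by omega))
    (key _ _ _ _ ((norm_neg _).trans_le hu.1) hv.2 (by omega)))

lemma hf_two (a : ZMod 2) : ‖2 * hf a‖ ≤ 1 :=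
  int1 (a.val : ℕ) (by unfold hf; push_cast [c2, c3, c4]; ring)

lemma om_lam' {m n : ℤ} {u v : V} (hu : u ∈ T (2 * m)) (hv : v ∈ T (2 * n + 1)) :
    ‖om u v / 2 ^ (m + n + 1) - hf (lam (2 * m) u * lam (2 * n + 1) v)‖ ≤ 1 := by
  obtain ⟨a, c, rfl⟩ := of_even hu
  obtain ⟨a', c', rfl⟩ := of_odd hv
  obtain ⟨w, h⟩ := lam_even m a c
  obtain ⟨w', h'⟩ := lam_odd n a' c'
  generalize lam (2 * m) _ = p at h ⊢
  generalize lam (2 * n + 1) _ = q at h' ⊢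
  have e : ∀ p q : ZMod 2, (p * q).val = p.val * q.val := by decide
  refine int1 ((p.val : ℕ) * w' + w * (q.val : ℕ) + 2 * w * w' - a * c') ?_
  have := tz m
  have := tz n
  rw [hf, e, om, zpow_add_one₀ two_ne_zero, zpow_add₀ two_ne_zero, h, h']
  push_cast [c2, c3, c4]
  field_simp
  ring

lemma om_lam {i j k : ℤ} {u v : V} (hu : u ∈ T i) (hv : v ∈ T j) (h : i + j = 2 * k + 1) :
    ‖om u v / 2 ^ (k + 1) - hf (lam i u * lam j v)‖ ≤ 1 := by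
  obtain ⟨m, rfl | rfl⟩ := Int.even_or_odd' i
  · obtain ⟨n, rfl⟩ : ∃ n, j = 2 * n + 1 := ⟨k - m, by omega⟩
    obtain rfl : k = m + n := by omega
    exact om_lam' hu hv
  · obtain ⟨n, rfl⟩ : ∃ n, j = 2 * n := ⟨k - m, by omega⟩
    obtain rfl : k = n + m := by omega
    have := om_lam' hv hu
    rw [mul_comm (lam _ v)] at this
    generalize lam (2 * m + 1) u * lam (2 * n) v = p at *
    rw [show om u v / 2 ^ (n + m + 1) - hf p =
      -(om v u / 2 ^ (n + m + 1) - hf p + 2 * hf p) by unfold om; ring, norm_neg]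
    exact (IsUltrametricDist.norm_add_le_max _ _).trans (max_le this (hf_two p))

lemma qq_even (k : ℤ) (u : V) : qq (2 * k) u = u.1 * u.2 / (2 ^ k) ^ 2 := by
  rw [qq, if_pos (even_two_mul k), mul_comm 2 k, zpow_mul, zpow_ofNat]

lemma qq_odd (k : ℤ) (u : V) : qq (2 * k + 1) u = (u.1 ^ 2 - u.2 ^ 2) / ((2 ^ k) ^ 2 * 4) := by
  rw [qq, if_neg (Int.not_even_two_mul_add_one k), zpow_add_one₀ two_ne_zero,
    zpow_add_one₀ two_ne_zero, mul_comm 2 k, zpow_mul, zpow_ofNat, mul_assoc]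
  norm_num

lemma zc (e : ZMod 2) : e = 0 ∨ e = 1 := by revert e; decide

lemma mon_zero (r s : ℤ_[2]ˣ) (u : V) :
    mon 0 r s u = (((r : ℤ_[2]) : ℚ_[2]) * u.1, ((s : ℤ_[2]) : ℚ_[2]) * u.2) := if_pos rfl

lemma mon_one (r s : ℤ_[2]ˣ) (u : V) :
    mon 1 r s u = (((r : ℤ_[2]) : ℚ_[2]) * u.2, ((s : ℤ_[2]) : ℚ_[2]) * u.1) :=
  if_neg one_ne_zero

lemma qq_le {j : ℤ} {u : V} (hu : u ∈ T j) : ‖qq j u‖ ≤ 1 := by
  obtain ⟨k, rfl | rfl⟩ := Int.even_or_odd' j <;> have := tz k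
  · obtain ⟨a, c, rfl⟩ := of_even hu
    exact int1 (a * (a - c)) (by rw [qq_even]; push_cast [c2, c3, c4]; field_simp)
  · obtain ⟨a, c, rfl⟩ := of_odd hu
    exact int1 (c * (a - c)) (by rw [qq_odd]; push_cast [c2, c3, c4]; field_simp; ring)

lemma qq_add {j : ℤ} {u v : V} (hu : u ∈ T j) (hv : v ∈ T j) :
    ‖qq j (u + v) - qq j u - qq j v - om u v / 2 ^ j‖ ≤ 1 / 2 := by
  obtain ⟨k, rfl | rfl⟩ := Int.even_or_odd' j <;> have := tz k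
  · obtain ⟨a, c, rfl⟩ := of_even hu
    obtain ⟨a', c', rfl⟩ := of_even hv
    refine int2 ((a - c) * a') ?_
    simp only [qq_even, om, Prod.mk_add_mk]
    rw [mul_comm 2 k, zpow_mul, zpow_ofNat]
    push_cast [c2, c3, c4]
    field_simp
    ring
  · obtain ⟨a, c, rfl⟩ := of_odd hu
    obtain ⟨a', c', rfl⟩ := of_odd hv
    refine int2 ((a - c) * c') ?_
    simp only [qq_odd, om, Prod.mk_add_mk]
    rw [zpow_add_one₀ two_ne_zero, mul_comm 2 k, zpow_mul, zpow_ofNat]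
    push_cast [c2, c3, c4]
    field_simp
    ring

lemma qq_mon {j : ℤ} {u : V} (e : ZMod 2) (r s : ℤ_[2]ˣ) (hu : u ∈ T j) :
    ‖qq j (mon e r s u) - qq j u‖ ≤ 1 / 2 := by
  obtain ⟨k, rfl | rfl⟩ := Int.even_or_odd' j <;> have := tz k
  · obtain ⟨a, c, rfl⟩ := of_even hu
    obtain ⟨x, hx⟩ := unit_odd r
    obtain ⟨y, hy⟩ := unit_odd s
    refine int2 ((x + y + 2 * x * y) * (a * (a - c))) ?_
    obtain rfl | rfl := zc e <;> simp only [qq_even, mon_zero, mon_one, hx, hy] <;> push_cast [c2, c3, c4] <;>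
      field_simp <;> ring
  · obtain ⟨a, c, rfl⟩ := of_odd hu
    obtain ⟨x, hx⟩ := unit_sq r
    obtain ⟨y, hy⟩ := unit_sq s
    obtain rfl | rfl := zc e
    · refine int2 (x * a ^ 2 - y * (a - 2 * c) ^ 2) ?_
      simp only [qq_odd, mon_zero, mul_pow, hx, hy]
      push_cast [c2, c3, c4]
      field_simp
      ring
    · refine int2 (x * (a - 2 * c) ^ 2 - y * a ^ 2 - c * (a - c)) ?_
      simp only [qq_odd, mon_one, mul_pow, hx, hy]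
      push_cast [c2, c3, c4]
      field_simp
      ring

lemma mon_sub {i : ℤ} (e : ZMod 2) (r s : ℤ_[2]ˣ) {u : V} (hu : u ∈ T i) :
    mon e r s u - u ∈ T (i + 1) := by
  obtain ⟨x, hx⟩ := unit_odd r
  obtain ⟨y, hy⟩ := unit_odd s
  obtain ⟨k, rfl | rfl⟩ := Int.even_or_odd' i
  · obtain ⟨a, c, rfl⟩ := of_even hu
    obtain rfl | rfl := zc e
    · refine mem_odd.2 ⟨2 * x * a, x * a - y * (a - c), ?_, ?_⟩ <;>
        simp only [mon_zero, hx, hy, Prod.mk_sub_mk] <;> push_cast [c2, c3, c4] <;> ring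
    · refine mem_odd.2 ⟨(1 + 2 * x) * (a - c) - a, (1 + x) * (a - c) - (1 + y) * a, ?_, ?_⟩ <;>
        simp only [mon_one, hx, hy, Prod.mk_sub_mk] <;> push_cast [c2, c3, c4] <;> ring
  · obtain ⟨a, c, rfl⟩ := of_odd hu
    obtain rfl | rfl := zc e
    · refine mem_succ.2 ⟨x * a, x * a - y * (a - 2 * c), ?_, ?_⟩ <;>
        simp only [mon_zero, hx, hy, Prod.mk_sub_mk] <;> push_cast [c2, c3, c4] <;> ring
    · refine mem_succ.2 ⟨x * (a - 2 * c) - c, (1 + x) * (a - 2 * c) - (1 + y) * a, ?_, ?_⟩ <;>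
        simp only [mon_one, hx, hy, Prod.mk_sub_mk] <;> push_cast [c2, c3, c4] <;> ring

lemma inv_mul (r : ℤ_[2]ˣ) (x : ℚ_[2]) :
    (((r⁻¹ : ℤ_[2]ˣ) : ℤ_[2]) : ℚ_[2]) * (((r : ℤ_[2]) : ℚ_[2]) * x) = x := by
  rw [← mul_assoc, ← PadicInt.coe_mul, Units.inv_mul, PadicInt.coe_one, one_mul]

lemma mon_mem (hL : LatSt) (i : ℤ) (e : ZMod 2) (r s : ℤ_[2]ˣ) (u : V) :
    mon e r s u ∈ T i ↔ u ∈ T i := by
  have key : ∀ (r s : ℤ_[2]ˣ) (u : V), u ∈ T i → mon e r s u ∈ T i := fun r s u hu => by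
    simpa using (T i).add_mem (hL.anti (by omega) (mon_sub e r s hu)) hu
  refine ⟨fun h => ?_, key r s u⟩
  obtain rfl | rfl := zc e
  · simpa only [mon_zero, inv_mul] using key r⁻¹ s⁻¹ _ h
  · simpa only [mon_one, inv_mul] using key s⁻¹ r⁻¹ _ h

lemma sg4_zero {r : ℤ_[2]ˣ} (w : ℤ_[2]) (h : ((r : ℤ_[2]) : ℚ_[2]) = 1 + 4 * w) : sg4 r = 0 :=
  if_pos (quarter.2 ⟨w, by rw [h]; ring⟩)

lemma sg4_three {r : ℤ_[2]ˣ} (w : ℤ_[2]) (h : ((r : ℤ_[2]) : ℚ_[2]) = 3 + 4 * w) : sg4 r = 1 :=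
  if_neg fun e => by
    obtain ⟨z, e⟩ := quarter.1 e
    exact not_even w z (by linear_combination (e - h) / 2)

lemma sg4_cases (r : ℤ_[2]ˣ) : ∃ w : ℤ_[2], (((r : ℤ_[2]) : ℚ_[2]) = 1 + 4 * w ∧ sg4 r = 0) ∨
    (((r : ℤ_[2]) : ℚ_[2]) = 3 + 4 * w ∧ sg4 r = 1) := by
  obtain ⟨x, h⟩ := unit_odd r
  obtain ⟨w, rfl | rfl⟩ := dich x
  · have : ((r : ℤ_[2]) : ℚ_[2]) = 1 + 4 * w := by rw [h]; push_cast [c2, c3, c4]; ring
    exact ⟨w, .inl ⟨this, sg4_zero w this⟩⟩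
  · have : ((r : ℤ_[2]) : ℚ_[2]) = 3 + 4 * w := by rw [h]; push_cast [c2, c3, c4]; ring
    exact ⟨w, .inr ⟨this, sg4_three w this⟩⟩

lemma sg4_mul (r s : ℤ_[2]ˣ) : sg4 (r * s) = sg4 r + sg4 s := by
  obtain ⟨x, ⟨a, b⟩ | ⟨a, b⟩⟩ := sg4_cases r <;> obtain ⟨y, ⟨c, d⟩ | ⟨c, d⟩⟩ := sg4_cases s <;>
    rw [b, d]
  · exact sg4_zero (x + y + 4 * x * y) (by push_cast [c2, c3, c4]; rw [a, c]; ring)
  · exact sg4_three (3 * x + y + 4 * x * y) (by push_cast [c2, c3, c4]; rw [a, c]; ring)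
  · exact sg4_three (x + 3 * y + 4 * x * y) (by push_cast [c2, c3, c4]; rw [a, c]; ring)
  · exact sg4_zero (2 + 3 * x + 3 * y + 4 * x * y) (by push_cast [c2, c3, c4]; rw [a, c]; ring)

lemma sg4_cont : Continuous sg4 := by
  have h : IsClopen {r : ℤ_[2]ˣ | ‖((r : ℤ_[2]) : ℚ_[2]) - 1‖ ≤ 1 / 4} := by
    have := (IsUltrametricDist.isClopen_closedBall (1 : ℚ_[2]) (r := 1 / 4) (by norm_num)).preimage
      (f := fun r : ℤ_[2]ˣ => ((r : ℤ_[2]) : ℚ_[2]))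
      (continuous_subtype_val.comp (Units.continuous_val (M := ℤ_[2])))
    simpa only [Set.preimage, mem_closedBall_iff_norm] using this
  exact Continuous.if (fun a ha => absurd (h.frontier_eq ▸ ha) (Set.notMem_empty a))
    continuous_const continuous_const

lemma hf_zero : hf 0 = 0 := by simp [hf]

lemma hf_one : hf 1 = 1 / 2 := by simp [hf, ZMod.val_one]

end OmAux

open OmAux in
theorem st_Om (hL : LatSt) : OmSt where
  om_le := om_le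
  om_div := fun {i j n u v} hu hv h => by
    obtain ⟨z, e⟩ := (pw (k := n)).1
      ((om_le hu hv).trans (zpow_le_zpow_right₀ one_le_two (by omega)))
    exact int1 z (by rw [e, mul_div_cancel_left₀ _ (tz n)])
  om_lam := om_lam
  hf_add a b := by
    obtain rfl | rfl := zc a <;> obtain rfl | rfl := zc b
    · simp [hf_zero]
    · simp [hf_zero]
    · simp [hf_zero]
    · rw [show (1 : ZMod 2) + 1 = 0 from rfl, hf_zero, hf_one]
      norm_num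
  hf_zero := hf_zero
  hf_one := hf_one
  hf_two := hf_two
  unit_half r x := by
    obtain ⟨w, h⟩ := unit_odd r
    rw [show ((r : ℤ_[2]) : ℚ_[2]) * x - x = 2 * w * x by rw [h]; ring, norm_mul]
    have := mul_le_mul_of_nonneg_right (int2 w rfl) (norm_nonneg x)
    linarith
  qq_le := qq_le
  qq_add := qq_add
  qq_mon := qq_mon
  qq_cont j := by
    unfold qq
    split_ifs <;> fun_prop
  mon_mem := mon_mem hL
  mon_sub := mon_sub
  sg4_mul := sg4_mul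
  sg4_one := sg4_zero 0 (by simp)
  sg4_neg := sg4_three (-1) (by norm_num)
  sg4_cont := sg4_cont
  sg4_half r := by
    obtain ⟨w, ⟨a, b⟩ | ⟨a, b⟩⟩ := sg4_cases r
    · exact int1 w (by rw [a, b, hf_zero]; ring)
    · exact int1 w (by rw [a, b, hf_one]; ring)

end Pool.Agent.SC
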