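import Pool.Agent.Lib.MP_b4b3cb_nt.StB

/-! Classes that lift far enough are in the right kernel of the pairing. -/

namespace Pool.Agent.SC

open scoped Classical
open Module

namespace OrthAux

/-- The integers. -/
abbrev O : Subring ℚ_[2] := PadicInt.subring 2

lemma mem_O {x : ℚ_[2]} : x ∈ O ↔ ‖x‖ ≤ 1 := PadicInt.mem_subring_iff 2

end OrthAux

open OrthAux

theorem st_Orth (hO : OmSt) (hA : AcSt) (hZ : ZSt) (hS : SelSt) : OrthSt := by
  intro G P _ _ _ A R dy hd i n x y e hy hpv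
  obtain ⟨w, ⟨hw, hwl⟩, rfl⟩ := (hS.mem_SS A R dy _ _ _).1 hy
  obtain ⟨x', t, S, hx', -, ht, hS0, rfl⟩ := hpv
  have cw : Continuous w := continuousOn_univ.1 (by simpa using hw.1)
  have cx : Continuous x' := continuousOn_univ.1 (by simpa using hx'.1)
  have w0 : ∀ g, w g ∈ T (i + n + 1) := fun g => hw.2.1 g trivial
  have x0 : ∀ g h, R.ac g (x' h) ∈ T i := fun g h => (hA.mem R g _ _).2 (hx'.2.1 h trivial)
  have hn : (0 : ℤ) ≤ n := Int.natCast_nonneg n
  refine A.rglob (fun g h => om (w g) (R.ac g (x' h)) / 2 ^ (i + n + 1)) (n + 1) ?_ ?_ ?_ _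
    (hZ.hom_lam R ⊤ hw (by push_cast; omega))
    (fun v g => lam (i + n) (x' g - t v g)) ?_ ?_ S hS0
  · have c1 : Continuous fun p : G × G => w p.1 := cw.comp continuous_fst
    have c2 : Continuous fun p : G × G => R.ac p.1 (x' p.2) :=
      (hA.cont R).comp (continuous_fst.prodMk (cx.comp continuous_snd))
    exact ((c1.fst.mul c2.snd).sub (c1.snd.mul c2.fst)).div_const _
  · intro g h
    convert hO.om_div (n := i) (w0 g) (x0 g h) (by omega) using 2
    have h1 : (2 : ℚ_[2]) ^ (i + n + 1) = 2 ^ (n + 1) * 2 ^ i := by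
      rw [← zpow_natCast, ← zpow_add₀ two_ne_zero]
      congr 1
      push_cast
      ring
    have h2 : (2 : ℚ_[2]) ^ i ≠ 0 := zpow_ne_zero _ two_ne_zero
    rw [h1]
    field_simp
  · intro g h l
    have a1 := mem_O.2 (hO.om_div (n := i + n + 1) (hw.2.2 g trivial h trivial) (x0 (g * h) l)
      (by push_cast; omega))
    have a2 := mem_O.2 (hO.om_div (n := i + n + 1) (w0 g)
      ((hA.mem R g _ _).2 (hx'.2.2 h trivial l trivial)) (by omega))
    have e1 : w (g * h) = w g + R.ac g (w h) - R.d2 w g h := by rw [Rp.d2]; abel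
    have e2 : R.ac g (x' (h * l)) =
        R.ac g (x' h) + R.ac (g * h) (x' l) - R.ac g (R.d2 x' h l) := by
      rw [Rp.d2, (hA.lin R g).map_sub, (hA.lin R g).map_add, hA.mul]; abel
    have key : ((A.χ g : ℤ_[2]) : ℚ_[2]) * om (w h) (R.ac h (x' l)) -
        om (w (g * h)) (R.ac (g * h) (x' l)) + om (w g) (R.ac g (x' (h * l))) -
        om (w g) (R.ac g (x' h)) =
        om (R.d2 w g h) (R.ac (g * h) (x' l)) - om (w g) (R.ac g (R.d2 x' h l)) := by
      rw [← hA.om_ac R g, ← hA.mul, e2]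
      conv_lhs => rw [e1]
      simp only [om, Prod.fst_add, Prod.snd_add, Prod.fst_sub, Prod.snd_sub]
      ring
    refine mem_O.1 ?_
    convert sub_mem a1 a2 using 1
    linear_combination (2 ^ (i + n + 1) : ℚ_[2])⁻¹ * key
  · intro v
    refine hZ.hom_lam R (A.D v) (x := x' - t v) (j := i + n + 1)
      ⟨cx.continuousOn.sub (ht v).1.1.1, (ht v).2, fun g hg h hh => ?_⟩ (by omega)
    rw [hA.d2_sub, (ht v).1.1.2.2 g hg h hh, sub_zero]
    exact hx'.2.2 g trivial h trivial
  · intro v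
    obtain ⟨s, hs, hc⟩ := hwl v
    obtain ⟨f, f1, f2⟩ := hZ.cup R (A.D v) (dy v) (hd v) hs (ht v).1
    refine ⟨fun g => f g / 2 ^ (i + n + 1), f1.div_const _, fun g hg h hh => ?_⟩
    have a1 := mem_O.2 (hO.om_div (n := i + n + 1) (hc g hg)
      ((hA.mem R g _ _).2 ((ht v).1.1.2.1 h hh)) (by push_cast; omega))
    have a2 := mem_O.2 (hO.om_lam (k := i + n) (w0 g)
      ((hA.mem R g _ _).2 ((ht v).2 h hh)) (by omega))
    rw [hA.lam_ac] at a2
    have key : om (w g) (R.ac g (x' h)) - dq A.χ f g h =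
        om (w g - s g) (R.ac g (t v h)) + om (w g) (R.ac g (x' h - t v h)) := by
      rw [← f2 g hg h hh, (hA.lin R g).map_sub]
      simp only [om, Prod.fst_sub, Prod.snd_sub]
      ring
    refine mem_O.1 ?_
    convert add_mem a1 a2 using 1
    simp only [dq] at key ⊢
    linear_combination (2 ^ (i + n + 1) : ℚ_[2])⁻¹ * key

end Pool.Agent.SC
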