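import Pool.Agent.Lib.MP_b4b3cb_nt.StB

/-! The pairing on Selmer cochains: existence of witnesses, independence of choices, additivity. -/

namespace Pool.Agent.SC

open scoped Classical
open Module

namespace PVAux

variable {G : Type} [Group G] [TopologicalSpace G]

theorem lev_up {χ : G →* ℤ_[2]ˣ} (R : Rp χ) {D : Subgroup G} {i j k : ℤ} {x : G → V}
    (h : R.Lev D i k x) (hm : ∀ g ∈ D, x g ∈ T j) : R.Lev D j k x :=
  ⟨h.1, hm, h.2.2⟩

theorem hom_loc (hZ : ZSt) {χ : G →* ℤ_[2]ˣ} (R : Rp χ) {D : Subgroup G} {dy : Prop} {i j : ℤ}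
    {x t : G → V} (hx : R.Lev ⊤ i (j + 1) x) (ht : R.Z D dy i t)
    (hm : ∀ g ∈ D, x g - t g ∈ T j) : Hom D fun g => lam j (x g - t g) := by
  have h1 : R.Lev D i (j + 1) x := hZ.lev_mono R hx le_top le_rfl le_rfl
  have h2 : R.Lev D i (j + 1) t := hZ.lev_coc R ht.1 (j + 1)
  have h3 : R.Lev D j (j + 1) (x - t) := lev_up R (hZ.lev_add R D h1 h2).2 hm
  exact hZ.hom_lam R D h3 (by omega)

theorem sum_big {P : Type} {f : P → ZMod 2} {S S' : Finset P} (h : S ⊆ S')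
    (h0 : ∀ v ∉ S, f v = 0) : ∑ v ∈ S, f v = ∑ v ∈ S', f v :=
  Finset.sum_subset h fun v _ hv => h0 v hv

theorem uniq (hL : LatSt) (hZ : ZSt) (hS : SelSt) {P : Type} (A : AD G P) (R : Rp A.χ)
    (dy : P → Prop) (S₀ : Finset P) (hStd : Std A R dy S₀) {i j : ℤ} {x : G → V}
    {y : G → ZMod 2} {e e' : ZMod 2} (hy : y ∈ SS A R dy (j + 1) 1)
    (h : PV A R dy i j x y e) (h' : PV A R dy i j x y e') : e = e' := by
  obtain ⟨x₁, t₁, S₁, hx₁, hd₁, ht₁, h0₁, rfl⟩ := h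
  obtain ⟨x₂, t₂, S₂, hx₂, hd₂, ht₂, h0₂, rfl⟩ := h'
  obtain ⟨hyH, hyW⟩ := (hS.one A R dy (j + 1) y).1 hy
  have hm : ∀ g, x₁ g - x₂ g ∈ T j := fun g => by
    have := (T j).sub_mem (hd₁ g) (hd₂ g)
    rwa [sub_sub_sub_cancel_right] at this
  have hz : Hom ⊤ fun g => lam j (x₁ g - x₂ g) := by
    have h3 : R.Lev ⊤ j (j + 1) (x₁ - x₂) :=
      lev_up R (hZ.lev_add R ⊤ hx₁ hx₂).2 fun g _ => hm g
    exact hZ.hom_lam R ⊤ h3 (by omega)
  have key : ∀ v, A.sym v y (fun g => lam j (x₁ g - t₁ v g)) =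
      A.sym v y (fun g => lam j (x₂ g - t₂ v g)) + A.sym v y fun g => lam j (x₁ g - x₂ g) := by
    intro v
    have hmt : ∀ g ∈ A.D v, (t₂ v - t₁ v) g ∈ T j := fun g hg => by
      have h1 := (T j).sub_mem ((T j).sub_mem ((ht₁ v).2 g hg) ((ht₂ v).2 g hg)) (hm g)
      have h2 : x₁ g - t₁ v g - (x₂ g - t₂ v g) - (x₁ g - x₂ g) = (t₂ v - t₁ v) g := by
        simp only [Pi.sub_apply]; abel
      rwa [h2] at h1
    have hZt : R.Z (A.D v) (dy v) j (t₂ v - t₁ v) :=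
      hZ.z_mem R _ _ (hZ.z_add R _ _ (ht₂ v).1 (ht₁ v).1).2 hmt
    have hH : Hom (A.D v) fun g => lam j ((t₂ v - t₁ v) g) :=
      hZ.hom_lam R _ (hZ.lev_coc R hZt.1 (j + 1)) (by omega)
    have hW : res (A.D v) (fun g => lam j ((t₂ v - t₁ v) g)) ∈ R.W (A.D v) (dy v) j :=
      (hZ.mem_W R _ _ j _).2 ⟨_, hZt, rfl⟩
    have hs0 : A.sym v y (fun g => lam j ((t₂ v - t₁ v) g)) = 0 :=
      hS.iso A R v (dy v) (hStd.dyk v) j _ _ (hyW v) hW
    have hyv : Hom (A.D v) y := hZ.hom_mono hyH le_top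
    have hb : Hom (A.D v) fun g => lam j (x₂ g - t₂ v g) := hom_loc hZ R hx₂ (ht₂ v).1 (ht₂ v).2
    have hzv : Hom (A.D v) fun g => lam j (x₁ g - x₂ g) := hZ.hom_mono hz le_top
    have e1 : A.sym v y (fun g => lam j (x₁ g - t₁ v g)) =
        A.sym v y ((fun g => lam j (x₂ g - t₂ v g)) + (fun g => lam j (x₁ g - x₂ g)) +
          fun g => lam j ((t₂ v - t₁ v) g)) := by
      refine A.congr v _ _ _ _ (fun _ _ => rfl) fun g hg => ?_
      have h2 : x₁ g - t₁ v g = x₂ g - t₂ v g + (x₁ g - x₂ g) + (t₂ v - t₁ v) g := by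
        simp only [Pi.sub_apply]; abel
      simp only [Pi.add_apply]
      rw [h2, hL.lam_add ((T j).add_mem ((ht₂ v).2 g hg) (hm g)) (hmt g hg),
        hL.lam_add ((ht₂ v).2 g hg) (hm g)]
    rw [e1, hS.add_right A v _ _ _ hyv (hZ.hom_add hb hzv) hH, hS.add_right A v _ _ _ hyv hb hzv,
      hs0, add_zero]
  have hrec : ∑ v ∈ S₁ ∪ S₂, A.sym v y (fun g => lam j (x₁ g - x₂ g)) = 0 := by
    refine hS.recip A y _ hyH hz _ fun v hv => ?_
    have h1 := key v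
    rw [h0₁ v fun h => hv (Finset.mem_union_left _ h),
      h0₂ v fun h => hv (Finset.mem_union_right _ h), zero_add] at h1
    exact h1.symm
  rw [sum_big (Finset.subset_union_left (s₂ := S₂)) h0₁,
    sum_big (Finset.subset_union_right (s₁ := S₁)) h0₂, Finset.sum_congr rfl fun v _ => key v,
    Finset.sum_add_distrib, hrec, add_zero]

theorem left (hL : LatSt) (hZ : ZSt) (hS : SelSt) {P : Type} (A : AD G P) (R : Rp A.χ)
    (dy : P → Prop) {i j : ℤ} {x x' : G → V} {y : G → ZMod 2} {e e' : ZMod 2} (hy : Hom ⊤ y)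
    (h : PV A R dy i j x y e) (h' : PV A R dy i j x' y e') :
    PV A R dy i j (x + x') y (e + e') := by
  obtain ⟨x₁, t₁, S₁, hx₁, hd₁, ht₁, h0₁, rfl⟩ := h
  obtain ⟨x₂, t₂, S₂, hx₂, hd₂, ht₂, h0₂, rfl⟩ := h'
  have hsp : ∀ v g, (x₁ + x₂) g - (t₁ + t₂) v g = (x₁ g - t₁ v g) + (x₂ g - t₂ v g) := by
    intro v g
    simp only [Pi.add_apply]; abel
  have key : ∀ v, A.sym v y (fun g => lam j ((x₁ + x₂) g - (t₁ + t₂) v g)) =
      A.sym v y (fun g => lam j (x₁ g - t₁ v g)) + A.sym v y fun g => lam j (x₂ g - t₂ v g) := by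
    intro v
    have hyv : Hom (A.D v) y := hZ.hom_mono hy le_top
    rw [← hS.add_right A v _ _ _ hyv (hom_loc hZ R hx₁ (ht₁ v).1 (ht₁ v).2)
      (hom_loc hZ R hx₂ (ht₂ v).1 (ht₂ v).2)]
    refine A.congr v _ _ _ _ (fun _ _ => rfl) fun g hg => ?_
    rw [hsp, hL.lam_add ((ht₁ v).2 g hg) ((ht₂ v).2 g hg)]
    rfl
  refine ⟨x₁ + x₂, t₁ + t₂, S₁ ∪ S₂, (hZ.lev_add R ⊤ hx₁ hx₂).1, fun g => ?_, fun v => ⟨?_, ?_⟩,
    fun v hv => ?_, ?_⟩
  · have h2 : (x₁ + x₂) g - (x + x') g = (x₁ g - x g) + (x₂ g - x' g) := by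
      simp only [Pi.add_apply]; abel
    rw [h2]
    exact (T j).add_mem (hd₁ g) (hd₂ g)
  · exact (hZ.z_add R _ _ (ht₁ v).1 (ht₂ v).1).1
  · intro g hg
    rw [hsp]
    exact (T j).add_mem ((ht₁ v).2 g hg) ((ht₂ v).2 g hg)
  · rw [key v, h0₁ v fun h => hv (Finset.mem_union_left _ h),
      h0₂ v fun h => hv (Finset.mem_union_right _ h), add_zero]
  · rw [sum_big (Finset.subset_union_left (s₂ := S₂)) h0₁,
      sum_big (Finset.subset_union_right (s₁ := S₁)) h0₂, Finset.sum_congr rfl fun v _ => key v,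
      Finset.sum_add_distrib]

end PVAux

theorem st_PVex (hL : LatSt) (hA : AcSt) (hZ : ZSt) (hS : SelSt) (hLift : LiftSt)
    (hGood : GoodSt) : PVexSt := by
  intro G P _ _ _ A R dy S₀ hStd i j x hij hx
  obtain ⟨x', hx', hd⟩ := hLift A R dy hij hx
  have hc : Continuous x' := by
    have := hx'.1
    rwa [Subgroup.coe_top, continuousOn_univ] at this
  have h1 : x' 1 ∈ T (j + 1) := by
    have := hx'.2.2 1 (Subgroup.mem_top _) 1 (Subgroup.mem_top _)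
    rwa [hA.d2_one] at this
  have hN : x' ⁻¹' (T (j + 1) : Set V) ∈ nhds (1 : G) :=
    ((hL.isOpen (j + 1)).preimage hc).mem_nhds h1
  have hF := A.finI _ hN
  have hI : ∀ v ∉ S₀ ∪ hF.toFinset, ∀ g ∈ A.I v, x' g ∈ T (j + 1) := by
    intro v hv g hg
    have h2 : v ∉ hF.toFinset := fun h => hv (Finset.mem_union_right _ h)
    rw [Set.Finite.mem_toFinset, Set.mem_ofPred_eq, not_not] at h2
    exact h2 hg
  have hex : ∀ v, ∃ t, R.Z (A.D v) (dy v) i t ∧ (∀ g ∈ A.D v, x' g - t g ∈ T j) ∧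
      (v ∉ S₀ ∪ hF.toFinset → ∀ g ∈ A.D v, x' g - t g ∈ T (j + 1)) := by
    intro v
    by_cases hv : v ∈ S₀ ∪ hF.toFinset
    · obtain ⟨t, ht, hm⟩ := hx.2 v
      refine ⟨t, ht, fun g hg => ?_, fun h => absurd hv h⟩
      have := (T j).add_mem (hd g) (hm g hg)
      rwa [sub_add_sub_cancel] at this
    · obtain ⟨t, ht, hm⟩ := hGood R (A.D v) (A.I v) (dy v) (A.le v)
        (hStd.good v fun h => hv (Finset.mem_union_left _ h)) (i := i) (j := j + 1) (by omega)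
        (hZ.lev_mono R hx' le_top le_rfl le_rfl) (hI v hv)
      exact ⟨t, ht, fun g hg => hL.anti (by omega) (hm g hg), fun _ => hm⟩
  choose t ht hm hm' using hex
  refine ⟨x', t, S₀ ∪ hF.toFinset, Finset.subset_union_left, hx', hd, fun v => ⟨ht v, hm v⟩,
    fun v => PVAux.hom_loc hZ R hx' (ht v) (hm v), hI, fun y hy v hv => ?_⟩
  exact hS.sym_zero A v _ _ (hZ.hom_mono ((hS.one A R dy (j + 1) y).1 hy).1 le_top)
    fun g hg => (hL.lam_zero j _).2 (hm' v hv g hg)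

theorem st_PV (hL : LatSt) (hZ : ZSt) (hS : SelSt) (hP : PVexSt) : PVSt where
  ex := by
    intro G P _ _ _ A R dy S₀ hStd i j x y hij hx hy
    obtain ⟨x', t, S₁, -, h1, h2, h3, -, -, h6⟩ := hP A R dy S₀ hStd hij hx
    exact ⟨_, x', t, S₁, h1, h2, h3, h6 y hy, rfl⟩
  uniq := by
    intro G P _ _ _ A R dy S₀ hStd i j x y e e' _ hy h h'
    exact PVAux.uniq hL hZ hS A R dy S₀ hStd hy h h'
  left := by
    intro G P _ _ _ A R dy i j x x' y e e' _ hy h h'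
    exact PVAux.left hL hZ hS A R dy hy h h'
  right := by
    intro G P _ _ _ A R dy S₀ hStd i j x y y' e e' hij hx hy hy' h h'
    obtain ⟨x', t, S₁, -, h1, h2, h3, h4, -, h6⟩ := hP A R dy S₀ hStd hij hx
    have he := PVAux.uniq hL hZ hS A R dy S₀ hStd hy h ⟨x', t, S₁, h1, h2, h3, h6 y hy, rfl⟩
    have he' := PVAux.uniq hL hZ hS A R dy S₀ hStd hy' h' ⟨x', t, S₁, h1, h2, h3, h6 y' hy', rfl⟩
    refine ⟨x', t, S₁, h1, h2, h3, h6 (y + y') (Submodule.add_mem _ hy hy'), ?_⟩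
    rw [he, he', ← Finset.sum_add_distrib]
    refine Finset.sum_congr rfl fun v _ => ?_
    exact (A.add v y y' _ (hZ.hom_mono ((hS.one A R dy (j + 1) y).1 hy).1 le_top)
      (hZ.hom_mono ((hS.one A R dy (j + 1) y').1 hy').1 le_top) (h4 v)).symm
  nat := by
    intro G P _ _ _ A R dy i i' j x y e hi h
    obtain ⟨x', t, S, h1, h2, h3, h4, h5⟩ := h
    exact ⟨x', t, S, hZ.lev_mono R h1 le_rfl hi le_rfl, h2,
      fun v => ⟨hZ.z_mem R _ _ (h3 v).1 fun g hg => hL.anti hi ((h3 v).1.1.2.1 g hg), (h3 v).2⟩,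
      h4, h5⟩
  zero := by
    intro G P _ _ _ A R dy i j x x' y hy hx hd
    choose t ht hm using hx.2
    refine ⟨x', t, ∅, hx.1, hd, fun v => ⟨ht v, fun g hg => hL.anti (by omega) (hm v g hg)⟩,
      fun v _ => ?_, by simp⟩
    exact hS.sym_zero A v _ _ (hZ.hom_mono hy le_top) fun g hg => (hL.lam_zero j _).2 (hm v g hg)

end Pool.Agent.SC
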