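import Pool.Agent.Lib.MP_b4b3cb_nt.StB

/-! Kernels of pairings over the field with two elements. -/

namespace Pool.Agent.SC

open scoped Classical
open Module

namespace PairAux

theorem z2 (c : ZMod 2) : c = 0 ∨ c = 1 := by
  revert c
  decide

theorem z2_add (c : ZMod 2) : c + c = 0 := by
  revert c
  decide

theorem z2_eq {c d : ZMod 2} (h : c + d = 0) : c = d := by
  revert c d
  decide

/-- An additive function on a subspace is a linear form. -/
def lin {Y : Type} [AddCommGroup Y] [Module (ZMod 2) Y] (B : Submodule (ZMod 2) Y)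
    (φ : Y → ZMod 2) (h : ∀ b ∈ B, ∀ b' ∈ B, φ (b + b') = φ b + φ b') :
    Module.Dual (ZMod 2) B :=
  (AddMonoidHom.mk' (fun b : B => φ b) fun b b' => h b b.2 b' b'.2).toZModLinearMap 2

@[simp] theorem lin_apply {Y : Type} [AddCommGroup Y] [Module (ZMod 2) Y]
    (B : Submodule (ZMod 2) Y) (φ : Y → ZMod 2)
    (h : ∀ b ∈ B, ∀ b' ∈ B, φ (b + b') = φ b + φ b') (b : B) : lin B φ h b = φ b := rfl

/-- A biadditive function on a pair of subspaces is a bilinear map. -/
def bil {X Y : Type} [AddCommGroup X] [Module (ZMod 2) X] [AddCommGroup Y] [Module (ZMod 2) Y]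
    (A : Submodule (ZMod 2) X) (B : Submodule (ZMod 2) Y) (f : X → Y → ZMod 2)
    (h1 : ∀ a ∈ A, ∀ a' ∈ A, ∀ b ∈ B, f (a + a') b = f a b + f a' b)
    (h2 : ∀ a ∈ A, ∀ b ∈ B, ∀ b' ∈ B, f a (b + b') = f a b + f a b') :
    A →ₗ[ZMod 2] B →ₗ[ZMod 2] ZMod 2 :=
  (AddMonoidHom.mk' (fun a : A => lin B (f a) (h2 a a.2)) fun a a' =>
    LinearMap.ext fun b => h1 a a.2 a' a'.2 b b.2).toZModLinearMap 2

@[simp] theorem bil_apply {X Y : Type} [AddCommGroup X] [Module (ZMod 2) X] [AddCommGroup Y]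
    [Module (ZMod 2) Y] (A : Submodule (ZMod 2) X) (B : Submodule (ZMod 2) Y)
    (f : X → Y → ZMod 2) (h1 : ∀ a ∈ A, ∀ a' ∈ A, ∀ b ∈ B, f (a + a') b = f a b + f a' b)
    (h2 : ∀ a ∈ A, ∀ b ∈ B, ∀ b' ∈ B, f a (b + b') = f a b + f a b') (a : A) (b : B) :
    bil A B f h1 h2 a b = f a b := rfl

theorem finrank_comap {K X : Type} [Field K] [AddCommGroup X] [Module K X]
    (A C : Submodule K X) : finrank K (C.comap A.subtype) = finrank K (A ⊓ C : Submodule K X) := by
  rw [← Submodule.map_comap_subtype, Submodule.finrank_map_subtype_eq]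

theorem rank_flip {K X Y : Type} [Field K] [AddCommGroup X] [Module K X] [AddCommGroup Y]
    [Module K Y] [FiniteDimensional K Y] (φ : X →ₗ[K] Y →ₗ[K] K) :
    finrank K (LinearMap.range φ.flip) = finrank K (LinearMap.range φ) := by
  have h : φ.flip = (LinearMap.dualMap φ).comp (Module.Dual.eval K Y) := by
    ext b a
    simp
  rw [h, LinearMap.range_comp_of_range_eq_top _
    (LinearMap.range_eq_top.2 (Module.bijective_dual_eval K Y).2)]
  exact LinearMap.finrank_range_dualMap_eq_finrank_range φ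

theorem alt_aux {E : Type} [AddCommGroup E] [Module (ZMod 2) E] [FiniteDimensional (ZMod 2) E]
    (φ : E →ₗ[ZMod 2] E →ₗ[ZMod 2] ZMod 2) (hφ : ∀ v, φ v v = 0) (A' : Submodule (ZMod 2) E)
    (n : ℕ) : ∀ A : Submodule (ZMod 2) E, finrank (ZMod 2) A = n → A' ≤ A →
      (∀ a ∈ A, a ∈ A' ↔ ∀ b ∈ A, φ a b = 0) →
      Even (finrank (ZMod 2) A + finrank (ZMod 2) A') := by
  have hs : ∀ u v, φ u v = φ v u := by
    intro u v
    have h := hφ (u + v)
    simp only [map_add, LinearMap.add_apply, hφ, zero_add, add_zero] at h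
    exact (z2_eq h).symm
  induction n using Nat.strong_induction_on with
  | _ n ih =>
    intro A hn hle hrad
    by_cases h0 : ∀ a ∈ A, ∀ b ∈ A, φ a b = 0
    · have hA : A = A' := le_antisymm (fun a ha => (hrad a ha).2 (h0 a ha)) hle
      rw [hA]
      exact ⟨_, rfl⟩
    · push Not at h0
      obtain ⟨a, ha, b, hb, hab⟩ := h0
      have hab1 : φ a b = 1 := (z2 _).resolve_left hab
      have hba1 : φ b a = 1 := by rw [hs, hab1]
      set g : E →ₗ[ZMod 2] ZMod 2 × ZMod 2 := (φ a).prod (φ b) with hg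
      have hgm : ∀ c, c ∈ LinearMap.ker g ↔ φ a c = 0 ∧ φ b c = 0 := by
        intro c
        simp [hg, Prod.ext_iff]
      have hrk := LinearMap.finrank_range_add_finrank_ker (g.domRestrict A)
      have hsurj : LinearMap.range (g.domRestrict A) = ⊤ := by
        rw [LinearMap.range_eq_top]
        rintro ⟨s, t⟩
        refine ⟨⟨s • b + t • a, A.add_mem (A.smul_mem _ hb) (A.smul_mem _ ha)⟩, ?_⟩
        simp [hg, hab1, hba1, hφ]
      rw [hsurj, LinearMap.ker_domRestrict, finrank_comap, finrank_top] at hrk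
      have h2 : finrank (ZMod 2) (ZMod 2 × ZMod 2) = 2 := by simp
      rw [h2] at hrk
      have hle' : A' ≤ A ⊓ LinearMap.ker g := by
        intro c hc
        refine ⟨hle hc, (hgm c).2 ⟨?_, ?_⟩⟩
        · rw [hs]; exact (hrad c (hle hc)).1 hc a ha
        · rw [hs]; exact (hrad c (hle hc)).1 hc b hb
      have hrad' : ∀ c ∈ A ⊓ LinearMap.ker g, c ∈ A' ↔ ∀ d ∈ A ⊓ LinearMap.ker g, φ c d = 0 := by
        intro c hc
        refine ⟨fun h d hd => (hrad c hc.1).1 h d hd.1, fun h => (hrad c hc.1).2 fun d hd => ?_⟩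
        obtain ⟨hca, hcb⟩ := (hgm c).1 hc.2
        have hd' : d + φ b d • a + φ a d • b ∈ A ⊓ LinearMap.ker g := by
          refine ⟨A.add_mem (A.add_mem hd (A.smul_mem _ ha)) (A.smul_mem _ hb), (hgm _).2 ⟨?_, ?_⟩⟩
          · simp [hφ, hab1, z2_add]
          · simp [hφ, hba1, z2_add]
        have h3 := h _ hd'
        simp only [map_add, map_smul, smul_eq_mul] at h3
        rw [hs c a, hs c b, hca, hcb] at h3
        simpa using h3
      have h4 := ih _ (by omega) (A ⊓ LinearMap.ker g) rfl hle' hrad'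
      obtain ⟨k, hk⟩ := h4
      exact ⟨k + 1, by omega⟩

end PairAux

open PairAux in
theorem st_Pair : PairSt where
  ker := by
    intro X Y _ _ _ _ A A' B B' f hA hB hA' hB' h1 h2 h3 h4
    have hkA : LinearMap.ker (bil A B f h1 h2) = A'.comap A.subtype := by
      ext a
      rw [LinearMap.mem_ker, Submodule.mem_comap, Submodule.subtype_apply, h3 a a.2,
        LinearMap.ext_iff]
      exact ⟨fun h b hb => h ⟨b, hb⟩, fun h b => h b b.2⟩
    have hkB : LinearMap.ker (bil A B f h1 h2).flip = B'.comap B.subtype := by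
      ext b
      rw [LinearMap.mem_ker, Submodule.mem_comap, Submodule.subtype_apply, h4 b b.2,
        LinearMap.ext_iff]
      exact ⟨fun h a ha => h ⟨a, ha⟩, fun h a => h a a.2⟩
    have r1 := LinearMap.finrank_range_add_finrank_ker (bil A B f h1 h2)
    have r2 := LinearMap.finrank_range_add_finrank_ker (bil A B f h1 h2).flip
    rw [hkA, finrank_comap, inf_eq_right.2 hA'] at r1
    rw [hkB, finrank_comap, inf_eq_right.2 hB', rank_flip] at r2
    omega
  alt := by
    intro X _ _ A A' f hA hA' h1 h2 h3 h4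
    have h := alt_aux (bil A A f h1 h2) (fun v => h3 v v.2) (A'.comap A.subtype) _ ⊤ rfl le_top
      (fun a _ => by
        rw [Submodule.mem_comap, Submodule.subtype_apply, h4 a a.2]
        exact ⟨fun h b _ => h b b.2, fun h b hb => h ⟨b, hb⟩ trivial⟩)
    rwa [finrank_top, finrank_comap, inf_eq_right.2 hA'] at h
  bidual := by
    intro C Y _ _ _ U B f φ hB h1 h2 h3 h4
    have hz : ∀ b ∈ B, f 0 b = 0 := by
      intro b hb
      have h := h1 0 U.zero_mem 0 U.zero_mem b hb
      rw [add_zero, z2_add] at h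
      exact h
    let M : Submodule (ZMod 2) (Module.Dual (ZMod 2) B) :=
      { carrier := {ψ | ∃ z ∈ U, ∀ b : B, ψ b = f z b}
        add_mem' := by
          rintro ψ ψ' ⟨z, hz, hψ⟩ ⟨z', hz', hψ'⟩
          exact ⟨z + z', U.add_mem hz hz', fun b => by
            rw [LinearMap.add_apply, hψ, hψ', h1 z hz z' hz' b b.2]⟩
        zero_mem' := ⟨0, U.zero_mem, fun b => (hz b b.2).symm⟩
        smul_mem' := by
          rintro c ψ ⟨z, hzU, hψ⟩
          rcases z2 c with rfl | rfl
          · exact ⟨0, U.zero_mem, fun b => by rw [zero_smul]; exact (hz b b.2).symm⟩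
          · exact ⟨z, hzU, fun b => by rw [one_smul]; exact hψ b⟩ }
    have hm : lin B φ h3 ∈ M.dualCoannihilator.dualAnnihilator := by
      rw [Submodule.mem_dualAnnihilator]
      intro b hb
      rw [Submodule.mem_dualCoannihilator] at hb
      exact h4 b b.2 fun z hzU => hb (lin B (f z) (h2 z hzU)) ⟨z, hzU, fun _ => rfl⟩
    rw [Subspace.dualCoannihilator_dualAnnihilator_eq] at hm
    obtain ⟨z, hzU, hψ⟩ := hm
    exact ⟨z, hzU, fun b hb => (hψ ⟨b, hb⟩).symm⟩

end Pool.Agent.SC
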