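import Pool.Agent.Lib.MP_b4b3cb_nt.StF

/-! Poisson summation for the harmonic Gaussian. -/

namespace Pool.Agent.SC

open NumberField Pool.Agent.Stark
open scoped Classical ComplexConjugate

namespace PoisAux

open PoissonAux MeasureTheory

variable {κ : Type} [Fintype κ]

lemma fm_cont (m : κ → ℕ) : Continuous (fm m) := by
  unfold fm
  fun_prop

lemma norm_fm_le (m : κ → ℕ) : ∃ C : ℝ, ∀ p : κ ⊕ κ → ℝ,
    ‖fm m p‖ ≤ C * Real.exp (-Real.pi * ∑ i, 1 / 2 * p i ^ 2) := by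
  refine ⟨(∑ k, m k).factorial * Real.exp 1, fun p => ?_⟩
  set S : ℝ := ∑ i, p i ^ 2 with hS
  have hS0 : 0 ≤ S := Finset.sum_nonneg fun i _ => sq_nonneg _
  have h1 : ∀ k, ‖(p (Sum.inl k) : ℂ) - (p (Sum.inr k) : ℂ) * Complex.I‖ ≤ 1 + S := by
    intro k
    have a1 : p (Sum.inl k) ^ 2 + p (Sum.inr k) ^ 2 ≤ S := by
      rw [hS, Fintype.sum_sum_type]
      exact add_le_add
        (Finset.single_le_sum (f := fun k => p (Sum.inl k) ^ 2) (fun _ _ => sq_nonneg _)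
          (Finset.mem_univ k))
        (Finset.single_le_sum (f := fun k => p (Sum.inr k) ^ 2) (fun _ _ => sq_nonneg _)
          (Finset.mem_univ k))
    have a2 := norm_sub_le (p (Sum.inl k) : ℂ) ((p (Sum.inr k) : ℂ) * Complex.I)
    rw [norm_mul, Complex.norm_I, mul_one, Complex.norm_real, Complex.norm_real,
      Real.norm_eq_abs, Real.norm_eq_abs] at a2
    nlinarith [sq_nonneg (|p (Sum.inl k)| - 1 / 2), sq_nonneg (|p (Sum.inr k)| - 1 / 2),
      sq_abs (p (Sum.inl k)), sq_abs (p (Sum.inr k))]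
  have h2 : ‖∏ k, ((p (Sum.inl k) : ℂ) - (p (Sum.inr k) : ℂ) * Complex.I) ^ m k‖ ≤
      (1 + S) ^ (∑ k, m k) := by
    rw [norm_prod, ← Finset.prod_pow_eq_pow_sum]
    refine Finset.prod_le_prod (fun _ _ => norm_nonneg _) fun k _ => ?_
    rw [norm_pow]
    exact pow_le_pow_left₀ (norm_nonneg _) (h1 k) _
  have h3 : (1 + S) ^ (∑ k, m k) ≤ (∑ k, m k).factorial * Real.exp (1 + S) := by
    have := Real.pow_div_factorial_le_exp (1 + S) (by linarith) (∑ k, m k)
    rwa [div_le_iff₀ (by positivity), mul_comm] at this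
  have h4 : ‖Complex.exp (-(Real.pi : ℂ) * ∑ i, (p i : ℂ) ^ 2)‖ = Real.exp (-Real.pi * S) := by
    have : (-(Real.pi : ℂ) * ∑ i, (p i : ℂ) ^ 2) = ((-Real.pi * S : ℝ) : ℂ) := by
      rw [hS]; push_cast; rfl
    rw [this, Complex.norm_exp_ofReal]
  have h5 : ∑ i, 1 / 2 * p i ^ 2 = 1 / 2 * S := by rw [hS, Finset.mul_sum]
  rw [fm, norm_mul, h4, h5]
  have h6 : Real.exp (1 + S) * Real.exp (-Real.pi * S) ≤
      Real.exp 1 * Real.exp (-Real.pi * (1 / 2 * S)) := by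
    rw [← Real.exp_add, ← Real.exp_add, Real.exp_le_exp]
    nlinarith [Real.pi_gt_three]
  calc _ ≤ ((∑ k, m k).factorial * Real.exp (1 + S)) * Real.exp (-Real.pi * S) :=
        mul_le_mul_of_nonneg_right (h2.trans h3) (Real.exp_pos _).le
    _ = (∑ k, m k).factorial * (Real.exp (1 + S) * Real.exp (-Real.pi * S)) := by ring
    _ ≤ (∑ k, m k).factorial * (Real.exp 1 * Real.exp (-Real.pi * (1 / 2 * S))) :=
        mul_le_mul_of_nonneg_left h6 (by positivity)
    _ = _ := by ring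

lemma fm_bound (m : κ → ℕ) (B : Matrix (κ ⊕ κ) (κ ⊕ κ) ℝ) (hB : B.det ≠ 0) (c : κ ⊕ κ → ℝ)
    (R : ℝ) : ∃ u : (κ ⊕ κ → ℤ) → ℝ, Summable u ∧
      ∀ k x, ‖x‖ ≤ R → ‖fm m (B.mulVec (zv k + x) + c)‖ ≤ u k := by
  obtain ⟨C, hC⟩ := norm_fm_le m
  obtain ⟨u, hu, hb⟩ := gs_bound B hB (fun _ => ((1 / 2 : ℝ) : ℂ))
    (fun _ => by rw [Complex.ofReal_re]; norm_num) c R
  refine ⟨fun k => |C| * u k, hu.mul_left _, fun k x hx => ?_⟩
  have h1 := hb k x hx
  rw [norm_gs] at h1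
  simp only [Complex.ofReal_re] at h1
  refine (hC _).trans ?_
  refine (mul_le_mul_of_nonneg_right (le_abs_self C) (Real.exp_pos _).le).trans ?_
  exact mul_le_mul_of_nonneg_left h1 (abs_nonneg _)

lemma fm_summable (m : κ → ℕ) (B : Matrix (κ ⊕ κ) (κ ⊕ κ) ℝ) (hB : B.det ≠ 0)
    (c : κ ⊕ κ → ℝ) : Summable fun n : κ ⊕ κ → ℤ => ‖fm m (lpt B n + c)‖ := by
  obtain ⟨u, hu, hb⟩ := fm_bound m B hB c 0
  refine Summable.of_nonneg_of_le (fun k => norm_nonneg _) (fun k => ?_) hu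
  have := hb k 0 (by simp)
  rwa [add_zero] at this

lemma fm_coeff (hF : FourSt) (m : κ → ℕ) (B : Matrix (κ ⊕ κ) (κ ⊕ κ) ℝ) (hB : B.det ≠ 0)
    (c : κ ⊕ κ → ℝ) (k : κ ⊕ κ → ℤ) :
    ∫ x, chr k x * fm m (B.mulVec x + c) = (-Complex.I) ^ (∑ k, m k) / (|B.det| : ℝ) *
      (fm m (lpt (B⁻¹).transpose k) *
        Complex.exp (2 * Real.pi * Complex.I *
          ((∑ i, lpt (B⁻¹).transpose k i * c i : ℝ) : ℂ))) := by
  set ξ : κ ⊕ κ → ℝ := lpt (B⁻¹).transpose k with hξ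
  let G : (κ ⊕ κ → ℝ) → ℂ := fun y =>
    Complex.exp (-(2 * Real.pi * Complex.I) * ((∑ i, ξ i * y i : ℝ) : ℂ)) * fm m y
  have hGc : Continuous G := by
    have := fm_cont m
    simp only [G]
    fun_prop
  have hdot : ∀ x : κ ⊕ κ → ℝ, ∑ j, (k j : ℝ) * x j = ∑ i, ξ i * B.mulVec x i := by
    intro x
    have e1 : dotProduct ξ (B.mulVec x) = dotProduct (zv k) x := by
      rw [hξ, lpt, Matrix.mulVec_transpose, ← Matrix.dotProduct_mulVec, Matrix.mulVec_mulVec,
        Matrix.nonsing_inv_mul B (isUnit_iff_ne_zero.2 hB), Matrix.one_mulVec]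
      rfl
    exact e1.symm
  have h1 : ∀ x, chr k x * fm m (B.mulVec x + c) =
      Complex.exp (2 * Real.pi * Complex.I * ((∑ i, ξ i * c i : ℝ) : ℂ)) *
        G (B.mulVec x + c) := by
    intro x
    simp only [chr, G, hdot, ← mul_assoc, ← Complex.exp_add, Pi.add_apply, mul_add,
      Finset.sum_add_distrib]
    congr 2
    push_cast
    ring
  simp only [h1]
  rw [integral_const_mul]
  have hc : Continuous fun y => G (y + c) := by fun_prop
  have h2 := PhiAux.integral_comp_matrix B hB (fun y => G (y + c)) hc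
  rw [h2, integral_add_right_eq_self]
  simp only [G]
  rw [hF m ξ]
  push_cast
  ring

end PoisAux

open PoisAux PoissonAux in
theorem st_Pois (hF : FourSt) : PoisSt := by
  intro κ _ m B hB c
  refine ⟨fm_summable m B hB c, ?_⟩
  have hB' : ((B⁻¹).transpose).det ≠ 0 := by
    rw [Matrix.det_transpose, Matrix.det_nonsing_inv, Ring.inverse_eq_inv']
    exact inv_ne_zero hB
  have hs : Summable fun k : κ ⊕ κ → ℤ => ∫ x, chr k x * fm m (B.mulVec x + c) := by
    simp only [fm_coeff hF m B hB c]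
    refine Summable.mul_left _ (Summable.of_norm ?_)
    refine (fm_summable m _ hB' 0).congr fun k => ?_
    have e : (2 * Real.pi * Complex.I * ((∑ i, lpt (B⁻¹).transpose k i * c i : ℝ) : ℂ)) =
        ((2 * Real.pi * ∑ i, lpt (B⁻¹).transpose k i * c i : ℝ) : ℂ) * Complex.I := by
      push_cast; ring
    rw [norm_mul, e, Complex.norm_exp_ofReal_mul_I, mul_one, add_zero]
  have hc : Continuous fun x : κ ⊕ κ → ℝ => fm m (B.mulVec x + c) :=
    (fm_cont m).comp ((LinearMap.continuous_of_finiteDimensional (Matrix.toLin' B)).add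
      continuous_const)
  have h := poisson_std hc (fm_bound m B hB c) hs
  simp only [fm_coeff hF m B hB c] at h
  rw [tsum_mul_left] at h
  exact h

end Pool.Agent.SC
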