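import Pool.Agent.Lib.MP_b4b3cb_nt.StG

/-! Primes of `Ω`: existence, transitivity, decomposition and inertia groups. -/

namespace Pool.Agent.SC

open NumberField Pool.Agent.Stark
open scoped Classical Pointwise Topology

namespace PrimeAux

theorem coe_smul {G Ω : Type} [Group G] [Field Ω] [MulSemiringAction G Ω] (g : G) (x : 𝓞 Ω) :
    ((g • x : 𝓞 Ω) : Ω) = g • (x : Ω) := rfl

theorem coe_map {F Ω : Type} [Field F] [Field Ω] [Algebra F Ω] (x : 𝓞 F) :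
    ((algebraMap (𝓞 F) (𝓞 Ω) x : 𝓞 Ω) : Ω) = algebraMap F Ω (x : F) := rfl

theorem cont (F Ω : Type) [Field F] [Field Ω] [Algebra F Ω] [Algebra.IsIntegral F Ω] :
    @ContinuousSMul (Ω ≃ₐ[F] Ω) (𝓞 Ω) _ _ ⊥ := by
  let : TopologicalSpace (𝓞 Ω) := ⊥
  have : DiscreteTopology (𝓞 Ω) := ⟨rfl⟩
  refine continuousSMul_iff_stabilizer_isOpen.2 fun x => ?_
  have h := stabilizer_isOpen_of_isIntegral (K := F) (x : Ω)
  have e : (MulAction.stabilizer (Ω ≃ₐ[F] Ω) x : Set (Ω ≃ₐ[F] Ω)) =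
      MulAction.stabilizer (Ω ≃ₐ[F] Ω) (x : Ω) := by
    ext g
    simp only [SetLike.mem_coe, MulAction.mem_stabilizer_iff]
    rw [← RingOfIntegers.eq_iff, coe_smul]
  rw [e]
  exact h

theorem smul_map {F Ω : Type} [Field F] [Field Ω] [Algebra F Ω] (g : Ω ≃ₐ[F] Ω) (x : 𝓞 F) :
    g • algebraMap (𝓞 F) (𝓞 Ω) x = algebraMap (𝓞 F) (𝓞 Ω) x :=
  RingOfIntegers.ext (g.commutes (x : F))

theorem trans' {F Ω : Type} [Field F] [Field Ω] [Algebra F Ω] [IsGalois F Ω]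
    (P Q : Ideal (𝓞 Ω)) [P.IsPrime] [Q.IsPrime] (h : P.under (𝓞 F) = Q.under (𝓞 F)) :
    ∃ g : Ω ≃ₐ[F] Ω, Q = g • P := by
  let : TopologicalSpace (𝓞 Ω) := ⊥
  have : DiscreteTopology (𝓞 Ω) := ⟨rfl⟩
  have := cont F Ω
  have : SMulCommClass (Ω ≃ₐ[F] Ω) (𝓞 F) (𝓞 Ω) := ⟨fun g a x => by
    rw [Algebra.smul_def, Algebra.smul_def, smul_mul', smul_map]⟩
  have : Algebra.IsInvariant (𝓞 F) (𝓞 Ω) (Ω ≃ₐ[F] Ω) := ⟨fun b hb => by
    obtain ⟨a, ha⟩ := (InfiniteGalois.mem_range_algebraMap_iff_fixed (k := F) (b : Ω)).2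
      fun g => congrArg (fun y : 𝓞 Ω => (y : Ω)) (hb g)
    have hi : IsIntegral ℤ a := by
      rw [← isIntegral_algebraMap_iff (B := Ω) (algebraMap F Ω).injective, ha]
      exact b.isIntegral_coe
    exact ⟨⟨a, hi⟩, RingOfIntegers.ext ha⟩⟩
  exact Algebra.IsInvariant.exists_smul_of_under_eq_of_profinite P Q h

theorem under' (F : Type) {Ω : Type} [Field F] [NumberField F] [Field Ω] [Algebra F Ω]
    (𝔓 : Ideal (𝓞 Ω)) (h : 𝔓.IsMaximal) : ∃ q : Pr F, Over 𝔓 q := by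
  have hm := Ideal.isMaximal_comap_of_isIntegral_of_isMaximal (R := 𝓞 F) 𝔓
  exact ⟨⟨𝔓.comap (algebraMap (𝓞 F) (𝓞 Ω)), hm.isPrime,
    Ring.ne_bot_of_isMaximal_of_not_isField hm (RingOfIntegers.not_isField F)⟩,
    h, fun _ => Ideal.mem_comap⟩

variable {K Ω : Type} [Field K] [Field Ω] [Algebra K Ω]

theorem smul_max (g : Ω ≃ₐ[K] Ω) {𝔓 : Ideal (𝓞 Ω)} (h : 𝔓.IsMaximal) : (g • 𝔓).IsMaximal := by
  rw [Ideal.pointwise_smul_eq_comap]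
  exact Ideal.comap_isMaximal_of_equiv _

theorem mem_dec (𝔓 : Ideal (𝓞 Ω)) (g : Ω ≃ₐ[K] Ω) :
    g ∈ Dec K 𝔓 ↔ ∀ x : 𝓞 Ω, g • x ∈ 𝔓 ↔ x ∈ 𝔓 := by
  rw [Dec, MulAction.mem_stabilizer_iff]
  constructor
  · intro h x
    conv_lhs => rw [← h]
    exact Ideal.smul_mem_pointwise_smul_iff
  · intro h
    ext x
    rw [Ideal.mem_pointwise_smul_iff_inv_smul_mem, ← h, smul_inv_smul]

theorem conj (𝔓 : Ideal (𝓞 Ω)) (n : ℕ) (σ g : Ω ≃ₐ[K] Ω) :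
    IsFr (σ • 𝔓) n g ↔ IsFr 𝔓 n (σ⁻¹ * g * σ) := by
  have e : ∀ x : 𝓞 Ω, g • σ • x - (σ • x) ^ n ∈ σ • 𝔓 ↔ (σ⁻¹ * g * σ) • x - x ^ n ∈ 𝔓 := by
    intro x
    rw [Ideal.mem_pointwise_smul_iff_inv_smul_mem, smul_sub, smul_pow', inv_smul_smul, mul_smul,
      mul_smul]
  constructor
  · exact fun h x => (e x).1 (h _)
  · intro h x
    have := (e (σ⁻¹ • x)).2 (h _)
    rwa [smul_inv_smul] at this

theorem ine_iff (𝔓 : Ideal (𝓞 Ω)) (g : Ω ≃ₐ[K] Ω) : g ∈ Ine K 𝔓 ↔ IsFr 𝔓 1 g := by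
  simp only [IsFr, pow_one]
  rfl

theorem closed [Algebra.IsIntegral K Ω] (𝔓 : Ideal (𝓞 Ω)) :
    IsClosed (Dec K 𝔓 : Set (Ω ≃ₐ[K] Ω)) := by
  let : TopologicalSpace (𝓞 Ω) := ⊥
  have : DiscreteTopology (𝓞 Ω) := ⟨rfl⟩
  have := cont K Ω
  have e : (Dec K 𝔓 : Set (Ω ≃ₐ[K] Ω)) =
      ⋂ x : 𝓞 Ω, (fun g : Ω ≃ₐ[K] Ω => g • x) ⁻¹' {y | y ∈ 𝔓 ↔ x ∈ 𝔓} := by
    ext g
    simp only [SetLike.mem_coe, mem_dec, Set.mem_iInter, Set.mem_preimage, Set.mem_ofPred_eq]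
  rw [e]
  exact isClosed_iInter fun x =>
    (isClosed_discrete _).preimage (continuous_id.smul continuous_const)

theorem frac [NumberField K] [Algebra.IsIntegral K Ω] {𝔓 : Ideal (𝓞 Ω)} (h : 𝔓.IsMaximal) (t : Ω) :
    ∃ α β : 𝓞 Ω, t * β = α ∧ (β : Ω) ≠ 0 ∧
      (α ∉ 𝔓 ∨ β ∉ 𝔓) ∧ ∀ g : Ω ≃ₐ[K] Ω, g t = t → g • α = α ∧ g • β = β := by
  let F := IntermediateField.adjoin K {t}
  have : FiniteDimensional K F :=
    IntermediateField.adjoin.finiteDimensional (Algebra.IsIntegral.isIntegral t)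
  have : NumberField F := NumberField.of_module_finite K F
  obtain ⟨q, hq⟩ := under' F 𝔓 h
  obtain ⟨n, d, hnd⟩ := q.exists_primeCompl_mul_eq_or_mul_eq (K := F)
    ⟨t, IntermediateField.mem_adjoin_simple_self K t⟩
  have hd : algebraMap (𝓞 F) (𝓞 Ω) d ∉ 𝔓 := fun h' => d.2 ((hq.2 d).2 h')
  have hd0 : ((algebraMap (𝓞 F) (𝓞 Ω) d : 𝓞 Ω) : Ω) ≠ 0 := fun h' =>
    hd (by rw [RingOfIntegers.ext (y := 0) h']; exact zero_mem _)
  have hf : ∀ g : Ω ≃ₐ[K] Ω, g t = t → ∀ x : 𝓞 F,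
      g • algebraMap (𝓞 F) (𝓞 Ω) x = algebraMap (𝓞 F) (𝓞 Ω) x := fun g hg x =>
    RingOfIntegers.ext ((IntermediateField.forall_mem_adjoin_smul_eq_self_iff K (S := {t}) g).2
      (fun y hy => by rw [Set.mem_singleton_iff.1 hy]; exact hg) _ (x : F).2)
  rcases hnd with hnd | hnd
  · exact ⟨algebraMap (𝓞 F) (𝓞 Ω) n, algebraMap (𝓞 F) (𝓞 Ω) d, congrArg Subtype.val hnd, hd0,
      Or.inr hd, fun g hg => ⟨hf g hg _, hf g hg _⟩⟩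
  · have e : t * ((algebraMap (𝓞 F) (𝓞 Ω) n : 𝓞 Ω) : Ω) = (algebraMap (𝓞 F) (𝓞 Ω) d : 𝓞 Ω) :=
      congrArg Subtype.val hnd
    exact ⟨algebraMap (𝓞 F) (𝓞 Ω) d, algebraMap (𝓞 F) (𝓞 Ω) n, e,
      fun h' => hd0 (by rw [← e, h', mul_zero]), Or.inl hd, fun g hg => ⟨hf g hg _, hf g hg _⟩⟩

end PrimeAux

variable {K Ω : Type} [Field K] [NumberField K] [Field Ω] [Algebra K Ω] [IsAlgClosed Ω]
  [IsGalois K Ω] [CharZero Ω]

theorem st_Prime : PrimeSt K Ω where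
  ex F _ _ _ _ _ q := by
    obtain ⟨𝔓, h, e⟩ := Ideal.exists_ideal_over_maximal_of_isIntegral (S := 𝓞 Ω) q.asIdeal
      (by rw [RingOfIntegers.ker_algebraMap_eq_bot]; exact bot_le)
    exact ⟨𝔓, h, fun x => by rw [← e]; rfl⟩
  under F _ _ _ _ _ 𝔓 h := PrimeAux.under' F 𝔓 h
  uniq h h' := IsDedekindDomain.HeightOneSpectrum.ext
    (Ideal.ext fun x => (h.2 x).trans (h'.2 x).symm)
  trans {F} _ _ _ _ _ 𝔓 𝔓' q h h' := by
    have : IsGalois F Ω := IsGalois.tower_top_of_isGalois K F Ω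
    have := h.1.isPrime
    have := h'.1.isPrime
    obtain ⟨g, hg⟩ := PrimeAux.trans' (F := F) 𝔓 𝔓'
      (Ideal.ext fun x => (h.2 x).symm.trans (h'.2 x))
    exact ⟨g.restrictScalars K, fun x => g.commutes x, hg.symm⟩
  mem_smul _ _ _ := Ideal.smul_mem_pointwise_smul_iff
  coe_smul _ _ := rfl
  smul {F} _ _ 𝔓 q g h hg := ⟨PrimeAux.smul_max g h.1, fun x => by
    have e : g • algebraMap (𝓞 F) (𝓞 Ω) x = algebraMap (𝓞 F) (𝓞 Ω) x :=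
      RingOfIntegers.ext (hg (x : F))
    rw [h.2 x, ← Ideal.smul_mem_pointwise_smul_iff (a := g), e]⟩
  smul_max g _ h := PrimeAux.smul_max g h
  below {F F'} _ _ _ _ _ _ _ _ 𝔓 Q h := ⟨h.1, fun x => by
    rw [IsScalarTower.algebraMap_apply (𝓞 F) (𝓞 F') (𝓞 Ω), ← h.2]
    rfl⟩
  two {F} _ _ _ 𝔓 q h := by
    have e1 := h.2 2
    have e2 := og_pos_iff q (x := 2) two_ne_zero
    have e3 := og_nonneg q 2
    rw [map_ofNat] at e1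
    rw [show ((2 : 𝓞 F) : F) = 2 from map_ofNat (algebraMap (𝓞 F) F) 2] at e2 e3
    rw [← e1, ← e2]
    omega
  mem_dec := PrimeAux.mem_dec
  mem_ine _ _ := Iff.rfl
  dec_conj 𝔓 σ g := by
    rw [Dec, Dec, MulAction.mem_stabilizer_iff, MulAction.mem_stabilizer_iff, mul_smul, mul_smul,
      inv_smul_eq_iff]
  ine_conj 𝔓 σ g := by rw [PrimeAux.ine_iff, PrimeAux.ine_iff, PrimeAux.conj]
  fr_conj := PrimeAux.conj
  le 𝔓 := Ideal.inertia_le_stabilizer 𝔓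
  closed := PrimeAux.closed
  frac h t := PrimeAux.frac h t

end Pool.Agent.SC
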