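import Pool.Agent.Lib.MP_b4b3cb_nt.StC

/-! The finite part is quadratic; values on principal ideals. -/

set_option linter.unusedSectionVars false

namespace Pool.Agent.SC

open NumberField Pool.Agent.Stark
open scoped Classical Pointwise

namespace QChiAux

theorem root_int (m : ℕ) : m ≠ 0 → ∀ z : ℤ_[2], z ^ m = 1 → z = 1 ∨ z = -1 := by
  induction m using Nat.strong_induction_on with
  | _ m ih =>
    intro hm z hz
    rcases Nat.even_or_odd' m with ⟨k, rfl | rfl⟩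
    · rw [pow_mul] at hz
      rcases ih k (by omega) (by omega) _ hz with h | h
      · exact sq_eq_one_iff.1 h
      · exfalso
        have h1 := congrArg (PadicInt.toZModPow (p := 2) 2) h
        rw [map_pow, map_neg, map_one] at h1
        have h2 : ∀ y : ZMod (2 ^ 2), y ^ 2 ≠ -1 := by decide
        exact h2 _ h1
    · left
      have h1 := congrArg (PadicInt.toZMod (p := 2)) hz
      rw [map_pow, map_one] at h1
      have h2 : PadicInt.toZMod (p := 2) z = 1 := by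
        have h3 : ∀ y : ZMod 2, y = 0 ∨ y = 1 := by decide
        rcases h3 (PadicInt.toZMod z) with h | h
        · rw [h, zero_pow hm] at h1
          exact absurd h1 (by decide)
        · exact h
      have h4 := mul_geom_sum z (2 * k + 1)
      rw [hz, sub_self, mul_eq_zero] at h4
      rcases h4 with h | h
      · exact sub_eq_zero.1 h
      · exfalso
        have h5 := congrArg (PadicInt.toZMod (p := 2)) h
        rw [map_sum, map_zero] at h5
        simp only [map_pow, h2, one_pow, Finset.sum_const, Finset.card_range, nsmul_eq_mul,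
          mul_one] at h5
        push_cast at h5
        have h6 : (2 : ZMod 2) = 0 := by decide
        rw [h6, zero_mul, zero_add] at h5
        exact absurd h5 (by decide)

theorem root_padic {m : ℕ} (hm : m ≠ 0) {u : ℚ_[2]} (hu : u ^ m = 1) : u = 1 ∨ u = -1 := by
  have h1 : ‖u‖ = 1 := by
    have h := congrArg norm hu
    rw [norm_pow, norm_one] at h
    exact (pow_eq_one_iff_of_nonneg (norm_nonneg u) hm).1 h
  obtain ⟨z, rfl⟩ : ∃ z : ℤ_[2], (z : ℚ_[2]) = u := ⟨⟨u, h1.le⟩, rfl⟩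
  have h2 : z ^ m = 1 := by
    apply PadicInt.ext
    rw [PadicInt.coe_pow, hu, PadicInt.coe_one]
  rcases root_int m hm z h2 with rfl | rfl
  · left
    simp
  · right
    simp

variable {L : Type} [Field L] [NumberField L]

theorem bad_fin (hCn : CnSt) {𝔣 : Ideal (𝓞 L)} (h : 𝔣 ≠ ⊥) :
    ∃ S : Finset (Pr L), ∀ w, w ∈ S ↔ ¬ Gd 𝔣 w := by
  refine ⟨((og_finite (2 : L)).union (hCn.fin h)).toFinset, fun w => ?_⟩
  simp only [Set.Finite.mem_toFinset, Set.mem_union, Set.mem_ofPred_eq, Gd, not_and_or, not_not]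

theorem unit_iff (𝔣 : Ideal (𝓞 L)) (x : 𝓞 L) :
    IsUnit (Ideal.Quotient.mk 𝔣 x) ↔ IsCoprime (Ideal.span {x}) 𝔣 := by
  rw [Ideal.isCoprime_iff_exists]
  constructor
  · intro h
    obtain ⟨y, hy⟩ := h.exists_left_inv
    obtain ⟨y, rfl⟩ := Ideal.Quotient.mk_surjective y
    rw [← map_mul, ← map_one (Ideal.Quotient.mk 𝔣), eq_comm, Ideal.Quotient.eq] at hy
    exact ⟨y * x, Ideal.mem_span_singleton'.2 ⟨y, rfl⟩, 1 - y * x, hy, by ring⟩
  · rintro ⟨i, hi, j, hj, h⟩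
    obtain ⟨y, rfl⟩ := Ideal.mem_span_singleton'.1 hi
    refine IsUnit.of_mul_eq_one (Ideal.Quotient.mk 𝔣 y) ?_
    rw [← map_mul, ← map_one (Ideal.Quotient.mk 𝔣), eq_comm, Ideal.Quotient.eq]
    have : 1 - x * y = j := by rw [← h]; ring
    rwa [this]

theorem iota_pinf {ι : ℂ ≃+* PadicAlgCl 2} {t : (L →+* ℂ) → (L →+* ℚ_[2])}
    {dw : (L →+* ℂ) → Pr L} (hD : DY ι t dw) (a : (L →+* ℂ) → ℤ) (x : L) :
    ι (pinf a x) = algebraMap ℚ_[2] (PadicAlgCl 2) (p2 t a x)⁻¹ := by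
  rw [pinf, p2, ← Finset.prod_inv_distrib, map_prod, map_prod]
  refine Finset.prod_congr rfl fun σ _ => ?_
  rw [map_zpow₀, ← hD.emb, ← zpow_neg, map_zpow₀]

theorem p2_ne (t : (L →+* ℂ) → (L →+* ℚ_[2])) (a : (L →+* ℂ) → ℤ) {x : L} (hx : x ≠ 0) :
    p2 t a x ≠ 0 :=
  Finset.prod_ne_zero_iff.2 fun σ _ => zpow_ne_zero _ ((map_ne_zero (t σ)).2 hx)

theorem span_fac {𝔣 : Ideal (𝓞 L)} {x : 𝓞 L} (hx : x ≠ 0)
    (h : ∀ w, ¬ Gd 𝔣 w → x ∉ w.asIdeal) : ∃ P : Finset (Pr L), (∀ w ∈ P, Gd 𝔣 w) ∧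
      (∀ w ∉ P, og w (x : L) = 0) ∧
      Ideal.span {x} = ∏ w ∈ P, w.asIdeal ^ (og w (x : L)).toNat := by
  have h1 : ∀ w ∉ (og_finite (x : L)).toFinset, og w (x : L) = 0 := fun w hw => by
    simpa using hw
  refine ⟨(og_finite (x : L)).toFinset, fun w hw => ?_, h1, ComplAux.span_eq_prod hx _ h1⟩
  by_contra hg
  have h2 : og w (x : L) ≠ 0 := by simpa using hw
  exact h w hg ((og_pos_iff w hx).1 (lt_of_le_of_ne (og_nonneg w x) h2.symm))

theorem approx (hCn : CnSt) {𝔣 : Ideal (𝓞 L)} (h : 𝔣 ≠ ⊥) {x : 𝓞 L}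
    (hx : IsCoprime (Ideal.span {x}) 𝔣) :
    ∃ y : 𝓞 L, y ≠ 0 ∧ y - x ∈ 𝔣 ∧ ∀ w, ¬ Gd 𝔣 w → y ∉ w.asIdeal := by
  obtain ⟨S, hS⟩ := bad_fin hCn h
  obtain ⟨y, hy0, hy⟩ := hCn.crt S (fun w => if 𝔣 ≤ w.asIdeal then x else 1) (S.sup (cn 𝔣) + 1)
  refine ⟨y, hy0, (hCn.mem h _).2 fun w => ?_, fun w hw hyw => ?_⟩
  · by_cases hw : 𝔣 ≤ w.asIdeal
    · have h1 : w ∈ S := (hS w).2 fun hg => hg.2 hw
      have h2 := hy w h1
      rw [if_pos hw] at h2
      exact Ideal.pow_le_pow_right ((Finset.le_sup (f := cn 𝔣) h1).trans (Nat.le_succ _)) h2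
    · rw [(hCn.zero h w).2 hw]
      simp
  · have h2 := Ideal.pow_le_self (Nat.succ_ne_zero _) (hy w ((hS w).2 hw))
    have h3 := w.asIdeal.sub_mem hyw h2
    rw [sub_sub_cancel] at h3
    split_ifs at h3 with h4
    · exact (hCn.cop_span x h).1 hx w h4 h3
    · exact w.isPrime.ne_top ((Ideal.eq_top_iff_one _).2 h3)

theorem chi_val (hCn : CnSt) {𝔣 : Ideal (𝓞 L)} (h : 𝔣 ≠ ⊥) {a : (L →+* ℂ) → ℤ}
    {ψ : Ideal (𝓞 L) →* ℂ} {χ : MulChar (𝓞 L ⧸ 𝔣) ℂ}
    (hp : ∀ x : 𝓞 L, x ≠ 0 → ψ (Ideal.span {x}) = χ (Ideal.Quotient.mk 𝔣 x) * pinf a (x : L))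
    {ι : ℂ ≃+* PadicAlgCl 2} {t : (L →+* ℂ) → (L →+* ℚ_[2])} {dw : (L →+* ℂ) → Pr L}
    (hD : DY ι t dw)
    (hr : ∀ w : Pr L, Gd 𝔣 w → ι (ψ w.asIdeal) ∈ (algebraMap ℚ_[2] (PadicAlgCl 2)).range)
    {x : 𝓞 L} (hx : IsUnit (Ideal.Quotient.mk 𝔣 x)) :
    χ (Ideal.Quotient.mk 𝔣 x) = 1 ∨ χ (Ideal.Quotient.mk 𝔣 x) = -1 := by
  obtain ⟨y, hy0, hy, hyw⟩ := approx hCn h ((unit_iff 𝔣 x).1 hx)
  have hxy : Ideal.Quotient.mk 𝔣 y = Ideal.Quotient.mk 𝔣 x := Ideal.Quotient.eq.2 hy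
  obtain ⟨P, hP, -, hs⟩ := span_fac hy0 hyw
  have h1 : ι (ψ (Ideal.span {y})) ∈ (algebraMap ℚ_[2] (PadicAlgCl 2)).range := by
    rw [hs, map_prod, map_prod]
    refine prod_mem fun w hw => ?_
    rw [map_pow, map_pow]
    exact pow_mem (hr w (hP w hw)) _
  obtain ⟨u, hu⟩ := h1
  have hy1 : (y : L) ≠ 0 := by simpa using hy0
  have h2 : ι (χ (Ideal.Quotient.mk 𝔣 x)) =
      algebraMap ℚ_[2] (PadicAlgCl 2) (u * p2 t a (y : L)) := by
    rw [map_mul, hu, hp y hy0, map_mul, iota_pinf hD, hxy, mul_assoc, ← map_mul,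
      inv_mul_cancel₀ (p2_ne t a hy1), map_one, mul_one]
  have : Finite (𝓞 L ⧸ 𝔣) := Ideal.finiteQuotientOfFreeOfNeBot 𝔣 h
  obtain ⟨v, hv⟩ := hx
  have h3 : χ (Ideal.Quotient.mk 𝔣 x) ^ Nat.card (𝓞 L ⧸ 𝔣)ˣ = 1 := by
    rw [← map_pow, ← hv, ← Units.val_pow_eq_pow_val, pow_card_eq_one', Units.val_one, map_one]
  have h4 : (u * p2 t a (y : L)) ^ Nat.card (𝓞 L ⧸ 𝔣)ˣ = 1 := by
    apply (algebraMap ℚ_[2] (PadicAlgCl 2)).injective
    rw [map_pow, ← h2, ← map_pow, h3, map_one, map_one]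
  rcases root_padic Nat.card_pos.ne' h4 with h5 | h5
  · left
    apply ι.injective
    rw [h2, h5, map_one, map_one]
  · right
    apply ι.injective
    rw [h2, h5, map_neg, map_neg, map_one, map_one]

theorem av_eq (fr : Pr L → ℤ_[2]ˣ) (x : L) (P : Finset (Pr L)) (hP : ∀ w ∉ P, og w x = 0) :
    av fr x = ∏ w ∈ P, fr w ^ og w x :=
  finprod_eq_prod_of_mulSupport_subset _ fun w hw => by_contra fun h => hw (by simp [hP w h])

theorem cop_pr {𝔣 : Ideal (𝓞 L)} {w : Pr L} (h : ¬ 𝔣 ≤ w.asIdeal) : IsCoprime w.asIdeal 𝔣 := by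
  rw [Ideal.isCoprime_iff_sup_eq]
  exact w.isMaximal.out.2 _ (left_lt_sup.2 h)

end QChiAux

open QChiAux

variable {K L Ω : Type} [Field K] [NumberField K] [Field L] [NumberField L] [Algebra K L]
  [Field Ω] [Algebra K Ω] [Algebra L Ω] [IsScalarTower K L Ω] [IsAlgClosed Ω] [IsGalois K Ω]
  [CharZero Ω]

theorem st_QChi (hCn : CnSt) : QChiSt K L := by
  intro d E 𝔣 a ψ ι t dw hH hcm hdual hD hr
  obtain ⟨hne, χ₀, hprim, hp⟩ := hH
  have hv : ∀ x : 𝓞 L, χ₀ (Ideal.Quotient.mk 𝔣 x) = 0 ∨ χ₀ (Ideal.Quotient.mk 𝔣 x) = 1 ∨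
      χ₀ (Ideal.Quotient.mk 𝔣 x) = -1 := fun x => by
    by_cases hx : IsUnit (Ideal.Quotient.mk 𝔣 x)
    · exact Or.inr (chi_val hCn hne hp hD hr hx)
    · exact Or.inl (χ₀.map_nonunit hx)
  have hex : ∀ x : 𝓞 L, ∃ n : ℤ, (n : ℂ) = χ₀ (Ideal.Quotient.mk 𝔣 x) := fun x => by
    rcases hv x with h | h | h
    · exact ⟨0, by simp [h]⟩
    · exact ⟨1, by simp [h]⟩
    · exact ⟨-1, by simp [h]⟩
  choose χ hχ using hex
  refine ⟨χ, hcm, hne, fun x y => ?_, ?_, fun x y hxy => ?_, fun x => ?_, fun x => ?_,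
    fun 𝔤 h𝔤 => ?_, fun x hx => ?_, hdual⟩
  · apply Int.cast_injective (α := ℂ)
    rw [Int.cast_mul, hχ, hχ, hχ, map_mul, map_mul]
  · apply Int.cast_injective (α := ℂ)
    rw [hχ, map_one, map_one, Int.cast_one]
  · apply Int.cast_injective (α := ℂ)
    rw [hχ, hχ, Ideal.Quotient.eq.2 hxy]
  · have h := hv x
    rw [← hχ] at h
    exact_mod_cast h
  · rw [← unit_iff]
    constructor
    · intro h
      by_contra hx
      apply h
      apply Int.cast_injective (α := ℂ)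
      rw [hχ, χ₀.map_nonunit hx, Int.cast_zero]
    · intro hx h
      have h1 := (hx.map χ₀).ne_zero
      rw [← hχ, h, Int.cast_zero] at h1
      exact h1 rfl
  · obtain ⟨x, hx, hu, h1⟩ := hprim 𝔤 h𝔤
    refine ⟨x, hx, ?_⟩
    apply Int.cast_injective (α := ℂ)
    rw [hχ, (chi_val hCn hne hp hD hr hu).resolve_left h1, Int.cast_neg, Int.cast_one]
  · rw [hχ]
    exact hp x hx

theorem st_Av (hCn : CnSt) (hQ : QdSt K L) (hCm : CmSt K L) (hH : HDSt K L) : AvSt K L Ω where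
  mul := fun fr x y hx hy => by
    let P := ((og_finite x).union (og_finite y)).toFinset
    have h1 : ∀ w ∉ P, og w x = 0 := fun w hw => by_contra fun h => hw (by simp [P, h])
    have h2 : ∀ w ∉ P, og w y = 0 := fun w hw => by_contra fun h => hw (by simp [P, h])
    have h3 : ∀ w : Pr L, og w (x * y) = og w x + og w y := fun w => ord_mul hx hy
    rw [av_eq fr x P h1, av_eq fr y P h2,
      av_eq fr (x * y) P fun w hw => by rw [h3, h1 w hw, h2 w hw, add_zero],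
      ← Finset.prod_mul_distrib]
    exact Finset.prod_congr rfl fun w _ => by rw [h3, zpow_add]
  bad := fun {ι 𝔣 ψ ρ fr} hA x hx => by
    refine finprod_eq_one_of_forall_eq_one fun w => ?_
    by_cases hw : Gd 𝔣 w
    · rw [hx w hw, zpow_zero]
    · rw [hA.bad w hw, one_zpow]
  fin := fun h => bad_fin hCn h
  prin := fun {d E 𝔣 a ψ χ ι t dw ρ fr} hD hY hA x hx hw => by
    obtain ⟨P, hP, h0, hs⟩ := span_fac hx hw
    have hx1 : (x : L) ≠ 0 := by simpa using hx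
    have h1 : ι (ψ (Ideal.span {x})) *
        algebraMap ℚ_[2] (PadicAlgCl 2) ((av fr (x : L) : ℤ_[2]) : ℚ_[2]) = 1 := by
      have h2 : av fr (x : L) = ∏ w ∈ P, fr w ^ (og w (x : L)).toNat := by
        rw [av_eq fr _ P h0]
        refine Finset.prod_congr rfl fun w _ => ?_
        rw [← zpow_natCast, Int.toNat_of_nonneg (og_nonneg w x)]
      have h3 : ((av fr (x : L) : ℤ_[2]) : ℚ_[2]) =
          ∏ w ∈ P, ((fr w : ℤ_[2]) : ℚ_[2]) ^ (og w (x : L)).toNat := by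
        rw [h2, Units.coe_prod]
        change PadicInt.Coe.ringHom _ = _
        rw [map_prod]
        refine Finset.prod_congr rfl fun w _ => ?_
        rw [Units.val_pow_eq_pow_val, map_pow]
        rfl
      rw [h3, hs, map_prod, map_prod, map_prod, ← Finset.prod_mul_distrib]
      refine Finset.prod_eq_one fun w hw => ?_
      rw [map_pow, map_pow, map_pow, ← mul_pow, hA.link w (hP w hw), one_pow]
    rw [hD.prin x hx, map_mul, iota_pinf hY, map_intCast,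
      ← map_intCast (algebraMap ℚ_[2] (PadicAlgCl 2)), ← map_mul, ← map_mul,
      ← map_one (algebraMap ℚ_[2] (PadicAlgCl 2))] at h1
    have h4 := (algebraMap ℚ_[2] (PadicAlgCl 2)).injective h1
    have h5 := p2_ne t a hx1
    rcases hD.val x with h | h | h
    · rw [h] at h4
      simp at h4
    · rw [h] at h4 ⊢
      field_simp at h4
      push_cast at h4 ⊢
      linear_combination h4
    · rw [h] at h4 ⊢
      field_simp at h4
      push_cast at h4 ⊢
      linear_combination -h4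
  dual := fun {d E 𝔣 a ψ χ ι ρ fr} hD hA w hw => by
    have h1 := hA.link w hw
    have h2 := hA.link (E.act w) ((hH.act hD w).2.2.2 hw)
    have h3 := congrArg ι (hD.dual w.asIdeal w.ne_bot (cop_pr hw.2))
    rw [← hQ.act_ideal, map_mul, map_mul, map_natCast, map_one] at h3
    apply Subtype.ext
    apply (algebraMap ℚ_[2] (PadicAlgCl 2)).injective
    rw [PadicInt.coe_mul, PadicInt.coe_natCast, map_mul, map_natCast]
    linear_combination
      (-(algebraMap ℚ_[2] (PadicAlgCl 2) ((fr w : ℤ_[2]) : ℚ_[2]) *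
        algebraMap ℚ_[2] (PadicAlgCl 2) ((fr (E.act w) : ℤ_[2]) : ℚ_[2]))) * h3 +
      (Ideal.absNorm w.asIdeal : PadicAlgCl 2) * (ι (ψ (E.act w).asIdeal) *
        algebraMap ℚ_[2] (PadicAlgCl 2) ((fr (E.act w) : ℤ_[2]) : ℚ_[2])) * h1 +
      (Ideal.absNorm w.asIdeal : PadicAlgCl 2) * h2
  ne := fun {d E 𝔣 a ψ χ ι ρ fr} hD hA w hw h => by
    have h1 := hA.link w hw
    rw [h, Units.val_one, PadicInt.coe_one, map_one, mul_one, ← map_one ι] at h1
    have h2 := hH.norm hD w.asIdeal w.ne_bot (cop_pr hw.2)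
    rw [ι.injective h1, norm_one, one_pow, one_mul] at h2
    exact w.isPrime.ne_top (Ideal.absNorm_eq_one_iff.1 (by exact_mod_cast h2))
  neg := fun {ι 𝔣 ψ ρ fr} hA w hw n hn => by
    have h1 := hA.link w hw
    rw [hn, PadicInt.coe_neg, PadicInt.coe_natCast, map_neg, map_natCast, ← map_natCast ι,
      ← map_neg, ← map_mul, ← map_one ι] at h1
    have h2 := ι.injective h1
    have h3 : n ≠ 0 := by
      rintro rfl
      simp at h2
    have h4 : (n : ℂ) ≠ 0 := by exact_mod_cast h3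
    refine ⟨(n : ℝ)⁻¹, inv_pos.2 (by exact_mod_cast Nat.pos_of_ne_zero h3), ?_⟩
    push_cast
    field_simp
    linear_combination -h2
  wt := fun {d E a ι t dw} hcm hY x hx h => by
    have h1 : pinf a (x : L) ^ 2 = 1 := by
      apply ι.injective
      rw [map_pow, iota_pinf hY, ← map_pow, inv_pow, h, inv_one, map_one, map_one]
    have h2 := (hCm.pinf_tau hcm x hx).2
    rw [← norm_pow, h1, norm_one, one_mul] at h2
    exact_mod_cast h2

end Pool.Agent.SC
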