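import Pool.Agent.Lib.MP_b4b3cb_nt.StF

/-! Primes and traces in a quadratic extension. -/

namespace Pool.Agent.SC

open NumberField Pool.Agent.Stark
open scoped Classical ComplexConjugate

variable {K L : Type} [Field K] [NumberField K] [Field L] [NumberField L] [Algebra K L]

namespace QdAux

variable {d : K}

omit [NumberField K] [NumberField L] in
theorem sg_sg (E : Quad K L d) (x : 𝓞 L) : E.sg (E.sg x) = x :=
  RingOfIntegers.ext (E.tau_tau x)

omit [NumberField K] [NumberField L] in
theorem mem_map (E : Quad K L d) (𝔪 : Ideal (𝓞 L)) (x : 𝓞 L) :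
    x ∈ 𝔪.map E.sg ↔ E.sg x ∈ 𝔪 := by
  rw [Ideal.mem_map_of_equiv]
  refine ⟨?_, fun h => ⟨_, h, sg_sg E x⟩⟩
  rintro ⟨y, hy, rfl⟩
  rwa [sg_sg]

omit [NumberField K] [NumberField L] in
theorem map_map (E : Quad K L d) (𝔪 : Ideal (𝓞 L)) : (𝔪.map E.sg).map E.sg = 𝔪 := by
  ext x
  rw [mem_map, mem_map, sg_sg]

omit [NumberField K] [NumberField L] in
theorem map_ne (E : Quad K L d) {𝔪 : Ideal (𝓞 L)} (h : 𝔪 ≠ ⊥) : 𝔪.map E.sg ≠ ⊥ := fun h0 =>
  h (by rw [← map_map E 𝔪, h0, Ideal.map_bot])

theorem exists_one {F : Type} [Field F] [NumberField F] (w : Pr F) :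
    ∃ x : F, x ≠ 0 ∧ og w x = 1 := by
  obtain ⟨x, hx⟩ := w.valuation_exists_uniformizer F
  refine ⟨x, ?_, ?_⟩
  · rintro rfl
    rw [map_zero] at hx
    exact WithZero.exp_ne_zero hx.symm
  · rw [og, ord, hx, WithZero.log_exp, neg_neg]

theorem eI_act (E : Quad K L d) (w : Pr L) : eI K (E.act w) = eI K w := by
  obtain ⟨t, -, ht⟩ := exists_one (below K w)
  have h1 := og_algebraMap (E.act w) t
  have h2 := og_algebraMap w t
  rw [E.og_act, AlgEquiv.commutes, E.below_act, h2, ht] at h1
  exact_mod_cast (by simpa using h1.symm : (eI K (E.act w) : ℤ) = eI K w)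

theorem ram (E : Quad K L d) (w : Pr L) (h2 : og (below K w) (2 : K) = 0) :
    eI K w = 2 ↔ Odd (og (below K w) d) := by
  refine ⟨fun he => ?_, fun ho => ?_⟩
  · by_contra hn
    rw [Int.not_odd_iff_even] at hn
    have hw : E.act w = w := by
      rcases E.efg w with h | h | h
      · omega
      · exact h.1
      · exact h.1
    have hs0 : ¬ IsSquare (emb (below K w) d) := fun h => (E.split_iff w).2 h hw
    have d0 : emb (below K w) d ≠ 0 := (map_ne_zero _).2 E.a_ne
    have hu : Unr (wv (below K w)) (emb (below K w) d) :=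
      (isLoc_wv _).unr_of_odd (by rw [← map_ofNat (emb (below K w)) 2, ord_emb, h2]) d0
        (by rwa [ord_emb])
    obtain ⟨x, x0, hx⟩ := exists_one w
    obtain ⟨g, h, rfl⟩ := E.span x
    have hy : g ^ 2 - d * h ^ 2 ≠ 0 := E.norm_ne (by
      by_contra! hc
      exact x0 (by simp [hc.1, hc.2]))
    have h3 := (E.og_norm w hy).2.2
    rw [← E.og_act, hw, hx, he] at h3
    have h4 : og (below K w) (g ^ 2 - d * h ^ 2) = 1 := by
      push_cast at h3
      omega
    have h5 := (isLoc_wv (below K w)).hs_of_unr d0 hu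
      ((map_ne_zero (emb (below K w))).2 hy)
    rw [if_neg hs0, ord_emb, h4, map_sub, map_mul, map_pow, map_pow, hs_norm] at h5
    exact absurd h5 (by decide)
  · have h3 := og_algebraMap w d
    rw [← E.sq, og, ord_pow] at h3
    rcases E.efg w with h | h | h
    · rw [h.2.1] at h3
      obtain ⟨k, hk⟩ := ho
      push_cast at h3
      omega
    · rw [h.2.1] at h3
      obtain ⟨k, hk⟩ := ho
      push_cast at h3
      omega
    · exact h.2.1

theorem tr (E : Quad K L d) (g h : K) :
    eTr (algebraMap K L g + algebraMap K L h * E.rt) = eTr (2 * g) := by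
  have : Module.Finite K L := Module.Finite.of_basis E.basis
  have h1 : Algebra.trace K L E.rt = 0 := by
    have h2 := Algebra.trace_eq_of_algEquiv E.tau E.rt
    rw [E.tau_rt, map_neg] at h2
    linear_combination (-1 / 2 : K) * h2
  have h3 : Algebra.trace K L (algebraMap K L g + algebraMap K L h * E.rt) = 2 * g := by
    rw [map_add, Algebra.trace_algebraMap, E.finrank_eq, ← Algebra.smul_def, map_smul, h1]
    simp
  rw [eTr, eTr, ← Algebra.trace_trace (S := K), h3]

end QdAux

open QdAux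

theorem st_Qd (hC : CnSt) : QdSt K L where
  sg_sg := sg_sg
  act_act := fun E w => E.act_act w
  below_act := fun E w => E.below_act w
  act_ideal := fun E w => by
    ext x
    rw [mem_map, E.mem_act]
  mem_map := mem_map
  map_ne := map_ne
  map_map := map_map
  norm_map := fun E 𝔪 => by
    rw [Ideal.absNorm_apply, Ideal.absNorm_apply, Submodule.cardQuot_apply,
      Submodule.cardQuot_apply]
    exact (Nat.card_congr (Ideal.quotientEquiv 𝔪 (𝔪.map E.sg) E.sg rfl).toEquiv).symm
  cn_act := fun E 𝔪 h w => by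
    refine eq_of_forall_le_iff fun n => ?_
    rw [← hC.le_pow (map_ne E h), ← hC.le_pow h]
    refine ⟨fun h1 x hx => ?_, fun h1 x hx => ?_⟩
    · have h2 := h1 ((mem_map E 𝔪 (E.sg x)).2 (by rwa [sg_sg]))
      rwa [E.mem_act_pow, sg_sg] at h2
    · exact (E.mem_act_pow n).2 (h1 ((mem_map E 𝔪 x).1 hx))
  eI_act := eI_act
  two := fun w => by
    have h := og_algebraMap (F := K) w 2
    have h0 := SplitAux.eI_pos (F := K) w
    rw [map_ofNat] at h
    rw [h, mul_eq_zero, or_iff_right (by exact_mod_cast h0.ne')]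
  ram := ram
  mem_below := fun _ _ => Iff.rfl
  pow_below := fun w x n hx => by
    have h1 := Ideal.mem_map_of_mem (algebraMap (𝓞 K) (𝓞 L)) hx
    rw [Ideal.map_pow] at h1
    exact Ideal.pow_right_mono Ideal.map_comap_le n h1
  tr := tr
  tr_tau := fun E z => by
    obtain ⟨g, h, rfl⟩ := E.span z
    rw [E.tau_mk, tr, sub_eq_add_neg, ← neg_mul, ← map_neg, tr]
  tr_int := fun E y => by
    obtain ⟨g, h, e⟩ := E.span (y : L)
    have h1 : ((y + E.sg y : 𝓞 L) : L) = algebraMap K L (2 * g) := by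
      rw [← E.add_tau_mk g h, ← e]
      rfl
    have h2 : IsIntegral ℤ (2 * g) := by
      rw [← isIntegral_algebraMap_iff (algebraMap K L).injective, ← h1]
      exact RingOfIntegers.isIntegral_coe _
    refine ⟨⟨2 * g, h2⟩, RingOfIntegers.ext h1.symm, fun γ => ?_⟩
    rw [e, mul_add, ← mul_assoc, ← map_mul, ← map_mul, tr]
    congr 1
    change 2 * (γ * g) = γ * (2 * g)
    ring

end Pool.Agent.SC
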