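import Pool.Agent.Lib.MP_b4b3cb_nt.StG

/-! A class split by a quadratic extension is a symbol. -/

namespace Pool.Agent.SC

open NumberField Pool.Agent.Stark
open scoped Classical Pointwise Topology

namespace QuadAux

theorem lc_const {X Y : Type} [TopologicalSpace X] (D : Set X) (y : Y) : LC D fun _ => y :=
  fun _ _ => .of_forall fun _ => rfl

theorem lc_ite {X Y : Type} [TopologicalSpace X] {D : Set X} {p : X → Prop} {f f' : X → Y}
    (hp : LC D p) (h : LC {x | x ∈ D ∧ p x} f) (h' : LC {x | x ∈ D ∧ ¬ p x} f') :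
    LC D fun x => if p x then f x else f' x := by
  intro g hg
  by_cases e : p g
  · filter_upwards [hp g hg, self_mem_nhdsWithin, nhdsWithin_le_nhds
      (eventually_nhdsWithin_iff.1 (h g ⟨hg, e⟩))] with x a b c
    rw [if_pos e, if_pos (a ▸ e), c ⟨b, a ▸ e⟩]
  · filter_upwards [hp g hg, self_mem_nhdsWithin, nhdsWithin_le_nhds
      (eventually_nhdsWithin_iff.1 (h' g ⟨hg, e⟩))] with x a b c
    rw [if_neg e, if_neg (a ▸ e), c ⟨b, a ▸ e⟩]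

variable {K Ω : Type} [Field K] [Field Ω] [Algebra K Ω] {H N : Subgroup (Ω ≃ₐ[K] Ω)}
  {c e : (Ω ≃ₐ[K] Ω) → (Ω ≃ₐ[K] Ω) → Ω} {φ : (Ω ≃ₐ[K] Ω) → Ω} {σ : Ω ≃ₐ[K] Ω}

/-- Change of a cocycle by a coboundary. -/
noncomputable def tw (c : (Ω ≃ₐ[K] Ω) → (Ω ≃ₐ[K] Ω) → Ω) (φ : (Ω ≃ₐ[K] Ω) → Ω)
    (g h : Ω ≃ₐ[K] Ω) : Ω := c g h * φ (g * h) / (φ g * g (φ h))

theorem tw_coc (hS : SzSt) (hT : TopSt K Ω) (hc : Coc2 H c) (h1 : LC (H : Set _) φ)
    (h2 : ∀ g ∈ H, φ g ≠ 0) : Coc2 H (tw c φ) := by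
  refine ⟨fun g hg h hh => div_ne_zero (mul_ne_zero (hc.1 g hg h hh) (h2 _ (mul_mem hg hh)))
    (mul_ne_zero (h2 g hg) ((map_ne_zero g).2 (h2 h hh))), ?_, fun g hg h hh k hk => ?_⟩
  · exact hS.lc_two (· / ·) (hS.lc_two (· * ·) hc.2.1 (hS.lc_pull h1
      (continuous_fst.mul continuous_snd).continuousOn fun p hp => mul_mem hp.1 hp.2))
      (hS.lc_two (· * ·) (hS.lc_pull h1 continuousOn_fst fun p hp => hp.1)
        (hT.lc_app continuousOn_fst (hS.lc_pull h1 continuousOn_snd fun p hp => hp.2)))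
  · have a := hc.2.2 g hg h hh k hk
    have b1 := h2 g hg
    have b2 := (map_ne_zero g).2 (h2 h hh)
    have b3 := (map_ne_zero g).2 ((map_ne_zero h).2 (h2 k hk))
    have b4 := h2 _ (mul_mem hg hh)
    have b5 := (map_ne_zero g).2 (h2 _ (mul_mem hh hk))
    simp only [tw, map_div₀, map_mul, mul_assoc g h k, AlgEquiv.mul_apply]
    field_simp
    linear_combination φ (g * (h * k)) * a

theorem tw_spl (hS : SzSt) (h1 : LC (H : Set _) φ) (h2 : ∀ g ∈ H, φ g ≠ 0)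
    (h : Spl H (tw c φ * e)) : Spl H (c * e) := by
  obtain ⟨β, a1, a2, a3⟩ := h
  refine ⟨fun g => β g * φ g, hS.lc_two (· * ·) a1 h1, fun g hg => mul_ne_zero (a2 g hg) (h2 g hg),
    fun g hg h hh => ?_⟩
  have a := a3 g hg h hh
  have b1 := h2 g hg
  have b2 := (map_ne_zero g).2 (h2 h hh)
  simp only [tw, Pi.mul_apply, map_mul] at a ⊢
  field_simp at a
  linear_combination a

theorem tw_one {g h : Ω ≃ₐ[K] Ω} (h1 : φ g ≠ 0) (h2 : φ h ≠ 0)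
    (a : c g h * φ (g * h) = φ g * g (φ h)) : tw c φ g h = 1 := by
  rw [tw, a, div_self (mul_ne_zero h1 ((map_ne_zero g).2 h2))]

/-- A subgroup of index two. -/
structure Ix (H N : Subgroup (Ω ≃ₐ[K] Ω)) (σ : Ω ≃ₐ[K] Ω) : Prop where
  le : N ≤ H
  two : ∀ g ∈ H, ∀ h ∈ H, g ∉ N → h ∉ N → g * h ∈ N
  lc : LC (H : Set (Ω ≃ₐ[K] Ω)) fun g => g ∈ N
  mem : σ ∈ H
  nm : σ ∉ N

theorem Ix.right (i : Ix H N σ) {g : Ω ≃ₐ[K] Ω} (h : g ∈ H) (h' : g ∉ N) : g * σ⁻¹ ∈ N :=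
  i.two g h _ (inv_mem i.mem) h' fun a => i.nm (inv_mem_iff.1 a)

theorem Ix.left (i : Ix H N σ) {g : Ω ≃ₐ[K] Ω} (h : g ∈ H) (h' : g ∉ N) : σ⁻¹ * g ∈ N :=
  i.two _ (inv_mem i.mem) g h (fun a => i.nm (inv_mem_iff.1 a)) h'

theorem Ix.ite (hS : SzSt) (i : Ix H N σ) {f f' : (Ω ≃ₐ[K] Ω) → Ω} (h : LC (N : Set _) f)
    (h' : LC (N : Set _) f') : LC (H : Set _) fun g => if g ∈ N then f g else f' (g * σ⁻¹) :=
  lc_ite i.lc (hS.lc_mono h fun _ a => a.2) (hS.lc_pull h' (by fun_prop)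
    fun _ a => i.right a.1 a.2)

theorem step1 (hS : SzSt) (i : Ix H N σ) (hc : Coc2 H c) (h : Spl N c) : ∃ φ : (Ω ≃ₐ[K] Ω) → Ω,
    LC (H : Set _) φ ∧ (∀ g ∈ H, φ g ≠ 0) ∧ ∀ n ∈ N, ∀ g ∈ H, tw c φ n g = 1 := by
  obtain ⟨β, a1, a2, a3⟩ := h
  have z : ∀ g ∈ H, (if g ∈ N then β g else β (g * σ⁻¹) / c (g * σ⁻¹) σ) ≠ 0 := fun g hg => by
    split_ifs with e
    · exact a2 g e
    · exact div_ne_zero (a2 _ (i.right hg e)) (hc.1 _ (i.le (i.right hg e)) _ i.mem)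
  refine ⟨fun g => if g ∈ N then β g else β (g * σ⁻¹) / c (g * σ⁻¹) σ,
    i.ite hS (f' := fun n => β n / c n σ) a1 (hS.lc_two (· / ·) a1 (hS.lc_pull
      (φ := fun n => (n, σ)) hc.2.1 (by fun_prop) fun n hn => ⟨i.le hn, i.mem⟩)), z,
    fun n hn g hg => tw_one (z n (i.le hn)) (z g hg) ?_⟩
  by_cases e : g ∈ N
  · simpa only [e, hn, mul_mem hn e, if_true] using a3 n hn g e
  · have m := i.right hg e
    have b := a3 n hn _ m
    have d := hc.2.2 n (i.le hn) _ (i.le m) σ i.mem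
    have d1 := hc.1 _ (i.le (mul_mem hn m)) σ i.mem
    have d2 := (map_ne_zero n).2 (hc.1 _ (i.le m) σ i.mem)
    rw [inv_mul_cancel_right] at d
    simp only [e, hn, N.mul_mem_cancel_left hn, if_true, if_false, mul_assoc n g, map_div₀]
    field_simp
    linear_combination β (n * (g * σ⁻¹)) * d + c (n * (g * σ⁻¹)) σ * b

theorem coc_left (i : Ix H N σ) (hc : Coc2 H c) (h1 : ∀ n ∈ N, ∀ g ∈ H, c n g = 1)
    {n g h : Ω ≃ₐ[K] Ω} (hn : n ∈ N) (hg : g ∈ H) (hh : h ∈ H) : c (n * g) h = n (c g h) := by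
  simpa only [h1 n hn _ hg, h1 n hn _ (mul_mem hg hh), mul_one] using
    (hc.2.2 n (i.le hn) g hg h hh).symm

theorem step2 (hS : SzSt) (hT : TopSt K Ω) (hK : KumSt K Ω) (i : Ix H N σ)
    (hN : IsClosed (N : Set (Ω ≃ₐ[K] Ω))) (hc : Coc2 H c) (h1 : ∀ n ∈ N, ∀ g ∈ H, c n g = 1) :
    ∃ φ : (Ω ≃ₐ[K] Ω) → Ω, LC (H : Set _) φ ∧ (∀ g ∈ H, φ g ≠ 0) ∧
      (∀ n ∈ N, ∀ g ∈ H, tw c φ n g = 1) ∧ ∀ g ∈ H, ∀ n ∈ N, tw c φ g n = 1 := by
  have cj : ∀ n ∈ N, σ⁻¹ * (n * σ) ∈ N := fun n hn =>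
    i.left (mul_mem (i.le hn) i.mem) fun a => i.nm ((N.mul_mem_cancel_left hn).1 a)
  obtain ⟨b, b1, b2⟩ := hK.h90 N (fun n => c σ (σ⁻¹ * (n * σ))) hN
    (hS.lc_pull (φ := fun n => (σ, σ⁻¹ * (n * σ))) hc.2.1 (by fun_prop)
      fun n hn => ⟨i.mem, i.le (cj n hn)⟩)
    (fun n hn => hc.1 _ i.mem _ (i.le (cj n hn))) fun n hn m hm => by
      have := hc.2.2 σ i.mem _ (i.le (cj n hn)) _ (i.le (cj m hm))
      rw [h1 _ (cj n hn) _ (i.le (cj m hm)), map_one, one_mul, mul_inv_cancel_left,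
        coc_left i hc h1 hn i.mem (i.le (cj m hm)), mul_comm (n _)] at this
      rw [← this]
      congr 1
      group
  have z : ∀ g ∈ H, (if g ∈ N then 1 else (g * σ⁻¹) b⁻¹) ≠ 0 := fun g _ => by
    split_ifs
    exacts [one_ne_zero, (map_ne_zero _).2 (inv_ne_zero b1)]
  have k : ∀ n ∈ N, ∀ g ∈ H, tw c (fun g => if g ∈ N then 1 else (g * σ⁻¹) b⁻¹) n g = 1 :=
    fun n hn g hg => tw_one (z n (i.le hn)) (z g hg) (by
      by_cases e : g ∈ N <;>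
        simp only [e, hn, N.mul_mem_cancel_left hn, if_true, if_false, h1 n hn g hg, one_mul,
          map_one, mul_assoc n g, AlgEquiv.mul_apply n])
  refine ⟨fun g => if g ∈ N then 1 else (g * σ⁻¹) b⁻¹, i.ite hS (f' := fun n => n b⁻¹)
    (lc_const _ _) (hT.lc_app continuousOn_id (lc_const _ _)), z, k, fun g hg n hn => ?_⟩
  by_cases e : g ∈ N
  · exact k g e n (i.le hn)
  refine tw_one (z g hg) (z n (i.le hn)) ?_
  have m := i.right hg e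
  have m' : σ * n * σ⁻¹ ∈ N :=
    i.right (mul_mem i.mem (i.le hn)) fun a => i.nm ((N.mul_mem_cancel_right hn).1 a)
  have d := b2 _ m'
  have d1 := coc_left i hc h1 m i.mem (i.le hn)
  have d2 : g * n * σ⁻¹ = g * σ⁻¹ * (σ * n * σ⁻¹) := by group
  have d3 := hc.1 σ i.mem n (i.le hn)
  rw [inv_mul_cancel_right, inv_mul_cancel_left] at d
  rw [inv_mul_cancel_right] at d1
  simp only [e, hn, N.mul_mem_cancel_right hn, if_true, if_false, map_one, mul_one, d1, d2]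
  rw [AlgEquiv.mul_apply _ (σ * n * σ⁻¹), ← map_mul, map_inv₀ (σ * n * σ⁻¹), d]
  congr 1
  field_simp

theorem shape (i : Ix H N σ) (hc : Coc2 H c) (h1 : ∀ n ∈ N, ∀ g ∈ H, c n g = 1)
    (h2 : ∀ g ∈ H, ∀ n ∈ N, c g n = 1) :
    (∀ g ∈ H, ∀ h ∈ H, g ∉ N → h ∉ N → c g h = c σ σ) ∧ Fix H (c σ σ) := by
  have a : ∀ g ∈ H, ∀ h ∈ H, h ∉ N → c g h = c g σ := fun g hg h hh e => by
    have m := i.left hh e
    simpa only [h2 σ i.mem _ m, h2 _ (mul_mem hg i.mem) _ m, map_one, one_mul,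
      mul_inv_cancel_left] using hc.2.2 g hg σ i.mem _ (i.le m)
  have b : ∀ g ∈ H, g ∉ N → c g σ = c σ σ := fun g hg e => by
    have m := i.left hg e
    have := hc.2.2 σ i.mem _ (i.le m) σ i.mem
    rw [h1 _ m σ i.mem, h2 σ i.mem _ m, map_one, one_mul, mul_one, mul_inv_cancel_left] at this
    rw [← this]
    exact a σ i.mem _ (mul_mem (i.le m) i.mem) fun f => i.nm ((N.mul_mem_cancel_left m).1 f)
  refine ⟨fun g hg h hh e e' => (a g hg h hh e').trans (b g hg e), fun g hg => ?_⟩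
  by_cases e : g ∈ N
  · rw [← coc_left i hc h1 e i.mem i.mem]
    exact b _ (mul_mem hg i.mem) fun f => i.nm ((N.mul_mem_cancel_left e).1 f)
  · simpa only [h2 g hg _ (i.two σ i.mem σ i.mem i.nm i.nm), h1 _ (i.two g hg σ i.mem e i.nm) σ
      i.mem, b g hg e, mul_one, one_mul] using hc.2.2 g hg σ i.mem σ i.mem

theorem step3 [IsAlgClosed Ω] (hT : TopSt K Ω) (hK : KumSt K Ω) (i : Ix H N σ)
    (hc : Coc2 H c) (h1 : ∀ n ∈ N, ∀ g ∈ H, c n g = 1) (h2 : ∀ g ∈ H, ∀ n ∈ N, c g n = 1)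
    {a : (Ω ≃ₐ[K] Ω) → ZMod 2} (ha : ∀ g ∈ H, a g = if g ∈ N then 0 else 1) :
    ∃ s : Ω, s ≠ 0 ∧ Fix H (s ^ 2) ∧ Spl H (c * sgc (cup a (kr s))) := by
  obtain ⟨a1, a2⟩ := shape i hc h1 h2
  obtain ⟨s, hs⟩ := IsAlgClosed.exists_pow_nat_eq (c σ σ) two_pos
  have s0 : s ≠ 0 := fun e => hc.1 σ i.mem σ i.mem (by rw [← hs, e, zero_pow two_ne_zero])
  rw [← hs] at a1 a2
  refine ⟨s, s0, a2, fun g => if g ∈ N then 1 else g s, lc_ite i.lc (lc_const _ _)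
    (hT.lc_app continuousOn_id (lc_const _ _)), fun g _ => ?_, fun g hg h hh => ?_⟩
  · beta_reduce
    split_ifs
    exacts [one_ne_zero, (map_ne_zero g).2 s0]
  have b := hK.app a2 h hh
  simp only [Pi.mul_apply, sgc, cup, ha g hg]
  by_cases e : g ∈ N
  · by_cases e' : h ∈ N <;> simp [e, e', h1 g e h hh, N.mul_mem_cancel_left e]
  · by_cases e' : h ∈ N
    · simp only [e, e', h2 g hg h e', N.mul_mem_cancel_right e', if_true, if_false, one_mul,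
        map_one, mul_one, AlgEquiv.mul_apply, b, map_mul, map_sg]
      rw [← mul_assoc, sg_mul_self, one_mul]
    · have d := a2 g hg
      rw [map_pow] at d
      simp only [e, e', a1 g hg h hh e e', i.two g hg h hh e e', if_true, if_false, one_mul,
        mul_one, b, map_mul, map_sg]
      rw [← d]
      ring

end QuadAux

variable {K Ω : Type} [Field K] [Field Ω] [Algebra K Ω] [IsAlgClosed Ω]

open QuadAux in
theorem st_Quad (hS : SzSt) (hT : TopSt K Ω) (hK : KumSt K Ω) (hB : BrSt K Ω) : QuadSt K Ω := by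
  intro H N r c hH r0 r2 hN hc h
  have ha : ∀ g ∈ H, kr r g = if g ∈ N then 0 else 1 := fun g hg => by simp [kr, hN, hg]
  by_cases e : H ≤ N
  · refine ⟨1, one_ne_zero, fun g _ => by simp, hB.congr (hB.mono h e) fun g hg h _ => ?_⟩
    simp [sgc, cup, ha g hg, e hg]
  obtain ⟨σ, s1, s2⟩ := SetLike.not_le_iff_exists.1 e
  have neg : ∀ g ∈ H, g ∉ N → g r = -r := fun g hg f => by
    simpa [ha g hg, f] using hK.app r2 g hg
  have i : Ix H N σ := ⟨fun g f => ((hN g).1 f).1, fun g hg h hh f f' => (hN _).2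
    ⟨mul_mem hg hh, by rw [AlgEquiv.mul_apply, neg h hh f', map_neg, neg g hg f, neg_neg]⟩,
    fun g hg => by
      filter_upwards [hT.lc_app continuousOn_id (lc_const (H : Set (Ω ≃ₐ[K] Ω)) r) g hg,
        self_mem_nhdsWithin] with x a b
      rw [hN, hN, show x r = g r from a, eq_true (show g ∈ H from hg),
        eq_true (show x ∈ H from b)], s1, s2⟩
  have cl := hT.ker_closed H N (kr r) hH (hK.hom r0 r2) fun g => by simp [kr, hN]
  obtain ⟨φ, p1, p2, p3⟩ := step1 hS i hc h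
  have c1 := tw_coc hS hT hc p1 p2
  obtain ⟨ψ, q1, q2, q3, q4⟩ := step2 hS hT hK i cl c1 p3
  obtain ⟨s, t1, t2, t3⟩ := step3 hT hK i (tw_coc hS hT c1 q1 q2) q3 q4 ha
  exact ⟨s, t1, t2, tw_spl hS p1 p2 (tw_spl hS q1 q2 t3)⟩

end Pool.Agent.SC
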