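import Pool.Agent.Lib.MP_b4b3cb_nt.StB

/-! The local conditions at a real place. -/

namespace Pool.Agent.SC

open scoped Classical
open Module

namespace RealAux

theorem z2 : ∀ c : ZMod 2, c = 0 ∨ c = 1 := by decide

theorem fr_span {X : Type} [AddCommGroup X] [Module (ZMod 2) X] (W : Submodule (ZMod 2) X) {a : X}
    (ha : a ∈ W) (a0 : a ≠ 0) (h : ∀ w ∈ W, w = 0 ∨ w = a) : finrank (ZMod 2) W = 1 := by
  have e : W = Submodule.span (ZMod 2) {a} := by
    refine le_antisymm (fun w hw => ?_) ((Submodule.span_singleton_le_iff_mem _ _).2 ha)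
    rcases h w hw with rfl | rfl
    · exact zero_mem _
    · exact Submodule.mem_span_singleton_self _
  rw [e]
  exact finrank_span_singleton a0

theorem mem_zp {G : Type} [Group G] {c g : G} (hc : c * c = 1) (h : g ∈ Subgroup.zpowers c) :
    g = 1 ∨ g = c := by
  obtain ⟨n, rfl⟩ := Subgroup.mem_zpowers_iff.1 h
  have h2 : ∀ k : ℤ, c ^ (2 * k) = 1 := fun k => by rw [zpow_mul, zpow_two, hc, one_zpow]
  obtain ⟨k, rfl | rfl⟩ := Int.even_or_odd' n
  · exact Or.inl (h2 k)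
  · exact Or.inr (by rw [zpow_add, h2, one_mul, zpow_one])

theorem mem1 (hL : LatSt) (hO : OmSt) (s : ℤ_[2]ˣ) {w : ℚ_[2]} (hw : ‖w‖ ≤ 1) :
    (w, -(((s : ℤ_[2]) : ℚ_[2]) * w)) ∈ T 1 := by
  have h1 := hL.odd_iff 0 (w, -(((s : ℤ_[2]) : ℚ_[2]) * w))
  have h2 := hO.unit_half (-s) w
  have h3 : ‖((s : ℤ_[2]) : ℚ_[2])‖ ≤ 1 := (s : ℤ_[2]).2
  rw [mul_zero, zero_add, neg_zero, zpow_zero, norm_prod_le_iff] at h1
  refine h1.2 ⟨⟨hw, ?_⟩, ?_⟩
  · rw [norm_neg, norm_mul]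
    exact mul_le_one₀ h3 (norm_nonneg _) hw
  · rw [Units.val_neg, PadicInt.coe_neg, neg_mul, norm_sub_rev] at h2
    refine h2.trans ?_
    norm_num
    linarith

variable {G : Type} [Group G] [TopologicalSpace G] {χ : G →* ℤ_[2]ˣ} (R : Rp χ)

theorem ac_one {g : G} (h : R.η g = 1) (u : V) : R.ac g u =
    (((R.r g : ℤ_[2]) : ℚ_[2]) * u.2, ((R.s g : ℤ_[2]) : ℚ_[2]) * u.1) := by
  rw [Rp.ac, mon, if_neg (h ▸ one_ne_zero)]

end RealAux

open RealAux in
theorem st_Real (hL : LatSt) (hO : OmSt) (hA : AcSt) (hZ : ZSt) : RealSt := by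
  intro G _ _ χ R c hc hη
  have mc : c ∈ Subgroup.zpowers c := Subgroup.mem_zpowers c
  have d0 : ∀ u, R.d1 u 1 = 0 := fun u => by rw [Rp.d1, hA.one, sub_self]
  have rs : ((R.s c : ℤ_[2]) : ℚ_[2]) * ((R.r c : ℤ_[2]) : ℚ_[2]) = 1 := by
    have := hA.mul R c c (1, 1)
    rw [hc, hA.one, ac_one R hη, ac_one R hη] at this
    simpa using (congrArg Prod.snd this).symm
  have dc : ∀ u : V, R.d1 u c = (((R.r c : ℤ_[2]) : ℚ_[2]) * u.2 - u.1,
      -(((R.s c : ℤ_[2]) : ℚ_[2]) * (((R.r c : ℤ_[2]) : ℚ_[2]) * u.2 - u.1))) := fun u => by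
    rw [Rp.d1, ac_one R hη]
    refine Prod.ext rfl ?_
    simp only [Prod.snd_sub]
    linear_combination u.2 * rs
  have dw : ∀ w : ℚ_[2], R.d1 (-w, 0) c = (w, -(((R.s c : ℤ_[2]) : ℚ_[2]) * w)) := fun w => by
    rw [dc]
    simp
  have l0 : ∀ i, lam i 0 = 0 := fun i => if_pos (zero_mem _)
  have w0 : R.W (Subgroup.zpowers c) False 0 = ⊥ := by
    refine (Submodule.eq_bot_iff _).2 fun f hf => funext fun g => ?_
    obtain ⟨t, ⟨ht, u, hu⟩, rfl⟩ := (hZ.mem_W R _ False 0 f).1 hf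
    unfold res
    split_ifs with hg
    · have e : t g = R.d1 u g := Prod.ext (hu g hg).1 ((hu g hg).2 not_false)
      have m := ht.2.1 g hg
      change lam 0 (t g) = 0
      rw [e] at m ⊢
      rcases mem_zp hc hg with rfl | rfl
      · rw [d0, l0]
      · rw [dc] at m ⊢
        have h1 := hL.norm_iff 0 (((R.r g : ℤ_[2]) : ℚ_[2]) * u.2 - u.1,
          -(((R.s g : ℤ_[2]) : ℚ_[2]) * (((R.r g : ℤ_[2]) : ℚ_[2]) * u.2 - u.1)))
        rw [mul_zero, neg_zero, zpow_zero, norm_prod_le_iff] at h1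
        exact (hL.lam_zero 0 _).2 (mem1 hL hO _ (h1.1 m).1)
    · rfl
  have ma : (res (Subgroup.zpowers c) fun g => lam 1 (R.d1 (-1, 0) g)) ∈
      R.W (Subgroup.zpowers c) False 1 :=
    (hZ.mem_W R _ False 1 _).2 ⟨_, hZ.z_d1 R _ False 1 _ fun g hg => by
      rcases mem_zp hc hg with rfl | rfl
      · rw [d0]
        exact zero_mem _
      · rw [dw]
        exact mem1 hL hO _ norm_one.le, rfl⟩
  have ac : (res (Subgroup.zpowers c) fun g => lam 1 (R.d1 (-1, 0) g)) c = 1 := by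
    rw [res, if_pos mc, dw, lam]
    refine if_neg fun h => ?_
    have := (norm_prod_le_iff.1 ((hL.norm_iff 1 _).1 h)).1
    norm_num at this
  generalize (res (Subgroup.zpowers c) fun g => lam 1 (R.d1 (-1, 0) g)) = a at ma ac
  have a0 : a ≠ 0 := fun e => by
    rw [e] at ac
    exact zero_ne_one ac
  have mh := hZ.W_le R _ False 1 ma
  have ext : ∀ f ∈ Hm (Subgroup.zpowers c), ∀ f' ∈ Hm (Subgroup.zpowers c), f c = f' c → f = f' :=
    fun f hf f' hf' e => funext fun g => by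
      by_cases hg : g ∈ Subgroup.zpowers c
      · rcases mem_zp hc hg with rfl | rfl
        · rw [(hZ.hom_one hf.1).1, (hZ.hom_one hf'.1).1]
        · exact e
      · rw [hf.2 g hg, hf'.2 g hg]
  have two : ∀ f ∈ Hm (Subgroup.zpowers c), f = 0 ∨ f = a := fun f hf =>
    (z2 (f c)).imp (ext f hf 0 (zero_mem _)) fun e => ext f hf a mh (e.trans ac.symm)
  have f1 := fr_span _ ma a0 fun w hw => two w (hZ.W_le R _ False 1 hw)
  have fh := fr_span _ mh a0 two
  refine ⟨fun i x hx _ => ⟨hx, (-(x c).1, 0), fun g hg => ?_⟩, ?_, ?_⟩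
  · have x1 : x 1 = 0 := (hA.d2_one R x).symm.trans (hx.2.2 1 (one_mem _) 1 (one_mem _))
    rcases mem_zp hc hg with rfl | rfl
    · rw [x1, d0]
      exact ⟨rfl, fun _ => rfl⟩
    · have := congrArg Prod.snd (hx.2.2 g mc g mc)
      rw [Rp.d2, hc, x1, sub_zero, ac_one R hη] at this
      rw [dw]
      exact ⟨rfl, fun _ => eq_neg_of_add_eq_zero_left this⟩
  · rw [Rp.Big, fh, f1]
    omega
  · rw [Rp.df, w0, finrank_bot, f1]
    rfl

end Pool.Agent.SC
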