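import Pool.Agent.Lib.MP_b4b3cb_nt.StB

/-! Existence of local classes: lifting homomorphisms to integral cocycles. -/

namespace Pool.Agent.SC

open scoped Classical
open Module Filter Topology

namespace RedAux

/-- Reduction modulo two. -/
noncomputable abbrev rd : ℤ_[2] →+* ZMod 2 := PadicInt.toZMod

lemma dvd_iff (n : ℕ) (x : ℤ_[2]) : 2 ^ n ∣ x ↔ ‖x‖ ≤ (1 / 2) ^ n := by
  have := PadicInt.norm_le_pow_iff_mem_span_pow x n
  rw [Ideal.mem_span_singleton] at this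
  simpa using this.symm

lemma rd_zero (x : ℤ_[2]) : rd x = 0 ↔ 2 ∣ x := by
  rw [← RingHom.mem_ker, PadicInt.ker_toZMod, PadicInt.maximalIdeal_eq_span_p,
    Ideal.mem_span_singleton]
  rfl

lemma rd_unit (u : ℤ_[2]ˣ) : rd u = 1 := by
  have : ∀ a b : ZMod 2, a * b = 1 → a = 1 := by decide
  exact this _ (rd ↑u⁻¹) (by rw [← map_mul, Units.mul_inv, map_one])

lemma rd_val (c : ZMod 2) : rd (c.val : ℤ_[2]) = c := by
  rw [map_natCast, ZMod.natCast_zmod_val]

lemma clopen (n : ℕ) : IsClopen {x : ℤ_[2] | 2 ^ n ∣ x} := by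
  convert IsUltrametricDist.isClopen_closedBall (0 : ℤ_[2]) (r := (1 / 2) ^ n) (by positivity)
  ext x
  simp [dvd_iff]

/-- The digit at the place `n`. -/
noncomputable def ph (n : ℕ) (x : ℤ_[2]) : ZMod 2 := if 2 ^ (n + 1) ∣ x then 0 else 1

lemma ph_cont (n : ℕ) : Continuous (ph n) :=
  continuous_if (fun a ha => by simp [(clopen (n + 1)).frontier_eq] at ha) continuousOn_const
    continuousOn_const

lemma ph_mul (n : ℕ) (a : ℤ_[2]) : ph n (2 ^ n * a) = rd a := by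
  have : ∀ c : ZMod 2, c ≠ 0 → 1 = c := by decide
  rw [ph, pow_succ, mul_dvd_mul_iff_left (pow_ne_zero n two_ne_zero), ← rd_zero]
  split_ifs with h
  exacts [h.symm, this _ h]

variable {G : Type} [Group G] [TopologicalSpace G] {D : Subgroup G} {β : G → ℤ_[2]ˣ} {n : ℕ}
  {s s' : G → ℤ_[2]}

/-- The coboundary. -/
noncomputable def dl (β : G → ℤ_[2]ˣ) (s : G → ℤ_[2]) (g h : G) : ℤ_[2] :=
  s g + β g * s h - s (g * h)

/-- Cocycles modulo `2 ^ n`. -/
def Lv (D : Subgroup G) (β : G → ℤ_[2]ˣ) (n : ℕ) (s : G → ℤ_[2]) : Prop :=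
  ContinuousOn s D ∧ ∀ g ∈ D, ∀ h ∈ D, 2 ^ n ∣ dl β s g h

/-- The obstruction. -/
noncomputable def ob (β : G → ℤ_[2]ˣ) (n : ℕ) (s : G → ℤ_[2]) (g h : G) : ZMod 2 :=
  ph n (dl β s g h)

omit [TopologicalSpace G] in
lemma dl_add (g h : G) : dl β (s + s') g h = dl β s g h + dl β s' g h := by
  simp only [dl, Pi.add_apply]; ring

lemma Lv.add (a : Lv D β n s) (b : Lv D β n s') : Lv D β n (s + s') :=
  ⟨a.1.add b.1, fun g hg h hh => dl_add (β := β) g h ▸ (a.2 g hg h hh).add (b.2 g hg h hh)⟩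

lemma Lv.sz_add (a : Lv D β n s) (b : Lv D β n s') (e : Sz D (ob β n s + ob β n s')) :
    Sz D (ob β n (s + s')) := by
  obtain ⟨f, f1, f2⟩ := e
  refine ⟨f, f1, fun g hg h hh => ?_⟩
  obtain ⟨x, hx⟩ := a.2 g hg h hh
  obtain ⟨y, hy⟩ := b.2 g hg h hh
  rw [← f2 g hg h hh]
  simp only [Pi.add_apply, ob, dl_add, hx, hy, ← mul_add, ph_mul, map_add]

lemma Lv.shift (a : Lv D β n s) (k : ℕ) : Lv D β (k + n) (fun g => 2 ^ k * s g) ∧
    (Sz D (ob β (k + n) fun g => 2 ^ k * s g) → Sz D (ob β n s)) := by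
  have e : ∀ g h, dl β (fun g => 2 ^ k * s g) g h = 2 ^ k * dl β s g h := fun g h => by
    simp only [dl]; ring
  refine ⟨⟨continuousOn_const.mul a.1, fun g hg h hh => ?_⟩, fun ⟨f, f1, f2⟩ =>
    ⟨f, f1, fun g hg h hh => ?_⟩⟩
  · rw [e, pow_add]
    exact mul_dvd_mul_left _ (a.2 g hg h hh)
  · obtain ⟨x, hx⟩ := a.2 g hg h hh
    rw [← f2 g hg h hh, ob, ob, e, hx, ← mul_assoc, ← pow_add, ph_mul, ph_mul]

lemma cont_val {f : G → ZMod 2} (hf : ContinuousOn f D) :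
    ContinuousOn (fun g => ((f g).val : ℤ_[2])) D :=
  (continuous_of_discreteTopology (f := fun c : ZMod 2 => (c.val : ℤ_[2]))).comp_continuousOn hf

lemma Lv.lift (a : Lv D β n s) (e : Sz D (ob β n s)) :
    ∃ s', Lv D β (n + 1) s' ∧ ∀ g, 2 ^ n ∣ s' g - s g := by
  obtain ⟨f, f1, f2⟩ := e
  refine ⟨fun g => s g + 2 ^ n * (f g).val, ⟨a.1.add (continuousOn_const.mul (cont_val f1)),
    fun g hg h hh => ?_⟩, fun g => by simp⟩
  obtain ⟨x, hx⟩ := a.2 g hg h hh
  have e := f2 g hg h hh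
  rw [ob, hx, ph_mul] at e
  have k : dl β (fun g => s g + 2 ^ n * (f g).val) g h =
      2 ^ n * (x + ((f g).val + β g * (f h).val - (f (g * h)).val)) := by
    rw [mul_add, ← hx]
    simp only [dl]; ring
  have z : ∀ a b c : ZMod 2, a + b + c + (a + 1 * b - c) = 0 := by decide
  rw [k, pow_succ]
  refine mul_dvd_mul_left _ ((rd_zero _).1 ?_)
  simp only [map_add, map_sub, map_mul, rd_val, e, rd_unit, z]

lemma lv_one {f : G → ZMod 2} (hf : Hom D f) : Lv D β 1 fun g => ((f g).val : ℤ_[2]) := by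
  refine ⟨cont_val hf.1, fun g hg h hh => ?_⟩
  rw [pow_one, ← rd_zero]
  simp only [dl, map_add, map_sub, map_mul, rd_val, rd_unit, hf.2 g hg h hh, one_mul, sub_self]

lemma Lv.cz [IsTopologicalGroup G] (hc : ContinuousOn β D)
    (hm : ∀ g ∈ D, ∀ h ∈ D, β (g * h) = β g * β h) (a : Lv D β n s) : Cz D (ob β n s) := by
  refine ⟨(ph_cont n).comp_continuousOn ?_, fun g hg h hh k hk => ?_⟩
  · exact ((a.1.comp continuousOn_fst fun _ h => h.1).add
      ((Units.continuous_val.comp_continuousOn (hc.comp continuousOn_fst fun _ h => h.1)).mul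
        (a.1.comp continuousOn_snd fun _ h => h.2))).sub
      (a.1.comp continuous_mul.continuousOn fun _ h => D.mul_mem h.1 h.2)
  · obtain ⟨x, hx⟩ := a.2 h hh k hk
    obtain ⟨y, hy⟩ := a.2 g hg _ (D.mul_mem hh hk)
    obtain ⟨z, hz⟩ := a.2 _ (D.mul_mem hg hh) k hk
    obtain ⟨w, hw⟩ := a.2 g hg h hh
    have e : β g * x + y = z + w := mul_left_cancel₀ (pow_ne_zero n two_ne_zero) (by
      rw [mul_add, mul_add, mul_left_comm, ← hx, ← hy, ← hz, ← hw]
      simp only [dl, hm g hg h hh, Units.val_mul, mul_assoc]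
      ring)
    have := congrArg rd e
    simpa only [ob, hx, hy, hz, hw, ph_mul, map_add, map_mul, rd_unit, one_mul] using this

lemma lim {m : ℕ} (st : ∀ k s, Lv D β (k + 1 + m) s →
    ∃ s', Lv D β (k + 1 + m + 1) s' ∧ ∀ g, 2 ^ (k + 1) ∣ s' g - s g) (a : Lv D β (m + 1) s)
    {f : G → ZMod 2} (hf : ∀ g, rd (s g) = f g) : Red D β f := by
  choose! F F1 F2 using st
  let u : ℕ → G → ℤ_[2] := fun k => Nat.rec s F k
  have u1 : ∀ k, Lv D β (k + 1 + m) (u k) := fun k => by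
    induction k with
    | zero => rwa [zero_add, add_comm]
    | succ k ih => exact (show k + 1 + m + 1 = k + 1 + 1 + m by omega) ▸ F1 k _ ih
  have u2 : ∀ k g, 2 ^ (k + 1) ∣ u (k + 1) g - u k g := fun k => F2 k _ (u1 k)
  have u3 : ∀ k g, ‖u (k + 1) g - u k g‖ ≤ (1 / 2) ^ k := fun k g =>
    (dvd_iff _ _).1 ((pow_dvd_pow _ k.le_succ).trans (u2 k g))
  let t : G → ℤ_[2] := fun g => s g + ∑' k, (u (k + 1) g - u k g)
  have t1 : ∀ g, Tendsto (fun k => u k g) atTop (𝓝 (t g)) := fun g => by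
    have := ((summable_geometric_two.of_norm_bounded fun k => u3 k g).hasSum.tendsto_sum_nat).const_add
      (s g)
    refine this.congr fun k => ?_
    rw [Finset.sum_range_sub fun k => u k g]
    exact add_sub_cancel _ _
  have t2 : ∀ k g, 2 ^ (k + 1) ∣ t g - u k g := fun k g =>
    (clopen (k + 1)).isClosed.mem_of_tendsto ((t1 g).sub_const _)
      ((eventually_ge_atTop k).mono fun j hj => by
        induction j, hj using Nat.le_induction with
        | base => simp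
        | succ j hj ih =>
          simpa using ((pow_dvd_pow _ (Nat.succ_le_succ hj)).trans (u2 j g)).add ih)
  have t3 : ∀ g ∈ D, ∀ h ∈ D, dl β t g h = 0 := fun g hg h hh => by
    refine norm_le_zero_iff.1 (ge_of_tendsto' (tendsto_pow_atTop_nhds_zero_of_lt_one
      (r := (1 / 2 : ℝ)) (by norm_num) (by norm_num)) fun k => (dvd_iff _ _).1 ?_)
    have e : dl β t g h = dl β (u k) g h +
        (t g - u k g + β g * (t h - u k h) - (t (g * h) - u k (g * h))) := by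
      simp only [dl]; ring
    rw [e]
    exact (pow_dvd_pow _ k.le_succ).trans (((pow_dvd_pow _ (Nat.le_add_right _ m)).trans
      ((u1 k).2 g hg h hh)).add (((t2 k g).add ((t2 k h).mul_left _)).sub (t2 k _)))
  refine ⟨fun g => t g, continuous_subtype_val.comp_continuousOn (a.1.add (continuousOn_tsum
    (fun k => (u1 (k + 1)).1.sub (u1 k).1) summable_geometric_two fun k g _ => u3 k g)),
    fun g _ => (t g).2, fun g hg h hh => ?_, fun g _ => ?_⟩
  · exact congrArg Subtype.val (sub_eq_zero.1 (t3 g hg h hh)).symm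
  · have e : rd (t g - s g) = 0 := (rd_zero _).2 ((pow_one 2).symm.dvd.trans (t2 0 g))
    rw [map_sub, sub_eq_zero, hf] at e
    rw [← e, rd_zero, PadicInt.padic_norm_e_of_padicInt]
    simpa using dvd_iff 1 (t g)

end RedAux

open RedAux in
theorem st_Red : RedSt := by
  intro G _ _ _ D β hc hm h2 f f' hf hf'
  obtain ⟨m, m1, m2, st⟩ : ∃ m, 1 ≤ m ∧ (∀ n s, 1 ≤ n → n < m → Lv D β n s → Sz D (ob β n s)) ∧
      ∀ k s, Lv D β (k + 1 + m) s →
        ∃ s', Lv D β (k + 1 + m + 1) s' ∧ ∀ g, 2 ^ (k + 1) ∣ s' g - s g := by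
    by_cases ex : ∃ n, 1 ≤ n ∧ ∃ z, Lv D β n z ∧ ¬ Sz D (ob β n z)
    · obtain ⟨m1, z, z1, z2⟩ := Nat.find_spec ex
      refine ⟨_, m1, fun n s n1 n2 a => by_contra fun b => Nat.find_min ex n2 ⟨n1, s, a, b⟩,
        fun k s a => ?_⟩
      obtain ⟨b1, b2⟩ := z1.shift (k + 1)
      rcases h2 _ _ (a.cz hc hm) (b1.cz hc hm) with e | e | e
      · obtain ⟨t, t1, t2⟩ := a.lift e
        exact ⟨t, t1, fun g => (pow_dvd_pow _ (Nat.le_add_right _ _)).trans (t2 g)⟩
      · exact absurd (b2 e) z2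
      · obtain ⟨t, t1, t2⟩ := (a.add b1).lift (a.sz_add b1 e)
        refine ⟨t, t1, fun g => ?_⟩
        simpa [sub_add_eq_sub_sub] using ((pow_dvd_pow _ (Nat.le_add_right _ _)).trans (t2 g)).add
          (dvd_mul_right (2 ^ (k + 1)) (z g))
    · push Not at ex
      refine ⟨1, le_rfl, fun n s n1 _ => ex n n1 s, fun k s a => ?_⟩
      obtain ⟨t, t1, t2⟩ := a.lift (ex _ (by omega) s a)
      exact ⟨t, t1, fun g => (pow_dvd_pow _ (Nat.le_add_right _ _)).trans (t2 g)⟩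
  have nx : ∀ {n s} {f : G → ZMod 2}, 1 ≤ n → Lv D β n s → Sz D (ob β n s) →
      (∀ g, rd (s g) = f g) → ∃ t, Lv D β (n + 1) t ∧ ∀ g, rd (t g) = f g := by
    intro n s f n1 a b c
    obtain ⟨t, t1, t2⟩ := a.lift b
    refine ⟨t, t1, fun g => ?_⟩
    rw [← c, ← sub_eq_zero, ← map_sub, rd_zero]
    exact (dvd_pow_self 2 (by omega)).trans (t2 g)
  have up : ∀ f, Hom D f → ∀ n, 1 ≤ n → n ≤ m → ∃ s, Lv D β n s ∧ ∀ g, rd (s g) = f g := by
    intro f hf n n1
    induction n, n1 using Nat.le_induction with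
    | base => exact fun _ => ⟨_, lv_one hf, fun g => rd_val _⟩
    | succ n n1 ih =>
      intro n2
      obtain ⟨s, s1, s2⟩ := ih (by omega)
      exact nx n1 s1 (m2 n s n1 n2 s1) s2
  obtain ⟨s, s1, s2⟩ := up f hf m m1 le_rfl
  obtain ⟨s', s1', s2'⟩ := up f' hf' m m1 le_rfl
  rcases h2 _ _ (s1.cz hc hm) (s1'.cz hc hm) with e | e | e
  · obtain ⟨t, t1, t2⟩ := nx m1 s1 e s2
    exact .inl (lim st t1 t2)
  · obtain ⟨t, t1, t2⟩ := nx m1 s1' e s2'
    exact .inr (.inl (lim st t1 t2))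
  · obtain ⟨t, t1, t2⟩ := nx (f := f + f') m1 (s1.add s1') (s1.sz_add s1' e) fun g => by
      simp only [Pi.add_apply, map_add, s2, s2']
    exact .inr (.inr (lim st t1 t2))

end Pool.Agent.SC
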