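import Pool.Agent.Lib.MP_b4b3cb_nt.StR

/-! The root number as a product of local signs. -/

namespace Pool.Agent.SC

open NumberField Pool.Agent.Stark
open scoped Classical ComplexConjugate

namespace RootAux

theorem sign (M n : ℕ) (A : ℤ) (h : (M : ℤ) = 2 * A - n) :
    (-Complex.I) ^ M * Complex.I ^ n = sg ℂ ((n : ZMod 2) + (A : ZMod 2)) := by
  obtain ⟨N, rfl⟩ := Int.eq_ofNat_of_zero_le (show 0 ≤ A by omega)
  have h1 : M + n = 2 * N := by omega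
  have h2 : ∀ k : ℕ, sg ℂ (k : ZMod 2) = (-1) ^ k := fun k => by
    rw [← sg_one (R := ℂ), sg_pow, mul_one]
  have h3 : (-1 : ℂ) ^ M = (-1) ^ n := by
    have e1 : (-1 : ℂ) ^ M * (-1) ^ n = 1 := by rw [← pow_add, h1, pow_mul]; simp
    have e2 : (-1 : ℂ) ^ n * (-1) ^ n = 1 := by rw [← mul_pow]; simp
    exact mul_right_cancel₀ (pow_ne_zero n (by norm_num)) (e1.trans e2.symm)
  rw [sg_add, Int.cast_natCast, h2, h2, neg_pow, mul_assoc, ← pow_add, h1, pow_mul, Complex.I_sq,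
    h3]

variable {K L : Type} [Field K] [NumberField K] [Field L] [NumberField L] [Algebra K L]

theorem fib {d : K} (E : Quad K L d) {S : Finset (Pr K)} {SL : Finset (Pr L)}
    (h : ∀ w, w ∈ SL ↔ below K w ∈ S) (sec : Pr K → Pr L) (hs : ∀ v, below K (sec v) = v)
    (g : Pr L → ℂ) : ∏ w ∈ SL, g w = ∏ v ∈ S, ∏ w ∈ {sec v, E.act (sec v)}, g w := by
  rw [← Finset.prod_fiberwise_of_maps_to (g := below K) (t := S) fun w hw => (h w).1 hw]
  refine Finset.prod_congr rfl fun v hv => Finset.prod_congr ?_ fun _ _ => rfl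
  ext w
  rw [Finset.mem_filter, Finset.mem_insert, Finset.mem_singleton, ← E.below_eq_iff, hs, h]
  exact ⟨fun h' => h'.2, fun h' => ⟨h' ▸ hv, h'⟩⟩

end RootAux

variable {K L : Type} [Field K] [NumberField K] [Field L] [NumberField L] [Algebra K L]

theorem st_Root (hW : WeilSt) (hT : TSt) (hGam : GamSt K L) (hFac : FacSt K L) (hLS : LocSSt K L)
    (hLN : LocNSt K L) (hC : CnSt) (hM : CmSt K L) : RootSt K L := by
  intro d E 𝔣 a ψ χ h hR sec ε S hsec hε hS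
  obtain ⟨j, gam, W⟩ := hW K
  obtain ⟨𝔠, γ₀, G, hv⟩ := hGam h hR W.isJ
  choose e he using hC.idm h.ne
  have hd : d ≠ 0 := E.a_ne
  have h2 : 2 * γ₀ ≠ 0 := mul_ne_zero two_ne_zero G.ne
  obtain ⟨S', hSS, hS1, hS2⟩ : ∃ S' : Finset (Pr K), S ⊆ S' ∧
      (∀ v ∉ S', og v (2 : K) = 0 ∧ og v γ₀ = 0 ∧ og v d = 0 ∧ j v = 0) ∧
      ∀ w : Pr L, below K w ∉ S' → ¬ 𝔣 ≤ w.asIdeal ∧ ¬ 𝔠 ≤ w.asIdeal := by
    refine ⟨S ∪ ((((og_finite (2 : K)).union (og_finite γ₀)).union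
      ((og_finite d).union W.isJ.fin)).union
      (((hC.fin h.ne).union (hC.fin G.ne')).image (below K))).toFinset,
      Finset.subset_union_left, fun v hv => ?_, fun w hw => ?_⟩
    · simp only [Finset.mem_union, Set.Finite.mem_toFinset, Set.mem_union, Set.mem_ofPred_eq,
        not_or, not_not] at hv
      exact ⟨hv.2.1.1.1, hv.2.1.1.2, hv.2.1.2.1, hv.2.1.2.2⟩
    · simp only [Finset.mem_union, Set.Finite.mem_toFinset, Set.mem_union, not_or] at hw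
      exact ⟨fun h' => hw.2.2 ⟨w, Or.inl h', rfl⟩, fun h' => hw.2.2 ⟨w, Or.inr h', rfl⟩⟩
  obtain ⟨SL, hSL⟩ := exists_above (K := L) S'
  have e1 := hFac h G e SL he fun w hw => hS2 w fun h' => hw ((hSL w).2 h')
  rw [RootAux.fib E hSL sec hsec] at e1
  have loc : ∀ v, ∃ r : ℝ, 0 ≤ r ∧
      ∏ w ∈ {sec v, E.act (sec v)}, lw 𝔣 𝔠 ψ χ (algebraMap K L γ₀) w (e w) =
        r * (gam v (2 * γ₀) * gam v (-(2 * γ₀ * d))) * sg ℂ (bv d 𝔣 sec ε v) := by
    intro v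
    by_cases hl : LSq v d
    · have hne : E.act (sec v) ≠ sec v := E.ne_of_lsq (by rwa [hsec])
      obtain ⟨r, hr, e2⟩ := hLS h G (sec v) _ _ (ε v) (he _) (he _) (hε v)
      refine ⟨r, hr, ?_⟩
      rw [Finset.prod_pair hne.symm, e2, hT.split W v h2 hd hl, mul_one, bv, if_pos hl]
    · have heq : E.act (sec v) = sec v := by
        by_contra hne
        exact hl (hsec v ▸ E.lsq_of_ne hne)
      obtain ⟨r, hr, e2⟩ := hLN h hR G W hv (sec v) _ heq (he _)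
      refine ⟨r, hr, ?_⟩
      rw [heq, Finset.pair_eq_singleton, Finset.prod_singleton, e2, hsec, bv, if_neg hl]
  choose r hr hr' using loc
  have hb : ∑ v ∈ S, bv d 𝔣 sec ε v = ∑ v ∈ S', bv d 𝔣 sec ε v := by
    refine Finset.sum_subset hSS fun v _ hvS => ?_
    have h0 := hS v hvS
    rw [bv]
    split_ifs with h1 h3
    · have h4 := hε v 1 ⟨by rw [(hC.zero h.ne _).2 h0, pow_zero, Ideal.one_eq_top]; trivial,
        fun w' _ => by rw [sub_self]; exact zero_mem _⟩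
      rw [h.one] at h4
      exact sg_inj (R := ℤ) (h4.symm.trans sg_zero.symm)
    · exact absurd h3.1 h0
    · rfl
  obtain ⟨r', hr0, e3⟩ := hT.prod W G.ne hd (hM.neg h.cm) S' hS1
  obtain ⟨q, -⟩ := hM.real h.cm
  have e4 := RootAux.sign (∑ k, mm a k) (Fintype.card (K →+* ℝ)) (∑ k : Ty a, a k.1) (by
    rw [Nat.cast_sum, Finset.sum_congr rfl fun k _ => hM.mm_eq k, Finset.sum_sub_distrib,
      ← Finset.mul_sum, ← Fintype.card_congr q]
    simp)
  refine ⟨𝔠, γ₀, G, (∏ v ∈ S', r v) * r',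
    mul_nonneg (Finset.prod_nonneg fun v _ => hr v) hr0.le, ?_⟩
  rw [Finset.prod_congr rfl fun v _ => hr' v, Finset.prod_mul_distrib, Finset.prod_mul_distrib,
    ← sg_sum, ← hb] at e1
  rw [Wt, sg_add, ← e4, hM.pinf_alg h.cm γ₀ G.ne]
  push_cast
  linear_combination ((-Complex.I) ^ (∑ k, mm a k) * ∏ φ : K →+* ℝ, ((φ γ₀ : ℝ) : ℂ)⁻¹) * e1 +
    ((-Complex.I) ^ (∑ k, mm a k) * (∏ v ∈ S', (r v : ℂ)) * sg ℂ (∑ v ∈ S, bv d 𝔣 sec ε v)) * e3

end Pool.Agent.SC
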