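import Pool.Agent.Lib.MP_b4b3cb_nt.StA

/-! Facts on Selmer cochains. -/

namespace Pool.Agent.SC

open scoped Classical
open Module

namespace SelAux

theorem two_pow (hL : LatSt) (k i : ℤ) (u : V) :
    (2 : ℚ_[2]) ^ k • u ∈ T (i + 2 * k) ↔ u ∈ T i := by
  induction k using Int.induction_on with
  | zero => simp
  | succ k ih =>
    rw [← ih, ← hL.two (i + 2 * k), zpow_add_one₀ two_ne_zero, mul_comm _ (2 : ℚ_[2]), mul_smul,
      mul_add, add_assoc, mul_one]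
  | pred k ih =>
    rw [← ih, ← hL.two, ← mul_smul, mul_comm (2 : ℚ_[2]), ← zpow_add_one₀ two_ne_zero,
      sub_add_cancel, show i + 2 * (-(k : ℤ) - 1) + 2 = i + 2 * -k by ring]

theorem cases2 (c : ZMod 2) : c = 0 ∨ c = 1 := by revert c; decide

theorem norm3 {a b c : ℚ_[2]} (ha : ‖a‖ ≤ 1) (hb : ‖b‖ ≤ 1) (hc : ‖c‖ ≤ 1) : ‖a - b + c‖ ≤ 1 :=
  (IsUltrametricDist.norm_add_le_max _ _).trans (max_le (by
    rw [sub_eq_add_neg]
    exact (IsUltrametricDist.norm_add_le_max _ _).trans (max_le ha (by rwa [norm_neg]))) hc)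

variable {G P : Type} [Group G] [TopologicalSpace G] (A : AD G P) (R : Rp A.χ) (dy : P → Prop)
  {i i' j j' : ℤ} {x y : G → V}

theorem hom_zero (D : Subgroup G) : Hom D 0 := (Hm D).zero_mem.1

omit [TopologicalSpace G] in
theorem res_eq {D : Subgroup G} {a b : G → ZMod 2} (h : res D a = res D b) {g : G} (hg : g ∈ D) :
    a g = b g := by simpa [res, hg] using congrFun h g

theorem add (hZ : ZSt) (h : Sel A R dy i j x) (h' : Sel A R dy i j y) :
    Sel A R dy i j (x + y) ∧ Sel A R dy i j (x - y) := by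
  refine ⟨⟨(hZ.lev_add R ⊤ h.1 h'.1).1, fun v => ?_⟩, (hZ.lev_add R ⊤ h.1 h'.1).2, fun v => ?_⟩ <;>
    obtain ⟨t, a, b⟩ := h.2 v <;> obtain ⟨t', a', b'⟩ := h'.2 v
  · exact ⟨t + t', (hZ.z_add R _ _ a a').1, fun g hg => by
      convert add_mem (b g hg) (b' g hg) using 1; simp only [Pi.add_apply]; abel⟩
  · exact ⟨t - t', (hZ.z_add R _ _ a a').2, fun g hg => by
      convert sub_mem (b g hg) (b' g hg) using 1; simp only [Pi.sub_apply]; abel⟩

theorem mono (hL : LatSt) (hZ : ZSt) (h : Sel A R dy i j x) (h1 : i' ≤ i) (h2 : j' ≤ j) :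
    Sel A R dy i' j' x :=
  ⟨hZ.lev_mono R h.1 le_rfl h1 h2, fun v => (h.2 v).imp fun _ a =>
    ⟨hZ.z_mem R _ _ a.1 fun g hg => hL.anti h1 (a.1.1.2.1 g hg), fun g hg => hL.anti h2 (a.2 g hg)⟩⟩

theorem of_mem (hZ : ZSt) (h : Continuous x) (h' : ∀ g, x g ∈ T j) : Sel A R dy j j x :=
  ⟨hZ.lev_of_mem R h.continuousOn fun g _ => h' g, fun _ =>
    ⟨0, hZ.z_zero R _ _ _, fun g _ => by simpa using h' g⟩⟩

theorem ker (hL : LatSt) (hZ : ZSt) (h : Sel A R dy i j x) (h1 : i' ≤ j) (h2 : ∀ g, x g ∈ T i') :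
    Sel A R dy i' j x :=
  ⟨⟨h.1.1, fun g _ => h2 g, h.1.2.2⟩, fun v => (h.2 v).imp fun _ a =>
    ⟨hZ.z_mem R _ _ a.1 fun g hg => by simpa using sub_mem (h2 g) (hL.anti h1 (a.2 g hg)), a.2⟩⟩

theorem mem_SS (hL : LatSt) (hZ : ZSt) (i : ℤ) (n : ℕ) (f : G → ZMod 2) :
    f ∈ SS A R dy i n ↔ ∃ x, Sel A R dy i (i + n) x ∧ f = fun g => lam i (x g) := by
  refine ⟨fun h => ?_, fun h => Submodule.subset_span h⟩
  have z : ∃ x, Sel A R dy i (i + n) x ∧ (0 : G → ZMod 2) = fun g => lam i (x g) :=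
    ⟨0, mono A R dy hL hZ (of_mem A R dy hZ continuous_const fun _ => zero_mem _) (by omega)
      le_rfl, funext fun _ => ((hL.lam_zero i _).2 (zero_mem _)).symm⟩
  induction h using Submodule.span_induction with
  | mem f h => exact h
  | zero => exact z
  | add f f' _ _ a b =>
    obtain ⟨x, a, rfl⟩ := a
    obtain ⟨y, b, rfl⟩ := b
    exact ⟨x + y, (add A R dy hZ a b).1, funext fun g =>
      (hL.lam_add (a.1.2.1 g trivial) (b.1.2.1 g trivial)).symm⟩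
  | smul c f _ a => rcases cases2 c with rfl | rfl <;> simpa only [zero_smul, one_smul]

theorem per_le (hL : LatSt) (hA : AcSt) (hZ : ZSt) (i k : ℤ) (n : ℕ) :
    SS A R dy i n ≤ SS A R dy (i + 2 * k) n := by
  refine Submodule.span_mono ?_
  rintro _ ⟨x, h, rfl⟩
  have e : ∀ m : ℤ, i + 2 * k + m = i + m + 2 * k := fun m => by ring
  refine ⟨(2 : ℚ_[2]) ^ k • x, ⟨⟨h.1.1.const_smul _, fun g hg => (two_pow hL k i _).2
    (h.1.2.1 g hg), fun g hg g' hg' => ?_⟩, fun v => ?_⟩, funext fun g => ?_⟩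
  · rw [hA.d2_smul, e, two_pow hL]; exact h.1.2.2 g hg g' hg'
  · obtain ⟨t, a, b⟩ := h.2 v
    refine ⟨(2 : ℚ_[2]) ^ k • t, hZ.z_smul R _ _ _ a fun g hg => (two_pow hL k i _).2
      (a.1.2.1 g hg), fun g hg => ?_⟩
    rw [Pi.smul_apply, Pi.smul_apply, ← smul_sub, e, two_pow hL]; exact b g hg
  · simp only [lam, Pi.smul_apply, e, two_pow hL]

theorem one (hL : LatSt) (hZ : ZSt) (i : ℤ) (y : G → ZMod 2) :
    y ∈ SS A R dy i 1 ↔ Hom ⊤ y ∧ ∀ v, res (A.D v) y ∈ R.W (A.D v) (dy v) i := by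
  rw [mem_SS A R dy hL hZ, Nat.cast_one]
  constructor
  · rintro ⟨x, h, rfl⟩
    refine ⟨hZ.hom_lam R ⊤ h.1 (lt_add_one i), fun v => ?_⟩
    obtain ⟨t, a, b⟩ := h.2 v
    refine (hZ.mem_W R _ _ _ _).2 ⟨t, a, funext fun g => ?_⟩
    by_cases e : g ∈ A.D v
    · simpa [res, e] using hL.lam_congr (b g e)
    · simp [res, e]
  · rintro ⟨h, h'⟩
    obtain ⟨x, a, b⟩ := hZ.lev_hom R ⊤ i y h
    refine ⟨x, ⟨a, fun v => ?_⟩, funext fun g => (b g).2.symm⟩
    obtain ⟨t, c, d⟩ := (hZ.mem_W R _ _ _ _).1 (h' v)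
    refine ⟨t, c, fun g hg => (hL.lam_zero i _).1 ?_⟩
    rw [hL.lam_sub (b g).1 (c.1.2.1 g hg), (b g).2, res_eq d hg, CharTwo.add_self_eq_zero]

theorem sym_zero (v : P) (a b : G → ZMod 2) (h : Hom (A.D v) a) (h' : ∀ g ∈ A.D v, b g = 0) :
    A.sym v a b = 0 := by
  have := A.add v 0 0 a (hom_zero _) (hom_zero _) h
  rw [add_zero, CharTwo.add_self_eq_zero] at this
  rw [A.congr v a a b 0 (fun _ _ => rfl) h', A.comm v a 0 h (hom_zero _), this]

theorem iso (hO : OmSt) (hA : AcSt) (hZ : ZSt) (v : P) (dy : Prop)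
    (hd : dy → ∀ g ∈ A.D v, R.η g = 0) (i : ℤ) (a b : G → ZMod 2)
    (h : res (A.D v) a ∈ R.W (A.D v) dy (i + 1)) (h' : res (A.D v) b ∈ R.W (A.D v) dy i) :
    A.sym v a b = 0 := by
  obtain ⟨t, c, d⟩ := (hZ.mem_W R _ _ _ _).1 h
  obtain ⟨t', c', d'⟩ := (hZ.mem_W R _ _ _ _).1 h'
  obtain ⟨f, f1, f2⟩ := hZ.cup R _ dy hd c c'
  rw [A.congr v a _ b _ (fun _ => res_eq d) fun _ => res_eq d']
  refine A.rloc v _ _ (hZ.hom_lam R _ (hZ.lev_coc R c.1 _) (lt_add_one _))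
    (hZ.hom_lam R _ (hZ.lev_coc R c'.1 _) (lt_add_one _)) (fun g => f g / 2 ^ (i + 1))
    (f1.div_const _) fun g hg g' hg' => ?_
  have := hO.om_lam (k := i) (c.1.2.1 g hg) ((hA.mem R g i _).2 (c'.1.2.1 g' hg')) (by ring)
  rw [hA.lam_ac, f2 g hg g' hg', norm_sub_rev] at this
  rwa [show dq A.χ (fun g => f g / 2 ^ (i + 1)) g g' = dq A.χ f g g' / 2 ^ (i + 1) by
    simp only [dq]; ring]

theorem recip (hO : OmSt) (y z : G → ZMod 2) (hy : Hom ⊤ y) (hz : Hom ⊤ z) (S : Finset P)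
    (h : ∀ v ∉ S, A.sym v y z = 0) : ∑ v ∈ S, A.sym v y z = 0 := by
  have cy : Continuous y := continuousOn_univ.1 hy.1
  have cz : Continuous z := continuousOn_univ.1 hz.1
  refine A.rglob (fun g h => hf (y g * z h)) 1 ((continuous_of_discreteTopology (f := hf)).comp
    (by fun_prop))
    (fun g h => by simpa using hO.hf_two _) (fun g h l => ?_) y hy (fun _ => z)
    (fun v => ⟨cz.continuousOn, fun g _ h _ => hz.2 g trivial h trivial⟩)
    (fun v => ⟨0, continuousOn_const, fun g _ h _ => by simp [dq]⟩) S h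
  have n2 : ‖(2 : ℚ_[2])‖ = 2⁻¹ := by simpa using Padic.norm_p (p := 2)
  have a := hO.hf_two (y h * z l)
  rw [norm_mul, n2] at a
  have := norm3 ((hO.unit_half (A.χ g) (hf (y h * z l))).trans (by linarith))
    (hO.hf_add (y g * z l) (y h * z l)) (hO.hf_add (y g * z h) (y g * z l))
  rw [hy.2 g trivial h trivial, hz.2 h trivial l trivial, add_mul, mul_add]
  convert this using 2
  ring

end SelAux

open SelAux in
theorem st_Sel (hL : LatSt) (hO : OmSt) (hA : AcSt) (hZ : ZSt) : SelSt where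
  add A R dy _ _ _ _ := add A R dy hZ
  mono A R dy _ _ _ _ _ := mono A R dy hL hZ
  of_mem A R dy _ _ := of_mem A R dy hZ
  ker A R dy _ _ _ _ := ker A R dy hL hZ
  mem_SS A R dy := mem_SS A R dy hL hZ
  per A R dy i k n := le_antisymm (by simpa using per_le A R dy hL hA hZ (i + 2 * k) (-k) n)
    (per_le A R dy hL hA hZ i k n)
  one A R dy := one A R dy hL hZ
  sym_zero A := sym_zero A
  add_right A v a b b' h1 h2 h3 := by
    rw [A.comm v a _ h1 (hZ.hom_add h2 h3), A.add v b b' a h2 h3 h1, A.comm v a b h1 h2,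
      A.comm v a b' h1 h3]
  iso A R := iso A R hO hA hZ
  recip A := recip A hO

end Pool.Agent.SC
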