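import Pool.Agent.Lib.MP_b4b3cb_nt.StC

/-! From the induced representation back to the character. -/

namespace Pool.Agent.SC

open NumberField Pool.Agent.Stark
open scoped Classical Pointwise

namespace ShapAux

variable {G : Type} [Group G] [TopologicalSpace G] {χ : G →* ℤ_[2]ˣ} {R : Rp χ} {x : G → V}

lemma ac0 {g : G} (h : R.η g = 0) (v : V) :
    R.ac g v = (((R.r g : ℤ_[2]) : ℚ_[2]) * v.1, ((R.s g : ℤ_[2]) : ℚ_[2]) * v.2) := if_pos h

lemma ac1 {g : G} (h : R.η g = 1) (v : V) :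
    R.ac g v = (((R.r g : ℤ_[2]) : ℚ_[2]) * v.2, ((R.s g : ℤ_[2]) : ℚ_[2]) * v.1) :=
  if_neg (by rw [h]; exact one_ne_zero)

lemma conj (hA : AcSt) (hx : ∀ g h, x (g * h) = x g + R.ac g (x h)) (σ g : G) (u : V) :
    x g = R.ac σ (x (σ⁻¹ * g * σ) - R.d1 u (σ⁻¹ * g * σ)) + R.d1 (R.ac σ u - x σ) g := by
  have e : σ * (σ⁻¹ * g * σ) = g * σ := by group
  have a := hx σ (σ⁻¹ * g * σ)
  rw [e, hx] at a
  simp only [Rp.d1, (hA.lin R _).map_sub]
  rw [← hA.mul R σ, e, hA.mul, eq_sub_of_add_eq a]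
  abel

lemma cob (hA : AcSt) (hx : ∀ g h, x (g * h) = x g + R.ac g (x h)) {σ g : G} {u : V}
    (hg : R.η g = 0) (h : (R.ac σ (x (σ⁻¹ * g * σ) - R.d1 u (σ⁻¹ * g * σ))).1 = 0) :
    (x g).1 = ((R.r g : ℤ_[2]) : ℚ_[2]) * (R.ac σ u - x σ).1 - (R.ac σ u - x σ).1 := by
  rw [conj hA hx σ g u, Prod.fst_add, h, zero_add, Rp.d1, ac0 hg]
  rfl

lemma triv0 (hA : AcSt) (hx : ∀ g h, x (g * h) = x g + R.ac g (x h)) {c : G} (hc : c * c = 1)
    (hη : R.η c = 1) (h : ∀ g, R.η g = 0 → (x g).1 = 0) : ∃ u, ∀ g, x g = R.d1 u g := by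
  have m : ∀ g h, R.η (g * h) = R.η g + R.η h := fun g h => R.hη.2 g trivial h trivial
  have x1 : x 1 = 0 := by
    have := hx 1 1
    rwa [mul_one, hA.one, left_eq_add] at this
  have a := congrArg Prod.fst (hx c c)
  rw [hc, x1, ac1 hη] at a
  simp only [Prod.fst_zero, Prod.fst_add] at a
  have r0 : ((R.r c : ℤ_[2]) : ℚ_[2]) ≠ 0 := by simp
  have e0 : ∀ g, R.η g = 0 → x g = R.d1 (0, -(x c).2) g := fun g hg => by
    have b := h (c * (g * c)) (by rw [m, m, hg, hη]; decide)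
    rw [hx, hx, ac1 hη, ac0 hg] at b
    simp only [Prod.fst_add, Prod.snd_add] at b
    rw [Rp.d1, ac0 hg]
    refine Prod.ext (by simp [h g hg]) (mul_left_cancel₀ r0 ?_)
    simp only [Prod.snd_sub]
    linear_combination b + a
  have e1 : x c = R.d1 (0, -(x c).2) c := by
    rw [Rp.d1, ac1 hη]
    refine Prod.ext ?_ (by simp)
    simp only [Prod.fst_sub]
    linear_combination -a
  generalize ((0, -(x c).2) : V) = u at e0 e1
  refine ⟨u, fun g => ?_⟩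
  rcases zmod2_cases (R.η g) with hg | hg
  · exact e0 g hg
  · have e : g = g * c * c := by rw [mul_assoc, hc, mul_one]
    rw [e, hx, e0 _ (by rw [m, hg, hη]; decide), e1]
    simp only [Rp.d1, (hA.lin R _).map_sub]
    rw [← hA.mul]
    abel

lemma triv (hA : AcSt) (hx : ∀ g h, x (g * h) = x g + R.ac g (x h)) {c : G} (hc : c * c = 1)
    (hη : R.η c = 1) {a : ℚ_[2]}
    (h : ∀ g, R.η g = 0 → (x g).1 = ((R.r g : ℤ_[2]) : ℚ_[2]) * a - a) :
    ∃ u, ∀ g, x g = R.d1 u g := by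
  obtain ⟨u, hu⟩ := triv0 (x := fun g => x g - R.d1 (a, 0) g) hA (fun g h => by
    simp only [Rp.d1, (hA.lin R _).map_sub, hx, hA.mul]
    abel) hc hη fun g hg => by simp [Rp.d1, ac0 hg, h g hg]
  refine ⟨u + (a, 0), fun g => ?_⟩
  rw [eq_add_of_sub_eq (hu g)]
  simp only [Rp.d1, (hA.lin R _).map_add]
  abel

end ShapAux

open ShapAux

variable {K L Ω : Type} [Field K] [NumberField K] [Field L] [NumberField L] [Algebra K L] [Field Ω]
  [Algebra K Ω] [Algebra L Ω] [IsScalarTower K L Ω] [IsAlgClosed Ω]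

theorem st_Shap (hA : AcSt) (hG : GlSt K L Ω) (hP : PrimeSt K Ω) : ShapSt K L Ω := by
  intro d E 𝔣 ρ δ sec π A R hX c hc hc' x hx hZ hn
  have m : ∀ {g}, g ∈ Gs K Ω L ↔ R.η g = 0 := fun {g} => by rw [hX.hη]; exact hG.iff E g
  have co : ∀ g h, x (g * h) = x g + R.ac g (x h) := fun g h =>
    (sub_eq_zero.1 (hx.2.2 g trivial h trivial)).symm
  have loc : ∀ v, ∃ u, ∀ g ∈ Dec K (π.pr v), (x g).1 = (R.d1 u g).1 ∧
      (og v (2 : K) = 0 → (x g).2 = (R.d1 u g).2) := fun v => by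
    obtain ⟨u, hu⟩ := (hZ (.inl v)).2
    rw [hX.hD] at hu
    exact ⟨u, fun g hg => ⟨(hu g hg).1, fun e => (hu g hg).2 fun e' => e' e⟩⟩
  refine ⟨fun g => (x g).1, continuous_fst.comp (by simpa using hx.1), fun g hg h _ => ?_,
    fun 𝔓 h1 h2 => ?_, fun 𝔓 v h => ?_, fun ⟨a, ha⟩ => hn (triv hA co hc
      ((zmod2_cases _).resolve_left (mt m.2 hc')) (a := a) fun g hg => ?_)⟩
  · beta_reduce
    rw [co, ac0 (m.1 hg), hX.hr g hg]
    rfl
  · obtain ⟨q, hq⟩ := hP.under K 𝔓 h1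
    obtain ⟨σ, -, rfl⟩ := hP.trans (π.hov q) hq
    obtain ⟨u, hu⟩ := loc q
    refine ⟨(R.ac σ u - x σ).1, fun g hg => ?_⟩
    have := hu _ ((hP.dec_conj _ σ g).1 hg.1)
    rw [← hX.hr g hg.2]
    refine cob hA co (m.1 hg.2) ?_
    rw [Prod.ext this.1 (this.2 ((hP.two hq).1 h2)), sub_self, (hA.lin R _).map_zero]
    rfl
  · obtain ⟨σ, hσ, rfl⟩ := hP.trans (hX.hov v) h
    obtain ⟨u, hu⟩ := loc v
    refine ⟨(R.ac σ u - x σ).1, fun g hg => ?_⟩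
    rw [← hX.hr g hg.2]
    refine cob hA co (m.1 hg.2) ?_
    rw [ac0 (m.1 hσ), Prod.fst_sub, (hu _ ((hP.dec_conj _ σ g).1 hg.1)).1, sub_self, mul_zero]
  · rw [hX.hr g (m.2 hg)]
    exact ha g (m.2 hg)

end Pool.Agent.SC
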