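import Pool.Agent.Lib.MP_b4b3cb_nt.StF

/-! The sign of the functional equation. -/

namespace Pool.Agent.SC

open NumberField Pool.Agent.Stark
open scoped Classical ComplexConjugate

namespace SignAux

variable {F : Type} [Field F] [NumberField F]

theorem cm_eq (ψ : Ideal (𝓞 F) →* ℂ) {I : Ideal (𝓞 F)} (h : I ≠ ⊥) : cm ψ I = ψ I := by
  unfold cm
  rw [← map_multiset_prod,
    associated_iff_eq.1 (UniqueFactorizationMonoid.prod_normalizedFactors h)]

theorem ser_ne (ψ : Ideal (𝓞 F) →* ℂ) (h : ∀ I : Ideal (𝓞 F), I ≠ ⊥ → ‖ψ I‖ ≤ 1) {s : ℂ}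
    (hs : 1 < s.re) :
    ∑' I : {I : Ideal (𝓞 F) // I ≠ ⊥}, ψ I.1 * (Ideal.absNorm I.1 : ℂ) ^ (-s) ≠ 0 := by
  have h1 := Lfun_ne_zero (∅ : Finset (Pr F)) ψ (fun q _ => h _ q.ne_bot) hs
  rw [EulerAux.Lfun_eq] at h1
  have := tsum_subtype {I : Ideal (𝓞 F) | I ≠ ⊥} fun I => ψ I * (Ideal.absNorm I : ℂ) ^ (-s)
  refine fun h0 => h1 (Eq.trans (tsum_congr fun I => ?_) (this.symm.trans h0))
  unfold EulerAux.tm
  by_cases hI : I = ⊥
  · rw [if_neg fun h' => h'.1 hI, Set.indicator_of_notMem (by simpa using hI)]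
  · rw [if_pos ⟨hI, by simp⟩, Set.indicator_of_mem (by exact hI), cm_eq ψ hI]

theorem sum_zc (ψ : Ideal (𝓞 F) →* ℂ) (h : ∀ I : Ideal (𝓞 F), I ≠ ⊥ → ‖ψ I‖ ≤ 1) {s : ℂ}
    (hs : 1 < s.re) : ∑ c, zc ψ c s =
      ∑' I : {I : Ideal (𝓞 F) // I ≠ ⊥}, ψ I.1 * (Ideal.absNorm I.1 : ℂ) ^ (-s) := by
  have h1 : Summable fun I : {I : Ideal (𝓞 F) // I ≠ ⊥} =>
      ψ I.1 * (Ideal.absNorm I.1 : ℂ) ^ (-s) :=
    Summable.of_norm_bounded (summable_zI hs) fun I => by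
      rw [norm_mul]
      exact mul_le_of_le_one_left (norm_nonneg _) (h _ I.2)
  rw [← (h1.hasSum.tsum_fiberwise ZetaZeroAux.cls).tsum_eq, tsum_fintype]
  rfl

theorem gam_eq (a : (F →+* ℂ) → ℤ) (s : ℂ) :
    Gam a s = ∏ σ : F →+* ℂ with 0 < a σ, Complex.Gammaℂ (s + a σ) :=
  (Finset.prod_subtype (p := fun σ => 0 < a σ) _ (by simp)
    fun σ => Complex.Gammaℂ (s + a σ)).symm

theorem gam_ne (a : (F →+* ℂ) → ℤ) {s : ℂ} (hs : 1 < s.re) : Gam a s ≠ 0 := by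
  refine Finset.prod_ne_zero_iff.2 fun k _ => ?_
  have h1 : (0 : ℝ) < a k.1 := by exact_mod_cast k.2
  rw [Complex.Gammaℂ_def]
  refine mul_ne_zero (mul_ne_zero two_ne_zero ?_) (Complex.Gamma_ne_zero_of_re_pos ?_)
  · exact Complex.cpow_ne_zero_iff.2 (Or.inl (mul_ne_zero two_ne_zero
      (Complex.ofReal_ne_zero.2 Real.pi_ne_zero)))
  · simp only [Complex.add_re, Complex.intCast_re]
    linarith

end SignAux

variable {K L : Type} [Field K] [NumberField K] [Field L] [NumberField L] [Algebra K L]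

omit [NumberField K] in
open SignAux in
theorem st_Sign (hF : ClFESt K L) (hH : HDSt K L) : SignSt K L := by
  intro d E 𝔣 𝔠 a ψ χ γ₀ hd hg ⟨Λ', hΛ', h1, A', hA', h2⟩
  obtain ⟨C, A, Λ, p, hC, hA, hp, h⟩ := hF hd hg
  refine ⟨C, hC, ?_⟩
  generalize C * Wt 𝔣 𝔠 a ψ χ (algebraMap K L γ₀) = W at h ⊢
  have hd' : Differentiable ℂ fun s => ∑ c, Λ c s := Differentiable.fun_sum fun c _ => (h c).1
  have e1 : (fun s => ∑ c, Λ c s) = Λ' := by
    refine AnalyticOnNhd.eq_of_eventuallyEq (z₀ := 2) (fun s _ => hd'.analyticAt s)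
      (fun s _ => hΛ'.analyticAt s) ?_
    filter_upwards [(isOpen_lt continuous_const Complex.continuous_re).mem_nhds
      (show 1 < (2 : ℂ).re by norm_num)] with s hs
    rw [h1 s hs, ← gam_eq, ← sum_zc ψ (hH.le hd) hs, Finset.mul_sum]
    exact Finset.sum_congr rfl fun c _ => (h c).2.1 s hs
  have e2 : ∀ s, Λ' s = W * (A : ℂ) ^ (-s) * Λ' (-s) := fun s => by
    rw [← e1]
    simp only
    rw [← (Finite.injective_iff_bijective.1 hp).sum_comp fun c => Λ c (-s), Finset.mul_sum]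
    exact Finset.sum_congr rfl fun c _ => (h c).2.2 s
  have d1 : ∀ B : ℝ, 0 < B → Differentiable ℂ fun s : ℂ => (B : ℂ) ^ (-s) := fun B hB =>
    differentiable_id.neg.const_cpow (Or.inl (Complex.ofReal_ne_zero.2 hB.ne'))
  have d2 : Differentiable ℂ fun s : ℂ => W * (A : ℂ) ^ (-s) + (A' : ℂ) ^ (-s) :=
    ((d1 A hA).const_mul W).add (d1 A' hA')
  have d3 : Differentiable ℂ fun s : ℂ => Λ' (-s) := hΛ'.comp differentiable_id.neg
  rcases AnalyticOnNhd.eq_zero_or_eq_zero_of_mul_eq_zero (U := Set.univ)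
    (fun s _ => d2.analyticAt s) (fun s _ => d3.analyticAt s)
    (fun s _ => by linear_combination h2 s - e2 s) isPreconnected_univ with h0 | h0
  · have := h0 0 trivial
    simp only [neg_zero, Complex.cpow_zero] at this
    linear_combination this
  · have h3 : 1 < (2 : ℂ).re := by norm_num
    have := h0 (-2) trivial
    rw [neg_neg, h1 2 h3, ← gam_eq] at this
    exact absurd this (mul_ne_zero (gam_ne a h3) (ser_ne ψ (hH.le hd) h3))

end Pool.Agent.SC
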