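import Pool.Agent.Lib.MP_b4b3cb_nt.StG

/-! Chains of subgroups of index two, sign cocycles, and the projection formula. -/

namespace Pool.Agent.SC

open NumberField Pool.Agent.Stark
open scoped Classical Pointwise Topology

namespace SylAux

section Syl

variable {G : Type} [Group G] (H U : Subgroup G) [U.Normal]

/-- The subgroup of `H` above a subgroup of the quotient. -/
def pull (T : Subgroup (H ⧸ U.subgroupOf H)) : Subgroup G :=
  (T.comap (QuotientGroup.mk' (U.subgroupOf H))).map H.subtype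

theorem pull_bot : pull H U ⊥ = H ⊓ U := by
  rw [pull, MonoidHom.comap_bot, QuotientGroup.ker_mk', Subgroup.subgroupOf_map_subtype, inf_comm]

theorem pull_mono {T T' : Subgroup (H ⧸ U.subgroupOf H)} (h : T ≤ T') :
    pull H U T ≤ pull H U T' := Subgroup.map_mono (Subgroup.comap_mono h)

theorem pull_top : pull H U ⊤ = H := by
  rw [pull, Subgroup.comap_top, ← MonoidHom.range_eq_map, Subgroup.range_subtype]

theorem pull_rel (T T' : Subgroup (H ⧸ U.subgroupOf H)) :
    (pull H U T).relIndex (pull H U T') = T.relIndex T' := by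
  rw [pull, pull, Subgroup.relIndex_map_map_of_injective _ _ H.subtype_injective,
    Subgroup.relIndex_comap,
    Subgroup.map_comap_eq_self_of_surjective (QuotientGroup.mk'_surjective _)]

theorem rel_mul {Γ : Type} [Group Γ] {T T' : Subgroup Γ} (h : T ≤ T') :
    T.relIndex T' * Nat.card T = Nat.card T' := by
  rw [← Nat.card_congr (Subgroup.subgroupOfEquivOfLe h).toEquiv]
  exact (T.subgroupOf T').index_mul_card

end Syl

theorem lc_cont {X Y : Type} [TopologicalSpace X] [TopologicalSpace Y] {D : Set X} {f : X → Y}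
    (h : LC D f) : ContinuousOn f D := fun g hg =>
  tendsto_const_nhds.congr' ((h g hg).mono fun _ e => e.symm)

section Hom

variable {G : Type} [Group G] [TopologicalSpace G] {H : Subgroup G} {d : G → ZMod 2}

theorem hom_one (hd : Hom H d) : d 1 = 0 := by
  have := hd.2 1 H.one_mem 1 H.one_mem
  rw [mul_one] at this
  exact left_eq_add.1 this

theorem hom_inv (hd : Hom H d) {g : G} (hg : g ∈ H) : d g⁻¹ = d g := by
  have := hd.2 g hg g⁻¹ (H.inv_mem hg)
  rw [mul_inv_cancel, hom_one hd] at this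
  generalize d g⁻¹ = x at this ⊢
  generalize d g = y at this ⊢
  revert x y
  decide

end Hom

section Proj

variable {G : Type} [Group G]

/-- The representatives of the two cosets. -/
def rp (σ : G) (c : ZMod 2) : G := if c = 0 then 1 else σ

/-- The factor in the subgroup. -/
def nn (d : G → ZMod 2) (σ : G) (c : ZMod 2) (g : G) : G := rp σ c * g * (rp σ (c + d g))⁻¹

/-- The summand of the transfer. -/
def tm (d u b f : G → ZMod 2) (ε : G → G → ZMod 2) (σ : G) (c : ZMod 2) (g : G) : ZMod 2 :=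
  f (nn d σ c g) + ε (rp σ c) g + ε (nn d σ c g) (rp σ (c + d g)) + u (rp σ c) * b (nn d σ c g)

theorem rp_mem {H : Subgroup G} {σ : G} (hσ : σ ∈ H) (c : ZMod 2) : rp σ c ∈ H := by
  unfold rp
  split_ifs
  · exact H.one_mem
  · exact hσ

theorem nn_memH {H : Subgroup G} {σ : G} (hσ : σ ∈ H) (d : G → ZMod 2) (c : ZMod 2) {g : G}
    (hg : g ∈ H) : nn d σ c g ∈ H :=
  H.mul_mem (H.mul_mem (rp_mem hσ c) hg) (H.inv_mem (rp_mem hσ _))

theorem nn_rp (d : G → ZMod 2) (σ : G) (c : ZMod 2) (g : G) :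
    nn d σ c g * rp σ (c + d g) = rp σ c * g := by
  simp [nn]

theorem nn_mul {d : G → ZMod 2} (σ : G) (c : ZMod 2) {g h : G} (e : d (g * h) = d g + d h) :
    nn d σ c g * nn d σ (c + d g) h = nn d σ c (g * h) := by
  simp only [nn, e, add_assoc]
  group

variable [TopologicalSpace G]

theorem hom_nn {H : Subgroup G} {σ : G} (hσ : σ ∈ H) (d : G → ZMod 2) {u : G → ZMod 2}
    (hu : Hom H u) (c : ZMod 2) {g : G} (hg : g ∈ H) :
    u (nn d σ c g) = u (rp σ c) + u g + u (rp σ (c + d g)) := by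
  rw [nn, hu.2 _ (H.mul_mem (rp_mem hσ c) hg) _ (H.inv_mem (rp_mem hσ _)),
    hu.2 _ (rp_mem hσ c) _ hg, hom_inv hu (rp_mem hσ _)]

theorem d_rp {H : Subgroup G} {σ : G} {d : G → ZMod 2} (hd : Hom H d) (h1 : d σ = 1)
    (c : ZMod 2) : d (rp σ c) = c := by
  unfold rp
  split_ifs with h
  · rw [hom_one hd, h]
  · rw [h1]
    revert c
    decide

theorem alg (a1 a2 a3 a4 a5 a6 a7 a8 a9 a10 f1 f2 f3 u1 u2 u3 b1 b2 : ZMod 2)
    (h1 : a1 + a2 = a3 + a4) (h2 : a5 + a6 = a3 + a7) (h3 : a8 + a6 = a9 + a10)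
    (h4 : a10 + (u1 + u2 + u3) * b2 = f1 + f2 + f3) :
    (f1 + a4 + a7 + u1 * b1) + (f2 + a5 + a8 + u3 * b2) + (f3 + a2 + a9 + u1 * (b1 + b2)) =
      a1 + u2 * b2 := by
  have two : (2 : ZMod 2) = 0 := rfl
  linear_combination h1 + h2 + h3 - h4 +
    (a3 + a4 + a7 + a9 + a10 - a1 - a6 + u1 * b1 + u1 * b2 + u3 * b2) * two

end Proj

end SylAux

open SylAux

theorem st_Syl : SylSt := by
  intro G _ H U hU hF Q h0 hs
  have : Fact (Nat.Prime 2) := ⟨Nat.prime_two⟩
  have key : ∀ n, 2 ^ n ∣ Nat.card (H ⧸ U.subgroupOf H) →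
      ∃ T : Subgroup (H ⧸ U.subgroupOf H), Nat.card T = 2 ^ n ∧ Q (pull H U T) := by
    intro n
    induction n with
    | zero => exact fun _ => ⟨⊥, by simp, by rwa [pull_bot]⟩
    | succ n ih =>
      intro hn
      obtain ⟨T, h1, h2⟩ := ih ((pow_dvd_pow 2 n.le_succ).trans hn)
      obtain ⟨T', h3, h4⟩ := Sylow.exists_subgroup_card_pow_succ hn h1
      refine ⟨T', h3, hs _ _ ?_ (pull_mono H U h4) ?_ ?_ h2⟩
      · rw [← pull_bot]
        exact pull_mono H U bot_le
      · exact (pull_mono H U le_top).trans (pull_top H U).le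
      · rw [pull_rel]
        have := rel_mul h4
        rw [h1, h3, pow_succ'] at this
        exact Nat.eq_of_mul_eq_mul_right (by positivity) this
  obtain ⟨n, m, hm, e⟩ := Nat.exists_eq_two_pow_mul_odd
    (Nat.card_pos (α := H ⧸ U.subgroupOf H)).ne'
  obtain ⟨T, h1, h2⟩ := key n ⟨m, e⟩
  refine ⟨pull H U T, ?_, (pull_mono H U le_top).trans (pull_top H U).le, ?_, h2⟩
  · rw [← pull_bot]
    exact pull_mono H U bot_le
  · have e1 := pull_rel H U T ⊤
    rw [pull_top, Subgroup.relIndex_top_right] at e1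
    have e2 := T.index_mul_card
    rw [h1, e, mul_comm] at e2
    rw [e1, Nat.eq_of_mul_eq_mul_left (by positivity) e2]
    exact hm

theorem st_Sz : SzSt where
  add := by
    rintro G _ _ D ε ε' ⟨f, h1, h2⟩ ⟨f', h3, h4⟩
    refine ⟨fun g => f g + f' g, h1.add h3, fun g hg h hh => ?_⟩
    simp only [Pi.add_apply, h2 g hg h hh, h4 g hg h hh]
    ring
  congr := by
    rintro G _ _ D ε ε' ⟨f, h1, h2⟩ e
    exact ⟨f, h1, fun g hg h hh => (e g hg h hh).symm.trans (h2 g hg h hh)⟩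
  mono := by
    rintro G _ _ D D' ε ⟨f, h1, h2⟩ e
    exact ⟨f, h1.mono e, fun g hg h hh => h2 g (e hg) h (e hh)⟩
  zero := by
    intro G _ _ D ε e
    exact ⟨fun _ => 0, continuousOn_const, fun g hg h hh => by simp [e g hg h hh]⟩
  swap := by
    rintro G _ _ D a b ha hb ⟨f, h1, h2⟩
    refine ⟨fun g => f g + a g * b g, h1.add (ha.1.mul hb.1), fun g hg h hh => ?_⟩
    have e := h2 g hg h hh
    have two : (2 : ZMod 2) = 0 := rfl
    simp only [cup, ha.2 g hg h hh, hb.2 g hg h hh] at e ⊢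
    linear_combination e - (a g * b g + a h * b h + a g * b h) * two
  cz_add := by
    rintro G _ _ D ε ε' ⟨h1, h2⟩ ⟨h3, h4⟩
    refine ⟨h1.add h3, fun g hg h hh k hk => ?_⟩
    simp only [Pi.add_apply]
    linear_combination h2 g hg h hh k hk + h4 g hg h hh k hk
  cz_mono := by
    rintro G _ _ D D' ε ⟨h1, h2⟩ e
    exact ⟨h1.mono (Set.prod_mono e e), fun g hg h hh k hk => h2 g (e hg) h (e hh) k (e hk)⟩
  cz_cup := by
    intro G _ _ D a b ha hb
    refine ⟨(ha.1.comp continuousOn_fst fun _ hp => hp.1).mul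
      (hb.1.comp continuousOn_snd fun _ hp => hp.2), fun g hg h hh k hk => ?_⟩
    simp only [cup, ha.2 g hg h hh, hb.2 h hh k hk]
    ring
  lc := by
    intro X Y _ _ _ D f
    refine ⟨lc_cont, fun h g hg => ?_⟩
    have := h g hg
    rw [ContinuousWithinAt, nhds_discrete Y, Filter.tendsto_pure] at this
    exact this
  lc_comp := fun φ h g hg => (h g hg).mono fun _ e => congrArg φ e
  lc_two := fun φ h h' g hg => ((h g hg).and (h' g hg)).mono fun _ e => by
    simp only [e.1, e.2]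
  lc_mono := fun h e g hg => (h g (e hg)).filter_mono (nhdsWithin_mono g e)
  lc_pull := fun h hφ hm g hg => ((hφ g hg).tendsto_nhdsWithin hm).eventually (h _ (hm hg))

theorem st_Proj : ProjSt := by
  rintro G _ _ _ H N d u b b' ε σ hd hN hσ h1 hε hu hb hb' ⟨f, hf1, hf2⟩
  have mem : ∀ c, ∀ g ∈ H, nn d σ c g ∈ N := by
    intro c g hg
    refine (hN _).2 ⟨nn_memH hσ d c hg, ?_⟩
    rw [hom_nn hσ d hd c hg, d_rp hd h1, d_rp hd h1]
    exact CharTwo.add_self_eq_zero _
  have c1 : ∀ c, ContinuousOn (fun g => rp σ (c + d g)) H := fun c =>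
    (continuous_of_discreteTopology (f := fun x : ZMod 2 => rp σ (c + x))).comp_continuousOn hd.1
  have c2 : ∀ c, ContinuousOn (nn d σ c) H := fun c =>
    (continuousOn_const.mul continuousOn_id).mul (c1 c).inv
  have c3 : ∀ c, ContinuousOn (tm d u b f ε σ c) H := fun c =>
    (((hf1.comp (c2 c) (mem c)).add
      (hε.1.comp (continuousOn_const.prodMk continuousOn_id) fun _ hg => ⟨rp_mem hσ c, hg⟩)).add
      (hε.1.comp ((c2 c).prodMk (c1 c)) fun _ hg => ⟨nn_memH hσ d c hg, rp_mem hσ _⟩)).add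
      (continuousOn_const.mul (hb.1.comp (c2 c) (mem c)))
  have key : ∀ c, ∀ g ∈ H, ∀ h ∈ H, tm d u b f ε σ c g + tm d u b f ε σ (c + d g) h +
      tm d u b f ε σ c (g * h) = ε g h + u g * b (nn d σ (c + d g) h) := by
    intro c g hg h hh
    have e := hd.2 g hg h hh
    have a1 := hε.2 _ (rp_mem hσ c) g hg h hh
    have a2 := hε.2 _ (nn_memH hσ d c hg) _ (rp_mem hσ (c + d g)) h hh
    have a3 := hε.2 _ (nn_memH hσ d c hg) _ (nn_memH hσ d (c + d g) hh) _
      (rp_mem hσ (c + d g + d h))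
    have a4 := hf2 _ (mem c g hg) _ (mem (c + d g) h hh)
    have a5 := hb.2 _ (mem c g hg) _ (mem (c + d g) h hh)
    rw [nn_rp] at a2 a3
    rw [nn_mul σ c e] at a3 a4 a5
    simp only [Pi.add_apply, cup] at a4
    rw [hom_nn hσ d hu c hg] at a4
    unfold tm
    rw [a5, e, ← add_assoc c]
    exact alg _ _ _ _ _ _ _ _ _ _ _ _ _ _ _ _ _ _ a1 a2 a3 a4
  have sw : ∀ (φ : ZMod 2 → ZMod 2) (x : ZMod 2), φ (0 + x) + φ (1 + x) = φ 0 + φ 1 := by
    intro φ x
    rcases zmod2_cases x with rfl | rfl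
    · simp
    · rw [zero_add, show (1 + 1 : ZMod 2) = 0 from rfl, add_comm]
  refine ⟨fun g => tm d u b f ε σ 0 g + tm d u b f ε σ 1 g, (c3 0).add (c3 1),
    fun g hg h hh => ?_⟩
  have k0 := key 0 g hg h hh
  have k1 := key 1 g hg h hh
  have s1 := sw (fun c => tm d u b f ε σ c h) (d g)
  have s2 := sw (fun c => b (nn d σ c h)) (d g)
  have e : b' h = b (nn d σ 0 h) + b (nn d σ 1 h) := by
    rw [hb' h hh]
    rcases zmod2_cases (d h) with e | e
    · simp [nn, rp, e]
    · simp [nn, rp, e, show (1 + 1 : ZMod 2) = 0 from rfl]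
  have two : (2 : ZMod 2) = 0 := rfl
  simp only [cup] at s1 s2 ⊢
  rw [e]
  linear_combination s1 - k0 - k1 - u g * s2 - ε g h * two

end Pool.Agent.SC
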