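import Pool.Agent.Lib.MP_b4b3cb_nt.StG

/-! The local symbols and the dictionary at all places. -/

namespace Pool.Agent.SC

open NumberField Pool.Agent.Stark
open scoped Classical Pointwise Topology

variable {K Ω : Type} [Field K] [NumberField K] [Field Ω] [Algebra K Ω] [IsAlgClosed Ω]
  [IsGalois K Ω] [CharZero Ω]

namespace SymAux

omit [NumberField K] [IsAlgClosed Ω] [IsGalois K Ω] [CharZero Ω]

theorem symz_zero {G : Type} [Group G] [TopologicalSpace G] {D : Subgroup G} {a b : G → ZMod 2} :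
    symz D a b = 0 ↔ Sz D (cup a b) := by
  unfold symz
  split_ifs with h <;> simp [h]

theorem kr_zero {r : Ω} {g : Ω ≃ₐ[K] Ω} : kr r g = 0 ↔ g r = r := by
  unfold kr
  split_ifs with h <;> simp [h]

theorem root_ne {F : Type} [Field F] [Algebra F Ω] {a : F} {r : Ω} (ha : a ≠ 0)
    (hr : r ^ 2 = algebraMap F Ω a) : r ≠ 0 := by
  rintro rfl
  exact (map_ne_zero (algebraMap F Ω)).2 ha (by simpa using hr.symm)

theorem fix_sq {F : Type} [Field F] [Algebra F Ω] {a : F} {r : Ω} {D : Subgroup (Ω ≃ₐ[K] Ω)}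
    (hr : r ^ 2 = algebraMap F Ω a) : Fix (D ⊓ Gs K Ω F) (r ^ 2) := fun g hg => hr ▸ hg.2 a

theorem fix_top {a : K} {r : Ω} {D : Subgroup (Ω ≃ₐ[K] Ω)} (hr : r ^ 2 = algebraMap K Ω a) :
    Fix D (r ^ 2) := fun g _ => hr ▸ g.commutes a

theorem inf_gs (D : Subgroup (Ω ≃ₐ[K] Ω)) : D ⊓ Gs K Ω K = D := by rw [Gs_self, inf_top_eq]

theorem kr_eq (hK : KumSt K Ω) {r s : Ω} (hr : r ≠ 0) (h : r ^ 2 = s ^ 2) (g : Ω ≃ₐ[K] Ω) :
    kr r g = kr s g :=
  hK.sq (H := ⊤) (t := 1) hr (by rintro rfl; exact hr (by simpa using h)) (fun g _ => map_one g)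
    (by simpa using h) g trivial

theorem exists_cls {F : Type} [Field F] [NumberField F] (q : Pr F) {y : Kc q} (hy : y ≠ 0) :
    ∃ b : F, b ≠ 0 ∧ IsSquare (emb q b * y) := by
  have L := isLoc_wv q
  have h4 : (4 : Kc q) ≠ 0 := by
    rw [show (4 : Kc q) = 2 * 2 by norm_num]; exact mul_ne_zero L.two L.two
  obtain ⟨b, hb⟩ := exists_approx q y (ord (wv q) (4 * y) + 1)
  have h : wv q (emb q b - y) < wv q (4 * y) := by
    refine (mem_pw.1 hb).trans_lt ?_
    rw [val_eq_exp (mul_ne_zero h4 hy), WithZero.exp_lt_exp]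
    omega
  have w0 : 0 < wv q y := zero_lt_iff.2 ((map_ne_zero _).2 hy)
  have h' : wv q (emb q b / y - 1) < wv q 4 := by
    rw [div_sub_one hy, map_div₀, div_lt_iff₀ w0, ← map_mul]
    exact h
  obtain ⟨t, ht⟩ := L.hens _ h'
  refine ⟨b, ?_, t * y, by rw [← div_mul_cancel₀ (emb q b) hy, ht]; ring⟩
  rintro rfl
  have h1 : wv q 4 ≤ 1 := by
    rw [show (4 : Kc q) = 1 + 1 + (1 + 1) by norm_num]
    have h2 : wv q (1 + 1) ≤ 1 := Valuation.map_add_le _ (map_one _).le (map_one _).le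
    exact Valuation.map_add_le _ h2 h2
  simp only [map_zero, zero_div, zero_sub, Valuation.map_neg, map_one] at h'
  exact h'.not_ge h1

end SymAux

open SymAux

theorem st_Sym (hN : NormSt K Ω) (hL : LocSt K Ω) (hK : KumSt K Ω) (hT : TopSt K Ω)
    (hP : PrimeSt K Ω) : SymSt K Ω := by
  intro F _ _ _ _ _ 𝔓 q hq
  have : FiniteDimensional K F := Module.Finite.of_restrictScalars_finite ℚ K F
  have hc : IsClosed ((Dec K 𝔓 ⊓ Gs K Ω F : Subgroup _) : Set (Ω ≃ₐ[K] Ω)) :=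
    (hP.closed 𝔓).inter (Subgroup.isClosed_of_isOpen _ (hT.gs_open F this))
  refine ⟨fun {a b r s} ha hb hr hs => zmod2_ext ?_, fun f hf => ?_⟩
  · rw [symz_zero, hN _ r s hc (root_ne ha hr) (root_ne hb hs) (fix_sq hr) (fix_sq hs),
      hL.norm hq ha hb, hr, hs]
  · obtain ⟨r, r0, r1, r2⟩ := hK.kum _ f hc hf
    obtain ⟨a, t, a0, t1, e⟩ := hL.dense hq _ (pow_ne_zero 2 r0) r1
    have t0 : t ≠ 0 := by rintro rfl; exact r0 (by simpa using e)
    refine ⟨a, r / t, a0, by rw [div_pow, e, mul_div_cancel_right₀ _ (pow_ne_zero 2 t0)],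
      fun g hg => (r2 g hg).trans (hK.sq r0 (div_ne_zero r0 t0) t1 ?_ g hg)⟩
    rw [div_pow, div_mul_cancel₀ _ (pow_ne_zero 2 t0)]

theorem st_Dict (hS : SymSt K Ω) (hL : LocSt K Ω) (hI : IneSt K Ω) (hC : CjSt K Ω)
    (hK : KumSt K Ω) (hT : TopSt K Ω) (hP : PrimeSt K Ω) : DictSt K Ω where
  closed π v := by
    rcases v with q | φ
    exacts [hP.closed _, (hC.sq (π.hc φ)).2.2]
  hom ha := hK.hom (root_ne ha (rt_sq _)) (fix_top (rt_sq _))
  mul {a b} ha hb := funext fun g => by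
    rw [kr_eq hK (s := rt Ω a * rt Ω b) (root_ne (mul_ne_zero ha hb) (rt_sq _))
      (by rw [mul_pow, rt_sq, rt_sq, rt_sq, map_mul])]
    exact hK.mul (H := ⊤) (root_ne ha (rt_sq _)) (root_ne hb (rt_sq _)) (fix_top (rt_sq _))
      (fix_top (rt_sq _)) g trivial
  glob f hf := by
    obtain ⟨r, r0, r1, r2⟩ := hK.kum ⊤ f isClosed_univ hf
    obtain ⟨a, ha⟩ := hT.gs_fix K _ (Gs_self (K := K) (Ω := Ω) ▸ r1)
    refine ⟨a, ?_, funext fun g => (r2 g trivial).trans (kr_eq hK r0 (by rw [rt_sq, ha]) g)⟩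
    rintro rfl
    exact r0 (by simpa using ha.symm)
  kum π v f hf := by
    rcases v with q | φ
    · obtain ⟨a, r, a0, r1, r2⟩ := (hS (π.hov q)).2 f (by rw [inf_gs]; exact hf)
      exact ⟨a, a0, fun g hg => (r2 g (by rw [inf_gs]; exact hg)).trans
        (kr_eq hK (root_ne a0 r1) (by rw [rt_sq, r1]) g)⟩
    · have f1 : f 1 = 0 := by simpa using hf.2 1 (one_mem _) 1 (one_mem _)
      have key : ∀ a : K, f (π.c φ) = kr (rt Ω a) (π.c φ) →
          ∀ g ∈ π.D (Sum.inr φ), f g = kr (rt Ω a) g := fun a h g hg => by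
        rcases ((hC.sq (π.hc φ)).2.1 g).1 hg with rfl | rfl
        exacts [f1.trans (kr_zero.2 rfl).symm, h]
      rcases zmod2_cases (f (π.c φ)) with h | h
      · exact ⟨1, one_ne_zero, key 1 (h.trans (kr_zero.2
          ((hC.lsq (π.hc φ) (π.hj φ) one_ne_zero (rt_sq _)).2 (by simp))).symm)⟩
      · refine ⟨-1, neg_ne_zero.2 one_ne_zero, key _ (h.trans ((zmod2_cases _).resolve_left
          fun e => ?_).symm)⟩
        have := (hC.lsq (π.hc φ) (π.hj φ) (neg_ne_zero.2 one_ne_zero) (rt_sq _)).1 (kr_zero.1 e)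
        simp at this
        linarith
  sym π v a b ha hb := by
    rcases v with q | φ
    · have := (hS (π.hov q)).1 ha hb (rt_sq a) (rt_sq b)
      rwa [inf_gs] at this
    · exact zmod2_ext (symz_zero.trans (hC.norm (π.hc φ) (π.hj φ) ha hb (rt_sq a) (rt_sq b)))
  zero π v a ha := by
    simp only [kr_zero]
    rcases v with q | φ
    · have := hL.sq (π.hov q) ha (rt_sq a)
      rw [inf_gs] at this
      exact this.symm
    · refine Iff.trans ⟨fun h => h _ (Subgroup.mem_zpowers _), fun h g hg => ?_⟩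
        (hC.lsq (π.hc φ) (π.hj φ) ha (rt_sq a))
      rcases ((hC.sq (π.hc φ)).2.1 g).1 hg with rfl | rfl
      exacts [rfl, h]
  unr π q a ha h2 := by
    simp only [kr_zero]
    have := hI.ine (π.hov q) h2 ha (rt_sq a)
    rw [inf_gs] at this
    exact this.symm
  congr D a a' b b' h h' := zmod2_ext <| by
    rw [symz_zero, symz_zero]
    refine exists_congr fun f => and_congr_right fun _ => forall₂_congr fun g hg =>
      forall₂_congr fun k hk => ?_
    rw [cup, cup, h g hg, h' k hk]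
  hp_mul v a a' b ha ha' hb := by
    rcases v with q | φ
    · change hs _ _ = hs _ _ + hs _ _
      rw [map_mul]
      exact (isLoc_wv q).hs_mul_left ((map_ne_zero _).2 ha) ((map_ne_zero _).2 ha')
        ((map_ne_zero _).2 hb)
    · change hs _ _ = hs _ _ + hs _ _
      rw [map_mul]
      exact hs_real_mul_left ((map_ne_zero _).2 ha) ((map_ne_zero _).2 ha') ((map_ne_zero _).2 hb)
  hp_comm v a b ha hb := by
    rcases v with q | φ
    exacts [hs_comm (isLoc_wv q).two ((map_ne_zero _).2 ha) ((map_ne_zero _).2 hb),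
      hs_comm two_ne_zero ((map_ne_zero _).2 ha) ((map_ne_zero _).2 hb)]
  hp_nd v a ha hn := by
    rcases v with q | φ
    · obtain ⟨y, y0, hy⟩ := (isLoc_wv q).exists_hs_one ((map_ne_zero _).2 ha) hn
      obtain ⟨b, b0, hb⟩ := exists_cls q y0
      exact ⟨b, b0, (hs_congr_right _ ((map_ne_zero _).2 b0) y0 hb).trans hy⟩
    · refine ⟨-1, neg_ne_zero.2 one_ne_zero, ?_⟩
      have a0 : φ a ≠ 0 := (map_ne_zero _).2 ha
      change hs (φ a) (φ (-1)) = 1
      rw [hs_real a0 (by simp), if_pos ⟨lt_of_le_of_ne (not_lt.1 hn) a0, by simp⟩]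

end Pool.Agent.SC
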