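import Pool.Agent.Lib.MP_b4b3cb_nt.StR

/-! The Weil index of the norm form. -/

namespace Pool.Agent.SC

open NumberField Pool.Agent.Stark
open scoped Classical ComplexConjugate

namespace TAux

variable {F : Type} [Field F] [NumberField F] {j : Pr F → ℤ} {gam : Pr F → F → ℂ}

theorem og_mul (v : Pr F) {x y : F} (hx : x ≠ 0) (hy : y ≠ 0) :
    og v (x * y) = og v x + og v y := ord_mul hx hy

theorem og_neg (v : Pr F) (x : F) : og v (-x) = og v x := ord_neg x

theorem key (W : WD j gam) (v : Pr F) {c d : F} (hc : c ≠ 0) (hd : d ≠ 0) :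
    gam v 1 * gam v (-d) = sg ℂ (hq v d c) * (gam v c * gam v (-(c * d))) := by
  have h1 := W.hs v d c hd hc
  have h2 := W.neg v c hc
  have h3 := W.neg v (c * d) (mul_ne_zero hc hd)
  rw [mul_comm d c] at h1
  rw [← h1]
  linear_combination (-(gam v 1 * gam v (-d)) * (gam v (c * d) * gam v (-(c * d)))) * h2 -
    gam v 1 * gam v (-d) * h3

theorem hq_inert (v : Pr F) {d x : F} (hd : d ≠ 0) (hx : x ≠ 0) (h2 : og v (2 : F) = 0)
    (he : Even (og v d)) (hn : ¬ LSq v d) : hq v d x = ((og v x : ℤ) : ZMod 2) := by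
  have hd' : emb v d ≠ 0 := (map_ne_zero _).2 hd
  have hx' : emb v x ≠ 0 := (map_ne_zero _).2 hx
  have h2' : ord (wv v) (2 : Kc v) = 0 := by rw [← h2, ← ord_emb, map_ofNat]
  have hu := (isLoc_wv v).unr_of_odd h2' hd' (by rwa [ord_emb])
  rw [hq, (isLoc_wv v).hs_of_unr hd' hu hx', ord_emb]
  exact if_neg hn

theorem e8_sq {s t : ℝ} (h : 0 < s ↔ 0 < t) :
    e8 s * e8 t = if 0 < t then Complex.I else -Complex.I := by
  unfold e8
  rw [← Complex.exp_add]
  by_cases ht : 0 < t
  · rw [if_pos ht, if_pos ht, if_pos (h.2 ht)]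
    refine Eq.trans ?_ Complex.exp_pi_div_two_mul_I
    congr 1
    ring
  · rw [if_neg ht, if_neg ht, if_neg (fun hs => ht (h.1 hs))]
    refine Eq.trans ?_ Complex.exp_neg_pi_div_two_mul_I
    congr 1
    ring

end TAux

open TAux

theorem st_T (hC : CnSt) : TSt where
  split := by
    intro F _ _ j gam W v c d hc hd hs
    rw [← neg_mul, W.sq v (-c) d (neg_ne_zero.2 hc) hd hs, W.neg v c hc]
  inert := by
    intro F _ _ j gam W v c d hc hd h2 he hn
    obtain ⟨x, hx, h1, -⟩ := hC.ex j W.isJ.fin {v}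
    have h1 := h1 v (Finset.mem_singleton_self v)
    have h3 := key W v hx hd
    rw [key W v hc hd, W.ev v x hx h2 (by simp [h1]),
      W.ev v _ (neg_ne_zero.2 (mul_ne_zero hx hd)) h2 (by
        rw [og_neg, og_mul v hx hd, h1]
        simpa using he), hq_inert v hd hc h2 he hn, hq_inert v hd hx h2 he hn, h1] at h3
    push_cast
    generalize ((og v c : ℤ) : ZMod 2) = a at h3 ⊢
    generalize ((j v : ℤ) : ZMod 2) = b at h3 ⊢
    have e1 : (0 : ZMod 2) - 1 = 1 := by decide
    rcases zmod2_cases a with rfl | rfl <;> rcases zmod2_cases b with rfl | rfl <;>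
      simp only [sg, e1, sub_zero, sub_self, if_true, one_ne_zero, if_false] at h3 ⊢ <;>
      first | linear_combination h3 | linear_combination -h3
  ram := by
    intro F _ _ j gam W v c d hc hd h2 ho hj
    rw [W.ev v _ (neg_ne_zero.2 (mul_ne_zero hc hd)) h2 (by
      rw [og_neg, og_mul v hc hd, add_sub_right_comm]
      exact hj.add_odd ho), mul_one]
  prod := by
    intro F _ _ j gam W γ d hγ hd hneg S hS
    have h2γ : 2 * γ ≠ 0 := mul_ne_zero two_ne_zero hγ
    have hφ : ∀ φ : F →+* ℝ, φ γ ≠ 0 := fun φ => (map_ne_zero φ).2 hγ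
    refine ⟨∏ φ : F →+* ℝ, |φ γ|⁻¹,
      Finset.prod_pos fun φ _ => inv_pos.2 (abs_pos.2 (hφ φ)), ?_⟩
    rw [Finset.prod_mul_distrib, W.prod _ h2γ S (fun v hv => ⟨(hS v hv).1, by
        rw [og_mul v two_ne_zero hγ, (hS v hv).1, (hS v hv).2.1, (hS v hv).2.2.2]
        simp⟩),
      W.prod _ (neg_ne_zero.2 (mul_ne_zero h2γ hd)) S (fun v hv => ⟨(hS v hv).1, by
        rw [og_neg, og_mul v h2γ hd, og_mul v two_ne_zero hγ, (hS v hv).1, (hS v hv).2.1,
          (hS v hv).2.2.1, (hS v hv).2.2.2]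
        simp⟩), ← Finset.prod_mul_distrib, ← Finset.prod_mul_distrib, ← Finset.card_univ,
      ← Finset.prod_const, Complex.ofReal_prod, ← Finset.prod_mul_distrib]
    refine Finset.prod_congr rfl fun φ _ => ?_
    have hn := hneg φ
    have e1 : φ (2 * γ) = 2 * φ γ := by rw [map_mul, map_ofNat]
    have e2 : φ (-(2 * γ * d)) = 2 * φ γ * -φ d := by
      rw [map_neg, map_mul, e1]
      ring
    rw [mul_comm (e8 _), e8_sq (by rw [e1, e2, mul_pos_iff_of_pos_right (neg_pos.2 hn)]), e1]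
    rcases lt_or_gt_of_ne (hφ φ) with h | h
    · rw [if_neg (by linarith), abs_of_neg h]
      push_cast
      ring
    · rw [if_pos (by linarith), abs_of_pos h]
      push_cast
      ring

end Pool.Agent.SC
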