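import Pool.Agent.Lib.MP_b4b3cb_nt.StR

/-! The quadratic Gauss sum at a nonsplit odd prime. -/

set_option linter.unusedSectionVars false

namespace Pool.Agent.SC

open NumberField Pool.Agent.Stark
open scoped Classical ComplexConjugate

namespace Tau4Aux

section One

variable {F : Type} [Field F] [NumberField F]

theorem gs_bij {𝔪 : Ideal (𝓞 F)} {f : 𝓞 F → ℂ} (hf : Per 𝔪 f) {A : Type} [Fintype A]
    (s : A → 𝓞 F) (hs : Function.Bijective fun a => Ideal.Quotient.mk 𝔪 (s a)) :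
    gs 𝔪 f = ∑ a, f (s a) := by
  rw [← finsum_eq_sum_of_fintype]
  symm
  refine finsum_eq_of_bijective _ hs fun a => hf _ _ ?_
  exact Ideal.Quotient.eq.1 (Ideal.Quotient.mk_out _).symm

theorem gs_eq (𝔪 : Ideal (𝓞 F)) [Fintype (𝓞 F ⧸ 𝔪)] (f : 𝓞 F → ℂ) :
    gs 𝔪 f = ∑ a : 𝓞 F ⧸ 𝔪, f (Quotient.out a) := finsum_eq_sum_of_fintype _

theorem fin_quot (q : Pr F) : Finite (𝓞 F ⧸ q.asIdeal) :=
  Ideal.finiteQuotientOfFreeOfNeBot _ q.ne_bot

theorem card_quot (q : Pr F) : Nat.card (𝓞 F ⧸ q.asIdeal) = Ideal.absNorm q.asIdeal := by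
  rw [Ideal.absNorm_apply, Submodule.cardQuot_apply]

theorem og_mul (q : Pr F) {x y : F} (hx : x ≠ 0) (hy : y ≠ 0) :
    og q (x * y) = og q x + og q y := ord_mul hx hy

theorem og_two (q : Pr F) : 0 ≤ og q (2 : F) := by
  have h := og_nonneg q (2 : 𝓞 F)
  rwa [show ((2 : 𝓞 F) : F) = 2 from map_ofNat (algebraMap (𝓞 F) F) 2] at h

theorem two_not_mem {q : Pr F} (h : og q (2 : F) = 0) : (2 : 𝓞 F) ∉ q.asIdeal := fun h2 => by
  have h3 := (og_pos_iff q (x := (2 : 𝓞 F)) two_ne_zero).2 h2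
  rw [show ((2 : 𝓞 F) : F) = 2 from map_ofNat (algebraMap (𝓞 F) F) 2, h] at h3
  exact lt_irrefl _ h3

theorem eq_of_out {𝔪 : Ideal (𝓞 F)} {a b : 𝓞 F ⧸ 𝔪}
    (h : (Quotient.out a : 𝓞 F) - Quotient.out b ∈ 𝔪) : a = b := by
  rw [← Ideal.Quotient.mk_out a, ← Ideal.Quotient.mk_out b]
  exact Ideal.Quotient.eq.2 h

/-- A square multiple which is integral and a unit at `v`. -/
theorem exists_sq (hC : CnSt) (v : Pr F) {d : F} (hd : d ≠ 0) (he : Even (og v d)) :
    ∃ (t : F) (D : 𝓞 F), t ≠ 0 ∧ (D : F) = d * t ^ 2 ∧ og v (D : F) = 0 := by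
  obtain ⟨m, hm⟩ := he
  obtain ⟨t, t0, h1, h2⟩ := hC.ex (fun q : Pr F => if q = v then -m else |og q d|)
    (((og_finite d).insert v).subset fun q hq => by
      by_cases h : q = v
      · exact Or.inl h
      · refine Or.inr fun h0 => hq ?_
        simp only [if_neg h, h0, abs_zero]) {v}
  have h3 : ∀ q : Pr F, og q (d * t ^ 2) = og q d + 2 * og q t := fun q => by
    rw [og_mul q hd (pow_ne_zero _ t0), og, og, og, ord_pow]
    rfl
  have h4 : og v (d * t ^ 2) = 0 := by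
    have h5 := h1 v (Finset.mem_singleton_self v)
    rw [if_pos rfl] at h5
    rw [h3, h5, hm]
    ring
  obtain ⟨D, hD⟩ := exists_int_of_og (x := d * t ^ 2) fun q => by
    by_cases h : q = v
    · rw [h, h4]
    · have h5 := h2 q
      rw [if_neg h] at h5
      have h6 := neg_abs_le (og q d)
      have h7 := abs_nonneg (og q d)
      rw [h3]
      omega
  exact ⟨t, D, t0, hD, by rw [hD, h4]⟩

end One

variable {K L : Type} [Field K] [NumberField K] [Field L] [NumberField L] [Algebra K L]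

theorem coe_alg (x : 𝓞 K) : ((algebraMap (𝓞 K) (𝓞 L) x : 𝓞 L) : L) = algebraMap K L (x : K) := rfl

theorem sg_alg {d : K} (E : Quad K L d) (x : 𝓞 K) :
    E.sg (algebraMap (𝓞 K) (𝓞 L) x) = algebraMap (𝓞 K) (𝓞 L) x :=
  RingOfIntegers.ext (E.tau.commutes (x : K))

theorem tr_alg (hQ : QdSt K L) {d : K} (E : Quad K L d) (g : K) :
    eTr (algebraMap K L g) = eTr (2 * g) := by
  have h := hQ.tr E g 0
  rwa [map_zero, zero_mul, add_zero] at h

end Tau4Aux

open Tau4Aux

variable {K L : Type} [Field K] [NumberField K] [Field L] [NumberField L] [Algebra K L]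

theorem st_Tau4 (hC : CnSt) (hQ : QdSt K L) : Tau4St K L := by
  intro d E j gam hW w γ hw h2 γ0 hγ hγ'
  set v := below K w with hv
  have hsg : ∀ x ∈ w.asIdeal, E.sg x ∈ w.asIdeal := fun x hx => E.mem_act.1 (by rwa [hw])
  have c0 : (2 * γ : K) ≠ 0 := mul_ne_zero two_ne_zero γ0
  have hc : og v (2 * γ) = j v - 1 := by rw [og_mul v two_ne_zero γ0, h2, hγ, zero_add]
  have hc' : ∀ q ≠ v, j q ≤ og q (2 * γ) := fun q hq => by
    have h3 := og_two q
    have h4 := hγ' q hq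
    rw [og_mul q two_ne_zero γ0]
    omega
  have P1 : ∀ x ∈ w.asIdeal, eTr (algebraMap K L γ * (x : L)) = 1 := fun x hx => by
    obtain ⟨t, ht, h⟩ := hQ.tr_int E x
    have h3 : t ∈ v.asIdeal := (hQ.mem_below w t).2 (ht ▸ add_mem hx (hsg x hx))
    have h4 := (hW.isJ.iff (γ * (t : K))).2 (fun q => by
      by_cases t0 : t = 0
      · simp [t0]
      have t1 : (t : K) ≠ 0 := by simpa using t0
      refine mem_pw_iff.2 (Or.inr ?_)
      change j q ≤ og q (γ * (t : K))
      rw [og_mul q γ0 t1]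
      by_cases hq : q = v
      · have h5 := (og_pos_iff v t0).2 h3
        rw [hq]
        omega
      · have h5 := og_nonneg q t
        have h6 := hγ' q hq
        omega) 1
    rw [h γ]
    simpa using h4
  have hper : Per w.asIdeal fun x => eTr (algebraMap K L γ * ((x ^ 2 : 𝓞 L) : L)) :=
    fun x y hxy => by
      have h3 := P1 ((x + y) * (x - y)) (Ideal.mul_mem_left _ _ hxy)
      have h4 : algebraMap K L γ * ((x ^ 2 : 𝓞 L) : L) = algebraMap K L γ * ((y ^ 2 : 𝓞 L) : L) +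
          algebraMap K L γ * (((x + y) * (x - y) : 𝓞 L) : L) := by
        push_cast
        ring
      change eTr _ = eTr _
      rw [h4, eTr_add, h3, mul_one]
  refine ⟨P1, ?_, ?_⟩
  · by_contra hx
    push Not at hx
    have h3 := (hW.isJ.iff (2 * γ)).1 (fun y => by
      have h4 := hx (algebraMap (𝓞 K) (𝓞 L) y)
      rwa [coe_alg, ← map_mul, tr_alg hQ E, ← mul_assoc] at h4) v
    have h4 : j v ≤ og v (2 * γ) := (mem_pw_iff.1 h3).resolve_left c0
    omega
  have := fin_quot v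
  have := fin_quot w
  have := Fintype.ofFinite (𝓞 K ⧸ v.asIdeal)
  obtain ⟨r, r0, hr⟩ := hW.gauss v (2 * γ) c0 h2 hc hc'
  rw [gs_eq] at hr
  by_cases he : eI K w = 2
  · have hN : Ideal.absNorm w.asIdeal = Ideal.absNorm v.asIdeal := by
      rcases E.efg w with h | h | h
      · exact h.2.2
      · omega
      · exact h.2.2
    refine ⟨r, r0, ?_⟩
    rw [if_pos he, ← hr, gs_bij hper
      (fun a : 𝓞 K ⧸ v.asIdeal => algebraMap (𝓞 K) (𝓞 L) (Quotient.out a))]
    · refine Finset.sum_congr rfl fun a _ => ?_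
      rw [← map_pow, coe_alg, ← map_mul, tr_alg hQ E, ← mul_assoc]
      rfl
    · refine Function.Injective.bijective_of_nat_card_le (fun a b hab => ?_) ?_
      · have h3 := Ideal.Quotient.eq.1 hab
        rw [← map_sub] at h3
        exact eq_of_out ((hQ.mem_below w _).2 h3)
      · rw [card_quot, card_quot, hN]
  have hN : Ideal.absNorm w.asIdeal = Ideal.absNorm v.asIdeal ^ 2 := by
    rcases E.efg w with h | h | h
    · exact absurd hw h.1
    · exact h.2.2
    · exact absurd h.2.1 he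
  have hev : Even (og v d) := Int.not_odd_iff_even.1 fun h => he ((hQ.ram E w h2).2 h)
  obtain ⟨t, D, t0, hD, hD'⟩ := exists_sq hC v E.a_ne hev
  have D0 : (D : K) ≠ 0 := hD ▸ mul_ne_zero E.a_ne (pow_ne_zero _ t0)
  have D1 : D ≠ 0 := by simpa using D0
  have hsq : (algebraMap K L t * E.rt) ^ 2 = algebraMap K L (D : K) := by
    rw [mul_pow, E.sq, hD, map_mul, map_pow, mul_comm]
  have hint : IsIntegral ℤ (algebraMap K L t * E.rt) := by
    refine IsIntegral.of_pow two_pos ?_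
    rw [hsq, ← coe_alg]
    exact RingOfIntegers.isIntegral_coe _
  set ρ : 𝓞 L := ⟨algebraMap K L t * E.rt, hint⟩ with hρ
  have hρ1 : (ρ : L) = algebraMap K L t * E.rt := rfl
  have hρ2 : ρ ^ 2 = algebraMap (𝓞 K) (𝓞 L) D := RingOfIntegers.ext hsq
  have hρ3 : E.sg ρ = -ρ := RingOfIntegers.ext (by
    change E.tau (algebraMap K L t * E.rt) = -(algebraMap K L t * E.rt)
    rw [map_mul, AlgEquiv.commutes, E.tau_rt, mul_neg])
  have hρ4 : ρ ∉ w.asIdeal := fun h => by
    have h3 : D ∈ v.asIdeal :=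
      (hQ.mem_below w D).2 (hρ2 ▸ Ideal.pow_mem_of_mem _ h 2 two_pos)
    have h4 := (og_pos_iff v D1).2 h3
    omega
  have hw2 : (2 : 𝓞 L) ∉ w.asIdeal := two_not_mem ((hQ.two w).2 h2)
  have e0 : (2 * γ * (D : K) : K) ≠ 0 := mul_ne_zero c0 D0
  obtain ⟨r', r0', hr'⟩ := hW.gauss v (2 * γ * (D : K)) e0 h2
    (by rw [og_mul v c0 D0, hc, hD', add_zero]) fun q hq => by
      have h3 := og_nonneg q D
      have h4 := hc' q hq
      rw [og_mul q c0 D0]
      omega
  rw [gs_eq] at hr'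
  have hg : gam v (2 * γ * (D : K)) = gam v (2 * γ * d) := by
    rw [hD, ← mul_assoc]
    refine hW.sq v _ _ (mul_ne_zero c0 E.a_ne) (pow_ne_zero _ t0) ?_
    exact ⟨emb v t, by rw [sq, map_mul]⟩
  refine ⟨r * r', mul_pos r0 r0', ?_⟩
  rw [if_neg he, gs_bij hper (fun a : (𝓞 K ⧸ v.asIdeal) × (𝓞 K ⧸ v.asIdeal) =>
    algebraMap (𝓞 K) (𝓞 L) (Quotient.out a.1) + algebraMap (𝓞 K) (𝓞 L) (Quotient.out a.2) * ρ)]
  · rw [← hg, Complex.ofReal_mul, mul_mul_mul_comm, ← hr, ← hr', Finset.sum_mul_sum,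
      Fintype.sum_prod_type]
    refine Finset.sum_congr rfl fun a _ => Finset.sum_congr rfl fun b _ => ?_
    generalize (Quotient.out a : 𝓞 K) = g
    generalize (Quotient.out b : 𝓞 K) = h
    have h3 : algebraMap K L γ *
        (((algebraMap (𝓞 K) (𝓞 L) g + algebraMap (𝓞 K) (𝓞 L) h * ρ) ^ 2 : 𝓞 L) : L) =
        algebraMap K L (γ * ((g : K) ^ 2 + (D : K) * (h : K) ^ 2)) +
          algebraMap K L (γ * (2 * (g : K) * (h : K) * t)) * E.rt := by
      have h4 : (((algebraMap (𝓞 K) (𝓞 L) g + algebraMap (𝓞 K) (𝓞 L) h * ρ) ^ 2 : 𝓞 L) : L) =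
          (algebraMap K L (g : K) + algebraMap K L (h : K) * (algebraMap K L t * E.rt)) ^ 2 := rfl
      rw [h4]
      simp only [map_mul, map_add, map_pow, map_ofNat, ← hsq]
      ring
    rw [h3, hQ.tr E, ← eTr_add]
    congr 1
    ring
  · refine Function.Injective.bijective_of_nat_card_le (fun a b hab => ?_) ?_
    · have h3 := Ideal.Quotient.eq.1 hab
      set g : 𝓞 K := Quotient.out a.1 - Quotient.out b.1 with hg'
      set h : 𝓞 K := Quotient.out a.2 - Quotient.out b.2 with hh'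
      have h4 : algebraMap (𝓞 K) (𝓞 L) g + algebraMap (𝓞 K) (𝓞 L) h * ρ ∈ w.asIdeal := by
        convert h3 using 1
        rw [hg', hh', map_sub, map_sub]
        ring
      have h5 := hsg _ h4
      rw [map_add, map_mul, sg_alg, sg_alg, hρ3] at h5
      have h6 : 2 * algebraMap (𝓞 K) (𝓞 L) g ∈ w.asIdeal := by
        convert add_mem h4 h5 using 1
        ring
      have h7 : 2 * (algebraMap (𝓞 K) (𝓞 L) h * ρ) ∈ w.asIdeal := by
        convert sub_mem h4 h5 using 1
        ring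
      have h8 := (w.isPrime.mem_or_mem h6).resolve_left hw2
      have h9 := (w.isPrime.mem_or_mem
        ((w.isPrime.mem_or_mem h7).resolve_left hw2)).resolve_right hρ4
      exact Prod.ext (eq_of_out ((hQ.mem_below w _).2 h8)) (eq_of_out ((hQ.mem_below w _).2 h9))
    · rw [Nat.card_prod, card_quot, card_quot, hN, sq]

end Pool.Agent.SC
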