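import Pool.Agent.Lib.MP_b4b3cb_nt.StG

/-! Topology of the Galois group. -/

namespace Pool.Agent.SC

open NumberField Pool.Agent.Stark
open scoped Classical Pointwise Topology

namespace TopAux

section Grp

variable {G : Type} [Group G] [TopologicalSpace G] [IsTopologicalGroup G] {Y : Type}

theorem unif {S : Set G} {f : G → Y} (hS : IsCompact S) (h : LC S f) :
    ∀ᶠ u in 𝓝 (1 : G), ∀ g ∈ S, g * u ∈ S → f g = f (g * u) := by
  have := hS.eventually_forall_of_forall_eventually (x₀ := (1 : G))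
    (P := fun u g => g ∈ S → g * u ∈ S → f g = f (g * u)) fun y hy => by
      have e := eventually_nhdsWithin_iff.1 (h y hy)
      have a : Filter.Tendsto (fun z : G × G => z.2) (𝓝 (1, y)) (𝓝 y) := continuous_snd.tendsto _
      have b : Filter.Tendsto (fun z : G × G => z.2 * z.1) (𝓝 (1, y)) (𝓝 y) :=
        Continuous.tendsto' (by fun_prop) _ _ (mul_one y)
      filter_upwards [a.eventually e, b.eventually e] with z h1 h2 h3 h4
      rw [h1 h3, h2 h4]
  exact this.mono fun u hu g hg => hu g hg hg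

theorem lc_of (H U : Subgroup G) (f : G → Y) (hU : IsOpen (U : Set G))
    (h : ∀ g ∈ H, ∀ g' ∈ H, g⁻¹ * g' ∈ U → f g = f g') : LC (H : Set G) f := fun g hg => by
  have a : Filter.Tendsto (fun x : G => g⁻¹ * x) (𝓝 g) (𝓝 1) :=
    Continuous.tendsto' (by fun_prop) _ _ (inv_mul_cancel g)
  exact eventually_nhdsWithin_iff.2
    ((a.eventually (hU.mem_nhds U.one_mem)).mono fun x hx hx' => (h g hg x hx' hx).symm)

end Grp

variable {K Ω : Type} [Field K] [Field Ω] [Algebra K Ω]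

theorem gs_eq (F : Type) [Field F] [Algebra K F] [Algebra F Ω] [IsScalarTower K F Ω] :
    Gs K Ω F = (IsScalarTower.toAlgHom K F Ω).fieldRange.fixingSubgroup := by
  ext g
  rw [IntermediateField.mem_fixingSubgroup_iff]
  exact ⟨by rintro h _ ⟨x, rfl⟩; exact h x, fun h x => h _ ⟨x, rfl⟩⟩

variable [IsGalois K Ω]

theorem nhds (N : Set (Ω ≃ₐ[K] Ω)) (h : N ∈ 𝓝 (1 : Ω ≃ₐ[K] Ω)) : ∃ U : Subgroup (Ω ≃ₐ[K] Ω),
    IsOpen (U : Set (Ω ≃ₐ[K] Ω)) ∧ U.Normal ∧ (U : Set (Ω ≃ₐ[K] Ω)) ⊆ N := by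
  obtain ⟨E, _, hE⟩ := (krullTopology_mem_nhds_one_iff K Ω N).1 h
  obtain ⟨U, hU⟩ := IsTopologicalGroup.exist_openNormalSubgroup_sub_clopen_nhds_of_one
    ⟨E.fixingSubgroup_isClosed, E.fixingSubgroup_isOpen⟩ E.fixingSubgroup.one_mem
  exact ⟨U.toSubgroup, U.isOpen, U.isNormal', hU.trans hE⟩

end TopAux

variable {K Ω : Type} [Field K] [NumberField K] [Field Ω] [Algebra K Ω] [IsAlgClosed Ω]
  [IsGalois K Ω] [CharZero Ω]

omit [NumberField K] [IsAlgClosed Ω] [CharZero Ω] in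
theorem st_Top (hS : SzSt) : TopSt K Ω where
  unif H f hH hf := by
    obtain ⟨U, a, b, c⟩ := TopAux.nhds _ (TopAux.unif hH.isCompact hf)
    refine ⟨U, a, b, fun g hg g' hg' e => ?_⟩
    simpa using c e g hg (by simpa using hg')
  unif2 H f hH hf := by
    obtain ⟨N, h1, N', h2, h3⟩ := mem_nhds_prod_iff.1
      (TopAux.unif (hH.isCompact.prod hH.isCompact) hf)
    obtain ⟨U, a, b, c⟩ := TopAux.nhds _ (Filter.inter_mem h1 h2)
    refine ⟨U, a, b, fun g hg g' hg' h hh h' hh' e e' => ?_⟩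
    simpa using h3 (Set.mk_mem_prod (c e).1 (c e').2) (g, h) ⟨hg, hh⟩ (by simpa using ⟨hg', hh'⟩)
  lc_of := TopAux.lc_of
  lc_app := fun {X _ D φ f} hφ hf x hx => by
    have a : Filter.Tendsto (fun y => (φ x)⁻¹ * φ y) (𝓝[D] x) (𝓝 1) := by
      simpa using (hφ x hx).tendsto.const_mul (φ x)⁻¹
    filter_upwards [hf x hx, a.eventually ((stabilizer_isOpen_of_isIntegral (K := K) (f x)).mem_nhds
      (Subgroup.one_mem _))] with y h1 h2
    have h3 : (φ x).symm (φ y (f x)) = f x := h2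
    rw [h1, ← (φ x).apply_symm_apply (φ y (f x)), h3]
  nhds := TopAux.nhds
  fi U hU := by
    have := U.quotient_finite_of_isOpen hU
    exact Subgroup.finiteIndex_of_finite_quotient
  mid H U N hH hU hn h1 h2 := by
    have o : IsOpen ((N ⊔ U : Subgroup _) : Set (Ω ≃ₐ[K] Ω)) := Subgroup.isOpen_mono le_sup_right hU
    have e : H ⊓ (N ⊔ U) = N := le_antisymm (fun x hx => by
      obtain ⟨n, a, u, b, rfl⟩ := Set.mem_mul.1 (Subgroup.mul_normal N U ▸ hx.2)
      exact N.mul_mem a (h1 ⟨(H.mul_mem_cancel_left (h2 a)).1 hx.1, b⟩)) (le_inf h2 le_sup_left)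
    refine ⟨?_, o, e⟩
    rw [← e, Subgroup.coe_inf]
    exact hH.inter (Subgroup.isClosed_of_isOpen _ o)
  field H hH := by
    have e := InfiniteGalois.fixingSubgroup_fixedField ⟨H, H.isClosed_of_isOpen hH⟩
    refine ⟨IntermediateField.fixedField H,
      (InfiniteGalois.isOpen_iff_finite _).1 (e.symm ▸ hH), Eq.trans ?_ e⟩
    ext g
    rw [IntermediateField.mem_fixingSubgroup_iff]
    exact ⟨fun h x hx => h ⟨x, hx⟩, fun h x => h _ x.2⟩
  gs_open F _ _ _ _ h := by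
    have := (IsScalarTower.toAlgHom K F Ω).equivFieldRange.toLinearEquiv.finiteDimensional
    rw [TopAux.gs_eq]
    exact IntermediateField.fixingSubgroup_isOpen _
  gs_fix F _ _ _ _ x h := by
    have : x ∈ (IsScalarTower.toAlgHom K F Ω).fieldRange := by
      rw [← InfiniteGalois.fixedField_fixingSubgroup (AlgHom.fieldRange _), ← TopAux.gs_eq]
      exact fun g => h g g.2
    exact this
  two H U N N' hU h1 h2 h3 h4 := by
    obtain ⟨σ, s1, s2, -⟩ := Subgroup.relIndex_eq_two_iff_exists_notMem_and.1 h4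
    refine ⟨fun g => if g ∈ N then 0 else 1, ⟨(hS.lc _ _).1 (TopAux.lc_of N' U _ hU
      fun g hg g' hg' e => ?_), fun g hg h hh => ?_⟩, fun g => ⟨fun a => ⟨h2 a, if_pos a⟩,
        fun a => by_contra fun b => by simpa [b] using a.2⟩, σ, s1, if_neg s2⟩
    · have := N.mul_mem_cancel_right (y := g) (h1 ⟨h3 (N'.mul_mem (N'.inv_mem hg) hg'), e⟩)
      rw [mul_inv_cancel_left] at this
      simp only [this]
    · have : g * h ∈ N ↔ (g ∈ N ↔ h ∈ N) :=
        Subgroup.mul_mem_iff_of_index_two (a := ⟨g, hg⟩) (b := ⟨h, hh⟩) h4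
      by_cases a : g ∈ N <;> by_cases b : h ∈ N <;> simp only [this, a, b] <;> decide
  ker_closed H N d hH hd e := by
    have : (N : Set (Ω ≃ₐ[K] Ω)) = (H : Set (Ω ≃ₐ[K] Ω)) ∩ d ⁻¹' {0} := Set.ext e
    rw [this]
    exact hd.1.preimage_isClosed_of_isClosed hH isClosed_singleton

end Pool.Agent.SC
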