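import Pool.Agent.Lib.MP_b4b3cb_nt.StB

/-! The torsion classes: the local condition without dyadic relaxation is closed and the two
images in the homomorphisms have total dimension two. -/

namespace Pool.Agent.SC

open scoped Classical
open Module

namespace TorAux

variable {G : Type} [Group G] [TopologicalSpace G] {χ : G →* ℤ_[2]ˣ}

theorem d1_add (hA : AcSt) (R : Rp χ) (u v : V) (g : G) :
    R.d1 (u + v) g = R.d1 u g + R.d1 v g := by
  simp only [Rp.d1, (hA.lin R g).map_add]; abel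

theorem d1_sub (hA : AcSt) (R : Rp χ) (u v : V) (g : G) :
    R.d1 (u - v) g = R.d1 u g - R.d1 v g := by
  simp only [Rp.d1, (hA.lin R g).map_sub]; abel

theorem d1_smul (hA : AcSt) (R : Rp χ) (c : ℚ_[2]) (u : V) (g : G) :
    R.d1 (c • u) g = c • R.d1 u g := by
  simp only [Rp.d1, (hA.lin R g).map_smul, smul_sub]

theorem d1_mem (hL : LatSt) (hO : OmSt) (R : Rp χ) {i : ℤ} {u : V} (hu : u ∈ T i) (g : G) :
    R.d1 u g ∈ T i :=
  hL.anti (by omega : i ≤ i + 1) (hO.mon_sub (R.η g) (R.r g) (R.s g) hu)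

/-- The vectors whose coboundary on `D` has values in `T i`. -/
def M (hA : AcSt) (R : Rp χ) (D : Subgroup G) (i : ℤ) : AddSubgroup V where
  carrier := {u | ∀ g ∈ D, R.d1 u g ∈ T i}
  add_mem' := fun {a b} ha hb g hg => by
    rw [d1_add hA]; exact (T i).add_mem (ha g hg) (hb g hg)
  zero_mem' := fun g _ => by
    have h := d1_sub hA R 0 0 g
    rw [sub_self, sub_self] at h
    rw [h]; exact (T i).zero_mem
  neg_mem' := fun {a} ha g hg => by
    have h := d1_smul hA R (-1) a g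
    rw [neg_one_smul, neg_one_smul] at h
    rw [h]; exact (T i).neg_mem (ha g hg)

theorem mem_M (hA : AcSt) (R : Rp χ) (D : Subgroup G) (i : ℤ) (u : V) :
    u ∈ M hA R D i ↔ ∀ g ∈ D, R.d1 u g ∈ T i := Iff.rfl

theorem T_le_M (hL : LatSt) (hO : OmSt) (hA : AcSt) (R : Rp χ) (D : Subgroup G) (i : ℤ) :
    T i ≤ M hA R D i := fun _ hu g _ => d1_mem hL hO R hu g

theorem M_anti (hL : LatSt) (hA : AcSt) (R : Rp χ) (D : Subgroup G) {i j : ℤ} (h : i ≤ j) :
    M hA R D j ≤ M hA R D i := fun _ hu g hg => hL.anti h (hu g hg)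

theorem unit_sub_ne {r : ℤ_[2]ˣ} (hr : r ≠ 1) : ((r : ℤ_[2]) : ℚ_[2]) - 1 ≠ 0 := by
  intro h
  apply hr
  apply Units.ext
  apply Subtype.ext
  simpa using sub_eq_zero.mp h

theorem div_bound {a : ℚ_[2]} (ha : a ≠ 0) : ∃ c : ℕ, ∀ (k : ℤ) (x : ℚ_[2]),
    ‖a * x‖ ≤ (2 : ℝ) ^ (-k) → ‖x‖ ≤ (2 : ℝ) ^ (-(k - c)) := by
  have hpos : 0 < ‖a‖ := norm_pos_iff.mpr ha
  obtain ⟨c, hc⟩ := pow_unbounded_of_one_lt (‖a‖⁻¹) (by norm_num : (1 : ℝ) < 2)
  refine ⟨c, fun k x hx => ?_⟩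
  rw [norm_mul] at hx
  have h1 : ‖x‖ ≤ ‖a‖⁻¹ * (2 : ℝ) ^ (-k) := by
    rw [inv_mul_eq_div, le_div_iff₀ hpos, mul_comm]; exact hx
  have h2 : (2 : ℝ) ^ (-(k - c)) = 2 ^ c * (2 : ℝ) ^ (-k) := by
    rw [show -(k - (c : ℤ)) = (c : ℤ) + -k by ring, zpow_add₀ (by norm_num), zpow_natCast]
  rw [h2]
  exact h1.trans (mul_le_mul_of_nonneg_right hc.le (by positivity))

/-- Two group elements which control a vector through its coboundary. -/
theorem control (hL : LatSt) (R : Rp χ) (D : Subgroup G) (hB : R.Bdd D) :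
    ∃ g₁ ∈ D, ∃ g₂ ∈ D, ∃ c : ℕ,
      (∀ a b : ℚ_[2], ∃ u : V, (R.d1 u g₁).1 = a ∧ (R.d1 u g₂).2 = b) ∧
      ∀ (k : ℤ) (u : V), ‖(R.d1 u g₁).1‖ ≤ (2 : ℝ) ^ (-k) → ‖(R.d1 u g₂).2‖ ≤ (2 : ℝ) ^ (-k) →
        u ∈ T (2 * (k - c)) := by
  obtain ⟨⟨g₁, h₁, e₁, r₁⟩, g₂, h₂, e₂, s₂⟩ := hB
  have n₁ := unit_sub_ne r₁
  have n₂ := unit_sub_ne s₂
  have f₁ : ∀ u : V, (R.d1 u g₁).1 = (((R.r g₁ : ℤ_[2]) : ℚ_[2]) - 1) * u.1 := fun u => by
    simp only [Rp.d1, Rp.ac, mon, e₁, if_true, Prod.fst_sub]; ring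
  have f₂ : ∀ u : V, (R.d1 u g₂).2 = (((R.s g₂ : ℤ_[2]) : ℚ_[2]) - 1) * u.2 := fun u => by
    simp only [Rp.d1, Rp.ac, mon, e₂, if_true, Prod.snd_sub]; ring
  obtain ⟨c₁, hc₁⟩ := div_bound n₁
  obtain ⟨c₂, hc₂⟩ := div_bound n₂
  refine ⟨g₁, h₁, g₂, h₂, c₁ + c₂, fun a b => ⟨(a / (((R.r g₁ : ℤ_[2]) : ℚ_[2]) - 1),
    b / (((R.s g₂ : ℤ_[2]) : ℚ_[2]) - 1)), ?_, ?_⟩, fun k u hu₁ hu₂ => ?_⟩
  · rw [f₁]; exact mul_div_cancel₀ a n₁
  · rw [f₂]; exact mul_div_cancel₀ b n₂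
  · rw [hL.norm_iff, Prod.norm_def]
    rw [f₁] at hu₁
    rw [f₂] at hu₂
    refine max_le ((hc₁ k _ hu₁).trans ?_) ((hc₂ k _ hu₂).trans ?_)
    · exact zpow_le_zpow_right₀ (by norm_num) (by push_cast; omega)
    · exact zpow_le_zpow_right₀ (by norm_num) (by push_cast; omega)

theorem cls (hL : LatSt) (hO : OmSt) (hA : AcSt) (R : Rp χ) (D : Subgroup G) (hB : R.Bdd D) :
    R.Cls D False := by
  obtain ⟨g₁, h₁, g₂, h₂, c, hex, hc⟩ := control hL R D hB
  intro i x hx hloc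
  obtain ⟨u, hu₁, hu₂⟩ := hex (x g₁).1 (x g₂).2
  have key : ∀ g ∈ D, x g - R.d1 u g = 0 := by
    intro g hg
    apply hL.sep
    intro j
    obtain ⟨t, ⟨-, w, hw⟩, ht⟩ := hloc (2 * (|j| + c))
    have htw : ∀ h ∈ D, t h = R.d1 w h := fun h hh =>
      Prod.ext (hw h hh).1 ((hw h hh).2 not_false)
    have hn : ∀ h ∈ D, ‖x h - R.d1 w h‖ ≤ (2 : ℝ) ^ (-(|j| + c)) := fun h hh => by
      rw [← hL.norm_iff, ← htw h hh]; exact ht h hh
    have hm : u - w ∈ T (2 * (|j| + c - c)) := by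
      apply hc
      · rw [d1_sub hA, Prod.fst_sub, hu₁, ← Prod.fst_sub]
        exact (norm_fst_le _).trans (hn g₁ h₁)
      · rw [d1_sub hA, Prod.snd_sub, hu₂, ← Prod.snd_sub]
        exact (norm_snd_le _).trans (hn g₂ h₂)
    have hj : j ≤ |j| := le_abs_self j
    have hj0 : 0 ≤ |j| := abs_nonneg j
    have e : x g - R.d1 u g = (x g - t g) - R.d1 (u - w) g := by
      rw [d1_sub hA, htw g hg]; abel
    rw [e]
    refine (T j).sub_mem (hL.anti (by omega) (ht g hg)) (hL.anti (by omega) (d1_mem hL hO R hm g))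
  refine ⟨hx, u, fun g hg => ?_⟩
  have := sub_eq_zero.mp (key g hg)
  rw [this]
  exact ⟨rfl, fun _ => rfl⟩

/-- The map from `M i` to the homomorphisms. -/
noncomputable def φ (hL : LatSt) (hA : AcSt) (R : Rp χ) (D : Subgroup G) (i : ℤ) :
    M hA R D i →+ (G → ZMod 2) :=
  AddMonoidHom.mk' (fun u => res D fun g => lam i (R.d1 u g)) fun a b => funext fun g => by
    by_cases hg : g ∈ D
    · simp only [res, hg, if_true, Pi.add_apply, AddSubgroup.coe_add, d1_add hA]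
      exact hL.lam_add (a.2 g hg) (b.2 g hg)
    · simp [res, hg]

theorem φ_ker (hL : LatSt) (hA : AcSt) (R : Rp χ) (D : Subgroup G) (i : ℤ) :
    (φ hL hA R D i).ker = (M hA R D (i + 1)).addSubgroupOf (M hA R D i) := by
  ext u
  rw [AddMonoidHom.mem_ker, AddSubgroup.mem_addSubgroupOf, mem_M]
  constructor
  · intro h g hg
    have := congrFun h g
    simp only [φ, AddMonoidHom.mk'_apply, res, hg, if_true, Pi.zero_apply] at this
    exact (hL.lam_zero i _).mp this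
  · intro h
    funext g
    by_cases hg : g ∈ D
    · simp only [φ, AddMonoidHom.mk'_apply, res, hg, if_true, Pi.zero_apply]
      exact (hL.lam_zero i _).mpr (h g hg)
    · simp [φ, res, hg]

theorem φ_range (hL : LatSt) (hA : AcSt) (hZ : ZSt) (R : Rp χ) (D : Subgroup G) (i : ℤ) :
    (φ hL hA R D i).range = (R.W D False i).toAddSubgroup := by
  ext f
  rw [Submodule.mem_toAddSubgroup, hZ.mem_W, AddMonoidHom.mem_range]
  constructor
  · rintro ⟨u, rfl⟩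
    exact ⟨R.d1 u, hZ.z_d1 R D False i u u.2, rfl⟩
  · rintro ⟨t, ⟨ht, w, hw⟩, rfl⟩
    have htw : ∀ h ∈ D, t h = R.d1 w h := fun h hh =>
      Prod.ext (hw h hh).1 ((hw h hh).2 not_false)
    refine ⟨⟨w, fun g hg => htw g hg ▸ ht.2.1 g hg⟩, funext fun g => ?_⟩
    by_cases hg : g ∈ D
    · simp only [φ, AddMonoidHom.mk'_apply, res, hg, if_true, htw g hg]
    · simp [φ, res, hg]

theorem card_W (hL : LatSt) (hA : AcSt) (hZ : ZSt) (R : Rp χ) (D : Subgroup G) (i : ℤ) :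
    Nat.card (R.W D False i) = (M hA R D (i + 1)).relIndex (M hA R D i) := by
  rw [AddSubgroup.relIndex, ← φ_ker hL, AddSubgroup.index_ker, φ_range hL hA hZ]
  rfl

theorem index_T (hL : LatSt) (i : ℤ) (n : ℕ) : (T (i + n)).relIndex (T i) = 2 ^ n := by
  induction n with
  | zero => simp
  | succ n ih =>
    have h1 : T (i + n + 1) ≤ T (i + n) := hL.anti (by omega)
    have h2 : T (i + n) ≤ T i := hL.anti (by omega)
    have := AddSubgroup.relIndex_mul_relIndex _ _ _ h1 h2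
    rw [hL.index, ih] at this
    rw [show i + ((n + 1 : ℕ) : ℤ) = i + n + 1 by push_cast; ring, ← this]; ring

theorem index_M (hL : LatSt) (hO : OmSt) (hA : AcSt) (R : Rp χ) (D : Subgroup G)
    (hB : R.Bdd D) : (M hA R D 2).relIndex (M hA R D 0) = 4 := by
  obtain ⟨g₁, h₁, g₂, h₂, c, -, hc⟩ := control hL R D hB
  have hle : M hA R D 0 ≤ T (2 * (0 - c)) := fun u hu => by
    have hn : ∀ h ∈ D, ‖R.d1 u h‖ ≤ (2 : ℝ) ^ (-(0 : ℤ)) := fun h hh => by
      rw [← hL.norm_iff]; exact hu h hh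
    exact hc 0 u ((norm_fst_le _).trans (hn g₁ h₁)) ((norm_snd_le _).trans (hn g₂ h₂))
  have hne : (T 0).relIndex (M hA R D 0) ≠ 0 := by
    have h := AddSubgroup.relIndex_mul_relIndex _ _ _ (T_le_M hL hO hA R D 0) hle
    have h' := index_T hL (2 * (0 - c)) (2 * c)
    rw [show 2 * (0 - (c : ℤ)) + ((2 * c : ℕ) : ℤ) = 0 by push_cast; ring] at h'
    rw [h'] at h
    intro h0
    rw [h0, zero_mul] at h
    exact absurd h.symm (by positivity)
  let f : V →+ V := DistribSMul.toAddMonoidHom V (2 : ℚ_[2])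
  have hf : ∀ u, f u = (2 : ℚ_[2]) • u := fun _ => rfl
  have hT : (T 2).comap f = T 0 := by
    ext u
    rw [AddSubgroup.mem_comap, hf]
    simpa using hL.two 0 u
  have hM : (M hA R D 0).map f = M hA R D 2 := by
    ext v
    rw [AddSubgroup.mem_map]
    constructor
    · rintro ⟨u, hu, rfl⟩ g hg
      rw [hf, d1_smul hA]
      simpa using (hL.two 0 _).mpr (hu g hg)
    · intro hv
      have e : (2 : ℚ_[2]) • ((2 : ℚ_[2])⁻¹ • v) = v := by
        rw [smul_smul, mul_inv_cancel₀ (by norm_num), one_smul]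
      refine ⟨(2 : ℚ_[2])⁻¹ • v, fun g hg => ?_, by rw [hf, e]⟩
      rw [← hL.two 0, ← d1_smul hA, e]
      simpa using hv g hg
  have h1 : (T 2).relIndex (M hA R D 2) = (T 0).relIndex (M hA R D 0) := by
    rw [← hT, AddSubgroup.relIndex_comap, hM]
  have h2 := AddSubgroup.relIndex_mul_relIndex _ _ _ (T_le_M hL hO hA R D 2)
    (M_anti hL hA R D (by norm_num : (0 : ℤ) ≤ 2))
  have h3 := AddSubgroup.relIndex_mul_relIndex _ _ _ (hL.anti (by norm_num : (0 : ℤ) ≤ 2))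
    (T_le_M hL hO hA R D 0)
  have h4 := index_T hL 0 2
  rw [show (0 : ℤ) + ((2 : ℕ) : ℤ) = 2 by norm_num] at h4
  rw [h4, ← h2, h1, mul_comm] at h3
  exact (Nat.eq_of_mul_eq_mul_left (Nat.pos_of_ne_zero hne) h3).symm

end TorAux

open TorAux in
theorem st_Tor (hL : LatSt) (hO : OmSt) (hA : AcSt) (hZ : ZSt) : TorSt := by
  intro G _ _ χ R D hB
  have h := AddSubgroup.relIndex_mul_relIndex _ _ _
    (M_anti hL hA R D (by norm_num : (1 : ℤ) ≤ 2)) (M_anti hL hA R D (by norm_num : (0 : ℤ) ≤ 1))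
  have h0 := card_W hL hA hZ R D 0
  have h1 := card_W hL hA hZ R D 1
  rw [show (0 : ℤ) + 1 = 1 by norm_num] at h0
  rw [show (1 : ℤ) + 1 = 2 by norm_num] at h1
  rw [index_M hL hO hA R D hB, ← h0, ← h1] at h
  have f0 : Finite (R.W D False 0) := Nat.finite_of_card_ne_zero fun e => by
    rw [e] at h; omega
  have f1 : Finite (R.W D False 1) := Nat.finite_of_card_ne_zero fun e => by
    rw [e] at h; omega
  refine ⟨cls hL hO hA R D hB, f0, f1, ?_⟩
  rw [Module.natCard_eq_pow_finrank (K := ZMod 2) (V := R.W D False 0),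
    Module.natCard_eq_pow_finrank (K := ZMod 2) (V := R.W D False 1),
    Nat.card_zmod, ← pow_add] at h
  have : (2 : ℕ) ^ (finrank (ZMod 2) (R.W D False 1) + finrank (ZMod 2) (R.W D False 0)) =
      2 ^ 2 := h
  have := Nat.pow_right_injective (le_refl 2) this
  omega

end Pool.Agent.SC
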