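import Pool.Agent.Lib.MP_b4b3cb_nt.StB

/-! The tower of descents for Selmer cochains. -/

namespace Pool.Agent.SC

open scoped Classical
open Module

namespace TowSelAux

variable {G P : Type} [Group G] [TopologicalSpace G]

/-- Continuous cochains with values in `T i`. -/
def F (G : Type) [TopologicalSpace G] (i : ℤ) : AddSubgroup (G → V) where
  carrier := {x | Continuous x ∧ ∀ g, x g ∈ T i}
  add_mem' := fun ha hb => ⟨ha.1.add hb.1, fun g => add_mem (ha.2 g) (hb.2 g)⟩
  zero_mem' := ⟨continuous_const, fun _ => zero_mem _⟩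
  neg_mem' := fun ha => ⟨ha.1.neg, fun g => neg_mem (ha.2 g)⟩

variable (hS : SelSt) (A : AD G P) (R : Rp A.χ) (dy : P → Prop)

include hS in
lemma sel_zero (i j : ℤ) : Sel A R dy i j 0 :=
  hS.mono A R dy (hS.of_mem A R dy (j := max i j) continuous_const fun _ => zero_mem _)
    (le_max_left _ _) (le_max_right _ _)

/-- Selmer cochains as a subgroup. -/
def Sl (i j : ℤ) : AddSubgroup (G → V) where
  carrier := {x | Sel A R dy i j x}
  add_mem' := fun ha hb => (hS.add A R dy ha hb).1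
  zero_mem' := sel_zero hS A R dy i j
  neg_mem' := fun {x} ha => by
    have := (hS.add A R dy (sel_zero hS A R dy i j) ha).2
    rwa [zero_sub] at this

/-- The pairing as a function. -/
noncomputable def pr (i j : ℤ) (x : G → V) (y : G → ZMod 2) : ZMod 2 :=
  if PV A R dy i j x y 1 then 1 else 0

variable {A R dy}

lemma sel_F {i j : ℤ} {x : G → V} (h : Sel A R dy i j x) : x ∈ F G i :=
  ⟨by simpa using h.1.1, fun g => h.1.2.1 g trivial⟩

lemma pr_eq [IsTopologicalGroup G] (hP : PVSt) {S₀ : Finset P} (hs : Std A R dy S₀) {i j : ℤ}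
    {x : G → V} {y : G → ZMod 2} {e : ZMod 2} (hij : i ≤ j) (hy : y ∈ SS A R dy (j + 1) 1)
    (h : PV A R dy i j x y e) : pr A R dy i j x y = e := by
  unfold pr
  split_ifs with a
  · exact hP.uniq A R dy S₀ hs hij hy a h
  · have : ∀ c : ZMod 2, c = 0 ∨ c = 1 := by decide
    rcases this e with rfl | rfl
    exacts [rfl, absurd h a]

lemma pv_pr [IsTopologicalGroup G] (hP : PVSt) {S₀ : Finset P} (hs : Std A R dy S₀) {i j : ℤ}
    {x : G → V} {y : G → ZMod 2} (hij : i ≤ j) (hx : Sel A R dy i j x)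
    (hy : y ∈ SS A R dy (j + 1) 1) : PV A R dy i j x y (pr A R dy i j x y) := by
  obtain ⟨e, he⟩ := hP.ex A R dy S₀ hs hij hx hy
  rwa [pr_eq hP hs hij hy he]

end TowSelAux

open TowSelAux

theorem st_TowSel (hL : LatSt) (hS : SelSt) (hT : TowerSt) (hP : PVSt) (hK : KerSt)
    (hO : OrthSt) (hA : AltSt) (hG : GWSt) : TowSelSt := by
  intro G P _ _ _ A R dy S₀ hs
  have hom : ∀ {i y}, y ∈ SS A R dy i 1 → Hom ⊤ y := fun h => ((hS.one A R dy _ _).1 h).1
  obtain ⟨a, N, b⟩ := hT (G → V) (G → ZMod 2) (F G) (Sl hS A R dy) (fun i x g => lam i (x g))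
    (SS A R dy) (pr A R dy) (hS.mem_SS A R dy)
    (fun i x hx y hy => funext fun g => hL.lam_add (hx.2 g) (hy.2 g))
    (fun i x hx => ⟨fun h => ⟨hx.1, fun g => (hL.lam_zero _ _).1 (congrFun h g)⟩,
      fun h => funext fun g => (hL.lam_zero _ _).2 (h.2 g)⟩)
    (fun i j h x hx => ⟨hx.1, fun g => hL.anti h (hx.2 g)⟩) (fun i j x hx => sel_F hx)
    (fun j x hx => hS.of_mem A R dy hx.1 hx.2) (fun i i' j j' h h' x hx => hS.mono A R dy hx h h')
    (fun i i' j h x hx hx' => hS.ker A R dy hx h hx'.2) (hS.per A R dy) (hG A R dy S₀ hs).1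
    (fun i j h x hx x' hx' y hy => pr_eq hP hs h hy
      (hP.left A R dy h (hom hy) (pv_pr hP hs h hx hy) (pv_pr hP hs h hx' hy)))
    (fun i j h x hx y hy y' hy' => pr_eq hP hs h (add_mem hy hy')
      (hP.right A R dy S₀ hs h hx hy hy' (pv_pr hP hs h hx hy) (pv_pr hP hs h hx hy')))
    (fun i i' j h' h x hx y hy => pr_eq hP hs (h'.trans h) hy
      (hP.nat A R dy h' (pv_pr hP hs h hx hy)))
    (fun i j h x hx => ⟨fun e => by
      obtain ⟨x', c, d⟩ := hK A R dy S₀ hs h hx fun y hy => e y hy ▸ pv_pr hP hs h hx hy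
      exact ⟨x', c, (sel_F c).1.sub (sel_F hx).1, d⟩,
      fun ⟨x', c, d⟩ y hy => pr_eq hP hs h hy (hP.zero A R dy (hom hy) c d.2)⟩)
    (fun i n x _ y hy => if_neg fun e => one_ne_zero (hO A R dy hs.dyk i n hy e))
    (fun i n hn x _ => if_neg fun e => one_ne_zero (hA A R dy hs.dyk i n hn e))
  exact ⟨a, N, fun i j h x hx => (b i j h x hx).imp fun x' c => ⟨c.1, c.2.2⟩⟩

end Pool.Agent.SC
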