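import Pool.Agent.Lib.MP_b4b3cb_nt.StB

/-! The tower of descents. -/

namespace Pool.Agent.SC

open scoped Classical
open Module

namespace TowerAux

/-- A decreasing chain of subspaces of a finite space is eventually constant. -/
lemma stab {X : Type} [AddCommGroup X] [Module (ZMod 2) X] (S : ℕ → Submodule (ZMod 2) X)
    (hf : ∀ n, Finite (S n)) (hm : Antitone S) : ∃ N, ∀ n, N ≤ n → S n = S N := by
  obtain ⟨N, -, hN⟩ := (measure fun n => finrank (ZMod 2) (S n)).wf.has_min Set.univ ⟨0, trivial⟩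
  refine ⟨N, fun n hn => ?_⟩
  have := hf N
  exact Submodule.eq_of_le_of_finrank_le (hm hn) (not_lt.1 (hN n trivial))

/-- The tower of descents, with the last part for all integers. -/
def TowerZ : Prop :=
  ∀ (C X : Type) [AddCommGroup C] [AddCommGroup X] [Module (ZMod 2) X] (F : ℤ → AddSubgroup C)
    (Sl : ℤ → ℤ → AddSubgroup C) (lm : ℤ → C → X) (S : ℤ → ℕ → Submodule (ZMod 2) X)
    (pr : ℤ → ℤ → C → X → ZMod 2),
    (∀ i (n : ℕ) f, f ∈ S i n ↔ ∃ x ∈ Sl i (i + n), f = lm i x) →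
    (∀ i, ∀ x ∈ F i, ∀ y ∈ F i, lm i (x + y) = lm i x + lm i y) →
    (∀ i, ∀ x ∈ F i, lm i x = 0 ↔ x ∈ F (i + 1)) →
    (∀ i j, i ≤ j → F j ≤ F i) → (∀ i j, Sl i j ≤ F i) → (∀ j, F j ≤ Sl j j) →
    (∀ i i' j j', i' ≤ i → j' ≤ j → Sl i j ≤ Sl i' j') →
    (∀ i i' j, i' ≤ j → ∀ x ∈ Sl i j, x ∈ F i' → x ∈ Sl i' j) →
    (∀ i k n, S (i + 2 * k) n = S i n) → (∀ i, Finite (S i 1)) →
    (∀ i j, i ≤ j → ∀ x ∈ Sl i j, ∀ x' ∈ Sl i j, ∀ y ∈ S (j + 1) 1,
      pr i j (x + x') y = pr i j x y + pr i j x' y) →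
    (∀ i j, i ≤ j → ∀ x ∈ Sl i j, ∀ y ∈ S (j + 1) 1, ∀ y' ∈ S (j + 1) 1,
      pr i j x (y + y') = pr i j x y + pr i j x y') →
    (∀ i i' j, i' ≤ i → i ≤ j → ∀ x ∈ Sl i j, ∀ y ∈ S (j + 1) 1, pr i' j x y = pr i j x y) →
    (∀ i j, i ≤ j → ∀ x ∈ Sl i j,
      (∀ y ∈ S (j + 1) 1, pr i j x y = 0) ↔ ∃ x' ∈ Sl i (j + 1), x' - x ∈ F j) →
    (∀ i (n : ℕ), ∀ x ∈ Sl i (i + n), ∀ y ∈ S (i + n + 1) (n + 1), pr i (i + n) x y = 0) →
    (∀ i (n : ℕ), Odd n → ∀ x ∈ Sl i (i + n), pr i (i + n) x (lm i x) = 0) →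
    (∀ n : ℕ, 1 ≤ n → Even (finrank (ZMod 2) (S 0 n) + finrank (ZMod 2) (S 1 n) +
      finrank (ZMod 2) (S 0 1) + finrank (ZMod 2) (S 1 1))) ∧
    ∃ N : ℕ, ∀ i j : ℤ, i + N ≤ j → ∀ x ∈ Sl i j, ∃ x' ∈ Sl i (j + 1), x' - x ∈ F (j - N)

theorem tower (hP : PairSt) : TowerZ := by
  intro C X _ _ _ F Sl lm S pr hS ladd lker Fm SF _ Sm Su per fin pl prr nat ker orth alt
  have anti : ∀ i, Antitone (S i) := fun i n n' h f hf => by
    obtain ⟨x, hx, e⟩ := (hS i n' f).1 hf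
    exact (hS i n f).2 ⟨x, Sm _ _ _ _ le_rfl (by omega) hx, e⟩
  have fin' : ∀ i n, Finite (S i (n + 1)) := fun i n =>
    have := fin i
    Finite.of_injective _ (Submodule.inclusion_injective (anti i (Nat.le_add_left 1 n)))
  have orth' : ∀ (i j : ℤ) (n : ℕ), j = i + n → ∀ x ∈ Sl i j, ∀ y ∈ S (j + 1) (n + 1),
      pr i j x y = 0 := by
    rintro i j n rfl
    exact orth i n
  have lsub : ∀ i, ∀ x ∈ F i, ∀ x' ∈ F i, x' - x ∈ F (i + 1) ↔ lm i x' = lm i x := by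
    intro i x hx x' hx'
    have := ladd i _ ((F i).sub_mem hx' hx) x hx
    rw [sub_add_cancel] at this
    rw [← lker i _ ((F i).sub_mem hx' hx), this, add_eq_right]
  have lift : ∀ i i' j, i ≤ i' → i' ≤ j → ∀ x ∈ Sl i j,
      (∀ b ∈ S (j + 1) 1, (∀ z ∈ Sl i' j, pr i' j z b = 0) → pr i j x b = 0) →
      ∃ x' ∈ Sl i (j + 1), x' - x ∈ F i' := by
    intro i i' j h1 h2 x hx h
    have le := Sm i' i j j h1 le_rfl
    obtain ⟨z, hz, e⟩ := hP.bidual C X (Sl i' j) (S (j + 1) 1) (pr i j) (pr i j x) (fin _)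
      (fun z hz z' hz' => pl i j (h1.trans h2) z (le hz) z' (le hz'))
      (fun z hz => prr i j (h1.trans h2) z (le hz)) (prr i j (h1.trans h2) x hx)
      fun b hb h0 => h b hb fun z hz => (nat i' i j h1 h2 z hz b hb).symm.trans (h0 z hz)
    have hxz := (Sl i j).sub_mem hx (le hz)
    obtain ⟨x', a, b⟩ := (ker i j (h1.trans h2) _ hxz).1 fun y hy => by
      have := pl i j (h1.trans h2) _ hxz z (le hz) y hy
      rwa [sub_add_cancel, e y hy, eq_comm, add_eq_right] at this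
    refine ⟨x', a, ?_⟩
    have := (F i').sub_mem (Fm _ _ h2 b) (SF _ _ hz)
    rwa [show x' - (x - z) - z = x' - x by abel] at this
  -- the pairing induced on the images
  have pair : ∀ m : ℕ, (∀ i j : ℤ, j = i + m → ∀ y ∈ S (j + 1) 1, (∀ x ∈ Sl i j, pr i j x y = 0) →
      y ∈ S (j + 1) (m + 1)) → ∀ i j : ℤ, j = i + ((m + 1 : ℕ) : ℤ) → ∃ g : X → X → ZMod 2,
      (∀ x ∈ Sl i j, ∀ y ∈ S (j + 1) (m + 1), g (lm i x) y = pr i j x y) ∧
      (∀ a ∈ S i (m + 1), ∀ a' ∈ S i (m + 1), ∀ b ∈ S (j + 1) (m + 1),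
        g (a + a') b = g a b + g a' b) ∧
      (∀ a ∈ S i (m + 1), ∀ b ∈ S (j + 1) (m + 1), ∀ b' ∈ S (j + 1) (m + 1),
        g a (b + b') = g a b + g a b') ∧
      ∀ a ∈ S i (m + 1), a ∈ S i (m + 1 + 1) ↔ ∀ b ∈ S (j + 1) (m + 1), g a b = 0 := by
    intro m ih i j hj
    have hij : i ≤ j := by omega
    have le1 := anti (j + 1) (Nat.le_add_left 1 m)
    have hS' : ∀ a, a ∈ S i (m + 1) ↔ ∃ x ∈ Sl i j, a = lm i x := fun a => hj ▸ hS i (m + 1) a
    have ex : ∀ a, ∃ x, a ∈ S i (m + 1) → x ∈ Sl i j ∧ a = lm i x := fun a => by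
      by_cases h : a ∈ S i (m + 1)
      · obtain ⟨x, a, b⟩ := (hS' a).1 h
        exact ⟨x, fun _ => ⟨a, b⟩⟩
      · exact ⟨0, fun h' => absurd h' h⟩
    choose σ hσ using ex
    have key : ∀ x ∈ Sl i j, ∀ y ∈ S (j + 1) (m + 1), pr i j (σ (lm i x)) y = pr i j x y := by
      intro x hx y hy
      obtain ⟨a, b⟩ := hσ _ ((hS' _).2 ⟨x, hx, rfl⟩)
      have c := (Sl i j).sub_mem a hx
      have d : σ (lm i x) - x ∈ Sl (i + 1) j :=
        Su i _ j (by omega) _ c ((lsub i x (SF _ _ hx) _ (SF _ _ a)).2 b.symm)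
      have e := pl i j hij _ c x hx y (le1 hy)
      rwa [sub_add_cancel, nat (i + 1) i j (by omega) (by omega) _ d y (le1 hy),
        orth' (i + 1) j m (by omega) _ d y hy, zero_add] at e
    refine ⟨fun a => pr i j (σ a), key, fun a ha a' ha' b hb => ?_,
      fun a ha b hb b' hb' => prr i j hij _ (hσ a ha).1 b (le1 hb) b' (le1 hb'),
      fun a ha => ⟨fun h b hb => ?_, fun h => ?_⟩⟩
    · obtain ⟨x, hx, rfl⟩ := (hS' a).1 ha
      obtain ⟨x', hx', rfl⟩ := (hS' a').1 ha'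
      dsimp only
      rw [← ladd i x (SF _ _ hx) x' (SF _ _ hx'), key _ ((Sl i j).add_mem hx hx') b hb, key x hx b hb,
        key x' hx' b hb, pl i j hij x hx x' hx' b (le1 hb)]
    · obtain ⟨x, hx, rfl⟩ := (hS i _ a).1 h
      have hx1 : x ∈ Sl i (j + 1) := Sm _ _ _ _ le_rfl (by omega) hx
      have hx0 : x ∈ Sl i j := Sm _ _ _ _ le_rfl (by omega) hx
      exact (key x hx0 b hb).trans ((ker i j hij x hx0).2 ⟨x, hx1, by simp⟩ b (le1 hb))
    · obtain ⟨x', a1, a2⟩ := lift i (i + 1) j (by omega) (by omega) _ (hσ a ha).1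
        fun b hb h0 => h b (ih (i + 1) j (by omega) b hb h0)
      exact (hS i _ a).2 ⟨x', Sm _ _ _ _ le_rfl (by omega) a1, (hσ a ha).2.trans
        ((lsub i _ (SF _ _ (hσ a ha).1) x' (SF _ _ a1)).1 a2).symm⟩
  -- the right kernel
  have right : ∀ m : ℕ, (∀ i j : ℤ, j = i + m → ∀ y ∈ S (j + 1) 1, (∀ x ∈ Sl i j, pr i j x y = 0) →
      y ∈ S (j + 1) (m + 1)) → ∀ i j : ℤ, j = i + ((m + 1 : ℕ) : ℤ) → ∃ R : Submodule (ZMod 2) X,
      S (j + 1) (m + 1 + 1) ≤ R ∧ R ≤ S (j + 1) (m + 1) ∧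
      (∀ y ∈ S (j + 1) (m + 1), (∀ x ∈ Sl i j, pr i j x y = 0) → y ∈ R) ∧
      finrank (ZMod 2) (S i (m + 1)) + finrank (ZMod 2) R =
        finrank (ZMod 2) (S (j + 1) (m + 1)) + finrank (ZMod 2) (S i (m + 1 + 1)) := by
    intro m ih i j hj
    obtain ⟨g, g1, g2, g3, g4⟩ := pair m ih i j hj
    have hS' : ∀ a, a ∈ S i (m + 1) ↔ ∃ x ∈ Sl i j, a = lm i x := fun a => hj ▸ hS i (m + 1) a
    have g0 : ∀ a ∈ S i (m + 1), g a 0 = 0 := fun a ha => by
      have := g3 a ha 0 (zero_mem _) 0 (zero_mem _)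
      rwa [add_zero, eq_comm, add_eq_right] at this
    let R : Submodule (ZMod 2) X :=
      { carrier := {y | y ∈ S (j + 1) (m + 1) ∧ ∀ a ∈ S i (m + 1), g a y = 0}
        add_mem' := fun {y y'} h h' => ⟨add_mem h.1 h'.1, fun a ha => by
          rw [g3 a ha y h.1 y' h'.1, h.2 a ha, h'.2 a ha, add_zero]⟩
        zero_mem' := ⟨zero_mem _, g0⟩
        smul_mem' := fun c y h => by
          obtain rfl | rfl : c = 0 ∨ c = 1 := by revert c; decide
          · rw [zero_smul]; exact ⟨zero_mem _, g0⟩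
          · rwa [one_smul] }
    have mem : ∀ y ∈ S (j + 1) (m + 1), (∀ x ∈ Sl i j, pr i j x y = 0) → y ∈ R :=
      fun y hy h => ⟨hy, fun a ha => by
        obtain ⟨x, hx, rfl⟩ := (hS' a).1 ha
        rw [g1 x hx y hy, h x hx]⟩
    exact ⟨R, fun y hy => mem y (anti _ (Nat.le_succ _) hy) fun x hx => orth' i j _ hj x hx y hy,
      fun y hy => hy.1, mem, hP.ker X X _ _ _ R g (fin' _ _) (fin' _ _) (anti _ (Nat.le_succ _))
        (fun y hy => hy.1) g2 g3 g4 fun b hb => ⟨fun h => h.2, fun h => ⟨hb, h⟩⟩⟩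
  have step : ∀ m : ℕ, (∀ i j : ℤ, j = i + m → ∀ y ∈ S (j + 1) 1, (∀ x ∈ Sl i j, pr i j x y = 0) →
      y ∈ S (j + 1) (m + 1)) → ∀ i j : ℤ, j = i + ((m + 1 : ℕ) : ℤ) →
      (∀ y ∈ S (j + 1) 1, (∀ x ∈ Sl i j, pr i j x y = 0) → y ∈ S (j + 1) (m + 1 + 1)) ∧
      finrank (ZMod 2) (S i (m + 1)) + finrank (ZMod 2) (S (j + 1) (m + 1 + 1)) =
        finrank (ZMod 2) (S (j + 1) (m + 1)) + finrank (ZMod 2) (S i (m + 1 + 1)) := by
    intro m ih i j hj
    obtain ⟨R, r1, r2, r3, r4⟩ := right m ih i j hj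
    obtain ⟨R', s1, s2, -, s4⟩ := right m ih (j + 1) _ rfl
    have e : j + 1 + ((m + 1 : ℕ) : ℤ) + 1 = i + 2 * (m + 2) := by omega
    rw [e, per] at s1 s2 s4
    have := fin' (j + 1) m
    have := fin' i m
    have : Finite R := Finite.of_injective _ (Submodule.inclusion_injective r2)
    have : Finite R' := Finite.of_injective _ (Submodule.inclusion_injective s2)
    have a := Submodule.finrank_mono r1
    have b := Submodule.finrank_mono s1
    refine ⟨fun y hy h => ?_, by omega⟩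
    rw [Submodule.eq_of_le_of_finrank_le r1 (by omega)]
    exact r3 y (ih (i + 1) j (by omega) y hy fun x hx =>
      (nat (i + 1) i j (by omega) (by omega) x hx y hy).symm.trans
        (h x (Sm _ _ _ _ (by omega) le_rfl hx))) h
  have P : ∀ m : ℕ, ∀ i j : ℤ, j = i + m → ∀ y ∈ S (j + 1) 1, (∀ x ∈ Sl i j, pr i j x y = 0) →
      y ∈ S (j + 1) (m + 1) := fun m => by
    induction m with
    | zero => exact fun _ _ _ _ hy _ => hy
    | succ m ih => exact fun i j hj => (step m ih i j hj).1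
  have par : ∀ m : ℕ, Even (finrank (ZMod 2) (S 0 (m + 1)) + finrank (ZMod 2) (S 1 (m + 1)) +
      finrank (ZMod 2) (S 0 (m + 1 + 1)) + finrank (ZMod 2) (S 1 (m + 1 + 1))) := fun m => by
    rcases Nat.even_or_odd' m with ⟨k, hk | hk⟩
    · have odd : ∀ i, Even (finrank (ZMod 2) (S i (m + 1)) + finrank (ZMod 2) (S i (m + 1 + 1))) :=
        fun i => by
        obtain ⟨g, g1, g2, g3, g4⟩ := pair m (P m) i _ rfl
        have e : i + ((m + 1 : ℕ) : ℤ) + 1 = i + 2 * (k + 1) := by omega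
        rw [e, per] at g1 g2 g3 g4
        refine hP.alt X _ _ g (fin' _ _) (anti _ (Nat.le_succ _)) g2 g3 (fun a ha => ?_) g4
        obtain ⟨x, hx, rfl⟩ := (hS i _ a).1 ha
        rw [g1 x hx _ ha, alt i (m + 1) ⟨k, by omega⟩ x hx]
      obtain ⟨a, ha⟩ := odd 0
      obtain ⟨b, hb⟩ := odd 1
      exact ⟨a + b, by omega⟩
    · have := (step m (P m) 0 _ rfl).2
      have e : (0 : ℤ) + ((m + 1 : ℕ) : ℤ) + 1 = 1 + 2 * (k + 1) := by omega
      rw [e, per, per] at this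
      rw [Nat.even_iff]
      omega
  refine ⟨fun n hn => ?_, ?_⟩
  · induction n, hn using Nat.le_induction with
    | base => exact ⟨finrank (ZMod 2) (S 0 1) + finrank (ZMod 2) (S 1 1), by omega⟩
    | succ n hn ih =>
      obtain ⟨m, rfl⟩ : ∃ m, n = m + 1 := ⟨n - 1, by omega⟩
      have := par m
      rw [Nat.even_iff] at *
      omega
  · obtain ⟨N0, h0⟩ := stab (fun n => S 0 (n + 1)) (fin' 0)
      fun _ _ h => anti 0 (Nat.succ_le_succ h)
    obtain ⟨N1, h1⟩ := stab (fun n => S 1 (n + 1)) (fin' 1)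
      fun _ _ h => anti 1 (Nat.succ_le_succ h)
    have st : ∀ i n, N0 + N1 ≤ n → S i (n + 1) = S i (N0 + N1 + 1) := fun i n hn => by
      rcases Int.even_or_odd' i with ⟨k, hk | hk⟩
      · rw [show i = 0 + 2 * k by omega, per, per]
        exact (h0 n (by omega)).trans (h0 _ (by omega)).symm
      · rw [show i = 1 + 2 * k by omega, per, per]
        exact (h1 n (by omega)).trans (h1 _ (by omega)).symm
    refine ⟨N0 + N1, fun i j hj x hx => lift i _ j (by omega) (by omega) x hx fun b hb h => ?_⟩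
    refine orth' i j (j - i).toNat (by omega) x hx b ?_
    rw [st _ _ (by omega)]
    exact P _ _ j (by omega) b hb h

end TowerAux

theorem st_Tower (hP : PairSt) : TowerSt := by
  intro C X _ _ _ F Sl lm S pr h1 h2 h3 h4 h5 h6 h7 h8 h9 h10 h11 h12 h13 h14 h15 h16
  obtain ⟨a, N, b⟩ :=
    TowerAux.tower hP C X F Sl lm S pr h1 h2 h3 h4 h5 h6 h7 h8 h9 h10 h11 h12 h13 h14 h15 h16
  exact ⟨a, N, fun i j h => b i j (by omega)⟩

end Pool.Agent.SC
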