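import Pool.Agent.Lib.MP_b4b3cb_nt.StG

/-! The transfer of a splitting from a subgroup of finite index. -/

namespace Pool.Agent.SC

open NumberField Pool.Agent.Stark
open scoped Classical Pointwise Topology

namespace TrAux

variable {K Ω : Type} [Field K] [Field Ω] [Algebra K Ω]

/-- The factor attached to `g t = t' n`. -/
noncomputable def mu (c : (Ω ≃ₐ[K] Ω) → (Ω ≃ₐ[K] Ω) → Ω) (β : (Ω ≃ₐ[K] Ω) → Ω)
    (g t t' : Ω ≃ₐ[K] Ω) : Ω :=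
  c g t * (c t' (t'⁻¹ * g * t))⁻¹ * t' (β (t'⁻¹ * g * t))

theorem mu_mul {H N : Subgroup (Ω ≃ₐ[K] Ω)} {c : (Ω ≃ₐ[K] Ω) → (Ω ≃ₐ[K] Ω) → Ω}
    {β : (Ω ≃ₐ[K] Ω) → Ω} (hN : N ≤ H) (hc : Coc2 H c)
    (hβ : ∀ g ∈ N, ∀ h ∈ N, c g h * β (g * h) = β g * g (β h)) {g h t t' t'' : Ω ≃ₐ[K] Ω}
    (hg : g ∈ H) (hh : h ∈ H) (ht : t ∈ H) (ht' : t' ∈ H) (ht'' : t'' ∈ H)
    (h1 : t'⁻¹ * h * t ∈ N) (h2 : t''⁻¹ * g * t' ∈ N) :
    c g h * mu c β (g * h) t t'' = mu c β g t' t'' * g (mu c β h t t') := by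
  obtain ⟨h0, -, hco⟩ := hc
  obtain ⟨n1, e1⟩ : ∃ n1, n1 = t'⁻¹ * h * t := ⟨_, rfl⟩
  obtain ⟨n2, e2⟩ : ∃ n2, n2 = t''⁻¹ * g * t' := ⟨_, rfl⟩
  have e3 : t''⁻¹ * (g * h) * t = n2 * n1 := by rw [e1, e2]; group
  have e4 : t' * n1 = h * t := by rw [e1]; group
  have e5 : t'' * n2 = g * t' := by rw [e2]; group
  unfold mu
  rw [e3, ← e1, ← e2]
  rw [← e1] at h1
  rw [← e2] at h2
  have hA := hco g hg h hh t ht
  have hB := hco g hg t' ht' n1 (hN h1)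
  have hC := hco t'' ht'' n2 (hN h2) n1 (hN h1)
  have hD := congrArg t'' (hβ n2 h2 n1 h1)
  rw [map_mul, map_mul, ← AlgEquiv.mul_apply t'' n2, e5, AlgEquiv.mul_apply] at hD
  rw [e4] at hB
  rw [e5] at hC
  have z1 : c t'' (n2 * n1) ≠ 0 := h0 _ ht'' _ (hN (N.mul_mem h2 h1))
  have z2 : c t'' n2 ≠ 0 := h0 _ ht'' _ (hN h2)
  have z3 : g (c t' n1) ≠ 0 := (map_ne_zero g).2 (h0 _ ht' _ (hN h1))
  have z4 : t'' (c n2 n1) ≠ 0 := (map_ne_zero t'').2 (h0 _ (hN h2) _ (hN h1))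
  have z5 : c (g * t') n1 ≠ 0 := h0 _ (H.mul_mem hg ht') _ (hN h1)
  rw [map_mul, map_mul, map_inv₀]
  have f1 : t'' (β (n2 * n1)) = t'' (β n2) * g (t' (β n1)) / t'' (c n2 n1) := by
    rw [eq_div_iff z4, mul_comm, hD]
  have f2 : c t'' (n2 * n1) = c (g * t') n1 * c t'' n2 / t'' (c n2 n1) := by
    rw [eq_div_iff z4, mul_comm, hC]
  have f3 : c g t' = g (c t' n1) * c g (h * t) / c (g * t') n1 := by
    rw [eq_div_iff z5, mul_comm, hB]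
  rw [f1, f2, f3, ← mul_assoc, ← mul_assoc, mul_comm (c g h), ← hA]
  field_simp

theorem mu_ne {H N : Subgroup (Ω ≃ₐ[K] Ω)} {c : (Ω ≃ₐ[K] Ω) → (Ω ≃ₐ[K] Ω) → Ω}
    {β : (Ω ≃ₐ[K] Ω) → Ω} (hN : N ≤ H) (hc : Coc2 H c) (hβ : ∀ g ∈ N, β g ≠ 0)
    {g t t' : Ω ≃ₐ[K] Ω} (hg : g ∈ H) (ht : t ∈ H) (ht' : t' ∈ H) (h1 : t'⁻¹ * g * t ∈ N) :
    mu c β g t t' ≠ 0 :=
  mul_ne_zero (mul_ne_zero (hc.1 _ hg _ ht) (inv_ne_zero (hc.1 _ ht' _ (hN h1))))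
    ((map_ne_zero t').2 (hβ _ h1))

theorem mu_ev {H N : Subgroup (Ω ≃ₐ[K] Ω)} {c : (Ω ≃ₐ[K] Ω) → (Ω ≃ₐ[K] Ω) → Ω}
    {β : (Ω ≃ₐ[K] Ω) → Ω} (hN : N ≤ H) (hc : Coc2 H c) (hβ : LC (N : Set (Ω ≃ₐ[K] Ω)) β)
    {g t t' : Ω ≃ₐ[K] Ω} (hg : g ∈ H) (ht : t ∈ H) (ht' : t' ∈ H) (h1 : t'⁻¹ * g * t ∈ N)
    (h2 : ∀ᶠ h in 𝓝[(H : Set (Ω ≃ₐ[K] Ω))] g, t'⁻¹ * h * t ∈ N) :
    ∀ᶠ h in 𝓝[(H : Set (Ω ≃ₐ[K] Ω))] g, mu c β h t t' = mu c β g t t' := by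
  have c1 : Continuous fun h : Ω ≃ₐ[K] Ω => t'⁻¹ * h * t := by fun_prop
  have a1 : Filter.Tendsto (fun h : Ω ≃ₐ[K] Ω => t'⁻¹ * h * t) (𝓝[(H : Set (Ω ≃ₐ[K] Ω))] g)
      (𝓝[(N : Set (Ω ≃ₐ[K] Ω))] (t'⁻¹ * g * t)) :=
    tendsto_nhdsWithin_iff.2 ⟨c1.continuousWithinAt, h2⟩
  have a2 : Filter.Tendsto (fun h : Ω ≃ₐ[K] Ω => (h, t)) (𝓝[(H : Set (Ω ≃ₐ[K] Ω))] g)
      (𝓝[(H : Set (Ω ≃ₐ[K] Ω)) ×ˢ (H : Set (Ω ≃ₐ[K] Ω))] (g, t)) :=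
    tendsto_nhdsWithin_iff.2 ⟨(continuous_id.prodMk continuous_const).continuousWithinAt,
      eventually_mem_nhdsWithin.mono fun h hh => ⟨hh, ht⟩⟩
  have a3 : Filter.Tendsto (fun h : Ω ≃ₐ[K] Ω => (t', t'⁻¹ * h * t)) (𝓝[(H : Set (Ω ≃ₐ[K] Ω))] g)
      (𝓝[(H : Set (Ω ≃ₐ[K] Ω)) ×ˢ (H : Set (Ω ≃ₐ[K] Ω))] (t', t'⁻¹ * g * t)) :=
    tendsto_nhdsWithin_iff.2 ⟨(continuous_const.prodMk c1).continuousWithinAt,
      h2.mono fun h hh => ⟨ht', hN hh⟩⟩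
  filter_upwards [a1.eventually (hβ _ h1), a2.eventually (hc.2.1 (g, t) ⟨hg, ht⟩),
    a3.eventually (hc.2.1 (t', t'⁻¹ * g * t) ⟨ht', hN h1⟩)] with h b1 b2 b3
  unfold mu
  rw [b1, b2, b3]

/-- The action of an element on the cosets, trivial outside `H`. -/
noncomputable def act (H N : Subgroup (Ω ≃ₐ[K] Ω)) (g : Ω ≃ₐ[K] Ω) (q : H ⧸ N.subgroupOf H) :
    H ⧸ N.subgroupOf H :=
  if hg : g ∈ H then (⟨g, hg⟩ : H) • q else q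

theorem act_eq {H N : Subgroup (Ω ≃ₐ[K] Ω)} {g : Ω ≃ₐ[K] Ω} (hg : g ∈ H)
    (q : H ⧸ N.subgroupOf H) : act H N g q = (⟨g, hg⟩ : H) • q := dif_pos hg

theorem act_iff {H N : Subgroup (Ω ≃ₐ[K] Ω)} {g : Ω ≃ₐ[K] Ω} (hg : g ∈ H)
    (q q' : H ⧸ N.subgroupOf H) :
    act H N g q = q' ↔ ((q'.out : H) : Ω ≃ₐ[K] Ω)⁻¹ * g * (q.out : H) ∈ N := by
  rw [act_eq hg, ← MulAction.Quotient.mk_smul_out, eq_comm]
  conv_lhs => rw [← QuotientGroup.out_eq' q']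
  rw [QuotientGroup.eq, Subgroup.mem_subgroupOf, smul_eq_mul, mul_assoc]
  rfl

end TrAux

open TrAux

variable {K Ω : Type} [Field K] [NumberField K] [Field Ω] [Algebra K Ω] [IsAlgClosed Ω]
  [IsGalois K Ω] [CharZero Ω]

theorem st_Tr (hT : TopSt K Ω) : TrSt K Ω := by
  intro H U N c hU hUn hHU hN hc ⟨β, hβ1, hβ2, hβ3⟩
  have := hT.fi U hU
  have : (N.subgroupOf H).FiniteIndex :=
    Subgroup.finiteIndex_of_le (H := U.subgroupOf H) fun x hx => hHU ⟨x.2, hx⟩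
  have := Fintype.ofFinite (H ⧸ N.subgroupOf H)
  have key : ∀ g ∈ H, ∀ q : H ⧸ N.subgroupOf H,
      (((act H N g q).out : H) : Ω ≃ₐ[K] Ω)⁻¹ * g * (q.out : H) ∈ N :=
    fun g hg q => (act_iff hg q _).1 rfl
  refine ⟨fun g => ∏ q : H ⧸ N.subgroupOf H, mu c β g (q.out : H) ((act H N g q).out : H),
    fun g hg => ?_, fun g hg => ?_, fun g hg h hh => ?_⟩
  · have h1 : ∀ q : H ⧸ N.subgroupOf H, ∀ᶠ h in 𝓝[(H : Set (Ω ≃ₐ[K] Ω))] g,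
        mu c β h (q.out : H) ((act H N h q).out : H) =
          mu c β g (q.out : H) ((act H N g q).out : H) := fun q => by
      have h2 : ∀ᶠ h in 𝓝[(H : Set (Ω ≃ₐ[K] Ω))] g, act H N h q = act H N g q := by
        refine hT.lc_of H U (fun h => act H N h q) hU (fun a ha b hb hab => ?_) g hg
        refine ((act_iff hb q _).2 ?_).symm
        have h3 : ((q.out : H) : Ω ≃ₐ[K] Ω)⁻¹ * (a⁻¹ * b) * (q.out : H) ∈ N :=
          hHU ⟨H.mul_mem (H.mul_mem (H.inv_mem q.out.2) (H.mul_mem (H.inv_mem ha) hb)) q.out.2,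
            hUn.conj_mem' _ hab _⟩
        convert N.mul_mem (key a ha q) h3 using 1
        group
      have h3 : ∀ᶠ h in 𝓝[(H : Set (Ω ≃ₐ[K] Ω))] g,
          (((act H N g q).out : H) : Ω ≃ₐ[K] Ω)⁻¹ * h * (q.out : H) ∈ N := by
        filter_upwards [h2, eventually_mem_nhdsWithin] with h b1 b2
        exact (act_iff b2 q _).1 b1
      filter_upwards [h2, mu_ev hN hc hβ1 hg q.out.2 (act H N g q).out.2 (key g hg q) h3]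
        with h b1 b2
      rw [b1, b2]
    filter_upwards [Filter.eventually_all.2 h1] with h hh
    exact Finset.prod_congr rfl fun q _ => hh q
  · exact Finset.prod_ne_zero_iff.2 fun q _ =>
      mu_ne hN hc hβ2 hg q.out.2 (act H N g q).out.2 (key g hg q)
  · have h1 : N.relIndex H = Fintype.card (H ⧸ N.subgroupOf H) := by
      rw [Subgroup.relIndex, Subgroup.index, Nat.card_eq_fintype_card]
    have h2 : ∀ q, act H N (g * h) q = act H N g (act H N h q) := fun q => by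
      rw [act_eq (H.mul_mem hg hh), act_eq hg, act_eq hh, ← mul_smul]
      rfl
    have h3 : ∏ q : H ⧸ N.subgroupOf H, mu c β g (q.out : H) ((act H N g q).out : H) =
        ∏ q : H ⧸ N.subgroupOf H, mu c β g ((act H N h q).out : H)
          ((act H N g (act H N h q)).out : H) := by
      refine (Fintype.prod_equiv (MulAction.toPerm (⟨h, hh⟩ : H)) _ _ fun q => ?_).symm
      rw [act_eq hh, MulAction.toPerm_apply]
    simp only [Pi.pow_apply]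
    rw [h1, h3, map_prod, ← Finset.prod_mul_distrib, ← Finset.card_univ, ← Finset.prod_const,
      ← Finset.prod_mul_distrib]
    refine Finset.prod_congr rfl fun q _ => ?_
    rw [h2]
    exact mu_mul hN hc hβ3 hg hh q.out.2 (act H N h q).out.2 (act H N g (act H N h q)).out.2
      (key h hh q) (key g hg _)

end Pool.Agent.SC
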