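import Pool.Agent.Lib.MP_b4b3cb_nt.StG

/-! The 2-torsion of the local Brauer group has at most two elements. -/

namespace Pool.Agent.SC

open NumberField Pool.Agent.Stark
open scoped Classical Pointwise Topology

namespace TwoAux

section Loc

variable {F : Type} [Field F] [NumberField F]

theorem approx (q : Pr F) {x : Kc q} (hx : x ≠ 0) : ∃ y : F, y ≠ 0 ∧ IsSquare (emb q y * x) := by
  have L := isLoc_wv q
  have e4 : (4 : Kc q) = 2 * 2 := by norm_num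
  have h4 : (4 : Kc q) ≠ 0 := e4 ▸ mul_ne_zero L.two L.two
  have h5 : 0 ≤ ord (wv q) (4 : Kc q) := by
    have := ord_two_nonneg (w := wv q)
    rw [e4, ord_mul L.two L.two]
    omega
  obtain ⟨y, hy⟩ := exists_approx q x (ord (wv q) x + (ord (wv q) (4 : Kc q) + 1))
  have h1 := ComplAux.pw_div hx hy
  rw [sub_div, div_self hx] at h1
  refine ⟨y, fun h0 => ?_, ?_⟩
  · rw [h0, map_zero, zero_div, zero_sub, mem_pw_iff, ord_neg, ord_one] at h1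
    rcases h1 with h1 | h1
    · exact one_ne_zero (neg_eq_zero.1 h1)
    · omega
  · obtain ⟨r, hr⟩ := L.hens (emb q y / x) ((mem_pw.1 h1).trans_lt (by
      rw [val_eq_exp h4, WithZero.exp_lt_exp]; omega))
    exact ⟨r * x, by rw [(div_eq_iff hx).1 hr]; ring⟩

theorem exists_hq (q : Pr F) : ∃ a b : F, a ≠ 0 ∧ b ≠ 0 ∧ hq q a b = 1 := by
  have L := isLoc_wv q
  obtain ⟨x, hx, h1⟩ := L.exists_ord 1
  obtain ⟨y, hy, h2⟩ := L.exists_hs_one hx (by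
    rintro ⟨r, rfl⟩
    rw [ord_mul (left_ne_zero_of_mul hx) (left_ne_zero_of_mul hx)] at h1
    omega)
  obtain ⟨a, ha, h3⟩ := approx q hx
  obtain ⟨b, hb, h4⟩ := approx q hy
  refine ⟨a, b, ha, hb, ?_⟩
  rw [hq, hs_congr_left _ ((map_ne_zero _).2 ha) hx h3,
    hs_congr_right _ ((map_ne_zero _).2 hb) hy h4, h2]

end Loc

section Grp

variable {G : Type} [Group G] [TopologicalSpace G] {N : Subgroup G} {a b c d e : G → ZMod 2}

theorem hom_add (ha : Hom N a) (hb : Hom N b) : Hom N (a + b) :=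
  ⟨ha.1.add hb.1, fun g hg h hh => by
    simp only [Pi.add_apply, ha.2 g hg h hh, hb.2 g hg h hh]; ring⟩

theorem two_eq : (2 : ZMod 2) = 0 := by decide

/-- Two nonsplit symbols are equivalent. -/
theorem quat (hS : SzSt) (h : ∀ a b c, Hom N a → Hom N b → Hom N c → ¬ Sz N (cup a b) →
    ¬ Sz N (cup a c) → Sz N (cup a (b + c))) (ha : Hom N a) (hb : Hom N b) (hd : Hom N d)
    (he : Hom N e) (h1 : ¬ Sz N (cup a b)) (h2 : ¬ Sz N (cup d e)) :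
    Sz N (cup d e + cup a b) := by
  have k : ∀ {a b c : G → ZMod 2}, Sz N (cup a b) → Sz N (cup a (b + c)) → Sz N (cup a c) :=
    fun {a b c} u v => hS.congr (hS.add u v) fun g _ h _ => by
      simp only [Pi.add_apply, cup]
      linear_combination a g * b h * two_eq
  obtain ⟨x, hx, x1, x2⟩ : ∃ x, Hom N x ∧ ¬ Sz N (cup a x) ∧ ¬ Sz N (cup d x) := by
    by_cases u : Sz N (cup d b)
    · by_cases v : Sz N (cup a e)
      · exact ⟨e + b, hom_add he hb, fun w => h1 (k v w), fun w => h2 (k u (add_comm e b ▸ w))⟩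
      · exact ⟨e, he, v, h2⟩
    · exact ⟨b, hb, h1, u⟩
  have y := hS.swap hx (hom_add ha hd) (h x a d hx ha hd (fun w => x1 (hS.swap hx ha w))
    fun w => x2 (hS.swap hx hd w))
  refine hS.congr (hS.add (hS.add (h d e x hd he hx h2 x2) (h a b x ha hb hx h1 x1)) y)
    fun g _ h _ => ?_
  simp only [Pi.add_apply, cup]
  linear_combination (a g * x h + d g * x h) * two_eq

end Grp

variable {K Ω : Type} [Field K] [NumberField K] [Field Ω] [Algebra K Ω] [IsAlgClosed Ω]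
  {𝔓 : Ideal (𝓞 Ω)} {U N : Subgroup (Ω ≃ₐ[K] Ω)}

/-- The symbols on an open subgroup of a decomposition group. -/
theorem loc (hS : SzSt) (hT : TopSt K Ω) (hK : KumSt K Ω) (hY : SymSt K Ω) (hP : PrimeSt K Ω)
    (hm : 𝔓.IsMaximal) (ho : IsOpen (U : Set (Ω ≃ₐ[K] Ω))) (hn : U.Normal)
    (h1 : Dec K 𝔓 ⊓ U ≤ N) (h2 : N ≤ Dec K 𝔓) :
    (∀ a b c, Hom N a → Hom N b → Hom N c → ¬ Sz N (cup a b) → ¬ Sz N (cup a c) →
      Sz N (cup a (b + c))) ∧ ∃ a b, Hom N a ∧ Hom N b ∧ ¬ Sz N (cup a b) := by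
  obtain ⟨-, m1, m2⟩ := hT.mid _ U N (hP.closed 𝔓) ho hn h1 h2
  obtain ⟨F, hF, e⟩ := hT.field _ m1
  have : NumberField F := NumberField.of_module_finite K F
  obtain ⟨q, ov⟩ := hP.under F 𝔓 hm
  obtain ⟨s1, s2⟩ := hY ov
  have fx : ∀ {a : F} {r : Ω}, r ^ 2 = algebraMap F Ω a → Fix N (r ^ 2) := fun {a r} hr g hg => by
    rw [← m2, ← e] at hg
    rw [hr]
    exact hg.2 a
  have nz : ∀ {a : F} {r : Ω}, a ≠ 0 → r ^ 2 = algebraMap F Ω a → r ≠ 0 := fun {a r} ha hr h0 =>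
    (map_ne_zero (algebraMap F Ω)).2 ha (by rw [← hr, h0, zero_pow two_ne_zero])
  rw [e, m2] at s1 s2
  have sy : ∀ {a b : F} {r s : Ω} {x y : (Ω ≃ₐ[K] Ω) → ZMod 2}, a ≠ 0 → b ≠ 0 →
      r ^ 2 = algebraMap F Ω a → s ^ 2 = algebraMap F Ω b → (∀ g ∈ N, x g = kr r g) →
      (∀ g ∈ N, y g = kr s g) → (Sz N (cup x y) ↔ hq q a b = 0) := by
    intro a b r s x y ha hb hr hs hx hy
    rw [← s1 ha hb hr hs, symz]
    refine Iff.trans ⟨fun u => hS.congr u fun g hg h hh => ?_,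
      fun u => hS.congr u fun g hg h hh => ?_⟩ (b := Sz N (cup (kr r) (kr s))) (by simp) <;>
      simp only [cup, hx g hg, hy h hh]
  refine ⟨fun x y z hx hy hz u v => ?_, ?_⟩
  · obtain ⟨a, r, ha, hr, ex⟩ := s2 x hx
    obtain ⟨b, s, hb, hs, ey⟩ := s2 y hy
    obtain ⟨c, t, hc, ht, ez⟩ := s2 z hz
    rw [sy ha hb hr hs ex ey] at u
    rw [sy ha hc hr ht ex ez] at v
    rw [sy (s := s * t) ha (mul_ne_zero hb hc) hr (by rw [mul_pow, hs, ht, map_mul]) ex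
      fun g hg => by rw [hK.mul (nz hb hs) (nz hc ht) (fx hs) (fx ht) g hg, Pi.add_apply, ey g hg,
        ez g hg], hq, map_mul, (isLoc_wv q).hs_mul_right ((map_ne_zero _).2 ha)
      ((map_ne_zero _).2 hb) ((map_ne_zero _).2 hc), ← hq, ← hq,
      (zmod2_cases _).resolve_left u, (zmod2_cases _).resolve_left v]
    decide
  · obtain ⟨a, b, ha, hb, h⟩ := exists_hq q
    refine ⟨kr (rt Ω a), kr (rt Ω b), hK.hom (nz ha (rt_sq a)) (fx (rt_sq a)),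
      hK.hom (nz hb (rt_sq b)) (fx (rt_sq b)), ?_⟩
    rw [sy ha hb (rt_sq a) (rt_sq b) (fun _ _ => rfl) fun _ _ => rfl, h]
    exact one_ne_zero

end TwoAux

variable {K Ω : Type} [Field K] [NumberField K] [Field Ω] [Algebra K Ω] [IsAlgClosed Ω]
  [IsGalois K Ω] [CharZero Ω]

omit [IsGalois K Ω] [CharZero Ω] in
theorem st_TwoB (hS : SzSt) (hT : TopSt K Ω) (hK : KumSt K Ω) (hB : BrSt K Ω) (hQ : QuadSt K Ω)
    (hY : SymSt K Ω) (hP : PrimeSt K Ω) : TwoBSt K Ω := by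
  intro 𝔓 U N N' hm ho hn h1 h2 h3 hi ε hε hs
  have c := (hT.mid _ U N (hP.closed 𝔓) ho hn h1 (h2.trans h3)).1
  have c' := (hT.mid _ U N' (hP.closed 𝔓) ho hn (h1.trans h2) h3).1
  obtain ⟨d, hd, hN, -⟩ := hT.two _ U N N' ho h1 h2 h3 hi
  obtain ⟨r, hr, fr, er⟩ := hK.kum N' d c' hd
  obtain ⟨s, hs0, fs, sp⟩ := hQ N' N r (sgc ε) c' hr fr (fun g => (hN g).trans
    (and_congr_right fun hg => by rw [er g hg, kr]; simp)) (hB.coc_sg hε) ((hB.sz c).2 hs)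
  rw [← hB.sgc_add, hB.sz c'] at sp
  by_cases u : Sz N' (cup (kr r) (kr s))
  · refine Or.inl (hS.congr (hS.add sp u) fun g _ h _ => ?_)
    simp only [Pi.add_apply]
    linear_combination cup (kr r) (kr s) g h * TwoAux.two_eq
  · refine Or.inr fun a b ha hb v => hS.congr (hS.add sp (TwoAux.quat hS
      (TwoAux.loc hS hT hK hY hP hm ho hn (h1.trans h2) h3).1 ha hb (hK.hom hr fr) (hK.hom hs0 fs)
        v u)) fun g _ h _ => ?_
    simp only [Pi.add_apply]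
    linear_combination cup (kr r) (kr s) g h * TwoAux.two_eq

omit [IsGalois K Ω] [CharZero Ω] in
theorem st_Two (hL : SylSt) (hS : SzSt) (hT : TopSt K Ω) (hK : KumSt K Ω) (hB : BrSt K Ω)
    (hR : TrSt K Ω) (hY : SymSt K Ω) (hP : PrimeSt K Ω) (hA : TwoASt K Ω) (hW : TwoBSt K Ω) :
    TwoSt K Ω := by
  intro 𝔓 hm ε ε' hε hε'
  have c := hP.closed 𝔓
  obtain ⟨U₁, o₁, n₁, s₁⟩ := hB.small c (hB.coc_sg hε)
  obtain ⟨U₂, o₂, n₂, s₂⟩ := hB.small c (hB.coc_sg hε')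
  have ho : IsOpen ((U₁ ⊓ U₂ : Subgroup (Ω ≃ₐ[K] Ω)) : Set (Ω ≃ₐ[K] Ω)) := o₁.inter o₂
  have hn : (U₁ ⊓ U₂).Normal := Subgroup.normal_inf_normal U₁ U₂
  have c0 := (hT.mid _ _ _ c ho hn le_rfl inf_le_left).1
  have z₁ := (hB.sz c0).1 (hB.mono s₁ (inf_le_inf_left _ inf_le_left))
  have z₂ := (hB.sz c0).1 (hB.mono s₂ (inf_le_inf_left _ inf_le_right))
  generalize U₁ ⊓ U₂ = U at ho hn c0 z₁ z₂
  obtain ⟨P, p1, p2, p3, p4⟩ := hL _ (Dec K 𝔓) U hn (hT.fi U ho) (Quat K Ω (Dec K 𝔓 ⊓ U))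
    (fun _ _ h => Or.inl h) fun N N' h1 h2 h3 hi hq η hη h0 =>
      hW 𝔓 U N N' hm ho hn h1 h2 h3 hi η hη (hA 𝔓 U N N' hm ho hn h1 h2 h3 hi hq η hη h0)
  have cP := (hT.mid _ _ _ c ho hn p1 p2).1
  have up : ∀ η, Cz (Dec K 𝔓) η → Sz P η → Sz (Dec K 𝔓) η := fun η hη h =>
    (hB.sz c).1 (hB.odd (k := 1) p3 (fun g _ h _ => by rw [pow_one, sq, sgc, sg_mul_self])
      (hR _ U P _ ho hn p1 p2 (hB.coc_sg hη) ((hB.sz cP).2 h)))
  obtain ⟨a, b, ha, hb, u⟩ := (TwoAux.loc hS hT hK hY hP hm ho hn p1 p2).2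
  rcases p4 ε (hS.cz_mono hε p2) z₁ with v | v
  · exact Or.inl (up _ hε v)
  rcases p4 ε' (hS.cz_mono hε' p2) z₂ with w | w
  · exact Or.inr (Or.inl (up _ hε' w))
  refine Or.inr (Or.inr (up _ (hS.cz_add hε hε') (hS.congr (hS.add (v a b ha hb u)
    (w a b ha hb u)) fun g _ h _ => ?_)))
  simp only [Pi.add_apply]
  linear_combination cup a b g h * TwoAux.two_eq

end Pool.Agent.SC
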