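import Pool.Agent.Lib.MP_b4b3cb_nt.StG

/-! One step of the induction for the local Brauer group. -/

namespace Pool.Agent.SC

open NumberField Pool.Agent.Stark
open scoped Classical Pointwise Topology

namespace TwoAAux

theorem loc {k : Type} [Field k] {w : Valuation k (WithZero (Multiplicative ℤ))} (L : IsLoc w)
    {d : k} (hd : d ≠ 0) : ∃ u e : k, u ≠ 0 ∧ e ≠ 0 ∧ hs u e = 1 ∧ hs d e = 0 := by
  obtain ⟨e, e0, e1, e2⟩ : ∃ e : k, e ≠ 0 ∧ hs d e = 0 ∧ ¬ IsSquare e := by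
    by_contra! h
    choose f f0 f1 using cl_surj (k := k)
    have := Nat.card_le_card_of_injective (fun c => hs d (f c)) fun c c' e => by
      rw [← f1 c, ← f1 c', cl_eq_cl (f0 c) (f0 c')]
      refine h _ (mul_ne_zero (f0 c) (f0 c')) ?_
      rw [L.hs_mul_right hd (f0 c) (f0 c'), show hs d (f c) = hs d (f c') from e,
        CharTwo.add_self_eq_zero]
    rw [L.card_sqCl, Nat.card_zmod] at this
    have := Nat.pos_of_ne_zero (pow_ne_zero (ord w (2 : k)).toNat L.fin)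
    omega
  obtain ⟨u, u0, u1⟩ := L.exists_hs_one e0 e2
  exact ⟨u, e, u0, e0, (hs_comm L.two u0 e0).trans u1, e1⟩

variable {F : Type} [Field F] [NumberField F]

theorem approx (q : Pr F) {x : Kc q} (hx : x ≠ 0) : ∃ y : F, y ≠ 0 ∧ IsSquare (emb q y * x) := by
  obtain ⟨y, hy⟩ := exists_approx q x (ord (wv q) x + (2 * ord (wv q) (2 : Kc q) + 1))
  have h2 := ord_two_nonneg (w := wv q)
  refine ⟨y, fun e => (LocAux.add_high hx (LocAux.anti (by omega) hy)).1 (by simp [e]), ?_⟩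
  have := ComplAux.pw_div hx hy
  rw [sub_div, div_self hx] at this
  have := (LocAux.hens (isLoc_wv q) this).mul (IsSquare.mul_self x)
  rwa [← mul_assoc, div_mul_cancel₀ _ hx] at this

theorem glob (q : Pr F) {d : F} (hd : d ≠ 0) :
    ∃ u e : F, u ≠ 0 ∧ e ≠ 0 ∧ hq q u e = 1 ∧ hq q d e = 0 := by
  obtain ⟨u, e, u0, e0, a, b⟩ := loc (isLoc_wv q) ((map_ne_zero (emb q)).2 hd)
  obtain ⟨u', u1, u2⟩ := approx q u0
  obtain ⟨e', e1, e2⟩ := approx q e0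
  refine ⟨u', e', u1, e1, ?_, (hs_congr_right _ ((map_ne_zero _).2 e1) e0 e2).trans b⟩
  rw [hq, hs_congr_right _ ((map_ne_zero _).2 e1) e0 e2,
    hs_congr_left _ ((map_ne_zero _).2 u1) u0 u2, a]

variable {K Ω : Type} [Field K] [Field Ω] [Algebra K Ω] [IsAlgClosed Ω]
  [Algebra K F] [Algebra F Ω] [IsScalarTower K F Ω]

theorem core (hK : KumSt K Ω) (hL : LocSt K Ω) (hS : SymSt K Ω) {𝔓 : Ideal (𝓞 Ω)} {q : Pr F}
    (ho : Over 𝔓 q) {D N : Subgroup (Ω ≃ₐ[K] Ω)} (hD : Dec K 𝔓 ⊓ Gs K Ω F = D)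
    {d : (Ω ≃ₐ[K] Ω) → ZMod 2} {σ : Ω ≃ₐ[K] Ω} (hd : Hom D d)
    (hN : ∀ g, g ∈ N ↔ g ∈ D ∧ d g = 0) (h1 : σ ∈ D) (h2 : d σ = 1) :
    ∃ u b b' : (Ω ≃ₐ[K] Ω) → ZMod 2, Hom D u ∧ Hom N b ∧ (∀ h ∈ D, b' h =
      if d h = 0 then b h + b (σ * h * σ⁻¹) else b (h * σ⁻¹) + b (σ * h)) ∧
      ¬ Sz D (cup u b') := by
  subst hD
  have fx : ∀ {a : F} {r : Ω}, r ^ 2 = algebraMap F Ω a → Fix (Dec K 𝔓 ⊓ Gs K Ω F) (r ^ 2) :=
    fun {a r} h g hg => by rw [h]; exact hg.2 a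
  have nz : ∀ {a : F} {r : Ω}, a ≠ 0 → r ^ 2 = algebraMap F Ω a → r ≠ 0 := fun {a r} h h' e =>
    (map_ne_zero (algebraMap F Ω)).2 h (by rw [← h', e, zero_pow two_ne_zero])
  obtain ⟨a, r, a0, ar, hr⟩ := (hS ho).2 d hd
  obtain ⟨u, e, u0, e0, ue, ae⟩ := glob q a0
  obtain ⟨x, z, hx, hz, ex⟩ := (hL.norm ho a0 e0).1 ae
  obtain ⟨s, hs'⟩ := IsAlgClosed.exists_pow_nat_eq (x + z * r) two_pos
  have d1 : d 1 = 0 := by
    simpa [CharTwo.add_self_eq_zero] using hd.2 1 (one_mem _) 1 (one_mem _)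
  have d2 : d σ⁻¹ = 1 := by
    have := hd.2 σ h1 _ (inv_mem h1)
    rw [mul_inv_cancel, d1, h2] at this
    revert this; generalize d σ⁻¹ = c; revert c; decide
  have ap : ∀ g ∈ Dec K 𝔓 ⊓ Gs K Ω F, g (s ^ 2) = x + z * (sg Ω (d g) * r) := fun g hg => by
    rw [hs', map_add, map_mul, hx g hg, hz g hg, hK.app (fx ar) g hg, hr g hg]
  have fs : Fix N (s ^ 2) := fun g hg => by
    rw [ap g ((hN g).1 hg).1, ((hN g).1 hg).2, sg_zero, one_mul, hs']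
  have hS2 : (s * σ⁻¹ s) ^ 2 = algebraMap F Ω e := by
    rw [mul_pow, ← map_pow, ap _ (inv_mem h1), d2, sg_one, hs', ex, ← ar]; ring
  have S0 := nz e0 hS2
  refine ⟨kr (rt Ω u), kr s, kr (s * σ⁻¹ s), hK.hom (nz u0 (rt_sq u)) (fx (rt_sq u)),
    hK.hom (left_ne_zero_of_mul S0) fs, fun h hh => hK.of_app S0 ?_, fun h => ?_⟩
  · have m1 := hd.2 _ h1 _ hh
    have m2 := hd.2 _ hh _ (inv_mem h1)
    have m3 := hd.2 _ (mul_mem h1 hh) _ (inv_mem h1)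
    have k : (1 : ZMod 2) + 1 = 0 := by decide
    split_ifs with c
    · have b1 := hK.app fs h ((hN _).2 ⟨hh, c⟩)
      have b2 := congrArg (σ⁻¹ : Ω ≃ₐ[K] Ω) (hK.app fs (σ * h * σ⁻¹) ((hN _).2
        ⟨mul_mem (mul_mem h1 hh) (inv_mem h1), by rw [m3, m1, h2, c, d2, add_zero, k]⟩))
      rw [← AlgEquiv.mul_apply, mul_assoc, inv_mul_cancel_left, AlgEquiv.mul_apply, map_mul,
        map_sg] at b2
      rw [map_mul, b1, b2, sg_add, mul_assoc σ h]; ring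
    · have c' := (zmod2_cases _).resolve_left c
      have b1 := hK.app fs (h * σ⁻¹) ((hN _).2
        ⟨mul_mem hh (inv_mem h1), by rw [m2, c', d2, k]⟩)
      have b2 := congrArg (σ⁻¹ : Ω ≃ₐ[K] Ω) (hK.app fs (σ * h) ((hN _).2
        ⟨mul_mem h1 hh, by rw [m1, h2, c', k]⟩))
      rw [← AlgEquiv.mul_apply, inv_mul_cancel_left, map_mul, map_sg] at b2
      rw [map_mul, b2, ← AlgEquiv.mul_apply h, b1, sg_add]; ring
  · have := (hS ho).1 u0 e0 (rt_sq u) hS2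
    rw [symz, if_pos h, ue] at this
    exact zero_ne_one this

end TwoAAux

variable {K Ω : Type} [Field K] [NumberField K] [Field Ω] [Algebra K Ω] [IsAlgClosed Ω]

open TwoAAux in
theorem st_TwoA (hJ : ProjSt) (hZ : SzSt) (hT : TopSt K Ω) (hK : KumSt K Ω) (hL : LocSt K Ω)
    (hS : SymSt K Ω) (hP : PrimeSt K Ω) : TwoASt K Ω := by
  intro 𝔓 U N N' hm hU hn h1 h2 h3 h4 hQ ε e1 e2
  obtain ⟨d, hd, hN, σ, s1, s2⟩ := hT.two _ U N N' hU h1 h2 h3 h4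
  obtain ⟨-, m1, m2⟩ := hT.mid _ U N' (hP.closed 𝔓) hU hn (h1.trans h2) h3
  obtain ⟨F, f1, f2⟩ := hT.field _ m1
  have : NumberField F := NumberField.of_module_finite K F
  obtain ⟨q, ho⟩ := hP.under F 𝔓 hm
  obtain ⟨u, b, b', c1, c2, c3, c4⟩ := core hK hL hS ho (f2 ▸ m2) hd hN s1 s2
  refine (hQ ε (hZ.cz_mono e1 h2) e2).elim id fun h => (c4 (hJ _ N' N d u b b' ε σ hd hN s1 s2 e1
    c1 c2 c3 (h u b ⟨c1.1.mono h2, fun g hg g' hg' => c1.2 g (h2 hg) g' (h2 hg')⟩ c2 fun h' =>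
      c4 (hJ _ N' N d u b b' 0 σ hd hN s1 s2 ⟨continuousOn_const, fun _ _ _ _ _ _ => rfl⟩ c1 c2 c3
        (by rwa [zero_add]))))).elim

end Pool.Agent.SC
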