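import Pool.Agent.Lib.MP_b4b3cb_nt.StF

/-! Unfolding of the Mellin transform of a theta series. -/

namespace Pool.Agent.SC

open NumberField Pool.Agent.Stark
open scoped Classical ComplexConjugate
open Complex MeasureTheory ZetaZeroAux

namespace UnfAux

variable {κ : Type} [Fintype κ]

lemma norm_fz (m : κ → ℕ) (y : κ → ℝ) (x : κ → ℂ) :
    (‖fz m y x‖ : ℂ) = fz m y fun k => (‖x k‖ : ℂ) := by
  simp only [fz, norm_prod, norm_mul, norm_pow, norm_conj, norm_real, norm_norm, conj_ofReal,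
    Real.norm_of_nonneg (Real.exp_pos _).le, ofReal_prod, ofReal_mul, ofReal_pow]

lemma norm_pz (m : κ → ℕ) (x : κ → ℂ) : ‖pz m fun k => (‖x k‖ : ℂ)‖ = ‖pz m x‖ := by
  simp [pz]

lemma norm_ex (n : ℕ) (s : ℂ) (t : ℝ) : (‖cexp (2 * n * s * t)‖ : ℂ) = cexp (2 * n * s.re * t) := by
  rw [norm_exp, ofReal_exp]
  simp

end UnfAux

open UnfAux in
theorem st_Unf (hG : GamISt) : UnfSt := by
  intro κ _ r l e hl hd
  obtain ⟨c₀, c0, H⟩ := hG l e hl hd
  refine ⟨c₀, c0, fun A _ m x cf θ l' y₀ s hl' hx hθ hs hS => ?_⟩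
  have := vol_inv (r := r)
  have hθ' : ∀ y, θ y = ∑' q : A × (Fin r → ℤ),
      cf q.1 * fz m (fun k => y k + ∑ j, (q.2 j : ℝ) * l' j k) (x q.1) := fun y => by
    rcases hl' with rfl | rfl
    · exact hθ y
    · rw [hθ, ← ((Equiv.refl A).prodCongr (Equiv.neg (Fin r → ℤ))).tsum_eq]
      simp
  let Φ : (κ → ℂ) → ℂ → (Fin r → ℝ) × ℝ → ℂ := fun z s p =>
    fz m (fun k => y₀ k + ∑ j, p.1 j * l' j k + p.2) z * cexp (2 * (Fintype.card κ : ℂ) * s * p.2)
  have hI := fun a => H m (x a) l' y₀ s hl' (hx a) hs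
  have hR := fun a => H m (fun k => (‖x a k‖ : ℂ)) l' y₀ s.re hl' (fun k => by simpa using hx a k) hs
  have hJ : ∀ a, Integrable fun p => cf a * Φ (x a) s p := fun a => (hI a).1.const_mul _
  let F : A × (Fin r → ℤ) → (Fin r → ℝ) × ℝ → ℂ := fun q p => cf q.1 * Φ (x q.1) s (sh q.2 p)
  have h1 : ∀ q, Integrable (F q) (volume.restrict (box r ×ˢ Set.univ)) := fun q =>
    ((hJ q.1).comp_add_right _).integrableOn
  have h2 : Summable fun q => ∫ p in box r ×ˢ Set.univ, ‖F q p‖ := by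
    refine (summable_prod_of_nonneg fun q => integral_nonneg fun _ => norm_nonneg _).2
      ⟨fun a => (unfold_box (hJ a).norm).summable, ?_⟩
    refine (hS.mul_left ‖c₀ * cexp (-2 * s.re * ((∑ k, y₀ k : ℝ) : ℂ)) *
      ∏ k, Gammaℂ (s.re + ((m k : ℂ) + 1) / 2)‖).congr fun a => ?_
    rw [(unfold_box (hJ a).norm).tsum_eq]
    have e1 : ((∫ p, ‖Φ (x a) s p‖ : ℝ) : ℂ) = ∫ p, Φ (fun k => (‖x a k‖ : ℂ)) s.re p := by
      rw [← integral_complex_ofReal]
      simp only [Φ, norm_mul, ofReal_mul, norm_fz, norm_ex]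
    have e2 := congrArg norm (e1.trans (hR a).2)
    rw [norm_real, Real.norm_of_nonneg (integral_nonneg fun _ => norm_nonneg _), norm_mul,
      norm_mul (pz _ _), norm_pz, norm_cpow_eq_rpow_re_of_pos (Finset.prod_pos fun k _ => by
        simpa using pow_pos (norm_pos_iff.2 (hx a k)) 2)] at e2
    simp only [norm_real, norm_norm, neg_re, ofReal_re] at e2
    simp only [norm_mul (cf a)]
    rw [integral_const_mul, e2]
    ring
  have h3 : ∀ p : (Fin r → ℝ) × ℝ, ∑' q, F q p = (θ fun k => y₀ k + ∑ j, p.1 j * l' j k + p.2) *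
      cexp (2 * (Fintype.card κ : ℂ) * s * p.2) := by
    intro p
    rw [hθ', ← tsum_mul_right]
    refine tsum_congr fun ⟨a, k⟩ => ?_
    simp only [F, Φ, sh, Prod.fst_add, Prod.snd_add, add_zero, Pi.add_apply, add_mul,
      Finset.sum_add_distrib, mul_assoc]
    congr 3
    ext w
    ring
  have h4 := hasSum_integral_of_summable_integral_norm h1 h2
  have h5 := (h4.prod_fiberwise fun a => unfold_box (hJ a)).tsum_eq
  have h6 := integrable_tsum h1 h2
  have h7 : (volume : Measure ((Fin r → ℝ) × ℝ)).restrict (box r ×ˢ Set.univ)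
      = (volume.restrict (box r)).prod volume := by
    rw [Measure.volume_eq_prod, ← Measure.prod_restrict, Measure.restrict_univ]
  rw [h7] at h5 h6
  rw [integral_prod_symm _ h6] at h5
  simp_rw [h3, integral_mul_const, integral_const_mul] at h5
  rw [← tsum_mul_left, mel, ← h5]
  refine tsum_congr fun a => ?_
  rw [(hI a).2]
  ring

end Pool.Agent.SC
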