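import Pool.Agent.Lib.MP_b4b3cb_nt.StR

/-! Existence of the Weil indices of a number field. -/

namespace Pool.Agent.SC

open NumberField Pool.Agent.Stark
open scoped Classical ComplexConjugate

namespace WeilAux

open WeilLocAux

section Loc

variable {k : Type*} [Field k] {w : Valuation k (WithZero (Multiplicative ℤ))}
  {ψ : AddChar k ℂ} {j₀ : ℤ}

theorem dat_lat (L : IsLoc w) (hψ : IsCond w ψ j₀) {d : k} (hd : d ≠ 0) {m m' : ℤ}
    (hm : j₀ ≤ ord w d + 2 * m) (hm' : m' = j₀ - m - ord w (2 * d)) {R : Finset k}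
    (hR : IsRep (pw w m) (pw w m') R) :
    Dat (pw w) (fun x => ψ (d * x ^ 2)) (∑ x ∈ R, ψ (d * x ^ 2)) := by
  have h2 : 2 * d ≠ 0 := mul_ne_zero L.two hd
  have h3 : ord w (2 * d) = ord w 2 + ord w d := ord_mul L.two hd
  have h4 : 0 ≤ ord w (2 : k) := ord_two_nonneg
  refine ⟨fun x y => ψ (2 * d * x * y), pw w m, pw w m', R, max m (-m'), 1,
    ⟨fun x y => ?_, fun x y z => ?_, fun x => by simp, j₀ - ord w (2 * d),
      fun i j hij x hx y hy => ?_⟩, pw_anti (by omega), pw_anti (by omega), pw_anti (by omega),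
    fun x hx => ?_, fun x => ?_, hR, one_pos, by rw [Complex.ofReal_one, one_mul]⟩
  · rw [← AddChar.map_add_eq_mul, ← AddChar.map_add_eq_mul]
    congr 1
    ring
  · rw [← AddChar.map_add_eq_mul, mul_add]
  · exact hψ.triv _ (mul_pw (mul_pw (self_pw _) hx le_rfl) hy (by omega))
  · simp only [sq]
    exact hψ.triv _ (mul_pw (self_pw d) (mul_pw hx hx le_rfl) (by omega))
  · rw [dual hψ]
    exact ⟨fun hx => mul_pw (self_pw _) hx (by omega), fun hx => of_mul_pw h2 hx (by omega)⟩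

variable (L : IsLoc w) {gam : k → ℂ}
  (hg : ∀ d : k, d ≠ 0 → ‖gam d‖ = 1 ∧ Dat (pw w) (fun x => ψ (d * x ^ 2)) (gam d))

include L hg

theorem gam_sq {c s : k} (hc : c ≠ 0) (hs : s ≠ 0) : gam (c * (s * s)) = gam c := by
  have h1 := hg c hc
  have h2 := hg _ (mul_ne_zero hc (mul_ne_zero hs hs))
  let g : k ≃+ k :=
    { toFun := fun x => s * x
      invFun := fun x => s⁻¹ * x
      left_inv := fun x => inv_mul_cancel_left₀ hs x
      right_inv := fun x => mul_inv_cancel_left₀ hs x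
      map_add' := fun x y => mul_add s x y }
  have h3 := h1.2.pull g ⟨|ord w s|, fun N x hx =>
    ⟨mul_pw (self_pw s) hx (by have := neg_abs_le (ord w s); omega),
      mul_pw (self_pw s⁻¹) hx (by rw [ord_inv]; have := le_abs_self (ord w s); omega)⟩⟩
  obtain ⟨r, hr, e⟩ := h2.2.uniq mono (reps L) (γ' := gam c) (by
    convert h3 using 3 with x
    change _ = c * (s * x) ^ 2
    ring)
  exact unit_eq hr e h2.1 h1.1

theorem gam_hs (hψ : IsCond w ψ j₀) {a b : k} (ha : a ≠ 0) (hb : b ≠ 0) :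
    gam 1 * gam (-a) * gam (-b) * gam (a * b) = sg ℂ (hs a b) := by
  obtain ⟨g, g1, g2⟩ := L.weil hψ
  have key : ∀ d : k, d ≠ 0 → ∃ r : ℝ, 0 < r ∧ gam d = r * g d := fun d hd => by
    obtain ⟨J, hJ⟩ := g1 d hd
    obtain ⟨J', hJ'⟩ := (hg d hd).2.ph mono
    obtain ⟨R, hR⟩ := reps L (2 * max (max J J') 0) (-max (max J J') 0) (by omega)
    obtain ⟨r, h1, h2⟩ := hJ _ _ (by omega) (by omega) R hR
    obtain ⟨r', h3, h4⟩ := hJ' _ _ (by omega) (by omega) R hR
    refine ⟨r / r', div_pos h1 h3, ?_⟩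
    have h5 : (r' : ℂ) ≠ 0 := by exact_mod_cast h3.ne'
    push_cast
    field_simp
    rw [mul_comm, ← h2, h4]
  have hab := mul_ne_zero ha hb
  obtain ⟨r1, p1, e1⟩ := key 1 one_ne_zero
  obtain ⟨r2, p2, e2⟩ := key _ (neg_ne_zero.2 ha)
  obtain ⟨r3, p3, e3⟩ := key _ (neg_ne_zero.2 hb)
  obtain ⟨r4, p4, e4⟩ := key _ hab
  refine unit_eq (r := r1 * r2 * r3 * r4) (by positivity) ?_ ?_ ?_
  · rw [sg, ← g2 a b ha hb, e1, e2, e3, e4]
    push_cast
    ring
  · rw [norm_mul, norm_mul, norm_mul, (hg 1 one_ne_zero).1, (hg _ (neg_ne_zero.2 ha)).1,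
      (hg _ (neg_ne_zero.2 hb)).1, (hg _ hab).1]
    norm_num
  · rw [sg]
    split_ifs <;> simp

theorem gam_ev (hψ : IsCond w ψ j₀) (h2 : ord w (2 : k) = 0) {c : k} (hc : c ≠ 0)
    (he : Even (ord w c - j₀)) : gam c = 1 := by
  obtain ⟨i, hi⟩ := he
  have h3 : ord w (2 * c) = ord w 2 + ord w c := ord_mul L.two hc
  have h1 := dat_lat L hψ hc (m := -i) (m' := -i) (by omega) (by omega) (rep_self _)
  obtain ⟨r, hr, e⟩ := (hg c hc).2.uniq mono (reps L) h1
  exact unit_eq hr (by simpa using e) (hg c hc).1 norm_one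

theorem gam_gauss (hψ : IsCond w ψ j₀) (h2 : ord w (2 : k) = 0) {c : k} (hc : c ≠ 0)
    (he : ord w c = j₀ - 1) {R : Finset k} (hR : IsRep (pw w 1) (pw w 0) R) :
    ∃ r : ℝ, 0 < r ∧ ∑ x ∈ R, ψ (c * x ^ 2) = r * gam c := by
  have h3 : ord w (2 * c) = ord w 2 + ord w c := ord_mul L.two hc
  exact (dat_lat L hψ hc (by omega) (by omega) hR).uniq mono (reps L) (hg c hc).2

end Loc

variable {F : Type} [Field F] [NumberField F]

theorem norm_e8 (t : ℝ) : ‖e8 t‖ = 1 := by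
  rw [e8, Complex.norm_exp]
  split_ifs <;> simp

theorem int_pw (q : Pr F) (x : 𝓞 F) : (x : F) ∈ pw (q.valuation F) 0 :=
  ComplAux.mem_pw_zero.2 (og_nonneg q x)

theorem two_emb {q : Pr F} (h : og q (2 : F) = 0) : ord (wv q) (2 : Kc q) = 0 := by
  rw [← h, ← ord_emb, map_ofNat]

theorem den (x : F) : ∃ n : ℕ, n ≠ 0 ∧ ∃ z : 𝓞 F, (z : F) = n * x := by
  obtain ⟨n, hn, h⟩ := exists_integral_multiples ℤ ℚ ({x} : Finset F)
  refine ⟨n.natAbs, by simpa using hn, ?_⟩
  have h' := h x (Finset.mem_singleton_self x)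
  rcases Int.natAbs_eq n with e | e
  · exact ⟨⟨n • x, h'⟩, by rw [← Int.cast_natCast, ← e, ← zsmul_eq_mul]; rfl⟩
  · exact ⟨-⟨n • x, h'⟩, by
      rw [← Int.cast_natCast, ← neg_neg (n.natAbs : ℤ), ← e, Int.cast_neg, neg_mul,
        ← zsmul_eq_mul]; rfl⟩

/-- Representatives of the residue field of the completion. -/
theorem rep_out (q : Pr F) [Fintype (𝓞 F ⧸ q.asIdeal)] :
    IsRep (pw (wv q) 1) (pw (wv q) 0)
      (Finset.univ.image fun c : 𝓞 F ⧸ q.asIdeal => emb q ((Quotient.out c : 𝓞 F) : F)) ∧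
    Function.Injective fun c : 𝓞 F ⧸ q.asIdeal => emb q ((Quotient.out c : 𝓞 F) : F) := by
  have key : ∀ x y : 𝓞 F, emb q (x : F) - emb q (y : F) ∈ pw (wv q) 1 ↔
      Ideal.Quotient.mk q.asIdeal x = Ideal.Quotient.mk q.asIdeal y := fun x y => by
    have h4 : ((x - y : 𝓞 F) : F) = x - y := map_sub (algebraMap (𝓞 F) F) _ _
    rw [← map_sub, ComplAux.emb_mem_pw, ← h4, Ideal.Quotient.eq]
    exact (ComplAux.int_mem_pw q _ 1).trans (by rw [pow_one])
  refine ⟨⟨fun x hx => ?_, fun y hy => ?_⟩, fun c c' h => ?_⟩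
  · obtain ⟨c, -, rfl⟩ := Finset.mem_image.1 hx
    exact (ComplAux.emb_mem_pw q _ _).2 (int_pw q _)
  · obtain ⟨z, h1, h2⟩ := RecipAAux.approx q y 1
    obtain ⟨a, rfl⟩ := exists_int_of_og (x := z) fun q' => ComplAux.mem_pw_zero.1 (by
      by_cases h : q' = q
      · subst h
        rw [← ComplAux.emb_mem_pw]
        simpa using add_mem (pw_anti zero_le_one h1) hy
      · exact h2 q' h)
    have h3 : ∀ c : 𝓞 F ⧸ q.asIdeal, y - emb q ((Quotient.out c : 𝓞 F) : F) ∈ pw (wv q) 1 ↔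
        c = Ideal.Quotient.mk q.asIdeal a := fun c => by
      conv_rhs => rw [← Ideal.Quotient.mk_out c, eq_comm, ← key]
      refine ⟨fun h => ?_, fun h => ?_⟩
      · simpa using add_mem h1 h
      · simpa using sub_mem h h1
    refine ⟨_, ⟨Finset.mem_image_of_mem _ (Finset.mem_univ (Ideal.Quotient.mk q.asIdeal a)),
      (h3 _).2 rfl⟩, ?_⟩
    rintro t ⟨ht, ht'⟩
    obtain ⟨c, -, rfl⟩ := Finset.mem_image.1 ht
    rw [(h3 c).1 ht']
  · rw [← Ideal.Quotient.mk_out c, ← Ideal.Quotient.mk_out c', ← key]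
    simp only at h
    rw [h, sub_self]
    exact zero_mem _

section Glob

variable {ψ : ∀ q : Pr F, AddChar (Kc q) ℂ} {j : Pr F → ℤ}
  (h1 : ∀ q, IsCond (wv q) (ψ q) (j q))
  (h3 : ∀ (x : F) (P : Finset (Pr F)), (∀ q ∉ P, 0 ≤ og q x) → ∏ q ∈ P, ψ q (emb q x) = eTr x)

include h1 h3

theorem loc (q : Pr F) {x : F} (hx : ∀ q' ≠ q, x ∈ pw (q'.valuation F) (j q')) :
    ψ q (emb q x) = eTr x := by
  rw [← h3 x (insert q (og_finite x).toFinset) fun q' h => by
    have h4 : ¬ og q' x ≠ 0 := fun h5 =>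
      h (Finset.mem_insert_of_mem ((Set.Finite.mem_toFinset _).2 h5))
    exact (not_not.1 h4).ge]
  exact (Finset.prod_eq_single_of_mem q (Finset.mem_insert_self _ _) fun q' _ h =>
    (h1 q').triv _ ((ComplAux.emb_mem_pw q' _ _).2 (hx q' h))).symm

theorem isJ_iff (h2 : ∀ q, j q ≤ 0) (z : F) :
    (∀ y : 𝓞 F, eTr (z * y) = 1) ↔ ∀ q : Pr F, z ∈ pw (q.valuation F) (j q) := by
  refine ⟨fun H q => ?_, fun H y => ?_⟩
  · rw [← ComplAux.emb_mem_pw, ← sub_zero (j q), ← dual (h1 q)]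
    intro h hh
    obtain ⟨M, p, b⟩ := RecipAux.exists_bound (insert q (og_finite z).toFinset) fun q' => og q' z
    obtain ⟨y, y1, y2⟩ := approx_strong (insert q (og_finite z).toFinset)
      (Function.update (fun _ => 0) q h) M
    have y3 := y1 q (Finset.mem_insert_self _ _)
    rw [Function.update_self] at y3
    have y4 : ∀ q' ∈ insert q (og_finite z).toFinset, q' ≠ q → y ∈ pw (q'.valuation F) M :=
      fun q' hq hne => by
        have := y1 q' hq
        rwa [Function.update_of_ne hne, sub_zero, ComplAux.emb_mem_pw] at this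
    obtain ⟨a, rfl⟩ := exists_int_of_og (x := y) fun q' => by
      by_cases h5 : q' ∈ insert q (og_finite z).toFinset
      · refine ComplAux.mem_pw_zero.1 ?_
        by_cases h6 : q' = q
        · subst h6
          rw [← ComplAux.emb_mem_pw]
          simpa using add_mem (pw_anti p y3) hh
        · exact pw_anti p (y4 q' h5 h6)
      · exact y2 q' h5
    have e1 : ψ q (emb q (z * a)) = 1 := by
      rw [loc h1 h3 q fun q' hne => ?_, H a]
      have := h2 q'
      by_cases h5 : q' ∈ insert q (og_finite z).toFinset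
      · have := abs_le.1 (b q' h5)
        exact mul_pw (RecipAux.self_mem q' z) (y4 q' h5 hne) (by omega)
      · have h4 : ¬ og q' z ≠ 0 := fun h6 =>
          h5 (Finset.mem_insert_of_mem ((Set.Finite.mem_toFinset _).2 h6))
        exact mul_pw (RecipAux.self_mem q' z) (int_pw q' a) (by omega)
    have e2 : ψ q (emb q z * (emb q a - h)) = 1 := by
      have := h2 q
      have := abs_le.1 (b q (Finset.mem_insert_self _ _))
      exact (h1 q).triv _ (mul_pw ((ComplAux.emb_mem_pw q _ _).2 (RecipAux.self_mem q z)) y3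
        (by omega))
    rw [map_mul, show emb q z * emb q a = emb q z * h + emb q z * (emb q a - h) by ring,
      AddChar.map_add_eq_mul, e2, mul_one] at e1
    exact e1
  · rw [← h3 _ (og_finite (z * y)).toFinset fun q h => by
      have h4 : ¬ og q (z * y) ≠ 0 := fun h5 => h ((Set.Finite.mem_toFinset _).2 h5)
      exact (not_not.1 h4).ge]
    exact Finset.prod_eq_one fun q _ => (h1 q).triv _ ((ComplAux.emb_mem_pw q _ _).2
      (RecipAAux.mul_int (H q) y))

theorem isJ (h2 : ∀ q, j q ≤ 0) : IsJ j := by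
  refine ⟨isJ_iff h1 h3 h2, ?_⟩
  obtain ⟨c, hc0, hc⟩ := exists_codiff (F := F)
  have hc' : (c : F) ≠ 0 := by exact_mod_cast hc0
  refine (og_finite (c : F)).subset fun q hq h0 => hq ?_
  obtain ⟨t, t0, t1⟩ := (isLoc_wv q).exists_ord (j q)
  obtain ⟨y, y1, y2⟩ := RecipAAux.approx q t 0
  have y3 : emb q y ∈ pw (wv q) (j q) := by
    simpa using add_mem (pw_anti (h2 q) y1) (mem_pw_iff.2 (Or.inr t1.ge))
  obtain ⟨z, hz⟩ := hc y ((isJ_iff h1 h3 h2 y).2 fun q' => by
    by_cases h : q' = q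
    · subst h
      exact (ComplAux.emb_mem_pw _ _ _).1 y3
    · exact pw_anti (h2 q') (y2 q' h))
  have y4 : y ∈ pw (q.valuation F) 0 :=
    of_mul_pw hc' (hz ▸ int_pw q z) (by change _ ≤ _ - og q (c : F); omega)
  have y5 : t ∈ pw (wv q) 0 := by
    simpa using sub_mem ((ComplAux.emb_mem_pw q _ _).2 y4) y1
  have := ComplAux.mem_pw_zero.1 y5
  have := h2 q
  omega

end Glob

end WeilAux

open WeilAux WeilLocAux in
theorem st_Weil : WeilSt := by
  intro F _ _
  obtain ⟨ψ, j, h1, h2, h3⟩ := exists_localChar (F := F)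
  choose! G hG using fun (q : Pr F) (d : Kc q) (hd : d ≠ 0) => exists_gam (isLoc_wv q) (h1 q) hd
  have ne : ∀ (q : Pr F) {c : F}, c ≠ 0 → emb q c ≠ 0 := fun q c hc => by simpa using hc
  have ev : ∀ q (c : F), c ≠ 0 → og q (2 : F) = 0 → Even (og q c - j q) → G q (emb q c) = 1 :=
    fun q c hc h h' => gam_ev (isLoc_wv q) (hG q) (h1 q) (two_emb h) (ne q hc) (by rwa [ord_emb])
  refine ⟨j, fun q c => G q (emb q c), isJ h1 h3 h2, fun q c hc => ?_, fun q c t hc ht h => ?_,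
    fun q a b ha hb => ?_, ev, fun q c hc h h' h'' => ?_, fun c hc S hS => ?_⟩
  · rw [map_neg]
    exact gam_neg (isLoc_wv q) (hG q) (h1 q) (ne q hc)
  · obtain ⟨s, hs⟩ := h
    have s0 : s ≠ 0 := by
      rintro rfl
      exact ne q ht (by simpa using hs)
    rw [map_mul, hs]
    exact gam_sq (isLoc_wv q) (hG q) (ne q hc) s0
  · simp only [map_one, map_neg, map_mul]
    exact gam_hs (isLoc_wv q) (hG q) (h1 q) (ne q ha) (ne q hb)
  · have : Finite (𝓞 F ⧸ q.asIdeal) := Ideal.finiteQuotientOfFreeOfNeBot _ q.ne_bot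
    have := Fintype.ofFinite (𝓞 F ⧸ q.asIdeal)
    obtain ⟨a1, a2⟩ := rep_out q
    obtain ⟨r, hr, e⟩ := gam_gauss (isLoc_wv q) (hG q) (h1 q) (two_emb h) (ne q hc)
      (by rwa [ord_emb]) a1
    refine ⟨r, hr, ?_⟩
    rw [← e, Finset.sum_image fun x _ y _ hxy => a2 hxy, gs, finsum_eq_sum_of_fintype]
    refine Finset.sum_congr rfl fun x _ => ?_
    rw [← map_pow (emb q), ← map_mul (emb q), loc h1 h3 q fun q' hq => ?_]
    have := h'' q' hq
    rw [sq]
    exact mul_pw (RecipAux.self_mem q' c) (mul_pw (int_pw q' _) (int_pw q' _) le_rfl) (by omega)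
  · obtain ⟨c₀, hc0, hc₀⟩ := exists_codiff (F := F)
    have hc' : (c₀ : F) ≠ 0 := by exact_mod_cast hc0
    obtain ⟨N, hN, hz⟩ := den c
    obtain ⟨P, hSP, hP⟩ : ∃ P : Finset (Pr F), S ⊆ P ∧ ∀ q ∉ P, og q c = 0 ∧
        og q (N : F) = 0 ∧ og q (c₀ * (2 * c * N) : F) = 0 := by
      refine ⟨S ∪ (((og_finite c).union (og_finite (N : F))).union
        (og_finite (c₀ * (2 * c * N) : F))).toFinset, Finset.subset_union_left, fun q h => ?_⟩
      simp only [Finset.mem_union, Set.Finite.mem_toFinset, Set.mem_union, Set.mem_ofPred_eq,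
        not_or, not_not] at h
      tauto
    choose J hJ using fun q : Pr F => (hG q (emb q c) (ne q hc)).2.ph mono
    obtain ⟨r, hr, e⟩ := RecipAux.gauss_prod ψ j h1 h2 h3 hc0 hc₀ hc hN hz P
      (fun q h => (hP q h).1) (fun q h => (hP q h).2.1) (fun q h => (hP q h).2.2) _ J hJ
    rw [Finset.prod_subset hSP fun q _ h => ev q c hc (hS q h).1 (hS q h).2]
    refine unit_eq hr e ?_ ?_
    · rw [norm_prod]
      exact Finset.prod_eq_one fun q _ => (hG q _ (ne q hc)).1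
    · rw [norm_prod]
      exact Finset.prod_eq_one fun φ _ => norm_e8 _

end Pool.Agent.SC
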