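import Pool.Agent.Lib.MP_b4b3cb_nt.StA

/-! Cochains and local conditions. -/

namespace Pool.Agent.SC

open scoped Classical
open Module

namespace ZAux

variable {G : Type} [Group G] [TopologicalSpace G] {χ : G →* ℤ_[2]ˣ} (R : Rp χ) (D : Subgroup G)
  (dy : Prop) {i j : ℤ} {x y t t' : G → V}

lemma zc (e : ZMod 2) : e = 0 ∨ e = 1 := by revert e; decide

lemma hom_lam (hL : LatSt) (hA : AcSt) (h : R.Lev D i j x) (hij : i < j) :
    Hom D fun g => lam i (x g) := by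
  refine ⟨(hL.lam_cont i).comp_continuousOn h.1, fun g hg k hk => ?_⟩
  have a := (hA.mem R g i _).2 (h.2.1 k hk)
  dsimp only
  rw [← hA.lam_ac R g i (x k), ← hL.lam_add (h.2.1 g hg) a]
  exact (hL.lam_congr (hL.anti (by omega) (h.2.2 g hg k hk))).symm

lemma coc_add (hA : AcSt) (h : R.Coc D i x) (h' : R.Coc D i y) :
    R.Coc D i (x + y) ∧ R.Coc D i (x - y) :=
  ⟨⟨h.1.add h'.1, fun g hg => add_mem (h.2.1 g hg) (h'.2.1 g hg), fun g hg k hk => by
    rw [hA.d2_add, h.2.2 g hg k hk, h'.2.2 g hg k hk, add_zero]⟩,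
   ⟨h.1.sub h'.1, fun g hg => sub_mem (h.2.1 g hg) (h'.2.1 g hg), fun g hg k hk => by
    rw [hA.d2_sub, h.2.2 g hg k hk, h'.2.2 g hg k hk, sub_zero]⟩⟩

lemma d1_add (hA : AcSt) (u v : V) (g : G) : R.d1 (u + v) g = R.d1 u g + R.d1 v g := by
  simp only [Rp.d1, (hA.lin R g).map_add]; abel

lemma d1_sub (hA : AcSt) (u v : V) (g : G) : R.d1 (u - v) g = R.d1 u g - R.d1 v g := by
  simp only [Rp.d1, (hA.lin R g).map_sub]; abel

lemma d1_smul (hA : AcSt) (c : ℚ_[2]) (u : V) (g : G) : R.d1 (c • u) g = c • R.d1 u g := by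
  simp only [Rp.d1, (hA.lin R g).map_smul, smul_sub]

lemma z_add (hA : AcSt) (h : R.Z D dy i t) (h' : R.Z D dy i t') :
    R.Z D dy i (t + t') ∧ R.Z D dy i (t - t') := by
  obtain ⟨a, u, hu⟩ := h
  obtain ⟨a', u', hu'⟩ := h'
  refine ⟨⟨(coc_add R D hA a a').1, u + u', fun g hg => ⟨?_, fun e => ?_⟩⟩,
    (coc_add R D hA a a').2, u - u', fun g hg => ⟨?_, fun e => ?_⟩⟩
  · rw [d1_add R hA, Pi.add_apply, Prod.fst_add, Prod.fst_add, (hu g hg).1, (hu' g hg).1]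
  · rw [d1_add R hA, Pi.add_apply, Prod.snd_add, Prod.snd_add, (hu g hg).2 e, (hu' g hg).2 e]
  · rw [d1_sub R hA, Pi.sub_apply, Prod.fst_sub, Prod.fst_sub, (hu g hg).1, (hu' g hg).1]
  · rw [d1_sub R hA, Pi.sub_apply, Prod.snd_sub, Prod.snd_sub, (hu g hg).2 e, (hu' g hg).2 e]

lemma z_smul (hA : AcSt) (c : ℚ_[2]) (h : R.Z D dy i t) (hj : ∀ g ∈ D, c • t g ∈ T j) :
    R.Z D dy j (c • t) := by
  obtain ⟨a, u, hu⟩ := h
  refine ⟨⟨a.1.const_smul c, hj, fun g hg k hk => by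
    rw [hA.d2_smul, a.2.2 g hg k hk, smul_zero]⟩, c • u, fun g hg => ⟨?_, fun e => ?_⟩⟩
  · rw [d1_smul R hA, Pi.smul_apply, Prod.smul_fst, Prod.smul_fst, (hu g hg).1]
  · rw [d1_smul R hA, Pi.smul_apply, Prod.smul_snd, Prod.smul_snd, (hu g hg).2 e]

lemma ac_cont (hA : AcSt) (u : V) : Continuous fun g => R.ac g u :=
  (hA.cont R).comp (continuous_id.prodMk continuous_const)

lemma z_d1 (hA : AcSt) (i : ℤ) (u : V) (h : ∀ g ∈ D, R.d1 u g ∈ T i) : R.Z D dy i (R.d1 u) :=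
  ⟨⟨((ac_cont R hA u).sub continuous_const).continuousOn, h, fun g _ k _ => hA.d2_d1 R u g k⟩, u,
    fun _ _ => ⟨rfl, fun _ => rfl⟩⟩

lemma z_zero (hA : AcSt) (i : ℤ) : R.Z D dy i 0 := by
  have e : R.d1 0 = 0 := funext fun g => by simp [Rp.d1, (hA.lin R g).map_zero]
  exact e ▸ z_d1 R D dy hA i 0 fun g _ => e ▸ zero_mem _

lemma mem_W (hL : LatSt) (hA : AcSt) (i : ℤ) (f : G → ZMod 2) :
    f ∈ R.W D dy i ↔ ∃ t, R.Z D dy i t ∧ f = res D fun g => lam i (t g) := by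
  have z : ∃ t, R.Z D dy i t ∧ (0 : G → ZMod 2) = res D fun g => lam i (t g) :=
    ⟨0, z_zero R D dy hA i, funext fun g => by simp [res, (hL.lam_zero i 0).2 (zero_mem _)]⟩
  refine ⟨fun h => ?_, fun h => Submodule.subset_span h⟩
  induction h using Submodule.span_induction with
  | mem _ h => exact h
  | zero => exact z
  | add _ _ _ _ a b =>
    obtain ⟨t, a, rfl⟩ := a
    obtain ⟨t', b, rfl⟩ := b
    refine ⟨t + t', (z_add R D dy hA a b).1, funext fun g => ?_⟩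
    by_cases hg : g ∈ D
    · simp [res, hg, hL.lam_add (a.1.2.1 g hg) (b.1.2.1 g hg)]
    · simp [res, hg]
  | smul c _ _ a =>
    obtain rfl | rfl := zc c
    · rwa [zero_smul]
    · rwa [one_smul]

lemma res_mem (f : G → ZMod 2) (h : Hom D f) : res D f ∈ Hm D :=
  ⟨⟨h.1.congr fun _ hg => if_pos hg, fun g hg k hk => by
    simp only [res, if_pos hg, if_pos hk, if_pos (mul_mem hg hk), h.2 g hg k hk]⟩,
    fun _ hg => if_neg hg⟩

lemma lev_coc (h : R.Coc D i x) (j : ℤ) : R.Lev D i j x :=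
  ⟨h.1, h.2.1, fun g hg k hk => h.2.2 g hg k hk ▸ zero_mem _⟩

lemma W_two (hL : LatSt) (hA : AcSt) (i : ℤ) : R.W D dy (i + 2) = R.W D dy i := by
  ext f
  rw [mem_W R D dy hL hA, mem_W R D dy hL hA]
  constructor
  · rintro ⟨t, h, rfl⟩
    have e : ∀ g, (2 : ℚ_[2]) • (2⁻¹ : ℚ_[2]) • t g = t g := fun g => smul_inv_smul₀ two_ne_zero _
    refine ⟨(2⁻¹ : ℚ_[2]) • t, z_smul R D dy hA _ h fun g hg =>
      (hL.two i _).1 ((e g).symm ▸ h.1.2.1 g hg), congrArg _ (funext fun g => ?_)⟩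
    rw [Pi.smul_apply, ← hL.lam_two i, e]
  · rintro ⟨t, h, rfl⟩
    exact ⟨(2 : ℚ_[2]) • t, z_smul R D dy hA _ h fun g hg => (hL.two i _).2 (h.1.2.1 g hg),
      congrArg _ (funext fun g => (hL.lam_two i _).symm)⟩

lemma cup (hA : AcSt) (hd : dy → ∀ g ∈ D, R.η g = 0) (h : R.Z D dy i t) (h' : R.Z D dy j t') :
    ∃ f : G → ℚ_[2], ContinuousOn f D ∧
      ∀ g ∈ D, ∀ k ∈ D, om (t g) (R.ac g (t' k)) = dq χ f g k := by
  obtain ⟨a, u, hu⟩ := h
  obtain ⟨a', u', hu'⟩ := h'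
  refine ⟨fun g => om u (t' g) - om (t g - R.d1 u g) (R.ac g u'), ?_, fun g hg k hk => ?_⟩
  · have c1 := a.1
    have c2 := a'.1
    have c3 := (ac_cont R hA u).continuousOn (s := D)
    have c4 := (ac_cont R hA u').continuousOn (s := D)
    unfold om Rp.d1
    fun_prop
  · have e1 : t' (g * k) = t' g + R.ac g (t' k) := (sub_eq_zero.1 (a'.2.2 g hg k hk)).symm
    have e2 : t (g * k) = t g + R.ac g (t k) := (sub_eq_zero.1 (a.2.2 g hg k hk)).symm
    have e3 := hA.om_ac R g u (t' k)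
    have e4 := (hA.om_ac R g (t k - R.d1 u k) (R.ac k u')).symm
    have e5 : om (t g - R.d1 u g) (R.ac g (t' k - R.d1 u' k)) = 0 := by
      have b : (t g - R.d1 u g).1 = 0 := sub_eq_zero.2 (hu g hg).1
      by_cases e : dy
      · have c : (t' k - R.d1 u' k).1 = 0 := sub_eq_zero.2 (hu' k hk).1
        generalize t' k - R.d1 u' k = w at c
        rw [om, b, Rp.ac, mon, if_pos (hd e g hg), c]
        simp
      · have c : (t g - R.d1 u g).2 = 0 := sub_eq_zero.2 ((hu g hg).2 e)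
        rw [om, b, c]
        simp
    simp only [Rp.d1, (hA.lin R g).map_sub, ← hA.mul] at e4 e5
    simp only [dq, e1, e2, Rp.d1, om, Prod.fst_add, Prod.snd_add, Prod.fst_sub,
      Prod.snd_sub] at e3 e4 e5 ⊢
    linear_combination e3 + e4 + e5

end ZAux

open ZAux in
theorem st_Z (hL : LatSt) (hA : AcSt) : ZSt where
  hom_lam R D _ _ _ := hom_lam R D hL hA
  lev_add R _ _ _ _ _ h h' :=
    ⟨⟨h.1.add h'.1, fun g hg => add_mem (h.2.1 g hg) (h'.2.1 g hg), fun g hg k hk =>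
      hA.d2_add R _ _ g k ▸ add_mem (h.2.2 g hg k hk) (h'.2.2 g hg k hk)⟩,
    ⟨h.1.sub h'.1, fun g hg => sub_mem (h.2.1 g hg) (h'.2.1 g hg), fun g hg k hk =>
      hA.d2_sub R _ _ g k ▸ sub_mem (h.2.2 g hg k hk) (h'.2.2 g hg k hk)⟩⟩
  lev_mono _ _ _ _ _ _ _ _ h a b c := ⟨h.1.mono a, fun g hg => hL.anti b (h.2.1 g (a hg)),
    fun g hg k hk => hL.anti c (h.2.2 g (a hg) k (a hk))⟩
  lev_coc R D _ _ := lev_coc R D
  lev_of_mem R _ j _ h h' := ⟨h, h', fun g hg k hk => sub_mem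
    (add_mem (h' g hg) ((hA.mem R g j _).2 (h' k hk))) (h' _ (mul_mem hg hk))⟩
  lev_hom R D i f h := by
    obtain ⟨e, -, he⟩ := hL.ex i
    refine ⟨fun g => ((f g).val : ℚ_[2]) • e, ⟨(continuous_of_discreteTopology
      (f := fun c : ZMod 2 => (c.val : ℚ_[2]) • e)).comp_continuousOn h.1, fun g _ => (he _).1,
      fun g hg k hk => ?_⟩, fun g => he _⟩
    have a := (hA.mem R g i _).2 (he (f k)).1
    rw [← hL.lam_zero, Rp.d2, hL.lam_sub (add_mem (he _).1 a) (he _).1, hL.lam_add (he _).1 a,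
      hA.lam_ac, (he _).2, (he _).2, (he _).2, h.2 g hg k hk]
    exact CharTwo.add_self_eq_zero _
  z_add R D dy _ _ _ := z_add R D dy hA
  z_zero R D dy := z_zero R D dy hA
  z_mem _ _ _ _ _ _ h h' := ⟨⟨h.1.1, h', h.1.2.2⟩, h.2⟩
  z_smul R D dy _ _ _ := z_smul R D dy hA
  z_d1 R D dy := z_d1 R D dy hA
  mem_W R D dy := mem_W R D dy hL hA
  W_le R D dy i f h := by
    obtain ⟨t, a, rfl⟩ := (mem_W R D dy hL hA i f).1 h
    exact res_mem D _ (hom_lam R D hL hA (lev_coc R D a.1 (i + 1)) (by omega))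
  W_per R D dy i k := by
    induction k with
    | zero => rw [mul_zero, add_zero]
    | succ k ih => rw [← ih, ← W_two R D dy hL hA (i + 2 * k)]; congr 1; ring
    | pred k ih => rw [← ih, ← W_two R D dy hL hA (i + 2 * (-k - 1))]; congr 1; ring
  res_mem D := res_mem D
  hom_mono h a := ⟨h.1.mono a, fun g hg k hk => h.2 g (a hg) k (a hk)⟩
  hom_add h h' := ⟨h.1.add h'.1, fun g hg k hk => by
    simp only [Pi.add_apply, h.2 g hg k hk, h'.2 g hg k hk]; ring⟩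
  hom_one := fun {_ _ _ D f} h => by
    have a : f 1 = 0 := by simpa using h.2 1 (one_mem D) 1 (one_mem D)
    refine ⟨a, fun g hg => ?_⟩
    have := h.2 _ (inv_mem hg) g hg
    rw [inv_mul_cancel, a] at this
    exact CharTwo.add_eq_zero.1 this.symm
  cup R D dy hd _ _ _ _ := cup R D dy hA hd

end Pool.Agent.SC
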