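import Pool.Agent.Lib.MP_b4b3cb_nt.Lat
import Pool.Agent.Lib.MP_b4b3cb_nt.Om
import Pool.Agent.Lib.MP_b4b3cb_nt.Ac
import Pool.Agent.Lib.MP_b4b3cb_nt.Z
import Pool.Agent.Lib.MP_b4b3cb_nt.Sel
import Pool.Agent.Lib.MP_b4b3cb_nt.Lift
import Pool.Agent.Lib.MP_b4b3cb_nt.PV
import Pool.Agent.Lib.MP_b4b3cb_nt.Lag
import Pool.Agent.Lib.MP_b4b3cb_nt.Ker
import Pool.Agent.Lib.MP_b4b3cb_nt.GW
import Pool.Agent.Lib.MP_b4b3cb_nt.Orth
import Pool.Agent.Lib.MP_b4b3cb_nt.Heis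
import Pool.Agent.Lib.MP_b4b3cb_nt.Alt
import Pool.Agent.Lib.MP_b4b3cb_nt.Pair
import Pool.Agent.Lib.MP_b4b3cb_nt.Tower
import Pool.Agent.Lib.MP_b4b3cb_nt.TowSel
import Pool.Agent.Lib.MP_b4b3cb_nt.Lim
import Pool.Agent.Lib.MP_b4b3cb_nt.Tor
import Pool.Agent.Lib.MP_b4b3cb_nt.Core
import Pool.Agent.Lib.MP_b4b3cb_nt.Real
import Pool.Agent.Lib.MP_b4b3cb_nt.Odd
import Pool.Agent.Lib.MP_b4b3cb_nt.Red
import Pool.Agent.Lib.MP_b4b3cb_nt.DyA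
import Pool.Agent.Lib.MP_b4b3cb_nt.Dy
import Pool.Agent.Lib.MP_b4b3cb_nt.Syl
import Pool.Agent.Lib.MP_b4b3cb_nt.Top
import Pool.Agent.Lib.MP_b4b3cb_nt.Kum
import Pool.Agent.Lib.MP_b4b3cb_nt.Br
import Pool.Agent.Lib.MP_b4b3cb_nt.Tr
import Pool.Agent.Lib.MP_b4b3cb_nt.Norm
import Pool.Agent.Lib.MP_b4b3cb_nt.Quad
import Pool.Agent.Lib.MP_b4b3cb_nt.Cyc
import Pool.Agent.Lib.MP_b4b3cb_nt.Prime
import Pool.Agent.Lib.MP_b4b3cb_nt.Emb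
import Pool.Agent.Lib.MP_b4b3cb_nt.Loc
import Pool.Agent.Lib.MP_b4b3cb_nt.Frob
import Pool.Agent.Lib.MP_b4b3cb_nt.Ine
import Pool.Agent.Lib.MP_b4b3cb_nt.Cj
import Pool.Agent.Lib.MP_b4b3cb_nt.Sym
import Pool.Agent.Lib.MP_b4b3cb_nt.Abhn
import Pool.Agent.Lib.MP_b4b3cb_nt.TwoA
import Pool.Agent.Lib.MP_b4b3cb_nt.Two
import Pool.Agent.Lib.MP_b4b3cb_nt.Fin
import Pool.Agent.Lib.MP_b4b3cb_nt.Card
import Pool.Agent.Lib.MP_b4b3cb_nt.Rec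
import Pool.Agent.Lib.MP_b4b3cb_nt.LagK
import Pool.Agent.Lib.MP_b4b3cb_nt.AD
import Pool.Agent.Lib.MP_b4b3cb_nt.Gauss
import Pool.Agent.Lib.MP_b4b3cb_nt.QChi
import Pool.Agent.Lib.MP_b4b3cb_nt.Four
import Pool.Agent.Lib.MP_b4b3cb_nt.Pois
import Pool.Agent.Lib.MP_b4b3cb_nt.Dec
import Pool.Agent.Lib.MP_b4b3cb_nt.Mel
import Pool.Agent.Lib.MP_b4b3cb_nt.GamI
import Pool.Agent.Lib.MP_b4b3cb_nt.Unf
import Pool.Agent.Lib.MP_b4b3cb_nt.Cn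
import Pool.Agent.Lib.MP_b4b3cb_nt.Gs
import Pool.Agent.Lib.MP_b4b3cb_nt.Qd
import Pool.Agent.Lib.MP_b4b3cb_nt.Cm
import Pool.Agent.Lib.MP_b4b3cb_nt.HD
import Pool.Agent.Lib.MP_b4b3cb_nt.Bas
import Pool.Agent.Lib.MP_b4b3cb_nt.Cls2
import Pool.Agent.Lib.MP_b4b3cb_nt.ClFE
import Pool.Agent.Lib.MP_b4b3cb_nt.Weil
import Pool.Agent.Lib.MP_b4b3cb_nt.Root
import Pool.Agent.Lib.MP_b4b3cb_nt.PoisL2
import Pool.Agent.Lib.MP_b4b3cb_nt.ThFE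
import Pool.Agent.Lib.MP_b4b3cb_nt.Sign
import Pool.Agent.Lib.MP_b4b3cb_nt.T
import Pool.Agent.Lib.MP_b4b3cb_nt.Tau4
import Pool.Agent.Lib.MP_b4b3cb_nt.Fac
import Pool.Agent.Lib.MP_b4b3cb_nt.LocN
import Pool.Agent.Lib.MP_b4b3cb_nt.J
import Pool.Agent.Lib.MP_b4b3cb_nt.DyPr
import Pool.Agent.Lib.MP_b4b3cb_nt.Gl
import Pool.Agent.Lib.MP_b4b3cb_nt.Nrm
import Pool.Agent.Lib.MP_b4b3cb_nt.Nap
import Pool.Agent.Lib.MP_b4b3cb_nt.F2
import Pool.Agent.Lib.MP_b4b3cb_nt.Rp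
import Pool.Agent.Lib.MP_b4b3cb_nt.F1
import Pool.Agent.Lib.MP_b4b3cb_nt.LDy
import Pool.Agent.Lib.MP_b4b3cb_nt.LGood
import Pool.Agent.Lib.MP_b4b3cb_nt.Shap
import Pool.Agent.Lib.MP_b4b3cb_nt.MainG
import Pool.Agent.Lib.MP_b4b3cb_nt.Fin2

/-! Assembly. -/

namespace Pool.Agent.SC

open NumberField Pool.Agent.Stark

theorem all_G {K L Ω : Type} [Field K] [NumberField K] [Field L] [NumberField L] [Algebra K L]
    [Field Ω] [Algebra K Ω] [Algebra L Ω] [IsScalarTower K L Ω] [IsAlgClosed Ω] [IsGalois K Ω]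
    [CharZero Ω] : MainGSt K L Ω := by
  have hL : LatSt := st_Lat
  have hO : OmSt := st_Om hL
  have hA : AcSt := st_Ac hL hO
  have hZ : ZSt := st_Z hL hA
  have hS : SelSt := st_Sel hL hO hA hZ
  have hGood : GoodSt := st_Good hL hA hZ
  have hE : PVexSt := st_PVex hL hA hZ hS (st_Lift hL hA) hGood
  have hPV : PVSt := st_PV hL hZ hS hE
  have hGW : GWSt := st_GW hZ hS st_Lag
  have hTor : TorSt := st_Tor hL hO hA hZ
  have hCore : CoreSt := st_Core hL hZ hS (st_TowSel hL hS (st_Tower st_Pair) hPV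
    (st_Ker hL hZ hS hE hPV st_Lag hGood) (st_Orth hO hA hZ hS)
    (st_Alt hL hO hA hZ (st_Heis hL hO hA hZ)) hGW) (st_Lim hL hA) hTor hGW
  have hOdd : OddSt := st_Odd hL hO hA hZ hTor
  have hTop : TopSt K Ω := st_Top st_Sz
  have hKum : KumSt K Ω := st_Kum st_Sz hTop
  have hBr : BrSt K Ω := st_Br st_Sz hTop hKum
  have hTr : TrSt K Ω := st_Tr hTop
  have hNorm : NormSt K Ω := st_Norm st_Sz hTop hKum hBr
  have hQuad : QuadSt K Ω := st_Quad st_Sz hTop hKum hBr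
  have hP : PrimeSt K Ω := st_Prime
  have hLoc : LocSt K Ω := st_Loc (st_Emb hP) hP
  have hFr : FrobSt K Ω := st_Frob hP
  have hIne : IneSt K Ω := st_Ine hP hFr hLoc
  have hCj : CjSt K Ω := st_Cj
  have hSym : SymSt K Ω := st_Sym hNorm hLoc hKum hTop hP
  have hDict : DictSt K Ω := st_Dict hSym hLoc hIne hCj hKum hTop hP
  have hAK : AbhnKSt K Ω := st_AbhnK (st_Abhn st_Syl hTop hKum hBr hTr hNorm hQuad hSym hCj hP) hBr hP hCj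
  have hTwo : TwoSt K Ω := st_Two st_Syl st_Sz hTop hKum hBr hTr hSym hP
    (st_TwoA st_Proj st_Sz hTop hKum hLoc hSym hP) (st_TwoB st_Sz hTop hKum hBr hQuad hSym hP)
  have hCard : CardSt K Ω := st_Card hDict hCj
  have hAD : ADSt K Ω := st_AD hBr st_Cyc hDict hCard (st_Fin hTop hP) hAK
    (st_Rec hAK st_Sz hKum hBr hQuad hDict) (st_LagK hDict) hP
  have hQd : QdSt K L := st_Qd st_Cn
  have hCm : CmSt K L := st_Cm st_Fz
  have hHD : HDSt K L := st_HD st_Cn hQd hCm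
  have hAv : AvSt K L Ω := st_Av st_Cn hQd hCm hHD
  have hGauss : GaussSt K L := st_Gauss st_Cn st_Gs hQd hHD
  have hTl : TlSt K L := st_Tl st_Cn hQd hHD
  have hBas : BasSt K L := st_Bas hCm
  have hT : TSt := st_T st_Cn
  have hSign : SignSt K L := st_Sign (st_ClFE
    (st_ThFE (st_PoisL (st_Pois st_Four) hBas st_Fz hCm) hGauss st_Gs st_Fz hCm)
    (st_Cls (st_Unf st_GamI) st_Dec hBas st_Fz hCm hHD) st_Mel st_Cn hCm hHD hQd) hHD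
  have hRoot : RootSt K L := st_Root st_Weil hT (st_Gam (st_J st_Cn hQd) st_Weil st_Cn hQd hHD)
    (st_Fac st_Cn st_Gs hTl hHD) (st_LocS st_Cn st_Gs hQd hHD hTl)
    (st_LocN (st_Tau4 st_Cn hQd) hT st_Cn st_Gs hQd hHD hTl) st_Cn hCm
  have hDP : DyPrSt := st_DyPr st_Cn
  have hGl : GlSt K L Ω := st_Gl hKum hP hCj
  have hM : MainGSt K L Ω := st_MainG hA hCore hAD hP hCj st_Cn hQd hCm hDP (st_DyK hDP hQd hCm) hGl
    (st_Rp (st_Cheb hTop hKum hFr hIne hP) hGl hAv hFr hP hCj st_Cyc hCm hHD)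
    (st_F1 (st_F1a hO hKum hTop hIne hFr hP hAv hDP hCm) st_Cn hDP hHD hAv)
    (st_F2 (st_Nrm st_Cn hP hFr) (st_Nap st_Cn hP) st_Trf hAv hDP st_Cn hTop)
    (st_LDy (st_Dy hO hA (st_DyA hL hO hA hZ) st_Red) (st_Real hL hO hA hZ) hTwo hCard hSym hLoc
      hGl hCj hDict)
    (st_RH hA hIne hFr hP hGl hAv hQd) (st_LGood hOdd hTor hCard hIne hFr hP hGl hAv hQd hHD)
    (st_LBad hO hOdd hTor hCard hIne hLoc hFr hP hGl hKum hQd) (st_Shap hA hGl hP) hRoot hSign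
  exact @hM

theorem all_Main : SignConj.MainSt := by
  intro L _ _ _ ι hι 𝔣 a ψ hH hC hS ρ hρ hA
  obtain ⟨d, E, hE⟩ := exists_quad_cm L
  have : Algebra.IsAlgebraic (maximalRealSubfield L) (AlgebraicClosure L) :=
    Algebra.IsAlgebraic.trans _ L _
  have : IsAlgClosure (maximalRealSubfield L) (AlgebraicClosure L) := ⟨inferInstance, this⟩
  refine transfer st_Prime (st_Frob st_Prime) st_Cn (st_DyPr st_Cn) (st_QChi st_Cn) st_Trf all_G E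
    ι hι hH ⟨fun σ x => hE ▸ IsCMField.complexEmbedding_complexConj L σ x, hC.1⟩
    (fun I h0 h => ?_) hS ρ hρ hA
  rw [← hC.2 I h0 h, ← Ideal.map_coe E.sg, ← Ideal.map_coe (IsCMField.ringOfIntegersComplexConj L)]
  congr 4
  ext x
  exact congrArg (fun f => f (x : L)) hE

end Pool.Agent.SC
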