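import Pool.Agent.Lib.MP_b4b3cb_nt.StB
import Pool.Agent.Lib.MP_ca56d1_nt.Dual
import Pool.Agent.Lib.MP_ca56d1_nt.Abel

/-! Galois part: cocycles with values in an algebraically closed field, decomposition groups. -/

namespace Pool.Agent.SC

open NumberField Pool.Agent.Stark
open scoped Classical Pointwise Topology

/-- `f` is locally constant on `D`. -/
def LC {X Y : Type} [TopologicalSpace X] (D : Set X) (f : X → Y) : Prop :=
  ∀ g ∈ D, ∀ᶠ h in 𝓝[D] g, f h = f g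

variable {K Ω : Type} [Field K] [Field Ω] [Algebra K Ω]

/-- `x` is fixed by `D`. -/
def Fix (D : Subgroup (Ω ≃ₐ[K] Ω)) (x : Ω) : Prop := ∀ g ∈ D, g x = x

/-- A locally constant 2-cocycle on `H` with values in `Ωˣ`. -/
def Coc2 (H : Subgroup (Ω ≃ₐ[K] Ω)) (c : (Ω ≃ₐ[K] Ω) → (Ω ≃ₐ[K] Ω) → Ω) : Prop :=
  (∀ g ∈ H, ∀ h ∈ H, c g h ≠ 0) ∧
    LC ((H : Set (Ω ≃ₐ[K] Ω)) ×ˢ (H : Set (Ω ≃ₐ[K] Ω))) (fun p => c p.1 p.2) ∧
    ∀ g ∈ H, ∀ h ∈ H, ∀ k ∈ H, g (c h k) * c g (h * k) = c (g * h) k * c g h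

/-- `c` is a coboundary on `H`. -/
def Spl (H : Subgroup (Ω ≃ₐ[K] Ω)) (c : (Ω ≃ₐ[K] Ω) → (Ω ≃ₐ[K] Ω) → Ω) : Prop :=
  ∃ β : (Ω ≃ₐ[K] Ω) → Ω, LC (H : Set (Ω ≃ₐ[K] Ω)) β ∧ (∀ g ∈ H, β g ≠ 0) ∧
    ∀ g ∈ H, ∀ h ∈ H, c g h * β (g * h) = β g * g (β h)

/-- The Kummer character of a square root `r`. -/
noncomputable def kr (r : Ω) (g : Ω ≃ₐ[K] Ω) : ZMod 2 := if g r = r then 0 else 1

/-- The sign cocycle of a pair of characters. -/
def cup {G : Type} (a b : G → ZMod 2) (g h : G) : ZMod 2 := a g * b h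

/-- The cocycle with values `± 1` attached to `ε`. -/
def sgc (ε : (Ω ≃ₐ[K] Ω) → (Ω ≃ₐ[K] Ω) → ZMod 2) (g h : Ω ≃ₐ[K] Ω) : Ω := sg Ω (ε g h)

variable (K Ω) in
/-- The automorphisms fixing the image of `F`. -/
def Gs (F : Type) [Field F] [Algebra F Ω] : Subgroup (Ω ≃ₐ[K] Ω) where
  carrier := {g | ∀ x : F, g (algebraMap F Ω x) = algebraMap F Ω x}
  mul_mem' := fun {a b} ha hb x => by rw [AlgEquiv.mul_apply, hb x, ha x]
  one_mem' := fun _ => rfl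
  inv_mem' := fun {a} ha x => by
    conv_lhs => rw [← ha x]
    exact a.symm_apply_apply _

variable (K) in
/-- The decomposition group. -/
noncomputable def Dec (𝔓 : Ideal (𝓞 Ω)) : Subgroup (Ω ≃ₐ[K] Ω) :=
  MulAction.stabilizer (Ω ≃ₐ[K] Ω) 𝔓

variable (K) in
/-- The inertia group. -/
noncomputable def Ine (𝔓 : Ideal (𝓞 Ω)) : Subgroup (Ω ≃ₐ[K] Ω) := 𝔓.inertia (Ω ≃ₐ[K] Ω)

/-- `𝔓` is a maximal ideal above `q`. -/
def Over {F : Type} [Field F] [Algebra F Ω] (𝔓 : Ideal (𝓞 Ω)) (q : Pr F) : Prop :=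
  𝔓.IsMaximal ∧ ∀ x : 𝓞 F, x ∈ q.asIdeal ↔ algebraMap (𝓞 F) (𝓞 Ω) x ∈ 𝔓

/-- `g` acts as the `n`-th power modulo `𝔓`. -/
def IsFr (𝔓 : Ideal (𝓞 Ω)) (n : ℕ) (g : Ω ≃ₐ[K] Ω) : Prop := ∀ x : 𝓞 Ω, g • x - x ^ n ∈ 𝔓

/-- `g` is the complex conjugation of the embedding `j`. -/
def Cj (j : Ω →+* ℂ) (g : Ω ≃ₐ[K] Ω) : Prop := ∀ x, j (g x) = starRingEnd ℂ (j x)

variable (K Ω) in
/-- The 2-adic cyclotomic character. -/
noncomputable def cyc : (Ω ≃ₐ[K] Ω) →* ℤ_[2]ˣ :=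
  (cyclotomicCharacter Ω 2).comp (MulSemiringAction.toRingAut (Ω ≃ₐ[K] Ω) Ω)

/-- The local symbol of two characters. -/
noncomputable def symz {G : Type} [Group G] [TopologicalSpace G] (D : Subgroup G)
    (a b : G → ZMod 2) : ZMod 2 := if Sz D (cup a b) then 0 else 1

variable (K) in
/-- The places. -/
abbrev Pl : Type := Pr K ⊕ (K →+* ℝ)

variable (K Ω) in
/-- A choice of places of `Ω` above the places of `K`. -/
structure Plc where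
  /-- the primes -/
  pr : Pr K → Ideal (𝓞 Ω)
  hov : ∀ q, Over (pr q) q
  /-- the complex embeddings -/
  j : (K →+* ℝ) → (Ω →+* ℂ)
  hj : ∀ φ a, j φ (algebraMap K Ω a) = φ a
  /-- the complex conjugations -/
  c : (K →+* ℝ) → (Ω ≃ₐ[K] Ω)
  hc : ∀ φ, Cj (j φ) (c φ)

/-- The decomposition groups. -/
noncomputable def Plc.D (π : Plc K Ω) : Pl K → Subgroup (Ω ≃ₐ[K] Ω) :=
  Sum.elim (fun q => Dec K (π.pr q)) fun φ => Subgroup.zpowers (π.c φ)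

/-- The inertia groups. -/
noncomputable def Plc.I (π : Plc K Ω) : Pl K → Subgroup (Ω ≃ₐ[K] Ω) :=
  Sum.elim (fun q => Ine K (π.pr q)) fun _ => ⊥

/-- The Hilbert symbol at a place. -/
noncomputable def hp [NumberField K] : Pl K → K → K → ZMod 2 :=
  Sum.elim (fun q a b => hq q a b) fun φ a b => hs (φ a) (φ b)

/-- Local squares. -/
def lsq [NumberField K] : Pl K → K → Prop := Sum.elim (fun q a => LSq q a) fun φ a => 0 < φ a

variable (Ω) in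
/-- A chosen square root. -/
noncomputable def rt [IsAlgClosed Ω] {F : Type} [Field F] [Algebra F Ω] (a : F) : Ω :=
  (IsAlgClosed.exists_pow_nat_eq (algebraMap F Ω a) two_pos).choose

theorem rt_sq [IsAlgClosed Ω] {F : Type} [Field F] [Algebra F Ω] (a : F) :
    rt Ω a ^ 2 = algebraMap F Ω a :=
  (IsAlgClosed.exists_pow_nat_eq (algebraMap F Ω a) two_pos).choose_spec

theorem Gs_self : Gs K Ω K = ⊤ := eq_top_iff.2 fun g _ x => g.commutes x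

end Pool.Agent.SC
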