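import Mathlib

/-! Abstract part: the chain of lattices in the plane over the 2-adic numbers, cochains, local
conditions and the duality data. -/

namespace Pool.Agent.SC

open scoped Classical

/-- The plane over the 2-adic numbers. -/
abbrev V : Type := ℚ_[2] × ℚ_[2]

/-- The chain of lattices, `T (i + 2) = 2 T i`, `T 0 = ℤ₂²`, `T 1 = {a ≡ b mod 2}`. -/
def T (i : ℤ) : AddSubgroup V where
  carrier := {u | ‖u.1‖ ≤ (2 : ℝ) ^ (-(i / 2)) ∧ ‖u.1 - u.2‖ ≤ (2 : ℝ) ^ (-((i + 1) / 2))}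
  add_mem' := fun {a b} ha hb => ⟨(IsUltrametricDist.norm_add_le_max _ _).trans (max_le ha.1 hb.1), by
    have : (a + b).1 - (a + b).2 = (a.1 - a.2) + (b.1 - b.2) := by simp; ring
    rw [this]
    exact (IsUltrametricDist.norm_add_le_max _ _).trans (max_le ha.2 hb.2)⟩
  zero_mem' := ⟨by simp; positivity, by simp; positivity⟩
  neg_mem' := fun {a} ha => ⟨by simpa using ha.1, by
    have : (-a).1 - (-a).2 = -(a.1 - a.2) := by simp; ring
    rw [this, norm_neg]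
    exact ha.2⟩

/-- The map `T i → T i / T (i + 1) = ℤ / 2`. -/
noncomputable def lam (i : ℤ) (u : V) : ZMod 2 := if u ∈ T (i + 1) then 0 else 1

/-- The symplectic form. -/
noncomputable def om (u v : V) : ℚ_[2] := u.1 * v.2 - u.2 * v.1

/-- One half of the representative `0` or `1`. -/
noncomputable def hf (c : ZMod 2) : ℚ_[2] := (c.val : ℚ_[2]) / 2

/-- The invariant quadratic refinement of `om / 2 ^ j` on `T j`. -/
noncomputable def qq (j : ℤ) (u : V) : ℚ_[2] :=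
  if Even j then u.1 * u.2 / 2 ^ j else (u.1 ^ 2 - u.2 ^ 2) / 2 ^ (j + 1)

/-- The sign character of `ℤ₂ˣ`: `0` iff `r ≡ 1 mod 4`. -/
noncomputable def sg4 (r : ℤ_[2]ˣ) : ZMod 2 :=
  if ‖((r : ℤ_[2]) : ℚ_[2]) - 1‖ ≤ 1 / 4 then 0 else 1

variable {G : Type} [Group G] [TopologicalSpace G]

/-- `f` is a continuous homomorphism on `D`. -/
def Hom (D : Subgroup G) (f : G → ZMod 2) : Prop :=
  ContinuousOn f D ∧ ∀ g ∈ D, ∀ h ∈ D, f (g * h) = f g + f h

/-- Restriction to `D`, extended by zero. -/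
noncomputable def res (D : Subgroup G) (f : G → ZMod 2) : G → ZMod 2 :=
  fun g => if g ∈ D then f g else 0

/-- Restriction as a linear map. -/
noncomputable def resL (D : Subgroup G) : (G → ZMod 2) →ₗ[ZMod 2] (G → ZMod 2) where
  toFun := res D
  map_add' := fun a b => funext fun g => by by_cases h : g ∈ D <;> simp [res, h]
  map_smul' := fun c a => funext fun g => by by_cases h : g ∈ D <;> simp [res, h]

/-- Continuous homomorphisms on `D`, extended by zero. -/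
def Hm (D : Subgroup G) : Submodule (ZMod 2) (G → ZMod 2) where
  carrier := {f | Hom D f ∧ ∀ g ∉ D, f g = 0}
  add_mem' := fun {a b} ha hb => ⟨⟨ha.1.1.add hb.1.1, fun g hg h hh => by
    simp only [Pi.add_apply, ha.1.2 g hg h hh, hb.1.2 g hg h hh]; ring⟩,
    fun g hg => by simp [ha.2 g hg, hb.2 g hg]⟩
  zero_mem' := ⟨⟨continuousOn_const, fun _ _ _ _ => by simp⟩, fun _ _ => rfl⟩
  smul_mem' := fun c a ha => ⟨⟨ha.1.1.const_smul c, fun g hg h hh => by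
    simp only [Pi.smul_apply, ha.1.2 g hg h hh, smul_add]⟩, fun g hg => by simp [ha.2 g hg]⟩

/-- `ε` is a continuous 2-cocycle on `D` with values in `ℤ / 2`. -/
def Cz (D : Subgroup G) (ε : G → G → ZMod 2) : Prop :=
  ContinuousOn (fun p : G × G => ε p.1 p.2) ((D : Set G) ×ˢ (D : Set G)) ∧
    ∀ g ∈ D, ∀ h ∈ D, ∀ k ∈ D, ε h k + ε g (h * k) = ε (g * h) k + ε g h

/-- `ε` is a coboundary on `D`. -/
def Sz (D : Subgroup G) (ε : G → G → ZMod 2) : Prop :=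
  ∃ f : G → ZMod 2, ContinuousOn f D ∧ ∀ g ∈ D, ∀ h ∈ D, ε g h = f g + f h + f (g * h)

/-- There is at most one nontrivial class of 2-cocycles on `D`. -/
def Two (D : Subgroup G) : Prop :=
  ∀ ε ε' : G → G → ZMod 2, Cz D ε → Cz D ε' → Sz D ε ∨ Sz D ε' ∨ Sz D (ε + ε')

/-- The coboundary of a cochain with values in `ℚ₂(χ)`. -/
noncomputable def dq (χ : G →* ℤ_[2]ˣ) (f : G → ℚ_[2]) (g h : G) : ℚ_[2] :=
  f g + ((χ g : ℤ_[2]) : ℚ_[2]) * f h - f (g * h)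

/-- Duality data: places, decomposition and inertia groups, local symbols, reciprocity. -/
structure AD (G P : Type) [Group G] [TopologicalSpace G] where
  /-- the cyclotomic character -/
  χ : G →* ℤ_[2]ˣ
  cχ : Continuous χ
  /-- decomposition groups -/
  D : P → Subgroup G
  /-- inertia groups -/
  I : P → Subgroup G
  le : ∀ v, I v ≤ D v
  /-- the local symbols -/
  sym : P → (G → ZMod 2) → (G → ZMod 2) → ZMod 2
  congr : ∀ v a a' b b', (∀ g ∈ D v, a g = a' g) → (∀ g ∈ D v, b g = b' g) →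
    sym v a b = sym v a' b'
  add : ∀ v a a' b, Hom (D v) a → Hom (D v) a' → Hom (D v) b →
    sym v (a + a') b = sym v a b + sym v a' b
  comm : ∀ v a b, Hom (D v) a → Hom (D v) b → sym v a b = sym v b a
  nondeg : ∀ v a, Hom (D v) a → (∀ b, Hom (D v) b → sym v a b = 0) → ∀ g ∈ D v, a g = 0
  finH : ∀ v, Finite (Hm (D v))
  rloc : ∀ v a b, Hom (D v) a → Hom (D v) b → ∀ f : G → ℚ_[2], ContinuousOn f (D v) →
    (∀ g ∈ D v, ∀ h ∈ D v, ‖hf (a g * b h) - dq χ f g h‖ ≤ 1) → sym v a b = 0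
  rglob : ∀ (b : G → G → ℚ_[2]) (k : ℕ), Continuous (fun p : G × G => b p.1 p.2) →
    (∀ g h, ‖2 ^ k * b g h‖ ≤ 1) →
    (∀ g h l, ‖((χ g : ℤ_[2]) : ℚ_[2]) * b h l - b (g * h) l + b g (h * l) - b g h‖ ≤ 1) →
    ∀ y : G → ZMod 2, Hom ⊤ y → ∀ a : P → G → ZMod 2, (∀ v, Hom (D v) (a v)) →
    (∀ v, ∃ f : G → ℚ_[2], ContinuousOn f (D v) ∧
      ∀ g ∈ D v, ∀ h ∈ D v, ‖b g h - dq χ f g h - hf (y g * a v h)‖ ≤ 1) →
    ∀ S : Finset P, (∀ v ∉ S, sym v y (a v) = 0) → ∑ v ∈ S, sym v y (a v) = 0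
  abhn : ∀ ε, Cz ⊤ ε → (∀ v, Sz (D v) ε) → Sz ⊤ ε
  finI : ∀ N ∈ nhds (1 : G), {v | ¬ (I v : Set G) ⊆ N}.Finite
  finS : ∀ S : Finset P, {y : G → ZMod 2 | Hom ⊤ y ∧ ∀ v ∉ S, ∀ g ∈ I v, y g = 0}.Finite
  lag : ∀ S₀ : Finset P, ∃ S : Finset P, S₀ ⊆ S ∧ ∀ b : P → G → ZMod 2,
    (∀ v ∈ S, Hom (D v) (b v)) →
    (∀ y, Hom ⊤ y → (∀ v ∉ S, ∀ g ∈ I v, y g = 0) → ∑ v ∈ S, sym v y (b v) = 0) →
    ∃ z, Hom ⊤ z ∧ (∀ v ∉ S, ∀ g ∈ I v, z g = 0) ∧ ∀ v ∈ S, ∀ g ∈ D v, z g = b v g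

/-- The action of a monomial matrix. -/
noncomputable def mon (e : ZMod 2) (r s : ℤ_[2]ˣ) (u : V) : V :=
  if e = 0 then (((r : ℤ_[2]) : ℚ_[2]) * u.1, ((s : ℤ_[2]) : ℚ_[2]) * u.2)
  else (((r : ℤ_[2]) : ℚ_[2]) * u.2, ((s : ℤ_[2]) : ℚ_[2]) * u.1)

/-- A monomial representation of determinant `χ`. -/
structure Rp (χ : G →* ℤ_[2]ˣ) where
  /-- the quadratic character -/
  η : G → ZMod 2
  /-- the first entry -/
  r : G → ℤ_[2]ˣ
  /-- the second entry -/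
  s : G → ℤ_[2]ˣ
  hη : Hom ⊤ η
  cr : Continuous r
  cs : Continuous s
  mul : ∀ g h u, mon (η (g * h)) (r (g * h)) (s (g * h)) u =
    mon (η g) (r g) (s g) (mon (η h) (r h) (s h) u)
  det : ∀ g, r g * s g = (if η g = 0 then 1 else -1) * χ g

variable {χ : G →* ℤ_[2]ˣ} (R : Rp χ)

/-- The action on `V`. -/
noncomputable def Rp.ac (g : G) (u : V) : V := mon (R.η g) (R.r g) (R.s g) u

/-- The coboundary of a vector. -/
noncomputable def Rp.d1 (u : V) (g : G) : V := R.ac g u - u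

/-- The coboundary of a cochain. -/
noncomputable def Rp.d2 (x : G → V) (g h : G) : V := x g + R.ac g (x h) - x (g * h)

/-- `x` is a cochain on `D` with values in `T i` which is a cocycle modulo `T j`. -/
def Rp.Lev (D : Subgroup G) (i j : ℤ) (x : G → V) : Prop :=
  ContinuousOn x D ∧ (∀ g ∈ D, x g ∈ T i) ∧ ∀ g ∈ D, ∀ h ∈ D, R.d2 x g h ∈ T j

/-- `x` is a cocycle on `D` with values in `T i`. -/
def Rp.Coc (D : Subgroup G) (i : ℤ) (x : G → V) : Prop :=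
  ContinuousOn x D ∧ (∀ g ∈ D, x g ∈ T i) ∧ ∀ g ∈ D, ∀ h ∈ D, R.d2 x g h = 0

/-- The local condition: the cocycle is a rational coboundary, or (when `dy` holds) its first
coordinate is. -/
def Rp.Z (D : Subgroup G) (dy : Prop) (i : ℤ) (t : G → V) : Prop :=
  R.Coc D i t ∧ ∃ u : V, ∀ g ∈ D, (t g).1 = (R.d1 u g).1 ∧ (¬ dy → (t g).2 = (R.d1 u g).2)

/-- The local condition modulo `T j`. -/
def Rp.LocC (D : Subgroup G) (dy : Prop) (i j : ℤ) (x : G → V) : Prop :=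
  ∃ t, R.Z D dy i t ∧ ∀ g ∈ D, x g - t g ∈ T j

/-- The image of the local condition in the homomorphisms to `ℤ / 2`. -/
noncomputable def Rp.W (D : Subgroup G) (dy : Prop) (i : ℤ) : Submodule (ZMod 2) (G → ZMod 2) :=
  Submodule.span (ZMod 2) {f | ∃ t, R.Z D dy i t ∧ f = res D fun g => lam i (t g)}

/-- The local condition is closed. -/
def Rp.Cls (D : Subgroup G) (dy : Prop) : Prop :=
  ∀ i x, R.Coc D i x → (∀ j, R.LocC D dy i j x) → R.Z D dy i x

/-- Both diagonal characters are nontrivial on `D`. -/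
def Rp.Bdd (D : Subgroup G) : Prop :=
  (∃ g ∈ D, R.η g = 0 ∧ R.r g ≠ 1) ∧ ∃ g ∈ D, R.η g = 0 ∧ R.s g ≠ 1

/-- A good place: the local conditions are the unramified ones. -/
def Rp.Good (D I : Subgroup G) (dy : Prop) : Prop :=
  ∀ i, (∀ t, R.Z D dy i t → ∀ g ∈ I, t g = 0) ∧
    ∀ f, Hom D f → (∀ g ∈ I, f g = 0) → res D f ∈ R.W D dy i

/-- The defect of a place. -/
noncomputable def Rp.df (D : Subgroup G) (dy : Prop) : ℤ :=
  (Module.finrank (ZMod 2) (R.W D dy 0) : ℤ) - Module.finrank (ZMod 2) (R.W D dy 1)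

/-- The two local conditions are large enough. -/
def Rp.Big (D : Subgroup G) (dy : Prop) : Prop :=
  Module.finrank (ZMod 2) (Hm D) ≤
    Module.finrank (ZMod 2) (R.W D dy 0) + Module.finrank (ZMod 2) (R.W D dy 1)

variable {P : Type} (A : AD G P) (R : Rp A.χ) (dy : P → Prop)

/-- The Selmer cochains of `T i / T j`. -/
def Sel (i j : ℤ) (x : G → V) : Prop :=
  R.Lev ⊤ i j x ∧ ∀ v, R.LocC (A.D v) (dy v) i j x

/-- The image of the Selmer group of `T i / T (i + n)` in the homomorphisms to `ℤ / 2`. -/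
noncomputable def SS (i : ℤ) (n : ℕ) : Submodule (ZMod 2) (G → ZMod 2) :=
  Submodule.span (ZMod 2) {f | ∃ x, Sel A R dy i (i + n) x ∧ f = fun g => lam i (x g)}

/-- `e` is a value of the pairing of `x` with `y`. -/
def PV (i j : ℤ) (x : G → V) (y : G → ZMod 2) (e : ZMod 2) : Prop :=
  ∃ (x' : G → V) (t : P → G → V) (S : Finset P), R.Lev ⊤ i (j + 1) x' ∧ (∀ g, x' g - x g ∈ T j) ∧
    (∀ v, R.Z (A.D v) (dy v) i (t v) ∧ ∀ g ∈ A.D v, x' g - t v g ∈ T j) ∧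
    (∀ v ∉ S, A.sym v y (fun g => lam j (x' g - t v g)) = 0) ∧
    e = ∑ v ∈ S, A.sym v y fun g => lam j (x' g - t v g)

/-- The standing hypotheses on the places. -/
structure Std (S₀ : Finset P) : Prop where
  dyk : ∀ v, dy v → ∀ g ∈ A.D v, R.η g = 0
  good : ∀ v ∉ S₀, R.Good (A.D v) (A.I v) (dy v)
  big : ∀ v, R.Big (A.D v) (dy v)

end Pool.Agent.SC
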