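import Mathlib

/-! Definitions used in the statement: algebraic Hecke characters, the sign of the functional
equation, the attached 2-adic character and its Selmer classes. -/

namespace Pool.Agent.SignConj

open NumberField
open scoped Pointwise

variable {L : Type} [Field L] [NumberField L]

/-- `ψ` is a primitive algebraic Hecke character of conductor `𝔣` and infinity type `a`:
`ψ ((x)) = χ x * ∏ σ, (σ x) ^ (- a σ)` for a primitive character `χ` modulo `𝔣`. -/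
def IsHecke (𝔣 : Ideal (𝓞 L)) (a : (L →+* ℂ) → ℤ) (ψ : Ideal (𝓞 L) →* ℂ) : Prop :=
  𝔣 ≠ ⊥ ∧ ∃ χ : MulChar (𝓞 L ⧸ 𝔣) ℂ,
    (∀ 𝔤 : Ideal (𝓞 L), 𝔣 < 𝔤 → ∃ x : 𝓞 L, x - 1 ∈ 𝔤 ∧ IsUnit (Ideal.Quotient.mk 𝔣 x) ∧
      χ (Ideal.Quotient.mk 𝔣 x) ≠ 1) ∧
    ∀ x : 𝓞 L, x ≠ 0 → ψ (Ideal.span {x}) =
      χ (Ideal.Quotient.mk 𝔣 x) * ∏ σ : L →+* ℂ, σ (x : L) ^ (-a σ)

/-- Conjugate self-duality of weight `-1`. -/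
def ConjDual [IsCMField L] (𝔣 : Ideal (𝓞 L)) (a : (L →+* ℂ) → ℤ) (ψ : Ideal (𝓞 L) →* ℂ) : Prop :=
  (∀ σ, a σ + a (ComplexEmbedding.conjugate σ) = 1) ∧
    ∀ I : Ideal (𝓞 L), I ≠ ⊥ → IsCoprime I 𝔣 →
      ψ I * ψ (I.map (IsCMField.ringOfIntegersComplexConj L)) * Ideal.absNorm I = 1

/-- The completed `L`-function continues to an entire function `Λ` with
`Λ s = ε(s) Λ (-s)`, `ε(s) = - A ^ (-s)`. -/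
def SignNeg (a : (L →+* ℂ) → ℤ) (ψ : Ideal (𝓞 L) →* ℂ) : Prop :=
  ∃ Λ : ℂ → ℂ, Differentiable ℂ Λ ∧
    (∀ s : ℂ, 1 < s.re → Λ s = (∏ σ : L →+* ℂ with 0 < a σ, Complex.Gammaℂ (s + a σ)) *
      ∑' I : {I : Ideal (𝓞 L) // I ≠ ⊥}, ψ I.1 * (Ideal.absNorm I.1 : ℂ) ^ (-s)) ∧
    ∃ A : ℝ, 0 < A ∧ ∀ s : ℂ, Λ s = -(A : ℂ) ^ (-s) * Λ (-s)

variable (L) in
/-- The absolute Galois group. -/
abbrev Gal : Type := AlgebraicClosure L ≃ₐ[L] AlgebraicClosure L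

/-- `ρ` is unramified outside `2 𝔣` and `ρ (g)⁻¹ = ι (ψ 𝔭)` for every arithmetic Frobenius `g`
at a prime above `𝔭`. -/
def Attached (ι : ℂ ≃+* PadicAlgCl 2) (𝔣 : Ideal (𝓞 L)) (ψ : Ideal (𝓞 L) →* ℂ)
    (ρ : Gal L →* ℤ_[2]ˣ) : Prop :=
  ∀ 𝔓 : Ideal (𝓞 (AlgebraicClosure L)), 𝔓.IsMaximal → 2 ∉ 𝔓 → IsCoprime (𝔓.under (𝓞 L)) 𝔣 →
    (∀ g ∈ 𝔓.inertia (Gal L), ρ g = 1) ∧ ∀ g : Gal L,
      (∀ y, g • y - y ^ Ideal.absNorm (𝔓.under (𝓞 L)) ∈ 𝔓) →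
      ι (ψ (𝔓.under (𝓞 L))) * algebraMap ℚ_[2] (PadicAlgCl 2) ((ρ g : ℤ_[2]) : ℚ_[2]) = 1

/-- The cocycle `x` is a coboundary on `H`. -/
def CobOn (ρ : Gal L →* ℤ_[2]ˣ) (x : Gal L → ℚ_[2]) (H : Subgroup (Gal L)) : Prop :=
  ∃ u : ℚ_[2], ∀ g ∈ H, x g = ((ρ g : ℤ_[2]) : ℚ_[2]) * u - u

/-- A continuous cocycle that is unramified at the primes not above `2` and locally trivial at
the primes above `2` of Hodge-Tate weight `a σ ≤ 0`. -/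
def IsSelmer (ι : ℂ ≃+* PadicAlgCl 2) (a : (L →+* ℂ) → ℤ) (ρ : Gal L →* ℤ_[2]ˣ)
    (x : Gal L → ℚ_[2]) : Prop :=
  Continuous x ∧ (∀ g h, x (g * h) = x g + ((ρ g : ℤ_[2]) : ℚ_[2]) * x h) ∧
    ∀ 𝔓 : Ideal (𝓞 (AlgebraicClosure L)), 𝔓.IsMaximal →
      (2 ∉ 𝔓 → CobOn ρ x (𝔓.inertia (Gal L))) ∧
      ∀ σ : L →+* ℂ, a σ ≤ 0 → (∀ y : 𝓞 L, y ∈ 𝔓.under (𝓞 L) ↔ ‖ι (σ (y : L))‖ < 1) →
        CobOn ρ x (MulAction.stabilizer (Gal L) 𝔓)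

/-- The main statement. -/
def MainSt : Prop :=
  ∀ (L : Type) [Field L] [NumberField L] [IsCMField L] (ι : ℂ ≃+* PadicAlgCl 2),
    (∀ (σ : L →+* ℂ) (x : L), ι (σ x) ∈ (algebraMap ℚ_[2] (PadicAlgCl 2)).range) →
    ∀ (𝔣 : Ideal (𝓞 L)) (a : (L →+* ℂ) → ℤ) (ψ : Ideal (𝓞 L) →* ℂ), IsHecke 𝔣 a ψ →
    ConjDual 𝔣 a ψ → SignNeg a ψ → ∀ ρ : Gal L →* ℤ_[2]ˣ, Continuous ρ → Attached ι 𝔣 ψ ρ →
    ∃ x : Gal L → ℚ_[2], IsSelmer ι a ρ x ∧ ¬ CobOn ρ x ⊤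

end Pool.Agent.SignConj
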