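import Pool.Agent.Lib.MP_b4b3cb_nt.StG
import Pool.Agent.Lib.MP_b4b3cb_nt.Stmt
import Pool.Agent.Lib.MP_ca56d1_nt.ZetaZero

/-! Hecke characters: theta series, Gauss sums, Weil indices, 2-adic avatars. -/

namespace Pool.Agent.SC

open NumberField Pool.Agent.Stark
open scoped Classical ComplexConjugate

section An

variable {κ : Type} [Fintype κ]

/-- The harmonic Gaussian in real coordinates. -/
noncomputable def fm (m : κ → ℕ) (p : κ ⊕ κ → ℝ) : ℂ :=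
  (∏ k, ((p (Sum.inl k) : ℂ) - (p (Sum.inr k) : ℂ) * Complex.I) ^ m k) *
    Complex.exp (-(Real.pi : ℂ) * ∑ i, (p i : ℂ) ^ 2)

/-- Real coordinates. -/
noncomputable def co (z : κ → ℂ) : κ ⊕ κ → ℝ :=
  Sum.elim (fun k => √2 * (z k).re) fun k => √2 * (z k).im

/-- The harmonic Gaussian with scaling parameters. -/
noncomputable def fz (m : κ → ℕ) (y : κ → ℝ) (z : κ → ℂ) : ℂ :=
  ∏ k, conj (z k) ^ m k *
    (Real.exp ((m k + 1) * y k - 2 * Real.pi * ‖z k‖ ^ 2 * Real.exp (2 * y k)) : ℂ)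

/-- The homogeneous function of degree `-1` in each variable. -/
noncomputable def pz (m : κ → ℕ) (z : κ → ℂ) : ℂ :=
  ∏ k, conj (z k) ^ m k / (‖z k‖ : ℂ) ^ (m k + 1)

/-- Continuity and rapid decay in the positive direction. -/
def AdmP (θ : (κ → ℝ) → ℂ) : Prop :=
  Continuous θ ∧ ∀ R : ℝ, ∃ C δ : ℝ, 0 < δ ∧ ∀ (τ : ℝ) (y : κ → ℝ), 0 ≤ τ →
    (∀ k, |y k - τ| ≤ R) → ‖θ y‖ ≤ C * Real.exp (-δ * Real.exp τ)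

/-- Continuity and rapid decay in both directions. -/
def Adm (θ : (κ → ℝ) → ℂ) : Prop :=
  Continuous θ ∧ ∀ R : ℝ, ∃ C δ : ℝ, 0 < δ ∧ ∀ (τ : ℝ) (y : κ → ℝ),
    (∀ k, |y k - τ| ≤ R) → ‖θ y‖ ≤ C * Real.exp (-δ * Real.exp |τ|)

/-- The Mellin transform of the average over a box. -/
noncomputable def mel {r : ℕ} (θ : (κ → ℝ) → ℂ) (l : Fin r → κ → ℝ) (y₀ : κ → ℝ) (s : ℂ) : ℂ :=
  ∫ τ : ℝ, (∫ t in box r, θ fun k => y₀ k + ∑ j, t j * l j k + τ) *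
    Complex.exp (2 * (Fintype.card κ : ℂ) * s * τ)

end An

section One

variable {F : Type} [Field F] [NumberField F]

/-- The exponent of `w` in `𝔪`. -/
noncomputable def cn (𝔪 : Ideal (𝓞 F)) (w : Pr F) : ℕ := multiplicity w.asIdeal 𝔪

/-- `f` is periodic modulo `𝔪`. -/
def Per {Y : Type} (𝔪 : Ideal (𝓞 F)) (f : 𝓞 F → Y) : Prop := ∀ x y, x - y ∈ 𝔪 → f x = f y

/-- The sum over the residue classes modulo `𝔪`. -/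
noncomputable def gs (𝔪 : Ideal (𝓞 F)) (f : 𝓞 F → ℂ) : ℂ := ∑ᶠ c : 𝓞 F ⧸ 𝔪, f (Quotient.out c)

/-- `j` is the divisor of the inverse different. -/
structure IsJ (j : Pr F → ℤ) : Prop where
  iff : ∀ z : F, (∀ y : 𝓞 F, eTr (z * y) = 1) ↔ ∀ q : Pr F, z ∈ pw (q.valuation F) (j q)
  fin : {q | j q ≠ 0}.Finite

/-- The Weil indices. -/
structure WD (j : Pr F → ℤ) (gam : Pr F → F → ℂ) : Prop where
  isJ : IsJ j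
  neg : ∀ q c, c ≠ 0 → gam q c * gam q (-c) = 1
  sq : ∀ q c t, c ≠ 0 → t ≠ 0 → LSq q t → gam q (c * t) = gam q c
  hs : ∀ q a b, a ≠ 0 → b ≠ 0 →
    gam q 1 * gam q (-a) * gam q (-b) * gam q (a * b) = sg ℂ (hq q a b)
  ev : ∀ q c, c ≠ 0 → og q (2 : F) = 0 → Even (og q c - j q) → gam q c = 1
  gauss : ∀ q c, c ≠ 0 → og q (2 : F) = 0 → og q c = j q - 1 → (∀ q' ≠ q, j q' ≤ og q' c) →
    ∃ r : ℝ, 0 < r ∧ gs q.asIdeal (fun x => eTr (c * (x : F) ^ 2)) = r * gam q c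
  prod : ∀ c, c ≠ 0 → ∀ S : Finset (Pr F), (∀ q ∉ S, og q (2 : F) = 0 ∧ Even (og q c - j q)) →
    ∏ q ∈ S, gam q c = ∏ φ : F →+* ℝ, e8 (φ c)

/-- `e` is an idempotent modulo `𝔣` for the prime `w`. -/
def Idm (𝔣 : Ideal (𝓞 F)) (w : Pr F) (e : 𝓞 F) : Prop :=
  e - 1 ∈ w.asIdeal ^ cn 𝔣 w ∧ ∀ w' : Pr F, w' ≠ w → e ∈ w'.asIdeal ^ cn 𝔣 w'

/-- `x` is `-1` at `w` and `1` at the other primes, modulo `𝔣`. -/
def Ng (𝔣 : Ideal (𝓞 F)) (w : Pr F) (x : 𝓞 F) : Prop :=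
  x + 1 ∈ w.asIdeal ^ cn 𝔣 w ∧ ∀ w' : Pr F, w' ≠ w → x - 1 ∈ w'.asIdeal ^ cn 𝔣 w'

/-- `w` does not divide `2 𝔣`. -/
def Gd (𝔣 : Ideal (𝓞 F)) (w : Pr F) : Prop := og w (2 : F) = 0 ∧ ¬ 𝔣 ≤ w.asIdeal

/-- The local Gauss sum. -/
noncomputable def tl (𝔣 : Ideal (𝓞 F)) (χ : 𝓞 F → ℤ) (γ : F) (w : Pr F) (e : 𝓞 F) : ℂ :=
  gs (w.asIdeal ^ cn 𝔣 w) fun x => (χ (1 + e * (x - 1)) : ℂ) * eTr (γ * (e : F) * (x : F))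

/-- The global Gauss sum. -/
noncomputable def tau0 (𝔣 : Ideal (𝓞 F)) (χ : 𝓞 F → ℤ) (γ : F) : ℂ :=
  gs 𝔣 fun x => (χ x : ℂ) * eTr (γ * (x : F))

/-- The local factor of the root number. -/
noncomputable def lw (𝔣 𝔠 : Ideal (𝓞 F)) (ψ : Ideal (𝓞 F) →* ℂ) (χ : 𝓞 F → ℤ) (γ : F) (w : Pr F)
    (e : 𝓞 F) : ℂ := tl 𝔣 χ γ w e * (ψ w.asIdeal)⁻¹ ^ cn 𝔠 w

/-- The infinity type. -/
noncomputable def pinf (a : (F →+* ℂ) → ℤ) (x : F) : ℂ := ∏ σ : F →+* ℂ, σ x ^ (-a σ)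

/-- The embeddings of positive weight. -/
abbrev Ty (a : (F →+* ℂ) → ℤ) : Type := {σ : F →+* ℂ // 0 < a σ}

/-- The degrees of the harmonic polynomials. -/
def mm (a : (F →+* ℂ) → ℤ) (k : Ty a) : ℕ := (2 * a k.1 - 1).toNat

/-- The embedding attached to the type. -/
def ez (a : (F →+* ℂ) → ℤ) (x : F) (k : Ty a) : ℂ := k.1 x

/-- The theta series of an ideal. -/
noncomputable def th (a : (F →+* ℂ) → ℤ) (χ : 𝓞 F → ℤ) (𝔟 : Ideal (𝓞 F)) (y : Ty a → ℝ) : ℂ :=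
  ∑' x : 𝔟, (χ x.1 : ℂ) * fz (mm a) y (ez a (x.1 : F))

/-- The Gamma factor. -/
noncomputable def Gam (a : (F →+* ℂ) → ℤ) (s : ℂ) : ℂ := ∏ k : Ty a, Complex.Gammaℂ (s + a k.1)

/-- The Dirichlet series of an ideal class. -/
noncomputable def zc (ψ : Ideal (𝓞 F) →* ℂ) (c : ClassGroup (𝓞 F)) (s : ℂ) : ℂ :=
  ∑' I : {I : {I : Ideal (𝓞 F) // I ≠ ⊥} // ZetaZeroAux.cls I = c},
    ψ I.1.1 * (Ideal.absNorm I.1.1 : ℂ) ^ (-s)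

/-- The root number up to a positive factor. -/
noncomputable def Wt (𝔣 𝔠 : Ideal (𝓞 F)) (a : (F →+* ℂ) → ℤ) (ψ : Ideal (𝓞 F) →* ℂ)
    (χ : 𝓞 F → ℤ) (γ : F) : ℂ :=
  (-Complex.I) ^ (∑ k, mm a k) * tau0 𝔣 χ γ * pinf a γ * (ψ 𝔠)⁻¹

/-- The sign character on 2-adic numbers. -/
noncomputable def sq4 (u : ℚ_[2]) : ZMod 2 := if ‖u - 1‖ ≤ 1 / 4 then 0 else 1

/-- The 2-adic infinity type. -/
noncomputable def p2 (t : (F →+* ℂ) → (F →+* ℚ_[2])) (a : (F →+* ℂ) → ℤ) (x : F) : ℚ_[2] :=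
  ∏ σ : F →+* ℂ, t σ x ^ a σ

/-- The product of the Frobenius values over the divisor of `x`. -/
noncomputable def av (fr : Pr F → ℤ_[2]ˣ) (x : F) : ℤ_[2]ˣ := ∏ᶠ w, fr w ^ og w x

/-- The 2-adic embeddings and the dyadic primes. -/
structure DY (ι : ℂ ≃+* PadicAlgCl 2) (t : (F →+* ℂ) → (F →+* ℚ_[2]))
    (dw : (F →+* ℂ) → Pr F) : Prop where
  emb : ∀ σ x, algebraMap ℚ_[2] (PadicAlgCl 2) (t σ x) = ι (σ x)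
  mem : ∀ σ (y : 𝓞 F), y ∈ (dw σ).asIdeal ↔ ‖t σ y‖ < 1

end One

section Two

variable {K L : Type} [Field K] [NumberField K] [Field L] [NumberField L] [Algebra K L] {d : K}
  (E : Quad K L d)

/-- The conjugation is the complex conjugation, and the weight is `-1`. -/
structure CM (a : (L →+* ℂ) → ℤ) : Prop where
  cm : ∀ (σ : L →+* ℂ) (x : L), σ (E.tau x) = conj (σ x)
  wt : ∀ σ, a σ + a (ComplexEmbedding.conjugate σ) = 1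

/-- A conjugate dual Hecke character with quadratic finite part. -/
structure HD (𝔣 : Ideal (𝓞 L)) (a : (L →+* ℂ) → ℤ) (ψ : Ideal (𝓞 L) →* ℂ) (χ : 𝓞 L → ℤ) :
    Prop where
  cm : CM E a
  ne : 𝔣 ≠ ⊥
  mul : ∀ x y, χ (x * y) = χ x * χ y
  one : χ 1 = 1
  per : Per 𝔣 χ
  val : ∀ x, χ x = 0 ∨ χ x = 1 ∨ χ x = -1
  zero : ∀ x, χ x ≠ 0 ↔ IsCoprime (Ideal.span {x}) 𝔣
  prim : ∀ 𝔤 : Ideal (𝓞 L), 𝔣 < 𝔤 → ∃ x, x - 1 ∈ 𝔤 ∧ χ x = -1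
  prin : ∀ x : 𝓞 L, x ≠ 0 → ψ (Ideal.span {x}) = χ x * pinf a (x : L)
  dual : ∀ I : Ideal (𝓞 L), I ≠ ⊥ → IsCoprime I 𝔣 →
    ψ I * ψ (I.map E.sg) * Ideal.absNorm I = 1

/-- The dual lattice. -/
def Du (𝔪 : Ideal (𝓞 L)) : AddSubgroup L where
  carrier := {ξ | ∀ x ∈ 𝔪, eTr ((x : L) * E.tau ξ) = 1}
  add_mem' := fun {a b} ha hb x hx => by rw [map_add, mul_add, eTr_add, ha x hx, hb x hx, mul_one]
  zero_mem' := fun x _ => by simp [eTr]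
  neg_mem' := fun {a} ha x hx => by
    have := ha (-x) (neg_mem hx)
    rwa [map_neg, mul_neg, ← neg_mul, ← show ((-x : 𝓞 L) : L) = -(x : L) from rfl]

/-- `γ₀` generates `𝔠 / (𝔣 𝔇)`. -/
structure Gm (𝔣 𝔠 : Ideal (𝓞 L)) (γ₀ : K) : Prop where
  ne : γ₀ ≠ 0
  ne' : 𝔠 ≠ ⊥
  cop : IsCoprime 𝔠 𝔣
  sym : 𝔠.map E.sg = 𝔠
  iff : ∀ z : L, (∀ x ∈ 𝔣, eTr (algebraMap K L γ₀ * z * (x : L)) = 1) ↔
    ∀ c ∈ 𝔠, ∃ u : 𝓞 L, (u : L) = z * (c : L)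

/-- The hypotheses for the computation of the root number. -/
structure RH (𝔣 : Ideal (𝓞 L)) (ψ : Ideal (𝓞 L) →* ℂ) : Prop where
  dy : ∀ v : Pr K, og v (2 : K) ≠ 0 → LSq v d
  ram : ∀ w : Pr L, eI K w = 2 → 𝔣 ≤ w.asIdeal
  inert : ∀ w : Pr L, E.act w = w → ¬ 𝔣 ≤ w.asIdeal → ∃ r : ℝ, 0 < r ∧ ψ w.asIdeal = -r

/-- The local sign. -/
noncomputable def bv (d : K) (𝔣 : Ideal (𝓞 L)) (sec : Pr K → Pr L) (ε : Pr K → ZMod 2)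
    (v : Pr K) : ZMod 2 :=
  if LSq v d then ε v else if 𝔣 ≤ (sec v).asIdeal ∧ LSq v (-d) then 1 else 0

end Two

section Three

variable (K : Type) {L Ω : Type} [Field K] [Field L] [NumberField L] [Field Ω] [Algebra K Ω]
  [Algebra L Ω]

/-- The Galois character attached to `ψ`, as a function on the big Galois group. -/
structure AT (ι : ℂ ≃+* PadicAlgCl 2) (𝔣 : Ideal (𝓞 L)) (ψ : Ideal (𝓞 L) →* ℂ)
    (ρ : (Ω ≃ₐ[K] Ω) → ℤ_[2]ˣ) (fr : Pr L → ℤ_[2]ˣ) : Prop where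
  cont : ContinuousOn ρ (Gs K Ω L)
  mul : ∀ g ∈ Gs K Ω L, ∀ h ∈ Gs K Ω L, ρ (g * h) = ρ g * ρ h
  unr : ∀ (𝔓 : Ideal (𝓞 Ω)) (w : Pr L), Over 𝔓 w → Gd 𝔣 w → ∀ g ∈ Ine K 𝔓 ⊓ Gs K Ω L, ρ g = 1
  frob : ∀ (𝔓 : Ideal (𝓞 Ω)) (w : Pr L), Over 𝔓 w → Gd 𝔣 w → ∀ g ∈ Gs K Ω L,
    IsFr 𝔓 (Ideal.absNorm w.asIdeal) g → ρ g = fr w
  bad : ∀ w, ¬ Gd 𝔣 w → fr w = 1
  link : ∀ w, Gd 𝔣 w →
    ι (ψ w.asIdeal) * algebraMap ℚ_[2] (PadicAlgCl 2) ((fr w : ℤ_[2]) : ℚ_[2]) = 1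

variable {K} in
/-- The cocycle `ξ` is a coboundary on `H`. -/
def Cob (ρ : (Ω ≃ₐ[K] Ω) → ℤ_[2]ˣ) (ξ : (Ω ≃ₐ[K] Ω) → ℚ_[2]) (H : Subgroup (Ω ≃ₐ[K] Ω)) : Prop :=
  ∃ u : ℚ_[2], ∀ g ∈ H, ξ g = ((ρ g : ℤ_[2]) : ℚ_[2]) * u - u

end Three

end Pool.Agent.SC
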