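import Pool.Agent.Lib.MP_b4b3cb_nt.StB

/-! The shape of the local conditions at a dyadic place. -/

namespace Pool.Agent.SC

open scoped Classical
open Module

namespace DyAAux

/-- The parity of a 2-adic integer. -/
noncomputable def par (x : ℚ_[2]) : ZMod 2 := lam 0 (x, 0)

theorem z2 {x y : ZMod 2} (h : x = 0 ↔ y = 0) : x = y := by
  revert x y; decide

theorem mem0 (hL : LatSt) (u : V) : u ∈ T 0 ↔ ‖u.1‖ ≤ 1 ∧ ‖u.2‖ ≤ 1 := by
  have := hL.norm_iff 0 u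
  simp only [mul_zero, neg_zero, zpow_zero] at this
  rw [this, Prod.norm_def, max_le_iff]

theorem mem1 (hL : LatSt) (u : V) :
    u ∈ T 1 ↔ (‖u.1‖ ≤ 1 ∧ ‖u.2‖ ≤ 1) ∧ ‖u.1 - u.2‖ ≤ 1 / 2 := by
  have := hL.odd_iff 0 u
  simp only [mul_zero, neg_zero, zpow_zero, zero_add, zpow_neg, zpow_one] at this
  rw [this, Prod.norm_def, max_le_iff, one_div]

theorem mem2 (hL : LatSt) (u : V) : u ∈ T 2 ↔ ‖u.1‖ ≤ 1 / 2 ∧ ‖u.2‖ ≤ 1 / 2 := by
  have := hL.norm_iff 1 u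
  simp only [mul_one, zpow_neg, zpow_one] at this
  rw [this, Prod.norm_def, max_le_iff, one_div]

theorem par_zero (hL : LatSt) (x : ℚ_[2]) : par x = 0 ↔ ‖x‖ ≤ 1 / 2 := by
  unfold par
  rw [hL.lam_zero, zero_add, mem1 hL]
  simp only [norm_zero, zero_le_one, and_true, sub_zero]
  exact ⟨fun h => h.2, fun h => ⟨h.trans (by norm_num), h⟩⟩

theorem par_sub (hL : LatSt) {x y : ℚ_[2]} (hx : ‖x‖ ≤ 1) (hy : ‖y‖ ≤ 1) :
    par (x - y) = par x + par y := by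
  unfold par
  have h : ((x - y, 0) : V) = (x, 0) - (y, 0) := by simp
  rw [h]
  exact hL.lam_sub ((mem0 hL _).2 ⟨hx, by simp⟩) ((mem0 hL _).2 ⟨hy, by simp⟩)

theorem lam0 (hL : LatSt) {u : V} (hu : u ∈ T 0) : lam 0 u = par u.1 + par u.2 := by
  have h := (mem0 hL u).1 hu
  rw [← par_sub hL h.1 h.2]
  apply z2
  rw [hL.lam_zero, zero_add, mem1 hL, par_zero hL]
  exact ⟨fun h' => h'.2, fun h' => ⟨h, h'⟩⟩

theorem lam1 (hL : LatSt) {u : V} (hu : u ∈ T 1) : lam 1 u = par u.1 ∧ par u.1 = par u.2 := by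
  have h := (mem1 hL u).1 hu
  have h2 : par u.1 = par u.2 := by
    have h3 := (par_zero hL _).2 h.2
    rw [par_sub hL h.1.1 h.1.2] at h3
    generalize par u.1 = a at h3 ⊢
    generalize par u.2 = b at h3 ⊢
    revert a b; decide
  refine ⟨z2 ?_, h2⟩
  have h4 : (1 : ℤ) + 1 = 2 := by norm_num
  rw [hL.lam_zero, h4, mem2 hL, ← par_zero hL, ← par_zero hL, ← h2, and_self]

theorem le_one {w : ℚ_[2]} (h : ‖w‖ < 2) : ‖w‖ ≤ 1 := by
  have := (Padic.norm_le_pow_iff_norm_lt_pow_add_one w 0).2 (by simpa using h)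
  simpa using this

theorem eq_one {w : ℚ_[2]} (h : ‖w‖ ≤ 1) (h' : ¬ ‖w‖ ≤ 1 / 2) : ‖w‖ = 1 := by
  refine le_antisymm h (not_lt.1 fun h1 => h' ?_)
  have := (Padic.norm_le_pow_iff_norm_lt_pow_add_one w (-1)).2 (by simpa using h1)
  simpa using this

theorem norm_two : ‖(2 : ℚ_[2])‖ = 1 / 2 := by
  have := Padic.norm_p (p := 2)
  simpa using this

theorem norm_div (x : ℚ_[2]) (k : ℕ) : ‖x * (2 ^ k)⁻¹‖ = ‖x‖ * 2 ^ k := by
  rw [norm_mul, norm_inv, norm_pow, norm_two]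
  simp

theorem par_mul (hL : LatSt) {a w : ℚ_[2]} (ha : ‖a‖ ≤ 1) (hw : ‖w‖ ≤ 1 / 2) :
    par (a * w) = 0 := by
  rw [par_zero hL, norm_mul]
  nlinarith [norm_nonneg a, norm_nonneg w]

theorem par_unit (hL : LatSt) (a : ℚ_[2]) {w : ℚ_[2]} (hw : ‖w‖ = 1) : par (a * w) = par a := by
  apply z2
  rw [par_zero hL, par_zero hL, norm_mul, hw, mul_one]

variable {G : Type} [Group G] [TopologicalSpace G] {χ : G →* ℤ_[2]ˣ} (R : Rp χ) (D : Subgroup G)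

theorem ac_eq {g : G} (h : R.η g = 0) (u : V) :
    R.ac g u = (((R.r g : ℤ_[2]) : ℚ_[2]) * u.1, ((R.s g : ℤ_[2]) : ℚ_[2]) * u.2) := by
  simp [Rp.ac, mon, h]

theorem d1_fst {g : G} (h : R.η g = 0) (u : V) :
    (R.d1 u g).1 = (((R.r g : ℤ_[2]) : ℚ_[2]) - 1) * u.1 := by
  simp only [Rp.d1, ac_eq R h, Prod.fst_sub]
  ring

theorem d1_snd {g : G} (h : R.η g = 0) (u : V) :
    (R.d1 u g).2 = (((R.s g : ℤ_[2]) : ℚ_[2]) - 1) * u.2 := by
  simp only [Rp.d1, ac_eq R h, Prod.snd_sub]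
  ring

theorem r_le (hO : OmSt) (g : G) : ‖((R.r g : ℤ_[2]) : ℚ_[2]) - 1‖ ≤ 1 / 2 := by
  have := hO.unit_half (R.r g) 1
  simpa using this

theorem r_ne {g : G} (h : R.r g ≠ 1) : ((R.r g : ℤ_[2]) : ℚ_[2]) - 1 ≠ 0 := by
  intro h1
  apply h
  have h2 : ((R.r g : ℤ_[2]) : ℚ_[2]) = ((1 : ℤ_[2]) : ℚ_[2]) := by
    rw [sub_eq_zero.1 h1]; simp
  exact Units.ext (Subtype.ext h2)

theorem small {x : ℚ_[2]} (h : ∀ j : ℕ, ‖x‖ ≤ 1 / 2 ^ j) : x = 0 := by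
  by_contra hx
  obtain ⟨n, hn⟩ := exists_pow_lt_of_lt_one (norm_pos_iff.2 hx) (by norm_num : (1 / 2 : ℝ) < 1)
  have := h n
  rw [one_div_pow] at hn
  linarith

theorem cls (hL : LatSt) (hO : OmSt) (hη : ∀ g ∈ D, R.η g = 0) (h0 : ∃ g ∈ D, R.r g ≠ 1) :
    R.Cls D True := by
  obtain ⟨g0, hg0, hr⟩ := h0
  intro i x hx hloc
  have hc := r_ne R hr
  refine ⟨hx, ((x g0).1 / (((R.r g0 : ℤ_[2]) : ℚ_[2]) - 1), 0), fun g hg => ⟨?_, fun h => absurd trivial h⟩⟩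
  rw [d1_fst R (hη g hg)]
  have key : (((R.r g0 : ℤ_[2]) : ℚ_[2]) - 1) * (x g).1 -
      (((R.r g : ℤ_[2]) : ℚ_[2]) - 1) * (x g0).1 = 0 := by
    apply small
    intro j
    obtain ⟨t, ⟨-, u, hu⟩, ht⟩ := hloc (2 * (j : ℤ))
    have hb : ∀ h ∈ D, ‖(x h).1 - (((R.r h : ℤ_[2]) : ℚ_[2]) - 1) * u.1‖ ≤ 1 / 2 ^ j := by
      intro h hh
      have h1 := (hL.norm_iff j _).1 (ht h hh)
      have h2 := (norm_fst_le (x h - t h)).trans h1
      rw [Prod.fst_sub, (hu h hh).1, d1_fst R (hη h hh)] at h2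
      simpa using h2
    have e : (((R.r g0 : ℤ_[2]) : ℚ_[2]) - 1) * (x g).1 -
        (((R.r g : ℤ_[2]) : ℚ_[2]) - 1) * (x g0).1 =
        (((R.r g0 : ℤ_[2]) : ℚ_[2]) - 1) * ((x g).1 - (((R.r g : ℤ_[2]) : ℚ_[2]) - 1) * u.1) +
        -((((R.r g : ℤ_[2]) : ℚ_[2]) - 1) *
          ((x g0).1 - (((R.r g0 : ℤ_[2]) : ℚ_[2]) - 1) * u.1)) := by ring
    rw [e]
    refine (IsUltrametricDist.norm_add_le_max _ _).trans (max_le ?_ ?_)
    · rw [norm_mul]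
      have h1 := r_le R hO g0
      have h2 := hb g hg
      exact (mul_le_of_le_one_left (norm_nonneg _) (by linarith)).trans h2
    · rw [norm_neg, norm_mul]
      have h1 := r_le R hO g
      have h2 := hb g0 hg0
      exact (mul_le_of_le_one_left (norm_nonneg _) (by linarith)).trans h2
  field_simp
  linear_combination key

/-- The second coordinate of an integral cocycle. -/
theorem red_snd (hL : LatSt) (hη : ∀ g ∈ D, R.η g = 0) {i : ℤ} {t : G → V} (ht : R.Coc D i t)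
    (hb : ∀ g ∈ D, ‖(t g).2‖ ≤ 1) {f : G → ZMod 2} (hf : ∀ g ∈ D, f g = par (t g).2) :
    Red D R.s f := by
  refine ⟨fun g => (t g).2, continuous_snd.comp_continuousOn ht.1, hb, fun g hg h hh => ?_,
    fun g hg => by rw [hf g hg, par_zero hL]⟩
  have h1 := congrArg Prod.snd (ht.2.2 g hg h hh)
  simp only [Rp.d2, ac_eq R (hη g hg), Prod.snd_sub, Prod.snd_add, Prod.snd_zero] at h1
  linear_combination -h1

/-- A cocycle with prescribed coordinates. -/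
theorem z_mk (hA : AcSt) (hη : ∀ g ∈ D, R.η g = 0) (i : ℤ) (c : ℚ_[2]) {S : G → ℚ_[2]}
    (hS : ContinuousOn S D)
    (hS' : ∀ g ∈ D, ∀ h ∈ D, S (g * h) = S g + ((R.s g : ℤ_[2]) : ℚ_[2]) * S h)
    (hm : ∀ g ∈ D, (((((R.r g : ℤ_[2]) : ℚ_[2]) - 1) * c, S g) : V) ∈ T i) :
    R.Z D True i fun g => ((((R.r g : ℤ_[2]) : ℚ_[2]) - 1) * c, S g) := by
  refine ⟨⟨ContinuousOn.prodMk ?_ hS, hm, fun g hg h hh => ?_⟩, (c, 0),
    fun g hg => ⟨by rw [d1_fst R (hη g hg)], fun h => absurd trivial h⟩⟩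
  · have h0 : Continuous fun g => (R.r g : ℤ_[2]) := Units.continuous_val.comp R.cr
    have h1 : Continuous fun g => ((R.r g : ℤ_[2]) : ℚ_[2]) := continuous_subtype_val.comp h0
    exact ((h1.sub continuous_const).mul continuous_const).continuousOn
  · have h1 := ((hA.rs_mul R g h).1 (hη g hg)).1
    simp only [Rp.d2, ac_eq R (hη g hg), h1, hS' g hg h hh, Units.val_mul, PadicInt.coe_mul]
    ext
    · simp only [Prod.fst_sub, Prod.fst_add, Prod.fst_zero]; ring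
    · simp only [Prod.snd_sub, Prod.snd_add, Prod.snd_zero]; ring

/-- The first coordinate of an integral cocycle satisfying the local condition. -/
theorem fst_cases (hL : LatSt) (hη : ∀ g ∈ D, R.η g = 0) (k : ℕ)
    (hk : ∀ g ∈ D, ‖(((R.r g : ℤ_[2]) : ℚ_[2]) - 1) * (2 ^ k)⁻¹‖ ≤ 1)
    (hk' : ∃ g ∈ D, ¬ ‖(((R.r g : ℤ_[2]) : ℚ_[2]) - 1) * (2 ^ k)⁻¹‖ ≤ 1 / 2) {i : ℤ} {t : G → V}
    (ht : R.Z D True i t) (hb : ∀ g ∈ D, ‖(t g).1‖ ≤ 1) :
    (∀ g ∈ D, par (t g).1 = 0) ∨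
      ∀ g ∈ D, par (t g).1 = par ((((R.r g : ℤ_[2]) : ℚ_[2]) - 1) * (2 ^ k)⁻¹) := by
  obtain ⟨-, u, hu⟩ := ht
  obtain ⟨g1, hg1, h1⟩ := hk'
  have e : ∀ g ∈ D, (t g).1 = (((R.r g : ℤ_[2]) : ℚ_[2]) - 1) * (2 ^ k)⁻¹ * (2 ^ k * u.1) := by
    intro g hg
    rw [(hu g hg).1, d1_fst R (hη g hg)]
    field_simp
  have hw : ‖(2 : ℚ_[2]) ^ k * u.1‖ ≤ 1 := by
    have h2 := hb g1 hg1
    rwa [e g1 hg1, norm_mul, eq_one (hk g1 hg1) h1, one_mul] at h2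
  by_cases h2 : ‖(2 : ℚ_[2]) ^ k * u.1‖ ≤ 1 / 2
  · exact Or.inl fun g hg => by rw [e g hg, par_mul hL (hk g hg) h2]
  · exact Or.inr fun g hg => by rw [e g hg, par_unit hL _ (eq_one hw h2)]

end DyAAux

open DyAAux in
theorem st_DyA (hL : LatSt) (hO : OmSt) (hA : AcSt) (hZ : ZSt) : DyASt := by
  intro G _ _ χ R D hη h0
  refine ⟨cls R D hL hO hη h0, ?_⟩
  have hex : ∃ n : ℕ, ¬ ∀ g ∈ D, ‖((R.r g : ℤ_[2]) : ℚ_[2]) - 1‖ ≤ 1 / 2 ^ (n + 1) := by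
    obtain ⟨g0, hg0, hr⟩ := h0
    by_contra hn
    push Not at hn
    refine r_ne R hr (small fun j => (hn j g0 hg0).trans ?_)
    gcongr
    · norm_num
    · omega
  obtain ⟨k, hk1, hk2⟩ : ∃ k : ℕ, (¬ ∀ g ∈ D, ‖((R.r g : ℤ_[2]) : ℚ_[2]) - 1‖ ≤ 1 / 2 ^ (k + 1)) ∧
      ∀ m < k, ∀ g ∈ D, ‖((R.r g : ℤ_[2]) : ℚ_[2]) - 1‖ ≤ 1 / 2 ^ (m + 1) :=
    ⟨Nat.find hex, Nat.find_spec hex, fun m hm => not_not.1 (Nat.find_min hex hm)⟩
  have hk0 : 1 ≤ k := by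
    rcases Nat.eq_zero_or_pos k with rfl | h
    · exact absurd (fun g _ => by simpa using r_le R hO g) hk1
    · exact h
  have hk3 : ∀ g ∈ D, ‖((R.r g : ℤ_[2]) : ℚ_[2]) - 1‖ ≤ 1 / 2 ^ k := by
    intro g hg
    have := hk2 (k - 1) (by omega) g hg
    rwa [Nat.sub_add_cancel hk0] at this
  have hp : (0 : ℝ) < 2 ^ k := by positivity
  have ha : ∀ g ∈ D, ‖(((R.r g : ℤ_[2]) : ℚ_[2]) - 1) * (2 ^ k)⁻¹‖ ≤ 1 := by
    intro g hg
    rw [norm_div, ← le_div_iff₀ hp]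
    exact hk3 g hg
  have ha' : ∀ g, ‖(((R.r g : ℤ_[2]) : ℚ_[2]) - 1) * (2 ^ k)⁻¹‖ ≤ 1 / 2 ↔
      ‖((R.r g : ℤ_[2]) : ℚ_[2]) - 1‖ ≤ 1 / 2 ^ (k + 1) := by
    intro g
    rw [norm_div, ← le_div_iff₀ hp, div_div, pow_succ']
  have ha2 : ∃ g ∈ D, ¬ ‖(((R.r g : ℤ_[2]) : ℚ_[2]) - 1) * (2 ^ k)⁻¹‖ ≤ 1 / 2 := by
    by_contra hn
    push Not at hn
    exact hk1 fun g hg => (ha' g).1 (hn g hg)
  obtain ⟨α, hα1, hα2⟩ : ∃ α : G → ZMod 2,
      (∀ g ∈ D, α g = par ((((R.r g : ℤ_[2]) : ℚ_[2]) - 1) * (2 ^ k)⁻¹)) ∧ ∀ g ∉ D, α g = 0 :=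
    ⟨res D fun g => par ((((R.r g : ℤ_[2]) : ℚ_[2]) - 1) * (2 ^ k)⁻¹),
      fun g hg => by simp [res, hg], fun g hg => by simp [res, hg]⟩
  have hp0 : par 0 = 0 := (par_zero hL 0).2 (by simp)
  have hαW : α ∈ R.W D True 0 := by
    have hm : ∀ g ∈ D, (((((R.r g : ℤ_[2]) : ℚ_[2]) - 1) * (2 ^ k)⁻¹, (0 : ℚ_[2])) : V) ∈ T 0 :=
      fun g hg => (mem0 hL _).2 ⟨ha g hg, by simp⟩
    refine (hZ.mem_W R D True 0 α).2 ⟨_, z_mk R D hA hη 0 (2 ^ k)⁻¹ (S := fun _ => 0)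
      continuousOn_const (fun _ _ _ _ => by simp) hm, funext fun g => ?_⟩
    by_cases hg : g ∈ D
    · simp only [res, hg, if_true]
      rw [lam0 hL (hm g hg), hp0, add_zero, hα1 g hg]
    · simp only [res, hg, if_false]
      exact hα2 g hg
  refine ⟨k, α, hk0, hZ.W_le R D True 0 hαW, ?_, hk3, fun g hg => ?_, fun f => ⟨fun hf => ?_, ?_⟩,
    fun f => ⟨fun hf => ?_, ?_⟩⟩
  · obtain ⟨g, hg, h1⟩ := ha2
    intro h
    apply h1
    rw [← par_zero hL, ← hα1 g hg, h]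
    rfl
  · rw [hα1 g hg, par_zero hL, ha']
  · refine ⟨hZ.W_le R D True 0 hf, ?_⟩
    obtain ⟨t, ht, rfl⟩ := (hZ.mem_W R D True 0 f).1 hf
    have hb := fun g hg => (mem0 hL _).1 (ht.1.2.1 g hg)
    rcases fst_cases R D hL hη k ha ha2 ht fun g hg => (hb g hg).1 with h | h
    · refine Or.inl (red_snd R D hL hη ht.1 (fun g hg => (hb g hg).2) fun g hg => ?_)
      simp only [res, hg, if_true]
      rw [lam0 hL (ht.1.2.1 g hg), h g hg, zero_add]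
    · refine Or.inr (red_snd R D hL hη ht.1 (fun g hg => (hb g hg).2) fun g hg => ?_)
      simp only [res, hg, if_true, Pi.add_apply]
      rw [lam0 hL (ht.1.2.1 g hg), h g hg, ← hα1 g hg]
      generalize α g = a
      generalize par (t g).2 = b
      revert a b; decide
  · rintro ⟨hf, h⟩
    have aux : ∀ f' ∈ Hm D, Red D R.s f' → f' ∈ R.W D True 0 := by
      rintro f' hf' ⟨S, hS1, hS2, hS3, hS4⟩
      have hm : ∀ g ∈ D, (((((R.r g : ℤ_[2]) : ℚ_[2]) - 1) * 0, S g) : V) ∈ T 0 :=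
        fun g hg => (mem0 hL _).2 ⟨by simp, hS2 g hg⟩
      refine (hZ.mem_W R D True 0 f').2 ⟨_, z_mk R D hA hη 0 0 hS1 hS3 hm, funext fun g => ?_⟩
      by_cases hg : g ∈ D
      · simp only [res, hg, if_true]
        rw [lam0 hL (hm g hg), mul_zero, hp0, zero_add]
        exact z2 (by rw [par_zero hL]; exact hS4 g hg)
      · simp only [res, hg, if_false]
        exact hf'.2 g hg
    rcases h with h | h
    · exact aux f hf h
    · have h1 := aux _ ((Hm D).add_mem hf (hZ.W_le R D True 0 hαW)) h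
      have h2 := (R.W D True 0).sub_mem h1 hαW
      rwa [add_sub_cancel_right] at h2
  · obtain ⟨t, ht, rfl⟩ := (hZ.mem_W R D True 1 f).1 hf
    have hb := fun g hg => (mem1 hL _).1 (ht.1.2.1 g hg)
    have hl := fun g hg => lam1 hL (ht.1.2.1 g hg)
    refine ⟨?_, red_snd R D hL hη ht.1 (fun g hg => (hb g hg).1.2) fun g hg => ?_⟩
    · rcases fst_cases R D hL hη k ha ha2 ht fun g hg => (hb g hg).1.1 with h | h
      · refine Or.inl (funext fun g => ?_)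
        by_cases hg : g ∈ D
        · simp only [res, hg, if_true]
          rw [(hl g hg).1, h g hg]
          rfl
        · simp [res, hg]
      · refine Or.inr (funext fun g => ?_)
        by_cases hg : g ∈ D
        · simp only [res, hg, if_true]
          rw [(hl g hg).1, h g hg, hα1 g hg]
        · simp only [res, hg, if_false]
          exact (hα2 g hg).symm
    · simp only [res, hg, if_true]
      rw [(hl g hg).1, (hl g hg).2]
  · rintro ⟨rfl | rfl, S, hS1, hS2, hS3, hS4⟩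
    · exact Submodule.zero_mem _
    · have hm : ∀ g ∈ D, (((((R.r g : ℤ_[2]) : ℚ_[2]) - 1) * (2 ^ k)⁻¹, S g) : V) ∈ T 1 := by
        intro g hg
        refine (mem1 hL _).2 ⟨⟨ha g hg, hS2 g hg⟩, ?_⟩
        rw [← par_zero hL, par_sub hL (ha g hg) (hS2 g hg), ← hα1 g hg]
        have h1 : f g = par (S g) := z2 (by rw [par_zero hL]; exact hS4 g hg)
        rw [← h1]
        generalize f g = a
        revert a; decide
      refine (hZ.mem_W R D True 1 f).2 ⟨_, z_mk R D hA hη 1 (2 ^ k)⁻¹ hS1 hS3 hm,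
        funext fun g => ?_⟩
      by_cases hg : g ∈ D
      · simp only [res, hg, if_true]
        rw [(lam1 hL (hm g hg)).1, hα1 g hg]
      · simp only [res, hg, if_false]
        exact hα2 g hg

end Pool.Agent.SC
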