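import Pool.Agent.Lib.MP_b4b3cb_nt.StG

/-! The decomposition field embeds into the completion. -/

namespace Pool.Agent.SC

open NumberField Pool.Agent.Stark
open scoped Classical Pointwise Topology NNReal

namespace EmbAux

/-- The valuation of a complete field extends to algebraic extensions, invariantly. -/
theorem exists_val (E L : Type) [NontriviallyNormedField E] [IsUltrametricDist E] [CompleteSpace E]
    [Field L] [Algebra E L] [Algebra.IsAlgebraic E L] :
    ∃ v : Valuation L ℝ≥0, (∀ k : E, (v (algebraMap E L k) : ℝ) = ‖k‖) ∧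
      ∀ (σ : L ≃ₐ[E] L) (x : L), v (σ x) = v x :=
  ⟨{ toFun := fun x => ⟨spectralNorm E L x, spectralNorm_nonneg x⟩
     map_zero' := NNReal.eq spectralNorm_zero
     map_one' := NNReal.eq spectralNorm_one
     map_mul' := fun x y => NNReal.eq (spectralAlgNorm_mul (K := E) x y)
     map_add_le_max' := fun x y => by
       rw [← NNReal.coe_le_coe, NNReal.coe_max]
       exact isNonarchimedean_spectralNorm (K := E) x y },
    spectralNorm_extends, fun σ x => NNReal.eq (spectralNorm_eq_of_equiv σ x).symm⟩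

theorem exists_val' {F : Type} [Field F] [NumberField F] (q : Pr F) (L : Type) [Field L]
    [Algebra (Kc q) L] [Algebra.IsAlgebraic (Kc q) L] :
    ∃ v : Valuation L ℝ≥0, (∀ k, v (algebraMap (Kc q) L k) ≤ 1 ↔ wv q k ≤ 1) ∧
      (∀ k, v (algebraMap (Kc q) L k) < 1 ↔ wv q k < 1) ∧
      ∀ (σ : L ≃ₐ[Kc q] L) (x : L), v (σ x) = v x := by
  let : NontriviallyNormedField (Kc q) := Valued.toNontriviallyNormedField (Kc q) _
  obtain ⟨v, h1, h2⟩ := exists_val (Kc q) L
  refine ⟨v, fun k => ?_, fun k => ?_, h2⟩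
  · rw [← NNReal.coe_le_coe, h1, NNReal.coe_one]
    exact Valued.toNormedField.norm_le_one_iff
  · rw [← NNReal.coe_lt_coe, h1, NNReal.coe_one]
    exact Valued.toNormedField.norm_lt_one_iff

theorem val_le_one {Ω L : Type} [Field Ω] [Field L] (v : Valuation L ℝ≥0) (j : Ω →+* L)
    (y : 𝓞 Ω) : v (j y) ≤ 1 := by
  have h : IsIntegral ℤ (j y) := (RingOfIntegers.isIntegral_coe y).map j.toIntAlgHom
  exact (Valuation.integer.integers v).mem_of_integral h.tower_top

/-- The prime of an embedding into a valued field. -/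
def prm {Ω L : Type} [Field Ω] [Field L] (v : Valuation L ℝ≥0) (j : Ω →+* L) : Ideal (𝓞 Ω) where
  carrier := {y | v (j y) < 1}
  add_mem' := fun {a b} ha hb => by
    have : v (j a + j b) < 1 := v.map_add_lt ha hb
    simpa using this
  zero_mem' := by simp
  smul_mem' := fun c a ha => by
    have : v (j c) * v (j a) < 1 := mul_lt_one_of_nonneg_of_lt_one_right (val_le_one v j c)
      (zero_le) ha
    simpa using this

theorem prm_prime {Ω L : Type} [Field Ω] [Field L] (v : Valuation L ℝ≥0) (j : Ω →+* L) :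
    (prm v j).IsPrime := by
  refine ⟨(Ideal.ne_top_iff_one _).2 fun h => ?_, fun {a b} h => ?_⟩
  · have : v (j (1 : 𝓞 Ω)) < 1 := h
    simp at this
  · have h1 : v (j (a * b : 𝓞 Ω)) < 1 := h
    by_contra c
    rw [not_or] at c
    have h2 : v (j a) = 1 := le_antisymm (val_le_one v j a) (not_lt.1 c.1)
    have h3 : v (j b) = 1 := le_antisymm (val_le_one v j b) (not_lt.1 c.2)
    simp [h2, h3] at h1

end EmbAux

variable {K Ω : Type} [Field K] [NumberField K] [Field Ω] [Algebra K Ω] [IsAlgClosed Ω]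
  [IsGalois K Ω] [CharZero Ω]

open EmbAux in
theorem st_Emb (hP : PrimeSt K Ω) : EmbSt K Ω := by
  intro F _ _ _ _ _ 𝔓 q hq
  let L := AlgebraicClosure (Kc q)
  have : IsGalois F Ω := IsGalois.tower_top_of_isGalois K F Ω
  have : CharZero (Kc q) := charZero_of_injective_algebraMap (algebraMap F (Kc q)).injective
  obtain ⟨v, v1, v2, v3⟩ := exists_val' q L
  let j0 : Ω →ₐ[F] L := IsAlgClosed.lift
  have h0 : ∀ x : 𝓞 F, x ∈ q.asIdeal ↔ algebraMap (𝓞 F) (𝓞 Ω) x ∈ prm v j0.toRingHom := fun x => by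
    change _ ↔ v (j0 (algebraMap F Ω x)) < 1
    rw [j0.commutes, IsScalarTower.algebraMap_apply F (Kc q) L, v2,
      show wv q (algebraMap F (Kc q) x) = q.valuation F x from
        q.valuedAdicCompletion_eq_valuation' _]
    exact (q.valuation_lt_one_iff_mem x).symm
  have h1 : Over (prm v j0.toRingHom) q := by
    refine ⟨?_, h0⟩
    have := prm_prime v j0.toRingHom
    refine Ideal.isMaximal_of_isIntegral_of_isMaximal_comap (R := 𝓞 F) _ ?_
    rw [show (prm v j0.toRingHom).comap (algebraMap (𝓞 F) (𝓞 Ω)) = q.asIdeal from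
      Ideal.ext fun x => (h0 x).symm]
    exact q.isMaximal
  obtain ⟨g, hg, hg'⟩ := hP.trans hq h1
  let j : Ω →ₐ[F] L := j0.comp { g.toRingEquiv.toRingHom with commutes' := hg }
  have hj : ∀ y : 𝓞 Ω, y ∈ 𝔓 ↔ v (j y) < 1 := fun y => by
    rw [← hP.mem_smul g, hg']
    change v (j0 (g • y : 𝓞 Ω)) < 1 ↔ _
    rw [hP.coe_smul]
    rfl
  have key : ∀ x, Fix (Dec K 𝔓 ⊓ Gs K Ω F) x →
      algebraMap (Kc q) L (Function.invFun (algebraMap (Kc q) L) (j x)) = j x := fun x hx => by
    refine Function.invFun_eq ((InfiniteGalois.mem_range_algebraMap_iff_fixed _).2 fun τ => ?_)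
    let : Algebra Ω L := j.toRingHom.toAlgebra
    have : IsScalarTower F Ω L := IsScalarTower.of_algebraMap_eq fun a => (j.commutes a).symm
    let σ : Ω ≃ₐ[F] Ω := (τ.restrictScalars F).restrictNormal Ω
    have hσ : ∀ z, j (σ z) = τ (j z) := (τ.restrictScalars F).restrictNormal_commutes Ω
    have hm : σ.restrictScalars K ∈ Dec K 𝔓 ⊓ Gs K Ω F := by
      refine ⟨(hP.mem_dec _ _).2 fun y => ?_, σ.commutes⟩
      rw [hj, hj, hP.coe_smul, AlgEquiv.restrictScalars_apply, hσ, v3]
    rw [← hσ]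
    exact congrArg j (hx _ hm)
  have inj := (algebraMap (Kc q) L).injective
  refine ⟨fun x => Function.invFun (algebraMap (Kc q) L) (j x), fun x y hx hy => ⟨inj ?_, inj ?_⟩,
    fun a => inj ?_, fun y hy => ?_⟩
  · rw [map_add, key x hx, key y hy, key _ fun g hg => by rw [map_add, hx g hg, hy g hg], map_add]
  · rw [map_mul, key x hx, key y hy, key _ fun g hg => by rw [map_mul, hx g hg, hy g hg], map_mul]
  · rw [key _ fun g hg => hg.2 a, j.commutes, IsScalarTower.algebraMap_apply F (Kc q) L]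
  · rw [← v1, ← v2, key _ hy]
    exact ⟨val_le_one v j.toRingHom y, hj y⟩

end Pool.Agent.SC
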