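import Pool.Agent.Lib.MP_b4b3cb_nt.StB

/-! The Heisenberg cochain is a cocycle modulo the integers. -/

namespace Pool.Agent.SC

open scoped Classical
open Module

namespace HeisAux

/-- The integers. -/
abbrev O : Subring ℚ_[2] := PadicInt.subring 2

lemma mem_O {x : ℚ_[2]} : x ∈ O ↔ ‖x‖ ≤ 1 := PadicInt.mem_subring_iff 2

/-- The quadratic section. -/
noncomputable def ss (i m : ℤ) (u : V) : ℚ_[2] := 2 ^ (m - 2) * qq (i + 2 * m - 1) u

variable {i m : ℤ} {u v : V}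

lemma norm_pow (hm : 1 ≤ m) : ‖(2 : ℚ_[2]) ^ (m - 2)‖ ≤ 2 := by
  have := Padic.norm_p_zpow (p := 2) (m - 2)
  rw [Nat.cast_ofNat, Nat.cast_ofNat] at this
  rw [this]
  exact (zpow_le_zpow_right₀ one_le_two (by omega : -(m - 2) ≤ 1)).trans_eq (zpow_one _)

lemma half (hm : 1 ≤ m) {y : ℚ_[2]} (h : ‖y‖ ≤ 1 / 2) : 2 ^ (m - 2) * y ∈ O := by
  rw [mem_O, norm_mul]
  exact (mul_le_mul (norm_pow hm) h (norm_nonneg _) zero_le_two).trans_eq (by norm_num)

lemma pow_eq (i m : ℤ) : (2 : ℚ_[2]) ^ (i + 2 * m - 1) = 2 ^ (m - 2) * 2 ^ (i + m + 1) := by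
  rw [← zpow_add₀ two_ne_zero]
  congr 1
  ring

variable (hO : OmSt) (hm : 1 ≤ m)
include hO hm

lemma ss_add (hu : u ∈ T (i + 2 * m - 1)) (hv : v ∈ T (i + 2 * m - 1)) :
    ss i m (u + v) - ss i m u - ss i m v - om u v / 2 ^ (i + m + 1) ∈ O := by
  convert half hm (hO.qq_add hu hv) using 1
  have : (2 : ℚ_[2]) ^ (m - 2) ≠ 0 := zpow_ne_zero _ two_ne_zero
  have : (2 : ℚ_[2]) ^ (i + m + 1) ≠ 0 := zpow_ne_zero _ two_ne_zero
  rw [pow_eq, ss, ss, ss]
  field_simp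

lemma ss_unit (r : ℤ_[2]ˣ) (hu : u ∈ T (i + 2 * m - 1)) :
    ((r : ℤ_[2]) : ℚ_[2]) * ss i m u - ss i m u ∈ O := by
  refine mem_O.2 ((hO.unit_half r _).trans ?_)
  rw [ss, norm_mul, div_le_one two_pos]
  exact (mul_le_mul (norm_pow hm) (hO.qq_le hu) (norm_nonneg _) zero_le_two).trans_eq (mul_one _)

lemma ss_ac {G : Type} [Group G] [TopologicalSpace G] {χ : G →* ℤ_[2]ˣ} (R : Rp χ) (g : G)
    (hu : u ∈ T (i + 2 * m - 1)) : ss i m (R.ac g u) - ss i m u ∈ O := by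
  rw [ss, ss, ← mul_sub]
  exact half hm (hO.qq_mon _ _ _ hu)

end HeisAux

open HeisAux

theorem st_Heis (hL : LatSt) (hO : OmSt) (hA : AcSt) (hZ : ZSt) : HeisSt where
  coc := by
    intro G _ _ χ R i m x hm hx g h l
    have t0 : ∀ g h, R.d2 x g h ∈ T (i + 2 * m) := fun g h => hx.2.2 g trivial h trivial
    have t1 : ∀ g h, R.d2 x g h ∈ T (i + 2 * m - 1) := fun g h => hL.anti (by omega) (t0 g h)
    have q0 : R.ac g (R.d2 x h l) ∈ T (i + 2 * m) := (hA.mem R g _ _).2 (t0 h l)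
    have q1 : R.ac g (R.d2 x h l) ∈ T (i + 2 * m - 1) := (hA.mem R g _ _).2 (t1 h l)
    have e0 := hA.dd R x g h l
    have a1 := ss_unit hO hm (χ g) (t1 h l)
    have a2 := ss_ac hO hm R g (t1 h l)
    have a3 := ss_add hO hm q1 (t1 g (h * l))
    have a4 := ss_add hO hm (t1 (g * h) l) (t1 g h)
    have a5 := mem_O.2 (hO.om_div (n := i + m + 1) q0 (t0 g (h * l)) (by omega))
    have a6 := mem_O.2 (hO.om_div (n := i + m + 1) (t0 (g * h) l) (t0 g h) (by omega))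
    have a7 := mem_O.2 (hO.om_div (n := i + m) q0 (hx.2.1 g trivial) (by omega))
    have a8 := mem_O.2 (hO.om_div (n := i + m + 1) (sub_mem q0 (t0 g h))
      (add_mem (t0 g h) (t0 (g * h) l)) (by omega))
    rw [e0] at a3
    have e1 : x (g * h) = x g + R.ac g (x h) - R.d2 x g h := by rw [Rp.d2]; abel
    have e2 : R.ac g (x (h * l)) = R.ac g (x h) + R.ac (g * h) (x l) - R.ac g (R.d2 x h l) := by
      rw [Rp.d2, (hA.lin R g).map_sub, (hA.lin R g).map_add, hA.mul]; abel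
    have e3 : x (g * h * l) = x (g * h) + R.ac (g * h) (x l) - R.d2 x (g * h) l := by
      rw [Rp.d2]; abel
    have e4 : R.d2 x g (h * l) = R.d2 x (g * h) l + R.d2 x g h - R.ac g (R.d2 x h l) := by
      rw [← e0]; abel
    have key : ((χ g : ℤ_[2]) : ℚ_[2]) * (om (x h) (R.ac h (x l)) - om (R.d2 x h l) (x (h * l))) -
        (om (x (g * h)) (R.ac (g * h) (x l)) - om (R.d2 x (g * h) l) (x (g * h * l))) +
        (om (x g) (R.ac g (x (h * l))) - om (R.d2 x g (h * l)) (x (g * (h * l)))) -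
        (om (x g) (R.ac g (x h)) - om (R.d2 x g h) (x (g * h))) =
        2 * om (R.ac g (R.d2 x h l)) (x g) -
          om (R.ac g (R.d2 x h l) - R.d2 x g h) (R.d2 x g h + R.d2 x (g * h) l) := by
      rw [mul_sub, ← hA.om_ac R g, ← hA.om_ac R g, ← hA.mul, ← mul_assoc, e4, e3, e2, e1]
      simp only [om, Prod.fst_add, Prod.snd_add, Prod.fst_sub, Prod.snd_sub]
      ring
    refine mem_O.1 ?_
    convert sub_mem (sub_mem (sub_mem (add_mem (add_mem (add_mem (sub_mem a7 a8) a2) a3) a5) a1) a4)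
      a6 using 1
    simp only [heis, ss]
    rw [zpow_add_one₀ two_ne_zero]
    linear_combination (2 ^ (i + m) * 2 : ℚ_[2])⁻¹ * key +
      om (R.ac g (R.d2 x h l)) (x g) * (2 ^ (i + m) : ℚ_[2])⁻¹ *
        mul_inv_cancel₀ (two_ne_zero (α := ℚ_[2]))
  loc := by
    intro G _ _ χ R i m x t D dy hm hd hx ht ha
    obtain ⟨f, f1, f2⟩ := hZ.cup R D dy hd ht ht
    have c1 : ContinuousOn (fun g => x g - t g) D := (hx.1.mono fun _ _ => trivial).sub ht.1.1
    have c2 := ht.1.1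
    refine ⟨fun g => f g / 2 ^ (i + m + 1) -
      (ss i m (x g - t g) + om (x g - t g) (t g) / 2 ^ (i + m + 1)), (f1.div_const _).sub
        ((continuousOn_const.mul ((hO.qq_cont _).comp_continuousOn c1)).add
          (((c1.fst.mul c2.snd).sub (c1.snd.mul c2.fst)).div_const _)), fun g hg h hh => ?_⟩
    have t1 : R.d2 x g h ∈ T (i + 2 * m - 1) := hL.anti (by omega) (hx.2.2 g trivial h trivial)
    have q1 : R.ac g (x h - t h) ∈ T (i + 2 * m - 1) := (hA.mem R g _ _).2 (ha h hh)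
    have e1 : t (g * h) = t g + R.ac g (t h) := (sub_eq_zero.1 (ht.1.2.2 g hg h hh)).symm
    have e0 : R.d2 x g h + (x (g * h) - t (g * h)) = x g - t g + R.ac g (x h - t h) := by
      rw [Rp.d2, e1, (hA.lin R g).map_sub]; abel
    have a1 := ss_unit hO hm (χ g) (ha h hh)
    have a2 := ss_ac hO hm R g (ha h hh)
    have a3 := ss_add hO hm (ha g hg) q1
    have a4 := ss_add hO hm t1 (ha _ (mul_mem hg hh))
    have a5 := mem_O.2 (hO.om_lam (k := i + m - 1) (ht.1.2.1 g hg) q1 (by omega))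
    rw [e0] at a4
    rw [hA.lam_ac, ← hL.lam_congr (hL.anti (by omega) (ha g hg)), sub_add_cancel] at a5
    have key : om (x g) (R.ac g (x h)) - om (R.d2 x g h) (x (g * h)) - dq χ f g h +
        (om (x g - t g) (t g) + ((χ g : ℤ_[2]) : ℚ_[2]) * om (x h - t h) (t h) -
          om (x (g * h) - t (g * h)) (t (g * h))) = 2 * om (t g) (R.ac g (x h - t h)) +
        om (x g - t g) (R.ac g (x h - t h)) - om (R.d2 x g h) (x (g * h) - t (g * h)) := by
      rw [← f2 g hg h hh, ← hA.om_ac R g, Rp.d2, e1, (hA.lin R g).map_sub]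
      simp only [om, Prod.fst_add, Prod.snd_add, Prod.fst_sub, Prod.snd_sub]
      ring
    refine mem_O.1 ?_
    convert sub_mem (add_mem (sub_mem (add_mem a5 a1) a2) a4) a3 using 1
    simp only [heis, ss, dq] at key ⊢
    rw [zpow_add_one₀ two_ne_zero]
    linear_combination (2 ^ (i + m) * 2 : ℚ_[2])⁻¹ * key +
      om (t g) (R.ac g (x h - t h)) * (2 ^ (i + m) : ℚ_[2])⁻¹ *
        mul_inv_cancel₀ (two_ne_zero (α := ℚ_[2]))

end Pool.Agent.SC
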