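import Pool.Agent.Lib.MP_b4b3cb_nt.StA

/-! The facts on the chain of lattices. -/

namespace Pool.Agent.SC

open scoped Classical
open Module

namespace LatAux

theorem mem_T {i : ℤ} {u : V} : u ∈ T i ↔
    ‖u.1‖ ≤ (2 : ℝ) ^ (-(i / 2)) ∧ ‖u.1 - u.2‖ ≤ (2 : ℝ) ^ (-((i + 1) / 2)) := Iff.rfl

theorem mem_even {k : ℤ} {u : V} : u ∈ T (2 * k) ↔
    ‖u.1‖ ≤ (2 : ℝ) ^ (-k) ∧ ‖u.1 - u.2‖ ≤ (2 : ℝ) ^ (-k) := by
  rw [mem_T, show 2 * k / 2 = k by omega, show (2 * k + 1) / 2 = k by omega]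

theorem mem_odd {k : ℤ} {u : V} : u ∈ T (2 * k + 1) ↔
    ‖u.1‖ ≤ (2 : ℝ) ^ (-k) ∧ ‖u.1 - u.2‖ ≤ (2 : ℝ) ^ (-(k + 1)) := by
  rw [mem_T, show (2 * k + 1) / 2 = k by omega, show (2 * k + 1 + 1) / 2 = k + 1 by omega]

theorem mem_even' {k : ℤ} {u : V} : u ∈ T (2 * k + 1 + 1) ↔
    ‖u.1‖ ≤ (2 : ℝ) ^ (-(k + 1)) ∧ ‖u.1 - u.2‖ ≤ (2 : ℝ) ^ (-(k + 1)) := by
  rw [show 2 * k + 1 + 1 = 2 * (k + 1) by ring, mem_even]

theorem split (i : ℤ) : ∃ k : ℤ, i = 2 * k ∨ i = 2 * k + 1 := ⟨i / 2, by omega⟩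

theorem pow_mono {a b : ℤ} (h : a ≤ b) : (2 : ℝ) ^ (-b) ≤ (2 : ℝ) ^ (-a) :=
  zpow_le_zpow_right₀ (by norm_num) (by omega)

theorem norm_two_zpow (k : ℤ) : ‖(2 : ℚ_[2]) ^ k‖ = (2 : ℝ) ^ (-k) := by
  have := Padic.norm_p_zpow (p := 2) k
  simpa using this

theorem norm_two : ‖(2 : ℚ_[2])‖ = (2 : ℝ) ^ (-1 : ℤ) := by
  have := norm_two_zpow 1
  simpa using this

theorem le_iff_lt (x : ℚ_[2]) (k : ℤ) : ‖x‖ ≤ (2 : ℝ) ^ (-(k + 1)) ↔ ‖x‖ < (2 : ℝ) ^ (-k) := by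
  have := Padic.norm_le_pow_iff_norm_lt_pow_add_one x (-(k + 1))
  rw [show -(k + 1) + 1 = -k by ring] at this
  simpa using this

theorem key_int (a b : ℤ_[2]) (ha : ¬ ‖a‖ < 1) (hb : ¬ ‖b‖ < 1) : ‖a + b‖ < 1 := by
  have hk : ∀ z : ℤ_[2], ‖z‖ < 1 ↔ PadicInt.toZMod z = 0 := by
    intro z
    rw [← RingHom.mem_ker, PadicInt.ker_toZMod, IsLocalRing.mem_maximalIdeal,
      PadicInt.mem_nonunits]
  rw [hk] at ha hb ⊢
  rw [map_add]
  generalize PadicInt.toZMod a = s at ha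
  generalize PadicInt.toZMod b = t at hb
  revert s t
  decide

theorem key {x y : ℚ_[2]} {k : ℤ} (hx : ‖x‖ ≤ (2 : ℝ) ^ (-k)) (hy : ‖y‖ ≤ (2 : ℝ) ^ (-k))
    (hx' : ¬ ‖x‖ ≤ (2 : ℝ) ^ (-(k + 1))) (hy' : ¬ ‖y‖ ≤ (2 : ℝ) ^ (-(k + 1))) :
    ‖x + y‖ ≤ (2 : ℝ) ^ (-(k + 1)) := by
  rw [le_iff_lt] at hx' hy' ⊢
  have hp : (0 : ℝ) < (2 : ℝ) ^ (-k) := by positivity
  have hn : ∀ z : ℚ_[2], ‖z / 2 ^ k‖ = ‖z‖ / (2 : ℝ) ^ (-k) := by
    intro z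
    rw [norm_div, norm_two_zpow]
  have h1 : ‖x / 2 ^ k‖ ≤ 1 := by rw [hn, div_le_one hp]; exact hx
  have h2 : ‖y / 2 ^ k‖ ≤ 1 := by rw [hn, div_le_one hp]; exact hy
  have h3 := key_int ⟨x / 2 ^ k, h1⟩ ⟨y / 2 ^ k, h2⟩
    (by change ¬ ‖x / 2 ^ k‖ < 1; rw [hn, div_lt_one hp]; exact hx')
    (by change ¬ ‖y / 2 ^ k‖ < 1; rw [hn, div_lt_one hp]; exact hy')
  change ‖x / 2 ^ k + y / 2 ^ k‖ < 1 at h3
  rwa [← add_div, hn, div_lt_one hp] at h3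

theorem anti {i j : ℤ} (h : i ≤ j) : T j ≤ T i := fun _ hu =>
  mem_T.2 ⟨(mem_T.1 hu).1.trans (pow_mono (by omega)), (mem_T.1 hu).2.trans (pow_mono (by omega))⟩

theorem add_sub_eq (u v : V) : (u + v).1 - (u + v).2 = (u.1 - u.2) + (v.1 - v.2) := by
  simp only [Prod.fst_add, Prod.snd_add]; ring

theorem key2 {i : ℤ} {u v : V} (hu : u ∈ T i) (hv : v ∈ T i) (hu' : u ∉ T (i + 1))
    (hv' : v ∉ T (i + 1)) : u + v ∈ T (i + 1) := by
  have huv := (T i).add_mem hu hv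
  obtain ⟨k, rfl | rfl⟩ := split i
  · rw [mem_even] at hu hv huv
    rw [mem_odd] at hu' hv' ⊢
    refine ⟨huv.1, ?_⟩
    rw [add_sub_eq]
    exact key hu.2 hv.2 (fun h => hu' ⟨hu.1, h⟩) (fun h => hv' ⟨hv.1, h⟩)
  · rw [mem_odd] at hu hv huv
    rw [mem_even'] at hu' hv' ⊢
    refine ⟨?_, huv.2⟩
    exact key hu.1 hv.1 (fun h => hu' ⟨h, hu.2⟩) (fun h => hv' ⟨h, hv.2⟩)

theorem norm_two_mul_le (x : ℚ_[2]) (k : ℤ) :
    ‖2 * x‖ ≤ (2 : ℝ) ^ (-(k + 1)) ↔ ‖x‖ ≤ (2 : ℝ) ^ (-k) := by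
  rw [norm_mul, norm_two, show -(k + 1) = -1 + -k by ring, zpow_add₀ (by norm_num)]
  exact mul_le_mul_iff_right₀ (by positivity)

theorem two (i : ℤ) (u : V) : (2 : ℚ_[2]) • u ∈ T (i + 2) ↔ u ∈ T i := by
  rw [mem_T, mem_T, show (i + 2) / 2 = i / 2 + 1 by omega,
    show (i + 2 + 1) / 2 = (i + 1) / 2 + 1 by omega]
  simp only [Prod.smul_fst, Prod.smul_snd, smul_eq_mul]
  rw [← mul_sub, norm_two_mul_le, norm_two_mul_le]

theorem smul (i : ℤ) (c : ℚ_[2]) (u : V) (hc : ‖c‖ ≤ 1) (hu : u ∈ T i) : c • u ∈ T i := by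
  rw [mem_T] at hu ⊢
  simp only [Prod.smul_fst, Prod.smul_snd, smul_eq_mul]
  rw [← mul_sub, norm_mul, norm_mul]
  exact ⟨(mul_le_of_le_one_left (norm_nonneg _) hc).trans hu.1,
    (mul_le_of_le_one_left (norm_nonneg _) hc).trans hu.2⟩

theorem lam_of_mem {i : ℤ} {u : V} (h : u ∈ T (i + 1)) : lam i u = 0 := if_pos h

theorem lam_of_not {i : ℤ} {u : V} (h : u ∉ T (i + 1)) : lam i u = 1 := if_neg h

theorem lam_zero (i : ℤ) (u : V) : lam i u = 0 ↔ u ∈ T (i + 1) := by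
  by_cases h : u ∈ T (i + 1)
  · simp [lam_of_mem h, h]
  · simp [lam_of_not h, h]

theorem lam_iff {i j : ℤ} {u v : V} (h : u ∈ T (i + 1) ↔ v ∈ T (j + 1)) : lam i u = lam j v := by
  by_cases hv : v ∈ T (j + 1)
  · rw [lam_of_mem hv, lam_of_mem (h.2 hv)]
  · rw [lam_of_not hv, lam_of_not (fun hu => hv (h.1 hu))]

theorem lam_add {i : ℤ} {u v : V} (hu : u ∈ T i) (hv : v ∈ T i) :
    lam i (u + v) = lam i u + lam i v := by
  by_cases h1 : u ∈ T (i + 1) <;> by_cases h2 : v ∈ T (i + 1)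
  · rw [lam_of_mem h1, lam_of_mem h2, lam_of_mem ((T _).add_mem h1 h2), add_zero]
  · rw [lam_of_mem h1, zero_add]
    exact lam_iff ((T _).add_mem_cancel_left h1)
  · rw [lam_of_mem h2, add_zero]
    exact lam_iff ((T _).add_mem_cancel_right h2)
  · rw [lam_of_not h1, lam_of_not h2, lam_of_mem (key2 hu hv h1 h2)]
    decide

theorem lam_neg (i : ℤ) (u : V) : lam i (-u) = lam i u := lam_iff neg_mem_iff

theorem lam_sub {i : ℤ} {u v : V} (hu : u ∈ T i) (hv : v ∈ T i) :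
    lam i (u - v) = lam i u + lam i v := by
  rw [sub_eq_add_neg, lam_add hu ((T i).neg_mem hv), lam_neg]

theorem lam_congr {i : ℤ} {u v : V} (h : u - v ∈ T (i + 1)) : lam i u = lam i v := by
  refine lam_iff ⟨fun hu => ?_, fun hv => ?_⟩
  · simpa using (T _).sub_mem hu h
  · simpa using (T _).add_mem h hv

theorem lam_two (i : ℤ) (u : V) : lam (i + 2) ((2 : ℚ_[2]) • u) = lam i u :=
  lam_iff (by rw [show i + 2 + 1 = i + 1 + 2 by ring]; exact two _ _)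

theorem not_le_pow (k : ℤ) : ¬ (2 : ℝ) ^ (-k) ≤ (2 : ℝ) ^ (-(k + 1)) := by
  rw [not_le]
  exact zpow_lt_zpow_right₀ (by norm_num) (by omega)

theorem ex0 (i : ℤ) : ∃ e ∈ T i, e ∉ T (i + 1) := by
  obtain ⟨k, rfl | rfl⟩ := split i
  · refine ⟨((2 : ℚ_[2]) ^ k, 0), ?_, ?_⟩
    · rw [mem_even]
      simp only [sub_zero, norm_two_zpow, le_refl, and_self]
    · rw [mem_odd]
      simp only [sub_zero, norm_two_zpow]
      exact fun h => not_le_pow k h.2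
  · refine ⟨((2 : ℚ_[2]) ^ k, (2 : ℚ_[2]) ^ k), ?_, ?_⟩
    · rw [mem_odd]
      simp only [sub_self, norm_zero, norm_two_zpow, le_refl, true_and]
      positivity
    · rw [mem_even']
      simp only [norm_two_zpow]
      exact fun h => not_le_pow k h.1

theorem zmod_cases (c : ZMod 2) : c = 0 ∨ c = 1 := by
  revert c
  decide

theorem ex (i : ℤ) :
    ∃ e ∈ T i, ∀ c : ZMod 2, (c.val : ℚ_[2]) • e ∈ T i ∧ lam i ((c.val : ℚ_[2]) • e) = c := by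
  obtain ⟨e, he, he'⟩ := ex0 i
  refine ⟨e, he, fun c => ?_⟩
  rcases zmod_cases c with rfl | rfl
  · rw [ZMod.val_zero, Nat.cast_zero, zero_smul]
    exact ⟨(T _).zero_mem, lam_of_mem (T _).zero_mem⟩
  · rw [show (1 : ZMod 2).val = 1 from rfl, Nat.cast_one, one_smul]
    exact ⟨he, lam_of_not he'⟩

theorem ball_open (k : ℤ) : IsOpen {x : ℚ_[2] | ‖x‖ ≤ (2 : ℝ) ^ (-k)} := by
  have : {x : ℚ_[2] | ‖x‖ ≤ (2 : ℝ) ^ (-k)} = {x : ℚ_[2] | ‖x‖ < (2 : ℝ) ^ (-(k - 1))} := by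
    ext x
    have := le_iff_lt x (k - 1)
    rw [sub_add_cancel] at this
    exact this
  rw [this]
  exact isOpen_lt continuous_norm continuous_const

theorem isOpen (i : ℤ) : IsOpen (T i : Set V) :=
  ((ball_open (i / 2)).preimage continuous_fst).inter
    ((ball_open ((i + 1) / 2)).preimage (continuous_fst.sub continuous_snd))

theorem isClosed (i : ℤ) : IsClosed (T i : Set V) :=
  (isClosed_le (continuous_norm.comp continuous_fst) continuous_const).inter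
    (isClosed_le (continuous_norm.comp (continuous_fst.sub continuous_snd)) continuous_const)

theorem norm_sub_le (x y : ℚ_[2]) : ‖x - y‖ ≤ max ‖x‖ ‖y‖ := by
  have := IsUltrametricDist.norm_add_le_max x (-y)
  rwa [norm_neg, ← sub_eq_add_neg] at this

theorem norm_aux (u : V) (r : ℝ) : ‖u‖ ≤ r ↔ ‖u.1‖ ≤ r ∧ ‖u.1 - u.2‖ ≤ r := by
  rw [Prod.norm_def, max_le_iff]
  refine ⟨fun h => ⟨h.1, (norm_sub_le _ _).trans (max_le h.1 h.2)⟩, fun h => ⟨h.1, ?_⟩⟩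
  have := norm_sub_le u.1 (u.1 - u.2)
  rw [sub_sub_cancel] at this
  exact this.trans (max_le h.1 h.2)

theorem norm_iff (k : ℤ) (u : V) : u ∈ T (2 * k) ↔ ‖u‖ ≤ (2 : ℝ) ^ (-k) := by
  rw [mem_even, norm_aux]

theorem odd_iff (k : ℤ) (u : V) : u ∈ T (2 * k + 1) ↔
    ‖u‖ ≤ (2 : ℝ) ^ (-k) ∧ ‖u.1 - u.2‖ ≤ (2 : ℝ) ^ (-(k + 1)) := by
  rw [mem_odd, norm_aux]
  exact ⟨fun h => ⟨⟨h.1, h.2.trans (pow_mono (by omega))⟩, h.2⟩, fun h => ⟨h.1.1, h.2⟩⟩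

theorem sep (u : V) (h : ∀ i, u ∈ T i) : u = 0 := by
  by_contra hu
  have hp : 0 < ‖u‖ := norm_pos_iff.2 hu
  obtain ⟨n, hn⟩ := exists_pow_lt_of_lt_one hp (show (1 / 2 : ℝ) < 1 by norm_num)
  have h1 := (norm_iff n u).1 (h _)
  rw [zpow_neg, zpow_natCast, ← inv_pow, ← one_div] at h1
  exact absurd hn (not_lt.2 h1)

theorem exh (u : V) : ∃ i, u ∈ T i := by
  obtain ⟨n, hn⟩ := pow_unbounded_of_one_lt ‖u‖ (show (1 : ℝ) < 2 by norm_num)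
  refine ⟨2 * (-(n : ℤ)), (norm_iff _ u).2 ?_⟩
  rw [neg_neg, zpow_natCast]
  exact hn.le

theorem index (i : ℤ) : (T (i + 1)).relIndex (T i) = 2 := by
  obtain ⟨e, he, he'⟩ := ex0 i
  rw [AddSubgroup.relIndex, AddSubgroup.index_eq_two_iff_exists_notMem_and]
  refine ⟨⟨e, he⟩, he', fun b => ?_⟩
  by_cases hb : (b : V) ∈ T (i + 1)
  · exact Or.inr hb
  · exact Or.inl (key2 b.2 he hb he')

theorem lam_cont (i : ℤ) : Continuous (lam i) := by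
  refine IsLocallyConstant.continuous ?_
  rw [IsLocallyConstant.iff_exists_open]
  intro u
  by_cases h : u ∈ T (i + 1)
  · exact ⟨T (i + 1), isOpen _, h, fun v hv => by rw [lam_of_mem h, lam_of_mem hv]⟩
  · exact ⟨(T (i + 1) : Set V)ᶜ, (isClosed _).isOpen_compl, h,
      fun v hv => by rw [lam_of_not h, lam_of_not hv]⟩

end LatAux

theorem st_Lat : LatSt where
  anti := LatAux.anti
  two := LatAux.two
  smul := LatAux.smul
  lam_add := LatAux.lam_add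
  lam_sub := LatAux.lam_sub
  lam_neg := LatAux.lam_neg
  lam_zero := LatAux.lam_zero
  lam_congr := LatAux.lam_congr
  lam_two := LatAux.lam_two
  ex := LatAux.ex
  isOpen := LatAux.isOpen
  isClosed := LatAux.isClosed
  sep := LatAux.sep
  exh := LatAux.exh
  norm_iff := LatAux.norm_iff
  odd_iff := LatAux.odd_iff
  index := LatAux.index
  lam_cont := LatAux.lam_cont

end Pool.Agent.SC
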