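import Pool.Agent.Lib.MP_b4b3cb_nt.StG

/-! The local-global principle over `K` and reciprocity for classes that are locally symbols. -/

namespace Pool.Agent.SC

open NumberField Pool.Agent.Stark
open scoped Classical Pointwise Topology

namespace RecAux

theorem symz_eq (hS : SzSt) {G : Type} [Group G] [TopologicalSpace G] {D : Subgroup G}
    {y a b : G → ZMod 2} (h : Sz D (cup y a + cup y b)) : symz D y a = symz D y b := by
  have e : Sz D (cup y a) ↔ Sz D (cup y b) := by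
    constructor
    · intro h'
      refine hS.congr (hS.add h' h) fun g _ k _ => ?_
      simp only [Pi.add_apply]
      rw [← add_assoc, CharTwo.add_self_eq_zero, zero_add]
    · intro h'
      refine hS.congr (hS.add h h') fun g _ k _ => ?_
      simp only [Pi.add_apply]
      rw [add_assoc, CharTwo.add_self_eq_zero, add_zero]
  simp only [symz, e]

theorem sum_hp {K : Type} [Field K] [NumberField K] {a b : K} (ha : a ≠ 0) (hb : b ≠ 0)
    (S : Finset (Pl K)) (hS : ∀ v ∉ S, hp v a b = 0) : ∑ v ∈ S, hp v a b = 0 := by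
  have h := reciprocity ha hb S.toLeft fun q hq => hS (Sum.inl q) (by simpa using hq)
  rw [← Finset.toLeft_disjSum_toRight (u := S), Finset.sum_disjSum, add_comm, ← h]
  congr 1
  exact Finset.sum_subset (Finset.subset_univ _) fun φ _ hφ =>
    hS (Sum.inr φ) (by simpa using hφ)

variable {K Ω : Type} [Field K] [Field Ω] [Algebra K Ω]

theorem rt_ne [IsAlgClosed Ω] {a : K} (ha : a ≠ 0) : rt Ω a ≠ 0 := fun h => by
  have e := rt_sq (Ω := Ω) a
  rw [h, zero_pow two_ne_zero, eq_comm, map_eq_zero] at e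
  exact ha e

theorem rt_fix [IsAlgClosed Ω] (H : Subgroup (Ω ≃ₐ[K] Ω)) (a : K) : Fix H (rt Ω a ^ 2) :=
  fun g _ => by rw [rt_sq, g.commutes]

theorem normal {r : Ω} (h : Fix (⊤ : Subgroup (Ω ≃ₐ[K] Ω)) (r ^ 2)) :
    (MulAction.stabilizer (Ω ≃ₐ[K] Ω) r).Normal := ⟨fun n hn g => by
  have hn' : n r = r := hn
  have e : g⁻¹ r ^ 2 = r ^ 2 := by rw [← map_pow]; exact h _ trivial
  have e' : n (g⁻¹ r) = g⁻¹ r := by
    rcases sq_eq_sq_iff_eq_or_eq_neg.1 e with e | e <;> simp only [e, map_neg, hn']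
  change g (n (g⁻¹ r)) = r
  rw [e']
  exact g.apply_symm_apply r⟩

end RecAux

variable {K Ω : Type} [Field K] [NumberField K] [Field Ω] [Algebra K Ω] [IsAlgClosed Ω]
  [IsGalois K Ω] [CharZero Ω]

theorem st_AbhnK (hA : AbhnSt K Ω) (hB : BrSt K Ω) (hP : PrimeSt K Ω) (hC : CjSt K Ω) :
    AbhnKSt K Ω := by
  intro π H c k hH hN hc hk hv
  refine hA H c k hH (hB.coc_mono hc le_top) (fun g _ h _ => hk g h) (fun 𝔓 h𝔓 => ?_)
    fun j g hg hj => ?_
  · obtain ⟨q, hq⟩ := hP.under K 𝔓 h𝔓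
    obtain ⟨σ, -, rfl⟩ := hP.trans (π.hov q) hq
    refine hB.conj (σ := σ) hc le_top trivial (fun g hg => ?_) (hv (Sum.inl q))
    exact ⟨(hP.dec_conj _ σ g).1 hg.1, hN.conj_mem' g hg.2 σ⟩
  · obtain ⟨φ, hφ⟩ := hC.real hj
    obtain ⟨σ, hσ⟩ := hC.conj (π.hc φ) hj fun a => (π.hj φ a).trans (hφ a).symm
    refine hB.conj (σ := σ) hc le_top trivial (fun h hh => ?_) (hv (Sum.inr φ))
    refine ⟨?_, hN.conj_mem' h (Subgroup.zpowers_le.2 hg hh) σ⟩
    rcases ((hC.sq hj).2.1 h).1 hh with rfl | rfl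
    · rw [mul_one, inv_mul_cancel]
      exact one_mem _
    · rw [hσ]
      exact Subgroup.mem_zpowers _

theorem st_Rec (hA : AbhnKSt K Ω) (hS : SzSt) (hK : KumSt K Ω) (hB : BrSt K Ω) (hQ : QuadSt K Ω)
    (hD : DictSt K Ω) : RecSt K Ω := by
  intro π c k y a hc hk hy _ hv S hS0
  obtain ⟨a₀, ha₀, rfl⟩ := hD.glob y hy
  have hN : Spl (MulAction.stabilizer (Ω ≃ₐ[K] Ω) (rt Ω a₀)) c := by
    refine hA π _ c k (stabilizer_isOpen_of_isIntegral _) (RecAux.normal (RecAux.rt_fix ⊤ a₀)) hc hk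
      fun v => hB.congr (hB.mono (hv v) inf_le_left) fun g hg h _ => ?_
    have e : g (rt Ω a₀) = rt Ω a₀ := hg.2
    simp only [Pi.mul_apply, sgc, cup, kr, e, if_true, zero_mul, sg_zero, mul_one]
  obtain ⟨s, hs0, hs, hsp⟩ := hQ ⊤ _ (rt Ω a₀) c isClosed_univ (RecAux.rt_ne ha₀)
    (RecAux.rt_fix ⊤ a₀) (fun g => ⟨fun h => ⟨trivial, h⟩, fun h => h.2⟩) hc hN
  obtain ⟨b, hb⟩ := (InfiniteGalois.mem_range_algebraMap_iff_fixed (k := K) (s ^ 2)).2
    fun g => hs g trivial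
  have hb0 : b ≠ 0 := fun h => pow_ne_zero 2 hs0 (by rw [← hb, h, map_zero])
  have hsb : kr (K := K) s = kr (rt Ω b) := funext fun g =>
    hK.sq (H := ⊤) (t := 1) hs0 (RecAux.rt_ne hb0) (fun g _ => map_one g)
      (by rw [rt_sq, hb, one_pow, mul_one]) g trivial
  rw [hsb] at hsp
  have key : ∀ v, symz (π.D v) (kr (rt Ω a₀)) (a v) = hp v a₀ b := fun v => by
    rw [← hD.sym π v ha₀ hb0]
    refine RecAux.symz_eq hS ((hB.sz (hD.closed π v)).1 (hB.cancel (hv v) ?_))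
    refine hB.congr (hB.mono hsp le_top) fun g _ h _ => ?_
    simp only [Pi.mul_apply, sgc, Pi.add_apply, sg_add]
    rw [mul_assoc, ← mul_assoc (sg Ω _), sg_mul_self, one_mul]
  simp only [key] at hS0 ⊢
  exact RecAux.sum_hp ha₀ hb0 S hS0

end Pool.Agent.SC
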