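import Pool.Agent.Lib.MP_b4b3cb_nt.StF

/-! Poisson summation for an ideal. -/

namespace Pool.Agent.SC

open NumberField Pool.Agent.Stark
open scoped Classical ComplexConjugate

namespace PoisLAux

theorem pois (hP : PoisSt) {κ : Type} [Fintype κ] [I : DecidableEq (κ ⊕ κ)] (m : κ → ℕ)
    (B : Matrix (κ ⊕ κ) (κ ⊕ κ) ℝ) (hB : B.det ≠ 0) (c : κ ⊕ κ → ℝ) :
    (Summable fun n : κ ⊕ κ → ℤ => ‖fm m (lpt B n + c)‖) ∧
      ∑' n : κ ⊕ κ → ℤ, fm m (lpt B n + c) = (-Complex.I) ^ (∑ k, m k) / (|B.det| : ℝ) *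
        ∑' n : κ ⊕ κ → ℤ, fm m (lpt (B⁻¹).transpose n) *
          Complex.exp (2 * Real.pi * Complex.I *
            ((∑ i, lpt (B⁻¹).transpose n i * c i : ℝ) : ℂ)) := by
  have h := @hP κ _ m B (by convert hB) c
  convert h

theorem lpt_diag {ι : Type} [Fintype ι] [DecidableEq ι] (B : Matrix ι ι ℝ) (t : ι → ℝ)
    (n : ι → ℤ) : lpt (Matrix.diagonal t * B) n = fun i => t i * lpt B n i := by
  funext i
  unfold lpt
  rw [← Matrix.mulVec_mulVec, Matrix.mulVec_diagonal]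

theorem inv_diag {ι : Type} [Fintype ι] [DecidableEq ι] {B : Matrix ι ι ℝ} (hB : B.det ≠ 0)
    (t : ι → ℝ) : ((Matrix.diagonal (fun i => Real.exp (t i)) * B)⁻¹).transpose =
      Matrix.diagonal (fun i => Real.exp (-t i)) * (B⁻¹).transpose := by
  have h : (Matrix.diagonal (fun i => Real.exp (t i)) * B)⁻¹ =
      B⁻¹ * Matrix.diagonal fun i => Real.exp (-t i) := by
    apply Matrix.inv_eq_left_inv
    rw [Matrix.mul_assoc, ← Matrix.mul_assoc (Matrix.diagonal _), Matrix.diagonal_mul_diagonal]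
    have : (fun i => Real.exp (-t i) * Real.exp (t i)) = fun _ => (1 : ℝ) := by
      funext i
      rw [← Real.exp_add, neg_add_cancel, Real.exp_zero]
    rw [this, Matrix.diagonal_one, Matrix.one_mul,
      Matrix.nonsing_inv_mul _ (isUnit_iff_ne_zero.2 hB)]
  rw [h, Matrix.transpose_mul, Matrix.diagonal_transpose]

theorem summ (hP : PoisSt) (hF : FzSt) {κ : Type} [Fintype κ] [DecidableEq (κ ⊕ κ)] (m : κ → ℕ)
    (y : κ → ℝ) {B : Matrix (κ ⊕ κ) (κ ⊕ κ) ℝ} (hB : B.det ≠ 0) {X : Type} (z : X → κ → ℂ)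
    (v : X ≃ (κ ⊕ κ → ℤ)) (hv : ∀ x, lpt B (v x) = co (z x)) (c : κ → ℂ) :
    (Matrix.diagonal (fun i : κ ⊕ κ => Real.exp (y (i.elim id id))) * B).det =
      Real.exp (2 * ∑ k, y k) * B.det ∧
    (∀ x, fz m y (c + z x) = ((Real.exp (∑ k, y k) / √2 ^ (∑ k, m k) : ℝ) : ℂ) *
      fm m (lpt (Matrix.diagonal (fun i : κ ⊕ κ => Real.exp (y (i.elim id id))) * B) (v x) +
        fun i => Real.exp (y (i.elim id id)) * co c i)) ∧
    Summable fun x => ‖fz m y (c + z x)‖ := by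
  have h1 : (Matrix.diagonal (fun i : κ ⊕ κ => Real.exp (y (i.elim id id))) * B).det =
      Real.exp (2 * ∑ k, y k) * B.det := by
    rw [Matrix.det_mul, Matrix.det_diagonal, ← Real.exp_sum, Fintype.sum_sum_type, two_mul]
    rfl
  have h2 : ∀ x, fz m y (c + z x) = ((Real.exp (∑ k, y k) / √2 ^ (∑ k, m k) : ℝ) : ℂ) *
      fm m (lpt (Matrix.diagonal (fun i : κ ⊕ κ => Real.exp (y (i.elim id id))) * B) (v x) +
        fun i => Real.exp (y (i.elim id id)) * co c i) := fun x => by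
    rw [hF.fm_co, hF.co_add, lpt_diag, hv]
    congr 2
    funext i
    simp only [Pi.add_apply]
    ring
  refine ⟨h1, h2, ?_⟩
  simp only [h2, norm_mul]
  refine Summable.mul_left _ ?_
  exact (v.summable_iff (f := fun n => ‖fm m (lpt (Matrix.diagonal
    (fun i : κ ⊕ κ => Real.exp (y (i.elim id id))) * B) n +
      fun i => Real.exp (y (i.elim id id)) * co c i)‖)).2
    (pois hP m _ (by rw [h1]; exact mul_ne_zero (Real.exp_ne_zero _) hB) _).1

theorem main (hP : PoisSt) (hF : FzSt) {κ : Type} [Fintype κ] [DecidableEq (κ ⊕ κ)] (m : κ → ℕ)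
    (y : κ → ℝ) {B : Matrix (κ ⊕ κ) (κ ⊕ κ) ℝ} (hB : B.det ≠ 0) {X X' : Type} (z : X → κ → ℂ)
    (z' : X' → κ → ℂ) (v : X ≃ (κ ⊕ κ → ℤ)) (v' : X' ≃ (κ ⊕ κ → ℤ))
    (hv : ∀ x, lpt B (v x) = co (z x)) (hv' : ∀ x, lpt (B⁻¹).transpose (v' x) = co (z' x))
    (c : κ → ℂ) :
    ∑' x, fz m y (c + z x) = (-Complex.I) ^ (∑ k, m k) / (|B.det| : ℝ) *
      ∑' x, fz m (-y) (z' x) *
        Complex.exp (2 * Real.pi * Complex.I * ((∑ i, co c i * co (z' x) i : ℝ) : ℂ)) := by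
  obtain ⟨h1, h2, -⟩ := summ hP hF m y hB z v hv c
  have h3 := (pois hP m _ (by rw [h1]; exact mul_ne_zero (Real.exp_ne_zero _) hB)
    fun i => Real.exp (y (i.elim id id)) * co c i).2
  rw [← v.tsum_eq, ← v'.tsum_eq, inv_diag hB, h1, abs_mul, abs_of_pos (Real.exp_pos _)] at h3
  simp only [h2]
  rw [tsum_mul_left, h3]
  have h4 : ∀ x, fz m (-y) (z' x) *
      Complex.exp (2 * Real.pi * Complex.I * ((∑ i, co c i * co (z' x) i : ℝ) : ℂ)) =
      ((Real.exp (-∑ k, y k) / √2 ^ (∑ k, m k) : ℝ) : ℂ) *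
      (fm m (lpt (Matrix.diagonal (fun i : κ ⊕ κ => Real.exp (-y (i.elim id id))) *
        (B⁻¹).transpose) (v' x)) * Complex.exp (2 * Real.pi * Complex.I *
          ((∑ i, lpt (Matrix.diagonal (fun i : κ ⊕ κ => Real.exp (-y (i.elim id id))) *
            (B⁻¹).transpose) (v' x) i * (Real.exp (y (i.elim id id)) * co c i) : ℝ) : ℂ))) :=
    fun x => by
      rw [hF.fm_co, lpt_diag, hv', mul_assoc]
      simp only [Pi.neg_apply, Finset.sum_neg_distrib]
      congr 5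
      refine Finset.sum_congr rfl fun i _ => ?_
      have := Real.exp_ne_zero (y (i.elim id id))
      rw [Real.exp_neg]
      field_simp
  simp only [h4]
  rw [tsum_mul_left, ← mul_assoc, ← mul_assoc]
  congr 1
  have e1 : ((Real.exp (∑ k, y k) : ℝ) : ℂ) ≠ 0 := by exact_mod_cast Real.exp_ne_zero _
  rw [two_mul, Real.exp_add, Real.exp_neg]
  generalize Real.exp (∑ k, y k) = t at e1
  push_cast
  field_simp

end PoisLAux

variable {K L : Type} [Field K] [NumberField K] [Field L] [NumberField L] [Algebra K L]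

open PoisLAux in
theorem st_PoisL (hP : PoisSt) (hB : BasSt K L) (hF : FzSt) (hC : CmSt K L) : PoisLSt K L := by
  intro d E a h
  obtain ⟨Vol, hV, H⟩ := hB h
  refine ⟨Vol, hV, fun 𝔪 h𝔪 m y c => ?_⟩
  obtain ⟨B, v, v', h1, h2, h3⟩ := H 𝔪 h𝔪
  have h0 : B.det ≠ 0 := by
    rw [← abs_ne_zero, h1]
    exact mul_ne_zero (by exact_mod_cast Ideal.absNorm_eq_zero_iff.not.2 h𝔪) hV.ne'
  have e : ∀ x : 𝔪, ez a ((c + x.1 : 𝓞 L) : L) = ez a (c : L) + ez a (x.1 : L) := fun x => by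
    funext k
    exact (congrArg k.1 (map_add (algebraMap (𝓞 L) L) c x.1)).trans (map_add k.1 _ _)
  simp only [e]
  refine ⟨(summ hP hF m y h0 _ v h2 _).2.2, ?_, ?_⟩
  · simpa only [zero_add] using (summ hP hF m (-y) (MilgramAux.det_tinv h0) _ v' h3 0).2.2
  · rw [main hP hF m y h0 _ _ v v' h2 h3, h1]
    congr 2
    funext ξ
    rw [← hC.trace h, eTr]
    norm_cast

end Pool.Agent.SC
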