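import Pool.Agent.Lib.MP_b4b3cb_nt.StC

/-! The induced representation. -/

namespace Pool.Agent.SC

open NumberField Pool.Agent.Stark
open scoped Classical Pointwise

namespace RpAux

theorem z2 (e : ZMod 2) : e = 0 ∨ e = 1 := by
  revert e
  decide

theorem mon_zero (r s : ℤ_[2]ˣ) (u : V) :
    mon 0 r s u = (((r : ℤ_[2]) : ℚ_[2]) * u.1, ((s : ℤ_[2]) : ℚ_[2]) * u.2) := if_pos rfl

theorem mon_one (r s : ℤ_[2]ˣ) (u : V) :
    mon 1 r s u = (((r : ℤ_[2]) : ℚ_[2]) * u.2, ((s : ℤ_[2]) : ℚ_[2]) * u.1) :=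
  if_neg (by decide)

/-- Induction of a character from a subgroup of index two split by an involution. -/
theorem induce {G : Type} [Group G] [TopologicalSpace G] [IsTopologicalGroup G]
    (H : Subgroup G) (η : G → ZMod 2) (hη : Hom ⊤ η) (hH : ∀ g, g ∈ H ↔ η g = 0)
    (c : G) (hcc : c * c = 1) (hc : c ∉ H) (ρ : G → ℤ_[2]ˣ) (hρc : ContinuousOn ρ H)
    (hρ : ∀ g ∈ H, ∀ h ∈ H, ρ (g * h) = ρ g * ρ h) (χ : G →* ℤ_[2]ˣ) (hχc : χ c = -1)
    (hχ : ∀ g ∈ H, ρ g * ρ (c * g * c) = χ g) :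
    ∃ R : Rp χ, R.η = η ∧ ∀ g ∈ H, R.r g = ρ g := by
  have hadd : ∀ g h, η (g * h) = η g + η h := fun g h => hη.2 g trivial h trivial
  have hc1 : η c = 1 := (z2 _).resolve_left fun h => hc ((hH c).2 h)
  have hcont : Continuous η := continuousOn_univ.1 (by simpa using hη.1)
  have h11 : (1 + 1 : ZMod 2) = 0 := by decide
  have h10 : (1 : ZMod 2) ≠ 0 := by decide
  let p : ZMod 2 → G := fun e => if e = 0 then 1 else c
  let q : ZMod 2 → G := fun e => if e = 0 then c else 1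
  have p0 : p 0 = 1 := if_pos rfl
  have p1 : p 1 = c := if_neg h10
  have q0 : q 0 = c := if_pos rfl
  have q1 : q 1 = 1 := if_neg h10
  have hp : ∀ g, g * p (η g) ∈ H := by
    intro g
    rw [hH, hadd]
    rcases z2 (η g) with h | h
    · rw [h, p0, zero_add, ← hH]
      exact H.one_mem
    · rw [h, p1, hc1, h11]
  have hq : ∀ g, c * g * q (η g) ∈ H := by
    intro g
    rw [hH, hadd, hadd, hc1]
    rcases z2 (η g) with h | h
    · rw [h, q0, hc1, add_zero, h11]
    · rw [h, q1, h11, zero_add, ← hH]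
      exact H.one_mem
  have hcc' : ∀ g, c * (c * g) = g := fun g => by rw [← mul_assoc, hcc, one_mul]
  refine ⟨⟨η, fun g => ρ (g * p (η g)), fun g => ρ (c * g * q (η g)), hη, ?_, ?_, ?_, ?_⟩, rfl, ?_⟩
  · exact hρc.comp_continuous
      (continuous_id.mul ((continuous_of_discreteTopology (f := p)).comp hcont)) hp
  · exact hρc.comp_continuous ((continuous_const.mul continuous_id).mul
      ((continuous_of_discreteTopology (f := q)).comp hcont)) hq
  · intro g h u
    have a1 := hρ _ (hp g) _ (hp h)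
    have a2 := hρ _ (hq g) _ (hq h)
    have a3 := hρ _ (hp g) _ (hq h)
    have a4 := hρ _ (hq g) _ (hp h)
    rw [hadd]
    rcases z2 (η g) with hg | hg <;> rcases z2 (η h) with hh | hh <;>
      simp only [hg, hh, add_zero, zero_add, h11, p0, p1, q0, q1, mul_one, mul_assoc, hcc',
        mon_zero, mon_one] at a1 a2 a3 a4 ⊢
    · rw [a1, a2]
      simp only [Units.val_mul, PadicInt.coe_mul, mul_assoc]
    · rw [a1, a2]
      simp only [Units.val_mul, PadicInt.coe_mul, mul_assoc]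
    · rw [a3, a4]
      simp only [Units.val_mul, PadicInt.coe_mul, mul_assoc]
    · rw [a3, a4]
      simp only [Units.val_mul, PadicInt.coe_mul, mul_assoc]
  · intro g
    have a1 := hχ _ (hp g)
    rcases z2 (η g) with hg | hg
    · simp only [hg, p0, q0, mul_one, if_true, one_mul] at a1 ⊢
      exact a1
    · simp only [hg, p1, q1, mul_one, if_neg h10, mul_assoc, hcc, map_mul, hχc] at a1 ⊢
      rw [a1, mul_comm]
  · intro g hg
    simp only [(hH g).1 hg, p0, mul_one]

theorem norm_act {K L : Type} [Field K] [NumberField K] [Field L] [NumberField L] [Algebra K L]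
    {d : K} (E : Quad K L d) (w : Pr L) :
    Ideal.absNorm (E.act w).asIdeal = Ideal.absNorm w.asIdeal := by
  have h : (E.act w).asIdeal = w.asIdeal.map E.sg.symm := (Ideal.map_symm E.sg).symm
  rw [h, Ideal.absNorm_apply, Ideal.absNorm_apply, Submodule.cardQuot_apply,
    Submodule.cardQuot_apply]
  exact (Nat.card_congr (Ideal.quotientEquiv _ _ E.sg.symm rfl).toEquiv).symm

end RpAux

variable {K L Ω : Type} [Field K] [NumberField K] [Field L] [NumberField L] [Algebra K L]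
  [Field Ω] [Algebra K Ω] [Algebra L Ω] [IsScalarTower K L Ω] [IsAlgClosed Ω] [IsGalois K Ω]
  [CharZero Ω]

theorem st_Rp (hCh : ChebSt K Ω) (hG : GlSt K L Ω) (hA : AvSt K L Ω) (hF : FrobSt K Ω)
    (hP : PrimeSt K Ω) (hJ : CjSt K Ω) (hY : CycSt K Ω) (hM : CmSt K L) (hD : HDSt K L) :
    RpSt K L Ω := by
  intro d E 𝔣 a ψ χ ι ρ fr hd hat χ' hχ'
  subst hχ'
  obtain ⟨k⟩ := hM.ne hd.cm
  obtain ⟨e, -⟩ := hM.real hd.cm
  obtain ⟨j, c, -, -, hcj⟩ := hJ.ex K (e k)
  have hcc : c * c = 1 := (hJ.sq hcj).1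
  have hc : c ∉ Gs K Ω L := hG.cj hd.cm hcj
  have hci : c⁻¹ = c := inv_eq_of_mul_eq_one_right hcc
  have hn : ∀ g ∈ Gs K Ω L, c * g * c ∈ Gs K Ω L := fun g hg => by
    have := (hG.normal E).conj_mem g hg c
    rwa [hci] at this
  refine RpAux.induce (Gs K Ω L) _ (hG.hom E) (hG.iff E) c hcc hc ρ hat.cont hat.mul _
    (hF.cyc_cj hcj) fun g hg => ?_
  obtain ⟨S, hS⟩ := hA.fin hd.ne
  refine mul_inv_eq_one.1 (hCh L (fun g => ρ g * ρ (c * g * c) * (cyc K Ω g)⁻¹) S ?_ ?_ ?_ g hg)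
  · exact (hat.cont.mul (hat.cont.comp
      ((continuous_const.mul continuous_id).mul continuous_const).continuousOn hn)).mul
      hY.1.inv.continuousOn
  · intro g hg h hh
    have h1 : c * (g * h) * c = c * g * c * (c * h * c) := by
      rw [mul_assoc (c * g) c, ← mul_assoc c (c * h), ← mul_assoc c c, hcc, one_mul]
      simp only [mul_assoc]
    simp only [h1, hat.mul g hg h hh, hat.mul _ (hn g hg) _ (hn h hh), map_mul, mul_inv]
    ac_rfl
  · intro 𝔓 w hw hov g hg hfr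
    have hgd : Gd 𝔣 w := not_not.1 fun h => hw ((hS w).2 h)
    have h1 := hat.frob 𝔓 w hov hgd g hg hfr
    have h2 := hat.frob (c • 𝔓) (E.act w) (hG.act E c hc 𝔓 w hov) ((hD.act hd w).2.2.2 hgd)
      (c * g * c) (hn g hg) (by
        rw [hP.fr_conj, RpAux.norm_act, hci, ← mul_assoc, ← mul_assoc, hcc, one_mul, mul_assoc,
          hcc, mul_one]
        exact hfr)
    have h3 := hF.cyc_fr hov.1 ((hP.two hov).2 hgd.1) hfr
    refine mul_inv_eq_one.2 (Units.ext ?_)
    rw [h1, h2, h3, Units.val_mul]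
    exact hA.dual hd hat w hgd

end Pool.Agent.SC
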