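import Pool.Agent.Lib.MP_b4b3cb_nt.DefsA

/-! Statements of the abstract part. -/

namespace Pool.Agent.SC

open scoped Classical
open Module

/-- Facts on the chain of lattices. -/
structure LatSt : Prop where
  anti : ∀ {i j : ℤ}, i ≤ j → T j ≤ T i
  two : ∀ (i : ℤ) (u : V), (2 : ℚ_[2]) • u ∈ T (i + 2) ↔ u ∈ T i
  smul : ∀ (i : ℤ) (c : ℚ_[2]) (u : V), ‖c‖ ≤ 1 → u ∈ T i → c • u ∈ T i
  lam_add : ∀ {i : ℤ} {u v : V}, u ∈ T i → v ∈ T i → lam i (u + v) = lam i u + lam i v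
  lam_sub : ∀ {i : ℤ} {u v : V}, u ∈ T i → v ∈ T i → lam i (u - v) = lam i u + lam i v
  lam_neg : ∀ (i : ℤ) (u : V), lam i (-u) = lam i u
  lam_zero : ∀ (i : ℤ) (u : V), lam i u = 0 ↔ u ∈ T (i + 1)
  lam_congr : ∀ {i : ℤ} {u v : V}, u - v ∈ T (i + 1) → lam i u = lam i v
  lam_two : ∀ (i : ℤ) (u : V), lam (i + 2) ((2 : ℚ_[2]) • u) = lam i u
  ex : ∀ i : ℤ, ∃ e ∈ T i, ∀ c : ZMod 2, (c.val : ℚ_[2]) • e ∈ T i ∧ lam i ((c.val : ℚ_[2]) • e) = c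
  isOpen : ∀ i : ℤ, IsOpen (T i : Set V)
  isClosed : ∀ i : ℤ, IsClosed (T i : Set V)
  sep : ∀ u : V, (∀ i, u ∈ T i) → u = 0
  exh : ∀ u : V, ∃ i, u ∈ T i
  norm_iff : ∀ (k : ℤ) (u : V), u ∈ T (2 * k) ↔ ‖u‖ ≤ (2 : ℝ) ^ (-k)
  odd_iff : ∀ (k : ℤ) (u : V), u ∈ T (2 * k + 1) ↔
    ‖u‖ ≤ (2 : ℝ) ^ (-k) ∧ ‖u.1 - u.2‖ ≤ (2 : ℝ) ^ (-(k + 1))
  index : ∀ i : ℤ, (T (i + 1)).relIndex (T i) = 2
  lam_cont : ∀ i : ℤ, Continuous (lam i)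

/-- Facts on the symplectic form, on `hf`, `qq`, `sg4` and on monomial matrices. -/
structure OmSt : Prop where
  om_le : ∀ {i j : ℤ} {u v : V}, u ∈ T i → v ∈ T j → ‖om u v‖ ≤ (2 : ℝ) ^ (-((i + j) / 2))
  om_div : ∀ {i j n : ℤ} {u v : V}, u ∈ T i → v ∈ T j → 2 * n ≤ i + j → ‖om u v / 2 ^ n‖ ≤ 1
  om_lam : ∀ {i j k : ℤ} {u v : V}, u ∈ T i → v ∈ T j → i + j = 2 * k + 1 →
    ‖om u v / 2 ^ (k + 1) - hf (lam i u * lam j v)‖ ≤ 1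
  hf_add : ∀ a b : ZMod 2, ‖hf (a + b) - hf a - hf b‖ ≤ 1
  hf_zero : hf 0 = 0
  hf_one : hf 1 = 1 / 2
  hf_two : ∀ a : ZMod 2, ‖2 * hf a‖ ≤ 1
  unit_half : ∀ (r : ℤ_[2]ˣ) (x : ℚ_[2]), ‖((r : ℤ_[2]) : ℚ_[2]) * x - x‖ ≤ ‖x‖ / 2
  qq_le : ∀ {j : ℤ} {u : V}, u ∈ T j → ‖qq j u‖ ≤ 1
  qq_add : ∀ {j : ℤ} {u v : V}, u ∈ T j → v ∈ T j →
    ‖qq j (u + v) - qq j u - qq j v - om u v / 2 ^ j‖ ≤ 1 / 2
  qq_mon : ∀ {j : ℤ} {u : V} (e : ZMod 2) (r s : ℤ_[2]ˣ), u ∈ T j →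
    ‖qq j (mon e r s u) - qq j u‖ ≤ 1 / 2
  qq_cont : ∀ j : ℤ, Continuous (qq j)
  mon_mem : ∀ (i : ℤ) (e : ZMod 2) (r s : ℤ_[2]ˣ) (u : V), mon e r s u ∈ T i ↔ u ∈ T i
  mon_sub : ∀ {i : ℤ} (e : ZMod 2) (r s : ℤ_[2]ˣ) {u : V}, u ∈ T i → mon e r s u - u ∈ T (i + 1)
  sg4_mul : ∀ r s : ℤ_[2]ˣ, sg4 (r * s) = sg4 r + sg4 s
  sg4_one : sg4 1 = 0
  sg4_neg : sg4 (-1) = 1
  sg4_cont : Continuous sg4
  sg4_half : ∀ r : ℤ_[2]ˣ, ‖(((r : ℤ_[2]) : ℚ_[2]) - 1) / 4 - hf (sg4 r)‖ ≤ 1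

/-- Facts on the action. -/
structure AcSt : Prop where
  one : ∀ {G : Type} [Group G] [TopologicalSpace G] {χ : G →* ℤ_[2]ˣ} (R : Rp χ) (u : V),
    R.ac 1 u = u
  mul : ∀ {G : Type} [Group G] [TopologicalSpace G] {χ : G →* ℤ_[2]ˣ} (R : Rp χ) (g h : G) (u : V),
    R.ac (g * h) u = R.ac g (R.ac h u)
  lin : ∀ {G : Type} [Group G] [TopologicalSpace G] {χ : G →* ℤ_[2]ˣ} (R : Rp χ) (g : G),
    IsLinearMap ℚ_[2] (R.ac g)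
  mem : ∀ {G : Type} [Group G] [TopologicalSpace G] {χ : G →* ℤ_[2]ˣ} (R : Rp χ) (g : G) (i : ℤ)
    (u : V), R.ac g u ∈ T i ↔ u ∈ T i
  lam_ac : ∀ {G : Type} [Group G] [TopologicalSpace G] {χ : G →* ℤ_[2]ˣ} (R : Rp χ) (g : G) (i : ℤ)
    (u : V), lam i (R.ac g u) = lam i u
  om_ac : ∀ {G : Type} [Group G] [TopologicalSpace G] {χ : G →* ℤ_[2]ˣ} (R : Rp χ) (g : G)
    (u v : V), om (R.ac g u) (R.ac g v) = ((χ g : ℤ_[2]) : ℚ_[2]) * om u v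
  cont : ∀ {G : Type} [Group G] [TopologicalSpace G] {χ : G →* ℤ_[2]ˣ} (R : Rp χ),
    Continuous fun p : G × V => R.ac p.1 p.2
  d2_d1 : ∀ {G : Type} [Group G] [TopologicalSpace G] {χ : G →* ℤ_[2]ˣ} (R : Rp χ) (u : V)
    (g h : G), R.d2 (R.d1 u) g h = 0
  dd : ∀ {G : Type} [Group G] [TopologicalSpace G] {χ : G →* ℤ_[2]ˣ} (R : Rp χ) (x : G → V)
    (g h k : G), R.ac g (R.d2 x h k) + R.d2 x g (h * k) = R.d2 x (g * h) k + R.d2 x g h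
  d2_add : ∀ {G : Type} [Group G] [TopologicalSpace G] {χ : G →* ℤ_[2]ˣ} (R : Rp χ) (x y : G → V)
    (g h : G), R.d2 (x + y) g h = R.d2 x g h + R.d2 y g h
  d2_smul : ∀ {G : Type} [Group G] [TopologicalSpace G] {χ : G →* ℤ_[2]ˣ} (R : Rp χ) (c : ℚ_[2])
    (x : G → V) (g h : G), R.d2 (c • x) g h = c • R.d2 x g h
  d2_sub : ∀ {G : Type} [Group G] [TopologicalSpace G] {χ : G →* ℤ_[2]ˣ} (R : Rp χ) (x y : G → V)
    (g h : G), R.d2 (x - y) g h = R.d2 x g h - R.d2 y g h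
  d2_one : ∀ {G : Type} [Group G] [TopologicalSpace G] {χ : G →* ℤ_[2]ˣ} (R : Rp χ) (x : G → V),
    R.d2 x 1 1 = x 1
  d2_cont : ∀ {G : Type} [Group G] [TopologicalSpace G] [IsTopologicalGroup G] {χ : G →* ℤ_[2]ˣ}
    (R : Rp χ) (D : Subgroup G) (x : G → V), ContinuousOn x D →
    ContinuousOn (fun p : G × G => R.d2 x p.1 p.2) ((D : Set G) ×ˢ (D : Set G))
  rs_mul : ∀ {G : Type} [Group G] [TopologicalSpace G] {χ : G →* ℤ_[2]ˣ} (R : Rp χ) (g h : G),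
    (R.η g = 0 → R.r (g * h) = R.r g * R.r h ∧ R.s (g * h) = R.s g * R.s h) ∧
    (R.η g = 1 → R.r (g * h) = R.r g * R.s h ∧ R.s (g * h) = R.s g * R.r h)
  rs_conj : ∀ {G : Type} [Group G] [TopologicalSpace G] {χ : G →* ℤ_[2]ˣ} (R : Rp χ) (σ h : G),
    R.η σ = 1 → R.η h = 0 →
    R.η (σ * h * σ⁻¹) = 0 ∧ R.r (σ * h * σ⁻¹) = R.s h ∧ R.s (σ * h * σ⁻¹) = R.r h

/-- Facts on cochains and local conditions. -/
structure ZSt : Prop where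
  hom_lam : ∀ {G : Type} [Group G] [TopologicalSpace G] {χ : G →* ℤ_[2]ˣ} (R : Rp χ)
    (D : Subgroup G) {i j : ℤ} {x : G → V}, R.Lev D i j x → i < j → Hom D fun g => lam i (x g)
  lev_add : ∀ {G : Type} [Group G] [TopologicalSpace G] {χ : G →* ℤ_[2]ˣ} (R : Rp χ)
    (D : Subgroup G) {i j : ℤ} {x y : G → V}, R.Lev D i j x → R.Lev D i j y →
    R.Lev D i j (x + y) ∧ R.Lev D i j (x - y)
  lev_mono : ∀ {G : Type} [Group G] [TopologicalSpace G] {χ : G →* ℤ_[2]ˣ} (R : Rp χ)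
    {D D' : Subgroup G} {i i' j j' : ℤ} {x : G → V}, R.Lev D i j x → D' ≤ D → i' ≤ i → j' ≤ j →
    R.Lev D' i' j' x
  lev_coc : ∀ {G : Type} [Group G] [TopologicalSpace G] {χ : G →* ℤ_[2]ˣ} (R : Rp χ)
    {D : Subgroup G} {i : ℤ} {x : G → V}, R.Coc D i x → ∀ j, R.Lev D i j x
  lev_of_mem : ∀ {G : Type} [Group G] [TopologicalSpace G] {χ : G →* ℤ_[2]ˣ} (R : Rp χ)
    {D : Subgroup G} {j : ℤ} {x : G → V}, ContinuousOn x D → (∀ g ∈ D, x g ∈ T j) → R.Lev D j j x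
  lev_hom : ∀ {G : Type} [Group G] [TopologicalSpace G] {χ : G →* ℤ_[2]ˣ} (R : Rp χ)
    (D : Subgroup G) (i : ℤ) (f : G → ZMod 2), Hom D f →
    ∃ x, R.Lev D i (i + 1) x ∧ ∀ g, x g ∈ T i ∧ lam i (x g) = f g
  z_add : ∀ {G : Type} [Group G] [TopologicalSpace G] {χ : G →* ℤ_[2]ˣ} (R : Rp χ)
    (D : Subgroup G) (dy : Prop) {i : ℤ} {t t' : G → V}, R.Z D dy i t → R.Z D dy i t' →
    R.Z D dy i (t + t') ∧ R.Z D dy i (t - t')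
  z_zero : ∀ {G : Type} [Group G] [TopologicalSpace G] {χ : G →* ℤ_[2]ˣ} (R : Rp χ)
    (D : Subgroup G) (dy : Prop) (i : ℤ), R.Z D dy i 0
  z_mem : ∀ {G : Type} [Group G] [TopologicalSpace G] {χ : G →* ℤ_[2]ˣ} (R : Rp χ)
    (D : Subgroup G) (dy : Prop) {i j : ℤ} {t : G → V}, R.Z D dy i t → (∀ g ∈ D, t g ∈ T j) →
    R.Z D dy j t
  z_smul : ∀ {G : Type} [Group G] [TopologicalSpace G] {χ : G →* ℤ_[2]ˣ} (R : Rp χ)
    (D : Subgroup G) (dy : Prop) {i j : ℤ} {t : G → V} (c : ℚ_[2]), R.Z D dy i t →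
    (∀ g ∈ D, c • t g ∈ T j) → R.Z D dy j (c • t)
  z_d1 : ∀ {G : Type} [Group G] [TopologicalSpace G] {χ : G →* ℤ_[2]ˣ} (R : Rp χ)
    (D : Subgroup G) (dy : Prop) (i : ℤ) (u : V), (∀ g ∈ D, R.d1 u g ∈ T i) → R.Z D dy i (R.d1 u)
  mem_W : ∀ {G : Type} [Group G] [TopologicalSpace G] {χ : G →* ℤ_[2]ˣ} (R : Rp χ)
    (D : Subgroup G) (dy : Prop) (i : ℤ) (f : G → ZMod 2),
    f ∈ R.W D dy i ↔ ∃ t, R.Z D dy i t ∧ f = res D fun g => lam i (t g)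
  W_le : ∀ {G : Type} [Group G] [TopologicalSpace G] {χ : G →* ℤ_[2]ˣ} (R : Rp χ)
    (D : Subgroup G) (dy : Prop) (i : ℤ), R.W D dy i ≤ Hm D
  W_per : ∀ {G : Type} [Group G] [TopologicalSpace G] {χ : G →* ℤ_[2]ˣ} (R : Rp χ)
    (D : Subgroup G) (dy : Prop) (i k : ℤ), R.W D dy (i + 2 * k) = R.W D dy i
  res_mem : ∀ {G : Type} [Group G] [TopologicalSpace G] (D : Subgroup G) (f : G → ZMod 2),
    Hom D f → res D f ∈ Hm D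
  hom_mono : ∀ {G : Type} [Group G] [TopologicalSpace G] {D D' : Subgroup G} {f : G → ZMod 2},
    Hom D f → D' ≤ D → Hom D' f
  hom_add : ∀ {G : Type} [Group G] [TopologicalSpace G] {D : Subgroup G} {f f' : G → ZMod 2},
    Hom D f → Hom D f' → Hom D (f + f')
  hom_one : ∀ {G : Type} [Group G] [TopologicalSpace G] {D : Subgroup G} {f : G → ZMod 2},
    Hom D f → f 1 = 0 ∧ ∀ g ∈ D, f g⁻¹ = f g
  cup : ∀ {G : Type} [Group G] [TopologicalSpace G] {χ : G →* ℤ_[2]ˣ} (R : Rp χ)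
    (D : Subgroup G) (dy : Prop), (dy → ∀ g ∈ D, R.η g = 0) → ∀ {i j : ℤ} {t t' : G → V},
    R.Z D dy i t → R.Z D dy j t' → ∃ f : G → ℚ_[2], ContinuousOn f D ∧
      ∀ g ∈ D, ∀ h ∈ D, om (t g) (R.ac g (t' h)) = dq χ f g h

/-- Facts on Selmer cochains. -/
structure SelSt : Prop where
  add : ∀ {G P : Type} [Group G] [TopologicalSpace G] (A : AD G P) (R : Rp A.χ) (dy : P → Prop)
    {i j : ℤ} {x y : G → V}, Sel A R dy i j x → Sel A R dy i j y →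
    Sel A R dy i j (x + y) ∧ Sel A R dy i j (x - y)
  mono : ∀ {G P : Type} [Group G] [TopologicalSpace G] (A : AD G P) (R : Rp A.χ) (dy : P → Prop)
    {i i' j j' : ℤ} {x : G → V}, Sel A R dy i j x → i' ≤ i → j' ≤ j → Sel A R dy i' j' x
  of_mem : ∀ {G P : Type} [Group G] [TopologicalSpace G] (A : AD G P) (R : Rp A.χ) (dy : P → Prop)
    {j : ℤ} {x : G → V}, Continuous x → (∀ g, x g ∈ T j) → Sel A R dy j j x
  ker : ∀ {G P : Type} [Group G] [TopologicalSpace G] (A : AD G P) (R : Rp A.χ) (dy : P → Prop)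
    {i i' j : ℤ} {x : G → V}, Sel A R dy i j x → i' ≤ j → (∀ g, x g ∈ T i') → Sel A R dy i' j x
  mem_SS : ∀ {G P : Type} [Group G] [TopologicalSpace G] (A : AD G P) (R : Rp A.χ) (dy : P → Prop)
    (i : ℤ) (n : ℕ) (f : G → ZMod 2),
    f ∈ SS A R dy i n ↔ ∃ x, Sel A R dy i (i + n) x ∧ f = fun g => lam i (x g)
  per : ∀ {G P : Type} [Group G] [TopologicalSpace G] (A : AD G P) (R : Rp A.χ) (dy : P → Prop)
    (i k : ℤ) (n : ℕ), SS A R dy (i + 2 * k) n = SS A R dy i n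
  one : ∀ {G P : Type} [Group G] [TopologicalSpace G] (A : AD G P) (R : Rp A.χ) (dy : P → Prop)
    (i : ℤ) (y : G → ZMod 2),
    y ∈ SS A R dy i 1 ↔ Hom ⊤ y ∧ ∀ v, res (A.D v) y ∈ R.W (A.D v) (dy v) i
  sym_zero : ∀ {G P : Type} [Group G] [TopologicalSpace G] (A : AD G P) (v : P)
    (a b : G → ZMod 2), Hom (A.D v) a → (∀ g ∈ A.D v, b g = 0) → A.sym v a b = 0
  add_right : ∀ {G P : Type} [Group G] [TopologicalSpace G] (A : AD G P) (v : P)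
    (a b b' : G → ZMod 2), Hom (A.D v) a → Hom (A.D v) b → Hom (A.D v) b' →
    A.sym v a (b + b') = A.sym v a b + A.sym v a b'
  iso : ∀ {G P : Type} [Group G] [TopologicalSpace G] (A : AD G P) (R : Rp A.χ) (v : P)
    (dy : Prop), (dy → ∀ g ∈ A.D v, R.η g = 0) → ∀ (i : ℤ) (a b : G → ZMod 2),
    res (A.D v) a ∈ R.W (A.D v) dy (i + 1) → res (A.D v) b ∈ R.W (A.D v) dy i → A.sym v a b = 0
  recip : ∀ {G P : Type} [Group G] [TopologicalSpace G] (A : AD G P) (y z : G → ZMod 2),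
    Hom ⊤ y → Hom ⊤ z → ∀ S : Finset P, (∀ v ∉ S, A.sym v y z = 0) → ∑ v ∈ S, A.sym v y z = 0

end Pool.Agent.SC
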