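import Pool.Agent.Lib.MP_b4b3cb_nt.StA

/-! Statements of the abstract part: pairings, the tower, local computations. -/

namespace Pool.Agent.SC

open scoped Classical
open Module

/-- Global lifting of a Selmer cochain. -/
def LiftSt : Prop :=
  ∀ {G P : Type} [Group G] [TopologicalSpace G] [IsTopologicalGroup G] (A : AD G P) (R : Rp A.χ)
    (dy : P → Prop) {i j : ℤ} {x : G → V}, i ≤ j → Sel A R dy i j x →
    ∃ x', R.Lev ⊤ i (j + 1) x' ∧ ∀ g, x' g - x g ∈ T j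

/-- Unramified cochains satisfy the local condition at a good place. -/
def GoodSt : Prop :=
  ∀ {G : Type} [Group G] [TopologicalSpace G] {χ : G →* ℤ_[2]ˣ} (R : Rp χ) (D I : Subgroup G)
    (dy : Prop), I ≤ D → R.Good D I dy → ∀ {i j : ℤ} {x : G → V}, i ≤ j → R.Lev D i j x →
    (∀ g ∈ I, x g ∈ T j) → R.LocC D dy i j x

/-- Existence of witnesses for the pairing. -/
def PVexSt : Prop :=
  ∀ {G P : Type} [Group G] [TopologicalSpace G] [IsTopologicalGroup G] (A : AD G P) (R : Rp A.χ)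
    (dy : P → Prop) (S₀ : Finset P), Std A R dy S₀ → ∀ {i j : ℤ} {x : G → V}, i ≤ j →
    Sel A R dy i j x → ∃ (x' : G → V) (t : P → G → V) (S₁ : Finset P), S₀ ⊆ S₁ ∧
      R.Lev ⊤ i (j + 1) x' ∧ (∀ g, x' g - x g ∈ T j) ∧
      (∀ v, R.Z (A.D v) (dy v) i (t v) ∧ ∀ g ∈ A.D v, x' g - t v g ∈ T j) ∧
      (∀ v, Hom (A.D v) fun g => lam j (x' g - t v g)) ∧
      (∀ v ∉ S₁, ∀ g ∈ A.I v, x' g ∈ T (j + 1)) ∧
      ∀ y ∈ SS A R dy (j + 1) 1, ∀ v ∉ S₁, A.sym v y (fun g => lam j (x' g - t v g)) = 0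

/-- The pairing is well defined and additive. -/
structure PVSt : Prop where
  ex : ∀ {G P : Type} [Group G] [TopologicalSpace G] [IsTopologicalGroup G] (A : AD G P)
    (R : Rp A.χ) (dy : P → Prop) (S₀ : Finset P), Std A R dy S₀ → ∀ {i j : ℤ} {x : G → V}
    {y : G → ZMod 2}, i ≤ j → Sel A R dy i j x → y ∈ SS A R dy (j + 1) 1 → ∃ e, PV A R dy i j x y e
  uniq : ∀ {G P : Type} [Group G] [TopologicalSpace G] [IsTopologicalGroup G] (A : AD G P)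
    (R : Rp A.χ) (dy : P → Prop) (S₀ : Finset P), Std A R dy S₀ → ∀ {i j : ℤ} {x : G → V}
    {y : G → ZMod 2} {e e' : ZMod 2}, i ≤ j → y ∈ SS A R dy (j + 1) 1 →
    PV A R dy i j x y e → PV A R dy i j x y e' → e = e'
  left : ∀ {G P : Type} [Group G] [TopologicalSpace G] [IsTopologicalGroup G] (A : AD G P)
    (R : Rp A.χ) (dy : P → Prop) {i j : ℤ} {x x' : G → V} {y : G → ZMod 2} {e e' : ZMod 2},
    i ≤ j → Hom ⊤ y → PV A R dy i j x y e → PV A R dy i j x' y e' →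
    PV A R dy i j (x + x') y (e + e')
  right : ∀ {G P : Type} [Group G] [TopologicalSpace G] [IsTopologicalGroup G] (A : AD G P)
    (R : Rp A.χ) (dy : P → Prop) (S₀ : Finset P), Std A R dy S₀ → ∀ {i j : ℤ} {x : G → V}
    {y y' : G → ZMod 2} {e e' : ZMod 2}, i ≤ j → Sel A R dy i j x → y ∈ SS A R dy (j + 1) 1 →
    y' ∈ SS A R dy (j + 1) 1 → PV A R dy i j x y e → PV A R dy i j x y' e' →
    PV A R dy i j x (y + y') (e + e')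
  nat : ∀ {G P : Type} [Group G] [TopologicalSpace G] [IsTopologicalGroup G] (A : AD G P)
    (R : Rp A.χ) (dy : P → Prop) {i i' j : ℤ} {x : G → V} {y : G → ZMod 2} {e : ZMod 2},
    i' ≤ i → PV A R dy i j x y e → PV A R dy i' j x y e
  zero : ∀ {G P : Type} [Group G] [TopologicalSpace G] [IsTopologicalGroup G] (A : AD G P)
    (R : Rp A.χ) (dy : P → Prop) {i j : ℤ} {x x' : G → V} {y : G → ZMod 2}, Hom ⊤ y →
    Sel A R dy i (j + 1) x' → (∀ g, x' g - x g ∈ T j) → PV A R dy i j x y 0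

/-- Linear algebra of a Lagrangian subspace and of a pair of dual local conditions. -/
def LagSt : Prop :=
  ∀ (ι Y : Type) [Fintype ι] [AddCommGroup Y] [Module (ZMod 2) Y]
    (H W₀ W₁ : ι → Submodule (ZMod 2) Y) (sy : ι → Y → Y → ZMod 2) (Λ : Submodule (ZMod 2) Y)
    (loc : ι → Y →ₗ[ZMod 2] Y), (∀ v, Finite (H v)) → Finite Λ →
    (∀ v, ∀ a ∈ H v, ∀ a' ∈ H v, ∀ b ∈ H v, sy v (a + a') b = sy v a b + sy v a' b) →
    (∀ v, ∀ a ∈ H v, ∀ b ∈ H v, sy v a b = sy v b a) →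
    (∀ v, ∀ a ∈ H v, (∀ b ∈ H v, sy v a b = 0) → a = 0) →
    (∀ v, W₀ v ≤ H v) → (∀ v, W₁ v ≤ H v) → (∀ v, ∀ a ∈ W₁ v, ∀ b ∈ W₀ v, sy v a b = 0) →
    (∀ v, finrank (ZMod 2) (H v) ≤ finrank (ZMod 2) (W₀ v) + finrank (ZMod 2) (W₁ v)) →
    (∀ v, ∀ y ∈ Λ, loc v y ∈ H v) →
    (∀ y ∈ Λ, ∀ z ∈ Λ, ∑ v, sy v (loc v y) (loc v z) = 0) →
    (∀ b : ι → Y, (∀ v, b v ∈ H v) → (∀ y ∈ Λ, ∑ v, sy v (loc v y) (b v) = 0) →
      ∃ z ∈ Λ, ∀ v, loc v z = b v) →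
    (∀ a : ι → Y, (∀ v, a v ∈ H v) →
      (∀ y ∈ Λ, (∀ v, loc v y ∈ W₁ v) → ∑ v, sy v (loc v y) (a v) = 0) →
      ∃ z ∈ Λ, ∀ v, a v - loc v z ∈ W₀ v) ∧
    2 * ((finrank (ZMod 2) (Λ ⊓ ⨅ v, (W₀ v).comap (loc v) : Submodule (ZMod 2) Y) : ℤ) -
      finrank (ZMod 2) (Λ ⊓ ⨅ v, (W₁ v).comap (loc v) : Submodule (ZMod 2) Y)) =
      ∑ v, ((finrank (ZMod 2) (W₀ v) : ℤ) - finrank (ZMod 2) (W₁ v))

/-- The left kernel of the pairing. -/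
def KerSt : Prop :=
  ∀ {G P : Type} [Group G] [TopologicalSpace G] [IsTopologicalGroup G] (A : AD G P) (R : Rp A.χ)
    (dy : P → Prop) (S₀ : Finset P), Std A R dy S₀ → ∀ {i j : ℤ} {x : G → V}, i ≤ j →
    Sel A R dy i j x → (∀ y ∈ SS A R dy (j + 1) 1, PV A R dy i j x y 0) →
    ∃ x', Sel A R dy i (j + 1) x' ∧ ∀ g, x' g - x g ∈ T j

/-- Classes that lift far enough are in the right kernel. -/
def OrthSt : Prop :=
  ∀ {G P : Type} [Group G] [TopologicalSpace G] [IsTopologicalGroup G] (A : AD G P) (R : Rp A.χ)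
    (dy : P → Prop), (∀ v, dy v → ∀ g ∈ A.D v, R.η g = 0) → ∀ (i : ℤ) (n : ℕ) {x : G → V}
    {y : G → ZMod 2} {e : ZMod 2}, y ∈ SS A R dy (i + n + 1) (n + 1) →
    PV A R dy i (i + n) x y e → e = 0

/-- The global cocycle attached to the Heisenberg group. -/
noncomputable def heis {G : Type} [Group G] [TopologicalSpace G] {χ : G →* ℤ_[2]ˣ} (R : Rp χ)
    (i m : ℤ) (x : G → V) (g h : G) : ℚ_[2] :=
  (om (x g) (R.ac g (x h)) - om (R.d2 x g h) (x (g * h))) / 2 ^ (i + m + 1) -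
    2 ^ (m - 2) * qq (i + 2 * m - 1) (R.d2 x g h)

/-- The Heisenberg cochain is a cocycle modulo the integers, and its local shape. -/
structure HeisSt : Prop where
  coc : ∀ {G : Type} [Group G] [TopologicalSpace G] {χ : G →* ℤ_[2]ˣ} (R : Rp χ) (i m : ℤ)
    (x : G → V), 1 ≤ m → R.Lev ⊤ i (i + 2 * m) x → ∀ g h l,
    ‖((χ g : ℤ_[2]) : ℚ_[2]) * heis R i m x h l - heis R i m x (g * h) l +
      heis R i m x g (h * l) - heis R i m x g h‖ ≤ 1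
  loc : ∀ {G : Type} [Group G] [TopologicalSpace G] {χ : G →* ℤ_[2]ˣ} (R : Rp χ) (i m : ℤ)
    (x t : G → V) (D : Subgroup G) (dy : Prop), 1 ≤ m → (dy → ∀ g ∈ D, R.η g = 0) →
    R.Lev ⊤ i (i + 2 * m) x → R.Z D dy i t → (∀ g ∈ D, x g - t g ∈ T (i + 2 * m - 1)) →
    ∃ f : G → ℚ_[2], ContinuousOn f D ∧ ∀ g ∈ D, ∀ h ∈ D,
      ‖heis R i m x g h - dq χ f g h - hf (lam i (x g) * lam (i + 2 * m - 1) (x h - t h))‖ ≤ 1

/-- The pairing is alternating. -/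
def AltSt : Prop :=
  ∀ {G P : Type} [Group G] [TopologicalSpace G] [IsTopologicalGroup G] (A : AD G P) (R : Rp A.χ)
    (dy : P → Prop), (∀ v, dy v → ∀ g ∈ A.D v, R.η g = 0) → ∀ (i : ℤ) (n : ℕ), Odd n →
    ∀ {x : G → V} {e : ZMod 2}, PV A R dy i (i + n) x (fun g => lam i (x g)) e → e = 0

/-- Kernels of pairings over the field with two elements. -/
structure PairSt : Prop where
  ker : ∀ (X Y : Type) [AddCommGroup X] [Module (ZMod 2) X] [AddCommGroup Y] [Module (ZMod 2) Y]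
    (A A' : Submodule (ZMod 2) X) (B B' : Submodule (ZMod 2) Y) (f : X → Y → ZMod 2),
    Finite A → Finite B → A' ≤ A → B' ≤ B →
    (∀ a ∈ A, ∀ a' ∈ A, ∀ b ∈ B, f (a + a') b = f a b + f a' b) →
    (∀ a ∈ A, ∀ b ∈ B, ∀ b' ∈ B, f a (b + b') = f a b + f a b') →
    (∀ a ∈ A, a ∈ A' ↔ ∀ b ∈ B, f a b = 0) → (∀ b ∈ B, b ∈ B' ↔ ∀ a ∈ A, f a b = 0) →
    finrank (ZMod 2) A + finrank (ZMod 2) B' = finrank (ZMod 2) B + finrank (ZMod 2) A'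
  alt : ∀ (X : Type) [AddCommGroup X] [Module (ZMod 2) X] (A A' : Submodule (ZMod 2) X)
    (f : X → X → ZMod 2), Finite A → A' ≤ A →
    (∀ a ∈ A, ∀ a' ∈ A, ∀ b ∈ A, f (a + a') b = f a b + f a' b) →
    (∀ a ∈ A, ∀ b ∈ A, ∀ b' ∈ A, f a (b + b') = f a b + f a b') → (∀ a ∈ A, f a a = 0) →
    (∀ a ∈ A, a ∈ A' ↔ ∀ b ∈ A, f a b = 0) → Even (finrank (ZMod 2) A + finrank (ZMod 2) A')
  bidual : ∀ (C Y : Type) [AddCommGroup C] [AddCommGroup Y] [Module (ZMod 2) Y]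
    (U : AddSubgroup C) (B : Submodule (ZMod 2) Y) (f : C → Y → ZMod 2) (φ : Y → ZMod 2),
    Finite B → (∀ z ∈ U, ∀ z' ∈ U, ∀ b ∈ B, f (z + z') b = f z b + f z' b) →
    (∀ z ∈ U, ∀ b ∈ B, ∀ b' ∈ B, f z (b + b') = f z b + f z b') →
    (∀ b ∈ B, ∀ b' ∈ B, φ (b + b') = φ b + φ b') →
    (∀ b ∈ B, (∀ z ∈ U, f z b = 0) → φ b = 0) → ∃ z ∈ U, ∀ b ∈ B, f z b = φ b

/-- The tower of descents. -/
def TowerSt : Prop :=
  ∀ (C X : Type) [AddCommGroup C] [AddCommGroup X] [Module (ZMod 2) X] (F : ℤ → AddSubgroup C)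
    (Sl : ℤ → ℤ → AddSubgroup C) (lm : ℤ → C → X) (S : ℤ → ℕ → Submodule (ZMod 2) X)
    (pr : ℤ → ℤ → C → X → ZMod 2),
    (∀ i (n : ℕ) f, f ∈ S i n ↔ ∃ x ∈ Sl i (i + n), f = lm i x) →
    (∀ i, ∀ x ∈ F i, ∀ y ∈ F i, lm i (x + y) = lm i x + lm i y) →
    (∀ i, ∀ x ∈ F i, lm i x = 0 ↔ x ∈ F (i + 1)) →
    (∀ i j, i ≤ j → F j ≤ F i) → (∀ i j, Sl i j ≤ F i) → (∀ j, F j ≤ Sl j j) →
    (∀ i i' j j', i' ≤ i → j' ≤ j → Sl i j ≤ Sl i' j') →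
    (∀ i i' j, i' ≤ j → ∀ x ∈ Sl i j, x ∈ F i' → x ∈ Sl i' j) →
    (∀ i k n, S (i + 2 * k) n = S i n) → (∀ i, Finite (S i 1)) →
    (∀ i j, i ≤ j → ∀ x ∈ Sl i j, ∀ x' ∈ Sl i j, ∀ y ∈ S (j + 1) 1,
      pr i j (x + x') y = pr i j x y + pr i j x' y) →
    (∀ i j, i ≤ j → ∀ x ∈ Sl i j, ∀ y ∈ S (j + 1) 1, ∀ y' ∈ S (j + 1) 1,
      pr i j x (y + y') = pr i j x y + pr i j x y') →
    (∀ i i' j, i' ≤ i → i ≤ j → ∀ x ∈ Sl i j, ∀ y ∈ S (j + 1) 1, pr i' j x y = pr i j x y) →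
    (∀ i j, i ≤ j → ∀ x ∈ Sl i j,
      (∀ y ∈ S (j + 1) 1, pr i j x y = 0) ↔ ∃ x' ∈ Sl i (j + 1), x' - x ∈ F j) →
    (∀ i (n : ℕ), ∀ x ∈ Sl i (i + n), ∀ y ∈ S (i + n + 1) (n + 1), pr i (i + n) x y = 0) →
    (∀ i (n : ℕ), Odd n → ∀ x ∈ Sl i (i + n), pr i (i + n) x (lm i x) = 0) →
    (∀ n : ℕ, 1 ≤ n → Even (finrank (ZMod 2) (S 0 n) + finrank (ZMod 2) (S 1 n) +
      finrank (ZMod 2) (S 0 1) + finrank (ZMod 2) (S 1 1))) ∧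
    ∃ N : ℕ, ∀ i j : ℤ, i + N ≤ j → ∀ x ∈ Sl i j, ∃ x' ∈ Sl i (j + 1), x' - x ∈ F (j - N)

/-- The tower for Selmer cochains. -/
def TowSelSt : Prop :=
  ∀ {G P : Type} [Group G] [TopologicalSpace G] [IsTopologicalGroup G] (A : AD G P) (R : Rp A.χ)
    (dy : P → Prop) (S₀ : Finset P), Std A R dy S₀ →
    (∀ n : ℕ, 1 ≤ n → Even (finrank (ZMod 2) (SS A R dy 0 n) + finrank (ZMod 2) (SS A R dy 1 n) +
      finrank (ZMod 2) (SS A R dy 0 1) + finrank (ZMod 2) (SS A R dy 1 1))) ∧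
    ∃ N : ℕ, ∀ i j : ℤ, i + N ≤ j → ∀ x, Sel A R dy i j x →
      ∃ x', Sel A R dy i (j + 1) x' ∧ ∀ g, x' g - x g ∈ T (j - N)

/-- Passage to the limit. -/
def LimSt : Prop :=
  ∀ {G P : Type} [Group G] [TopologicalSpace G] (A : AD G P) (R : Rp A.χ) (dy : P → Prop) (N : ℕ),
    (∀ i j : ℤ, i + N ≤ j → ∀ x, Sel A R dy i j x →
      ∃ x', Sel A R dy i (j + 1) x' ∧ ∀ g, x' g - x g ∈ T (j - N)) →
    ∀ (i : ℤ) (x : G → V), Sel A R dy i (i + N + 1) x → ∃ y, R.Coc ⊤ i y ∧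
      (∀ v j, R.LocC (A.D v) (dy v) i j y) ∧ ∀ g, lam i (y g) = lam i (x g)

/-- The torsion classes. -/
def TorSt : Prop :=
  ∀ {G : Type} [Group G] [TopologicalSpace G] {χ : G →* ℤ_[2]ˣ} (R : Rp χ) (D : Subgroup G),
    R.Bdd D → R.Cls D False ∧ Finite (R.W D False 0) ∧ Finite (R.W D False 1) ∧
      finrank (ZMod 2) (R.W D False 0) + finrank (ZMod 2) (R.W D False 1) = 2

/-- The formula of Greenberg and Wiles. -/
def GWSt : Prop :=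
  ∀ {G P : Type} [Group G] [TopologicalSpace G] [IsTopologicalGroup G] (A : AD G P) (R : Rp A.χ)
    (dy : P → Prop) (S₀ : Finset P), Std A R dy S₀ → (∀ i, Finite (SS A R dy i 1)) ∧
    2 * ((finrank (ZMod 2) (SS A R dy 0 1) : ℤ) - finrank (ZMod 2) (SS A R dy 1 1)) =
      ∑ v ∈ S₀, R.df (A.D v) (dy v)

/-- The abstract parity theorem. -/
def CoreSt : Prop :=
  ∀ {G P : Type} [Group G] [TopologicalSpace G] [IsTopologicalGroup G] (A : AD G P) (R : Rp A.χ)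
    (dy : P → Prop) (S₀ : Finset P), Std A R dy S₀ → (∀ v, R.Cls (A.D v) (dy v)) → R.Bdd ⊤ →
    (∀ x, R.Coc ⊤ 0 x → (∀ v, R.Z (A.D v) (dy v) 0 x) → ∃ u, ∀ g, x g = R.d1 u g) →
    (4 : ℤ) ∣ ∑ v ∈ S₀, R.df (A.D v) (dy v)

/-- A real place. -/
def RealSt : Prop :=
  ∀ {G : Type} [Group G] [TopologicalSpace G] {χ : G →* ℤ_[2]ˣ} (R : Rp χ) (c : G), c * c = 1 →
    R.η c = 1 → R.Cls (Subgroup.zpowers c) False ∧ R.Big (Subgroup.zpowers c) False ∧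
      R.df (Subgroup.zpowers c) False = -1

/-- Odd places. -/
structure OddSt : Prop where
  good : ∀ {G : Type} [Group G] [TopologicalSpace G] {χ : G →* ℤ_[2]ˣ} (R : Rp χ)
    (D I : Subgroup G), R.Bdd D → I ≤ D → (∀ g ∈ I, R.η g = 0 ∧ R.r g = 1 ∧ R.s g = 1) →
    (∀ f f', Hom D f → Hom D f' → (∀ g ∈ I, f g = 0) → (∀ g ∈ I, f' g = 0) →
      (∀ g ∈ D, f g = 0) ∨ (∀ g ∈ D, f' g = 0) ∨ ∀ g ∈ D, f g = f' g) → R.Good D I False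
  split : ∀ {G : Type} [Group G] [TopologicalSpace G] {χ : G →* ℤ_[2]ˣ} (R : Rp χ)
    (D : Subgroup G), (∀ g ∈ D, R.η g = 0) → (∃ g ∈ D, sg4 (R.r g) = 1) →
    (∃ g ∈ D, sg4 (R.s g) = 1) → R.df D False = if ∀ g ∈ D, sg4 (χ g) = 0 then 0 else 2
  nonsplit : ∀ {G : Type} [Group G] [TopologicalSpace G] {χ : G →* ℤ_[2]ˣ} (R : Rp χ)
    (D : Subgroup G), (∃ g ∈ D, R.η g = 1) → (∃ g ∈ D, R.η g = 0 ∧ sg4 (R.r g) = 1) →
    R.df D False = if ∀ g ∈ D, sg4 (χ g) = R.η g then -2 else 0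

/-- `f` is the reduction of an integral cocycle for the character `β`. -/
def Red {G : Type} [Group G] [TopologicalSpace G] (D : Subgroup G) (β : G → ℤ_[2]ˣ)
    (f : G → ZMod 2) : Prop :=
  ∃ s : G → ℚ_[2], ContinuousOn s D ∧ (∀ g ∈ D, ‖s g‖ ≤ 1) ∧
    (∀ g ∈ D, ∀ h ∈ D, s (g * h) = s g + ((β g : ℤ_[2]) : ℚ_[2]) * s h) ∧
    ∀ g ∈ D, (f g = 0 ↔ ‖s g‖ ≤ 1 / 2)

/-- Existence of local classes. -/
def RedSt : Prop :=
  ∀ {G : Type} [Group G] [TopologicalSpace G] [IsTopologicalGroup G] (D : Subgroup G)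
    (β : G → ℤ_[2]ˣ), ContinuousOn β D → (∀ g ∈ D, ∀ h ∈ D, β (g * h) = β g * β h) → Two D →
    ∀ f f', Hom D f → Hom D f' → Red D β f ∨ Red D β f' ∨ Red D β (f + f')

/-- The shape of the local conditions at a dyadic place. -/
def DyASt : Prop :=
  ∀ {G : Type} [Group G] [TopologicalSpace G] {χ : G →* ℤ_[2]ˣ} (R : Rp χ) (D : Subgroup G),
    (∀ g ∈ D, R.η g = 0) → (∃ g ∈ D, R.r g ≠ 1) → R.Cls D True ∧
    ∃ (k : ℕ) (α : G → ZMod 2), 1 ≤ k ∧ α ∈ Hm D ∧ α ≠ 0 ∧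
      (∀ g ∈ D, ‖((R.r g : ℤ_[2]) : ℚ_[2]) - 1‖ ≤ 1 / 2 ^ k) ∧
      (∀ g ∈ D, (α g = 0 ↔ ‖((R.r g : ℤ_[2]) : ℚ_[2]) - 1‖ ≤ 1 / 2 ^ (k + 1))) ∧
      (∀ f, f ∈ R.W D True 0 ↔ f ∈ Hm D ∧ (Red D R.s f ∨ Red D R.s (f + α))) ∧
      ∀ f, f ∈ R.W D True 1 ↔ (f = 0 ∨ f = α) ∧ Red D R.s f

/-- A dyadic place. -/
def DySt : Prop :=
  ∀ {G P : Type} [Group G] [TopologicalSpace G] [IsTopologicalGroup G] (A : AD G P) (R : Rp A.χ)
    (v : P), (∀ g ∈ A.D v, R.η g = 0) → (∃ g ∈ A.D v, R.r g ≠ 1) → Two (A.D v) →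
    finrank (ZMod 2) (Hm (A.D v)) = 3 → R.Cls (A.D v) True ∧ R.Big (A.D v) True ∧
      R.df (A.D v) True =
        1 + 2 * ((A.sym v (fun g => sg4 (R.r g)) fun g => sg4 (R.r g)).val : ℤ)

end Pool.Agent.SC
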