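import Pool.Agent.Lib.MP_b4b3cb_nt.StR

/-! Statements: compatibility of the Galois character with the Hecke character. -/

namespace Pool.Agent.SC

open NumberField Pool.Agent.Stark
open scoped Classical Pointwise

/-- The dyadic primes of a field in which `2` splits totally. -/
structure DyPrSt : Prop where
  ex : ∀ {L : Type} [Field L] [NumberField L] (ι : ℂ ≃+* PadicAlgCl 2),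
    (∀ (σ : L →+* ℂ) (x : L), ι (σ x) ∈ (algebraMap ℚ_[2] (PadicAlgCl 2)).range) →
    ∃ (t : (L →+* ℂ) → (L →+* ℚ_[2])) (dw : (L →+* ℂ) → Pr L), DY ι t dw
  int : ∀ {L : Type} [Field L] [NumberField L] {ι t} {dw : (L →+* ℂ) → Pr L}, DY ι t dw →
    ∀ σ (y : 𝓞 L), ‖t σ y‖ ≤ 1
  pow : ∀ {L : Type} [Field L] [NumberField L] {ι t} {dw : (L →+* ℂ) → Pr L}, DY ι t dw →
    ∀ σ (y : 𝓞 L) (n : ℕ), y ∈ (dw σ).asIdeal ^ n ↔ ‖t σ y‖ ≤ 1 / 2 ^ n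
  norm : ∀ {L : Type} [Field L] [NumberField L] {ι t} {dw : (L →+* ℂ) → Pr L}, DY ι t dw →
    ∀ σ, Ideal.absNorm (dw σ).asIdeal = 2 ∧ og (dw σ) (2 : L) = 1
  inj : ∀ {L : Type} [Field L] [NumberField L] {ι t} {dw : (L →+* ℂ) → Pr L}, DY ι t dw →
    Function.Injective dw
  surj : ∀ {L : Type} [Field L] [NumberField L] {ι t} {dw : (L →+* ℂ) → Pr L}, DY ι t dw →
    ∀ w : Pr L, og w (2 : L) ≠ 0 → ∃ σ, dw σ = w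

section KL

variable (K L : Type) [Field K] [NumberField K] [Field L] [NumberField L] [Algebra K L]

/-- The dyadic places. -/
def dyP : Pl K → Prop := Sum.elim (fun v => og v (2 : K) ≠ 0) fun _ => False

/-- The dyadic primes of the real subfield and the choice of primes above them. -/
def DyKSt : Prop :=
  ∀ {d : K} {E : Quad K L d} {a ι t} {dw : (L →+* ℂ) → Pr L}, CM E a → DY ι t dw →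
    (∀ v : Pr K, og v (2 : K) ≠ 0 → LSq v d ∧ og v (2 : K) = 1 ∧ Ideal.absNorm v.asIdeal = 2) ∧
    ∃ sec : Pr K → Pr L, (∀ v, below K (sec v) = v) ∧
      (∀ σ, a σ ≤ 0 → sec (below K (dw σ)) = dw σ) ∧
      ∀ S : Finset (Pr K), (∀ v ∉ S, og v (2 : K) = 0) →
        (S.filter fun v => og v (2 : K) ≠ 0).card = Fintype.card (K →+* ℝ) ∧
        ∑ v ∈ S, ∑ σ with dw σ = sec v, a σ = Fintype.card (K →+* ℝ) - ∑ k : Ty a, a k.1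

/-- The finite part is quadratic. -/
def QChiSt : Prop :=
  ∀ {d : K} {E : Quad K L d} {𝔣 a ψ ι t} {dw : (L →+* ℂ) → Pr L}, SignConj.IsHecke 𝔣 a ψ →
    CM E a → (∀ I : Ideal (𝓞 L), I ≠ ⊥ → IsCoprime I 𝔣 →
      ψ I * ψ (I.map E.sg) * Ideal.absNorm I = 1) → DY ι t dw →
    (∀ w : Pr L, Gd 𝔣 w → ι (ψ w.asIdeal) ∈ (algebraMap ℚ_[2] (PadicAlgCl 2)).range) →
    ∃ χ, HD E 𝔣 a ψ χ

end KL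

variable (K L Ω : Type) [Field K] [NumberField K] [Field L] [NumberField L] [Algebra K L]
  [Field Ω] [Algebra K Ω] [Algebra L Ω] [IsScalarTower K L Ω]

/-- The subgroup of index two. -/
structure GlSt : Prop where
  iff : ∀ {d : K} (E : Quad K L d) (g : Ω ≃ₐ[K] Ω),
    g ∈ Gs K Ω L ↔ kr (algebraMap L Ω E.rt) g = 0
  sq : ∀ {d : K} (E : Quad K L d), algebraMap L Ω E.rt ≠ 0 ∧
    algebraMap L Ω E.rt ^ 2 = algebraMap K Ω d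
  hom : ∀ {d : K} (E : Quad K L d), Hom ⊤ (kr (K := K) (algebraMap L Ω E.rt))
  tau : ∀ {d : K} (E : Quad K L d) (g : Ω ≃ₐ[K] Ω), g ∉ Gs K Ω L → ∀ x : L,
    g (algebraMap L Ω x) = algebraMap L Ω (E.tau x)
  normal : ∀ {d : K} (_ : Quad K L d), (Gs K Ω L).Normal
  act : ∀ {d : K} (E : Quad K L d) (g : Ω ≃ₐ[K] Ω), g ∉ Gs K Ω L → ∀ (𝔓 : Ideal (𝓞 Ω)) (w : Pr L),
    Over 𝔓 w → Over (g • 𝔓) (E.act w)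
  cj : ∀ {d : K} {E : Quad K L d} {a}, CM E a → ∀ {j : Ω →+* ℂ} {g : Ω ≃ₐ[K] Ω}, Cj j g →
    g ∉ Gs K Ω L
  plc : ∀ sec : Pr K → Pr L, (∀ v, below K (sec v) = v) →
    ∃ π : Plc K Ω, ∀ v, Over (π.pr v) (sec v)

/-- Comparison of the Galois groups over `K` and `L`. -/
structure TrfSt : Prop where
  cont : Continuous fun g : Ω ≃ₐ[L] Ω => g.restrictScalars K
  lift : ∃ u : (Ω ≃ₐ[K] Ω) → (Ω ≃ₐ[L] Ω), ContinuousOn u (Gs K Ω L) ∧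
    ∀ g ∈ Gs K Ω L, (u g).restrictScalars K = g
  fld : ∀ H : Subgroup (Ω ≃ₐ[K] Ω), IsOpen (H : Set (Ω ≃ₐ[K] Ω)) → H ≤ Gs K Ω L →
    (∀ g ∈ Gs K Ω L, ∀ h ∈ H, g * h * g⁻¹ ∈ H) → ∃ M : IntermediateField L Ω,
      FiniteDimensional L M ∧ IsGalois L M ∧ Gs K Ω M = H

/-- The values on principal ideals. -/
structure AvSt : Prop where
  mul : ∀ (fr : Pr L → ℤ_[2]ˣ) {x y : L}, x ≠ 0 → y ≠ 0 → av fr (x * y) = av fr x * av fr y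
  bad : ∀ {ι 𝔣 ψ} {ρ : (Ω ≃ₐ[K] Ω) → ℤ_[2]ˣ} {fr : Pr L → ℤ_[2]ˣ}, AT K ι 𝔣 ψ ρ fr → ∀ x : L,
    (∀ w, Gd 𝔣 w → og w x = 0) → av fr x = 1
  fin : ∀ {𝔣 : Ideal (𝓞 L)}, 𝔣 ≠ ⊥ → ∃ S : Finset (Pr L), ∀ w, w ∈ S ↔ ¬ Gd 𝔣 w
  prin : ∀ {d : K} {E : Quad K L d} {𝔣 a ψ χ ι t} {dw : (L →+* ℂ) → Pr L}
    {ρ : (Ω ≃ₐ[K] Ω) → ℤ_[2]ˣ} {fr},
    HD E 𝔣 a ψ χ → DY ι t dw → AT K ι 𝔣 ψ ρ fr → ∀ x : 𝓞 L, x ≠ 0 →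
    (∀ w, ¬ Gd 𝔣 w → x ∉ w.asIdeal) → ((av fr (x : L) : ℤ_[2]) : ℚ_[2]) = χ x * p2 t a (x : L)
  dual : ∀ {d : K} {E : Quad K L d} {𝔣 a ψ χ ι} {ρ : (Ω ≃ₐ[K] Ω) → ℤ_[2]ˣ} {fr},
    HD E 𝔣 a ψ χ → AT K ι 𝔣 ψ ρ fr → ∀ w, Gd 𝔣 w →
    (fr w : ℤ_[2]) * (fr (E.act w) : ℤ_[2]) = Ideal.absNorm w.asIdeal
  ne : ∀ {d : K} {E : Quad K L d} {𝔣 a ψ χ ι} {ρ : (Ω ≃ₐ[K] Ω) → ℤ_[2]ˣ} {fr},
    HD E 𝔣 a ψ χ → AT K ι 𝔣 ψ ρ fr → ∀ w, Gd 𝔣 w → fr w ≠ 1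
  neg : ∀ {ι 𝔣 ψ} {ρ : (Ω ≃ₐ[K] Ω) → ℤ_[2]ˣ} {fr : Pr L → ℤ_[2]ˣ}, AT K ι 𝔣 ψ ρ fr → ∀ w, Gd 𝔣 w →
    ∀ n : ℕ, (fr w : ℤ_[2]) = -n → ∃ r : ℝ, 0 < r ∧ ψ w.asIdeal = -r
  wt : ∀ {d : K} {E : Quad K L d} {a ι t} {dw : (L →+* ℂ) → Pr L}, CM E a → DY ι t dw →
    ∀ x : 𝓞 L, x ≠ 0 → p2 t a (x : L) ^ 2 = 1 → Ideal.absNorm (Ideal.span {x}) = 1

/-- The values on norms. -/
def NrmSt : Prop :=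
  ∀ {ι 𝔣 ψ} {ρ : (Ω ≃ₐ[K] Ω) → ℤ_[2]ˣ} {fr : Pr L → ℤ_[2]ˣ}, AT K ι 𝔣 ψ ρ fr →
    ∀ (M : Type) [Field M] [NumberField M] [Algebra K M] [Algebra L M] [Algebra M Ω]
      [IsScalarTower K M Ω] [IsScalarTower L M Ω] (k : ℕ),
      (∀ g ∈ Gs K Ω M, ‖((ρ g : ℤ_[2]) : ℚ_[2]) - 1‖ ≤ 1 / 2 ^ k) → ∀ z : 𝓞 M, z ≠ 0 →
      ‖((av fr (Algebra.norm L (z : M)) : ℤ_[2]) : ℚ_[2]) - 1‖ ≤ 1 / 2 ^ k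

/-- Approximation by norms at a totally split prime. -/
def NapSt : Prop :=
  ∀ (M : Type) [Field M] [NumberField M] [Algebra K M] [Algebra L M] [Algebra M Ω]
    [IsScalarTower K M Ω] [IsScalarTower L M Ω] [IsGalois L M] (𝔓 : Ideal (𝓞 Ω)) (w : Pr L),
    Over 𝔓 w → Dec K 𝔓 ⊓ Gs K Ω L ≤ Gs K Ω M → ∀ (β : 𝓞 L) (S : Finset (Pr L)) (n : ℕ),
    ∃ (z : 𝓞 M) (x : 𝓞 L), z ≠ 0 ∧ (x : L) = Algebra.norm L (z : M) ∧ x - β ∈ w.asIdeal ^ n ∧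
      ∀ w' ∈ S, w' ≠ w → x - 1 ∈ w'.asIdeal ^ n

/-- The character is nontrivial on the dyadic decomposition groups. -/
def F2St : Prop :=
  ∀ {d : K} {E : Quad K L d} {𝔣 a ψ χ ι t} {dw : (L →+* ℂ) → Pr L}
    {ρ : (Ω ≃ₐ[K] Ω) → ℤ_[2]ˣ} {fr},
    HD E 𝔣 a ψ χ → DY ι t dw → AT K ι 𝔣 ψ ρ fr → ∀ (𝔓 : Ideal (𝓞 Ω)) (w : Pr L), Over 𝔓 w →
    og w (2 : L) ≠ 0 → ∃ g ∈ Dec K 𝔓 ⊓ Gs K Ω L, ρ g ≠ 1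

/-- The induced representation. -/
def RpSt : Prop :=
  ∀ {d : K} {E : Quad K L d} {𝔣 a ψ χ ι} {ρ : (Ω ≃ₐ[K] Ω) → ℤ_[2]ˣ} {fr : Pr L → ℤ_[2]ˣ},
    HD E 𝔣 a ψ χ → AT K ι 𝔣 ψ ρ fr → ∀ χ' : (Ω ≃ₐ[K] Ω) →* ℤ_[2]ˣ, χ' = cyc K Ω →
    ∃ R : Rp χ', R.η = kr (K := K) (algebraMap L Ω E.rt) ∧ ∀ g ∈ Gs K Ω L, R.r g = ρ g

variable [IsAlgClosed Ω]

/-- The finite part in terms of Hilbert symbols. -/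
def F1aSt : Prop :=
  ∀ {d : K} {E : Quad K L d} {𝔣 a ψ χ ι t} {dw : (L →+* ℂ) → Pr L}
    {ρ : (Ω ≃ₐ[K] Ω) → ℤ_[2]ˣ} {fr},
    HD E 𝔣 a ψ χ → DY ι t dw → AT K ι 𝔣 ψ ρ fr → ∃ δ : L, δ ≠ 0 ∧
      (∀ g ∈ Gs K Ω L, sg4 (ρ g) = kr (rt Ω δ) g) ∧ (∀ w, Gd 𝔣 w → Even (og w δ)) ∧
      ∀ S : Finset (Pr L), (∀ w, w ∈ S ↔ ¬ Gd 𝔣 w) → ∀ x : 𝓞 L, x ≠ 0 →
        (∀ w ∈ S, x ∉ w.asIdeal) →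
        χ x = sg ℤ (∑ w ∈ S, hq w δ (x : L) + ∑ σ, (a σ : ZMod 2) * sq4 (t σ x))

/-- The local components of the finite part. -/
def F1St : Prop :=
  ∀ {d : K} {E : Quad K L d} {𝔣 a ψ χ ι t} {dw : (L →+* ℂ) → Pr L}
    {ρ : (Ω ≃ₐ[K] Ω) → ℤ_[2]ˣ} {fr},
    HD E 𝔣 a ψ χ → DY ι t dw → AT K ι 𝔣 ψ ρ fr → ∃ δ : L, δ ≠ 0 ∧
      (∀ g ∈ Gs K Ω L, sg4 (ρ g) = kr (rt Ω δ) g) ∧
      (∀ w : Pr L, og w (2 : L) = 0 → 𝔣 ≤ w.asIdeal → Odd (og w δ)) ∧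
      ∀ (w : Pr L) (x : 𝓞 L), Ng 𝔣 w x →
        χ x = sg ℤ (hq w δ (-1) + ((∑ σ with dw σ = w, a σ : ℤ) : ZMod 2))

variable {K L Ω} in
/-- The setting of the local computations. -/
structure LX {d : K} (E : Quad K L d) (𝔣 : Ideal (𝓞 L)) (ρ : (Ω ≃ₐ[K] Ω) → ℤ_[2]ˣ) (δ : L)
    (sec : Pr K → Pr L) (π : Plc K Ω) (A : AD (Ω ≃ₐ[K] Ω) (Pl K)) (R : Rp A.χ) : Prop where
  hχ : A.χ = cyc K Ω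
  hD : A.D = π.D
  hI : A.I = π.I
  hsym : A.sym = fun v => symz (π.D v)
  hsec : ∀ v, below K (sec v) = v
  hov : ∀ v, Over (π.pr v) (sec v)
  hη : R.η = kr (K := K) (algebraMap L Ω E.rt)
  hr : ∀ g ∈ Gs K Ω L, R.r g = ρ g
  ne : δ ≠ 0
  kum : ∀ g ∈ Gs K Ω L, sg4 (ρ g) = kr (rt Ω δ) g
  odd : ∀ w : Pr L, og w (2 : L) = 0 → 𝔣 ≤ w.asIdeal → Odd (og w δ)

/-- Dyadic and real places. -/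
structure LDySt : Prop where
  dy : ∀ {d : K} {E : Quad K L d} {𝔣 ρ δ sec} {π : Plc K Ω} {A R}, LX E 𝔣 ρ δ sec π A R →
    ∀ v : Pr K, LSq v d → og v (2 : K) = 1 → Ideal.absNorm v.asIdeal = 2 →
    (∃ g ∈ Dec K (π.pr v) ⊓ Gs K Ω L, ρ g ≠ 1) →
    (∀ g ∈ A.D (Sum.inl v), R.η g = 0) ∧ R.Cls (A.D (Sum.inl v)) True ∧
      R.Big (A.D (Sum.inl v)) True ∧
      R.df (A.D (Sum.inl v)) True = 1 + 2 * ((hq (sec v) δ (-1)).val : ℤ)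
  real : ∀ {d : K} {E : Quad K L d} {𝔣 a ρ δ sec} {π : Plc K Ω} {A R}, LX E 𝔣 ρ δ sec π A R →
    CM E a → ∀ φ : K →+* ℝ, R.Cls (A.D (Sum.inr φ)) False ∧ R.Big (A.D (Sum.inr φ)) False ∧
      R.df (A.D (Sum.inr φ)) False = -1

/-- Ramified and inert primes. -/
def RHSt : Prop :=
  ∀ {d : K} {E : Quad K L d} {𝔣 ψ ι ρ fr δ sec} {π : Plc K Ω} {A R}, LX E 𝔣 ρ δ sec π A R →
    AT K ι 𝔣 ψ ρ fr → (∀ v : Pr K, og v (2 : K) ≠ 0 → LSq v d) → RH E 𝔣 ψ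

/-- Good places. -/
def LGoodSt : Prop :=
  ∀ {d : K} {E : Quad K L d} {𝔣 a ψ χ ι ρ fr δ sec} {π : Plc K Ω} {A R}, LX E 𝔣 ρ δ sec π A R →
    HD E 𝔣 a ψ χ → AT K ι 𝔣 ψ ρ fr → RH E 𝔣 ψ → ∀ v : Pr K, og v (2 : K) = 0 →
    ¬ 𝔣 ≤ (sec v).asIdeal → R.Bdd (A.D (Sum.inl v)) ∧ R.Cls (A.D (Sum.inl v)) False ∧
      R.Big (A.D (Sum.inl v)) False ∧ R.Good (A.D (Sum.inl v)) (A.I (Sum.inl v)) False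

/-- Odd places dividing the conductor. -/
def LBadSt : Prop :=
  ∀ {d : K} {E : Quad K L d} {𝔣 ρ δ sec} {π : Plc K Ω} {A R}, LX E 𝔣 ρ δ sec π A R →
    ∀ v : Pr K, og v (2 : K) = 0 → 𝔣 ≤ (sec v).asIdeal →
    R.Cls (A.D (Sum.inl v)) False ∧ R.Big (A.D (Sum.inl v)) False ∧
      R.df (A.D (Sum.inl v)) False = if LSq v d then 2 * ((hq (sec v) δ (-1)).val : ℤ)
        else if LSq v (-d) then -2 else 0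

/-- From the induced representation back to the character. -/
def ShapSt : Prop :=
  ∀ {d : K} {E : Quad K L d} {𝔣 ρ δ sec} {π : Plc K Ω} {A R}, LX E 𝔣 ρ δ sec π A R →
    ∀ c : Ω ≃ₐ[K] Ω, c * c = 1 → c ∉ Gs K Ω L → ∀ x : (Ω ≃ₐ[K] Ω) → V, R.Coc ⊤ 0 x →
    (∀ v, R.Z (A.D v) (dyP K v) 0 x) → (¬ ∃ u, ∀ g, x g = R.d1 u g) →
    ∃ ξ : (Ω ≃ₐ[K] Ω) → ℚ_[2], Continuous ξ ∧
      (∀ g ∈ Gs K Ω L, ∀ h ∈ Gs K Ω L, ξ (g * h) = ξ g + ((ρ g : ℤ_[2]) : ℚ_[2]) * ξ h) ∧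
      (∀ 𝔓 : Ideal (𝓞 Ω), 𝔓.IsMaximal → (2 : 𝓞 Ω) ∉ 𝔓 → Cob ρ ξ (Dec K 𝔓 ⊓ Gs K Ω L)) ∧
      (∀ (𝔓 : Ideal (𝓞 Ω)) (v : Pr K), Over 𝔓 (sec v) → Cob ρ ξ (Dec K 𝔓 ⊓ Gs K Ω L)) ∧
      ¬ Cob ρ ξ (Gs K Ω L)

/-- The main theorem inside the big Galois group. -/
def MainGSt : Prop :=
  ∀ {d : K} {E : Quad K L d} {𝔣 a ψ χ ι t} {dw : (L →+* ℂ) → Pr L}
    {ρ : (Ω ≃ₐ[K] Ω) → ℤ_[2]ˣ} {fr},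
    HD E 𝔣 a ψ χ → DY ι t dw → AT K ι 𝔣 ψ ρ fr → SignConj.SignNeg a ψ →
    ∃ ξ : (Ω ≃ₐ[K] Ω) → ℚ_[2], Continuous ξ ∧
      (∀ g ∈ Gs K Ω L, ∀ h ∈ Gs K Ω L, ξ (g * h) = ξ g + ((ρ g : ℤ_[2]) : ℚ_[2]) * ξ h) ∧
      (∀ 𝔓 : Ideal (𝓞 Ω), 𝔓.IsMaximal → (2 : 𝓞 Ω) ∉ 𝔓 → Cob ρ ξ (Dec K 𝔓 ⊓ Gs K Ω L)) ∧
      (∀ (𝔓 : Ideal (𝓞 Ω)) (σ : L →+* ℂ), a σ ≤ 0 → Over 𝔓 (dw σ) →
        Cob ρ ξ (Dec K 𝔓 ⊓ Gs K Ω L)) ∧ ¬ Cob ρ ξ (Gs K Ω L)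

end Pool.Agent.SC
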