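import Pool.Agent.Lib.MP_b4b3cb_nt.DefsH

/-! Statements: toolboxes on ideals and the functional equation. -/

namespace Pool.Agent.SC

open NumberField Pool.Agent.Stark
open scoped Classical ComplexConjugate

/-- The Fourier transform of the harmonic Gaussian. -/
def FourSt : Prop :=
  ∀ {κ : Type} [Fintype κ] (m : κ → ℕ) (w : κ ⊕ κ → ℝ),
    ∫ p : κ ⊕ κ → ℝ, Complex.exp (-(2 * Real.pi * Complex.I) * ((∑ i, w i * p i : ℝ) : ℂ)) *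
      fm m p = (-Complex.I) ^ (∑ k, m k) * fm m w

/-- Poisson summation for the harmonic Gaussian. -/
def PoisSt : Prop :=
  ∀ {κ : Type} [Fintype κ] (m : κ → ℕ) (B : Matrix (κ ⊕ κ) (κ ⊕ κ) ℝ), B.det ≠ 0 →
    ∀ c : κ ⊕ κ → ℝ, (Summable fun n : κ ⊕ κ → ℤ => ‖fm m (lpt B n + c)‖) ∧
      ∑' n : κ ⊕ κ → ℤ, fm m (lpt B n + c) = (-Complex.I) ^ (∑ k, m k) / (|B.det| : ℝ) *
        ∑' n : κ ⊕ κ → ℤ, fm m (lpt (B⁻¹).transpose n) *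
          Complex.exp (2 * Real.pi * Complex.I * ((∑ i, lpt (B⁻¹).transpose n i * c i : ℝ) : ℂ))

/-- Elementary facts on the Gaussians. -/
structure FzSt : Prop where
  fm_co : ∀ {κ : Type} [Fintype κ] (m : κ → ℕ) (y : κ → ℝ) (z : κ → ℂ),
    fz m y z = ((Real.exp (∑ k, y k) / √2 ^ (∑ k, m k) : ℝ) : ℂ) *
      fm m (fun i => Real.exp (y (i.elim id id)) * co z i)
  scale : ∀ {κ : Type} [Fintype κ] (m : κ → ℕ) (y : κ → ℝ) (α z : κ → ℂ), (∀ k, α k ≠ 0) →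
    fz m y (fun k => α k * z k) = pz m α * fz m (fun k => y k + Real.log ‖α k‖) z
  zero : ∀ {κ : Type} [Fintype κ] (m : κ → ℕ) (y : κ → ℝ), (∃ k, m k ≠ 0) → fz m y 0 = 0
  co_add : ∀ {κ : Type} (z z' : κ → ℂ), co (z + z') = co z + co z'
  co_dot : ∀ {κ : Type} [Fintype κ] (z z' : κ → ℂ),
    ∑ i, co z i * co z' i = ∑ k, 2 * (z k * conj (z' k)).re
  pz_mul : ∀ {κ : Type} [Fintype κ] (m : κ → ℕ) (α z : κ → ℂ),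
    pz m (fun k => α k * z k) = pz m α * pz m z
  norm_pz : ∀ {κ : Type} [Fintype κ] (m : κ → ℕ) (z : κ → ℂ), (∀ k, z k ≠ 0) →
    ‖pz m z‖ ^ 2 * ∏ k, ‖z k‖ ^ 2 = 1

/-- Continuity and decay of theta series. -/
def DecSt : Prop :=
  ∀ {κ : Type} [Fintype κ] (m : κ → ℕ) (B : Matrix (κ ⊕ κ) (κ ⊕ κ) ℝ) (X : Type) (z : X → κ → ℂ)
    (v : X ≃ (κ ⊕ κ → ℤ)) (w : X → ℂ), B.det ≠ 0 → (∃ k, m k ≠ 0) →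
    (∀ x, lpt B (v x) = co (z x)) → (∀ x, ‖w x‖ ≤ 1) →
    AdmP fun y => ∑' x, w x * fz m y (z x)

/-- The Mellin transform. -/
structure MelSt : Prop where
  adm : ∀ {κ : Type} [Fintype κ] (θ θ' : (κ → ℝ) → ℂ) (C : ℂ) (ℓ : κ → ℝ), AdmP θ → AdmP θ' →
    (∀ y, θ y = C * θ' (ℓ - y)) → Adm θ
  diff : ∀ {κ : Type} [Fintype κ] {r : ℕ} (θ : (κ → ℝ) → ℂ) (l : Fin r → κ → ℝ) (y₀ : κ → ℝ),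
    Adm θ → Differentiable ℂ (mel θ l y₀)
  refl : ∀ {κ : Type} [Fintype κ] {r : ℕ} (θ θ' : (κ → ℝ) → ℂ) (C : ℂ) (ℓ : κ → ℝ)
    (l : Fin r → κ → ℝ) (y₀ : κ → ℝ) (s : ℂ), (∀ y, θ y = C * θ' (ℓ - y)) →
    mel θ l y₀ s = C * mel θ' (-l) (ℓ - y₀) (-s)

/-- The Gamma integral. -/
def GamISt : Prop :=
  ∀ {κ : Type} [Fintype κ] {r : ℕ} (l : Fin r → κ → ℝ) (e : Option (Fin r) ≃ κ),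
    (∀ j, ∑ k, l j k = 0) →
    (Matrix.of fun i j : Option (Fin r) => i.elim 1 fun i' => l i' (e j)).det ≠ 0 →
    ∃ c₀ : ℝ, 0 < c₀ ∧ ∀ (m : κ → ℕ) (x : κ → ℂ) (l' : Fin r → κ → ℝ) (y₀ : κ → ℝ) (s : ℂ),
      l' = l ∨ l' = -l → (∀ k, x k ≠ 0) → 0 < s.re →
      MeasureTheory.Integrable (fun p : (Fin r → ℝ) × ℝ =>
        fz m (fun k => y₀ k + ∑ j, p.1 j * l' j k + p.2) x *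
          Complex.exp (2 * (Fintype.card κ : ℂ) * s * p.2)) ∧
      ∫ p : (Fin r → ℝ) × ℝ, fz m (fun k => y₀ k + ∑ j, p.1 j * l' j k + p.2) x *
          Complex.exp (2 * (Fintype.card κ : ℂ) * s * p.2) =
        c₀ * Complex.exp (-2 * s * ((∑ k, y₀ k : ℝ) : ℂ)) *
          (∏ k, Complex.Gammaℂ (s + ((m k : ℂ) + 1) / 2)) *
          (pz m x * ((∏ k, ‖x k‖ ^ 2 : ℝ) : ℂ) ^ (-s))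

/-- Unfolding. -/
def UnfSt : Prop :=
  ∀ {κ : Type} [Fintype κ] {r : ℕ} (l : Fin r → κ → ℝ) (e : Option (Fin r) ≃ κ),
    (∀ j, ∑ k, l j k = 0) →
    (Matrix.of fun i j : Option (Fin r) => i.elim 1 fun i' => l i' (e j)).det ≠ 0 →
    ∃ c₀ : ℝ, 0 < c₀ ∧ ∀ (A : Type) [Countable A] (m : κ → ℕ) (x : A → κ → ℂ) (cf : A → ℂ)
      (θ : (κ → ℝ) → ℂ) (l' : Fin r → κ → ℝ) (y₀ : κ → ℝ) (s : ℂ), l' = l ∨ l' = -l →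
      (∀ α k, x α k ≠ 0) →
      (∀ y, θ y = ∑' q : A × (Fin r → ℤ),
        cf q.1 * fz m (fun k => y k + ∑ j, (q.2 j : ℝ) * l j k) (x q.1)) → 0 < s.re →
      (Summable fun α => ‖cf α * pz m (x α)‖ * (∏ k, ‖x α k‖ ^ 2) ^ (-s.re)) →
      mel θ l' y₀ s = c₀ * Complex.exp (-2 * s * ((∑ k, y₀ k : ℝ) : ℂ)) *
        (∏ k, Complex.Gammaℂ (s + ((m k : ℂ) + 1) / 2)) *
        ∑' α, cf α * pz m (x α) * ((∏ k, ‖x α k‖ ^ 2 : ℝ) : ℂ) ^ (-s)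

/-- Exponents of primes in ideals, approximation. -/
structure CnSt : Prop where
  le_pow : ∀ {F : Type} [Field F] [NumberField F] {𝔪 : Ideal (𝓞 F)}, 𝔪 ≠ ⊥ → ∀ (w : Pr F) (n : ℕ),
    𝔪 ≤ w.asIdeal ^ n ↔ n ≤ cn 𝔪 w
  mem : ∀ {F : Type} [Field F] [NumberField F] {𝔪 : Ideal (𝓞 F)}, 𝔪 ≠ ⊥ → ∀ x : 𝓞 F,
    x ∈ 𝔪 ↔ ∀ w : Pr F, x ∈ w.asIdeal ^ cn 𝔪 w
  mul : ∀ {F : Type} [Field F] [NumberField F] {𝔪 𝔫 : Ideal (𝓞 F)}, 𝔪 ≠ ⊥ → 𝔫 ≠ ⊥ → ∀ w : Pr F,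
    cn (𝔪 * 𝔫) w = cn 𝔪 w + cn 𝔫 w
  span : ∀ {F : Type} [Field F] [NumberField F] {x : 𝓞 F}, x ≠ 0 → ∀ w : Pr F,
    (cn (Ideal.span {x}) w : ℤ) = og w (x : F)
  fin : ∀ {F : Type} [Field F] [NumberField F] {𝔪 : Ideal (𝓞 F)}, 𝔪 ≠ ⊥ →
    {w : Pr F | 𝔪 ≤ w.asIdeal}.Finite
  zero : ∀ {F : Type} [Field F] [NumberField F] {𝔪 : Ideal (𝓞 F)}, 𝔪 ≠ ⊥ → ∀ w : Pr F,
    cn 𝔪 w = 0 ↔ ¬ 𝔪 ≤ w.asIdeal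
  pow : ∀ {F : Type} [Field F] [NumberField F] (w w' : Pr F) (n : ℕ),
    cn (w.asIdeal ^ n) w' = if w' = w then n else 0
  prod : ∀ {F : Type} [Field F] [NumberField F] {𝔪 : Ideal (𝓞 F)}, 𝔪 ≠ ⊥ → ∀ S : Finset (Pr F),
    (∀ w ∉ S, ¬ 𝔪 ≤ w.asIdeal) → 𝔪 = ∏ w ∈ S, w.asIdeal ^ cn 𝔪 w
  mk' : ∀ {F : Type} [Field F] [NumberField F] (n : Pr F → ℕ), {w | n w ≠ 0}.Finite →
    ∃ 𝔪 : Ideal (𝓞 F), 𝔪 ≠ ⊥ ∧ ∀ w, cn 𝔪 w = n w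
  ext : ∀ {F : Type} [Field F] [NumberField F] {𝔪 𝔫 : Ideal (𝓞 F)}, 𝔪 ≠ ⊥ → 𝔫 ≠ ⊥ →
    (∀ w : Pr F, cn 𝔪 w = cn 𝔫 w) → 𝔪 = 𝔫
  cop : ∀ {F : Type} [Field F] [NumberField F] (𝔪 : Ideal (𝓞 F)) {𝔫 : Ideal (𝓞 F)}, 𝔫 ≠ ⊥ →
    (IsCoprime 𝔪 𝔫 ↔ ∀ w : Pr F, 𝔫 ≤ w.asIdeal → ¬ 𝔪 ≤ w.asIdeal)
  cop_span : ∀ {F : Type} [Field F] [NumberField F] (x : 𝓞 F) {𝔫 : Ideal (𝓞 F)}, 𝔫 ≠ ⊥ →
    (IsCoprime (Ideal.span {x}) 𝔫 ↔ ∀ w : Pr F, 𝔫 ≤ w.asIdeal → x ∉ w.asIdeal)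
  crt : ∀ {F : Type} [Field F] [NumberField F] (S : Finset (Pr F)) (x : Pr F → 𝓞 F) (n : ℕ),
    ∃ y : 𝓞 F, y ≠ 0 ∧ ∀ w ∈ S, y - x w ∈ w.asIdeal ^ n
  ex : ∀ {F : Type} [Field F] [NumberField F] (n : Pr F → ℤ), {w | n w ≠ 0}.Finite →
    ∀ S : Finset (Pr F), ∃ x : F, x ≠ 0 ∧ (∀ w ∈ S, og w x = n w) ∧ ∀ w, n w ≤ og w x
  inv : ∀ {F : Type} [Field F] [NumberField F] {𝔞 𝔣 : Ideal (𝓞 F)}, 𝔞 ≠ ⊥ → 𝔣 ≠ ⊥ →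
    ∃ (𝔟 : Ideal (𝓞 F)) (β : 𝓞 F), β ≠ 0 ∧ IsCoprime 𝔟 𝔣 ∧ 𝔞 * 𝔟 = Ideal.span {β}
  cls : ∀ {F : Type} [Field F] [NumberField F] (𝔞 : Ideal (𝓞 F)), 𝔞 ≠ ⊥ →
    ∃ (h : ℕ) (β : 𝓞 F), h ≠ 0 ∧ β ≠ 0 ∧ 𝔞 ^ h = Ideal.span {β}
  lsq : ∀ {F : Type} [Field F] [NumberField F] (w : Pr F) (x y : 𝓞 F) (n : ℕ),
    2 * og w (2 : F) < n → y ∉ w.asIdeal → x - y ∈ w.asIdeal ^ n → LSq w ((x : F) * y)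
  idm : ∀ {F : Type} [Field F] [NumberField F] {𝔣 : Ideal (𝓞 F)}, 𝔣 ≠ ⊥ → ∀ w : Pr F,
    ∃ e, Idm 𝔣 w e
  du : ∀ {F : Type} [Field F] [NumberField F] {j : Pr F → ℤ}, IsJ j → ∀ {𝔪 : Ideal (𝓞 F)}, 𝔪 ≠ ⊥ →
    ∀ z : F, (∀ x ∈ 𝔪, eTr (z * (x : F)) = 1) ↔ ∀ w : Pr F, z ∈ pw (w.valuation F) (j w - cn 𝔪 w)
  dinv : ∀ {F : Type} [Field F] [NumberField F] {𝔪 : Ideal (𝓞 F)}, 𝔪 ≠ ⊥ → ∀ z : F,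
    (∀ c ∈ 𝔪, ∃ u : 𝓞 F, (u : F) = z * (c : F)) ↔ ∀ w : Pr F, z ∈ pw (w.valuation F) (-cn 𝔪 w)

/-- Sums over residue classes. -/
structure GsSt : Prop where
  ex : ∀ {F : Type} [Field F] [NumberField F] {𝔪 : Ideal (𝓞 F)} (𝔟 : Ideal (𝓞 F)), 𝔪 ≠ ⊥ →
    ∃ R, IsRep 𝔪.toAddSubgroup 𝔟.toAddSubgroup R
  rep : ∀ {F : Type} [Field F] [NumberField F] {𝔪 : Ideal (𝓞 F)} {f : 𝓞 F → ℂ} {R : Finset (𝓞 F)},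
    Per 𝔪 f → IsRep 𝔪.toAddSubgroup ⊤ R → gs 𝔪 f = ∑ x ∈ R, f x
  top : ∀ {F : Type} [Field F] [NumberField F] {f : 𝓞 F → ℂ}, Per ⊤ f → gs ⊤ f = f 0
  unit : ∀ {F : Type} [Field F] [NumberField F] {𝔪 : Ideal (𝓞 F)} {f : 𝓞 F → ℂ} {u : 𝓞 F},
    𝔪 ≠ ⊥ → Per 𝔪 f → IsCoprime (Ideal.span {u}) 𝔪 → gs 𝔪 (fun x => f (u * x)) = gs 𝔪 f
  equiv : ∀ {F : Type} [Field F] [NumberField F] {𝔪 𝔪' : Ideal (𝓞 F)} {f : 𝓞 F → ℂ}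
    (φ : 𝓞 F ≃+* 𝓞 F), 𝔪 ≠ ⊥ → Per 𝔪 f → (∀ x, x ∈ 𝔪' ↔ φ x ∈ 𝔪) →
    gs 𝔪' (fun x => f (φ x)) = gs 𝔪 f
  smul : ∀ {F : Type} [Field F] [NumberField F] (𝔪 : Ideal (𝓞 F)) (c : ℂ) (f : 𝓞 F → ℂ),
    gs 𝔪 (fun x => c * f x) = c * gs 𝔪 f
  cj : ∀ {F : Type} [Field F] [NumberField F] (𝔪 : Ideal (𝓞 F)) (f : 𝓞 F → ℂ),
    gs 𝔪 (fun x => conj (f x)) = conj (gs 𝔪 f)
  crt : ∀ {F : Type} [Field F] [NumberField F] (S : Finset (Pr F)) (n : Pr F → ℕ)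
    (f : Pr F → 𝓞 F → ℂ), (∀ w ∈ S, Per (w.asIdeal ^ n w) (f w)) →
    gs (∏ w ∈ S, w.asIdeal ^ n w) (fun x => ∏ w ∈ S, f w x) =
      ∏ w ∈ S, gs (w.asIdeal ^ n w) (f w)
  quad : ∀ {F : Type} [Field F] [NumberField F] (w : Pr F) (f : 𝓞 F → ℤ) (e : 𝓞 F → ℂ),
    og w (2 : F) = 0 → Per w.asIdeal f → (∀ x y, f (x * y) = f x * f y) →
    (∀ x ∈ w.asIdeal, f x = 0) → (∀ x ∉ w.asIdeal, f x = 1 ∨ f x = -1) → (∃ x, f x = -1) →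
    (∀ x y, e (x + y) = e x * e y) → (∀ x ∈ w.asIdeal, e x = 1) → (∃ x, e x ≠ 1) →
    gs w.asIdeal (fun x => f x * e x) = gs w.asIdeal fun x => e (x ^ 2)

variable (K L : Type) [Field K] [NumberField K] [Field L] [NumberField L] [Algebra K L]

/-- Primes and traces in a quadratic extension. -/
structure QdSt : Prop where
  sg_sg : ∀ {d : K} (E : Quad K L d) (x : 𝓞 L), E.sg (E.sg x) = x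
  act_act : ∀ {d : K} (E : Quad K L d) (w : Pr L), E.act (E.act w) = w
  below_act : ∀ {d : K} (E : Quad K L d) (w : Pr L), below K (E.act w) = below K w
  act_ideal : ∀ {d : K} (E : Quad K L d) (w : Pr L), (E.act w).asIdeal = w.asIdeal.map E.sg
  mem_map : ∀ {d : K} (E : Quad K L d) (𝔪 : Ideal (𝓞 L)) (x : 𝓞 L), x ∈ 𝔪.map E.sg ↔ E.sg x ∈ 𝔪
  map_ne : ∀ {d : K} (E : Quad K L d) {𝔪 : Ideal (𝓞 L)}, 𝔪 ≠ ⊥ → 𝔪.map E.sg ≠ ⊥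
  map_map : ∀ {d : K} (E : Quad K L d) (𝔪 : Ideal (𝓞 L)), (𝔪.map E.sg).map E.sg = 𝔪
  norm_map : ∀ {d : K} (E : Quad K L d) (𝔪 : Ideal (𝓞 L)),
    Ideal.absNorm (𝔪.map E.sg) = Ideal.absNorm 𝔪
  cn_act : ∀ {d : K} (E : Quad K L d) {𝔪 : Ideal (𝓞 L)}, 𝔪 ≠ ⊥ → ∀ w : Pr L,
    cn (𝔪.map E.sg) (E.act w) = cn 𝔪 w
  eI_act : ∀ {d : K} (E : Quad K L d) (w : Pr L), eI K (E.act w) = eI K w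
  two : ∀ w : Pr L, og w (2 : L) = 0 ↔ og (below K w) (2 : K) = 0
  ram : ∀ {d : K} (_ : Quad K L d) (w : Pr L), og (below K w) (2 : K) = 0 →
    (eI K w = 2 ↔ Odd (og (below K w) d))
  mem_below : ∀ (w : Pr L) (x : 𝓞 K),
    x ∈ (below K w).asIdeal ↔ algebraMap (𝓞 K) (𝓞 L) x ∈ w.asIdeal
  pow_below : ∀ (w : Pr L) (x : 𝓞 K) (n : ℕ), x ∈ (below K w).asIdeal ^ n →
    algebraMap (𝓞 K) (𝓞 L) x ∈ w.asIdeal ^ n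
  tr : ∀ {d : K} (E : Quad K L d) (g h : K),
    eTr (algebraMap K L g + algebraMap K L h * E.rt) = eTr (2 * g)
  tr_tau : ∀ {d : K} (E : Quad K L d) (z : L), eTr (E.tau z) = eTr z
  tr_int : ∀ {d : K} (E : Quad K L d) (y : 𝓞 L), ∃ t : 𝓞 K,
    algebraMap (𝓞 K) (𝓞 L) t = y + E.sg y ∧
      ∀ γ : K, eTr (algebraMap K L γ * (y : L)) = eTr (γ * (t : K))

/-- Embeddings of a CM field. -/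
structure CmSt : Prop where
  ne : ∀ {d : K} {E : Quad K L d} {a : (L →+* ℂ) → ℤ}, CM E a → Nonempty (Ty a)
  mm_eq : ∀ {a : (L →+* ℂ) → ℤ} (k : Ty a), (mm a k : ℤ) = 2 * a k.1 - 1
  prod : ∀ {d : K} {E : Quad K L d} {a : (L →+* ℂ) → ℤ}, CM E a → ∀ {M : Type} [CommMonoid M]
    (f : (L →+* ℂ) → M), ∏ σ, f σ = ∏ k : Ty a, f k.1 * f (ComplexEmbedding.conjugate k.1)
  real : ∀ {d : K} {E : Quad K L d} {a : (L →+* ℂ) → ℤ}, CM E a → ∃ e : Ty a ≃ (K →+* ℝ),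
    ∀ k x, k.1 (algebraMap K L x) = e k x
  place : ∀ {d : K} {E : Quad K L d} {a : (L →+* ℂ) → ℤ}, CM E a →
    ∃ e : Ty a ≃ InfinitePlace L, ∀ k x, e k x = ‖k.1 x‖ ∧ (e k).mult = 2
  noreal : ∀ {d : K} {E : Quad K L d} {a : (L →+* ℂ) → ℤ}, CM E a → IsEmpty (L →+* ℝ)
  neg : ∀ {d : K} {E : Quad K L d} {a : (L →+* ℂ) → ℤ}, CM E a → ∀ φ : K →+* ℝ, φ d < 0
  card : ∀ {d : K} {E : Quad K L d} {a : (L →+* ℂ) → ℤ}, CM E a →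
    Fintype.card (Ty a ⊕ Ty a) = Module.finrank ℚ L
  pinf_eq : ∀ {d : K} {E : Quad K L d} {a : (L →+* ℂ) → ℤ}, CM E a → ∀ x : L, x ≠ 0 →
    pinf a x = pz (mm a) (ez a x)
  pinf_mul : ∀ (a : (L →+* ℂ) → ℤ) (x y : L), pinf a (x * y) = pinf a x * pinf a y
  pinf_ne : ∀ (a : (L →+* ℂ) → ℤ) (x : L), x ≠ 0 → pinf a x ≠ 0
  pinf_alg : ∀ {d : K} {E : Quad K L d} {a : (L →+* ℂ) → ℤ}, CM E a → ∀ γ : K, γ ≠ 0 →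
    pinf a (algebraMap K L γ) = ∏ φ : K →+* ℝ, ((φ γ : ℝ) : ℂ)⁻¹
  norm : ∀ {d : K} {E : Quad K L d} {a : (L →+* ℂ) → ℤ}, CM E a → ∀ x : 𝓞 L,
    ∏ k : Ty a, ‖k.1 (x : L)‖ ^ 2 = Ideal.absNorm (Ideal.span {x})
  pinf_tau : ∀ {d : K} {E : Quad K L d} {a : (L →+* ℂ) → ℤ}, CM E a → ∀ x : 𝓞 L, x ≠ 0 →
    pinf a (x : L) * pinf a (E.tau x) * Ideal.absNorm (Ideal.span {x}) = 1 ∧
      ‖pinf a (x : L)‖ ^ 2 * Ideal.absNorm (Ideal.span {x}) = 1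
  trace : ∀ {d : K} {E : Quad K L d} {a : (L →+* ℂ) → ℤ}, CM E a → ∀ x y : L,
    ((Algebra.trace ℚ L (x * E.tau y) : ℚ) : ℝ) = ∑ i, co (ez a x) i * co (ez a y) i

/-- Consequences of conjugate duality. -/
structure HDSt : Prop where
  sym : ∀ {d : K} {E : Quad K L d} {𝔣 a ψ χ}, HD E 𝔣 a ψ χ → 𝔣.map E.sg = 𝔣 ∧ ∀ x, χ (E.sg x) = χ x
  off : ∀ {d : K} {E : Quad K L d} {𝔣 a ψ χ}, HD E 𝔣 a ψ χ → ∀ I : Ideal (𝓞 L), I ≠ ⊥ →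
    ¬ IsCoprime I 𝔣 → ψ I = 0
  norm : ∀ {d : K} {E : Quad K L d} {𝔣 a ψ χ}, HD E 𝔣 a ψ χ → ∀ I : Ideal (𝓞 L), I ≠ ⊥ →
    IsCoprime I 𝔣 → ‖ψ I‖ ^ 2 * Ideal.absNorm I = 1
  le : ∀ {d : K} {E : Quad K L d} {𝔣 a ψ χ}, HD E 𝔣 a ψ χ → ∀ I : Ideal (𝓞 L), I ≠ ⊥ → ‖ψ I‖ ≤ 1
  unit : ∀ {d : K} {E : Quad K L d} {𝔣 a ψ χ}, HD E 𝔣 a ψ χ → ∀ u : (𝓞 L)ˣ,
    (χ u : ℂ) * pinf a ((u : 𝓞 L) : L) = 1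
  odd : ∀ {d : K} {E : Quad K L d} {𝔣 a ψ χ}, HD E 𝔣 a ψ χ → ∀ w : Pr L, og w (2 : L) = 0 →
    cn 𝔣 w ≤ 1
  act : ∀ {d : K} {E : Quad K L d} {𝔣 a ψ χ}, HD E 𝔣 a ψ χ → ∀ w : Pr L,
    cn 𝔣 (E.act w) = cn 𝔣 w ∧ (𝔣 ≤ (E.act w).asIdeal ↔ 𝔣 ≤ w.asIdeal) ∧ (Gd 𝔣 (E.act w) ↔ Gd 𝔣 w)
  loc : ∀ {d : K} {E : Quad K L d} {𝔣 a ψ χ}, HD E 𝔣 a ψ χ → ∀ w : Pr L, 𝔣 ≤ w.asIdeal →
    ∃ x, χ x = -1 ∧ ∀ w' : Pr L, w' ≠ w → x - 1 ∈ w'.asIdeal ^ cn 𝔣 w'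

/-- Ideals as lattices. -/
def BasSt : Prop :=
  ∀ {d : K} {E : Quad K L d} {a : (L →+* ℂ) → ℤ}, CM E a → ∃ Vol : ℝ, 0 < Vol ∧
    ∀ 𝔪 : Ideal (𝓞 L), 𝔪 ≠ ⊥ → ∃ (B : Matrix (Ty a ⊕ Ty a) (Ty a ⊕ Ty a) ℝ)
      (v : 𝔪 ≃ (Ty a ⊕ Ty a → ℤ)) (v' : Du E 𝔪 ≃ (Ty a ⊕ Ty a → ℤ)),
      |B.det| = Ideal.absNorm 𝔪 * Vol ∧ (∀ x, lpt B (v x) = co (ez a (x.1 : L))) ∧
        ∀ ξ, lpt (B⁻¹).transpose (v' ξ) = co (ez a ξ.1)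

/-- Poisson summation for an ideal. -/
def PoisLSt : Prop :=
  ∀ {d : K} {E : Quad K L d} {a : (L →+* ℂ) → ℤ}, CM E a → ∃ Vol : ℝ, 0 < Vol ∧
    ∀ 𝔪 : Ideal (𝓞 L), 𝔪 ≠ ⊥ → ∀ (m : Ty a → ℕ) (y : Ty a → ℝ) (c : 𝓞 L),
      (Summable fun x : 𝔪 => ‖fz m y (ez a ((c + x.1 : 𝓞 L) : L))‖) ∧
      (Summable fun ξ : Du E 𝔪 => ‖fz m (-y) (ez a ξ.1)‖) ∧
      ∑' x : 𝔪, fz m y (ez a ((c + x.1 : 𝓞 L) : L)) =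
        (-Complex.I) ^ (∑ k, m k) / ((Ideal.absNorm 𝔪 * Vol : ℝ) : ℂ) *
          ∑' ξ : Du E 𝔪, fz m (-y) (ez a ξ.1) * eTr ((c : L) * E.tau ξ.1)

/-- The dual lattice and the twisted Gauss sums. -/
def GaussSt : Prop :=
  ∀ {d : K} {E : Quad K L d} {𝔣 𝔠 a ψ χ γ₀}, HD E 𝔣 a ψ χ → Gm E 𝔣 𝔠 γ₀ →
    ∀ (𝔟 𝔟' : Ideal (𝓞 L)) (β : 𝓞 L), IsCoprime 𝔟 𝔣 → IsCoprime 𝔟' 𝔣 → β ≠ 0 →
    𝔟.map E.sg * 𝔠 * 𝔟' = Ideal.span {β} →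
    (∀ ξ : L, ξ ∈ Du E (𝔣 * 𝔟) ↔ ∃ x ∈ 𝔟', ξ = algebraMap K L γ₀ / β * (x : L)) ∧
    ∀ R : Finset (𝓞 L), IsRep (𝔣 * 𝔟).toAddSubgroup 𝔟.toAddSubgroup R → ∀ x ∈ 𝔟',
      ∑ c ∈ R, (χ c : ℂ) * eTr ((c : L) * E.tau (algebraMap K L γ₀ / β * (x : L))) =
        χ β * χ x * tau0 𝔣 χ (algebraMap K L γ₀)

/-- The functional equation of the theta series. -/
def ThFESt : Prop :=
  ∀ {d : K} {E : Quad K L d} {𝔣 𝔠 a ψ χ γ₀}, HD E 𝔣 a ψ χ → Gm E 𝔣 𝔠 γ₀ → ∃ Vol : ℝ, 0 < Vol ∧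
    ∀ (𝔟 𝔟' : Ideal (𝓞 L)) (β : 𝓞 L), IsCoprime 𝔟 𝔣 → IsCoprime 𝔟' 𝔣 → β ≠ 0 →
    𝔟.map E.sg * 𝔠 * 𝔟' = Ideal.span {β} → ∀ y : Ty a → ℝ,
      th a χ 𝔟 y = (-Complex.I) ^ (∑ k, mm a k) * tau0 𝔣 χ (algebraMap K L γ₀) * χ β *
        pinf a (algebraMap K L γ₀ / β) / ((Ideal.absNorm (𝔣 * 𝔟) * Vol : ℝ) : ℂ) *
        th a χ 𝔟' ((fun k : Ty a => Real.log ‖k.1 (algebraMap K L γ₀ / β)‖) - y)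

/-- The Mellin transform of a theta series is the series of an ideal class. -/
def ClsSt : Prop :=
  ∀ {d : K} {E : Quad K L d} {𝔣 a ψ χ}, HD E 𝔣 a ψ χ →
    ∃ (r : ℕ) (l : Fin r → Ty a → ℝ) (c₀ : ℝ), 0 < c₀ ∧ ∀ (𝔟 : Ideal (𝓞 L)) (h : 𝔟 ≠ ⊥),
      AdmP (th a χ 𝔟) ∧ ∀ (l' : Fin r → Ty a → ℝ) (y₀ : Ty a → ℝ) (s : ℂ), l' = l ∨ l' = -l →
      1 < s.re → mel (th a χ 𝔟) l' y₀ s =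
        c₀ * Complex.exp (-2 * s * ((∑ k, y₀ k : ℝ) : ℂ)) * Gam a s *
          (ψ 𝔟 * (Ideal.absNorm 𝔟 : ℂ) ^ (-s)) * zc ψ (ZetaZeroAux.cls ⟨𝔟, h⟩)⁻¹ s

/-- The functional equation for the ideal classes. -/
def ClFESt : Prop :=
  ∀ {d : K} {E : Quad K L d} {𝔣 𝔠 a ψ χ γ₀}, HD E 𝔣 a ψ χ → Gm E 𝔣 𝔠 γ₀ →
    ∃ (C A : ℝ) (Λ : ClassGroup (𝓞 L) → ℂ → ℂ) (p : ClassGroup (𝓞 L) → ClassGroup (𝓞 L)),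
      0 < C ∧ 0 < A ∧ Function.Injective p ∧ ∀ c, Differentiable ℂ (Λ c) ∧
        (∀ s : ℂ, 1 < s.re → Λ c s = Gam a s * zc ψ c s) ∧
        ∀ s : ℂ, Λ c s = C * Wt 𝔣 𝔠 a ψ χ (algebraMap K L γ₀) * (A : ℂ) ^ (-s) * Λ (p c) (-s)

/-- The sign of the functional equation. -/
def SignSt : Prop :=
  ∀ {d : K} {E : Quad K L d} {𝔣 𝔠 a ψ χ γ₀}, HD E 𝔣 a ψ χ → Gm E 𝔣 𝔠 γ₀ →
    SignConj.SignNeg a ψ → ∃ C : ℝ, 0 < C ∧ C * Wt 𝔣 𝔠 a ψ χ (algebraMap K L γ₀) = -1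

end Pool.Agent.SC
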