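import Pool.Agent.Lib.MP_b4b3cb_nt.DefsG

/-! Statements of the Galois part. -/

namespace Pool.Agent.SC

open NumberField Pool.Agent.Stark
open scoped Classical Pointwise Topology

/-- A chain of subgroups of index two up to a subgroup of odd index. -/
def SylSt : Prop :=
  ∀ (G : Type) [Group G] (H U : Subgroup G), U.Normal → U.FiniteIndex →
    ∀ Q : Subgroup G → Prop, Q (H ⊓ U) →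
    (∀ N N' : Subgroup G, H ⊓ U ≤ N → N ≤ N' → N' ≤ H → N.relIndex N' = 2 → Q N → Q N') →
    ∃ P : Subgroup G, H ⊓ U ≤ P ∧ P ≤ H ∧ Odd (P.relIndex H) ∧ Q P

/-- Corestriction from a subgroup of index two and the projection formula. -/
def ProjSt : Prop :=
  ∀ (G : Type) [Group G] [TopologicalSpace G] [IsTopologicalGroup G] (H N : Subgroup G)
    (d u b b' : G → ZMod 2) (ε : G → G → ZMod 2) (σ : G), Hom H d →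
    (∀ g, g ∈ N ↔ g ∈ H ∧ d g = 0) → σ ∈ H → d σ = 1 → Cz H ε → Hom H u → Hom N b →
    (∀ h ∈ H, b' h = if d h = 0 then b h + b (σ * h * σ⁻¹) else b (h * σ⁻¹) + b (σ * h)) →
    Sz N (ε + cup u b) → Sz H (cup u b')

/-- Elementary facts on sign cocycles. -/
structure SzSt : Prop where
  add : ∀ {G : Type} [Group G] [TopologicalSpace G] {D : Subgroup G} {ε ε' : G → G → ZMod 2},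
    Sz D ε → Sz D ε' → Sz D (ε + ε')
  congr : ∀ {G : Type} [Group G] [TopologicalSpace G] {D : Subgroup G} {ε ε' : G → G → ZMod 2},
    Sz D ε → (∀ g ∈ D, ∀ h ∈ D, ε g h = ε' g h) → Sz D ε'
  mono : ∀ {G : Type} [Group G] [TopologicalSpace G] {D D' : Subgroup G} {ε : G → G → ZMod 2},
    Sz D ε → D' ≤ D → Sz D' ε
  zero : ∀ {G : Type} [Group G] [TopologicalSpace G] {D : Subgroup G} {ε : G → G → ZMod 2},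
    (∀ g ∈ D, ∀ h ∈ D, ε g h = 0) → Sz D ε
  swap : ∀ {G : Type} [Group G] [TopologicalSpace G] {D : Subgroup G} {a b : G → ZMod 2},
    Hom D a → Hom D b → Sz D (cup a b) → Sz D (cup b a)
  cz_add : ∀ {G : Type} [Group G] [TopologicalSpace G] {D : Subgroup G} {ε ε' : G → G → ZMod 2},
    Cz D ε → Cz D ε' → Cz D (ε + ε')
  cz_mono : ∀ {G : Type} [Group G] [TopologicalSpace G] {D D' : Subgroup G} {ε : G → G → ZMod 2},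
    Cz D ε → D' ≤ D → Cz D' ε
  cz_cup : ∀ {G : Type} [Group G] [TopologicalSpace G] {D : Subgroup G} {a b : G → ZMod 2},
    Hom D a → Hom D b → Cz D (cup a b)
  lc : ∀ {X Y : Type} [TopologicalSpace X] [TopologicalSpace Y] [DiscreteTopology Y] (D : Set X)
    (f : X → Y), LC D f ↔ ContinuousOn f D
  lc_comp : ∀ {X Y Z : Type} [TopologicalSpace X] {D : Set X} {f : X → Y} (φ : Y → Z),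
    LC D f → LC D fun x => φ (f x)
  lc_two : ∀ {X Y Y' Z : Type} [TopologicalSpace X] {D : Set X} {f : X → Y} {f' : X → Y'}
    (φ : Y → Y' → Z), LC D f → LC D f' → LC D fun x => φ (f x) (f' x)
  lc_mono : ∀ {X Y : Type} [TopologicalSpace X] {D D' : Set X} {f : X → Y}, LC D f → D' ⊆ D →
    LC D' f
  lc_pull : ∀ {X X' Y : Type} [TopologicalSpace X] [TopologicalSpace X'] {D : Set X} {D' : Set X'}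
    {f : X → Y} {φ : X' → X}, LC D f → ContinuousOn φ D' → Set.MapsTo φ D' D →
    LC D' fun x => f (φ x)

variable (K Ω : Type) [Field K] [Field Ω] [Algebra K Ω]

/-- Topology of the Galois group. -/
structure TopSt : Prop where
  unif : ∀ {Y : Type} (H : Subgroup (Ω ≃ₐ[K] Ω)) (f : (Ω ≃ₐ[K] Ω) → Y),
    IsClosed (H : Set (Ω ≃ₐ[K] Ω)) → LC (H : Set (Ω ≃ₐ[K] Ω)) f →
    ∃ U : Subgroup (Ω ≃ₐ[K] Ω), IsOpen (U : Set (Ω ≃ₐ[K] Ω)) ∧ U.Normal ∧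
      ∀ g ∈ H, ∀ g' ∈ H, g⁻¹ * g' ∈ U → f g = f g'
  unif2 : ∀ {Y : Type} (H : Subgroup (Ω ≃ₐ[K] Ω)) (c : (Ω ≃ₐ[K] Ω) → (Ω ≃ₐ[K] Ω) → Y),
    IsClosed (H : Set (Ω ≃ₐ[K] Ω)) →
    LC ((H : Set (Ω ≃ₐ[K] Ω)) ×ˢ (H : Set (Ω ≃ₐ[K] Ω))) (fun p => c p.1 p.2) →
    ∃ U : Subgroup (Ω ≃ₐ[K] Ω), IsOpen (U : Set (Ω ≃ₐ[K] Ω)) ∧ U.Normal ∧
      ∀ g ∈ H, ∀ g' ∈ H, ∀ h ∈ H, ∀ h' ∈ H, g⁻¹ * g' ∈ U → h⁻¹ * h' ∈ U → c g h = c g' h'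
  lc_of : ∀ {Y : Type} (H U : Subgroup (Ω ≃ₐ[K] Ω)) (f : (Ω ≃ₐ[K] Ω) → Y),
    IsOpen (U : Set (Ω ≃ₐ[K] Ω)) → (∀ g ∈ H, ∀ g' ∈ H, g⁻¹ * g' ∈ U → f g = f g') →
    LC (H : Set (Ω ≃ₐ[K] Ω)) f
  lc_app : ∀ {X : Type} [TopologicalSpace X] {D : Set X} {φ : X → (Ω ≃ₐ[K] Ω)} {f : X → Ω},
    ContinuousOn φ D → LC D f → LC D fun x => φ x (f x)
  nhds : ∀ N ∈ 𝓝 (1 : Ω ≃ₐ[K] Ω), ∃ U : Subgroup (Ω ≃ₐ[K] Ω), IsOpen (U : Set (Ω ≃ₐ[K] Ω)) ∧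
    U.Normal ∧ (U : Set (Ω ≃ₐ[K] Ω)) ⊆ N
  fi : ∀ U : Subgroup (Ω ≃ₐ[K] Ω), IsOpen (U : Set (Ω ≃ₐ[K] Ω)) → U.FiniteIndex
  mid : ∀ H U N : Subgroup (Ω ≃ₐ[K] Ω), IsClosed (H : Set (Ω ≃ₐ[K] Ω)) →
    IsOpen (U : Set (Ω ≃ₐ[K] Ω)) → U.Normal → H ⊓ U ≤ N → N ≤ H →
    IsClosed (N : Set (Ω ≃ₐ[K] Ω)) ∧ IsOpen ((N ⊔ U : Subgroup _) : Set (Ω ≃ₐ[K] Ω)) ∧
      H ⊓ (N ⊔ U) = N
  field : ∀ H : Subgroup (Ω ≃ₐ[K] Ω), IsOpen (H : Set (Ω ≃ₐ[K] Ω)) →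
    ∃ F : IntermediateField K Ω, FiniteDimensional K F ∧ Gs K Ω F = H
  gs_open : ∀ (F : Type) [Field F] [Algebra K F] [Algebra F Ω] [IsScalarTower K F Ω],
    FiniteDimensional K F → IsOpen (Gs K Ω F : Set (Ω ≃ₐ[K] Ω))
  gs_fix : ∀ (F : Type) [Field F] [Algebra K F] [Algebra F Ω] [IsScalarTower K F Ω] (x : Ω),
    Fix (Gs K Ω F) x → ∃ a : F, algebraMap F Ω a = x
  two : ∀ H U N N' : Subgroup (Ω ≃ₐ[K] Ω), IsOpen (U : Set (Ω ≃ₐ[K] Ω)) → H ⊓ U ≤ N → N ≤ N' →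
    N' ≤ H → N.relIndex N' = 2 → ∃ d : (Ω ≃ₐ[K] Ω) → ZMod 2, Hom N' d ∧
      (∀ g, g ∈ N ↔ g ∈ N' ∧ d g = 0) ∧ ∃ σ ∈ N', d σ = 1
  ker_closed : ∀ (H N : Subgroup (Ω ≃ₐ[K] Ω)) (d : (Ω ≃ₐ[K] Ω) → ZMod 2),
    IsClosed (H : Set (Ω ≃ₐ[K] Ω)) → Hom H d → (∀ g, g ∈ N ↔ g ∈ H ∧ d g = 0) →
    IsClosed (N : Set (Ω ≃ₐ[K] Ω))

/-- Hilbert 90 and Kummer theory. -/
structure KumSt : Prop where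
  h90 : ∀ (H : Subgroup (Ω ≃ₐ[K] Ω)) (a : (Ω ≃ₐ[K] Ω) → Ω), IsClosed (H : Set (Ω ≃ₐ[K] Ω)) →
    LC (H : Set (Ω ≃ₐ[K] Ω)) a → (∀ g ∈ H, a g ≠ 0) →
    (∀ g ∈ H, ∀ h ∈ H, a (g * h) = a g * g (a h)) → ∃ b : Ω, b ≠ 0 ∧ ∀ g ∈ H, g b = a g * b
  app : ∀ {H : Subgroup (Ω ≃ₐ[K] Ω)} {r : Ω}, Fix H (r ^ 2) → ∀ g ∈ H, g r = sg Ω (kr r g) * r
  hom : ∀ {H : Subgroup (Ω ≃ₐ[K] Ω)} {r : Ω}, r ≠ 0 → Fix H (r ^ 2) → Hom H (kr r)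
  of_app : ∀ {r : Ω} {g : Ω ≃ₐ[K] Ω} {c : ZMod 2}, r ≠ 0 → g r = sg Ω c * r → kr r g = c
  mul : ∀ {H : Subgroup (Ω ≃ₐ[K] Ω)} {r s : Ω}, r ≠ 0 → s ≠ 0 → Fix H (r ^ 2) → Fix H (s ^ 2) →
    ∀ g ∈ H, kr (r * s) g = kr r g + kr s g
  sq : ∀ {H : Subgroup (Ω ≃ₐ[K] Ω)} {r s t : Ω}, r ≠ 0 → s ≠ 0 → Fix H t → r ^ 2 = s ^ 2 * t ^ 2 →
    ∀ g ∈ H, kr r g = kr s g
  kum : ∀ (H : Subgroup (Ω ≃ₐ[K] Ω)) (f : (Ω ≃ₐ[K] Ω) → ZMod 2), IsClosed (H : Set (Ω ≃ₐ[K] Ω)) →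
    Hom H f → ∃ r : Ω, r ≠ 0 ∧ Fix H (r ^ 2) ∧ ∀ g ∈ H, f g = kr r g
  coord : ∀ {H : Subgroup (Ω ≃ₐ[K] Ω)} {r y : Ω}, r ≠ 0 → Fix H (r ^ 2) → (∃ σ ∈ H, σ r ≠ r) →
    (∀ g ∈ H, g r = r → g y = y) → ∃ x z : Ω, Fix H x ∧ Fix H z ∧ y = x + z * r

/-- The group of coboundaries. -/
structure BrSt : Prop where
  mul : ∀ {H : Subgroup (Ω ≃ₐ[K] Ω)} {c c' : (Ω ≃ₐ[K] Ω) → (Ω ≃ₐ[K] Ω) → Ω}, Spl H c → Spl H c' →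
    Spl H (c * c')
  cancel : ∀ {H : Subgroup (Ω ≃ₐ[K] Ω)} {c c' : (Ω ≃ₐ[K] Ω) → (Ω ≃ₐ[K] Ω) → Ω}, Spl H c →
    Spl H (c * c') → Spl H c'
  congr : ∀ {H : Subgroup (Ω ≃ₐ[K] Ω)} {c c' : (Ω ≃ₐ[K] Ω) → (Ω ≃ₐ[K] Ω) → Ω}, Spl H c →
    (∀ g ∈ H, ∀ h ∈ H, c g h = c' g h) → Spl H c'
  mono : ∀ {H H' : Subgroup (Ω ≃ₐ[K] Ω)} {c : (Ω ≃ₐ[K] Ω) → (Ω ≃ₐ[K] Ω) → Ω}, Spl H c → H' ≤ H →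
    Spl H' c
  coc_mono : ∀ {H H' : Subgroup (Ω ≃ₐ[K] Ω)} {c : (Ω ≃ₐ[K] Ω) → (Ω ≃ₐ[K] Ω) → Ω}, Coc2 H c →
    H' ≤ H → Coc2 H' c
  coc_mul : ∀ {H : Subgroup (Ω ≃ₐ[K] Ω)} {c c' : (Ω ≃ₐ[K] Ω) → (Ω ≃ₐ[K] Ω) → Ω}, Coc2 H c →
    Coc2 H c' → Coc2 H (c * c')
  coc_sg : ∀ {H : Subgroup (Ω ≃ₐ[K] Ω)} {ε : (Ω ≃ₐ[K] Ω) → (Ω ≃ₐ[K] Ω) → ZMod 2}, Cz H ε →
    Coc2 H (sgc ε)
  sgc_add : ∀ ε ε' : (Ω ≃ₐ[K] Ω) → (Ω ≃ₐ[K] Ω) → ZMod 2, sgc (ε + ε') = sgc ε * sgc ε'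
  sz : ∀ {H : Subgroup (Ω ≃ₐ[K] Ω)} {ε : (Ω ≃ₐ[K] Ω) → (Ω ≃ₐ[K] Ω) → ZMod 2},
    IsClosed (H : Set (Ω ≃ₐ[K] Ω)) → (Spl H (sgc ε) ↔ Sz H ε)
  conj : ∀ {H D D' : Subgroup (Ω ≃ₐ[K] Ω)} {c : (Ω ≃ₐ[K] Ω) → (Ω ≃ₐ[K] Ω) → Ω} {σ : Ω ≃ₐ[K] Ω},
    Coc2 H c → D ≤ H → σ ∈ H → (∀ g ∈ D', σ⁻¹ * g * σ ∈ D) → Spl D c → Spl D' c
  small : ∀ {H : Subgroup (Ω ≃ₐ[K] Ω)} {c : (Ω ≃ₐ[K] Ω) → (Ω ≃ₐ[K] Ω) → Ω},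
    IsClosed (H : Set (Ω ≃ₐ[K] Ω)) → Coc2 H c → ∃ U : Subgroup (Ω ≃ₐ[K] Ω),
      IsOpen (U : Set (Ω ≃ₐ[K] Ω)) ∧ U.Normal ∧ Spl (H ⊓ U) c
  odd : ∀ {H : Subgroup (Ω ≃ₐ[K] Ω)} {c : (Ω ≃ₐ[K] Ω) → (Ω ≃ₐ[K] Ω) → Ω} {m k : ℕ}, Odd m →
    (∀ g ∈ H, ∀ h ∈ H, c g h ^ 2 ^ k = 1) → Spl H (c ^ m) → Spl H c

/-- Transfer. -/
def TrSt : Prop :=
  ∀ (H U N : Subgroup (Ω ≃ₐ[K] Ω)) (c : (Ω ≃ₐ[K] Ω) → (Ω ≃ₐ[K] Ω) → Ω),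
    IsOpen (U : Set (Ω ≃ₐ[K] Ω)) → U.Normal → H ⊓ U ≤ N → N ≤ H → Coc2 H c → Spl N c →
    Spl H (c ^ N.relIndex H)

/-- The symbol vanishes exactly for norms. -/
def NormSt : Prop :=
  ∀ (H : Subgroup (Ω ≃ₐ[K] Ω)) (r s : Ω), IsClosed (H : Set (Ω ≃ₐ[K] Ω)) → r ≠ 0 → s ≠ 0 →
    Fix H (r ^ 2) → Fix H (s ^ 2) →
    (Sz H (cup (kr r) (kr s)) ↔ ∃ x z : Ω, Fix H x ∧ Fix H z ∧ s ^ 2 = x ^ 2 - r ^ 2 * z ^ 2)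

/-- A class split by a quadratic extension is a symbol. -/
def QuadSt : Prop :=
  ∀ (H N : Subgroup (Ω ≃ₐ[K] Ω)) (r : Ω) (c : (Ω ≃ₐ[K] Ω) → (Ω ≃ₐ[K] Ω) → Ω),
    IsClosed (H : Set (Ω ≃ₐ[K] Ω)) → r ≠ 0 → Fix H (r ^ 2) → (∀ g, g ∈ N ↔ g ∈ H ∧ g r = r) →
    Coc2 H c → Spl N c → ∃ s : Ω, s ≠ 0 ∧ Fix H (s ^ 2) ∧ Spl H (c * sgc (cup (kr r) (kr s)))

/-- The roots of unity of 2-power order. -/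
def CycSt : Prop :=
  Continuous (cyc K Ω) ∧ ∃ e : ℚ_[2] → Ω, (∀ s t, e (s + t) = e s * e t) ∧ (∀ t, e t ≠ 0) ∧
    (∀ t, ‖t‖ ≤ 1 → e t = 1) ∧ (∀ c, e (hf c) = sg Ω c) ∧
    ∀ (g : Ω ≃ₐ[K] Ω) (t : ℚ_[2]), g (e t) = e (((cyc K Ω g : ℤ_[2]) : ℚ_[2]) * t)

/-- Primes of `Ω`. -/
structure PrimeSt : Prop where
  ex : ∀ (F : Type) [Field F] [NumberField F] [Algebra K F] [Algebra F Ω] [IsScalarTower K F Ω]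
    (q : Pr F), ∃ 𝔓 : Ideal (𝓞 Ω), Over 𝔓 q
  under : ∀ (F : Type) [Field F] [NumberField F] [Algebra K F] [Algebra F Ω] [IsScalarTower K F Ω]
    (𝔓 : Ideal (𝓞 Ω)), 𝔓.IsMaximal → ∃ q : Pr F, Over 𝔓 q
  uniq : ∀ {F : Type} [Field F] [Algebra F Ω] {𝔓 : Ideal (𝓞 Ω)} {q q' : Pr F}, Over 𝔓 q →
    Over 𝔓 q' → q = q'
  trans : ∀ {F : Type} [Field F] [NumberField F] [Algebra K F] [Algebra F Ω] [IsScalarTower K F Ω]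
    {𝔓 𝔓' : Ideal (𝓞 Ω)} {q : Pr F}, Over 𝔓 q → Over 𝔓' q → ∃ g ∈ Gs K Ω F, g • 𝔓 = 𝔓'
  mem_smul : ∀ (g : Ω ≃ₐ[K] Ω) (𝔓 : Ideal (𝓞 Ω)) (x : 𝓞 Ω), g • x ∈ g • 𝔓 ↔ x ∈ 𝔓
  coe_smul : ∀ (g : Ω ≃ₐ[K] Ω) (x : 𝓞 Ω), ((g • x : 𝓞 Ω) : Ω) = g x
  smul : ∀ {F : Type} [Field F] [Algebra F Ω] {𝔓 : Ideal (𝓞 Ω)} {q : Pr F} {g : Ω ≃ₐ[K] Ω},
    Over 𝔓 q → g ∈ Gs K Ω F → Over (g • 𝔓) q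
  smul_max : ∀ (g : Ω ≃ₐ[K] Ω) {𝔓 : Ideal (𝓞 Ω)}, 𝔓.IsMaximal → (g • 𝔓).IsMaximal
  below : ∀ {F F' : Type} [Field F] [NumberField F] [Field F'] [NumberField F'] [Algebra F F']
    [Algebra F Ω] [Algebra F' Ω] [IsScalarTower F F' Ω] {𝔓 : Ideal (𝓞 Ω)} {Q : Pr F'},
    Over 𝔓 Q → Over 𝔓 (below F Q)
  two : ∀ {F : Type} [Field F] [NumberField F] [Algebra F Ω] {𝔓 : Ideal (𝓞 Ω)} {q : Pr F},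
    Over 𝔓 q → ((2 : 𝓞 Ω) ∉ 𝔓 ↔ og q (2 : F) = 0)
  mem_dec : ∀ (𝔓 : Ideal (𝓞 Ω)) (g : Ω ≃ₐ[K] Ω), g ∈ Dec K 𝔓 ↔ ∀ x : 𝓞 Ω, g • x ∈ 𝔓 ↔ x ∈ 𝔓
  mem_ine : ∀ (𝔓 : Ideal (𝓞 Ω)) (g : Ω ≃ₐ[K] Ω), g ∈ Ine K 𝔓 ↔ ∀ x : 𝓞 Ω, g • x - x ∈ 𝔓
  dec_conj : ∀ (𝔓 : Ideal (𝓞 Ω)) (σ g : Ω ≃ₐ[K] Ω), g ∈ Dec K (σ • 𝔓) ↔ σ⁻¹ * g * σ ∈ Dec K 𝔓
  ine_conj : ∀ (𝔓 : Ideal (𝓞 Ω)) (σ g : Ω ≃ₐ[K] Ω), g ∈ Ine K (σ • 𝔓) ↔ σ⁻¹ * g * σ ∈ Ine K 𝔓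
  fr_conj : ∀ (𝔓 : Ideal (𝓞 Ω)) (n : ℕ) (σ g : Ω ≃ₐ[K] Ω),
    IsFr (σ • 𝔓) n g ↔ IsFr 𝔓 n (σ⁻¹ * g * σ)
  le : ∀ 𝔓 : Ideal (𝓞 Ω), Ine K 𝔓 ≤ Dec K 𝔓
  closed : ∀ 𝔓 : Ideal (𝓞 Ω), IsClosed (Dec K 𝔓 : Set (Ω ≃ₐ[K] Ω))
  frac : ∀ {𝔓 : Ideal (𝓞 Ω)}, 𝔓.IsMaximal → ∀ t : Ω, ∃ α β : 𝓞 Ω, t * β = α ∧ (β : Ω) ≠ 0 ∧
    (α ∉ 𝔓 ∨ β ∉ 𝔓) ∧ ∀ g : Ω ≃ₐ[K] Ω, g t = t → g • α = α ∧ g • β = β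

/-- The decomposition field embeds into the completion. -/
def EmbSt : Prop :=
  ∀ (F : Type) [Field F] [NumberField F] [Algebra K F] [Algebra F Ω] [IsScalarTower K F Ω]
    (𝔓 : Ideal (𝓞 Ω)) (q : Pr F), Over 𝔓 q → ∃ φ : Ω → Kc q,
      (∀ x y, Fix (Dec K 𝔓 ⊓ Gs K Ω F) x → Fix (Dec K 𝔓 ⊓ Gs K Ω F) y →
        φ (x + y) = φ x + φ y ∧ φ (x * y) = φ x * φ y) ∧
      (∀ a : F, φ (algebraMap F Ω a) = emb q a) ∧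
      ∀ y : 𝓞 Ω, Fix (Dec K 𝔓 ⊓ Gs K Ω F) y → wv q (φ y) ≤ 1 ∧ (y ∈ 𝔓 ↔ wv q (φ y) < 1)

/-- The dictionary between decomposition groups and completions. -/
structure LocSt : Prop where
  sq : ∀ {F : Type} [Field F] [NumberField F] [Algebra K F] [Algebra F Ω] [IsScalarTower K F Ω]
    {𝔓 : Ideal (𝓞 Ω)} {q : Pr F}, Over 𝔓 q → ∀ {a : F} {r : Ω}, a ≠ 0 →
    r ^ 2 = algebraMap F Ω a → (LSq q a ↔ Fix (Dec K 𝔓 ⊓ Gs K Ω F) r)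
  dense : ∀ {F : Type} [Field F] [NumberField F] [Algebra K F] [Algebra F Ω] [IsScalarTower K F Ω]
    {𝔓 : Ideal (𝓞 Ω)} {q : Pr F}, Over 𝔓 q → ∀ c : Ω, c ≠ 0 → Fix (Dec K 𝔓 ⊓ Gs K Ω F) c →
    ∃ (a : F) (t : Ω), a ≠ 0 ∧ Fix (Dec K 𝔓 ⊓ Gs K Ω F) t ∧ c = algebraMap F Ω a * t ^ 2
  norm : ∀ {F : Type} [Field F] [NumberField F] [Algebra K F] [Algebra F Ω] [IsScalarTower K F Ω]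
    {𝔓 : Ideal (𝓞 Ω)} {q : Pr F}, Over 𝔓 q → ∀ {a b : F}, a ≠ 0 → b ≠ 0 →
    (hq q a b = 0 ↔ ∃ x z : Ω, Fix (Dec K 𝔓 ⊓ Gs K Ω F) x ∧ Fix (Dec K 𝔓 ⊓ Gs K Ω F) z ∧
      algebraMap F Ω b = x ^ 2 - algebraMap F Ω a * z ^ 2)

/-- Frobenius elements. -/
structure FrobSt : Prop where
  ex : ∀ {F : Type} [Field F] [NumberField F] [Algebra K F] [Algebra F Ω] [IsScalarTower K F Ω]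
    {𝔓 : Ideal (𝓞 Ω)} {q : Pr F}, Over 𝔓 q →
    ∃ g ∈ Gs K Ω F, IsFr 𝔓 (Ideal.absNorm q.asIdeal) g
  res : ∀ {F : Type} [Field F] [NumberField F] [Algebra K F] [Algebra F Ω] [IsScalarTower K F Ω]
    {𝔓 : Ideal (𝓞 Ω)}, 𝔓.IsMaximal → ∀ g ∈ Dec K 𝔓,
    (∀ y : 𝓞 F, g • algebraMap (𝓞 F) (𝓞 Ω) y - algebraMap (𝓞 F) (𝓞 Ω) y ∈ 𝔓) →
    ∃ h ∈ Dec K 𝔓 ⊓ Gs K Ω F, g * h⁻¹ ∈ Ine K 𝔓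
  dec : ∀ {𝔓 : Ideal (𝓞 Ω)} {n : ℕ} {g : Ω ≃ₐ[K] Ω}, 𝔓.IsMaximal → n ≠ 0 → IsFr 𝔓 n g →
    g ∈ Dec K 𝔓
  ine : ∀ {𝔓 : Ideal (𝓞 Ω)} {n : ℕ} {g g' : Ω ≃ₐ[K] Ω}, IsFr 𝔓 n g → IsFr 𝔓 n g' →
    g * g'⁻¹ ∈ Ine K 𝔓
  pow : ∀ {𝔓 : Ideal (𝓞 Ω)} {n : ℕ} {g : Ω ≃ₐ[K] Ω}, 𝔓.IsMaximal → n ≠ 0 → IsFr 𝔓 n g →
    ∀ k : ℕ, IsFr 𝔓 (n ^ k) (g ^ k)
  cyc_fr : ∀ {𝔓 : Ideal (𝓞 Ω)} {n : ℕ} {g : Ω ≃ₐ[K] Ω}, 𝔓.IsMaximal → (2 : 𝓞 Ω) ∉ 𝔓 →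
    IsFr 𝔓 n g → (cyc K Ω g : ℤ_[2]) = n
  cyc_ine : ∀ {𝔓 : Ideal (𝓞 Ω)} {g : Ω ≃ₐ[K] Ω}, 𝔓.IsMaximal → (2 : 𝓞 Ω) ∉ 𝔓 → g ∈ Ine K 𝔓 →
    cyc K Ω g = 1
  cyc_cj : ∀ {j : Ω →+* ℂ} {g : Ω ≃ₐ[K] Ω}, Cj j g → cyc K Ω g = -1
  cyc_four : ∀ {r : Ω}, r ^ 2 = -1 → ∀ g : Ω ≃ₐ[K] Ω, sg4 (cyc K Ω g) = kr r g

/-- Inertia and Frobenius on square roots. -/
structure IneSt : Prop where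
  ine : ∀ {F : Type} [Field F] [NumberField F] [Algebra K F] [Algebra F Ω] [IsScalarTower K F Ω]
    {𝔓 : Ideal (𝓞 Ω)} {q : Pr F}, Over 𝔓 q → og q (2 : F) = 0 → ∀ {a : F} {r : Ω}, a ≠ 0 →
    r ^ 2 = algebraMap F Ω a → (Even (og q a) ↔ Fix (Ine K 𝔓 ⊓ Gs K Ω F) r)
  leg : ∀ {F : Type} [Field F] [NumberField F] [Algebra K F] [Algebra F Ω] [IsScalarTower K F Ω]
    {𝔓 : Ideal (𝓞 Ω)} {q : Pr F}, Over 𝔓 q → og q (2 : F) = 0 → ∀ {a : F} {r : Ω}, a ≠ 0 →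
    r ^ 2 = algebraMap F Ω a → Even (og q a) → ∀ g ∈ Gs K Ω F,
    IsFr 𝔓 (Ideal.absNorm q.asIdeal) g → (g r = r ↔ LSq q a)

/-- Complex conjugations. -/
structure CjSt : Prop where
  ex : ∀ (F : Type) [Field F] [NumberField F] [Algebra K F] [Algebra F Ω] [IsScalarTower K F Ω]
    (φ : F →+* ℝ), ∃ (j : Ω →+* ℂ) (g : Ω ≃ₐ[K] Ω), (∀ a, j (algebraMap F Ω a) = φ a) ∧
      g ∈ Gs K Ω F ∧ Cj j g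
  sq : ∀ {j : Ω →+* ℂ} {g : Ω ≃ₐ[K] Ω}, Cj j g → g * g = 1 ∧
    (∀ h, h ∈ Subgroup.zpowers g ↔ h = 1 ∨ h = g) ∧
    IsClosed (Subgroup.zpowers g : Set (Ω ≃ₐ[K] Ω))
  conj : ∀ {j j' : Ω →+* ℂ} {g g' : Ω ≃ₐ[K] Ω}, Cj j g → Cj j' g' →
    (∀ a : K, j (algebraMap K Ω a) = j' (algebraMap K Ω a)) → ∃ σ : Ω ≃ₐ[K] Ω, σ⁻¹ * g' * σ = g
  real : ∀ {j : Ω →+* ℂ} {g : Ω ≃ₐ[K] Ω}, Cj j g →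
    ∃ φ : K →+* ℝ, ∀ a, j (algebraMap K Ω a) = φ a
  lsq : ∀ {F : Type} [Field F] [Algebra F Ω] {j : Ω →+* ℂ} {g : Ω ≃ₐ[K] Ω} {φ : F →+* ℝ},
    Cj j g → (∀ a, j (algebraMap F Ω a) = φ a) → ∀ {a : F} {r : Ω}, a ≠ 0 →
    r ^ 2 = algebraMap F Ω a → (g r = r ↔ 0 < φ a)
  norm : ∀ {F : Type} [Field F] [Algebra F Ω] {j : Ω →+* ℂ} {g : Ω ≃ₐ[K] Ω} {φ : F →+* ℝ},
    Cj j g → (∀ a, j (algebraMap F Ω a) = φ a) → ∀ {a b : F} {r s : Ω}, a ≠ 0 → b ≠ 0 →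
    r ^ 2 = algebraMap F Ω a → s ^ 2 = algebraMap F Ω b →
    (Sz (Subgroup.zpowers g) (cup (kr r) (kr s)) ↔ hs (φ a) (φ b) = 0)

/-- The symbol at a finite prime. -/
def SymSt : Prop :=
  ∀ {F : Type} [Field F] [NumberField F] [Algebra K F] [Algebra F Ω] [IsScalarTower K F Ω]
    {𝔓 : Ideal (𝓞 Ω)} {q : Pr F}, Over 𝔓 q →
    (∀ {a b : F} {r s : Ω}, a ≠ 0 → b ≠ 0 → r ^ 2 = algebraMap F Ω a → s ^ 2 = algebraMap F Ω b →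
      symz (Dec K 𝔓 ⊓ Gs K Ω F) (kr r) (kr s) = hq q a b) ∧
    ∀ f, Hom (Dec K 𝔓 ⊓ Gs K Ω F) f → ∃ (a : F) (r : Ω), a ≠ 0 ∧ r ^ 2 = algebraMap F Ω a ∧
      ∀ g ∈ Dec K 𝔓 ⊓ Gs K Ω F, f g = kr r g

/-- The local-global principle for classes of 2-power order. -/
def AbhnSt : Prop :=
  ∀ (H : Subgroup (Ω ≃ₐ[K] Ω)) (c : (Ω ≃ₐ[K] Ω) → (Ω ≃ₐ[K] Ω) → Ω) (k : ℕ),
    IsOpen (H : Set (Ω ≃ₐ[K] Ω)) → Coc2 H c → (∀ g ∈ H, ∀ h ∈ H, c g h ^ 2 ^ k = 1) →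
    (∀ 𝔓 : Ideal (𝓞 Ω), 𝔓.IsMaximal → Spl (Dec K 𝔓 ⊓ H) c) →
    (∀ (j : Ω →+* ℂ), ∀ g ∈ H, Cj j g → Spl (Subgroup.zpowers g) c) → Spl H c

/-- The inductive property for the local Brauer group. -/
def Quat (N₀ N : Subgroup (Ω ≃ₐ[K] Ω)) : Prop :=
  ∀ ε, Cz N ε → Sz N₀ ε → Sz N ε ∨ ∀ a b, Hom N a → Hom N b → ¬ Sz N (cup a b) →
    Sz N (ε + cup a b)

/-- One step of the induction for the local Brauer group. -/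
def TwoASt : Prop :=
  ∀ (𝔓 : Ideal (𝓞 Ω)) (U N N' : Subgroup (Ω ≃ₐ[K] Ω)), 𝔓.IsMaximal →
    IsOpen (U : Set (Ω ≃ₐ[K] Ω)) → U.Normal → Dec K 𝔓 ⊓ U ≤ N → N ≤ N' → N' ≤ Dec K 𝔓 →
    N.relIndex N' = 2 → Quat K Ω (Dec K 𝔓 ⊓ U) N → ∀ ε, Cz N' ε → Sz (Dec K 𝔓 ⊓ U) ε → Sz N ε

/-- A class split by a local quadratic extension. -/
def TwoBSt : Prop :=
  ∀ (𝔓 : Ideal (𝓞 Ω)) (U N N' : Subgroup (Ω ≃ₐ[K] Ω)), 𝔓.IsMaximal →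
    IsOpen (U : Set (Ω ≃ₐ[K] Ω)) → U.Normal → Dec K 𝔓 ⊓ U ≤ N → N ≤ N' → N' ≤ Dec K 𝔓 →
    N.relIndex N' = 2 → ∀ ε, Cz N' ε → Sz N ε → Sz N' ε ∨
      ∀ a b, Hom N' a → Hom N' b → ¬ Sz N' (cup a b) → Sz N' (ε + cup a b)

/-- The 2-torsion of the local Brauer group has at most two elements. -/
def TwoSt : Prop := ∀ 𝔓 : Ideal (𝓞 Ω), 𝔓.IsMaximal → Two (Dec K 𝔓)

variable [NumberField K]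

/-- Almost all inertia groups are small. -/
def FinSt : Prop :=
  ∀ N ∈ 𝓝 (1 : Ω ≃ₐ[K] Ω),
    {q : Pr K | ∃ 𝔓 : Ideal (𝓞 Ω), Over 𝔓 q ∧ ¬ (Ine K 𝔓 : Set (Ω ≃ₐ[K] Ω)) ⊆ N}.Finite

/-- A character trivial on almost all Frobenius elements is trivial. -/
def ChebSt : Prop :=
  ∀ (F : Type) [Field F] [NumberField F] [Algebra K F] [Algebra F Ω] [IsScalarTower K F Ω]
    (θ : (Ω ≃ₐ[K] Ω) → ℤ_[2]ˣ) (S : Finset (Pr F)), ContinuousOn θ (Gs K Ω F) →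
    (∀ g ∈ Gs K Ω F, ∀ h ∈ Gs K Ω F, θ (g * h) = θ g * θ h) →
    (∀ (𝔓 : Ideal (𝓞 Ω)) (q : Pr F), q ∉ S → Over 𝔓 q → ∀ g ∈ Gs K Ω F,
      IsFr 𝔓 (Ideal.absNorm q.asIdeal) g → θ g = 1) → ∀ g ∈ Gs K Ω F, θ g = 1

variable [IsAlgClosed Ω]

/-- The dictionary at all places of `K`. -/
structure DictSt : Prop where
  closed : ∀ (π : Plc K Ω) (v : Pl K), IsClosed (π.D v : Set (Ω ≃ₐ[K] Ω))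
  hom : ∀ {a : K}, a ≠ 0 → Hom ⊤ (kr (K := K) (rt Ω a))
  mul : ∀ {a b : K}, a ≠ 0 → b ≠ 0 → kr (K := K) (rt Ω (a * b)) = kr (rt Ω a) + kr (rt Ω b)
  glob : ∀ f : (Ω ≃ₐ[K] Ω) → ZMod 2, Hom ⊤ f → ∃ a : K, a ≠ 0 ∧ f = kr (rt Ω a)
  kum : ∀ (π : Plc K Ω) (v : Pl K) (f : (Ω ≃ₐ[K] Ω) → ZMod 2), Hom (π.D v) f →
    ∃ a : K, a ≠ 0 ∧ ∀ g ∈ π.D v, f g = kr (rt Ω a) g
  sym : ∀ (π : Plc K Ω) (v : Pl K) {a b : K}, a ≠ 0 → b ≠ 0 →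
    symz (π.D v) (kr (rt Ω a)) (kr (rt Ω b)) = hp v a b
  zero : ∀ (π : Plc K Ω) (v : Pl K) {a : K}, a ≠ 0 →
    ((∀ g ∈ π.D v, kr (rt Ω a) g = 0) ↔ lsq v a)
  unr : ∀ (π : Plc K Ω) (q : Pr K) {a : K}, a ≠ 0 → og q (2 : K) = 0 →
    ((∀ g ∈ π.I (Sum.inl q), kr (rt Ω a) g = 0) ↔ Even (og q a))
  congr : ∀ (D : Subgroup (Ω ≃ₐ[K] Ω)) (a a' b b' : (Ω ≃ₐ[K] Ω) → ZMod 2), (∀ g ∈ D, a g = a' g) →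
    (∀ g ∈ D, b g = b' g) → symz D a b = symz D a' b'
  hp_mul : ∀ (v : Pl K) {a a' b : K}, a ≠ 0 → a' ≠ 0 → b ≠ 0 →
    hp v (a * a') b = hp v a b + hp v a' b
  hp_comm : ∀ (v : Pl K) {a b : K}, a ≠ 0 → b ≠ 0 → hp v a b = hp v b a
  hp_nd : ∀ (v : Pl K) {a : K}, a ≠ 0 → ¬ lsq v a → ∃ b : K, b ≠ 0 ∧ hp v a b = 1

/-- The local character groups. -/
structure CardSt : Prop where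
  fin : ∀ (π : Plc K Ω) (v : Pl K), Finite (Hm (π.D v))
  card : ∀ (π : Plc K Ω) (q : Pr K), Nat.card (Hm (π.D (Sum.inl q))) =
    4 * Ideal.absNorm q.asIdeal ^ (og q (2 : K)).toNat
  unr : ∀ (π : Plc K Ω) (q : Pr K), og q (2 : K) = 0 → ∀ f f', Hom (π.D (Sum.inl q)) f →
    Hom (π.D (Sum.inl q)) f' → (∀ g ∈ π.I (Sum.inl q), f g = 0) →
    (∀ g ∈ π.I (Sum.inl q), f' g = 0) → (∀ g ∈ π.D (Sum.inl q), f g = 0) ∨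
      (∀ g ∈ π.D (Sum.inl q), f' g = 0) ∨ ∀ g ∈ π.D (Sum.inl q), f g = f' g

/-- From one place above each place of `K` to all of them. -/
def AbhnKSt : Prop :=
  ∀ (π : Plc K Ω) (H : Subgroup (Ω ≃ₐ[K] Ω)) (c : (Ω ≃ₐ[K] Ω) → (Ω ≃ₐ[K] Ω) → Ω) (k : ℕ),
    IsOpen (H : Set (Ω ≃ₐ[K] Ω)) → H.Normal → Coc2 ⊤ c → (∀ g h, c g h ^ 2 ^ k = 1) →
    (∀ v, Spl (π.D v ⊓ H) c) → Spl H c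

/-- Reciprocity for classes that are locally symbols with a fixed global entry. -/
def RecSt : Prop :=
  ∀ (π : Plc K Ω) (c : (Ω ≃ₐ[K] Ω) → (Ω ≃ₐ[K] Ω) → Ω) (k : ℕ) (y : (Ω ≃ₐ[K] Ω) → ZMod 2)
    (a : Pl K → (Ω ≃ₐ[K] Ω) → ZMod 2), Coc2 ⊤ c → (∀ g h, c g h ^ 2 ^ k = 1) → Hom ⊤ y →
    (∀ v, Hom (π.D v) (a v)) → (∀ v, Spl (π.D v) (c * sgc (cup y (a v)))) →
    ∀ S : Finset (Pl K), (∀ v ∉ S, symz (π.D v) y (a v) = 0) →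
    ∑ v ∈ S, symz (π.D v) y (a v) = 0

/-- Characters with restricted ramification. -/
structure LagKSt : Prop where
  finS : ∀ (π : Plc K Ω) (S : Finset (Pl K)),
    {y : (Ω ≃ₐ[K] Ω) → ZMod 2 | Hom ⊤ y ∧ ∀ v ∉ S, ∀ g ∈ π.I v, y g = 0}.Finite
  lag : ∀ (π : Plc K Ω) (S₀ : Finset (Pl K)), ∃ S : Finset (Pl K), S₀ ⊆ S ∧
    ∀ b : Pl K → (Ω ≃ₐ[K] Ω) → ZMod 2, (∀ v ∈ S, Hom (π.D v) (b v)) →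
    (∀ y, Hom ⊤ y → (∀ v ∉ S, ∀ g ∈ π.I v, y g = 0) → ∑ v ∈ S, symz (π.D v) y (b v) = 0) →
    ∃ z, Hom ⊤ z ∧ (∀ v ∉ S, ∀ g ∈ π.I v, z g = 0) ∧ ∀ v ∈ S, ∀ g ∈ π.D v, z g = b v g

/-- The duality data of a number field. -/
def ADSt : Prop :=
  ∀ π : Plc K Ω, ∃ A : AD (Ω ≃ₐ[K] Ω) (Pl K), A.χ = cyc K Ω ∧ A.D = π.D ∧ A.I = π.I ∧
    A.sym = fun v => symz (π.D v)

end Pool.Agent.SC
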