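import Pool.Agent.Lib.MP_b4b3cb_nt.StF

/-! Statements: the root number. -/

namespace Pool.Agent.SC

open NumberField Pool.Agent.Stark
open scoped Classical ComplexConjugate

/-- Existence of the Weil indices. -/
def WeilSt : Prop :=
  ∀ (F : Type) [Field F] [NumberField F], ∃ (j : Pr F → ℤ) (gam : Pr F → F → ℂ), WD j gam

/-- The Weil index of the norm form. -/
structure TSt : Prop where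
  split : ∀ {F : Type} [Field F] [NumberField F] {j : Pr F → ℤ} {gam : Pr F → F → ℂ}, WD j gam →
    ∀ (v : Pr F) {c d : F}, c ≠ 0 → d ≠ 0 → LSq v d → gam v c * gam v (-(c * d)) = 1
  inert : ∀ {F : Type} [Field F] [NumberField F] {j : Pr F → ℤ} {gam : Pr F → F → ℂ}, WD j gam →
    ∀ (v : Pr F) {c d : F}, c ≠ 0 → d ≠ 0 → og v (2 : F) = 0 → Even (og v d) → ¬ LSq v d →
    gam v c * gam v (-(c * d)) = sg ℂ ((og v c - j v : ℤ) : ZMod 2)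
  ram : ∀ {F : Type} [Field F] [NumberField F] {j : Pr F → ℤ} {gam : Pr F → F → ℂ}, WD j gam →
    ∀ (v : Pr F) {c d : F}, c ≠ 0 → d ≠ 0 → og v (2 : F) = 0 → Odd (og v d) → Odd (og v c - j v) →
    gam v c * gam v (-(c * d)) = gam v c
  prod : ∀ {F : Type} [Field F] [NumberField F] {j : Pr F → ℤ} {gam : Pr F → F → ℂ}, WD j gam →
    ∀ {γ d : F}, γ ≠ 0 → d ≠ 0 → (∀ φ : F →+* ℝ, φ d < 0) → ∀ S : Finset (Pr F),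
    (∀ v ∉ S, og v (2 : F) = 0 ∧ og v γ = 0 ∧ og v d = 0 ∧ j v = 0) → ∃ r : ℝ, 0 < r ∧
      (∏ v ∈ S, gam v (2 * γ) * gam v (-(2 * γ * d))) * ∏ φ : F →+* ℝ, ((φ γ : ℝ) : ℂ)⁻¹ =
        r * Complex.I ^ Fintype.card (F →+* ℝ)

variable (K L : Type) [Field K] [NumberField K] [Field L] [NumberField L] [Algebra K L]

/-- The different of a quadratic extension in which the dyadic primes split. -/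
def JSt : Prop :=
  ∀ {d : K} (_ : Quad K L d) {jK : Pr K → ℤ} {jL : Pr L → ℤ}, IsJ jK → IsJ jL →
    (∀ v : Pr K, og v (2 : K) ≠ 0 → LSq v d) →
    ∀ w, jL w = if eI K w = 2 then 2 * jK (below K w) - 1 else jK (below K w)

/-- The valuations of `γ₀`. -/
def Gv (jK : Pr K → ℤ) (𝔣 𝔠 : Ideal (𝓞 L)) (γ₀ : K) : Prop :=
  ∀ w : Pr L, og (below K w) γ₀ = jK (below K w) - cn 𝔣 w + cn 𝔠 w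

/-- Existence of `γ₀`. -/
def GamSt : Prop :=
  ∀ {d : K} {E : Quad K L d} {𝔣 a ψ χ}, HD E 𝔣 a ψ χ → RH E 𝔣 ψ → ∀ {jK : Pr K → ℤ}, IsJ jK →
    ∃ 𝔠 γ₀, Gm E 𝔣 𝔠 γ₀ ∧ Gv K L jK 𝔣 𝔠 γ₀

/-- The quadratic Gauss sum at a nonsplit odd prime. -/
def Tau4St : Prop :=
  ∀ {d : K} (E : Quad K L d) {j : Pr K → ℤ} {gam : Pr K → K → ℂ}, WD j gam → ∀ (w : Pr L) (γ : K),
    E.act w = w → og (below K w) (2 : K) = 0 → γ ≠ 0 → og (below K w) γ = j (below K w) - 1 →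
    (∀ v ≠ below K w, j v ≤ og v γ) →
    (∀ x ∈ w.asIdeal, eTr (algebraMap K L γ * (x : L)) = 1) ∧
    (∃ x : 𝓞 L, eTr (algebraMap K L γ * (x : L)) ≠ 1) ∧ ∃ r : ℝ, 0 < r ∧
      gs w.asIdeal (fun x => eTr (algebraMap K L γ * ((x ^ 2 : 𝓞 L) : L))) =
        r * if eI K w = 2 then gam (below K w) (2 * γ)
          else gam (below K w) (2 * γ) * gam (below K w) (2 * γ * d)

/-- Factorisation into local factors. -/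
def FacSt : Prop :=
  ∀ {d : K} {E : Quad K L d} {𝔣 𝔠 a ψ χ γ₀}, HD E 𝔣 a ψ χ → Gm E 𝔣 𝔠 γ₀ →
    ∀ (e : Pr L → 𝓞 L) (S : Finset (Pr L)), (∀ w, Idm 𝔣 w (e w)) →
    (∀ w ∉ S, ¬ 𝔣 ≤ w.asIdeal ∧ ¬ 𝔠 ≤ w.asIdeal) →
    tau0 𝔣 χ (algebraMap K L γ₀) * (ψ 𝔠)⁻¹ = ∏ w ∈ S, lw 𝔣 𝔠 ψ χ (algebraMap K L γ₀) w (e w)

/-- Elementary facts on the local Gauss sums. -/
structure TlSt : Prop where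
  mem : ∀ {𝔣 : Ideal (𝓞 L)} {w : Pr L} {e : 𝓞 L}, 𝔣 ≠ ⊥ → Idm 𝔣 w e →
    ∀ u ∈ w.asIdeal ^ cn 𝔣 w, e * u ∈ 𝔣
  sub : ∀ {𝔣 : Ideal (𝓞 L)} {w : Pr L} {e e' : 𝓞 L}, 𝔣 ≠ ⊥ → Idm 𝔣 w e → Idm 𝔣 w e' → e - e' ∈ 𝔣
  ng : ∀ {𝔣 : Ideal (𝓞 L)} {w : Pr L} {e : 𝓞 L}, Idm 𝔣 w e → Ng 𝔣 w (1 + e * (-1 - 1))
  triv : ∀ {d : K} {E : Quad K L d} {𝔣 𝔠 γ₀}, Gm E 𝔣 𝔠 γ₀ → ∀ x ∈ 𝔣,
    eTr (algebraMap K L γ₀ * (x : L)) = 1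
  mul : ∀ {d : K} {E : Quad K L d} {𝔣 a ψ χ}, HD E 𝔣 a ψ χ → ∀ {w : Pr L} {e : 𝓞 L}, Idm 𝔣 w e →
    ∀ x y, χ (1 + e * (x * y - 1)) = χ (1 + e * (x - 1)) * χ (1 + e * (y - 1))
  per : ∀ {d : K} {E : Quad K L d} {𝔣 a ψ χ}, HD E 𝔣 a ψ χ → ∀ {w : Pr L} {e : 𝓞 L}, Idm 𝔣 w e →
    Per (w.asIdeal ^ cn 𝔣 w) fun x => χ (1 + e * (x - 1))
  zero : ∀ {d : K} {E : Quad K L d} {𝔣 a ψ χ}, HD E 𝔣 a ψ χ → ∀ {w : Pr L} {e : 𝓞 L}, Idm 𝔣 w e →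
    𝔣 ≤ w.asIdeal → ∀ x, χ (1 + e * (x - 1)) = 0 ↔ x ∈ w.asIdeal
  nontriv : ∀ {d : K} {E : Quad K L d} {𝔣 a ψ χ}, HD E 𝔣 a ψ χ → ∀ {w : Pr L} {e : 𝓞 L},
    Idm 𝔣 w e → 𝔣 ≤ w.asIdeal → ∃ x, χ (1 + e * (x - 1)) = -1
  per' : ∀ {d : K} {E : Quad K L d} {𝔣 𝔠 a ψ χ γ₀}, HD E 𝔣 a ψ χ → Gm E 𝔣 𝔠 γ₀ →
    ∀ {w : Pr L} {e : 𝓞 L}, Idm 𝔣 w e → Per (w.asIdeal ^ cn 𝔣 w) fun x =>
      (χ (1 + e * (x - 1)) : ℂ) * eTr (algebraMap K L γ₀ * (e : L) * (x : L))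
  congr : ∀ {d : K} {E : Quad K L d} {𝔣 𝔠 a ψ χ γ₀}, HD E 𝔣 a ψ χ → Gm E 𝔣 𝔠 γ₀ →
    ∀ {w : Pr L} {e e' : 𝓞 L}, Idm 𝔣 w e → Idm 𝔣 w e' →
    tl 𝔣 χ (algebraMap K L γ₀) w e = tl 𝔣 χ (algebraMap K L γ₀) w e'
  one : ∀ {d : K} {E : Quad K L d} {𝔣 𝔠 a ψ χ γ₀}, HD E 𝔣 a ψ χ → Gm E 𝔣 𝔠 γ₀ →
    ∀ {w : Pr L} {e : 𝓞 L}, Idm 𝔣 w e → ¬ 𝔣 ≤ w.asIdeal → tl 𝔣 χ (algebraMap K L γ₀) w e = 1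

/-- The local factor at a split prime. -/
def LocSSt : Prop :=
  ∀ {d : K} {E : Quad K L d} {𝔣 𝔠 a ψ χ γ₀}, HD E 𝔣 a ψ χ → Gm E 𝔣 𝔠 γ₀ →
    ∀ (w : Pr L) (e e' : 𝓞 L) (ε : ZMod 2), Idm 𝔣 w e → Idm 𝔣 (E.act w) e' →
    (∀ x, Ng 𝔣 w x → χ x = sg ℤ ε) → ∃ r : ℝ, 0 ≤ r ∧
      lw 𝔣 𝔠 ψ χ (algebraMap K L γ₀) w e * lw 𝔣 𝔠 ψ χ (algebraMap K L γ₀) (E.act w) e' =
        r * sg ℂ ε

/-- The local factor at a nonsplit prime. -/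
def LocNSt : Prop :=
  ∀ {d : K} {E : Quad K L d} {𝔣 𝔠 a ψ χ γ₀}, HD E 𝔣 a ψ χ → RH E 𝔣 ψ → Gm E 𝔣 𝔠 γ₀ →
    ∀ {j : Pr K → ℤ} {gam : Pr K → K → ℂ}, WD j gam → Gv K L j 𝔣 𝔠 γ₀ →
    ∀ (w : Pr L) (e : 𝓞 L), E.act w = w → Idm 𝔣 w e → ∃ r : ℝ, 0 ≤ r ∧
      lw 𝔣 𝔠 ψ χ (algebraMap K L γ₀) w e =
        r * (gam (below K w) (2 * γ₀) * gam (below K w) (-(2 * γ₀ * d))) *
          sg ℂ (if 𝔣 ≤ w.asIdeal ∧ LSq (below K w) (-d) then 1 else 0)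

/-- The root number. -/
def RootSt : Prop :=
  ∀ {d : K} {E : Quad K L d} {𝔣 a ψ χ}, HD E 𝔣 a ψ χ → RH E 𝔣 ψ →
    ∀ (sec : Pr K → Pr L) (ε : Pr K → ZMod 2) (S : Finset (Pr K)), (∀ v, below K (sec v) = v) →
    (∀ v x, Ng 𝔣 (sec v) x → χ x = sg ℤ (ε v)) → (∀ v ∉ S, ¬ 𝔣 ≤ (sec v).asIdeal) →
    ∃ 𝔠 γ₀, Gm E 𝔣 𝔠 γ₀ ∧ ∃ r : ℝ, 0 ≤ r ∧ Wt 𝔣 𝔠 a ψ χ (algebraMap K L γ₀) =
      r * sg ℂ ((Fintype.card (K →+* ℝ) : ZMod 2) + ((∑ k : Ty a, a k.1 : ℤ) : ZMod 2) +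
        ∑ v ∈ S, bv d 𝔣 sec ε v)

end Pool.Agent.SC
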