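import Pool.Agent.Lib.MP_b4b3cb_nt.StF

/-! The functional equation of the theta series. -/

namespace Pool.Agent.SC

open NumberField Pool.Agent.Stark
open scoped Classical ComplexConjugate

namespace ThFEAux

theorem split {A : Type} [CommRing A] {𝔪 𝔟 : Ideal A} (h : 𝔪 ≤ 𝔟) {R : Finset A}
    (hR : IsRep 𝔪.toAddSubgroup 𝔟.toAddSubgroup R) (F : A → ℂ)
    (hF : Summable fun x : 𝔟 => F x.1) :
    ∑' x : 𝔟, F x.1 = ∑ c ∈ R, ∑' u : 𝔪, F (c + u.1) := by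
  let g : R × 𝔪 → 𝔟 := fun p => ⟨p.1.1 + p.2.1, 𝔟.add_mem (hR.1 _ p.1.2) (h p.2.2)⟩
  have bij : Function.Bijective g := by
    constructor
    · intro p q hpq
      have e : p.1.1 + p.2.1 = q.1.1 + q.2.1 := congrArg Subtype.val hpq
      have e1 : p.1.1 = q.1.1 := by
        refine hR.eq_of_sub p.1.2 q.1.2 ?_
        have : p.1.1 - q.1.1 = q.2.1 - p.2.1 := by linear_combination e
        rw [this]
        exact 𝔪.sub_mem q.2.2 p.2.2
      rw [e1] at e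
      exact Prod.ext (Subtype.ext e1) (Subtype.ext (add_left_cancel e))
    · intro x
      obtain ⟨c, ⟨hc, hx⟩, -⟩ := hR.2 x.1 x.2
      exact ⟨(⟨c, hc⟩, ⟨x.1 - c, hx⟩), Subtype.ext (by simp [g])⟩
  let e := Equiv.ofBijective g bij
  have hs : Summable fun p : R × 𝔪 => F (e p).1 := (e.summable_iff (f := fun x : 𝔟 => F x.1)).2 hF
  rw [← e.tsum_eq, hs.tsum_prod, tsum_fintype, ← Finset.sum_coe_sort R]
  rfl

theorem norm_eTr {F : Type} [Field F] [NumberField F] (x : F) : ‖eTr x‖ = 1 := by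
  have : (2 * Real.pi * Complex.I * ((Algebra.trace ℚ F x : ℚ) : ℂ) : ℂ) =
      ((2 * Real.pi * ((Algebra.trace ℚ F x : ℚ) : ℝ) : ℝ) : ℂ) * Complex.I := by
    push_cast
    ring
  rw [eTr, this, Complex.norm_exp_ofReal_mul_I]

end ThFEAux

variable {K L : Type} [Field K] [NumberField K] [Field L] [NumberField L] [Algebra K L]

theorem st_ThFE (hP : PoisLSt K L) (hG : GaussSt K L) (hS : GsSt) (hF : FzSt) (hC : CmSt K L) :
    ThFESt K L := by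
  intro d E 𝔣 𝔠 a ψ χ γ₀ H G
  obtain ⟨Vol, hV, hPo⟩ := hP H.cm
  refine ⟨Vol, hV, fun 𝔟 𝔟' β h1 h2 hβ hprod y => ?_⟩
  obtain ⟨hDu, hsum⟩ := hG H G 𝔟 𝔟' β h1 h2 hβ hprod
  have hb : 𝔟 ≠ ⊥ := by
    rintro rfl
    rw [Ideal.map_bot, Ideal.bot_mul, Ideal.bot_mul] at hprod
    exact hβ (Ideal.span_singleton_eq_bot.1 hprod.symm)
  have hm : 𝔣 * 𝔟 ≠ ⊥ := mul_ne_zero H.ne hb
  obtain ⟨R, hR⟩ := hS.ex (𝔪 := 𝔣 * 𝔟) 𝔟 hm
  have hα0 : algebraMap K L γ₀ / β ≠ 0 :=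
    div_ne_zero ((map_ne_zero _).2 G.ne) (by exact_mod_cast hβ)
  generalize algebraMap K L γ₀ / β = α at hDu hsum hα0 ⊢
  generalize tau0 𝔣 χ (algebraMap K L γ₀) = τ₀ at hsum ⊢
  have hχ : ∀ x, ‖(χ x : ℂ)‖ ≤ 1 := fun x => by
    rcases H.val x with h | h | h <;> simp [h]
  have hs0 : Summable fun x : 𝔟 => (χ x.1 : ℂ) * fz (mm a) y (ez a (x.1 : L)) := by
    have := (hPo 𝔟 hb (mm a) y 0).1
    simp only [zero_add] at this
    refine Summable.of_norm_bounded this fun x => ?_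
    rw [norm_mul]
    exact mul_le_of_le_one_left (norm_nonneg _) (hχ _)
  have hsD := (hPo _ hm (mm a) y 0).2.1
  have e1 : th a χ 𝔟 y = ∑ c ∈ R, ∑' u : (𝔣 * 𝔟 : Ideal (𝓞 L)),
      (χ (c + u.1) : ℂ) * fz (mm a) y (ez a ((c + u.1 : 𝓞 L) : L)) := by
    have hle : 𝔣 * 𝔟 ≤ 𝔟 := Ideal.mul_le_right
    have := ThFEAux.split hle hR (fun x => (χ x : ℂ) * fz (mm a) y (ez a (x : L))) hs0
    unfold th
    exact this
  obtain ⟨C, hCd⟩ : ∃ C : ℂ,
      C = (-Complex.I) ^ (∑ k, mm a k) / ((Ideal.absNorm (𝔣 * 𝔟) * Vol : ℝ) : ℂ) := ⟨_, rfl⟩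
  have e2 : ∀ c : 𝓞 L, ∑' u : (𝔣 * 𝔟 : Ideal (𝓞 L)),
      (χ (c + u.1) : ℂ) * fz (mm a) y (ez a ((c + u.1 : 𝓞 L) : L)) =
      C * ∑' ξ : Du E (𝔣 * 𝔟), fz (mm a) (-y) (ez a ξ.1) *
        ((χ c : ℂ) * eTr ((c : L) * E.tau ξ.1)) := by
    intro c
    have : ∀ u : (𝔣 * 𝔟 : Ideal (𝓞 L)), χ (c + u.1) = χ c := fun u =>
      H.per _ _ (by simpa using Ideal.mul_le_left u.2)
    simp only [this]
    rw [tsum_mul_left, (hPo _ hm (mm a) y c).2.2, ← hCd, mul_left_comm, ← tsum_mul_left]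
    congr 1
    exact tsum_congr fun ξ => by ring
  have hsc : ∀ c ∈ R, Summable fun ξ : Du E (𝔣 * 𝔟) => fz (mm a) (-y) (ez a ξ.1) *
      ((χ c : ℂ) * eTr ((c : L) * E.tau ξ.1)) := fun c _ => by
    refine Summable.of_norm_bounded hsD fun ξ => ?_
    rw [norm_mul, norm_mul, ThFEAux.norm_eTr, mul_one]
    exact mul_le_of_le_one_right (norm_nonneg _) (hχ _)
  let g : 𝔟' → Du E (𝔣 * 𝔟) := fun x => ⟨α * (x.1 : L), (hDu _).2 ⟨x.1, x.2, rfl⟩⟩
  have bij : Function.Bijective g := by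
    constructor
    · intro x x' h
      have h' : α * (x.1 : L) = α * (x'.1 : L) := congrArg Subtype.val h
      exact Subtype.ext (Subtype.ext (mul_left_cancel₀ hα0 h'))
    · intro ξ
      obtain ⟨x, hx, e⟩ := (hDu ξ.1).1 ξ.2
      exact ⟨⟨x, hx⟩, Subtype.ext e.symm⟩
  have e3 : ∀ x : 𝔟', ∑ c ∈ R, fz (mm a) (-y) (ez a (g x).1) *
      ((χ c : ℂ) * eTr ((c : L) * E.tau (g x).1)) =
      (τ₀ * χ β * pinf a α) * ((χ x.1 : ℂ) *
        fz (mm a) ((fun k : Ty a => Real.log ‖k.1 α‖) - y) (ez a (x.1 : L))) := by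
    intro x
    rw [← Finset.mul_sum]
    have h3 : ∑ c ∈ R, (χ c : ℂ) * eTr ((c : L) * E.tau (g x).1) =
        χ β * χ x.1 * τ₀ := hsum R hR x.1 x.2
    have h4 : ez a (g x).1 = fun k => ez a α k * ez a (x.1 : L) k := by
      funext k
      simp [g, ez]
    have h5 : (fun k : Ty a => (-y) k + Real.log ‖ez a α k‖) =
        (fun k : Ty a => Real.log ‖k.1 α‖) - y := by
      funext k
      simp only [ez, Pi.neg_apply, Pi.sub_apply]
      ring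
    rw [h3, h4, hF.scale (mm a) (-y) (ez a α) (ez a (x.1 : L))
      (fun k : Ty a => (map_ne_zero k.1).2 hα0), h5,
      hC.pinf_eq H.cm α hα0]
    ring
  rw [e1, Finset.sum_congr rfl fun c _ => e2 c, ← Finset.mul_sum, ← Summable.tsum_finsetSum hsc,
    ← (Equiv.ofBijective g bij).tsum_eq]
  simp only [Equiv.ofBijective_apply, e3]
  rw [tsum_mul_left, hCd]
  unfold th
  generalize (∑' x : 𝔟', (χ x.1 : ℂ) *
    fz (mm a) ((fun k : Ty a => Real.log ‖k.1 α‖) - y) (ez a (x.1 : L))) = Z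
  ring

end Pool.Agent.SC
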